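import Mathlib
import Pool.Agent.H295R2.Z

set_option autoImplicit false

/-!
# Baez-Duarte's distance: definitions and the statements of the parts
-/

namespace Pool.Agent.N967

open Complex MeasureTheory
open Pool.Agent.H295R2 (fz)

/-- the Dirichlet polynomial of length `N` with coefficients `a` -/
noncomputable def DP (N : ℕ) (a : ℕ → ℂ) (s : ℂ) : ℂ := ∑ n ∈ Finset.Icc 1 N, a n * (n : ℂ) ^ (-s)

/-- the integrand -/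
noncomputable def ig (N : ℕ) (a : ℕ → ℂ) (t : ℝ) : ℝ :=
  ‖1 - riemannZeta (1 / 2 + t * I) * DP N a (1 / 2 + t * I)‖ ^ 2 / (1 / 4 + t ^ 2)

/-- the square of the norm of `1 - ζ A` -/
noncomputable def err (N : ℕ) (a : ℕ → ℂ) : ℝ := 1 / (2 * Real.pi) * ∫ t : ℝ, ig N a t

/-- the square of Baez-Duarte's distance -/
noncomputable def dd (N : ℕ) : ℝ := ⨅ a : ℕ → ℂ, err N a

/-- all integrals converge -/
def S_int : Prop := ∀ (N : ℕ) (a : ℕ → ℂ), Integrable (ig N a)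

/-- zeros to the right of the critical line -/
def S_low1 : Prop := ∀ ρ : ℂ, riemannZeta ρ = 0 → 1 / 2 < ρ.re → ∃ c : ℝ, 0 < c ∧ ∀ (N : ℕ) (a : ℕ → ℂ), c ≤ err N a

/-- zeros on the critical line -/
def S_low2 : Prop := ∀ ρ : ℂ, riemannZeta ρ = 0 → ρ.re = 1 / 2 → ∃ c : ℝ, ∃ N0 : ℕ, 0 < c ∧ 2 ≤ N0 ∧
  ∀ N : ℕ, N0 ≤ N → ∀ a : ℕ → ℂ, c / Real.log N ≤ err N a

/-- shift of a vertical line across the pole at `0` -/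
def S_shift : Prop := ∀ (F : ℂ → ℂ) (a b B : ℝ), a < 0 → 0 < b →
  (∀ z : ℂ, a ≤ z.re → z.re ≤ b → DifferentiableAt ℂ F z) →
  (∀ z : ℂ, a ≤ z.re → z.re ≤ b → ‖F z‖ ≤ B * (1 + |z.im|) ^ (-(1 / 2 : ℝ))) →
  (∫ y : ℝ, F (b + y * I) / (b + y * I)) - (∫ y : ℝ, F (a + y * I) / (a + y * I)) = 2 * Real.pi * F 0

/-- the decay of the kernel -/
noncomputable def KL (c L y : ℝ) : ℝ := Real.exp (-(c * min |y| L / Real.log L)) / (1 + |y| / L) ^ 8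

/-- the kernel -/
def S_kern : Prop := ∃ c C L0 : ℝ, 0 < c ∧ 0 < C ∧ 2 ≤ L0 ∧ ∀ L : ℝ, L0 ≤ L → ∃ m : ℂ → ℂ,
  Differentiable ℂ m ∧ m 0 = 1 ∧
  (∀ z : ℂ, 0 ≤ z.re → ‖m z‖ ≤ C * Real.exp (-(z.re / 2)) * KL c L z.im) ∧
  (∀ z : ℂ, z.re ≤ 0 → ‖m z‖ ≤ C * Real.exp (-z.re) * KL c L z.im)

/-- the approximation of `1 / ζ` by Dirichlet polynomials -/
def S_app : Prop := RiemannHypothesis → ∀ (ε L B : ℝ) (m : ℂ → ℂ), 0 < ε → ε ≤ 1 / 4 → 1 ≤ L →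
  Differentiable ℂ m → m 0 = 1 →
  (∀ z : ℂ, 0 ≤ z.re → ‖m z‖ ≤ B / (1 + |z.im|) ^ 8) →
  (∀ z : ℂ, z.re ≤ 0 → ‖m z‖ ≤ B * Real.exp (-z.re) / (1 + |z.im|) ^ 8) →
  ∀ N : ℕ, L ≤ Real.log (N + 1) → ∃ a : ℕ → ℂ, ∀ t : ℝ,
    DP N a (1 / 2 + t * I) = fz (1 / 2 + ε + t * I) -
      1 / (2 * Real.pi) * ∫ y : ℝ, m (((L * ε / 2 : ℝ) : ℂ) + y * I) / (((L * ε / 2 : ℝ) : ℂ) + y * I) *
        fz (1 / 2 + ε + t * I - (((L * ε / 2 : ℝ) : ℂ) + y * I) / L)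

/-- the distance of `ζ(s) / ζ(s + ε)` from `1` -/
def S_first : Prop := RiemannHypothesis → ∃ C e0 : ℝ, 0 < C ∧ 0 < e0 ∧ ∀ ε : ℝ, 0 < ε → ε ≤ e0 →
  Integrable (fun t : ℝ => ‖1 - riemannZeta (1 / 2 + t * I) * fz (1 / 2 + ε + t * I)‖ ^ 2 / (1 / 4 + t ^ 2)) ∧
  ∫ t : ℝ, ‖1 - riemannZeta (1 / 2 + t * I) * fz (1 / 2 + ε + t * I)‖ ^ 2 / (1 / 4 + t ^ 2) ≤ C * ε

/-- the pointwise bound for the ratio -/
def S_ratio : Prop := RiemannHypothesis → ∀ η : ℝ, 0 < η → η ≤ 1 / 16 → ∃ C b0 : ℝ, 0 < C ∧ 0 < b0 ∧ b0 ≤ 1 / 4 ∧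
  ∀ b t v : ℝ, 0 < b → b ≤ b0 →
    ‖riemannZeta (1 / 2 + t * I)‖ * ‖fz (1 / 2 + b + (t - v) * I)‖ ≤
      C * b ^ (-C) * (1 + |v|) * (1 + |t|) ^ ((1 - η) / 2) * Real.exp (C * (1 + min |v| 1 / b) ^ (1 + 8 * η))

end Pool.Agent.N967
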