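import Mathlib
import Pool.Agent.N967.Defs
import Pool.Agent.H295R2.P
import Pool.Agent.N831.LI.RH

set_option autoImplicit false

/-!
# Baez-Duarte's distance: contour shift across a pole, and the approximation of `1 / ζ` under RH
-/

namespace Pool.Agent.N967

open Complex MeasureTheory Set Filter Topology
open Pool.Agent.H295R2 (fz Zs contour_shift vertical_integrable integrable_decay)

namespace AppAux

lemma integral_cauchy {x : ℝ} (hx : x ≠ 0) : ∫ y : ℝ, x / (x ^ 2 + y ^ 2) = |x| / x * Real.pi := by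
  have h1 : ∀ y : ℝ, x / (x ^ 2 + y ^ 2) = x⁻¹ * (fun u : ℝ => (1 + u ^ 2)⁻¹) (y / x) := by
    intro y
    have : x ^ 2 + y ^ 2 ≠ 0 := by positivity
    have h2 : 1 + (y / x) ^ 2 = (x ^ 2 + y ^ 2) / x ^ 2 := by
      field_simp
    simp only [h2]
    field_simp
  simp_rw [h1]
  rw [integral_const_mul, Measure.integral_comp_div (fun u : ℝ => (1 + u ^ 2)⁻¹) x,
    integral_univ_inv_one_add_sq, smul_eq_mul]
  field_simp

lemma norm_ge {x y : ℝ} (hx : x ≠ 0) : (1 + |y|) / (1 / |x| + 1) ≤ ‖(x : ℂ) + y * I‖ := by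
  have h1 : |x| ≤ ‖(x : ℂ) + y * I‖ := by
    have := Complex.abs_re_le_norm ((x : ℂ) + y * I)
    simpa using this
  have h2 : |y| ≤ ‖(x : ℂ) + y * I‖ := by
    have := Complex.abs_im_le_norm ((x : ℂ) + y * I)
    simpa using this
  have h3 : 0 < |x| := abs_pos.mpr hx
  rw [div_le_iff₀ (by positivity)]
  have h4 : 1 ≤ ‖(x : ℂ) + y * I‖ * (1 / |x|) := by
    rw [mul_one_div, le_div_iff₀ h3, one_mul]
    exact h1
  linarith

lemma integrable_cauchy (x : ℝ) (hx : x ≠ 0) : Integrable (fun y : ℝ => x / (x ^ 2 + y ^ 2)) := by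
  have h1 : ∀ y : ℝ, x / (x ^ 2 + y ^ 2) = x⁻¹ * (fun u : ℝ => (1 + u ^ 2)⁻¹) (y / x) := by
    intro y
    have : x ^ 2 + y ^ 2 ≠ 0 := by positivity
    have h2 : 1 + (y / x) ^ 2 = (x ^ 2 + y ^ 2) / x ^ 2 := by
      field_simp
    simp only [h2]
    field_simp
  simp_rw [h1]
  exact (integrable_inv_one_add_sq.comp_div hx).const_mul _

/-- the integral of `R / (z (z + R))` over the vertical line through `x` -/
lemma integral_pole {x R : ℝ} (hx : x ≠ 0) (hR : 0 < R) (hxR : 0 < x + R) :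
    Integrable (fun y : ℝ => (R : ℂ) / (((x : ℂ) + y * I) * ((x : ℂ) + y * I + R))) ∧
    ∫ y : ℝ, (R : ℂ) / (((x : ℂ) + y * I) * ((x : ℂ) + y * I + R)) =
      ((|x| / x - 1) * Real.pi : ℝ) := by
  set f : ℝ → ℂ := fun y : ℝ => (R : ℂ) / (((x : ℂ) + y * I) * ((x : ℂ) + y * I + R)) with hf
  have hz : ∀ y : ℝ, (x : ℂ) + y * I ≠ 0 := by
    intro y h
    have := congrArg Complex.re h
    simp at this
    exact hx this
  have hzR : ∀ y : ℝ, (x : ℂ) + y * I + R ≠ 0 := by
    intro y h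
    have := congrArg Complex.re h
    simp at this
    linarith
  have hcont : Continuous f := by
    rw [hf]
    refine Continuous.div (by fun_prop) (by fun_prop) ?_
    intro y
    exact mul_ne_zero (hz y) (hzR y)
  have hx' : x + R ≠ 0 := hxR.ne'
  have hint : Integrable f := by
    refine (integrable_decay.const_mul (R * (1 / |x| + 1) * (1 / |x + R| + 1))).mono'
      hcont.aestronglyMeasurable (Eventually.of_forall fun y => ?_)
    have e1 := norm_ge (y := y) hx
    have e2 := norm_ge (y := y) hx'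
    have e3 : (((x + R : ℝ) : ℂ) + y * I) = (x : ℂ) + y * I + R := by push_cast; ring
    rw [e3] at e2
    have hp : 0 < 1 + |y| := by positivity
    have hk1 : 0 < 1 / |x| + 1 := by positivity
    have hk2 : 0 < 1 / |x + R| + 1 := by positivity
    rw [hf]
    simp only [norm_div, norm_mul, Complex.norm_real, Real.norm_of_nonneg hR.le]
    calc R / (‖(x : ℂ) + y * I‖ * ‖(x : ℂ) + y * I + R‖)
        ≤ R / (((1 + |y|) / (1 / |x| + 1)) * ((1 + |y|) / (1 / |x + R| + 1))) := by gcongr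
      _ = R * (1 / |x| + 1) * (1 / |x + R| + 1) * ((1 + |y|) ^ (-(2 : ℝ))) := by
          rw [Real.rpow_neg hp.le, Real.rpow_two]
          field_simp
      _ ≤ R * (1 / |x| + 1) * (1 / |x + R| + 1) * ((1 + |y|) ^ (-(3 / 2 : ℝ))) := by
          have : (1 + |y|) ^ (-(2 : ℝ)) ≤ (1 + |y|) ^ (-(3 / 2 : ℝ)) :=
            Real.rpow_le_rpow_of_exponent_le (by linarith [abs_nonneg y]) (by norm_num)
          gcongr
  refine ⟨hint, ?_⟩
  have hconj : ∀ y : ℝ, f (-y) = (starRingEnd ℂ) (f y) := by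
    intro y
    rw [hf]
    simp only [map_div₀, map_mul, map_add, Complex.conj_ofReal, Complex.conj_I]
    push_cast
    congr 1
    ring
  have h1 : (starRingEnd ℂ) (∫ y : ℝ, f y) = ∫ y : ℝ, f y := by
    rw [← integral_conj]
    simp_rw [← hconj]
    exact integral_neg_eq_self f volume
  have h2 : (((∫ y : ℝ, f y).re : ℝ) : ℂ) = ∫ y : ℝ, f y := Complex.conj_eq_iff_re.mp h1
  have h3 : (∫ y : ℝ, f y).re = ∫ y : ℝ, (f y).re := by
    have := integral_re (𝕜 := ℂ) hint
    simpa using this.symm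
  have h4 : ∀ y : ℝ, (f y).re = x / (x ^ 2 + y ^ 2) - (x + R) / ((x + R) ^ 2 + y ^ 2) := by
    intro y
    have e1 : f y = ((x : ℂ) + y * I)⁻¹ - ((x : ℂ) + y * I + R)⁻¹ := by
      rw [hf]
      have := hz y
      have := hzR y
      simp only
      field_simp
      ring
    rw [e1, Complex.sub_re, Complex.inv_re, Complex.inv_re]
    simp [Complex.normSq_apply]
    ring_nf
  rw [← h2, h3]
  simp_rw [h4]
  rw [integral_sub (integrable_cauchy x hx) (integrable_cauchy (x + R) hx'), integral_cauchy hx,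
    integral_cauchy hx', abs_of_pos hxR, div_self hx']
  congr 1
  ring

lemma pow_aux {y C : ℝ} {u : ℝ} (hu : u ≤ C * (1 + |y|)⁻¹ * (1 + |y|) ^ (-(1 / 2 : ℝ))) :
    u ≤ C * (1 + |y|) ^ (-(3 / 2 : ℝ)) := by
  have hp : 0 < 1 + |y| := by positivity
  have : (1 + |y|) ^ (-(3 / 2 : ℝ)) = (1 + |y|)⁻¹ * (1 + |y|) ^ (-(1 / 2 : ℝ)) := by
    rw [← Real.rpow_neg_one, ← Real.rpow_add hp]
    norm_num
  rw [this, ← mul_assoc]
  exact hu

/-- integrability of `F z / z` on a vertical line -/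
lemma line_integrable {F : ℂ → ℂ} {x B : ℝ} (hx : x ≠ 0)
    (hd : ∀ z : ℂ, z.re = x → DifferentiableAt ℂ F z)
    (hB : ∀ z : ℂ, z.re = x → ‖F z‖ ≤ B * (1 + |z.im|) ^ (-(1 / 2 : ℝ))) :
    Integrable (fun y : ℝ => F (x + y * I) / (x + y * I)) := by
  have hB0 : 0 ≤ B := by
    have := hB x (by simp)
    simp at this
    exact (norm_nonneg _).trans this
  refine vertical_integrable (H := fun z => F z / z) (a := x) (B := B * (1 / |x| + 1)) ?_ ?_
  · intro s hs
    have h1 : s ≠ 0 := by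
      rintro rfl
      simp at hs
      exact hx hs.symm
    exact ((hd s hs).div differentiableAt_id h1).continuousAt
  · intro s hs
    refine pow_aux ?_
    have e1 := norm_ge (y := s.im) hx
    have e2 : (x : ℂ) + s.im * I = s := by
      rw [← hs]
      exact Complex.re_add_im s
    rw [e2] at e1
    have e3 := hB s hs
    have hp : 0 < 1 + |s.im| := by positivity
    have hk1 : 0 < 1 / |x| + 1 := by positivity
    rw [norm_div]
    calc ‖F s‖ / ‖s‖ ≤ (B * (1 + |s.im|) ^ (-(1 / 2 : ℝ))) / ((1 + |s.im|) / (1 / |x| + 1)) := by gcongr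
      _ = B * (1 / |x| + 1) * (1 + |s.im|)⁻¹ * (1 + |s.im|) ^ (-(1 / 2 : ℝ)) := by field_simp

end AppAux

open AppAux in
theorem shift : S_shift := by
  intro F a b B ha hb hd hB
  have hB0 : 0 ≤ B := by
    have := hB 0 (by simpa using ha.le) (by simpa using hb.le)
    simp at this
    exact (norm_nonneg _).trans this
  set R : ℝ := 1 - a with hR
  have hRp : 0 < R := by rw [hR]; linarith
  have hRc : (R : ℂ) ≠ 0 := by exact_mod_cast hRp.ne'
  -- the auxiliary function
  set H : ℂ → ℂ := fun z => F z - F 0 * (R / (z + R)) with hH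
  have hH0 : H 0 = 0 := by
    simp only [hH, zero_add, div_self hRc, mul_one, sub_self]
  have hzR : ∀ z : ℂ, a ≤ z.re → z + R ≠ 0 := by
    intro z hz h
    have := congrArg Complex.re h
    simp at this
    linarith
  have hHd : ∀ z : ℂ, a ≤ z.re → z.re ≤ b → DifferentiableAt ℂ H z := by
    intro z hz hz'
    have e1 := hd z hz hz'
    have e2 := hzR z hz
    have e3 : DifferentiableAt ℂ (fun z : ℂ => z + (R : ℂ)) z := by fun_prop
    have e4 : DifferentiableAt ℂ (fun z : ℂ => (R : ℂ) / (z + R)) z :=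
      (differentiableAt_const _).div e3 e2
    exact e1.sub (e4.const_mul _)
  set G : ℂ → ℂ := dslope H 0 with hG
  have hGne : ∀ z : ℂ, z ≠ 0 → G z = F z / z - F 0 * (R / (z * (z + R))) := by
    intro z hz
    rw [hG, dslope_of_ne _ hz, slope_def_field, hH0, sub_zero, sub_zero]
    simp only [hH]
    rw [sub_div, mul_div_assoc, div_div, mul_comm (z + (R : ℂ)) z]
  have hGd : ∀ z : ℂ, a ≤ z.re → z.re ≤ b → DifferentiableAt ℂ G z := by
    intro z hz hz'
    by_cases h0 : z = 0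
    · have hs : {z : ℂ | a < z.re ∧ z.re < b} ∈ 𝓝 (0 : ℂ) := by
        refine IsOpen.mem_nhds ?_ (by simp [ha, hb])
        exact (isOpen_lt continuous_const Complex.continuous_re).inter
          (isOpen_lt Complex.continuous_re continuous_const)
      have := (Complex.differentiableOn_dslope hs (f := H)).mpr
        (fun z hz => (hHd z hz.1.le hz.2.le).differentiableWithinAt)
      rw [h0]
      exact this.differentiableAt hs
    · exact (differentiableAt_dslope_of_ne h0).mpr (hHd z hz hz')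
  -- the bound
  have hcomp : IsCompact (Icc a b ×ℂ Icc (-1) 1) := isCompact_Icc.reProdIm isCompact_Icc
  obtain ⟨M, hM⟩ := hcomp.exists_bound_of_continuousOn (f := G) (by
    intro z hz
    rw [Complex.mem_reProdIm] at hz
    exact (hGd z hz.1.1 hz.1.2).continuousAt.continuousWithinAt)
  have hM0 : 0 ≤ M := (norm_nonneg _).trans (hM 0 (by simp [Complex.mem_reProdIm, ha.le, hb.le]))
  set B' : ℝ := 4 * M + (2 * B + 4 * (‖F 0‖ * R)) with hB'
  have hB'0 : 0 ≤ B' := by positivity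
  have hGB : ∀ z : ℂ, a ≤ z.re → z.re ≤ b → ‖G z‖ ≤ B' * (1 + |z.im|) ^ (-(3 / 2 : ℝ)) := by
    intro z hz hz'
    have hp : 0 < 1 + |z.im| := by positivity
    rcases le_or_gt |z.im| 1 with h1 | h1
    · have h2 : ‖G z‖ ≤ M := hM z (by
        rw [Complex.mem_reProdIm]
        exact ⟨⟨hz, hz'⟩, abs_le.mp h1⟩)
      have h3 : (1 / 4 : ℝ) ≤ (1 + |z.im|) ^ (-(3 / 2 : ℝ)) := by
        calc (1 / 4 : ℝ) = (2 : ℝ) ^ (-(2 : ℝ)) := by
              rw [Real.rpow_neg (by norm_num), Real.rpow_two]; norm_num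
          _ ≤ (2 : ℝ) ^ (-(3 / 2 : ℝ)) := Real.rpow_le_rpow_of_exponent_le (by norm_num) (by norm_num)
          _ ≤ (1 + |z.im|) ^ (-(3 / 2 : ℝ)) :=
              Real.rpow_le_rpow_of_nonpos hp (by linarith) (by norm_num)
      calc ‖G z‖ ≤ M := h2
        _ ≤ B' * (1 / 4) := by
            have : 0 ≤ (2 * B + 4 * (‖F 0‖ * R)) := by positivity
            rw [hB']
            linarith
        _ ≤ _ := by gcongr
    · have hz0 : z ≠ 0 := by
        rintro rfl
        simp at h1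
        linarith
      have hzn : (1 + |z.im|) / 2 ≤ ‖z‖ := by
        have := Complex.abs_im_le_norm z
        linarith
      have hzn2 : (1 + |z.im|) / 2 ≤ ‖z + R‖ := by
        have := Complex.abs_im_le_norm (z + R)
        simp at this
        linarith
      rw [hGne z hz0]
      refine pow_aux ?_
      have e1 := hB z hz hz'
      have e3 : (1 + |z.im|)⁻¹ ≤ (1 + |z.im|) ^ (-(1 / 2 : ℝ)) := by
        rw [← Real.rpow_neg_one]
        exact Real.rpow_le_rpow_of_exponent_le (by linarith [abs_nonneg z.im]) (by norm_num)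
      calc ‖F z / z - F 0 * (R / (z * (z + R)))‖ ≤ ‖F z / z‖ + ‖F 0 * (R / (z * (z + R)))‖ := norm_sub_le _ _
        _ = ‖F z‖ / ‖z‖ + ‖F 0‖ * (R / (‖z‖ * ‖z + R‖)) := by
            rw [norm_div, norm_mul, norm_div, norm_mul, Complex.norm_real, Real.norm_of_nonneg hRp.le]
        _ ≤ (B * (1 + |z.im|) ^ (-(1 / 2 : ℝ))) / ((1 + |z.im|) / 2) +
            ‖F 0‖ * (R / (((1 + |z.im|) / 2) * ((1 + |z.im|) / 2))) := by gcongr
        _ = (2 * B) * (1 + |z.im|)⁻¹ * (1 + |z.im|) ^ (-(1 / 2 : ℝ)) +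
            (4 * (‖F 0‖ * R)) * (1 + |z.im|)⁻¹ * (1 + |z.im|)⁻¹ := by field_simp; ring
        _ ≤ (2 * B) * (1 + |z.im|)⁻¹ * (1 + |z.im|) ^ (-(1 / 2 : ℝ)) +
            (4 * (‖F 0‖ * R)) * (1 + |z.im|)⁻¹ * (1 + |z.im|) ^ (-(1 / 2 : ℝ)) := by gcongr
        _ = (2 * B + 4 * (‖F 0‖ * R)) * (1 + |z.im|)⁻¹ * (1 + |z.im|) ^ (-(1 / 2 : ℝ)) := by ring
        _ ≤ B' * (1 + |z.im|)⁻¹ * (1 + |z.im|) ^ (-(1 / 2 : ℝ)) := by
            gcongr
            rw [hB']
            linarith
  have hshift := contour_shift (ha.le.trans hb.le) hGd hGB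
  -- evaluation on a vertical line
  have hline : ∀ x : ℝ, x ≠ 0 → a ≤ x → x ≤ b → ∫ y : ℝ, G (x + y * I) =
      (∫ y : ℝ, F (x + y * I) / (x + y * I)) - F 0 * (((|x| / x - 1) * Real.pi : ℝ) : ℂ) := by
    intro x hx hax hxb
    have h1 := line_integrable (F := F) (x := x) (B := B) hx
      (fun z hz => hd z (by rw [hz]; exact hax) (by rw [hz]; exact hxb))
      (fun z hz => hB z (by rw [hz]; exact hax) (by rw [hz]; exact hxb))
    obtain ⟨h2, h3⟩ := integral_pole (x := x) (R := R) hx hRp (by rw [hR]; linarith)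
    rw [← h3, ← integral_const_mul, ← integral_sub h1 (h2.const_mul _)]
    congr 1
    funext y
    refine hGne _ ?_
    intro h
    have := congrArg Complex.re h
    simp at this
    exact hx this
  rw [hline a ha.ne le_rfl (ha.le.trans hb.le), hline b hb.ne' (ha.le.trans hb.le) le_rfl] at hshift
  have ea : |a| / a = -1 := by
    rw [abs_of_neg ha, neg_div, div_self ha.ne]
  have eb : |b| / b = 1 := by
    rw [abs_of_pos hb, div_self hb.ne']
  rw [ea, eb] at hshift
  push_cast at hshift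
  linear_combination -hshift

namespace AppAux

lemma Zs_ne_zero_of_rh (h : RiemannHypothesis) {s : ℂ} (hs : 1 / 2 < s.re) : Zs s ≠ 0 := by
  by_cases h1 : s = 1
  · exact Pool.Agent.H295R2.Zs_ne_zero_of_one_le (by rw [h1]; simp)
  · rw [← Pool.Agent.H295R2.Zs_eq h1]
    refine mul_ne_zero (sub_ne_zero.mpr h1) ?_
    intro h0
    have := Pool.Agent.N831.LI.right_of_rh h h0
    linarith

lemma fz_bound_rh (h : RiemannHypothesis) {σ : ℝ} (hσ : 1 / 2 < σ) :
    ∃ C : ℝ, 0 < C ∧ ∀ s : ℂ, σ ≤ s.re → ‖fz s‖ ≤ C * (1 + |s.im|) := by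
  obtain ⟨C, hC, hC'⟩ := Pool.Agent.H295R2.fz_bound (θ := 1 / 2) (σ := σ) (ε := 1) (by norm_num)
    (fun s hs => Zs_ne_zero_of_rh h hs) hσ one_pos
  obtain ⟨K, hK, hK'⟩ := Pool.Agent.H295R2.zeta_bounds (a := 2) (by norm_num)
  refine ⟨C + K, by linarith, fun s hs => ?_⟩
  have hp : 1 ≤ 1 + |s.im| := by linarith [abs_nonneg s.im]
  rcases le_or_gt s.re 2 with h2 | h2
  · have := hC' s hs h2
    rw [Real.rpow_one] at this
    nlinarith
  · have := (hK' s h2.le).2
    nlinarith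

lemma pow8_le (y : ℝ) : 1 / (1 + |y|) ^ 8 ≤ (1 + |y|) ^ (-(3 / 2 : ℝ)) := by
  have hp : 1 ≤ 1 + |y| := by linarith [abs_nonneg y]
  have h1 : 1 / (1 + |y|) ^ 8 = (1 + |y|) ^ (-(8 : ℝ)) := by
    rw [Real.rpow_neg (by linarith), one_div]
    congr 1
    exact_mod_cast (Real.rpow_natCast (1 + |y|) 8).symm
  rw [h1]
  exact Real.rpow_le_rpow_of_exponent_le hp (by norm_num)

lemma pow7_le (y : ℝ) : (1 + |y|) * (1 / (1 + |y|) ^ 8) ≤ (1 + |y|) ^ (-(1 / 2 : ℝ)) := by
  have hp : 1 ≤ 1 + |y| := by linarith [abs_nonneg y]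
  have h1 : (1 + |y|) * (1 / (1 + |y|) ^ 8) = (1 + |y|) ^ (-(7 : ℝ)) := by
    rw [Real.rpow_neg (by linarith)]
    have : (1 + |y|) ^ (7 : ℝ) = (1 + |y|) ^ 7 := by exact_mod_cast Real.rpow_natCast (1 + |y|) 7
    rw [this]
    field_simp
  rw [h1]
  exact Real.rpow_le_rpow_of_exponent_le hp (by norm_num)

/-- the weight vanishes from `1` on -/
lemma weight_zero {m : ℂ → ℂ} {B b x : ℝ} (hm : Differentiable ℂ m)
    (hB : ∀ z : ℂ, z.re ≤ 0 → ‖m z‖ ≤ B * Real.exp (-z.re) / (1 + |z.im|) ^ 8) (hb : 0 < b) (hx : 1 ≤ x) :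
    ∫ y : ℝ, m (((-b : ℝ) : ℂ) + y * I) / (((-b : ℝ) : ℂ) + y * I) *
      Complex.exp ((((-b : ℝ) : ℂ) + y * I) * x) = 0 := by
  have hB0 : 0 ≤ B := by
    have := hB 0 (by simp)
    simp at this
    exact (norm_nonneg _).trans this
  set H : ℂ → ℂ := fun z => m z / z * Complex.exp (z * x) with hH
  -- the bound
  have hHB : ∀ (d : ℝ) (z : ℂ), 0 < d → z.re ≤ -d → ‖H z‖ ≤ B / d * (1 + |z.im|) ^ (-(3 / 2 : ℝ)) := by
    intro d z hd hz
    have h1 := hB z (by linarith)
    have h2 : d ≤ ‖z‖ := by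
      have := Complex.abs_re_le_norm z
      have h3 := neg_abs_le z.re
      linarith
    have h3 : Real.exp (-z.re) * Real.exp (z.re * x) ≤ 1 := by
      rw [← Real.exp_add, Real.exp_le_one_iff]
      nlinarith
    simp only [hH]
    rw [norm_mul, norm_div, Complex.norm_exp]
    have h4 : (z * (x : ℂ)).re = z.re * x := by simp
    rw [h4]
    have hp : 0 < 1 + |z.im| := by positivity
    calc ‖m z‖ / ‖z‖ * Real.exp (z.re * x)
        ≤ (B * Real.exp (-z.re) / (1 + |z.im|) ^ 8) / d * Real.exp (z.re * x) := by gcongr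
      _ = B / d * (1 / (1 + |z.im|) ^ 8) * (Real.exp (-z.re) * Real.exp (z.re * x)) := by ring
      _ ≤ B / d * (1 / (1 + |z.im|) ^ 8) * 1 := by gcongr
      _ ≤ B / d * (1 + |z.im|) ^ (-(3 / 2 : ℝ)) := by
          rw [mul_one]
          gcongr
          exact pow8_le _
  have hHd : ∀ z : ℂ, z.re < 0 → DifferentiableAt ℂ H z := by
    intro z hz
    have h0 : z ≠ 0 := by
      rintro rfl
      simp at hz
    exact ((hm z).div differentiableAt_id h0).mul (by fun_prop)
  set J : ℝ := ∫ y : ℝ, (1 + |y|) ^ (-(3 / 2 : ℝ)) with hJ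
  have hJ0 : 0 ≤ J := integral_nonneg fun y => by positivity
  -- the shift
  have key : ∀ n : ℝ, 0 ≤ n → ‖∫ y : ℝ, H (((-b : ℝ) : ℂ) + y * I)‖ ≤ B / (b + n) * J := by
    intro n hn
    have h1 := contour_shift (H := H) (a := -(b + n)) (b := -b) (B := B / b) (by linarith)
      (fun s _ hs => hHd s (by linarith)) (fun s _ hs => hHB b s hb hs)
    rw [← h1, hJ, ← integral_const_mul]
    refine norm_integral_le_of_norm_le (integrable_decay.const_mul _) (Eventually.of_forall fun y => ?_)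
    have := hHB (b + n) (((-(b + n) : ℝ) : ℂ) + y * I) (by linarith) (by simp)
    simpa using this
  by_contra hne
  have hpos : 0 < ‖∫ y : ℝ, H (((-b : ℝ) : ℂ) + y * I)‖ := norm_pos_iff.mpr hne
  set q := ‖∫ y : ℝ, H (((-b : ℝ) : ℂ) + y * I)‖ with hq
  have h1 := key (B * J / q) (by positivity)
  have h2 : 0 < b + B * J / q := by positivity
  rw [div_mul_eq_mul_div, le_div_iff₀ h2] at h1
  have h3 : q * (b + B * J / q) = q * b + B * J := by
    field_simp
  rw [h3] at h1
  nlinarith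

end AppAux

open AppAux in
theorem app : S_app := by
  intro hRH ε L B m hε hε1 hL hm hm0 hB1 hB2 N hN
  have hL0 : 0 < L := by linarith
  have hB0 : 0 ≤ B := by
    have := hB1 0 (by simp)
    simp at this
    exact (norm_nonneg _).trans this
  set b : ℝ := 2 * L with hb
  have hb0 : 0 < b := by positivity
  set W : ℝ → ℂ := fun x => ∫ y : ℝ, m (((-b : ℝ) : ℂ) + y * I) / (((-b : ℝ) : ℂ) + y * I) *
      Complex.exp ((((-b : ℝ) : ℂ) + y * I) * x) with hW
  refine ⟨fun n => ((ArithmeticFunction.moebius n : ℤ) : ℂ) * (n : ℂ) ^ (-(ε : ℂ)) *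
    (-(1 / (2 * Real.pi)) * W (Real.log n / L)), fun t => ?_⟩
  set c : ℝ := L * ε / 2 with hc
  have hc0 : 0 < c := by positivity
  set s : ℂ := 1 / 2 + ε + t * I with hs
  have hsre : s.re = 1 / 2 + ε := by simp [hs]
  have hsim : s.im = t := by simp [hs]
  have hre : ∀ z : ℂ, (s - z / L).re = 1 / 2 + ε - z.re / L := by
    intro z
    rw [Complex.sub_re, hsre, Complex.div_ofReal_re]
  have him : ∀ z : ℂ, (s - z / L).im = t - z.im / L := by
    intro z
    rw [Complex.sub_im, hsim, Complex.div_ofReal_im]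
  -- the shift
  obtain ⟨C, hC, hfz⟩ := fz_bound_rh hRH (σ := 1 / 2 + ε / 2) (by linarith)
  have hrange : ∀ z : ℂ, z.re ≤ c → 1 / 2 + ε / 2 ≤ (s - z / L).re := by
    intro z hz
    rw [hre]
    have : z.re / L ≤ ε / 2 := by
      rw [div_le_iff₀ hL0]
      rw [hc] at hz
      linarith
    linarith
  set F : ℂ → ℂ := fun z => m z * fz (s - z / L) with hF
  have hmB : ∀ z : ℂ, -b ≤ z.re → ‖m z‖ ≤ B * Real.exp b * (1 / (1 + |z.im|) ^ 8) := by
    intro z hz
    rcases le_or_gt z.re 0 with h | h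
    · refine (hB2 z h).trans ?_
      rw [mul_one_div]
      gcongr
      linarith
    · refine (hB1 z h.le).trans ?_
      rw [mul_one_div]
      gcongr
      have : 1 ≤ Real.exp b := Real.one_le_exp hb0.le
      nlinarith
  have hFB : ∀ z : ℂ, -b ≤ z.re → z.re ≤ c →
      ‖F z‖ ≤ (B * Real.exp b * (C * (1 + |t|))) * (1 + |z.im|) ^ (-(1 / 2 : ℝ)) := by
    intro z hz hz'
    have h1 := hfz _ (hrange z hz')
    rw [him] at h1
    have h2 : 1 + |t - z.im / L| ≤ (1 + |t|) * (1 + |z.im|) := by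
      have e1 : |t - z.im / L| ≤ |t| + |z.im / L| := abs_sub _ _
      have e2 : |z.im / L| ≤ |z.im| := by
        rw [abs_div, abs_of_pos hL0]
        exact div_le_self (abs_nonneg _) hL
      nlinarith [abs_nonneg t, abs_nonneg z.im]
    simp only [hF]
    rw [norm_mul]
    calc ‖m z‖ * ‖fz (s - z / L)‖
        ≤ (B * Real.exp b * (1 / (1 + |z.im|) ^ 8)) * (C * (1 + |t - z.im / L|)) := by
          have := hmB z hz
          gcongr
      _ ≤ (B * Real.exp b * (1 / (1 + |z.im|) ^ 8)) * (C * ((1 + |t|) * (1 + |z.im|))) := by gcongr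
      _ = (B * Real.exp b * (C * (1 + |t|))) * ((1 + |z.im|) * (1 / (1 + |z.im|) ^ 8)) := by ring
      _ ≤ _ := by
          gcongr
          exact pow7_le _
  have hFd : ∀ z : ℂ, -b ≤ z.re → z.re ≤ c → DifferentiableAt ℂ F z := by
    intro z _ hz'
    have h1 := hrange z hz'
    have h2 : DifferentiableAt ℂ fz (s - z / L) :=
      Pool.Agent.H295R2.fz_differentiableAt (Zs_ne_zero_of_rh hRH (by linarith))
    have h3 : DifferentiableAt ℂ (fun z : ℂ => s - z / L) z := by fun_prop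
    have h4 : DifferentiableAt ℂ (fz ∘ (fun z : ℂ => s - z / L)) z := DifferentiableAt.comp z h2 h3
    exact (hm z).mul h4
  have hsh := shift F (-b) c _ (by linarith) hc0 hFd hFB
  have hF0 : F 0 = fz s := by
    simp only [hF, hm0, one_mul, zero_div, sub_zero]
  rw [hF0] at hsh
  -- the sum
  set g : ℝ → ℂ := fun y => m (((-b : ℝ) : ℂ) + y * I) / (((-b : ℝ) : ℂ) + y * I) with hg
  have hgint : Integrable g := by
    refine line_integrable (F := m) (x := -b) (B := B * Real.exp b) (by linarith)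
      (fun z _ => hm z) (fun z hz => ?_)
    refine (hmB z hz.ge).trans ?_
    gcongr
    refine le_trans ?_ (pow7_le z.im)
    have h1 : 1 ≤ 1 + |z.im| := by linarith [abs_nonneg z.im]
    have h2 : 0 ≤ 1 / (1 + |z.im|) ^ 8 := by positivity
    nlinarith
  set μ : ℕ → ℂ := fun n => ((ArithmeticFunction.moebius n : ℤ) : ℂ) with hμ
  set T : ℕ → ℝ → ℂ := fun n y => g y * LSeries.term μ (s - (((-b : ℝ) : ℂ) + y * I) / L) n with hT
  have hre2 : ∀ y : ℝ, (s - (((-b : ℝ) : ℂ) + y * I) / L).re = 5 / 2 + ε := by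
    intro y
    rw [hre]
    have : (((-b : ℝ) : ℂ) + y * I).re = -b := by simp
    rw [this, hb]
    field_simp
    ring
  have hTeq : ∀ n : ℕ, n ≠ 0 → ∀ y : ℝ, T n y = μ n * (n : ℂ) ^ (-s) *
      (g y * Complex.exp ((((-b : ℝ) : ℂ) + y * I) * ((Real.log n / L : ℝ) : ℂ))) := by
    intro n hn y
    have hn' : (n : ℂ) ≠ 0 := by exact_mod_cast hn
    simp only [hT]
    rw [LSeries.term_of_ne_zero hn, Complex.cpow_sub _ _ hn', Complex.cpow_neg]
    have e1 : (n : ℂ) ^ ((((-b : ℝ) : ℂ) + y * I) / L) =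
        Complex.exp ((((-b : ℝ) : ℂ) + y * I) * ((Real.log n / L : ℝ) : ℂ)) := by
      rw [Complex.cpow_def_of_ne_zero hn', ← Complex.natCast_log]
      congr 1
      push_cast
      ring
    rw [← e1]
    have e2 : (n : ℂ) ^ s ≠ 0 := by
      rw [Complex.cpow_def_of_ne_zero hn']
      exact Complex.exp_ne_zero _
    have e3 : (n : ℂ) ^ ((((-b : ℝ) : ℂ) + y * I) / L) ≠ 0 := by
      rw [Complex.cpow_def_of_ne_zero hn']
      exact Complex.exp_ne_zero _
    field_simp
  have hTnorm : ∀ n : ℕ, ∀ y : ℝ, ‖T n y‖ = ‖LSeries.term μ (((5 / 2 + ε : ℝ) : ℂ)) n‖ * ‖g y‖ := by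
    intro n y
    simp only [hT]
    rw [norm_mul, LSeries.norm_term_eq, LSeries.norm_term_eq, hre2, Complex.ofReal_re, mul_comm]
  have hgc : Continuous g := by
    simp only [hg]
    refine Continuous.div ?_ (by fun_prop) ?_
    · exact hm.continuous.comp (by fun_prop)
    · intro y h
      have := congrArg Complex.re h
      simp at this
      linarith
  have hTint : ∀ n : ℕ, Integrable (T n) := by
    intro n
    rcases Nat.eq_zero_or_pos n with rfl | hn
    · have : T 0 = fun _ => 0 := by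
        funext y
        simp [hT]
      rw [this]
      exact integrable_zero _ _ _
    · refine Integrable.mono (hgint.norm.const_mul (‖LSeries.term μ (((5 / 2 + ε : ℝ) : ℂ)) n‖)) ?_ ?_
      · have : T n = fun y => μ n * (n : ℂ) ^ (-s) *
            (g y * Complex.exp ((((-b : ℝ) : ℂ) + y * I) * ((Real.log n / L : ℝ) : ℂ))) := by
          funext y
          exact hTeq n hn.ne' y
        rw [this]
        refine Continuous.aestronglyMeasurable ?_
        exact continuous_const.mul (hgc.mul (by fun_prop))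
      · refine Eventually.of_forall fun y => ?_
        rw [hTnorm, Real.norm_of_nonneg (by positivity)]
  have hmu : ∀ y : ℝ, HasSum (fun n => T n y) (g y * fz (s - (((-b : ℝ) : ℂ) + y * I) / L)) := by
    intro y
    exact (Pool.Agent.H295R2.moebius_lseries (s := s - (((-b : ℝ) : ℂ) + y * I) / L)
      (by rw [hre2]; linarith)).mul_left _
  have hsummable : Summable fun n => ∫ y : ℝ, ‖T n y‖ := by
    have h1 : Summable fun n => ‖LSeries.term μ (((5 / 2 + ε : ℝ) : ℂ)) n‖ := by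
      have := (Pool.Agent.H295R2.moebius_lseries (s := ((5 / 2 + ε : ℝ) : ℂ))
        (by rw [Complex.ofReal_re]; linarith)).summable
      exact this.norm
    refine (h1.mul_right (∫ y : ℝ, ‖g y‖)).congr fun n => ?_
    rw [← integral_const_mul]
    simp_rw [hTnorm]
  have hsum := hasSum_integral_of_summable_integral_norm hTint hsummable
  have htsum : ∀ y : ℝ, ∑' n, T n y = F (((-b : ℝ) : ℂ) + y * I) / (((-b : ℝ) : ℂ) + y * I) := by
    intro y
    rw [(hmu y).tsum_eq]
    simp only [hF, hg]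
    ring
  simp_rw [htsum] at hsum
  have hTI : ∀ n : ℕ, n ≠ 0 → ∫ y : ℝ, T n y = μ n * (n : ℂ) ^ (-s) * W (Real.log n / L) := by
    intro n hn
    simp_rw [hTeq n hn]
    rw [integral_const_mul]
  have hzero : ∀ n ∉ Finset.Icc 1 N, ∫ y : ℝ, T n y = 0 := by
    intro n hn
    rcases Nat.eq_zero_or_pos n with rfl | hn0
    · simp [hT]
    · have hnN : N + 1 ≤ n := by
        by_contra h
        exact hn (Finset.mem_Icc.mpr ⟨hn0, by omega⟩)
      rw [hTI n hn0.ne']
      have : W (Real.log n / L) = 0 := by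
        refine weight_zero hm hB2 hb0 ?_
        rw [one_le_div hL0]
        refine hN.trans (Real.log_le_log (by positivity) ?_)
        exact_mod_cast hnN
      rw [this, mul_zero]
  have hfin : HasSum (fun n => ∫ y : ℝ, T n y) (∑ n ∈ Finset.Icc 1 N, ∫ y : ℝ, T n y) :=
    hasSum_sum_of_ne_finset_zero hzero
  have heq := hsum.unique hfin
  -- conclusion
  have hDP : DP N (fun n => ((ArithmeticFunction.moebius n : ℤ) : ℂ) * (n : ℂ) ^ (-(ε : ℂ)) *
    (-(1 / (2 * Real.pi)) * W (Real.log n / L))) (1 / 2 + t * I) =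
      -(1 / (2 * Real.pi)) * ∑ n ∈ Finset.Icc 1 N, ∫ y : ℝ, T n y := by
    unfold DP
    rw [Finset.mul_sum]
    refine Finset.sum_congr rfl fun n hn => ?_
    have hn0 : n ≠ 0 := by
      have := (Finset.mem_Icc.mp hn).1
      omega
    have hn' : (n : ℂ) ≠ 0 := by exact_mod_cast hn0
    rw [hTI n hn0]
    have e1 : (n : ℂ) ^ (-s) = (n : ℂ) ^ (-(ε : ℂ)) * (n : ℂ) ^ (-(1 / 2 + t * I : ℂ)) := by
      rw [← Complex.cpow_add _ _ hn']
      congr 1
      rw [hs]
      ring
    rw [e1]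
    simp only [hμ]
    ring
  rw [hDP, ← heq]
  have hpi : (Real.pi : ℂ) ≠ 0 := by exact_mod_cast Real.pi_ne_zero
  have hFc : ∀ y : ℝ, m ((c : ℂ) + y * I) / ((c : ℂ) + y * I) * fz (s - ((c : ℂ) + y * I) / L) =
      F ((c : ℂ) + y * I) / ((c : ℂ) + y * I) := by
    intro y
    simp only [hF]
    ring
  simp_rw [hFc]
  have h2 : (∫ y : ℝ, F (((-b : ℝ) : ℂ) + y * I) / (((-b : ℝ) : ℂ) + y * I)) =
      (∫ y : ℝ, F ((c : ℂ) + y * I) / ((c : ℂ) + y * I)) - 2 * Real.pi * fz s := by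
    linear_combination -hsh
  rw [h2]
  generalize (∫ y : ℝ, F ((c : ℂ) + y * I) / ((c : ℂ) + y * I)) = J1
  field_simp
  ring

end Pool.Agent.N967
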