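import Pool.Agent.N967.Defs
import Pool.Agent.H295R2.P

set_option autoImplicit false

/-!
# Baez-Duarte's distance: convergence of the integrals, and two lemmas on integrals
-/

namespace Pool.Agent.N967

open Complex MeasureTheory Filter Topology Set FourierTransform
open Pool.Agent.H295R2

/-- Cauchy-Schwarz -/
lemma cs {f g : ℝ → ℝ} (hf : Integrable (fun x => f x ^ 2)) (hg : Integrable (fun x => g x ^ 2))
    (hfg : Integrable (fun x => f x * g x)) :
    (∫ x, f x * g x) ^ 2 ≤ (∫ x, f x ^ 2) * ∫ x, g x ^ 2 := by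
  have h : ∀ x : ℝ, 0 ≤ (∫ x, g x ^ 2) * (x * x) + (-(2 * ∫ x, f x * g x)) * x + ∫ x, f x ^ 2 := by
    intro l
    have h1 : ∫ x, (f x - l * g x) ^ 2 =
        (∫ x, g x ^ 2) * (l * l) + (-(2 * ∫ x, f x * g x)) * l + ∫ x, f x ^ 2 := by
      have h2 : ∀ x, (f x - l * g x) ^ 2 = (l * l) * g x ^ 2 + (-(2 * l)) * (f x * g x) + f x ^ 2 :=
        fun x => by ring
      simp_rw [h2]
      have hA : Integrable (fun x => (l * l) * g x ^ 2) := hg.const_mul _
      have hB : Integrable (fun x => (-(2 * l)) * (f x * g x)) := hfg.const_mul _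
      have e1 : ∫ x, ((l * l) * g x ^ 2 + (-(2 * l)) * (f x * g x) + f x ^ 2) =
          (∫ x, ((l * l) * g x ^ 2 + (-(2 * l)) * (f x * g x))) + ∫ x, f x ^ 2 :=
        integral_add (hA.add hB) hf
      have e2 : ∫ x, ((l * l) * g x ^ 2 + (-(2 * l)) * (f x * g x)) =
          (∫ x, (l * l) * g x ^ 2) + ∫ x, (-(2 * l)) * (f x * g x) := integral_add hA hB
      rw [e1, e2, integral_const_mul, integral_const_mul]
      ring
    rw [← h1]
    exact integral_nonneg fun x => sq_nonneg _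
  have h3 := discrim_le_zero h
  unfold discrim at h3
  nlinarith

/-- the Cauchy kernel -/
lemma cauchy_int {a : ℝ} (ha : 0 < a) (c : ℝ) :
    Integrable (fun t : ℝ => (a ^ 2 + (t + c) ^ 2)⁻¹) ∧
      ∫ t : ℝ, (a ^ 2 + (t + c) ^ 2)⁻¹ = Real.pi / a := by
  have h1 : ∀ t : ℝ, (a ^ 2 + (t + c) ^ 2)⁻¹ = (a ^ 2)⁻¹ * (1 + (a⁻¹ * (t + c)) ^ 2)⁻¹ := by
    intro t
    rw [← mul_inv]
    congr 1
    field_simp
  have h2 : Integrable (fun t : ℝ => (1 + (a⁻¹ * t) ^ 2)⁻¹) :=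
    integrable_inv_one_add_sq.comp_mul_left' (inv_ne_zero ha.ne')
  have h3 : Integrable (fun t : ℝ => (1 + (a⁻¹ * (t + c)) ^ 2)⁻¹) := h2.comp_add_right c
  simp_rw [h1]
  refine ⟨h3.const_mul _, ?_⟩
  rw [integral_const_mul, integral_add_right_eq_self (fun t : ℝ => (1 + (a⁻¹ * t) ^ 2)⁻¹) c,
    Measure.integral_comp_mul_left (fun t : ℝ => (1 + t ^ 2)⁻¹) a⁻¹, integral_univ_inv_one_add_sq,
    inv_inv, abs_of_pos ha, smul_eq_mul]
  field_simp

lemma Hf_sq : Integrable (fun t : ℝ => ‖Hf (1 / 2 + t * I)‖ ^ 2) := by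
  set g : ℝ → ℂ := fun u => Real.exp (1 / 2 * u) • fr (Real.exp (-u)) with hg
  have hm : Measurable g := by
    have hm1 : Measurable (fun u : ℝ => Real.exp (1 / 2 * u)) := by fun_prop
    exact hm1.smul (fr_measurable.comp (Real.measurable_exp.comp measurable_neg))
  have hb : ∀ u, ‖g u‖ ≤ (Iic (0:ℝ)).indicator (fun u => Real.exp (1 / 2 * u)) u := by
    intro u
    by_cases hu : u ∈ Iic (0:ℝ)
    · rw [indicator_of_mem hu, hg]
      simp only
      rw [norm_smul, Real.norm_of_nonneg (Real.exp_pos _).le]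
      exact mul_le_of_le_one_right (Real.exp_pos _).le (fr_norm_le _)
    · rw [indicator_of_notMem hu, hg]
      simp only
      have : fr (Real.exp (-u)) = 0 := by
        unfold fr
        rw [indicator_of_notMem]
        simp only [mem_Iic, not_le] at hu
        simp only [mem_Ioi, not_lt, Real.exp_le_one_iff, Left.neg_nonpos_iff]
        exact hu.le
      rw [this, smul_zero, norm_zero]
  have hi1 : Integrable ((Iic (0:ℝ)).indicator (fun u => Real.exp (1 / 2 * u))) := by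
    rw [integrable_indicator_iff measurableSet_Iic]
    exact integrableOn_exp_mul_Iic (by norm_num) 0
  have hi2 : Integrable ((Iic (0:ℝ)).indicator (fun u => Real.exp (1 * u))) := by
    rw [integrable_indicator_iff measurableSet_Iic]
    exact integrableOn_exp_mul_Iic (by norm_num) 0
  have h1 : Integrable g := hi1.mono' hm.aestronglyMeasurable (Eventually.of_forall hb)
  have h2 : MemLp g 2 := by
    rw [memLp_two_iff_integrable_sq_norm hm.aestronglyMeasurable]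
    refine hi2.mono' (hm.aestronglyMeasurable.norm.pow 2) (Eventually.of_forall fun u => ?_)
    have h3 := hb u
    rw [norm_pow, norm_norm]
    by_cases hu : u ∈ Iic (0:ℝ)
    · rw [indicator_of_mem hu] at h3 ⊢
      have h4 : Real.exp (1 * u) = Real.exp (1 / 2 * u) ^ 2 := by
        rw [← Real.exp_nat_mul]
        congr 1
        push_cast
        ring
      rw [h4]
      exact pow_le_pow_left₀ (norm_nonneg _) h3 2
    · rw [indicator_of_notMem hu] at h3 ⊢
      have h4 : ‖g u‖ = 0 := le_antisymm h3 (norm_nonneg _)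
      rw [h4]
      norm_num
  obtain ⟨h3, -⟩ := Pool.Agent.Helper625.Planch.plancherel g h1 h2
  have h4 := (memLp_two_iff_integrable_sq_norm h3.aestronglyMeasurable).mp h3
  have h5 := h4.comp_mul_left' (R := -(2 * Real.pi)⁻¹) (by
    have := Real.pi_pos
    simp [this.ne'])
  refine h5.congr (Eventually.of_forall fun t => ?_)
  simp only
  congr 2
  unfold Hf
  rw [mellin_eq_fourier]
  have e1 : -(-(1 / 2 + (t : ℂ) * I)).re = 1 / 2 := by simp
  have e2 : (-(1 / 2 + (t : ℂ) * I)).im / (2 * Real.pi) = -(2 * Real.pi)⁻¹ * t := by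
    simp
    ring
  rw [e1, e2]

lemma half_ne_one (t : ℝ) : (1 / 2 + (t : ℂ) * I) ≠ 1 := by
  intro h
  have := congrArg Complex.re h
  norm_num at this

lemma norm_half_sq (t : ℝ) : ‖(1 / 2 + (t : ℂ) * I)‖ ^ 2 = 1 / 4 + t ^ 2 := by
  rw [← Complex.normSq_eq_norm_sq, Complex.normSq_apply]
  simp
  ring

lemma norm_half_sub_sq (t : ℝ) : ‖(1 / 2 + (t : ℂ) * I) - 1‖ ^ 2 = 1 / 4 + t ^ 2 := by
  rw [← Complex.normSq_eq_norm_sq, Complex.normSq_apply]
  simp
  ring

lemma DP_norm_le (N : ℕ) (a : ℕ → ℂ) {s : ℂ} (hs : 0 ≤ s.re) :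
    ‖DP N a s‖ ≤ ∑ n ∈ Finset.Icc 1 N, ‖a n‖ := by
  unfold DP
  refine (norm_sum_le _ _).trans (Finset.sum_le_sum fun n hn => ?_)
  have hn1 : 1 ≤ n := (Finset.mem_Icc.mp hn).1
  have hn0 : (0:ℝ) < n := by exact_mod_cast hn1
  have h1 : (1:ℝ) ≤ n := by exact_mod_cast hn1
  rw [norm_mul]
  refine mul_le_of_le_one_right (norm_nonneg _) ?_
  have : ((n : ℂ)) = ((n : ℝ) : ℂ) := by simp
  rw [this, Complex.norm_cpow_eq_rpow_re_of_pos hn0]
  exact Real.rpow_le_one_of_one_le_of_nonpos h1 (by simpa using hs)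

lemma DP_differentiable (N : ℕ) (a : ℕ → ℂ) : Differentiable ℂ (DP N a) := by
  unfold DP
  refine Differentiable.fun_sum fun n hn => ?_
  have hn1 : 1 ≤ n := (Finset.mem_Icc.mp hn).1
  have hn0 : (n : ℂ) ≠ 0 := by
    have : n ≠ 0 := by omega
    exact_mod_cast this
  refine Differentiable.const_mul ?_ _
  intro s
  exact (differentiableAt_id.neg).const_cpow (Or.inl hn0)

lemma ig_continuous (N : ℕ) (a : ℕ → ℂ) : Continuous (ig N a) := by
  unfold ig
  have h1 : Continuous fun t : ℝ => riemannZeta (1 / 2 + t * I) := by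
    rw [continuous_iff_continuousAt]
    intro t
    have h2 : ContinuousAt riemannZeta (1 / 2 + t * I) :=
      (differentiableAt_riemannZeta (half_ne_one t)).continuousAt
    exact ContinuousAt.comp (f := fun t : ℝ => (1 / 2 : ℂ) + t * I) h2 (by fun_prop)
  have h3 : Continuous fun t : ℝ => DP N a (1 / 2 + t * I) :=
    (DP_differentiable N a).continuous.comp (by fun_prop)
  refine Continuous.div (by fun_prop) (by fun_prop) fun t => ?_
  positivity

lemma zeta_line (t : ℝ) :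
    ‖riemannZeta (1 / 2 + t * I)‖ ^ 2 ≤
      (2 * (1 / 4 + t ^ 2)⁻¹ + 2 * ‖Hf (1 / 2 + t * I)‖ ^ 2) * (1 / 4 + t ^ 2) := by
  set s : ℂ := 1 / 2 + t * I with hs
  have hs1 : s - 1 ≠ 0 := sub_ne_zero.mpr (half_ne_one t)
  have hre : 0 < s.re := by simp [hs]
  have h1 : riemannZeta s = s * (1 / (s - 1) - Hf s) := by
    have h2 := Zs_eq (half_ne_one t)
    rw [← hs, Zs_eq_Zt hre, Zt] at h2
    field_simp
    linear_combination h2
  rw [h1, norm_mul, mul_pow, norm_half_sq, mul_comm]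
  refine mul_le_mul_of_nonneg_right ?_ (by positivity)
  have h3 : ‖1 / (s - 1) - Hf s‖ ≤ ‖1 / (s - 1)‖ + ‖Hf s‖ := norm_sub_le _ _
  have h4 : ‖1 / (s - 1)‖ ^ 2 = (1 / 4 + t ^ 2)⁻¹ := by
    rw [norm_div, norm_one, div_pow, norm_half_sub_sq, one_pow, one_div]
  rw [← h4]
  calc ‖1 / (s - 1) - Hf s‖ ^ 2 ≤ (‖1 / (s - 1)‖ + ‖Hf s‖) ^ 2 :=
        pow_le_pow_left₀ (norm_nonneg _) h3 2
    _ ≤ _ := by nlinarith [sq_nonneg (‖1 / (s - 1)‖ - ‖Hf s‖)]

theorem int_ig : S_int := by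
  intro N a
  set M := ∑ n ∈ Finset.Icc 1 N, ‖a n‖ with hM
  have hc := (cauchy_int (a := 1 / 2) (by norm_num) 0).1
  have hc' : Integrable (fun t : ℝ => (1 / 4 + t ^ 2)⁻¹) := by
    refine hc.congr (Eventually.of_forall fun t => ?_)
    simp only
    congr 1
    ring
  have hdom : Integrable (fun t : ℝ => 2 * (1 / 4 + t ^ 2)⁻¹ +
      2 * M ^ 2 * (2 * (1 / 4 + t ^ 2)⁻¹ + 2 * ‖Hf (1 / 2 + t * I)‖ ^ 2)) :=
    (hc'.const_mul 2).add (((hc'.const_mul 2).add (Hf_sq.const_mul 2)).const_mul _)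
  refine hdom.mono' (ig_continuous N a).aestronglyMeasurable (Eventually.of_forall fun t => ?_)
  have hp : 0 < 1 / 4 + t ^ 2 := by positivity
  have hig : ‖ig N a t‖ = ig N a t := by
    rw [Real.norm_of_nonneg]
    unfold ig
    positivity
  rw [hig]
  unfold ig
  set z := riemannZeta (1 / 2 + t * I) with hz
  set A := DP N a (1 / 2 + t * I) with hA
  have hA1 : ‖A‖ ≤ M := DP_norm_le N a (by simp)
  have h1 : ‖1 - z * A‖ ≤ 1 + ‖z‖ * M := by
    calc ‖1 - z * A‖ ≤ ‖(1:ℂ)‖ + ‖z * A‖ := norm_sub_le _ _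
      _ ≤ 1 + ‖z‖ * M := by
        rw [norm_one, norm_mul]
        gcongr
  have h2 : ‖1 - z * A‖ ^ 2 ≤ 2 + 2 * M ^ 2 * ‖z‖ ^ 2 := by
    calc ‖1 - z * A‖ ^ 2 ≤ (1 + ‖z‖ * M) ^ 2 := pow_le_pow_left₀ (norm_nonneg _) h1 2
      _ ≤ _ := by nlinarith [sq_nonneg (1 - ‖z‖ * M)]
  rw [div_le_iff₀ hp]
  have h3 := zeta_line t
  rw [← hz] at h3
  calc ‖1 - z * A‖ ^ 2 ≤ 2 + 2 * M ^ 2 * ‖z‖ ^ 2 := h2
    _ ≤ 2 + 2 * M ^ 2 * ((2 * (1 / 4 + t ^ 2)⁻¹ + 2 * ‖Hf (1 / 2 + t * I)‖ ^ 2) * (1 / 4 + t ^ 2)) := by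
        gcongr
    _ = _ := by
      field_simp

end Pool.Agent.N967
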