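import Pool.Agent.N967.Stm3
import Pool.Agent.N967.LowA
import Pool.Agent.N967.App

set_option autoImplicit false

/-!
# Growth of the Dirichlet polynomials to the left of the critical line (`S_grow`)

The first part repeats the lemmas of `LowB.lean` (the name `GG` of that file is used for another
function in `Stm3.lean`).
-/

namespace Pool.Agent.N967

namespace Grow

open Complex MeasureTheory Filter Topology Set
open Pool.Agent.H295R2

lemma rpow_half_le (y : ℝ) : (1 + |y|)⁻¹ ≤ (1 + |y|) ^ (-(1 / 2 : ℝ)) := by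
  have h1 : 1 ≤ 1 + |y| := by linarith [abs_nonneg y]
  rw [← Real.rpow_neg_one]
  exact Real.rpow_le_rpow_of_exponent_le h1 (by norm_num)

lemma one_add_abs_le_two_mul {b y : ℝ} (hb : 1 ≤ b) : 1 + |y| ≤ 2 * ‖(b : ℂ) + y * I‖ := by
  have h1 : |((b : ℂ) + y * I).re| ≤ ‖(b : ℂ) + y * I‖ := Complex.abs_re_le_norm _
  have h2 : |((b : ℂ) + y * I).im| ≤ ‖(b : ℂ) + y * I‖ := Complex.abs_im_le_norm _
  have h3 : ((b : ℂ) + y * I).re = b := by simp
  have h4 : ((b : ℂ) + y * I).im = y := by simp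
  rw [h3, abs_of_pos (by linarith)] at h1
  rw [h4] at h2
  linarith

/-- the integrals over the lines far to the right tend to zero -/
lemma lim_far {F : ℂ → ℂ} {B : ℝ} (hd : ∀ z : ℂ, 0 ≤ z.re → DifferentiableAt ℂ F z)
    (hB : ∀ z : ℂ, 0 ≤ z.re → ‖F z‖ ≤ B * (1 + |z.im|) ^ (-(1 / 2 : ℝ))) :
    Tendsto (fun b : ℝ => ∫ y : ℝ, F (b + y * I) / (b + y * I)) atTop (𝓝 0) := by
  have hB0 : 0 ≤ B := by
    have := (norm_nonneg _).trans (hB 0 (by simp))
    simpa using this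
  have h0 : (0 : ℂ) = ∫ _y : ℝ, (0 : ℂ) := by simp
  rw [h0]
  refine tendsto_integral_filter_of_dominated_convergence
    (fun y : ℝ => 2 * B * (1 + |y|) ^ (-(3 / 2 : ℝ))) ?_ ?_ (integrable_decay.const_mul _) ?_
  · filter_upwards [eventually_ge_atTop 1] with b hb
    refine Continuous.aestronglyMeasurable ?_
    rw [continuous_iff_continuousAt]
    intro y
    have h1 : ContinuousAt F ((b : ℂ) + y * I) := (hd _ (by simp; linarith)).continuousAt
    have h2 : ContinuousAt (fun y : ℝ => F ((b : ℂ) + y * I)) y :=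
      ContinuousAt.comp (f := fun y : ℝ => (b : ℂ) + y * I) h1 (by fun_prop)
    refine h2.div (by fun_prop) ?_
    intro h
    have := congrArg Complex.re h
    simp at this
    linarith
  · filter_upwards [eventually_ge_atTop 1] with b hb
    refine Eventually.of_forall fun y => ?_
    have h1 := hB (b + y * I) (by simp; linarith)
    have h2 : ((b : ℂ) + y * I).im = y := by simp
    rw [h2] at h1
    have h3 := one_add_abs_le_two_mul (y := y) hb
    have h4 : 0 < 1 + |y| := by positivity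
    have h5 : 0 < ‖(b : ℂ) + y * I‖ := by linarith
    rw [norm_div, div_le_iff₀ h5]
    have h6 : (1 + |y|) ^ (-(1 / 2 : ℝ)) = (1 + |y|) ^ (-(3 / 2 : ℝ)) * (1 + |y|) := by
      nth_rewrite 3 [← Real.rpow_one (1 + |y|)]
      rw [← Real.rpow_add h4]
      norm_num
    calc ‖F (b + y * I)‖ ≤ B * (1 + |y|) ^ (-(1 / 2 : ℝ)) := h1
      _ = B * (1 + |y|) ^ (-(3 / 2 : ℝ)) * (1 + |y|) := by rw [h6]; ring
      _ ≤ B * (1 + |y|) ^ (-(3 / 2 : ℝ)) * (2 * ‖(b : ℂ) + y * I‖) := by gcongr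
      _ = _ := by ring
  · refine Eventually.of_forall fun y => ?_
    rw [tendsto_zero_iff_norm_tendsto_zero]
    have hl : Tendsto (fun b : ℝ => B * (1 + |y|) ^ (-(1 / 2 : ℝ)) * b⁻¹) atTop (𝓝 0) := by
      simpa using tendsto_inv_atTop_zero.const_mul (B * (1 + |y|) ^ (-(1 / 2 : ℝ)))
    refine squeeze_zero' (Eventually.of_forall fun b => norm_nonneg _) ?_ hl
    filter_upwards [eventually_ge_atTop 1] with b hb
    have h1 := hB (b + y * I) (by simp; linarith)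
    have h2 : ((b : ℂ) + y * I).im = y := by simp
    rw [h2] at h1
    have h3 : b ≤ ‖(b : ℂ) + y * I‖ := by
      have h1 : |((b : ℂ) + y * I).re| ≤ ‖(b : ℂ) + y * I‖ := Complex.abs_re_le_norm _
      have h3 : ((b : ℂ) + y * I).re = b := by simp
      rwa [h3, abs_of_pos (by linarith)] at h1
    rw [norm_div, div_eq_mul_inv]
    have hb0 : 0 < b := by linarith
    gcongr

/-- shift of the line to infinity -/
lemma shift_inf (hs : S_shift) {F : ℂ → ℂ} {a B : ℝ} (ha : a < 0)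
    (hd : ∀ z : ℂ, a ≤ z.re → DifferentiableAt ℂ F z)
    (hB : ∀ z : ℂ, a ≤ z.re → ‖F z‖ ≤ B * (1 + |z.im|) ^ (-(1 / 2 : ℝ))) :
    (∀ b : ℝ, 0 < b → ∫ y : ℝ, F (b + y * I) / (b + y * I) = 0) ∧
      -(∫ y : ℝ, F (a + y * I) / (a + y * I)) = 2 * Real.pi * F 0 := by
  have h1 : ∀ b : ℝ, 0 < b → ∫ y : ℝ, F (b + y * I) / (b + y * I) =
      2 * Real.pi * F 0 + ∫ y : ℝ, F (a + y * I) / (a + y * I) := by
    intro b hb
    have := hs F a b B ha hb (fun z h _ => hd z h) (fun z h _ => hB z h)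
    rw [← this]
    ring
  have h2 := lim_far (F := F) (B := B) (fun z hz => hd z (ha.le.trans hz))
    (fun z hz => hB z (ha.le.trans hz))
  have h3 : 2 * Real.pi * F 0 + ∫ y : ℝ, F (a + y * I) / (a + y * I) = 0 := by
    refine tendsto_nhds_unique ?_ h2
    refine tendsto_const_nhds.congr' ?_
    filter_upwards [eventually_gt_atTop 0] with b hb
    exact (h1 b hb).symm
  refine ⟨fun b hb => (h1 b hb).trans h3, ?_⟩
  rw [add_eq_zero_iff_neg_eq'] at h3
  exact h3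

/-- `(1 - ζ(s) A(s)) (s - 1) / s²` -/
noncomputable def G1 (N : ℕ) (a : ℕ → ℂ) (s : ℂ) : ℂ := ((s - 1) - Zs s * DP N a s) / s ^ 2

lemma ne_zero_of_re {s : ℂ} (hs : 0 < s.re) : s ≠ 0 := by
  rintro rfl
  simp at hs

lemma G1_diff (N : ℕ) (a : ℕ → ℂ) {s : ℂ} (hs : 0 < s.re) : DifferentiableAt ℂ (G1 N a) s := by
  unfold G1
  have h1 : DifferentiableAt ℂ Zs s := Zs_differentiable s
  have h2 : DifferentiableAt ℂ (DP N a) s := DP_differentiable N a s
  refine DifferentiableAt.div (by fun_prop) (by fun_prop) ?_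
  exact pow_ne_zero 2 (ne_zero_of_re hs)

lemma G1_line (N : ℕ) (a : ℕ → ℂ) (t : ℝ) : ‖G1 N a (1 / 2 + t * I)‖ ^ 2 = ig N a t := by
  unfold G1 ig
  have h1 := Zs_eq (half_ne_one t)
  have h2 : (1 / 2 + (t : ℂ) * I) - 1 - Zs (1 / 2 + t * I) * DP N a (1 / 2 + t * I) =
      ((1 / 2 + (t : ℂ) * I) - 1) * (1 - riemannZeta (1 / 2 + t * I) * DP N a (1 / 2 + t * I)) := by
    rw [← h1]
    ring
  have hp : (0:ℝ) < 1 / 4 + t ^ 2 := by positivity
  rw [h2, norm_div, norm_mul, norm_pow, div_pow, mul_pow, norm_half_sub_sq, norm_half_sq]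
  field_simp

lemma G1_bound (N : ℕ) (a : ℕ → ℂ) : ∃ B : ℝ, 0 ≤ B ∧ ∀ s : ℂ, 1 / 4 ≤ s.re → ‖G1 N a s‖ ≤ B := by
  set M := ∑ n ∈ Finset.Icc 1 N, ‖a n‖ with hM
  have hM0 : 0 ≤ M := Finset.sum_nonneg fun n _ => norm_nonneg _
  refine ⟨20 + 125 * M, by positivity, fun s hs => ?_⟩
  have h1 : 1 / 4 ≤ ‖s‖ := by
    have := (le_abs_self _).trans (Complex.abs_re_le_norm s)
    linarith
  have h2 := Zs_norm_le hs
  have h3 : ‖DP N a s‖ ≤ M := DP_norm_le N a (by linarith)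
  have h4 : ‖s - 1‖ ≤ ‖s‖ + 1 := by
    have := norm_sub_le s 1
    rwa [norm_one] at this
  have h5 : 0 < ‖s‖ ^ 2 := by positivity
  unfold G1
  rw [norm_div, norm_pow, div_le_iff₀ h5]
  have h6 : ‖s‖ + 1 ≤ 20 * ‖s‖ ^ 2 := by nlinarith
  have h7 : (‖s‖ + 1) ^ 2 ≤ 25 * ‖s‖ ^ 2 := by nlinarith
  calc ‖s - 1 - Zs s * DP N a s‖ ≤ ‖s - 1‖ + ‖Zs s * DP N a s‖ := norm_sub_le _ _
    _ = ‖s - 1‖ + ‖Zs s‖ * ‖DP N a s‖ := by rw [norm_mul]
    _ ≤ (‖s‖ + 1) + (5 * (‖s‖ + 1) ^ 2) * M := by gcongr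
    _ ≤ 20 * ‖s‖ ^ 2 + (5 * (25 * ‖s‖ ^ 2)) * M := by gcongr
    _ = _ := by ring

/-- decay of `1 / (z + s₀ + 1)` -/
lemma decay_lin {s0 z : ℂ} (h : 1 / 2 ≤ (z + s0).re) :
    ‖z + s0 + 1‖⁻¹ ≤ (2 + |s0.im|) * (1 + |z.im|) ^ (-(1 / 2 : ℝ)) := by
  have h1 : 1 ≤ ‖z + s0 + 1‖ := by
    have h2 := (le_abs_self _).trans (Complex.abs_re_le_norm (z + s0 + 1))
    have h3 : (z + s0 + 1).re = (z + s0).re + 1 := by simp
    linarith
  have h2 : |z.im + s0.im| ≤ ‖z + s0 + 1‖ := by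
    have h2 := Complex.abs_im_le_norm (z + s0 + 1)
    simpa using h2
  have h3 : |z.im| ≤ |z.im + s0.im| + |s0.im| := by
    have := abs_sub_abs_le_abs_sub z.im (-s0.im)
    rw [abs_neg, sub_neg_eq_add] at this
    linarith
  have h4 : 1 + |z.im| ≤ (2 + |s0.im|) * ‖z + s0 + 1‖ := by
    nlinarith [abs_nonneg s0.im]
  have h5 : 0 < 1 + |z.im| := by positivity
  have h6 : ‖z + s0 + 1‖⁻¹ ≤ (2 + |s0.im|) * (1 + |z.im|)⁻¹ := by
    have hp : 0 < ‖z + s0 + 1‖ := by linarith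
    rw [← div_eq_mul_inv, inv_eq_one_div, div_le_div_iff₀ hp h5]
    linarith
  refine h6.trans ?_
  gcongr
  exact rpow_half_le _

/-- the value at a point to the right of the critical line -/
lemma cau (h : S_int) (hs : S_shift) (N : ℕ) (a : ℕ → ℂ) {s0 : ℂ} (h0 : 1 / 2 < s0.re) :
    ‖G1 N a s0‖ ^ 2 * (s0.re - 1 / 2) ≤ ‖s0 + 1‖ ^ 2 * err N a := by
  set α : ℝ := 1 / 2 - s0.re with hα
  have hα0 : α < 0 := by linarith
  obtain ⟨B, hB0, hB⟩ := G1_bound N a
  set F : ℂ → ℂ := fun z => G1 N a (z + s0) * (z + s0 + 1)⁻¹ with hF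
  have hne : ∀ z : ℂ, α ≤ z.re → z + s0 + 1 ≠ 0 := by
    intro z hz
    refine ne_zero_of_re ?_
    simp only [add_re, one_re]
    linarith
  have hd : ∀ z : ℂ, α ≤ z.re → DifferentiableAt ℂ F z := by
    intro z hz
    have h1 : DifferentiableAt ℂ (G1 N a) (z + s0) := by
      refine G1_diff N a ?_
      simp only [add_re]
      linarith
    have h2 : DifferentiableAt ℂ (fun z => G1 N a (z + s0)) z :=
      DifferentiableAt.comp (g := G1 N a) (f := fun z : ℂ => z + s0) z h1 (by fun_prop)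
    have h3 : DifferentiableAt ℂ (fun z : ℂ => z + s0 + 1) z := by fun_prop
    exact h2.mul (h3.inv (hne z hz))
  have hBd : ∀ z : ℂ, α ≤ z.re → ‖F z‖ ≤ B * (2 + |s0.im|) * (1 + |z.im|) ^ (-(1 / 2 : ℝ)) := by
    intro z hz
    have h1 : 1 / 2 ≤ (z + s0).re := by
      simp only [add_re]
      linarith
    have h2 := decay_lin h1
    have h3 := hB (z + s0) (by linarith)
    rw [hF]
    simp only
    rw [norm_mul, norm_inv, mul_assoc]
    gcongr
  have h1 := (shift_inf hs hα0 hd hBd).2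
  -- the functions on the line
  set f : ℝ → ℝ := fun y => ‖G1 N a (1 / 2 + ((y + s0.im : ℝ) : ℂ) * I)‖ with hf
  set g : ℝ → ℝ := fun y => ‖(α : ℂ) + y * I + s0 + 1‖⁻¹ * ‖(α : ℂ) + y * I‖⁻¹ with hg
  have hpt : ∀ y : ℝ, ‖F (α + y * I) / (α + y * I)‖ = f y * g y := by
    intro y
    have e1 : (α : ℂ) + y * I + s0 = 1 / 2 + ((y + s0.im : ℝ) : ℂ) * I := by
      apply Complex.ext
      · simp [hα]
      · simp
    rw [hF, hf, hg]
    simp only
    rw [norm_div, norm_mul, norm_inv, e1]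
    ring
  have hf2 : ∀ y, f y ^ 2 = ig N a (y + s0.im) := fun y => G1_line N a (y + s0.im)
  have hfi : Integrable (fun y => f y ^ 2) := by
    simp_rw [hf2]
    exact (h N a).comp_add_right s0.im
  have hfe : ∫ y, f y ^ 2 = 2 * Real.pi * err N a := by
    simp_rw [hf2]
    rw [integral_add_right_eq_self (fun y => ig N a y) s0.im]
    unfold err
    field_simp
  have hca := cauchy_int (a := -α) (by linarith) 0
  have hg2 : ∀ y, g y ^ 2 ≤ (4 / 9) * ((-α) ^ 2 + (y + 0) ^ 2)⁻¹ := by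
    intro y
    have e1 : ‖(α : ℂ) + y * I‖ ^ 2 = (-α) ^ 2 + (y + 0) ^ 2 := by
      rw [← Complex.normSq_eq_norm_sq, Complex.normSq_apply]
      simp
      ring
    have e2 : 3 / 2 ≤ ‖(α : ℂ) + y * I + s0 + 1‖ := by
      have h2 := (le_abs_self _).trans (Complex.abs_re_le_norm ((α : ℂ) + y * I + s0 + 1))
      have h3 : ((α : ℂ) + y * I + s0 + 1).re = 3 / 2 := by
        simp [hα]
        ring
      linarith
    rw [hg]
    simp only
    rw [mul_pow, inv_pow, inv_pow, e1]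
    refine mul_le_mul_of_nonneg_right ?_ (by positivity)
    rw [inv_le_comm₀ (by positivity) (by norm_num)]
    nlinarith
  have hα1 : ∀ y : ℝ, (α : ℂ) + y * I ≠ 0 := by
    intro y hy
    have := congrArg Complex.re hy
    simp at this
    linarith
  have hgc : Continuous g := by
    rw [hg]
    refine Continuous.mul (Continuous.inv₀ (by fun_prop) fun y => ?_)
      (Continuous.inv₀ (by fun_prop) fun y => ?_)
    · rw [norm_ne_zero_iff]
      exact hne _ (by simp)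
    · rw [norm_ne_zero_iff]
      exact hα1 y
  have hgi : Integrable (fun y => g y ^ 2) := by
    refine (hca.1.const_mul (4 / 9)).mono' (hgc.pow 2).aestronglyMeasurable
      (Eventually.of_forall fun y => ?_)
    rw [Real.norm_of_nonneg (sq_nonneg _)]
    exact hg2 y
  have hge : ∫ y, g y ^ 2 ≤ (4 / 9) * (Real.pi / (-α)) := by
    rw [← hca.2, ← integral_const_mul]
    exact integral_mono hgi (hca.1.const_mul _) hg2
  have hfc : Continuous f := by
    have hF2 : ∀ y, f y = Real.sqrt (ig N a (y + s0.im)) := by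
      intro y
      rw [← hf2, Real.sqrt_sq (norm_nonneg _)]
    have : f = fun y => Real.sqrt (ig N a (y + s0.im)) := funext hF2
    rw [this]
    exact ((ig_continuous N a).comp (by fun_prop)).sqrt
  have hfgi : Integrable (fun y => f y * g y) := by
    refine ((hfi.add hgi)).mono' (hfc.mul hgc).aestronglyMeasurable (Eventually.of_forall fun y => ?_)
    have hfn : 0 ≤ f y := norm_nonneg _
    have hgn : 0 ≤ g y := by rw [hg]; positivity
    rw [Real.norm_of_nonneg (mul_nonneg hfn hgn)]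
    simp only [Pi.add_apply]
    nlinarith [sq_nonneg (f y - g y)]
  have hcs := cs hfi hgi hfgi
  have hle : 2 * Real.pi * ‖F 0‖ ≤ ∫ y, f y * g y := by
    have e1 : ‖(2 * Real.pi * F 0 : ℂ)‖ = 2 * Real.pi * ‖F 0‖ := by
      rw [norm_mul, norm_mul, Complex.norm_real, Real.norm_of_nonneg Real.pi_pos.le]
      simp
    rw [← e1, ← h1, norm_neg]
    refine (norm_integral_le_integral_norm _).trans (le_of_eq ?_)
    exact integral_congr_ae (Eventually.of_forall hpt)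
  have hF0 : ‖F 0‖ = ‖G1 N a s0‖ / ‖s0 + 1‖ := by
    rw [hF]
    simp only [zero_add]
    rw [norm_mul, norm_inv, div_eq_mul_inv]
  have hs1 : 0 < ‖s0 + 1‖ := by
    rw [norm_pos_iff]
    have := hne 0 (by simpa using hα0.le)
    simpa using this
  have hfin : (2 * Real.pi * ‖F 0‖) ^ 2 ≤ (2 * Real.pi * err N a) * ((4 / 9) * (Real.pi / (-α))) := by
    have h3 : (2 * Real.pi * ‖F 0‖) ^ 2 ≤ (∫ y, f y * g y) ^ 2 :=
      pow_le_pow_left₀ (by positivity) hle 2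
    refine h3.trans (hcs.trans ?_)
    rw [hfe]
    have h4 : 0 ≤ 2 * Real.pi * err N a := by
      rw [← hfe]
      exact integral_nonneg fun y => sq_nonneg _
    exact mul_le_mul_of_nonneg_left hge h4
  have herr : 0 ≤ err N a := by
    have h4 : 0 ≤ 2 * Real.pi * err N a := by
      rw [← hfe]
      exact integral_nonneg fun y => sq_nonneg _
    exact nonneg_of_mul_nonneg_right h4 (by positivity)
  rw [hF0] at hfin
  have hαp : 0 < -α := by linarith
  have e3 : s0.re - 1 / 2 = -α := by rw [hα]; ring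
  rw [e3]
  have h5 : (2 * Real.pi * (‖G1 N a s0‖ / ‖s0 + 1‖)) ^ 2 =
      4 * Real.pi ^ 2 * (‖G1 N a s0‖ ^ 2 / ‖s0 + 1‖ ^ 2) := by
    rw [mul_pow, div_pow]
    ring
  have h6 : (2 * Real.pi * err N a) * ((4 / 9) * (Real.pi / (-α))) =
      (8 / 9) * Real.pi ^ 2 * (err N a / (-α)) := by
    field_simp
    ring
  rw [h5, h6] at hfin
  have hpi : 0 < Real.pi ^ 2 := by positivity
  have h7 : ‖G1 N a s0‖ ^ 2 / ‖s0 + 1‖ ^ 2 ≤ err N a / (-α) := by
    have h8 : 0 ≤ err N a / (-α) := by positivity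
    have h9 : Real.pi ^ 2 * (4 * (‖G1 N a s0‖ ^ 2 / ‖s0 + 1‖ ^ 2)) ≤
        Real.pi ^ 2 * ((8 / 9) * (err N a / (-α))) := by linarith
    have h10 := le_of_mul_le_mul_left h9 hpi
    linarith
  rw [div_le_div_iff₀ (by positivity) hαp] at h7
  linarith


/-- growth on the line `re s = 1/2 + δ` -/
lemma DP_line (h : S_int) (hs : S_shift) (hRH : RiemannHypothesis) {δ : ℝ} (hδ : 0 < δ)
    (hδ4 : δ ≤ 1 / 4) : ∃ K : ℝ, 0 < K ∧ ∀ (N : ℕ) (a : ℕ → ℂ), err N a ≤ 1 →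
    ∀ s : ℂ, s.re = 1 / 2 + δ → ‖DP N a s‖ ≤ K * ‖s - 4‖ ^ 4 := by
  obtain ⟨C, hC, hfz⟩ := AppAux.fz_bound_rh hRH (σ := 1 / 2 + δ) (by linarith)
  have hq : 0 < Real.sqrt δ := Real.sqrt_pos.2 hδ
  refine ⟨2 * C * (1 + 4 / Real.sqrt δ), by positivity, fun N a he s hre => ?_⟩
  have h1 : Zs s ≠ 0 := AppAux.Zs_ne_zero_of_rh hRH (by rw [hre]; linarith)
  have h2 : s - 1 ≠ 0 := by
    intro h0
    have := congrArg Complex.re h0
    simp only [sub_re, one_re, zero_re] at this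
    linarith
  have h3 : s ≠ 0 := ne_zero_of_re (by rw [hre]; linarith)
  have e : DP N a s = fz s * (1 - s ^ 2 * G1 N a s / (s - 1)) := by
    unfold fz G1
    field_simp
    ring
  have hc := cau h hs N a (s0 := s) (by rw [hre]; linarith)
  have hsq : ∀ w : ℂ, ‖w‖ ^ 2 = w.re ^ 2 + w.im ^ 2 := by
    intro w
    rw [← Complex.normSq_eq_norm_sq, Complex.normSq_apply]
    ring
  obtain ⟨Q, hQ⟩ : ∃ Q, Q = ‖s - 4‖ := ⟨_, rfl⟩
  have hQ0 : 0 ≤ Q := by rw [hQ]; exact norm_nonneg _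
  have q2 : Q ^ 2 = (s.re - 4) ^ 2 + s.im ^ 2 := by rw [hQ, hsq]; simp
  have n1 : ‖s‖ ≤ Q := by
    refine le_of_sq_le_sq ?_ hQ0
    rw [hsq, q2]
    nlinarith
  have n2 : ‖s + 1‖ ≤ Q := by
    refine le_of_sq_le_sq ?_ hQ0
    rw [hsq, q2]
    simp only [add_re, one_re, add_im, one_im, add_zero]
    nlinarith
  have n3 : |s.im| ≤ Q := by
    have := Complex.abs_im_le_norm (s - 4)
    rw [← hQ] at this
    simpa using this
  have n4 : 1 ≤ Q := by
    have := Complex.abs_re_le_norm (s - 4)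
    rw [← hQ] at this
    have h4 := neg_abs_le (s - 4).re
    simp only [sub_re, re_ofNat] at h4 this
    linarith
  have n5 : 1 / 4 ≤ ‖s - 1‖ := by
    have := Complex.abs_re_le_norm (s - 1)
    have h4 := neg_abs_le (s - 1).re
    simp only [sub_re, one_re] at h4 this
    linarith
  have n6 : ‖G1 N a s‖ ≤ Q / Real.sqrt δ := by
    rw [le_div_iff₀ hq]
    refine le_of_sq_le_sq ?_ hQ0
    have e4 : s.re - 1 / 2 = δ := by rw [hre]; ring
    rw [e4] at hc
    rw [mul_pow, Real.sq_sqrt hδ.le]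
    calc ‖G1 N a s‖ ^ 2 * δ ≤ ‖s + 1‖ ^ 2 * err N a := hc
      _ ≤ ‖s + 1‖ ^ 2 * 1 := by gcongr
      _ ≤ Q ^ 2 := by rw [mul_one]; gcongr
  have hp : 0 < ‖s - 1‖ := norm_pos_iff.mpr h2
  have h6 : ‖1 - s ^ 2 * G1 N a s / (s - 1)‖ ≤ (1 + 4 / Real.sqrt δ) * Q ^ 3 := by
    calc ‖1 - s ^ 2 * G1 N a s / (s - 1)‖ ≤ ‖(1:ℂ)‖ + ‖s ^ 2 * G1 N a s / (s - 1)‖ := norm_sub_le _ _
      _ = 1 + ‖s‖ ^ 2 * ‖G1 N a s‖ / ‖s - 1‖ := by rw [norm_one, norm_div, norm_mul, norm_pow]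
      _ ≤ 1 + Q ^ 2 * (Q / Real.sqrt δ) / (1 / 4) := by gcongr
      _ = 1 + 4 / Real.sqrt δ * Q ^ 3 := by field_simp
      _ ≤ Q ^ 3 + 4 / Real.sqrt δ * Q ^ 3 := by
          have : 1 ≤ Q ^ 3 := one_le_pow₀ n4
          linarith
      _ = _ := by ring
  have h7 := hfz s (by rw [hre])
  rw [e, norm_mul, ← hQ]
  calc ‖fz s‖ * ‖1 - s ^ 2 * G1 N a s / (s - 1)‖ ≤ (C * (2 * Q)) * ((1 + 4 / Real.sqrt δ) * Q ^ 3) := by
        refine mul_le_mul (h7.trans ?_) h6 (norm_nonneg _) (by positivity)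
        exact mul_le_mul_of_nonneg_left (by linarith) hC.le
    _ = _ := by ring

/-- growth to the left of the line `re s = 1/2 + δ` -/
lemma DP_left (h : S_int) (hs : S_shift) (hRH : RiemannHypothesis) {δ : ℝ} (hδ : 0 < δ)
    (hδ4 : δ ≤ 1 / 4) : ∃ K : ℝ, 0 < K ∧ ∀ (N : ℕ) (a : ℕ → ℂ), 1 ≤ N → err N a ≤ 1 →
    ∀ s : ℂ, s.re ≤ 1 / 2 + δ → ‖DP N a s‖ ≤ K * (N : ℝ) ^ (1 / 2 + δ - s.re) * ‖s - 4‖ ^ 4 := by
  obtain ⟨K, hK0, hK⟩ := DP_line h hs hRH hδ hδ4
  refine ⟨K, hK0, fun N a hN he s hs2 => ?_⟩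
  have hN1 : (1:ℝ) ≤ N := by exact_mod_cast hN
  have hN0 : (0:ℝ) < N := by linarith
  have hNc : (N : ℂ) ≠ 0 := by
    have : N ≠ 0 := by omega
    exact_mod_cast this
  have hcast : ((N : ℂ)) = ((N : ℝ) : ℂ) := by simp
  obtain ⟨σ, hσ⟩ : ∃ σ : ℝ, σ = 1 / 2 + δ := ⟨_, rfl⟩
  have hσ1 : σ ≤ 3 / 4 := by rw [hσ]; linarith
  have hσ0 : 0 < σ := by rw [hσ]; linarith
  rw [← hσ] at hs2 ⊢
  set f : ℂ → ℂ := fun z => DP N a (σ - z) * (N : ℂ) ^ (σ - z) / (z + (4 - σ)) ^ 4 with hf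
  have hne : ∀ z : ℂ, 0 ≤ z.re → z + (4 - σ) ≠ 0 := by
    intro z hz
    refine ne_zero_of_re ?_
    simp only [add_re, sub_re, re_ofNat, ofReal_re]
    linarith
  have hd : ∀ z : ℂ, 0 ≤ z.re → DifferentiableAt ℂ f z := by
    intro z hz
    have h1 : DifferentiableAt ℂ (fun z => DP N a (σ - z)) z :=
      DifferentiableAt.comp (g := DP N a) (f := fun z : ℂ => σ - z) z (DP_differentiable N a _)
        (by fun_prop)
    have h2 : DifferentiableAt ℂ (fun z : ℂ => (N : ℂ) ^ (σ - z)) z := by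
      have h3 : DifferentiableAt ℂ (fun z : ℂ => σ - z) z := by fun_prop
      exact h3.const_cpow (Or.inl hNc)
    have h4 : DifferentiableAt ℂ (fun z : ℂ => (z + (4 - σ)) ^ 4) z := by fun_prop
    exact (h1.mul h2).div h4 (pow_ne_zero 4 (hne z hz))
  set M := ∑ n ∈ Finset.Icc 1 N, ‖a n‖ * (N : ℝ) ^ σ with hM
  have hbd : ∀ z : ℂ, 0 ≤ z.re → ‖DP N a (σ - z) * (N : ℂ) ^ (σ - z)‖ ≤ M := by
    intro z hz
    unfold DP
    rw [Finset.sum_mul]
    refine (norm_sum_le _ _).trans (Finset.sum_le_sum fun n hn => ?_)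
    obtain ⟨hn1, hnN⟩ := Finset.mem_Icc.mp hn
    have hn0 : (0:ℝ) < n := by exact_mod_cast hn1
    have hn1' : (1:ℝ) ≤ n := by exact_mod_cast hn1
    have hnN' : (n:ℝ) ≤ N := by exact_mod_cast hnN
    have hcn : ((n : ℂ)) = ((n : ℝ) : ℂ) := by simp
    rw [norm_mul, norm_mul, mul_assoc, hcn, hcast, Complex.norm_cpow_eq_rpow_re_of_pos hn0,
      Complex.norm_cpow_eq_rpow_re_of_pos hN0]
    refine mul_le_mul_of_nonneg_left ?_ (norm_nonneg _)
    have e1 : (-(σ - z)).re = -(σ - z).re := by simp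
    rw [e1, Real.rpow_neg hn0.le, mul_comm, ← div_eq_mul_inv, ← Real.div_rpow hN0.le hn0.le]
    have h5 : 1 ≤ (N : ℝ) / n := by rwa [one_le_div hn0]
    calc ((N : ℝ) / n) ^ (σ - z).re ≤ ((N : ℝ) / n) ^ σ := by
          refine Real.rpow_le_rpow_of_exponent_le h5 ?_
          simp only [sub_re, ofReal_re]
          linarith
      _ ≤ (N : ℝ) ^ σ := by
          refine Real.rpow_le_rpow (by positivity) ?_ hσ0.le
          exact div_le_self hN0.le hn1'
  have hden : ∀ z : ℂ, 0 ≤ z.re → 1 ≤ ‖(z + (4 - σ)) ^ 4‖ := by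
    intro z hz
    rw [norm_pow]
    have h2 := (le_abs_self _).trans (Complex.abs_re_le_norm (z + (4 - σ)))
    simp only [add_re, sub_re, re_ofNat, ofReal_re] at h2
    exact one_le_pow₀ (by linarith)
  have hM0 : 0 ≤ M := Finset.sum_nonneg fun n _ => by positivity
  have hfM : ∀ z : ℂ, 0 ≤ z.re → ‖f z‖ ≤ M := by
    intro z hz
    rw [hf]
    simp only
    rw [norm_div]
    exact (div_le_self (norm_nonneg _) (hden z hz)).trans (hbd z hz)
  have hPL := PhragmenLindelof.right_half_plane_of_bounded_on_real (f := f) (C := K * (N : ℝ) ^ σ)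
    (z := σ - s) ?_ ?_ ?_ ?_ (by simp only [sub_re, ofReal_re]; linarith)
  · rw [hf] at hPL
    simp only at hPL
    have e1 : (σ : ℂ) - (σ - s) = s := by ring
    have e2 : (σ : ℂ) - s + (4 - σ) = -(s - 4) := by ring
    rw [e1, e2, norm_div, norm_mul, norm_pow, norm_neg, hcast,
      Complex.norm_cpow_eq_rpow_re_of_pos hN0] at hPL
    have h4 : 0 < ‖s - 4‖ := by
      rw [norm_pos_iff]
      intro h0
      have := congrArg Complex.re h0
      simp at this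
      linarith
    rw [div_le_iff₀ (by positivity)] at hPL
    have e3 : (N : ℝ) ^ σ = (N : ℝ) ^ (σ - s.re) * (N : ℝ) ^ s.re := by
      rw [← Real.rpow_add hN0]
      norm_num
    rw [e3] at hPL
    have h5 : 0 < (N : ℝ) ^ s.re := Real.rpow_pos_of_pos hN0 _
    have h6 : ‖DP N a s‖ * (N : ℝ) ^ s.re ≤
        (K * (N : ℝ) ^ (σ - s.re) * ‖s - 4‖ ^ 4) * (N : ℝ) ^ s.re := by
      calc ‖DP N a s‖ * (N : ℝ) ^ s.re ≤ _ := hPL
        _ = _ := by ring
    exact le_of_mul_le_mul_right h6 h5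
  · refine DifferentiableOn.diffContOnCl fun z hz => ?_
    have : z ∈ {z : ℂ | 0 ≤ z.re} := by
      rwa [Complex.closure_setOf_lt_re] at hz
    exact (hd z this).differentiableWithinAt
  · refine ⟨1, by norm_num, 0, ?_⟩
    refine Asymptotics.IsBigO.of_bound M ?_
    rw [eventually_inf_principal]
    refine Eventually.of_forall fun z hz => ?_
    have hz' : 0 < z.re := hz
    simpa using hfM z hz'.le
  · refine ⟨M, ?_⟩
    rw [eventually_map]
    filter_upwards [eventually_ge_atTop 0] with x hx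
    exact hfM x (by simpa using hx)
  · intro x
    have hre : ((σ : ℂ) - x * I).re = σ := by simp
    have h1 := hK N a he (σ - x * I) (by rw [hre, hσ])
    rw [hf]
    simp only
    have e2 : (x : ℂ) * I + (4 - σ) = -(σ - x * I - 4) := by ring
    have e3 : ‖(N : ℂ) ^ ((σ : ℂ) - x * I)‖ = (N : ℝ) ^ σ := by
      rw [hcast, Complex.norm_cpow_eq_rpow_re_of_pos hN0, hre]
    rw [e2, norm_div, norm_mul, norm_pow, norm_neg, e3]
    have h4 : 0 < ‖(σ : ℂ) - x * I - 4‖ := by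
      rw [norm_pos_iff]
      intro h0
      have := congrArg Complex.re h0
      simp at this
      linarith
    rw [div_le_iff₀ (by positivity)]
    calc ‖DP N a (σ - x * I)‖ * (N : ℝ) ^ σ ≤
          (K * ‖(σ : ℂ) - x * I - 4‖ ^ 4) * (N : ℝ) ^ σ := by gcongr
      _ = _ := by ring

end Grow

open Grow in
/-- **Growth of the Dirichlet polynomial to the left of the critical line.** -/
theorem grow (hs : S_shift) (hi : S_int) : S_grow := by
  intro hRH δ hδ hδ4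
  obtain ⟨K, hK0, hK⟩ := Grow.DP_left hi hs hRH hδ hδ4
  refine ⟨256 * K, 4, by positivity, fun N a hN he s hs2 => ?_⟩
  refine (hK N a hN he s hs2).trans ?_
  have h1 : ‖s - 4‖ ≤ 4 * (1 + ‖s‖) := by
    have := norm_sub_le s 4
    have h4 : ‖(4 : ℂ)‖ = 4 := by norm_num
    rw [h4] at this
    linarith [norm_nonneg s]
  have h2 : ‖s - 4‖ ^ 4 ≤ (4 * (1 + ‖s‖)) ^ 4 := pow_le_pow_left₀ (norm_nonneg _) h1 4
  have h3 : 0 ≤ (N : ℝ) ^ (1 / 2 + δ - s.re) := by positivity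
  calc K * (N : ℝ) ^ (1 / 2 + δ - s.re) * ‖s - 4‖ ^ 4 ≤
      K * (N : ℝ) ^ (1 / 2 + δ - s.re) * (4 * (1 + ‖s‖)) ^ 4 :=
        mul_le_mul_of_nonneg_left h2 (by positivity)
    _ = _ := by ring

end Pool.Agent.N967
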