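import Mathlib
import Pool.Agent.N967.Defs
import Pool.Agent.Y23.Zs

set_option autoImplicit false

/-!
# Baez-Duarte's distance: the statements about the zeros and the gamma factor
-/

namespace Pool.Agent.N967

open Complex MeasureTheory
open Pool.Agent.H295R2 (fz)
open Pool.Agent.Y23 (IsZ mu Lg)
open Pool.Agent.H24R2.JP (XX)

/-- the gamma factor: `XX w = HG w * ζ (1/2 + w)` for `|re w| < 1/2` (`Y23.XX_strip`) -/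
noncomputable def HG (w : ℂ) : ℂ := (4 * w ^ 2 - 1) * Gammaℝ (1 / 2 + w)

/-- growth of the gamma factor (unconditional) -/
def S_gam : Prop := ∃ C : ℝ, 0 < C ∧ ∀ a b t : ℝ, 0 ≤ a → a ≤ 1 / 4 → 0 ≤ b → b ≤ 1 / 4 →
  ‖HG (a + t * I)‖ ≤ Real.exp (C * |a - b| * Lg t) * ‖HG (b + t * I)‖ ∧
  ‖HG (a + t * I) - HG (b + t * I)‖ ≤ C * |a - b| * Lg t * Real.exp (C * |a - b| * Lg t) * ‖HG (b + t * I)‖

/-- the growth of `XX` at distance `1` and `2` (unconditional) -/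
def S_far : Prop := ∃ C : ℝ, 0 < C ∧ ∀ t : ℝ, 0 < ‖XX (1 + t * I)‖ ∧
  ‖XX (2 + t * I)‖ ≤ Real.exp (C * Lg t) * ‖XX (1 + t * I)‖

/-- the Fejer kernel in Weil's explicit formula -/
def S_fejer : Prop := RiemannHypothesis → ∃ C : ℝ, 0 < C ∧ ∀ t a : ℝ, 1 ≤ a → ∀ S : Finset ℂ, (∀ s ∈ S, IsZ s) →
  ∑ s ∈ S, (mu s : ℝ) * (4 * a ^ 2 * Real.sinc (a * (s.im - t)) ^ 2) ≤ 2 * a * Lg t + C * a ^ 2 * Real.exp a

/-- zeros in short intervals -/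
def S_cnt : Prop := RiemannHypothesis → ∀ η : ℝ, 0 < η → η ≤ 1 → ∃ θ C T0 : ℝ, 0 < θ ∧ θ ≤ 1 ∧ 0 < C ∧
  Real.exp 1 ≤ T0 ∧ ∀ t : ℝ, T0 ≤ Lg t → ∀ (r : ℝ) (S : Finset ℂ), (∀ s ∈ S, IsZ s ∧ |s.im - t| ≤ r) →
    (r ≤ θ / Real.log (Lg t) → ∑ s ∈ S, (mu s : ℝ) ≤ (1 / 2 + η) * Lg t / Real.log (Lg t)) ∧
    (θ / Real.log (Lg t) ≤ r → r ≤ 1 → ∑ s ∈ S, (mu s : ℝ) ≤ C * r * Lg t)

/-- Littlewood's bounds on a vertical line -/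
def S_lind : Prop := RiemannHypothesis → ∀ σ ε : ℝ, 1 / 2 < σ → σ < 1 → 0 < ε → ∃ C : ℝ, 0 < C ∧ ∀ t : ℝ,
  ‖riemannZeta (σ + t * I)‖ ≤ C * (1 + |t|) ^ ε ∧ ‖fz (σ + t * I)‖ ≤ C * (1 + |t|) ^ ε

/-- monotonicity of `|ξ|` to the right of the critical line -/
def S_mono : Prop := RiemannHypothesis → ∀ (w : ℂ) (h : ℝ), 0 ≤ w.re → 0 ≤ h →
  ‖XX w‖ ≤ ‖XX (w + h)‖ ∧ (0 < h → XX (w + h) ≠ 0)

end Pool.Agent.N967
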