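import Mathlib
import Pool.Agent.N967.NT

set_option autoImplicit false

/-!
# Baez-Duarte's distance, the sharp order of magnitude: the statements of the parts
-/

namespace Pool.Agent.N967

open Complex MeasureTheory
open Pool.Agent.H295R2 (fz)
open Pool.Agent.Y23 (IsZ mu Lg)
open Pool.Agent.H24R2.JP (XX)

/-- at most `M` zeros, counted with multiplicity, at distance `≤ r` from the height `t` -/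
def Cnt (t r M : ℝ) : Prop :=
  ∀ S : Finset ℂ, (∀ s ∈ S, IsZ s ∧ |s.im - t| ≤ r) → ∑ s ∈ S, (mu s : ℝ) ≤ M

/-- the radius of the short intervals -/
noncomputable def rad (θ T0 t : ℝ) : ℝ := if T0 ≤ Lg t then θ / Real.log (Lg t) else 1

/-- the zeros in the intervals longer than the radius -/
def Slope (θ C T0 : ℝ) : Prop := ∀ t : ℝ, T0 ≤ Lg t → ∀ r : ℝ, θ / Real.log (Lg t) ≤ r → r ≤ 1 → Cnt t r (C * r * Lg t)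

/-- the unit interval at `m` contains a height with many zeros nearby -/
def Bad (θ T0 η : ℝ) (m : ℤ) : Prop := ∃ τ : ℝ, (m : ℝ) ≤ τ ∧ τ ≤ m + 1 ∧ T0 ≤ Lg τ ∧
  ¬ Cnt τ (θ / Real.log (Lg τ)) ((1 / 4 + η) * Lg τ / Real.log (Lg τ))

/-- the ratio `ζ(1/2 + i t) / ζ(1/2 + b + i (t + v))` -/
noncomputable def Fr (b v t : ℝ) : ℂ :=
  riemannZeta (1 / 2 + t * I) * fz (1 / 2 + b + ((t + v : ℝ) : ℂ) * I)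

/-- the sum over the prime powers in the explicit formula -/
noncomputable def WW (a t : ℝ) : ℂ := ∑ n ∈ Finset.Icc 1 ⌊Real.exp (2 * a)⌋₊,
  ((ArithmeticFunction.vonMangoldt n / Real.sqrt n * (2 * a - Real.log n) : ℝ) : ℂ) * (n : ℂ) ^ (-(t : ℂ) * I)

/-- the gamma factor on both sides of the line -/
def S_gam2 : Prop := ∃ C : ℝ, 0 < C ∧ ∀ a b t : ℝ, |a| ≤ 1 / 4 → |b| ≤ 1 / 4 →
  ‖HG (a + t * I)‖ ≤ Real.exp (C * |a - b| * Lg t) * ‖HG (b + t * I)‖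

/-- the Fejer kernel in the explicit formula, with the sum over the primes kept -/
def S_fej2 : Prop := RiemannHypothesis → ∃ C : ℝ, 0 < C ∧ ∀ t a : ℝ, 1 ≤ a → ∀ S : Finset ℂ, (∀ s ∈ S, IsZ s) →
  ∑ s ∈ S, (mu s : ℝ) * (4 * a ^ 2 * Real.sinc (a * (s.im - t)) ^ 2) ≤
    2 * a * Lg t + C * a + C * Real.exp a / (1 + t ^ 2) + 2 * ‖WW a t‖

/-- high moments of Dirichlet polynomials over the primes -/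
def S_mom : Prop := ∃ C : ℝ, 0 < C ∧ ∀ (X k : ℕ) (c : ℕ → ℝ) (T : ℝ), 1 ≤ T → (X : ℝ) ^ k ≤ T →
  ∫ t in (-T)..T, ‖∑ p ∈ (Finset.range (X + 1)).filter Nat.Prime, ((c p : ℝ) : ℂ) * (p : ℂ) ^ (-(t : ℂ) * I)‖ ^ (2 * k) ≤
    C * T * k.factorial * (∑ p ∈ (Finset.range (X + 1)).filter Nat.Prime, c p ^ 2) ^ k

/-- the number of bad unit intervals -/
def S_bad : Prop := RiemannHypothesis → ∀ η : ℝ, 0 < η → η ≤ 1 → ∃ θ C T0 : ℝ, 0 < θ ∧ θ ≤ 1 ∧ 0 < C ∧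
  Real.exp 1 ≤ T0 ∧ ∀ T : ℝ, 1 ≤ T → ((({m : ℤ | |(m : ℝ)| ≤ T ∧ Bad θ T0 η m}).ncard : ℕ) : ℝ) ≤ C * T ^ (3 / 4 + η)

/-- all that is used about the zeros in short intervals -/
def S_cnt2 : Prop := RiemannHypothesis → ∀ η : ℝ, 0 < η → η ≤ 1 → ∃ θ C T0 : ℝ, 0 < θ ∧ θ ≤ 1 ∧ 0 < C ∧
  Real.exp 1 ≤ T0 ∧ Slope θ C T0 ∧
  (∀ t : ℝ, T0 ≤ Lg t → Cnt t (θ / Real.log (Lg t)) ((1 / 2 + η) * Lg t / Real.log (Lg t))) ∧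
  ∀ T : ℝ, 1 ≤ T → ((({m : ℤ | |(m : ℝ)| ≤ T ∧ Bad θ T0 η m}).ncard : ℕ) : ℝ) ≤ C * T ^ (3 / 4 + η)

/-- pointwise bounds for the ratio -/
def S_pt : Prop := RiemannHypothesis → ∀ η θ C T0 : ℝ, 0 < η → η ≤ 1 → 0 < θ → θ ≤ 1 → 0 < C → Real.exp 1 ≤ T0 →
  Slope θ C T0 → ∃ e K : ℝ, 0 < e ∧ e ≤ 1 / 4 ∧ 0 < K ∧
  (∀ x v τ β M : ℝ, |x| ≤ e → |v| ≤ e → 0 < β →
    (∀ s : ℂ, IsZ s → |s.im - τ| ≤ 1 → β ^ 2 ≤ x ^ 2 + (τ - s.im) ^ 2) → Cnt τ (rad θ T0 τ) M →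
    ‖riemannZeta (1 / 2 + ((τ + v : ℝ) : ℂ) * I)‖ * ‖fz (1 / 2 + x + τ * I)‖ ≤
      K * Real.exp (η * Lg τ + M * Real.log (1 + |v| / β))) ∧
  (∀ b t τ M : ℝ, 0 < b → b ≤ e → Cnt τ (rad θ T0 τ) M →
    ‖riemannZeta (1 / 2 + t * I)‖ * ‖fz (1 / 2 + b + τ * I)‖ ≤
      K * Real.exp (η * Lg t + η * Lg τ + M * Real.log (1 + 1 / b)))

/-- the mean square of `1 - F` over a unit block, small shifts -/
def S_blk : Prop := RiemannHypothesis → ∀ η θ C T0 : ℝ, 0 < η → η ≤ 1 → 0 < θ → θ ≤ 1 → 0 < C → Real.exp 1 ≤ T0 →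
  Slope θ C T0 → ∃ e K : ℝ, 0 < e ∧ e ≤ 1 / 4 ∧ 0 < K ∧ ∀ (b v M : ℝ) (m : ℤ), 0 < b → b ≤ e → |v| ≤ e →
    (∀ τ : ℝ, (m : ℝ) ≤ τ → τ ≤ m + 1 → Cnt τ (rad θ T0 τ) M) →
    ∫ t in ((m : ℝ) - v)..(m + 1 - v), ‖1 - Fr b v t‖ ^ 2 ≤
      K * (b + |v|) * Real.exp (8 * η * Lg m + 2 * M * Real.log (1 + |v| / b))

/-- the distance of the ratio from `1` in mean square -/
def S_dev : Prop := RiemannHypothesis → ∃ C b0 : ℝ, 0 < C ∧ 0 < b0 ∧ b0 ≤ 1 / 4 ∧ ∀ b v : ℝ, 0 < b → b ≤ b0 →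
  ∫⁻ t : ℝ, ENNReal.ofReal (‖1 - Fr b v t‖ ^ 2 / (1 / 4 + t ^ 2)) ≤
    ENNReal.ofReal (C * b * Real.exp (C * (1 + |v| / b) ^ (9 / 10 : ℝ)))

/-- the kernel -/
def S_kern2 : Prop := ∃ c C : ℝ, 0 < c ∧ 0 < C ∧ ∃ m : ℂ → ℂ, Differentiable ℂ m ∧ m 0 = 1 ∧
  (∀ z : ℂ, 0 ≤ z.re → ‖m z‖ ≤ C * Real.exp (-(c * |z.im| ^ (19 / 20 : ℝ)))) ∧
  (∀ z : ℂ, z.re ≤ 0 → ‖m z‖ ≤ C * Real.exp (-z.re) * Real.exp (-(c * |z.im| ^ (19 / 20 : ℝ))))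

/-- the approximation of `1 / ζ` by Dirichlet polynomials -/
def S_app2 : Prop := RiemannHypothesis → ∀ (B : ℝ) (m : ℂ → ℂ), Differentiable ℂ m → m 0 = 1 →
  (∀ z : ℂ, 0 ≤ z.re → ‖m z‖ ≤ B / (1 + |z.im|) ^ 8) →
  (∀ z : ℂ, z.re ≤ 0 → ‖m z‖ ≤ B * Real.exp (-z.re) / (1 + |z.im|) ^ 8) →
  (∫ y : ℝ, m (-(1 / 2) + y * I) / (-(1 / 2) + y * I) = -(2 * Real.pi)) ∧
  ∀ L : ℝ, 2 ≤ L → ∀ N : ℕ, L ≤ Real.log (N + 1) → ∃ a : ℕ → ℂ, ∀ t : ℝ,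
    DP N a (1 / 2 + t * I) = -(1 / (2 * Real.pi) * ∫ y : ℝ, m (-(1 / 2) + y * I) / (-(1 / 2) + y * I) *
      fz (1 / 2 + ((1 / L : ℝ) : ℂ) + ((t - y / L : ℝ) : ℂ) * I))

/-- the upper bound of the right order of magnitude -/
def S_upper2 : Prop := RiemannHypothesis → ∃ C : ℝ, 0 < C ∧ ∀ N : ℕ, 2 ≤ N → dd N ≤ C / Real.log N

end Pool.Agent.N967
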