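import Mathlib
import Pool.Agent.N967.NT
import Pool.Agent.H295R2.L
import Pool.Agent.H370R2.DirGood

set_option autoImplicit false

/-!
# The gamma factor: growth in the horizontal direction
-/

namespace Pool.Agent.N967

open Complex MeasureTheory
open Pool.Agent.H295R2 (fz)
open Pool.Agent.Y23 (IsZ mu Lg one_le_Lg)
open Pool.Agent.H24R2.JP (XX)

/-- Gronwall on a horizontal segment. -/
lemma horiz {H : ℂ → ℂ} {p q K t : ℝ} (hK : 0 ≤ K)
    (hd : ∀ u : ℝ, p ≤ u → u ≤ q → DifferentiableAt ℂ H (u + t * I))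
    (hb : ∀ u : ℝ, p ≤ u → u ≤ q → ‖deriv H (u + t * I)‖ ≤ K * ‖H (u + t * I)‖)
    {a b : ℝ} (ha : p ≤ a) (ha' : a ≤ q) (hb' : p ≤ b) (hb'' : b ≤ q) :
    ‖H (a + t * I)‖ ≤ Real.exp (K * |a - b|) * ‖H (b + t * I)‖ ∧
    ‖H (a + t * I) - H (b + t * I)‖ ≤ K * |a - b| * Real.exp (K * |a - b|) * ‖H (b + t * I)‖ := by
  set h : ℝ → ℂ := fun u => H ((b + u * (a - b) : ℝ) + t * I) with hh
  have hin : ∀ u : ℝ, 0 ≤ u → u ≤ 1 → p ≤ b + u * (a - b) ∧ b + u * (a - b) ≤ q := by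
    intro u h0 h1
    constructor <;> nlinarith
  have hder : ∀ u : ℝ, 0 ≤ u → u ≤ 1 →
      HasDerivAt h (deriv H ((b + u * (a - b) : ℝ) + t * I) * ((a - b : ℝ) : ℂ)) u := by
    intro u h0 h1
    obtain ⟨h2, h3⟩ := hin u h0 h1
    have h4 : HasDerivAt (fun u : ℝ => (((b + u * (a - b) : ℝ) : ℂ) + t * I)) ((a - b : ℝ) : ℂ) u := by
      have h5 : HasDerivAt (fun u : ℝ => b + u * (a - b)) (a - b) u := by
        simpa using ((hasDerivAt_id u).mul_const (a - b)).const_add b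
      exact h5.ofReal_comp.add_const _
    exact HasDerivAt.comp u ((hd _ h2 h3).hasDerivAt) h4
  have hbd : ∀ u : ℝ, 0 ≤ u → u ≤ 1 →
      ‖deriv H ((b + u * (a - b) : ℝ) + t * I) * ((a - b : ℝ) : ℂ)‖ ≤ K * |a - b| * ‖h u‖ := by
    intro u h0 h1
    obtain ⟨h2, h3⟩ := hin u h0 h1
    rw [norm_mul, Complex.norm_real, Real.norm_eq_abs]
    have := hb _ h2 h3
    have h5 := abs_nonneg (a - b)
    simp only [hh]
    calc _ ≤ K * ‖H ((b + u * (a - b) : ℝ) + t * I)‖ * |a - b| := by gcongr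
      _ = _ := by ring
  have h00 : h 0 = H (b + t * I) := by simp [hh]
  have h11 : h 1 = H (a + t * I) := by simp [hh]
  have hg : ∀ u : ℝ, 0 ≤ u → u ≤ 1 → ‖h u‖ ≤ Real.exp (K * |a - b|) * ‖h 0‖ := by
    intro u h0 h1
    have hc : ContinuousOn h (Set.Icc 0 1) := fun x hx =>
      (hder x hx.1 hx.2).continuousAt.continuousWithinAt
    have := norm_le_gronwallBound_of_norm_deriv_right_le (f := h)
      (f' := fun u => deriv H ((b + u * (a - b) : ℝ) + t * I) * ((a - b : ℝ) : ℂ)) (δ := ‖h 0‖)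
      (K := K * |a - b|) (ε := 0) (a := 0) (b := 1) hc
      (fun x hx => (hder x hx.1 hx.2.le).hasDerivWithinAt) le_rfl
      (fun x hx => by rw [add_zero]; exact hbd x hx.1 hx.2.le) u ⟨h0, h1⟩
    refine this.trans ?_
    rw [gronwallBound_ε0, mul_comm]
    refine mul_le_mul_of_nonneg_right ?_ (norm_nonneg _)
    apply Real.exp_le_exp.2
    have h5 : 0 ≤ K * |a - b| := by positivity
    rw [sub_zero]
    nlinarith
  constructor
  · have := hg 1 zero_le_one le_rfl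
    rwa [h00, h11] at this
  · have := norm_image_sub_le_of_norm_deriv_le_segment_01' (f := h)
      (f' := fun u => deriv H ((b + u * (a - b) : ℝ) + t * I) * ((a - b : ℝ) : ℂ))
      (C := K * |a - b| * (Real.exp (K * |a - b|) * ‖h 0‖))
      (fun x hx => (hder x hx.1 hx.2).hasDerivWithinAt)
      (fun x hx => (hbd x hx.1 hx.2.le).trans
        (mul_le_mul_of_nonneg_left (hg x hx.1 hx.2.le) (by positivity)))
    rw [h00, h11] at this
    refine this.trans (le_of_eq (by ring))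

lemma gammaR_diff {z : ℂ} (hz : 0 < z.re) : DifferentiableAt ℂ Gammaℝ z := by
  have h := (differentiable_Gammaℝ_inv z).inv (inv_ne_zero (Gammaℝ_ne_zero_of_re_pos hz))
  have e : Gammaℝ = fun s => ((Gammaℝ s)⁻¹)⁻¹ := by funext s; rw [inv_inv]
  rw [e]; exact h

lemma HG_diff {w : ℂ} (hw : -(1 / 2) < w.re) : DifferentiableAt ℂ HG w := by
  unfold HG
  refine DifferentiableAt.mul (by fun_prop) ?_
  refine DifferentiableAt.comp w (g := Gammaℝ) ?_ (by fun_prop)
  apply gammaR_diff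
  simp only [add_re, one_div, inv_re, re_ofNat, normSq_ofNat]
  norm_num at hw ⊢
  linarith

lemma quad_ne {w : ℂ} (h1 : 0 ≤ w.re) (h2 : w.re < 1 / 2 ∨ 1 / 2 < w.re) : (4 * w ^ 2 - 1 : ℂ) ≠ 0 := by
  have h3 : (4 * w ^ 2 - 1 : ℂ) = (2 * w - 1) * (2 * w + 1) := by ring
  rw [h3]
  refine mul_ne_zero ?_ ?_
  · intro h
    have := congrArg Complex.re h
    simp at this
    rcases h2 with h2 | h2 <;> linarith
  · intro h
    have := congrArg Complex.re h
    simp at this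
    linarith

lemma half_re {w : ℂ} (h1 : 0 ≤ w.re) : 0 < (1 / 2 + w : ℂ).re := by
  simp only [add_re, one_div, inv_re, re_ofNat, normSq_ofNat]
  norm_num
  linarith

lemma HG_ne {w : ℂ} (h1 : 0 ≤ w.re) (h2 : w.re < 1 / 2 ∨ 1 / 2 < w.re) : HG w ≠ 0 :=
  mul_ne_zero (quad_ne h1 h2) (Gammaℝ_ne_zero_of_re_pos (half_re h1))

lemma HG_logDeriv {w : ℂ} (h1 : 0 ≤ w.re) (h2 : w.re < 1 / 2 ∨ 1 / 2 < w.re) :
    deriv HG w = (2 / (2 * w - 1) + 2 / (2 * w + 1) + logDeriv Gammaℝ (1 / 2 + w)) * HG w := by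
  have d1 : HasDerivAt (fun w : ℂ => 4 * w ^ 2 - 1) (8 * w) w := by
    have := ((hasDerivAt_pow 2 w).const_mul 4).sub_const 1
    have e8 : (4 * (((2 : ℕ) : ℂ) * w ^ (2 - 1)) : ℂ) = 8 * w := by norm_num; ring
    rw [e8] at this
    exact this
  have d2 : HasDerivAt (fun w : ℂ => Gammaℝ (1 / 2 + w)) (deriv Gammaℝ (1 / 2 + w) * 1) w :=
    HasDerivAt.comp w (gammaR_diff (half_re h1)).hasDerivAt ((hasDerivAt_id w).const_add _)
  have d3 := (d1.mul d2).deriv
  have e : (fun w : ℂ => (4 * w ^ 2 - 1) * Gammaℝ (1 / 2 + w)) = HG := rfl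
  have d4 : deriv HG w = 8 * w * Gammaℝ (1 / 2 + w) +
      (4 * w ^ 2 - 1) * (deriv Gammaℝ (1 / 2 + w) * 1) := d3
  rw [d4, logDeriv_apply]
  unfold HG
  have h3 := Gammaℝ_ne_zero_of_re_pos (half_re h1)
  have h4 := quad_ne h1 h2
  have h5 : (4 * w ^ 2 - 1 : ℂ) = (2 * w - 1) * (2 * w + 1) := by ring
  have h6 : (2 * w - 1 : ℂ) ≠ 0 := fun h => h4 (by rw [h5, h, zero_mul])
  have h7 : (2 * w + 1 : ℂ) ≠ 0 := fun h => h4 (by rw [h5, h, mul_zero])
  have h8 : (8 * w : ℂ) = 2 * (2 * w + 1) + 2 * (2 * w - 1) := by ring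
  generalize deriv Gammaℝ (1 / 2 + w) = D
  generalize Gammaℝ (1 / 2 + w) = G at h3 ⊢
  rw [h5, h8]
  generalize 2 * w - 1 = a at h6 ⊢
  generalize 2 * w + 1 = b at h7 ⊢
  field_simp

lemma quot_le {z : ℂ} {t : ℝ} (ht : 1 ≤ |t|) (h : z.im = 2 * t) : ‖2 / z‖ ≤ 1 := by
  have h1 : 2 ≤ ‖z‖ := by
    refine le_trans ?_ (abs_im_le_norm z)
    rw [h, abs_mul, abs_two]; linarith
  rw [norm_div, div_le_one (by linarith)]
  simpa using h1

/-- the bound of the logarithmic derivative -/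
lemma HG_ld {p q : ℝ} (hp : 0 ≤ p) (hq : q ≤ 2) (h : q < 1 / 2 ∨ 1 / 2 < p) : ∃ C : ℝ, 0 < C ∧
    ∀ t u : ℝ, p ≤ u → u ≤ q → ‖deriv HG (u + t * I)‖ ≤ C * Lg t * ‖HG (u + t * I)‖ := by
  obtain ⟨C, hC, hG⟩ := H370.DL.logDeriv_Gammaℝ_bound
  have hre : ∀ u t : ℝ, ((u : ℂ) + t * I).re = u := by intro u t; simp
  have him : ∀ u t : ℝ, ((u : ℂ) + t * I).im = t := by intro u t; simp
  -- the compact part
  have hcomp : IsCompact (Set.Icc p q ×ℂ Set.Icc (-1) 1) := isCompact_Icc.reProdIm isCompact_Icc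
  have hU : IsOpen {w : ℂ | -(1 / 2) < w.re} := isOpen_lt continuous_const continuous_re
  have hcd : ContinuousOn (fun w => deriv HG w / HG w) (Set.Icc p q ×ℂ Set.Icc (-1) 1) := by
    have h1 : DifferentiableOn ℂ HG {w : ℂ | -(1 / 2) < w.re} := fun w hw =>
      (HG_diff hw).differentiableWithinAt
    have h2 := h1.deriv hU
    have hsub : Set.Icc p q ×ℂ Set.Icc (-1) 1 ⊆ {w : ℂ | -(1 / 2) < w.re} := by
      intro w hw
      have := (mem_reProdIm.1 hw).1.1
      simp only [Set.mem_setOf_eq]; linarith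
    refine (h2.continuousOn.mono hsub).div (h1.continuousOn.mono hsub) ?_
    intro w hw
    have := (mem_reProdIm.1 hw).1
    refine HG_ne (by linarith [this.1]) ?_
    rcases h with h | h
    · left; linarith [this.2]
    · right; linarith [this.1]
  obtain ⟨B, hB⟩ := hcomp.exists_bound_of_continuousOn hcd
  refine ⟨|B| + C + 5, by positivity, fun t u hu hu' => ?_⟩
  have hL := one_le_Lg t
  have h0 : 0 ≤ ((u : ℂ) + t * I).re := by rw [hre]; linarith
  have h00 : ((u : ℂ) + t * I).re < 1 / 2 ∨ 1 / 2 < ((u : ℂ) + t * I).re := by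
    rw [hre]
    rcases h with h | h
    · left; linarith
    · right; linarith
  have hne := HG_ne h0 h00
  have hn : 0 ≤ ‖HG (u + t * I)‖ := norm_nonneg _
  rcases le_or_gt 1 |t| with ht | ht
  · rw [HG_logDeriv h0 h00, norm_mul]
    refine mul_le_mul_of_nonneg_right ?_ hn
    have h1 : ‖(2 : ℂ) / (2 * (u + t * I) - 1)‖ ≤ 1 := quot_le ht (by simp)
    have h2 : ‖(2 : ℂ) / (2 * (u + t * I) + 1)‖ ≤ 1 := quot_le ht (by simp)
    have him' : (1 / 2 + ((u : ℂ) + t * I)).im = t := by simp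
    have hre' : (1 / 2 + ((u : ℂ) + t * I)).re = 1 / 2 + u := by simp
    have h3 := hG (1 / 2 + (u + t * I)) (by rw [hre']; linarith) (by rw [hre']; linarith)
      (by rw [him']; exact ht)
    rw [him'] at h3
    have h4 : 0 ≤ Real.log |t| := Real.log_nonneg ht
    have h5 : Real.log |t| ≤ Lg t := Real.log_le_log (by linarith) (by linarith)
    have h6 : ‖logDeriv Gammaℝ (1 / 2 + (u + t * I))‖ ≤ C + 1 / 2 * Real.log |t| := by
      have h7 : logDeriv Gammaℝ (1 / 2 + (u + t * I)) =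
          (logDeriv Gammaℝ (1 / 2 + (u + t * I)) - 1 / 2 * (Real.log |t| : ℂ)) +
            1 / 2 * (Real.log |t| : ℂ) := by ring
      rw [h7]
      refine (norm_add_le _ _).trans (add_le_add h3 ?_)
      rw [norm_mul, Complex.norm_real, Real.norm_of_nonneg h4]
      norm_num
    have h8 : ‖(2 : ℂ) / (2 * (u + t * I) - 1) + 2 / (2 * (u + t * I) + 1) +
        logDeriv Gammaℝ (1 / 2 + (u + t * I))‖ ≤ 1 + 1 + (C + 1 / 2 * Real.log |t|) :=
      (norm_add_le _ _).trans (add_le_add ((norm_add_le _ _).trans (add_le_add h1 h2)) h6)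
    refine h8.trans ?_
    nlinarith [abs_nonneg B]
  · have h1 : ((u : ℂ) + t * I) ∈ Set.Icc p q ×ℂ Set.Icc (-1 : ℝ) 1 := by
      rw [mem_reProdIm, hre, him]
      exact ⟨⟨hu, hu'⟩, ⟨by linarith [neg_abs_le t], by linarith [le_abs_self t]⟩⟩
    have h2 := hB _ h1
    rw [norm_div, div_le_iff₀ (norm_pos_iff.2 hne)] at h2
    refine h2.trans (mul_le_mul_of_nonneg_right ?_ hn)
    have := le_abs_self B
    nlinarith [abs_nonneg B]

theorem gam : S_gam := by
  obtain ⟨C, hC, hb⟩ := HG_ld (p := 0) (q := 1 / 4) le_rfl (by norm_num) (Or.inl (by norm_num))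
  refine ⟨C, hC, fun a b t ha ha' hb1 hb2 => ?_⟩
  have hL := one_le_Lg t
  have := horiz (H := HG) (p := 0) (q := 1 / 4) (K := C * Lg t) (t := t) (by positivity)
    (fun u hu _ => HG_diff (by simp; linarith)) (fun u hu hu' => hb t u hu hu') ha ha' hb1 hb2
  have e : C * Lg t * |a - b| = C * |a - b| * Lg t := by ring
  rw [e] at this
  exact this

lemma XX_HG {w : ℂ} (h : 1 / 2 < w.re) : XX w = HG w * riemannZeta (1 / 2 + w) := by
  have e1 : (1 / 2 + w : ℂ) ≠ 0 := by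
    intro h'
    have := congrArg Complex.re h'
    simp at this
    linarith
  have e2 : (1 - (1 / 2 + w) : ℂ) ≠ 0 := by
    intro h'
    have := congrArg Complex.re h'
    simp at this
    linarith
  have h4 := Gammaℝ_ne_zero_of_re_pos (half_re (w := w) (by linarith))
  rw [Pool.Agent.H24R2.JP.Zer.XX_eq w e1 e2, riemannZeta_def_of_ne_zero e1, HG]
  generalize Gammaℝ (1 / 2 + w) = G at h4 ⊢
  field_simp

theorem far : S_far := by
  obtain ⟨C, hC, hb⟩ := HG_ld (p := 1) (q := 2) (by norm_num) le_rfl (Or.inr (by norm_num))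
  obtain ⟨K, hK1, hK⟩ := Pool.Agent.H295R2.zeta_bounds (a := 3 / 2) (by norm_num)
  refine ⟨C + 2 * Real.log K, by have := Real.log_nonneg hK1; positivity, fun t => ?_⟩
  have hL := one_le_Lg t
  have hlog := Real.log_nonneg hK1
  have e1 : XX (1 + t * I) = HG ((1 : ℝ) + t * I) * riemannZeta (1 / 2 + (1 + t * I)) := by
    have := XX_HG (w := 1 + t * I) (by simp; norm_num)
    simpa using this
  have e2 : XX (2 + t * I) = HG ((2 : ℝ) + t * I) * riemannZeta (1 / 2 + (2 + t * I)) := by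
    have := XX_HG (w := 2 + t * I) (by simp; norm_num)
    simpa using this
  have r1 : (3 / 2 : ℝ) ≤ (1 / 2 + ((1 : ℂ) + t * I)).re := by simp; norm_num
  have r2 : (3 / 2 : ℝ) ≤ (1 / 2 + ((2 : ℂ) + t * I)).re := by simp; norm_num
  have hz1 : riemannZeta (1 / 2 + (1 + t * I)) ≠ 0 :=
    riemannZeta_ne_zero_of_one_lt_re (by linarith)
  have hG1 : HG ((1 : ℝ) + t * I) ≠ 0 := HG_ne (by simp) (Or.inr (by simp; norm_num))
  have hne1 : (1 / 2 + ((1 : ℂ) + t * I)) ≠ 1 := by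
    intro h
    rw [h] at r1
    norm_num at r1
  refine ⟨by rw [e1]; exact norm_pos_iff.2 (mul_ne_zero hG1 hz1), ?_⟩
  have h1 := (horiz (H := HG) (p := 1) (q := 2) (K := C * Lg t) (t := t) (by positivity)
    (fun u hu _ => HG_diff (by simp; linarith)) (fun u hu hu' => hb t u hu hu')
    (a := 2) (b := 1) (by norm_num) le_rfl le_rfl (by norm_num)).1
  have h2 := (hK _ r2).1
  have h3 := (hK _ r1).2
  rw [Pool.Agent.H295R2.fz_eq hne1, norm_inv] at h3
  have h4 : 1 ≤ K * ‖riemannZeta (1 / 2 + (1 + t * I))‖ := by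
    have := norm_pos_iff.2 hz1
    rwa [inv_le_iff_one_le_mul₀ this] at h3
  have h5 : |(2 : ℝ) - 1| = 1 := by norm_num
  rw [h5, mul_one] at h1
  have h6 : Real.exp ((C + 2 * Real.log K) * Lg t) = Real.exp (C * Lg t) * Real.exp (2 * Real.log K * Lg t) := by
    rw [← Real.exp_add]; congr 1; ring
  have h7 : K * K ≤ Real.exp (2 * Real.log K * Lg t) := by
    have : Real.exp (2 * Real.log K) = K * K := by
      rw [two_mul, Real.exp_add, Real.exp_log (by linarith)]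
    rw [← this]
    apply Real.exp_le_exp.2
    nlinarith
  rw [e1, e2, norm_mul, norm_mul, h6]
  set Z1 := ‖riemannZeta (1 / 2 + (1 + t * I))‖
  set Z2 := ‖riemannZeta (1 / 2 + (2 + t * I))‖
  set G1 := ‖HG ((1 : ℝ) + t * I)‖
  have hZ1 : 0 ≤ Z1 := norm_nonneg _
  have hZ2 : 0 ≤ Z2 := norm_nonneg _
  have hGG : 0 ≤ G1 := norm_nonneg _
  have hE := Real.exp_pos (C * Lg t)
  calc ‖HG ((2 : ℝ) + t * I)‖ * Z2 ≤ (Real.exp (C * Lg t) * G1) * K := by gcongr
    _ ≤ (Real.exp (C * Lg t) * G1) * (K * (K * Z1)) := by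
        refine mul_le_mul_of_nonneg_left ?_ (by positivity)
        nlinarith
    _ = Real.exp (C * Lg t) * (K * K) * (G1 * Z1) := by ring
    _ ≤ Real.exp (C * Lg t) * Real.exp (2 * Real.log K * Lg t) * (G1 * Z1) := by gcongr

end Pool.Agent.N967
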