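import Mathlib
import Pool.Agent.N967.Stm2

set_option autoImplicit false

/-!
# Baez-Duarte's distance, the asymptotic formula: the statements of the parts
-/

namespace Pool.Agent.N967

open Complex MeasureTheory Filter Topology
open Pool.Agent.H295R2 (fz)
open Pool.Agent.Y23 (IsZ mu Lg)
open Pool.Agent.H24R2.JP (XX)

/-- the nontrivial zeros -/
abbrev ZZ : Type := {s : ℂ // IsZ s}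

/-- the admissible kernels -/
def Ker (κ : ℂ → ℂ) : Prop := Differentiable ℂ κ ∧ κ 0 = 1 ∧ ∃ c C : ℝ, 0 < c ∧ 0 < C ∧
  (∀ z : ℂ, 0 ≤ z.re → ‖κ z‖ ≤ C * Real.exp (-(c * |z.im| ^ (19 / 20 : ℝ)))) ∧
  (∀ z : ℂ, z.re ≤ 0 → ‖κ z‖ ≤ C * Real.exp (-z.re) * Real.exp (-(c * |z.im| ^ (19 / 20 : ℝ))))

/-- the weight of the kernel on the line `re z = -1` -/
noncomputable def KK (κ : ℂ → ℂ) (y : ℝ) : ℂ := -(1 / (2 * Real.pi) * (κ (-1 + y * I) / (-1 + y * I)))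

/-- the error `1 - ζ A` at the height `t` for the kernel `κ` and the length `exp L` -/
noncomputable def HH (κ : ℂ → ℂ) (L t : ℝ) : ℂ := ∫ y : ℝ, KK κ y * (1 - Fr (1 / L) (-(y / L)) t)

/-- the profile of the error at a zero of multiplicity `m` -/
noncomputable def GG (κ : ℂ → ℂ) (m : ℕ) (x : ℝ) : ℂ :=
  ∫ y : ℝ, KK κ y * (1 - (x * I / (1 + ((x - y : ℝ) : ℂ) * I)) ^ m)

/-- the exact approximation -/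
def S_app3 : Prop := RiemannHypothesis → ∀ κ : ℂ → ℂ, Ker κ → ∀ L : ℝ, 4 ≤ L → ∀ N : ℕ, L ≤ Real.log (N + 1) →
  ∃ a : ℕ → ℂ, ∀ t : ℝ, 1 - riemannZeta (1 / 2 + t * I) * DP N a (1 / 2 + t * I) = HH κ L t

/-- a kernel that is bounded by `1` on the imaginary axis -/
def S_kern3 : Prop := ∃ κ : ℂ → ℂ, Ker κ ∧ ∀ y : ℝ, ‖κ (y * I)‖ ≤ 1

/-- the pointwise bound for `1 - F` -/
def S_pw : Prop := RiemannHypothesis → ∀ η θ C T0 : ℝ, 0 < η → η ≤ 1 → 0 < θ → θ ≤ 1 → 0 < C → Real.exp 1 ≤ T0 →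
  Slope θ C T0 → ∃ e K : ℝ, 0 < e ∧ e ≤ 1 / 4 ∧ 0 < K ∧ ∀ (b v M t : ℝ) (m : ℤ), 0 < b → b ≤ e → |v| ≤ e →
    (m : ℝ) ≤ t + v → t + v ≤ m + 1 → Cnt (t + v) (rad θ T0 (t + v)) M →
    ∀ Z : Finset ℂ, (∀ s : ℂ, IsZ s → |s.im - m| ≤ 4 → s ∈ Z) →
    ‖1 - Fr b v t‖ ^ 2 ≤ K * Real.exp (6 * η * Lg m + 2 * M * Real.log (1 + |v| / b)) *
      ((b + |v|) ^ 2 + ∑ s ∈ Z, (b + |v|) ^ 2 / ((b + |v|) ^ 2 + (t - s.im) ^ 2))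

/-- the mean square with a small tail -/
def S_devT : Prop := RiemannHypothesis → ∃ C b0 e : ℝ, 0 < C ∧ 0 < b0 ∧ b0 ≤ 1 / 4 ∧ 0 < e ∧ ∀ b v T : ℝ,
  0 < b → b ≤ b0 → |v| ≤ e → 1 ≤ T →
  ∫⁻ t in {t : ℝ | T < |t|}, ENNReal.ofReal (‖1 - Fr b v t‖ ^ 2 / (1 / 4 + t ^ 2)) ≤
    ENNReal.ofReal (C * b * T ^ (-(1 / 50 : ℝ)) * Real.exp (C * (1 + |v| / b) ^ (9 / 10 : ℝ)))

/-- a family of functions with given profiles at the zeros and nothing else -/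
structure Prof (f : ℝ → ℝ → ℂ) (G : ZZ → ℝ → ℂ) : Prop where
  cont : ∀ L : ℝ, 4 ≤ L → Continuous (f L)
  contG : ∀ ρ : ZZ, Continuous (G ρ)
  tail : ∀ ε : ℝ, 0 < ε → ∃ T L0 : ℝ, 1 ≤ T ∧ ∀ L : ℝ, L0 ≤ L →
    ∫⁻ t in {t : ℝ | T < |t|}, ENNReal.ofReal (‖f L t‖ ^ 2 / (1 / 4 + t ^ 2)) ≤ ENNReal.ofReal (ε / L)
  out : ∀ T ε : ℝ, 1 ≤ T → 0 < ε → ∃ X0 : ℝ, ∀ X : ℝ, X0 ≤ X → ∃ L0 : ℝ, ∀ L : ℝ, L0 ≤ L →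
    ∫⁻ t in {t : ℝ | |t| ≤ T ∧ ∀ s : ℂ, IsZ s → X / L < |t - s.im|}, ENNReal.ofReal (‖f L t‖ ^ 2) ≤
      ENNReal.ofReal (ε / L)
  loc : ∀ (ρ : ZZ) (X : ℝ), 1 ≤ X →
    Tendsto (fun L : ℝ => ∫ x in (-X)..X, ‖f L ((ρ : ℂ).im + x / L) - G ρ x‖ ^ 2) atTop (𝓝 0)

/-- Cauchy-Schwarz and Tonelli for `HH` -/
def S_cs : Prop := RiemannHypothesis → ∀ κ : ℂ → ℂ, Ker κ → ∀ L : ℝ, 4 ≤ L → ∀ w : ℝ → ℝ, Measurable w → (∀ t, 0 ≤ w t) →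
  ∫⁻ t : ℝ, ENNReal.ofReal (‖HH κ L t‖ ^ 2 * w t) ≤ ENNReal.ofReal (∫ y : ℝ, ‖KK κ y‖) *
    ∫⁻ y : ℝ, ENNReal.ofReal ‖KK κ y‖ * ∫⁻ t : ℝ, ENNReal.ofReal (‖1 - Fr (1 / L) (-(y / L)) t‖ ^ 2 * w t)

/-- the majorant near a fixed height -/
def S_maj : Prop := RiemannHypothesis → ∀ γ X : ℝ, 1 ≤ X → ∃ C L0 : ℝ, 0 < C ∧ 4 ≤ L0 ∧ ∀ L x y : ℝ, L0 ≤ L → |x| ≤ X →
  ‖Fr (1 / L) (-(y / L)) (γ + x / L)‖ ≤ C * Real.exp (C * (1 + |y|) ^ (9 / 10 : ℝ))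

/-- the tail of `HH` -/
def S_prT : Prop := RiemannHypothesis → ∀ κ : ℂ → ℂ, Ker κ → ∀ ε : ℝ, 0 < ε → ∃ T L0 : ℝ, 1 ≤ T ∧ ∀ L : ℝ, L0 ≤ L →
    ∫⁻ t in {t : ℝ | T < |t|}, ENNReal.ofReal (‖HH κ L t‖ ^ 2 / (1 / 4 + t ^ 2)) ≤ ENNReal.ofReal (ε / L)

/-- `HH` away from the zeros -/
def S_prO : Prop := RiemannHypothesis → ∀ κ : ℂ → ℂ, Ker κ → ∀ T ε : ℝ, 1 ≤ T → 0 < ε → ∃ X0 : ℝ, ∀ X : ℝ, X0 ≤ X →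
    ∃ L0 : ℝ, ∀ L : ℝ, L0 ≤ L →
    ∫⁻ t in {t : ℝ | |t| ≤ T ∧ ∀ s : ℂ, IsZ s → X / L < |t - s.im|}, ENNReal.ofReal (‖HH κ L t‖ ^ 2) ≤
      ENNReal.ofReal (ε / L)

/-- `HH` near a zero -/
def S_prL : Prop := RiemannHypothesis → ∀ κ : ℂ → ℂ, Ker κ → ∀ (ρ : ZZ) (X : ℝ), 1 ≤ X →
    Tendsto (fun L : ℝ => ∫ x in (-X)..X, ‖HH κ L ((ρ : ℂ).im + x / L) - GG κ (mu ρ) x‖ ^ 2) atTop (𝓝 0)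

/-- growth of the Dirichlet polynomial to the left of the critical line -/
def S_grow : Prop := RiemannHypothesis → ∀ δ : ℝ, 0 < δ → δ ≤ 1 / 4 → ∃ (C : ℝ) (k : ℕ), 0 < C ∧
  ∀ (N : ℕ) (a : ℕ → ℂ), 1 ≤ N → err N a ≤ 1 → ∀ s : ℂ, s.re ≤ 1 / 2 + δ →
    ‖DP N a s‖ ≤ C * (1 + ‖s‖) ^ k * (N : ℝ) ^ (1 / 2 + δ - s.re)

/-- the weight in the lower bound -/
noncomputable def gw (c0 : ℝ) (K : ℕ) (s : ℂ) : ℂ := ((c0 : ℂ) / (c0 + (s - 1 / 2))) ^ K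

/-- the inverse Laplace transform of the error -/
def S_jj : Prop := RiemannHypothesis → ∀ δ : ℝ, 0 < δ → δ ≤ 1 / 8 → ∃ K : ℕ, ∀ c0 : ℝ, 1 ≤ c0 → ∃ C : ℝ, 0 < C ∧
  ∀ (N : ℕ) (a : ℕ → ℂ), 2 ≤ N → err N a ≤ 1 → ∃ J : ℝ → ℂ, Measurable J ∧ (∀ v, v ≤ 0 → J v = 0) ∧
    (∀ v, 0 ≤ v → ‖J v‖ ≤ C * Real.exp (-(v / 4)) * (N : ℝ) ^ (1 / 4 + δ)) ∧
    Integrable (fun v => ‖J v‖ ^ 2) ∧ ∫ v : ℝ, ‖J v‖ ^ 2 ≤ err N a ∧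
    ∀ ρ : ℂ, IsZ ρ → ∀ k : ℕ, k < mu ρ →
      ∫ v : ℝ, ((-v : ℝ) : ℂ) ^ k * J v * Complex.exp (-(v * ρ.im : ℝ) * I) =
        iteratedDeriv k (fun s => (s - 1) / s ^ 2 * gw c0 K s) ρ

/-- the profiles of `HH κ` -/
def S_prof : Prop := RiemannHypothesis → ∀ κ : ℂ → ℂ, Ker κ → Prof (HH κ) (fun ρ => GG κ (mu ρ))

/-- the limit of the mean square is at most the sum over the profiles -/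
def S_lim : Prop := RiemannHypothesis → ∀ (f : ℝ → ℝ → ℂ) (G : ZZ → ℝ → ℂ), Prof f G →
  (∑' ρ : ZZ, ENNReal.ofReal (1 / ‖(ρ : ℂ)‖ ^ 2) * ∫⁻ x : ℝ, ENNReal.ofReal (‖G ρ x‖ ^ 2)) ≠ ⊤ ∧
  ∀ ε : ℝ, 0 < ε → ∃ L0 : ℝ, ∀ L : ℝ, L0 ≤ L →
    ENNReal.ofReal L * ∫⁻ t : ℝ, ENNReal.ofReal (‖f L t‖ ^ 2 / (1 / 4 + t ^ 2)) ≤
      (∑' ρ : ZZ, ENNReal.ofReal (1 / ‖(ρ : ℂ)‖ ^ 2) * ∫⁻ x : ℝ, ENNReal.ofReal (‖G ρ x‖ ^ 2)) + ENNReal.ofReal ε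

/-- the localizer at the height `γ` -/
noncomputable def EE (γ : ℝ) (M : ℕ) (t : ℝ) : ℂ :=
  (∑ n ∈ Finset.Icc 1 M, (n : ℂ) ^ (-1 - ((t - γ : ℝ) : ℂ) * I)) / ((∑ n ∈ Finset.Icc 1 M, 1 / (n : ℝ) : ℝ) : ℂ)

/-- the properties of the localizer -/
def S_ee : Prop := (∀ (γ : ℝ) (M : ℕ), 1 ≤ M → (∀ t : ℝ, ‖EE γ M t‖ ≤ 1) ∧ EE γ M γ = 1 ∧ Continuous (EE γ M) ∧
    ∃ e : ℕ → ℂ, ∀ t : ℝ, EE γ M t = DP M e (1 / 2 + t * I)) ∧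
  ∀ γ t : ℝ, t ≠ γ → Tendsto (fun M : ℕ => EE γ M t) atTop (𝓝 0)

/-- products of Dirichlet polynomials -/
def S_mulDP : Prop := ∀ (M N : ℕ) (e a : ℕ → ℂ), ∃ c : ℕ → ℂ, ∀ s : ℂ, DP M e s * DP N a s = DP (M * N) c s

/-- combinations of families with profiles -/
def S_combo : Prop := ∀ (S : Finset ZZ) (f0 : ℝ → ℝ → ℂ) (G0 : ZZ → ℝ → ℂ) (f : ZZ → ℝ → ℝ → ℂ) (G : ZZ → ZZ → ℝ → ℂ)
  (E : ZZ → ℝ → ℂ), Prof f0 G0 → (∀ i ∈ S, Prof (f i) (G i)) → (∀ i ∈ S, Continuous (E i) ∧ ∀ t, ‖E i t‖ ≤ 1) →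
  Prof (fun L t => f0 L t + ∑ i ∈ S, E i t * (f i L t - f0 L t))
    (fun ρ x => G0 ρ x + ∑ i ∈ S, E i (ρ : ℂ).im * (G i ρ x - G0 ρ x))

/-- the extremal polynomial -/
noncomputable def hpol (m : ℕ) : Polynomial ℝ :=
  -(Polynomial.C (1 / ((m - 1).factorial : ℝ)) * (Polynomial.derivative^[m] (Polynomial.X ^ (m - 1) * (1 - Polynomial.X) ^ m)))

/-- the properties of the extremal polynomial -/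
def S_hpol : Prop := ∀ m : ℕ, 1 ≤ m → (hpol m).natDegree < m ∧ (hpol m).eval 0 = (m : ℝ) ^ 2 ∧
  (∀ p : Polynomial ℝ, p.natDegree < m → ∫ u in (0 : ℝ)..1, (hpol m).eval u * p.eval u = p.eval 0)

/-- the profile through derivatives of the kernel -/
def S_gg : Prop := ∀ κ : ℂ → ℂ, Ker κ → ∀ (m : ℕ) (x : ℝ), 1 ≤ m → x ≠ 0 →
  GG κ m x = (-1) ^ (m - 1) * (x * I) ^ m / ((m - 1).factorial : ℂ) * iteratedDeriv (m - 1) (fun z => κ z / z) (x * I)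

/-- nearly optimal kernels -/
def S_opt : Prop := ∀ m : ℕ, 1 ≤ m → ∀ ε : ℝ, 0 < ε → ∃ κ : ℂ → ℂ, Ker κ ∧
  ∫⁻ x : ℝ, ENNReal.ofReal (‖GG κ m x‖ ^ 2) ≤ ENNReal.ofReal (2 * Real.pi * ((m : ℝ) ^ 2 + ε))

/-- Burnol's lower bound, under the Riemann hypothesis -/
def S_low3 : Prop := RiemannHypothesis → ∀ S : Finset ℂ, (∀ s ∈ S, IsZ s) → ∀ ε : ℝ, 0 < ε → ∃ N0 : ℕ, 2 ≤ N0 ∧
  ∀ N : ℕ, N0 ≤ N → ∀ a : ℕ → ℂ, (∑ s ∈ S, (mu s : ℝ) ^ 2 / ‖s‖ ^ 2) - ε ≤ err N a * Real.log N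

/-- the upper bound with the right constant -/
def S_up4 : Prop := RiemannHypothesis → Summable (fun ρ : ZZ => (mu ρ : ℝ) ^ 2 / ‖(ρ : ℂ)‖ ^ 2) ∧
  ∀ ε : ℝ, 0 < ε → ∃ N0 : ℕ, 2 ≤ N0 ∧ ∀ N : ℕ, N0 ≤ N →
    dd N * Real.log N ≤ (∑' ρ : ZZ, (mu ρ : ℝ) ^ 2 / ‖(ρ : ℂ)‖ ^ 2) + ε

/-- the asymptotic formula -/
def S_asym : Prop := RiemannHypothesis → Summable (fun ρ : ZZ => (mu ρ : ℝ) ^ 2 / ‖(ρ : ℂ)‖ ^ 2) ∧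
  Tendsto (fun N : ℕ => dd N * Real.log N) atTop (𝓝 (∑' ρ : ZZ, (mu ρ : ℝ) ^ 2 / ‖(ρ : ℂ)‖ ^ 2))

end Pool.Agent.N967
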