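import Mathlib
import Pool.Agent.N967.NT
import Pool.Agent.Y23.We6

/-! # Zeros in short intervals under RH, from Weil's formula with the Fejer kernel (project BD, part BD/W) -/

set_option autoImplicit false
set_option maxHeartbeats 2000000
open Complex Filter Topology Set MeasureTheory
open scoped ComplexConjugate

namespace Pool.Agent.N967.FJ


lemma sinc_lower (x : ℝ) : 1 - x ^ 2 / 6 ≤ Real.sinc x := by
  rcases eq_or_ne x 0 with h | h
  · subst h; simp
  · have key : ∀ y : ℝ, 0 < y → 1 - y ^ 2 / 6 ≤ Real.sinc y := by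
      intro y hy
      rw [Real.sinc_of_ne_zero hy.ne', le_div_iff₀ hy]
      have := Real.sin_gt_sub_cube hy
      nlinarith
    rcases lt_or_gt_of_ne h with h1 | h1
    · have := key (-x) (by linarith)
      rw [Real.sinc_neg] at this
      simpa using this
    · exact key x h1

lemma sinc_sq_lower {x θ : ℝ} (h : |x| ≤ θ) (hθ : θ ≤ 1) : 1 - θ ^ 2 / 3 ≤ Real.sinc x ^ 2 := by
  have h0 := sinc_lower x
  have h1 : x ^ 2 ≤ θ ^ 2 := by
    rw [← sq_abs]
    exact pow_le_pow_left₀ (abs_nonneg _) h 2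
  have h2 : 0 ≤ θ := (abs_nonneg _).trans h
  have h3 : θ ^ 2 ≤ 1 := by nlinarith
  have h4 : 0 ≤ 1 - x ^ 2 / 6 := by linarith
  nlinarith [sq_nonneg (x ^ 2)]

lemma sinc_sq_le_one (x : ℝ) : Real.sinc x ^ 2 ≤ 1 := by
  rw [← sq_abs]
  have := Real.abs_sinc_le_one x
  have := abs_nonneg (Real.sinc x)
  nlinarith

lemma sq_mul_sinc_sq (x : ℝ) : x ^ 2 * Real.sinc x ^ 2 ≤ 1 := by
  rcases eq_or_ne x 0 with h | h
  · subst h; simp
  · rw [Real.sinc_of_ne_zero h, div_pow, mul_div_cancel₀ _ (by positivity)]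
    exact Real.sin_sq_le_one x

/-- the Fejer kernel -/
noncomputable def KF (a u : ℝ) : ℝ := 4 * a ^ 2 * Real.sinc (a * u) ^ 2

lemma KF_nonneg (a u : ℝ) : 0 ≤ KF a u := by unfold KF; positivity

lemma KF_le (a u : ℝ) (hu : 1 ≤ |u|) : KF a u ≤ 8 / (1 + u ^ 2) := by
  unfold KF
  have h1 := sq_mul_sinc_sq (a * u)
  have h2 : 1 ≤ u ^ 2 := by rw [← sq_abs]; nlinarith
  rw [le_div_iff₀ (by positivity)]
  have h3 : 0 ≤ a ^ 2 * Real.sinc (a * u) ^ 2 := by positivity
  nlinarith [mul_le_mul_of_nonneg_left h2 h3]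

/-- the tail -/
noncomputable def hF (u : ℝ) : ℝ := 32 * (1 + |u|) ^ (-(3 / 2 : ℝ))

lemma hF_nonneg (u : ℝ) : 0 ≤ hF u := by unfold hF; positivity

lemma hF_int : Integrable hF := by
  unfold hF
  refine Integrable.const_mul ?_ _
  have := integrable_one_add_norm (E := ℝ) (μ := volume) (r := 3 / 2) (by simp; norm_num)
  simpa using this

lemma log_KF (a u : ℝ) : Real.log (1 + |u|) * KF a u ≤ KF a u + hF u := by
  have h0 := KF_nonneg a u
  have h9 := hF_nonneg u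
  rcases le_total |u| 1 with h | h
  · have h1 : Real.log (1 + |u|) ≤ 1 := by
      have h2 := Real.log_le_sub_one_of_pos (x := 1 + |u|) (by positivity)
      linarith
    nlinarith
  · have h1 : Real.log (1 + |u|) ≤ 2 * (1 + |u|) ^ (1 / 2 : ℝ) := by
      have h2 := Real.log_le_rpow_div (x := 1 + |u|) (by positivity) (ε := 1 / 2) (by norm_num)
      calc _ ≤ _ := h2
        _ = _ := by ring
    have h2 : KF a u ≤ 16 * (1 + |u|) ^ (-2 : ℝ) := by
      refine (KF_le a u h).trans ?_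
      have e : (1 + |u|) ^ (-2 : ℝ) = 1 / (1 + |u|) ^ 2 := by
        rw [Real.rpow_neg (by positivity)]
        norm_num
      rw [e, mul_one_div, div_le_div_iff₀ (by positivity) (by positivity)]
      have h3 : u ^ 2 = |u| ^ 2 := (sq_abs u).symm
      rw [h3]
      nlinarith [sq_nonneg (|u| - 1)]
    have h3 : 0 ≤ Real.log (1 + |u|) := Real.log_nonneg (by linarith [abs_nonneg u])
    calc Real.log (1 + |u|) * KF a u ≤ (2 * (1 + |u|) ^ (1 / 2 : ℝ)) * (16 * (1 + |u|) ^ (-2 : ℝ)) :=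
          mul_le_mul h1 h2 h0 (by positivity)
      _ = hF u := by
          unfold hF
          rw [show (-(3 / 2) : ℝ) = 1 / 2 + (-2) by norm_num, Real.rpow_add (by positivity)]
          ring
      _ ≤ _ := by linarith

/-- the truncated exponential -/
noncomputable def gI (a : ℝ) (x : ℝ) : ℂ := (Icc (-a) a).indicator (fun _ => (1 : ℂ)) x

noncomputable def ff (a t : ℝ) (x : ℝ) : ℂ := gI a x * cexp ((-(t * I)) * x)

lemma norm_ff_le (a t x : ℝ) : ‖ff a t x‖ ≤ (Icc (-a) a).indicator (fun _ => (1 : ℝ)) x := by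
  unfold ff gI
  rw [norm_mul]
  have : ‖cexp ((-(t * I)) * x)‖ = 1 := by
    have : (-(t * I)) * (x : ℂ) = ((-(t * x) : ℝ) : ℂ) * I := by push_cast; ring
    rw [this, Complex.norm_exp_ofReal_mul_I]
  rw [this, mul_one]
  by_cases h : x ∈ Icc (-a) a
  · rw [indicator_of_mem h, indicator_of_mem h, norm_one]
  · rw [indicator_of_notMem h, indicator_of_notMem h, norm_zero]

lemma norm_ff_eq (a t x : ℝ) : ‖ff a t x‖ = (Icc (-a) a).indicator (fun _ => (1 : ℝ)) x := by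
  unfold ff gI
  rw [norm_mul]
  have : ‖cexp ((-(t * I)) * x)‖ = 1 := by
    have : (-(t * I)) * (x : ℂ) = ((-(t * x) : ℝ) : ℂ) * I := by push_cast; ring
    rw [this, Complex.norm_exp_ofReal_mul_I]
  rw [this, mul_one]
  by_cases h : x ∈ Icc (-a) a
  · rw [indicator_of_mem h, indicator_of_mem h, norm_one]
  · rw [indicator_of_notMem h, indicator_of_notMem h, norm_zero]

/-- the number of lattice points -/
lemma sum_inv_sqrt (N : ℕ) : ∑ n ∈ Finset.Icc 1 N, 1 / Real.sqrt n ≤ 2 * Real.sqrt N := by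
  induction N with
  | zero => simp
  | succ N ih =>
    rw [Finset.sum_Icc_succ_top (by omega)]
    have h1 : 0 < Real.sqrt ((N + 1 : ℕ) : ℝ) := Real.sqrt_pos.2 (by positivity)
    have h2 : Real.sqrt ((N : ℕ) : ℝ) ≤ Real.sqrt ((N + 1 : ℕ) : ℝ) := Real.sqrt_le_sqrt (by push_cast; linarith)
    have h3 : Real.sqrt ((N + 1 : ℕ) : ℝ) ^ 2 = (N : ℝ) + 1 := by
      rw [Real.sq_sqrt (by positivity)]; push_cast; ring
    have h4 : Real.sqrt ((N : ℕ) : ℝ) ^ 2 = (N : ℝ) := Real.sq_sqrt (by positivity)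
    have h5 : 1 / Real.sqrt ((N + 1 : ℕ) : ℝ) ≤ 2 * (Real.sqrt ((N + 1 : ℕ) : ℝ) - Real.sqrt ((N : ℕ) : ℝ)) := by
      rw [div_le_iff₀ h1]
      nlinarith [Real.sqrt_nonneg ((N : ℕ) : ℝ)]
    linarith

lemma prime_sum {a : ℝ} (ha : 0 ≤ a) :
    ∑ n ∈ Finset.Icc 1 ⌊Real.exp (2 * a)⌋₊, ArithmeticFunction.vonMangoldt n / Real.sqrt n ≤ 4 * a * Real.exp a := by
  have h1 : ∀ n ∈ Finset.Icc 1 ⌊Real.exp (2 * a)⌋₊, ArithmeticFunction.vonMangoldt n / Real.sqrt n ≤
      (2 * a) * (1 / Real.sqrt n) := by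
    intro n hn
    rw [Finset.mem_Icc] at hn
    have hn0 : (0 : ℝ) < n := by exact_mod_cast hn.1
    have h2 : (n : ℝ) ≤ Real.exp (2 * a) := (Nat.le_floor_iff (Real.exp_pos _).le).1 hn.2
    have h3 : Real.log n ≤ 2 * a := by
      rw [Real.log_le_iff_le_exp hn0]; exact h2
    have h4 : ArithmeticFunction.vonMangoldt n ≤ Real.log n := ArithmeticFunction.vonMangoldt_le_log
    rw [div_eq_mul_one_div]
    exact mul_le_mul_of_nonneg_right (h4.trans h3) (by positivity)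
  refine (Finset.sum_le_sum h1).trans ?_
  rw [← Finset.mul_sum]
  have h5 := sum_inv_sqrt ⌊Real.exp (2 * a)⌋₊
  have h6 : Real.sqrt ((⌊Real.exp (2 * a)⌋₊ : ℕ) : ℝ) ≤ Real.exp a := by
    rw [Real.sqrt_le_left (Real.exp_pos _).le, ← Real.exp_nat_mul]
    exact_mod_cast Nat.floor_le (Real.exp_pos _).le
  nlinarith



open Pool.Agent.Y23

/-! ### the test function -/

lemma Fa_gI (a : ℝ) : Fa a (gI a) := by
  refine ⟨?_, fun x hx => ?_⟩
  · exact memLp_indicator_const 2 measurableSet_Icc 1 (Or.inr measure_Icc_lt_top.ne)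
  · unfold gI
    rw [indicator_of_notMem]
    rw [mem_Icc, ← abs_le, not_le]
    exact hx

lemma Fa_ff (a t : ℝ) : Fa a (ff a t) := (Fa_gI a).mul_bdd (by fun_prop)

lemma TT_gI {a : ℝ} (ha : 0 < a) (u : ℝ) : TT (gI a) (u * I) = ((2 * a * Real.sinc (a * u) : ℝ) : ℂ) := by
  have e : TT (gI a) (u * I) = ∫ x in (-a)..a, cexp ((u * x : ℝ) * I) := by
    unfold TT
    rw [intervalIntegral.integral_of_le (by linarith), ← integral_Icc_eq_integral_Ioc,
      ← integral_indicator measurableSet_Icc]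
    congr 1
    funext x
    unfold gI
    by_cases h : x ∈ Icc (-a) a
    · rw [indicator_of_mem h, indicator_of_mem h, one_mul]
      congr 1
      push_cast; ring
    · rw [indicator_of_notMem h, indicator_of_notMem h, zero_mul]
  rw [e]
  rcases eq_or_ne u 0 with hu | hu
  · subst hu
    simp
    ring
  · have h1 := intervalIntegral.integral_comp_mul_left (a := -a) (b := a) (fun x : ℝ => cexp ((x : ℂ) * I)) hu
    rw [h1, mul_neg, integral_exp_mul_I_eq_sinc]
    rw [real_smul, mul_comm u a]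
    push_cast
    have : (u : ℂ) ≠ 0 := by exact_mod_cast hu
    field_simp

lemma TT_ff {a : ℝ} (ha : 0 < a) (t v : ℝ) : TT (ff a t) (v * I) = ((2 * a * Real.sinc (a * (v - t)) : ℝ) : ℂ) := by
  have h := TT_mul_exp (gI a) (-(t * I)) (v * I)
  have e : (-(t * I) + v * I : ℂ) = ((v - t : ℝ) : ℂ) * I := by push_cast; ring
  rw [e, TT_gI ha] at h
  exact h

lemma norm_TT_ff {a : ℝ} (ha : 0 < a) (t v : ℝ) : ‖TT (ff a t) (v * I)‖ ^ 2 = KF a (v - t) := by
  rw [TT_ff ha, Complex.norm_real, Real.norm_eq_abs, sq_abs]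
  unfold KF
  ring

lemma N2_ff {a : ℝ} (ha : 0 < a) (t : ℝ) : N2 (ff a t) = 2 * a := by
  unfold N2
  have e : (fun x => ‖ff a t x‖ ^ 2) = (Icc (-a) a).indicator (fun _ => (1 : ℝ)) := by
    funext x
    rw [norm_ff_eq]
    by_cases h : x ∈ Icc (-a) a
    · rw [indicator_of_mem h, one_pow]
    · rw [indicator_of_notMem h]; norm_num
  rw [e, integral_indicator measurableSet_Icc]
  simp only [integral_const, MeasurableSet.univ, measureReal_restrict_apply, univ_inter,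
        Real.volume_real_Icc, smul_eq_mul, mul_one]
  rw [max_eq_left (by linarith)]; ring

lemma KF_int {a : ℝ} (ha : 0 < a) (t : ℝ) : Integrable (fun v => KF a (v - t)) := by
  refine (int_TT_sq (Fa_ff a t)).congr (Eventually.of_forall fun v => ?_)
  exact norm_TT_ff ha t v

lemma KF_integral {a : ℝ} (ha : 0 < a) (t : ℝ) : ∫ v, KF a (v - t) = 4 * Real.pi * a := by
  have h := plancherel (Fa_ff a t)
  rw [N2_ff ha] at h
  rw [show (4 * Real.pi * a) = 2 * Real.pi * (2 * a) by ring, ← h]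
  refine integral_congr_ae (Eventually.of_forall fun v => ?_)
  exact (norm_TT_ff ha t v).symm

lemma Lg_le (t v : ℝ) : Lg v ≤ Lg t + Real.log (1 + |v - t|) := by
  unfold Lg
  rw [← Real.log_mul (by positivity) (by positivity)]
  refine Real.log_le_log (by positivity) ?_
  have h1 : |v| ≤ |t| + |v - t| := by
    calc |v| = |t + (v - t)| := by ring_nf
      _ ≤ _ := abs_add_le _ _
  nlinarith [abs_nonneg t, abs_nonneg (v - t), mul_nonneg (abs_nonneg t) (abs_nonneg (v - t))]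

lemma Lg_KF (a t v : ℝ) : Lg v * KF a (v - t) ≤ (Lg t + 1) * KF a (v - t) + hF (v - t) := by
  have h1 := Lg_le t v
  have h2 := log_KF a (v - t)
  have h3 := KF_nonneg a (v - t)
  nlinarith [mul_le_mul_of_nonneg_right h1 h3]

lemma maj_int {a : ℝ} (ha : 0 < a) (t c : ℝ) :
    Integrable (fun v => c * KF a (v - t) + hF (v - t)) :=
  ((KF_int ha t).const_mul c).add (hF_int.comp_sub_right t)

lemma Hd_ff {a : ℝ} (ha : 0 < a) (t : ℝ) : Hd a (ff a t) := by
  refine ⟨Fa_ff a t, ?_⟩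
  refine (maj_int ha t (Lg t + 1)).mono' (LL_cont (Fa_ff a t)).aestronglyMeasurable (Eventually.of_forall fun v => ?_)
  rw [Real.norm_eq_abs, abs_of_nonneg (mul_nonneg (Lg_pos v).le (sq_nonneg _)), norm_TT_ff ha]
  exact Lg_KF a t v

/-- the archimedean density with the sharp constant -/
lemma DG_upper : ∃ C : ℝ, 0 < C ∧ ∀ y : ℝ, DG y ≤ Lg y + C := by
  obtain ⟨C, hC0, hC⟩ := H370.DL.logDeriv_Gammaℝ_bound
  obtain ⟨K, hK⟩ := (isCompact_Icc (a := (-1 : ℝ)) (b := 1)).exists_bound_of_continuousOn DG_cont.continuousOn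
  refine ⟨max (2 * C + 1) K, by positivity, fun y => ?_⟩
  have hL := one_le_Lg y
  rcases le_total 1 |y| with h | h
  · have h1 := hC (1 / 2 + (⟨0, y⟩ : ℂ)) (by simp; norm_num) (by simp; norm_num) (by simpa using h)
    have him : (1 / 2 + (⟨0, y⟩ : ℂ)).im = y := by simp
    rw [him] at h1
    have h2 : DG y = 2 * (logDeriv Gammaℝ (1 / 2 + (⟨0, y⟩ : ℂ)) - 1 / 2 * Real.log |y|).re + Real.log |y| := by
      have h3 := DG_eq y
      have hne : Gammaℝ (1 / 2 + (⟨0, y⟩ : ℂ)) ≠ 0 := gr_ne (Rg_zero y).2.2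
      have e1 : (1 / 2 + (⟨0, -y⟩ : ℂ)) = conj (1 / 2 + (⟨0, y⟩ : ℂ)) := by apply Complex.ext <;> simp
      have e2 : 8 * (⟨0, -y⟩ : ℂ) / (4 * (⟨0, -y⟩ : ℂ) ^ 2 - 1) = -(8 * (⟨0, y⟩ : ℂ) / (4 * (⟨0, y⟩ : ℂ) ^ 2 - 1)) := by
        have : (⟨0, -y⟩ : ℂ) = -⟨0, y⟩ := by apply Complex.ext <;> simp
        rw [this, neg_sq]; ring
      unfold YL at h3
      rw [e1, LGR_conj hne, e2] at h3
      have h4 := congrArg Complex.re h3
      rw [Complex.ofReal_re] at h4
      rw [← h4]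
      have e6 : (1 / 2 * (Real.log |y| : ℂ)).re = Real.log |y| / 2 := by
        have : (1 / 2 * (Real.log |y| : ℂ)) = ((Real.log |y| / 2 : ℝ) : ℂ) := by push_cast; ring
        rw [this, Complex.ofReal_re]
      simp only [Complex.add_re, Complex.sub_re, Complex.neg_re, Complex.conj_re, e6]
      ring
    have h3 := (Complex.abs_re_le_norm _).trans h1
    have h6 : Real.log |y| ≤ Lg y := by
      unfold Lg
      exact Real.log_le_log (by linarith) (by linarith)
    rw [h2]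
    have h7 := (abs_le.1 h3).2
    have h8 := le_max_left (2 * C + 1) K
    linarith
  · have h1 := hK y (by rw [mem_Icc, ← abs_le]; exact h)
    rw [Real.norm_eq_abs] at h1
    have h8 : K ≤ max (2 * C + 1) K := le_max_right _ _
    have h9 := (abs_le.1 h1).2
    linarith

lemma arch_le {a C : ℝ} (ha : 0 < a) (hC : ∀ y : ℝ, DG y ≤ Lg y + C) (t : ℝ) :
    ∫ v : ℝ, DG v * ‖TT (ff a t) (v * I)‖ ^ 2 ≤ (Lg t + 1 + C) * (4 * Real.pi * a) + ∫ v, hF v := by
  obtain ⟨C', _, hDG⟩ := DG_bd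
  have hi : Integrable (fun v : ℝ => DG v * ‖TT (ff a t) (v * I)‖ ^ 2) := by
    refine ((Hd_ff ha t).2.const_mul C').mono' ?_ (Eventually.of_forall fun v => ?_)
    · exact (DG_cont.mul ((TT_line_cont (Fa_ff a t)).norm.pow 2)).aestronglyMeasurable
    · rw [norm_mul, Real.norm_eq_abs, Real.norm_eq_abs, abs_of_nonneg (sq_nonneg ‖TT (ff a t) (v * I)‖), ← mul_assoc]
      exact mul_le_mul_of_nonneg_right (hDG v) (sq_nonneg _)
  have h1 : ∫ v : ℝ, DG v * ‖TT (ff a t) (v * I)‖ ^ 2 ≤ ∫ v : ℝ, ((Lg t + 1 + C) * KF a (v - t) + hF (v - t)) := by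
    refine integral_mono hi (maj_int ha t _) fun v => ?_
    simp only
    rw [norm_TT_ff ha]
    have h2 := Lg_KF a t v
    have h3 := KF_nonneg a (v - t)
    have h4 := mul_le_mul_of_nonneg_right (hC v) h3
    linarith
  refine h1.trans (le_of_eq ?_)
  rw [integral_add ((KF_int ha t).const_mul _) (hF_int.comp_sub_right t), integral_const_mul, KF_integral ha,
    integral_sub_right_eq_self hF t]

lemma pole_le {a : ℝ} (ha : 0 < a) (t : ℝ) :
    2 * (TT (ff a t) (1 / 2) * conj (TT (ff a t) (-(1 / 2)))).re ≤ 8 * a ^ 2 * Real.exp a := by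
  have h1 := norm_TT_le ha (Fa_ff a t) (1 / 2)
  have h2 := norm_TT_le ha (Fa_ff a t) (-(1 / 2))
  rw [N2_ff ha] at h1 h2
  have e1 : 2 * a * |((1 : ℂ) / 2).re| = a := by norm_num; ring
  have e2 : 2 * a * |(-((1 : ℂ) / 2)).re| = a := by norm_num; ring
  rw [e1] at h1
  rw [e2] at h2
  have h3 := Complex.re_le_norm (TT (ff a t) (1 / 2) * conj (TT (ff a t) (-(1 / 2))))
  rw [norm_mul, RCLike.norm_conj] at h3
  nlinarith [sq_nonneg (‖TT (ff a t) (1 / 2)‖ - ‖TT (ff a t) (-(1 / 2))‖)]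

lemma CC_le {a : ℝ} (ha : 0 < a) (t L : ℝ) : |(∫ x : ℝ, ff a t (x + L) * conj (ff a t x)).re| ≤ 2 * a := by
  refine (Complex.abs_re_le_norm _).trans ?_
  have h1 : ‖∫ x : ℝ, ff a t (x + L) * conj (ff a t x)‖ ≤ ∫ x : ℝ, (Icc (-a) a).indicator (fun _ => (1 : ℝ)) x := by
    refine norm_integral_le_of_norm_le ?_ (Eventually.of_forall fun x => ?_)
    · rw [integrable_indicator_iff measurableSet_Icc]
      exact integrableOn_const measure_Icc_lt_top.ne
    · rw [norm_mul, RCLike.norm_conj]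
      have h2 := norm_ff_eq a t x
      have h3 : ‖ff a t (x + L)‖ ≤ 1 := by
        rw [norm_ff_eq]
        exact indicator_le_self' (fun _ _ => zero_le_one) _
      rw [h2]
      have h4 : 0 ≤ (Icc (-a) a).indicator (fun _ => (1 : ℝ)) x := indicator_nonneg (fun _ _ => zero_le_one) _
      nlinarith
  refine h1.trans (le_of_eq ?_)
  rw [integral_indicator measurableSet_Icc]
  simp only [integral_const, MeasurableSet.univ, measureReal_restrict_apply, univ_inter,
        Real.volume_real_Icc, smul_eq_mul, mul_one]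
  rw [max_eq_left (by linarith)]; ring

lemma prime_le {a : ℝ} (ha : 0 < a) (t : ℝ) :
    -(2 * ∑ n ∈ Finset.Icc 1 ⌊Real.exp (2 * a)⌋₊, ArithmeticFunction.vonMangoldt n / Real.sqrt n *
        (∫ x : ℝ, ff a t (x + Real.log n) * conj (ff a t x)).re) ≤ 16 * a ^ 2 * Real.exp a := by
  have h1 : -(∑ n ∈ Finset.Icc 1 ⌊Real.exp (2 * a)⌋₊, ArithmeticFunction.vonMangoldt n / Real.sqrt n *
        (∫ x : ℝ, ff a t (x + Real.log n) * conj (ff a t x)).re) ≤
      ∑ n ∈ Finset.Icc 1 ⌊Real.exp (2 * a)⌋₊, ArithmeticFunction.vonMangoldt n / Real.sqrt n * (2 * a) := by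
    rw [← Finset.sum_neg_distrib]
    refine Finset.sum_le_sum fun n _ => ?_
    rw [← mul_neg]
    refine mul_le_mul_of_nonneg_left ?_ (div_nonneg ArithmeticFunction.vonMangoldt_nonneg (Real.sqrt_nonneg _))
    exact (neg_le_abs _).trans (CC_le ha t _)
  rw [← Finset.sum_mul] at h1
  have h2 := prime_sum ha.le
  nlinarith [mul_le_mul_of_nonneg_right h2 (by positivity : (0 : ℝ) ≤ 2 * a)]

lemma rh_line (RH : RiemannHypothesis) {s : ℂ} (hs : IsZ s) : s - 1 / 2 = (⟨0, s.im⟩ : ℂ) := by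
  have h1 : s.re = 1 / 2 := by
    refine RH s hs.1 ?_ ?_
    · rintro ⟨n, hn⟩
      have h2 := congrArg Complex.re hn
      have h3 := hs.2.1
      rw [h2] at h3
      simp at h3
      have h4 : (0 : ℝ) ≤ n := Nat.cast_nonneg n
      linarith
    · rintro rfl
      have := hs.2.2
      simp at this
  apply Complex.ext
  · simp [h1]
  · simp

theorem fejer_main : S_fejer := by
  classical
  intro RH
  obtain ⟨C, hC0, hC⟩ := DG_upper
  have hh : 0 ≤ ∫ v, hF v := integral_nonneg hF_nonneg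
  refine ⟨24 + 2 * (1 + C) + ∫ v, hF v, by positivity, fun t a ha1 S hS => ?_⟩
  have ha : 0 < a := by linarith
  have hw := weil ha (Hd_ff ha t)
  have h1 := pole_le ha t
  have h2 := arch_le ha hC t
  have h3 := prime_le ha t
  have hD : Dom (ff a t) := ((Hd_iff ha _).1 (Hd_ff ha t)).2
  have e1 : ∀ ρ : Zt, GG (ff a t) (ff a t) ((ρ : ℂ) - 1 / 2) = ((KF a ((ρ : ℂ).im - t) : ℝ) : ℂ) := by
    intro ρ
    rw [rh_line RH ρ.2, GG_line, norm_TT_ff ha]
  have hs : Summable (fun ρ : Zt => (mu ρ : ℝ) * KF a ((ρ : ℂ).im - t)) := by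
    refine hD.congr fun ρ => ?_
    have e : ((ρ : ℂ) - 1 / 2) = ((ρ : ℂ).im : ℂ) * I := by
      rw [rh_line RH ρ.2]
      apply Complex.ext <;> simp
    rw [e, norm_TT_ff ha]
  have e2 : QQ (ff a t) = ∑' ρ : Zt, (mu ρ : ℝ) * KF a ((ρ : ℂ).im - t) := by
    unfold QQ
    refine tsum_congr fun ρ => ?_
    rw [e1, Complex.ofReal_re]
  have h4 : ∑ s ∈ S, (mu s : ℝ) * (4 * a ^ 2 * Real.sinc (a * (s.im - t)) ^ 2) ≤ QQ (ff a t) := by
    rw [e2]
    have h5 := hs.sum_le_tsum (S.subtype (fun s : ℂ => riemannZeta s = 0 ∧ 0 < s.re ∧ s.re < 1))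
      (fun ρ _ => mul_nonneg (Nat.cast_nonneg _) (KF_nonneg _ _))
    have h6 := Finset.sum_subtype_of_mem (s := S) (fun s : ℂ => (mu s : ℝ) * KF a (s.im - t))
      (p := fun s : ℂ => riemannZeta s = 0 ∧ 0 < s.re ∧ s.re < 1) hS
    rw [h6] at h5
    exact h5
  refine h4.trans ?_
  rw [hw]
  have hpi := Real.pi_pos
  have h7 : 1 / (2 * Real.pi) * (∫ v : ℝ, DG v * ‖TT (ff a t) (v * I)‖ ^ 2) ≤
      2 * a * (Lg t + 1 + C) + ∫ v, hF v := by
    have h8 : 1 / (2 * Real.pi) * (∫ v : ℝ, DG v * ‖TT (ff a t) (v * I)‖ ^ 2) ≤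
        1 / (2 * Real.pi) * ((Lg t + 1 + C) * (4 * Real.pi * a) + ∫ v, hF v) :=
      mul_le_mul_of_nonneg_left h2 (by positivity)
    have h9 : 1 / (2 * Real.pi) * ((Lg t + 1 + C) * (4 * Real.pi * a) + ∫ v, hF v) =
        2 * a * (Lg t + 1 + C) + 1 / (2 * Real.pi) * ∫ v, hF v := by
      field_simp
      ring
    have h10 : 1 / (2 * Real.pi) * (∫ v, hF v) ≤ ∫ v, hF v := by
      have : 1 / (2 * Real.pi) ≤ 1 := by
        rw [div_le_one (by positivity)]
        linarith [Real.pi_gt_three]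
      nlinarith
    linarith
  have h11 : 1 ≤ Real.exp a := Real.one_le_exp ha.le
  have h12 : a ≤ a ^ 2 * Real.exp a := by nlinarith [mul_le_mul_of_nonneg_left h11 (by positivity : 0 ≤ a ^ 2)]
  have h13 : 1 ≤ a ^ 2 * Real.exp a := by linarith
  have h14 : (∫ v, hF v) ≤ (∫ v, hF v) * (a ^ 2 * Real.exp a) := by nlinarith
  have h15 : 2 * (1 + C) * a ≤ 2 * (1 + C) * (a ^ 2 * Real.exp a) := mul_le_mul_of_nonneg_left h12 (by positivity)
  have h16 : (24 + 2 * (1 + C) + ∫ v, hF v) * a ^ 2 * Real.exp a =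
      8 * a ^ 2 * Real.exp a + 16 * a ^ 2 * Real.exp a + 2 * (1 + C) * (a ^ 2 * Real.exp a) +
        (∫ v, hF v) * (a ^ 2 * Real.exp a) := by ring
  rw [h16]
  linarith



/-! ### zeros in short intervals -/

/-- from the Fejer kernel to a count -/
lemma cnt_of {C : ℝ} {t a L θ : ℝ} (ha : 0 < a) (hθ : θ ≤ 1) {S : Finset ℂ}
    (hF : ∑ s ∈ S, (mu s : ℝ) * (4 * a ^ 2 * Real.sinc (a * (s.im - t)) ^ 2) ≤ 2 * a * L + C * a ^ 2 * Real.exp a)
    (hr : ∀ s ∈ S, |a * (s.im - t)| ≤ θ) :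
    (1 - θ ^ 2 / 3) * ∑ s ∈ S, (mu s : ℝ) ≤ L / (2 * a) + C / 4 * Real.exp a := by
  have h1 : (4 * a ^ 2) * ((1 - θ ^ 2 / 3) * ∑ s ∈ S, (mu s : ℝ)) ≤ 2 * a * L + C * a ^ 2 * Real.exp a := by
    refine le_trans ?_ hF
    rw [Finset.mul_sum, Finset.mul_sum]
    refine Finset.sum_le_sum fun s hs => ?_
    have h2 := sinc_sq_lower (hr s hs) hθ
    have h3 : (0 : ℝ) ≤ mu s := Nat.cast_nonneg _
    have h4 : (0 : ℝ) ≤ 4 * a ^ 2 * mu s := by positivity
    calc 4 * a ^ 2 * ((1 - θ ^ 2 / 3) * (mu s : ℝ)) = (4 * a ^ 2 * mu s) * (1 - θ ^ 2 / 3) := by ring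
      _ ≤ (4 * a ^ 2 * mu s) * Real.sinc (a * (s.im - t)) ^ 2 := mul_le_mul_of_nonneg_left h2 h4
      _ = _ := by ring
  have h5 : L / (2 * a) + C / 4 * Real.exp a = (2 * a * L + C * a ^ 2 * Real.exp a) / (4 * a ^ 2) := by
    field_simp
    ring
  rw [h5, le_div_iff₀ (by positivity)]
  linarith

lemma exp_small (C η δ : ℝ) (hη : 0 < η) (hδ : 0 < δ) : ∃ X : ℝ, 1 ≤ X ∧ ∀ x : ℝ, X ≤ x →
    C / 4 * Real.exp ((1 - δ) * x) ≤ η * (Real.exp x / x) := by
  have h1 : Tendsto (fun x : ℝ => x ^ 1 * Real.exp (-(δ * x))) atTop (𝓝 0) := by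
    have h2 := Real.tendsto_pow_mul_exp_neg_atTop_nhds_zero 1
    have h3 : Tendsto (fun x : ℝ => δ * x) atTop atTop := Tendsto.const_mul_atTop hδ tendsto_id
    have h4 := (h2.comp h3).const_mul (1 / δ)
    rw [mul_zero] at h4
    refine h4.congr fun x => ?_
    simp only [Function.comp, pow_one]
    field_simp
  have h5 := (h1.const_mul (C / 4))
  rw [mul_zero] at h5
  obtain ⟨X, hX⟩ := eventually_atTop.1 (h5.eventually (gt_mem_nhds hη))
  refine ⟨max X 1, le_max_right _ _, fun x hx => ?_⟩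
  have h6 := hX x ((le_max_left _ _).trans hx)
  have hx0 : 0 < x := lt_of_lt_of_le one_pos ((le_max_right _ _).trans hx)
  simp only [pow_one] at h6
  rw [mul_div_assoc', le_div_iff₀ hx0]
  have e : Real.exp ((1 - δ) * x) = Real.exp x * Real.exp (-(δ * x)) := by
    rw [← Real.exp_add]; congr 1; ring
  rw [e]
  have h7 := Real.exp_pos x
  calc C / 4 * (Real.exp x * Real.exp (-(δ * x))) * x = Real.exp x * (C / 4 * (x * Real.exp (-(δ * x)))) := by ring
    _ ≤ Real.exp x * η := mul_le_mul_of_nonneg_left h6.le h7.le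
    _ = _ := by ring

theorem cnt_main (h : S_fejer) : S_cnt := by
  intro RH η hη hη1
  obtain ⟨C, hC, hF⟩ := h RH
  obtain ⟨X, hX1, hX⟩ := exp_small C (η / 2) (η / 4) (by positivity) (by positivity)
  set θ : ℝ := η / 2 with hθ
  have hθ0 : 0 < θ := by rw [hθ]; positivity
  refine ⟨θ, (1 + C / 2) * (2 / θ), Real.exp (max X 4), by positivity, by linarith, by positivity,
    Real.exp_le_exp.2 (by linarith [le_max_left X 4]), fun t ht r S hS => ?_⟩
  set L : ℝ := Lg t with hL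
  have hL0 : 0 < L := (Real.exp_pos _).trans_le ht
  set ℓ : ℝ := Real.log L with hℓ
  have hℓX : max X 4 ≤ ℓ := by rw [hℓ, Real.le_log_iff_exp_le hL0]; exact ht
  have hℓ4 : 4 ≤ ℓ := (le_max_right _ _).trans hℓX
  have hℓ0 : 0 < ℓ := by linarith
  have heL : Real.exp ℓ = L := Real.exp_log hL0
  have hSZ : ∀ s ∈ S, IsZ s := fun s hs => (hS s hs).1
  have hn0 : 0 ≤ ∑ s ∈ S, (mu s : ℝ) := Finset.sum_nonneg fun s _ => Nat.cast_nonneg _
  -- the intermediate range
  have hmid : ∀ ρ : ℝ, 2 / ℓ ≤ ρ → ρ ≤ 1 → (∀ s ∈ S, |s.im - t| ≤ ρ) → ∑ s ∈ S, (mu s : ℝ) ≤ (1 + C / 2) * ρ * L := by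
    intro ρ h1 h2 h3
    have hρ0 : 0 < ρ := lt_of_lt_of_le (by positivity) h1
    have ha1 : 1 ≤ 1 / ρ := by rw [le_div_iff₀ hρ0]; linarith
    have h4 := cnt_of (by positivity) le_rfl (hF t (1 / ρ) ha1 S hSZ) (θ := 1) (fun s hs => by
      rw [abs_mul, abs_of_pos (by positivity : 0 < 1 / ρ), div_mul_eq_mul_div, one_mul, div_le_one hρ0]
      exact h3 s hs)
    have h5 : Real.exp (1 / ρ) ≤ ρ * L := by
      have h6 : 1 / ρ ≤ ℓ / 2 := by
        rw [div_le_div_iff₀ hρ0 (by norm_num)]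
        rw [div_le_iff₀ hℓ0] at h1
        linarith
      have h7 : Real.exp (ℓ / 2) ≤ ρ * Real.exp ℓ := by
        have h8 : Real.exp ℓ = Real.exp (ℓ / 2) * Real.exp (ℓ / 2) := by
          rw [← Real.exp_add]; congr 1; ring
        have h9 : 1 ≤ ρ * Real.exp (ℓ / 2) := by
          have h10 : ℓ / 2 ≤ Real.exp (ℓ / 2) := by linarith [Real.add_one_le_exp (ℓ / 2)]
          rw [div_le_iff₀ hℓ0] at h1
          nlinarith
        rw [h8]
        nlinarith [Real.exp_pos (ℓ / 2)]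
      rw [heL] at h7
      exact (Real.exp_le_exp.2 h6).trans h7
    have h6 : L / (2 * (1 / ρ)) = ρ * L / 2 := by field_simp
    rw [h6] at h4
    have h7 : 0 ≤ ρ * L := by positivity
    nlinarith [mul_le_mul_of_nonneg_left h5 hC.le]
  constructor
  · intro hr
    have hη4 : 0 < 1 - η / 4 := by linarith
    have ha1 : 1 ≤ (1 - η / 4) * ℓ := by nlinarith
    have h4 := cnt_of (by positivity) (by linarith : θ ≤ 1) (hF t ((1 - η / 4) * ℓ) ha1 S hSZ) (fun s hs => by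
      have h5 := ((hS s hs).2).trans hr
      rw [abs_mul, abs_of_pos (by positivity)]
      rw [le_div_iff₀ hℓ0] at h5
      have h6 := abs_nonneg (s.im - t)
      nlinarith [mul_nonneg h6 hℓ0.le])
    have h5 := hX ℓ ((le_max_left _ _).trans hℓX)
    rw [heL, hθ] at h5
    rw [← hL] at h4
    have h6 : L / (2 * ((1 - η / 4) * ℓ)) ≤ (1 / 2 + η / 6) * (L / ℓ) := by
      have h7 : L / (2 * ((1 - η / 4) * ℓ)) = (1 / (2 * (1 - η / 4))) * (L / ℓ) := by field_simp
      rw [h7]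
      refine mul_le_mul_of_nonneg_right ?_ (by positivity)
      rw [div_le_iff₀ (by positivity)]
      nlinarith
    have h8 : 0 < L / ℓ := by positivity
    have h9 : (1 - θ ^ 2 / 3) * ∑ s ∈ S, (mu s : ℝ) ≤ (1 / 2 + η / 6 + η / 2) * (L / ℓ) := by linarith
    have h10 : 1 - η / 12 ≤ 1 - θ ^ 2 / 3 := by rw [hθ]; nlinarith
    have h11 : (1 - η / 12) * ∑ s ∈ S, (mu s : ℝ) ≤ (1 / 2 + η / 6 + η / 2) * (L / ℓ) :=
      (mul_le_mul_of_nonneg_right h10 hn0).trans h9
    have h12 : (1 / 2 + η / 6 + η / 2) ≤ (1 - η / 12) * (1 / 2 + η) := by nlinarith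
    have h13 : (1 - η / 12) * ∑ s ∈ S, (mu s : ℝ) ≤ (1 - η / 12) * ((1 / 2 + η) * (L / ℓ)) := by
      rw [← mul_assoc]
      exact h11.trans (mul_le_mul_of_nonneg_right h12 h8.le)
    have h14 : 0 < 1 - η / 12 := by linarith
    have h15 := le_of_mul_le_mul_left h13 h14
    rw [mul_div_assoc]
    exact h15
  · intro hr1 hr2
    have hr0 : 0 < r := lt_of_lt_of_le (by positivity) hr1
    have hθ2 : 1 ≤ 2 / θ := by rw [le_div_iff₀ (by positivity)]; linarith
    rcases le_total (2 / ℓ) r with h1 | h1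
    · have h2 := hmid r h1 hr2 (fun s hs => (hS s hs).2)
      have h3 : 0 ≤ (1 + C / 2) * r * L := by positivity
      calc _ ≤ _ := h2
        _ ≤ (1 + C / 2) * r * L * (2 / θ) := by nlinarith
        _ = _ := by ring
    · have h2 := hmid (2 / ℓ) le_rfl (by rw [div_le_one hℓ0]; linarith) (fun s hs => ((hS s hs).2).trans h1)
      have h3 : 2 / ℓ ≤ (2 / θ) * r := by
        rw [div_le_iff₀ hℓ0] at hr1 ⊢
        have h4 : 2 / θ * r * ℓ = (2 / θ) * (r * ℓ) := by ring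
        rw [h4]
        have h5 : (2 / θ) * θ ≤ (2 / θ) * (r * ℓ) := mul_le_mul_of_nonneg_left hr1 (by positivity)
        have h6 : (2 / θ) * θ = 2 := div_mul_cancel₀ _ hθ0.ne'
        linarith
      calc _ ≤ _ := h2
        _ ≤ (1 + C / 2) * ((2 / θ) * r) * L := by gcongr
        _ = _ := by ring

end Pool.Agent.N967.FJ

namespace Pool.Agent.N967

/-- the Fejer kernel in Weil's explicit formula -/
theorem fejer : S_fejer := FJ.fejer_main

/-- zeros in short intervals -/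
theorem cnt (h : S_fejer) : S_cnt := FJ.cnt_main h

end Pool.Agent.N967
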