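import Mathlib

set_option autoImplicit false

/-!
# Inequalities for polynomials with purely imaginary roots
-/

namespace Pool.Agent.N967

open Complex Polynomial

/-- the near part of the cost of a root at distance `x` -/
noncomputable def Pn (l b r x : ℝ) : ℝ :=
  if |x| ≤ r then Real.log (1 + l / b) else if |x| ≤ 1 then Real.sqrt (l / |x|) else 0

lemma log_one_add_nonneg {l b : ℝ} (hl : 0 ≤ l) (hb : 0 < b) : 0 ≤ Real.log (1 + l / b) :=
  Real.log_nonneg (by have : 0 ≤ l / b := by positivity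
                      linarith)

lemma Pn_nonneg {l b r x : ℝ} (hl : 0 ≤ l) (hb : 0 < b) : 0 ≤ Pn l b r x := by
  unfold Pn
  split_ifs
  · exact log_one_add_nonneg hl hb
  · exact Real.sqrt_nonneg _
  · exact le_rfl

lemma log_one_add_le_sqrt {u : ℝ} (hu : 0 ≤ u) : Real.log (1 + u) ≤ Real.sqrt u := by
  have h1 : 0 ≤ Real.sqrt u := Real.sqrt_nonneg u
  have h2 : Real.sqrt u ^ 2 = u := Real.sq_sqrt hu
  set s := Real.sqrt u with hs
  rw [← h2, Real.log_le_iff_le_exp (by positivity)]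
  rcases le_or_gt s 1 with h | h
  · have := Real.add_one_le_exp s
    nlinarith
  · have h4 : s ^ 2 / 2 + s ^ 3 / 6 + s + 1 ≤ Real.exp s := by
      have := Real.sum_le_exp_of_nonneg h1 4
      simp [Finset.sum_range_succ, Nat.factorial] at this
      nlinarith
    nlinarith [mul_pos (by linarith : (0:ℝ) < s) (by linarith : (0:ℝ) < s), sq_nonneg (s - 3 / 2), sq_nonneg (s-2)]

lemma shift_sq {b y v l c : ℝ} (hc : 0 < c) (hcb : c ^ 2 ≤ b ^ 2 + y ^ 2) (hv : |v| ≤ l) :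
    b ^ 2 + (y + v) ^ 2 ≤ (b ^ 2 + y ^ 2) * (1 + l / c) ^ 2 := by
  have hl : 0 ≤ l := (abs_nonneg v).trans hv
  set q := b ^ 2 + y ^ 2 with hq
  have hyq : y ^ 2 ≤ q := by nlinarith [sq_nonneg b]
  have h1 : c * |y| ≤ q := by
    have h2 : (c * |y|) ^ 2 ≤ q ^ 2 := by
      rw [mul_pow, sq_abs]
      nlinarith [sq_nonneg y, sq_nonneg c]
    have h3 : 0 ≤ q := by positivity
    exact abs_le_of_sq_le_sq' h2 h3 |>.2
  have h2 : y * v ≤ l * |y| := by
    calc y * v ≤ |y * v| := le_abs_self _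
      _ = |y| * |v| := abs_mul _ _
      _ ≤ |y| * l := by gcongr
      _ = l * |y| := mul_comm _ _
  have h3 : v ^ 2 ≤ l ^ 2 := by
    rw [← sq_abs v]; gcongr
  have h4 : l * |y| ≤ l / c * q := by
    rw [div_mul_eq_mul_div, le_div_iff₀ hc]
    nlinarith
  have h5 : l ^ 2 ≤ (l / c) ^ 2 * q := by
    rw [div_pow, div_mul_eq_mul_div, le_div_iff₀ (by positivity)]
    exact mul_le_mul_of_nonneg_left hcb (sq_nonneg l)
  nlinarith

lemma near_bound {b y v l r : ℝ} (hb : 0 < b) (hr : 0 ≤ r) (hv : |v| ≤ l) (hy : |y| ≤ 1) :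
    b ^ 2 + (y + v) ^ 2 ≤ (b ^ 2 + y ^ 2) * Real.exp (2 * Pn l b r y) := by
  have hl : 0 ≤ l := (abs_nonneg v).trans hv
  unfold Pn
  split_ifs with h
  · have h1 := shift_sq (b := b) (y := y) hb (by nlinarith [sq_nonneg y]) hv
    have h2 : Real.exp (2 * Real.log (1 + l / b)) = (1 + l / b) ^ 2 := by
      rw [mul_comm, Real.exp_mul, Real.exp_log (by positivity)]
      norm_num
    rwa [h2]
  · have hy0 : 0 < |y| := lt_of_le_of_lt hr (not_le.1 h)
    have h1 := shift_sq (b := b) (y := y) hy0 (by rw [sq_abs]; nlinarith [sq_nonneg b]) hv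
    refine h1.trans (mul_le_mul_of_nonneg_left ?_ (by positivity))
    have h2 := log_one_add_le_sqrt (u := l / |y|) (by positivity)
    have h3 : 1 + l / |y| ≤ Real.exp (Real.sqrt (l / |y|)) := by
      rwa [← Real.log_le_iff_le_exp (by positivity)]
    calc (1 + l / |y|) ^ 2 ≤ (Real.exp (Real.sqrt (l / |y|))) ^ 2 := by gcongr
      _ = Real.exp (2 * Real.sqrt (l / |y|)) := by rw [← Real.exp_nat_mul]; norm_num

/-- the cost of one root: horizontal move -/
lemma rootA {b e l r y v : ℝ} (hb : 0 < b) (hbe : b ≤ e) (he : e ≤ 1) (hr : 0 ≤ r) (hv : |v| ≤ l) (hl : l ≤ 1 / 4) :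
    (b ^ 2 + (y + v) ^ 2) * (e ^ 2 + y ^ 2) ≤
      (b ^ 2 + y ^ 2) * (e ^ 2 + (y + v) ^ 2) * Real.exp (2 * (Pn l b r y + 12 * l / e / (1 + y ^ 2))) := by
  have hl0 : 0 ≤ l := (abs_nonneg v).trans hv
  have he0 : 0 < e := hb.trans_le hbe
  rcases le_or_gt |y| 1 with hy | hy
  · have h1 := near_bound (r := r) hb hr hv hy
    have h2 : e ^ 2 + y ^ 2 ≤ (e ^ 2 + (y + v) ^ 2) * (1 + l / e) ^ 2 := by
      have h9 := shift_sq (b := e) (y := y + v) (v := -v) (l := l) (c := e) he0 (by nlinarith [sq_nonneg (y + v)])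
        (by rw [abs_neg]; exact hv)
      rwa [add_neg_cancel_right] at h9
    have h3 : (1 + l / e) ^ 2 ≤ Real.exp (2 * (12 * l / e / (1 + y ^ 2))) := by
      have h4 : 1 + l / e ≤ Real.exp (l / e) := by
        have := Real.add_one_le_exp (l / e)
        linarith
      have h5 : l / e ≤ 12 * l / e / (1 + y ^ 2) := by
        rw [le_div_iff₀ (by positivity)]
        have h6 : y ^ 2 ≤ 1 := by rw [← sq_abs]; nlinarith [abs_nonneg y]
        have h7 : 0 ≤ l / e := by positivity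
        have h8 : 12 * l / e = 12 * (l / e) := by ring
        rw [h8]
        nlinarith
      calc (1 + l / e) ^ 2 ≤ (Real.exp (l / e)) ^ 2 := by
            have : 0 ≤ l / e := by positivity
            gcongr
        _ = Real.exp (2 * (l / e)) := by rw [← Real.exp_nat_mul]; norm_num
        _ ≤ _ := by
          rw [Real.exp_le_exp]; linarith
    have e9 : Real.exp (2 * (Pn l b r y + 12 * l / e / (1 + y ^ 2))) =
        Real.exp (2 * Pn l b r y) * Real.exp (2 * (12 * l / e / (1 + y ^ 2))) := by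
      rw [← Real.exp_add]; congr 1; ring
    rw [e9]
    calc (b ^ 2 + (y + v) ^ 2) * (e ^ 2 + y ^ 2)
        ≤ ((b ^ 2 + y ^ 2) * Real.exp (2 * Pn l b r y)) * ((e ^ 2 + (y + v) ^ 2) * Real.exp (2 * (12 * l / e / (1 + y ^ 2)))) := by
          refine mul_le_mul h1 (h2.trans (mul_le_mul_of_nonneg_left h3 (by positivity))) (by positivity) (by positivity)
      _ = _ := by ring
  · have hP : 0 ≤ Pn l b r y := Pn_nonneg hl0 hb
    have hy2 : 1 < y ^ 2 := by rw [← sq_abs]; nlinarith [abs_nonneg y]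
    have e1 : (b ^ 2 + (y + v) ^ 2) * (e ^ 2 + y ^ 2) =
      (b ^ 2 + y ^ 2) * (e ^ 2 + (y + v) ^ 2) + (e ^ 2 - b ^ 2) * ((y + v) ^ 2 - y ^ 2) := by ring
    set Q := (b ^ 2 + y ^ 2) * (e ^ 2 + (y + v) ^ 2) with hQ
    have hv2 : y * v ≤ l * |y| := by
      calc y * v ≤ |y * v| := le_abs_self _
        _ = |y| * |v| := abs_mul _ _
        _ ≤ |y| * l := by gcongr
        _ = l * |y| := mul_comm _ _
    have hv3 : v ^ 2 ≤ l * |y| := by
      have h1 : v ^ 2 ≤ l ^ 2 := by rw [← sq_abs v]; gcongr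
      nlinarith
    have h1 : (y + v) ^ 2 - y ^ 2 ≤ 3 * l * |y| := by nlinarith
    have h2 : (3 / 4 * |y|) ^ 2 ≤ (y + v) ^ 2 := by
      have h3 : 3 / 4 * |y| ≤ |y + v| := by
        have := abs_sub_abs_le_abs_sub y (-v)
        rw [abs_neg, sub_neg_eq_add] at this
        nlinarith
      rw [← sq_abs (y + v)]
      gcongr
    have h4 : (e ^ 2 - b ^ 2) * ((y + v) ^ 2 - y ^ 2) ≤ 3 * l * |y| := by
      have h5 : 0 ≤ e ^ 2 - b ^ 2 := by nlinarith
      have h6 : e ^ 2 - b ^ 2 ≤ 1 := by nlinarith [sq_nonneg b]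
      have h7 : 0 ≤ 3 * l * |y| := by positivity
      calc (e ^ 2 - b ^ 2) * ((y + v) ^ 2 - y ^ 2) ≤ (e ^ 2 - b ^ 2) * (3 * l * |y|) :=
            mul_le_mul_of_nonneg_left h1 h5
        _ ≤ 1 * (3 * l * |y|) := mul_le_mul_of_nonneg_right h6 h7
        _ = 3 * l * |y| := one_mul _
    have h5 : y ^ 2 * (9 / 16 * y ^ 2) ≤ Q := by
      rw [hQ]
      have : (3 / 4 * |y|) ^ 2 = 9 / 16 * y ^ 2 := by rw [mul_pow, sq_abs]; norm_num
      rw [this] at h2
      refine mul_le_mul (by nlinarith [sq_nonneg b]) (by nlinarith [sq_nonneg e]) (by positivity) (by positivity)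
    have h6 : 3 * l * |y| ≤ Q * (24 * l / (1 + y ^ 2)) := by
      have h7 : y ^ 2 * (9 / 16 * y ^ 2) * (24 * l / (1 + y ^ 2)) ≤ Q * (24 * l / (1 + y ^ 2)) := by
        gcongr
      refine le_trans ?_ h7
      rw [← mul_div_assoc, le_div_iff₀ (by positivity)]
      have h9 : |y| ≤ y ^ 2 := by rw [← sq_abs]; nlinarith
      have h10 : |y| * (1 + y ^ 2) ≤ y ^ 2 * (2 * y ^ 2) :=
        mul_le_mul h9 (by linarith) (by positivity) (by positivity)
      have h11 : 3 * l * (|y| * (1 + y ^ 2)) ≤ 3 * l * (y ^ 2 * (2 * y ^ 2)) :=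
        mul_le_mul_of_nonneg_left h10 (by positivity)
      have h12 : 0 ≤ l * (y ^ 2 * y ^ 2) := by positivity
      have e2 : y ^ 2 * (9 / 16 * y ^ 2) * (24 * l) = 27 / 2 * (l * (y ^ 2 * y ^ 2)) := by ring
      have e3 : 3 * l * (y ^ 2 * (2 * y ^ 2)) = 6 * (l * (y ^ 2 * y ^ 2)) := by ring
      rw [e2]
      rw [e3] at h11
      calc 3 * l * |y| * (1 + y ^ 2) = 3 * l * (|y| * (1 + y ^ 2)) := by ring
        _ ≤ 6 * (l * (y ^ 2 * y ^ 2)) := h11
        _ ≤ _ := by linarith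
    have h7 : Real.exp (2 * (Pn l b r y + 12 * l / e / (1 + y ^ 2))) ≥ 1 + 24 * l / (1 + y ^ 2) := by
      have h8 := Real.add_one_le_exp (2 * (Pn l b r y + 12 * l / e / (1 + y ^ 2)))
      have h9 : 12 * l / (1 + y ^ 2) ≤ 12 * l / e / (1 + y ^ 2) := by
        gcongr
        rw [le_div_iff₀ he0]
        nlinarith
      have h10 : 24 * l / (1 + y ^ 2) = 2 * (12 * l / (1 + y ^ 2)) := by ring
      rw [h10]
      linarith
    rw [e1]
    have hQ0 : 0 ≤ Q := by positivity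
    calc Q + (e ^ 2 - b ^ 2) * ((y + v) ^ 2 - y ^ 2) ≤ Q + 3 * l * |y| := by linarith
      _ ≤ Q + Q * (24 * l / (1 + y ^ 2)) := by linarith
      _ = Q * (1 + 24 * l / (1 + y ^ 2)) := by ring
      _ ≤ _ := mul_le_mul_of_nonneg_left h7 hQ0

/-- the cost of one root: vertical move -/
lemma rootB {b e r y : ℝ} (hb : 0 < b) (hbe : b ≤ e) (he : e ≤ 1) (hr : 0 ≤ r) :
    e ^ 2 + y ^ 2 ≤ (b ^ 2 + y ^ 2) * Real.exp (2 * (Pn e b r y + e / (1 + y ^ 2))) := by
  have he0 : 0 < e := hb.trans_le hbe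
  have hsq : ∀ c : ℝ, 0 < c → c ^ 2 ≤ b ^ 2 + y ^ 2 → e ^ 2 + y ^ 2 ≤ (b ^ 2 + y ^ 2) * (1 + e / c) ^ 2 := by
    intro c hc hcb
    have h1 : e ^ 2 ≤ (e / c) ^ 2 * (b ^ 2 + y ^ 2) := by
      rw [div_pow, div_mul_eq_mul_div, le_div_iff₀ (by positivity)]
      exact mul_le_mul_of_nonneg_left hcb (sq_nonneg e)
    have h2 : 0 ≤ (b ^ 2 + y ^ 2) * (e / c) := by positivity
    nlinarith [sq_nonneg b]
  have hP : 0 ≤ Pn e b r y := Pn_nonneg he0.le hb
  have hq : 0 ≤ e / (1 + y ^ 2) := by positivity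
  rcases le_or_gt |y| 1 with hy | hy
  · have key : e ^ 2 + y ^ 2 ≤ (b ^ 2 + y ^ 2) * Real.exp (2 * Pn e b r y) := by
      unfold Pn
      split_ifs with h
      · have h2 : Real.exp (2 * Real.log (1 + e / b)) = (1 + e / b) ^ 2 := by
          rw [mul_comm, Real.exp_mul, Real.exp_log (by positivity)]
          norm_num
        rw [h2]
        exact hsq b hb (by nlinarith [sq_nonneg y])
      · have hy0 : 0 < |y| := lt_of_le_of_lt hr (not_le.1 h)
        refine (hsq |y| hy0 (by rw [sq_abs]; nlinarith [sq_nonneg b])).trans (mul_le_mul_of_nonneg_left ?_ (by positivity))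
        have h2 := log_one_add_le_sqrt (u := e / |y|) (by positivity)
        have h3 : 1 + e / |y| ≤ Real.exp (Real.sqrt (e / |y|)) := by
          rwa [← Real.log_le_iff_le_exp (by positivity)]
        calc (1 + e / |y|) ^ 2 ≤ (Real.exp (Real.sqrt (e / |y|))) ^ 2 := by gcongr
          _ = Real.exp (2 * Real.sqrt (e / |y|)) := by rw [← Real.exp_nat_mul]; norm_num
    refine key.trans (mul_le_mul_of_nonneg_left ?_ (by positivity))
    rw [Real.exp_le_exp]
    linarith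
  · have hy2 : 1 < y ^ 2 := by rw [← sq_abs]; nlinarith [abs_nonneg y]
    have h1 : e ^ 2 ≤ y ^ 2 * (2 * (e / (1 + y ^ 2))) := by
      rw [← mul_div_assoc, ← mul_div_assoc, le_div_iff₀ (by positivity)]
      have h8 : e * (1 + y ^ 2) ≤ 1 * (2 * y ^ 2) := mul_le_mul he (by linarith) (by positivity) (by norm_num)
      calc e ^ 2 * (1 + y ^ 2) = e * (e * (1 + y ^ 2)) := by ring
        _ ≤ e * (1 * (2 * y ^ 2)) := mul_le_mul_of_nonneg_left h8 he0.le
        _ = _ := by ring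
    have h2 := Real.add_one_le_exp (2 * (Pn e b r y + e / (1 + y ^ 2)))
    have h3 : 1 + 2 * (e / (1 + y ^ 2)) ≤ Real.exp (2 * (Pn e b r y + e / (1 + y ^ 2))) := by linarith
    calc e ^ 2 + y ^ 2 ≤ y ^ 2 * (1 + 2 * (e / (1 + y ^ 2))) := by nlinarith
      _ ≤ (b ^ 2 + y ^ 2) * Real.exp (2 * (Pn e b r y + e / (1 + y ^ 2))) := by
        refine mul_le_mul (by nlinarith [sq_nonneg b]) h3 (by positivity) (by positivity)

end Pool.Agent.N967
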