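import Mathlib
import Pool.Agent.N967.Poly

set_option autoImplicit false

/-!
# Dyadic summation over the near zeros
-/

namespace Pool.Agent.N967

open Finset

lemma sqrt_facts : ∃ x : ℝ, 0 < x ∧ x ≤ 0.7072 ∧ x ^ 2 = 1 / 2 := by
  refine ⟨Real.sqrt (1 / 2), by positivity, ?_, Real.sq_sqrt (by norm_num)⟩
  rw [Real.sqrt_le_left (by norm_num)]
  norm_num

lemma dyadic {ι : Type*} [DecidableEq ι] {S : Finset ι} {m y : ι → ℝ} (hm : ∀ s ∈ S, 0 ≤ m s) {C' r0 : ℝ} (hC : 0 ≤ C') (hr0 : 0 < r0)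
    (h2 : ∀ r : ℝ, r0 ≤ r → r ≤ 1 → ∑ s ∈ S.filter (fun s => |y s| ≤ r), m s ≤ C' * r) :
    ∑ s ∈ S.filter (fun s => r0 < |y s| ∧ |y s| ≤ 1), m s * Real.sqrt (1 / |y s|) ≤ 5 * C' := by
  classical
  obtain ⟨x, hx0, hx1, hx2⟩ := sqrt_facts
  obtain ⟨J0, hJ0⟩ := exists_pow_lt_of_lt_one hr0 (by norm_num : (1 / 2 : ℝ) < 1)
  have hex : ∃ J : ℕ, (1 / 2 : ℝ) ^ J ≤ r0 := ⟨J0, hJ0.le⟩
  set J := Nat.find hex with hJ
  have hJ1 : (1 / 2 : ℝ) ^ J ≤ r0 := Nat.find_spec hex
  have hJ2 : ∀ j < J, r0 < (1 / 2 : ℝ) ^ j := fun j hj => by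
    have := Nat.find_min hex hj
    exact not_le.1 this
  have claim : ∀ k : ℕ, k ≤ J → ∑ s ∈ S.filter (fun s => (1 / 2 : ℝ) ^ k < |y s| ∧ |y s| ≤ 1), m s * Real.sqrt (1 / |y s|) ≤
      5 * C' * (1 - x ^ k) := by
    intro k
    induction k with
    | zero =>
      intro _
      have : S.filter (fun s => (1 / 2 : ℝ) ^ 0 < |y s| ∧ |y s| ≤ 1) = ∅ := by
        refine Finset.filter_eq_empty_iff.2 fun s _ h => ?_
        rw [pow_zero] at h
        linarith [h.1, h.2]
      rw [this]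
      simp
    | succ k ih =>
      intro hk
      have ih' := ih (by omega)
      have hp := hJ2 k (by omega)
      have hpk : (1 / 2 : ℝ) ^ k ≤ 1 := pow_le_one₀ (by norm_num) (by norm_num)
      have h3 := h2 _ hp.le hpk
      have hsub : S.filter (fun s => (1 / 2 : ℝ) ^ (k + 1) < |y s| ∧ |y s| ≤ 1) ⊆
          S.filter (fun s => (1 / 2 : ℝ) ^ k < |y s| ∧ |y s| ≤ 1) ∪
          S.filter (fun s => (1 / 2 : ℝ) ^ (k + 1) < |y s| ∧ |y s| ≤ (1 / 2 : ℝ) ^ k) := by
        intro s hs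
        rw [Finset.mem_filter] at hs
        rw [Finset.mem_union, Finset.mem_filter, Finset.mem_filter]
        rcases lt_or_ge ((1 / 2 : ℝ) ^ k) |y s| with h | h
        · exact Or.inl ⟨hs.1, h, hs.2.2⟩
        · exact Or.inr ⟨hs.1, hs.2.1, h⟩
      have h4 : ∑ s ∈ S.filter (fun s => (1 / 2 : ℝ) ^ (k + 1) < |y s| ∧ |y s| ≤ (1 / 2 : ℝ) ^ k), m s * Real.sqrt (1 / |y s|) ≤
          C' * (2 * x) * x ^ k := by
        have h5 : ∀ s ∈ S.filter (fun s => (1 / 2 : ℝ) ^ (k + 1) < |y s| ∧ |y s| ≤ (1 / 2 : ℝ) ^ k),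
            m s * Real.sqrt (1 / |y s|) ≤ m s * (1 / x) ^ (k + 1) := by
          intro s hs
          rw [Finset.mem_filter] at hs
          refine mul_le_mul_of_nonneg_left ?_ (hm s hs.1)
          have hpos : (0 : ℝ) < (1 / 2) ^ (k + 1) := by positivity
          rw [Real.sqrt_le_left (by positivity), ← pow_mul, mul_comm (k + 1) 2, pow_mul, div_pow, hx2, one_pow]
          have e1 : ((1 : ℝ) / (1 / 2)) ^ (k + 1) = 1 / (1 / 2) ^ (k + 1) := by
            rw [div_pow, one_pow]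
          rw [e1]
          exact one_div_le_one_div_of_le hpos hs.2.1.le
        refine (Finset.sum_le_sum h5).trans ?_
        rw [← Finset.sum_mul]
        have h6 : ∑ s ∈ S.filter (fun s => (1 / 2 : ℝ) ^ (k + 1) < |y s| ∧ |y s| ≤ (1 / 2 : ℝ) ^ k), m s ≤ C' * (1 / 2) ^ k := by
          refine le_trans (Finset.sum_le_sum_of_subset_of_nonneg ?_ ?_) h3
          · intro s hs
            rw [Finset.mem_filter] at hs ⊢
            exact ⟨hs.1, hs.2.2⟩
          · intro s hs _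
            exact hm s (Finset.mem_filter.1 hs).1
        refine (mul_le_mul_of_nonneg_right h6 (by positivity)).trans (le_of_eq ?_)
        have e2 : (1 / 2 : ℝ) ^ k = x ^ k * x ^ k := by rw [← hx2, ← pow_mul, mul_comm 2 k, pow_mul, sq]
        rw [e2, div_pow, one_pow, pow_succ]
        have hxk : x ^ k ≠ 0 := by positivity
        field_simp
        rw [hx2]
        ring
      refine (Finset.sum_le_sum_of_subset_of_nonneg hsub (fun s hs _ => ?_)).trans ?_
      · have hsS : s ∈ S := by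
          rcases Finset.mem_union.1 hs with h | h
          · exact (Finset.mem_filter.1 h).1
          · exact (Finset.mem_filter.1 h).1
        exact mul_nonneg (hm s hsS) (Real.sqrt_nonneg _)
      rw [Finset.sum_union (by
        rw [Finset.disjoint_filter]
        intro s _ h h'
        linarith [h.1, h'.2])]
      have h7 : 0 ≤ C' * x ^ k * (5 - 7 * x) := by
        have : 0 ≤ 5 - 7 * x := by linarith
        positivity
      have e3 : 5 * C' * (1 - x ^ (k + 1)) = 5 * C' * (1 - x ^ k) + C' * (2 * x) * x ^ k + C' * x ^ k * (5 - 7 * x) := by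
        rw [pow_succ]; ring
      rw [e3]
      linarith
  have h8 := claim J le_rfl
  have h9 : 0 ≤ x ^ J := by positivity
  refine le_trans (Finset.sum_le_sum_of_subset_of_nonneg ?_ ?_) (h8.trans (by nlinarith))
  · intro s hs
    rw [Finset.mem_filter] at hs ⊢
    exact ⟨hs.1, lt_of_le_of_lt hJ1 hs.2.1, hs.2.2⟩
  · intro s hs _
    exact mul_nonneg (hm s (Finset.mem_filter.1 hs).1) (Real.sqrt_nonneg _)

/-- the near cost -/
lemma near_sum {ι : Type*} [DecidableEq ι] {S : Finset ι} {m y : ι → ℝ} (hm : ∀ s ∈ S, 0 ≤ m s) (hy : ∀ s ∈ S, |y s| ≤ 1)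
    {C' r0 M0 l b : ℝ} (hC : 0 ≤ C') (hr0 : 0 < r0) (hl : 0 ≤ l) (hb : 0 < b)
    (h1 : ∑ s ∈ S.filter (fun s => |y s| ≤ r0), m s ≤ M0)
    (h2 : ∀ r : ℝ, r0 ≤ r → r ≤ 1 → ∑ s ∈ S.filter (fun s => |y s| ≤ r), m s ≤ C' * r) :
    ∑ s ∈ S, m s * Pn l b r0 (y s) ≤ M0 * Real.log (1 + l / b) + 5 * C' * Real.sqrt l := by
  classical
  have hL := log_one_add_nonneg hl hb
  rw [← Finset.sum_filter_add_sum_filter_not S (fun s => |y s| ≤ r0)]
  refine add_le_add ?_ ?_
  · have e : ∑ s ∈ S.filter (fun s => |y s| ≤ r0), m s * Pn l b r0 (y s) =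
        (∑ s ∈ S.filter (fun s => |y s| ≤ r0), m s) * Real.log (1 + l / b) := by
      rw [Finset.sum_mul]
      refine Finset.sum_congr rfl fun s hs => ?_
      rw [Finset.mem_filter] at hs
      unfold Pn
      rw [if_pos hs.2]
    rw [e]
    exact mul_le_mul_of_nonneg_right h1 hL
  · have h3 := dyadic hm hC hr0 h2
    have e : ∑ s ∈ S.filter (fun s => ¬ |y s| ≤ r0), m s * Pn l b r0 (y s) =
        (∑ s ∈ S.filter (fun s => r0 < |y s| ∧ |y s| ≤ 1), m s * Real.sqrt (1 / |y s|)) * Real.sqrt l := by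
      rw [Finset.sum_mul]
      have e1 : S.filter (fun s => ¬ |y s| ≤ r0) = S.filter (fun s => r0 < |y s| ∧ |y s| ≤ 1) := by
        refine Finset.filter_congr fun s hs => ?_
        rw [not_le]
        exact ⟨fun h => ⟨h, hy s hs⟩, fun h => h.1⟩
      rw [e1]
      refine Finset.sum_congr rfl fun s hs => ?_
      rw [Finset.mem_filter] at hs
      unfold Pn
      rw [if_neg (not_le.2 hs.2.1), if_pos hs.2.2, mul_assoc, ← Real.sqrt_mul (by positivity)]
      congr 2
      ring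
    rw [e]
    exact mul_le_mul_of_nonneg_right h3 (Real.sqrt_nonneg _)

end Pool.Agent.N967
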