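import Mathlib
import Pool.Agent.N967.Poly
import Pool.Agent.N967.NT
import Pool.Agent.Y22.LM3

set_option autoImplicit false

/-!
# The cost of moving near the critical line, by polynomial approximation
-/

namespace Pool.Agent.N967

open Complex Polynomial Filter Topology
open Pool.Agent.Y22.LM (xx_approx mult_le)
open Pool.Agent.Y23 (IsZ mu Lg)
open Pool.Agent.H24R2.JP (XX)

lemma norm_eval_sq (p : ℂ[X]) (z : ℂ) :
    ‖p.eval z‖ ^ 2 = ‖p.leadingCoeff‖ ^ 2 * (p.roots.map fun r => ‖z - r‖ ^ 2).prod := by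
  rw [(IsAlgClosed.splits p).eval_eq_prod_roots, norm_mul, mul_pow]
  congr 1
  have e := map_multiset_prod (normHom (α := ℂ)) (p.roots.map fun x => z - x)
  rw [Multiset.map_map] at e
  have e2 : ‖(p.roots.map fun x => z - x).prod‖ = (p.roots.map fun r => ‖z - r‖).prod := e
  rw [e2, Multiset.prod_map_pow]

lemma norm_root {r : ℂ} (hr : r.re = 0) (b t : ℝ) : ‖(b + t * I : ℂ) - r‖ ^ 2 = b ^ 2 + (t - r.im) ^ 2 := by
  rw [← Complex.normSq_eq_norm_sq, Complex.normSq_apply]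
  simp [hr]
  ring

lemma prod_le_exp {s : Multiset ℂ} {A B ψ : ℂ → ℝ} (hA : ∀ r ∈ s, 0 ≤ A r) (hB : ∀ r ∈ s, 0 ≤ B r)
    (h : ∀ r ∈ s, A r ≤ B r * Real.exp (ψ r)) :
    (s.map A).prod ≤ (s.map B).prod * Real.exp ((s.map ψ).sum) := by
  induction s using Multiset.induction_on with
  | empty => simp
  | cons a s ih =>
    have ih' := ih (fun r hr => hA r (Multiset.mem_cons_of_mem hr)) (fun r hr => hB r (Multiset.mem_cons_of_mem hr))
      (fun r hr => h r (Multiset.mem_cons_of_mem hr))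
    have ha := h a (Multiset.mem_cons_self a s)
    simp only [Multiset.map_cons, Multiset.prod_cons, Multiset.sum_cons]
    rw [Real.exp_add]
    have h1 : 0 ≤ (s.map A).prod := Multiset.prod_nonneg (by
      intro x hx
      obtain ⟨r, hr, rfl⟩ := Multiset.mem_map.1 hx
      exact hA r (Multiset.mem_cons_of_mem hr))
    have h2 : 0 ≤ B a * Real.exp (ψ a) := mul_nonneg (hB a (Multiset.mem_cons_self a s)) (Real.exp_pos _).le
    calc A a * (s.map A).prod ≤ (B a * Real.exp (ψ a)) * ((s.map B).prod * Real.exp ((s.map ψ).sum)) :=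
          mul_le_mul ha ih' h1 h2
      _ = _ := by ring

lemma polyA {p : ℂ[X]} (hp : ∀ r ∈ p.roots, r.re = 0) {b e l c t v : ℝ} (hb : 0 < b) (hbe : b ≤ e) (he : e ≤ 1)
    (hc : 0 ≤ c) (hv : |v| ≤ l) (hl : l ≤ 1 / 4) :
    ‖p.eval (b + ((t + v : ℝ) : ℂ) * I)‖ ^ 2 * ‖p.eval (e + t * I)‖ ^ 2 ≤
      ‖p.eval (b + t * I)‖ ^ 2 * ‖p.eval (e + ((t + v : ℝ) : ℂ) * I)‖ ^ 2 *
      Real.exp ((p.roots.map fun r => 2 * (Pn l b c (t - r.im) + 12 * l / e / (1 + (t - r.im) ^ 2))).sum) := by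
  simp only [norm_eval_sq]
  have h := prod_le_exp (s := p.roots)
    (A := fun r => ‖(b + ((t + v : ℝ) : ℂ) * I : ℂ) - r‖ ^ 2 * ‖(e + t * I : ℂ) - r‖ ^ 2)
    (B := fun r => ‖(b + t * I : ℂ) - r‖ ^ 2 * ‖(e + ((t + v : ℝ) : ℂ) * I : ℂ) - r‖ ^ 2)
    (ψ := fun r => 2 * (Pn l b c (t - r.im) + 12 * l / e / (1 + (t - r.im) ^ 2)))
    (fun r _ => by positivity) (fun r _ => by positivity) (fun r hr => by
      have hr0 := hp r hr
      rw [norm_root hr0, norm_root hr0, norm_root hr0, norm_root hr0]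
      have h1 := rootA (y := t - r.im) hb hbe he hc hv hl
      have e1 : t + v - r.im = t - r.im + v := by ring
      rw [e1]
      exact h1)
  rw [Multiset.prod_map_mul, Multiset.prod_map_mul] at h
  set X1 := (p.roots.map fun r => ‖(b + ((t + v : ℝ) : ℂ) * I : ℂ) - r‖ ^ 2).prod
  set X2 := (p.roots.map fun r => ‖(e + t * I : ℂ) - r‖ ^ 2).prod
  set Y1 := (p.roots.map fun r => ‖(b + t * I : ℂ) - r‖ ^ 2).prod
  set Y2 := (p.roots.map fun r => ‖(e + ((t + v : ℝ) : ℂ) * I : ℂ) - r‖ ^ 2).prod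
  set E := Real.exp ((p.roots.map fun r => 2 * (Pn l b c (t - r.im) + 12 * l / e / (1 + (t - r.im) ^ 2))).sum)
  calc ‖p.leadingCoeff‖ ^ 2 * X1 * (‖p.leadingCoeff‖ ^ 2 * X2) = ‖p.leadingCoeff‖ ^ 4 * (X1 * X2) := by ring
    _ ≤ ‖p.leadingCoeff‖ ^ 4 * (Y1 * Y2 * E) := mul_le_mul_of_nonneg_left h (by positivity)
    _ = _ := by ring

lemma polyB {p : ℂ[X]} (hp : ∀ r ∈ p.roots, r.re = 0) {b e c t : ℝ} (hb : 0 < b) (hbe : b ≤ e) (he : e ≤ 1)
    (hc : 0 ≤ c) :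
    ‖p.eval (e + t * I)‖ ^ 2 ≤ ‖p.eval (b + t * I)‖ ^ 2 *
      Real.exp ((p.roots.map fun r => 2 * (Pn e b c (t - r.im) + e / (1 + (t - r.im) ^ 2))).sum) := by
  simp only [norm_eval_sq]
  have h := prod_le_exp (s := p.roots)
    (A := fun r => ‖(e + t * I : ℂ) - r‖ ^ 2)
    (B := fun r => ‖(b + t * I : ℂ) - r‖ ^ 2)
    (ψ := fun r => 2 * (Pn e b c (t - r.im) + e / (1 + (t - r.im) ^ 2)))
    (fun r _ => by positivity) (fun r _ => by positivity) (fun r hr => by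
      have hr0 := hp r hr
      rw [norm_root hr0, norm_root hr0]
      exact rootB (y := t - r.im) hb hbe he hc)
  rw [mul_assoc]
  exact mul_le_mul_of_nonneg_left h (by positivity)

lemma polyF {p : ℂ[X]} (hp : ∀ r ∈ p.roots, r.re = 0) (t : ℝ) :
    ‖p.eval (1 + t * I)‖ ^ 2 * Real.exp (3 / 4 * (p.roots.map fun r => 1 / (1 + (t - r.im) ^ 2)).sum) ≤
      ‖p.eval (2 + t * I)‖ ^ 2 := by
  have e1 : (1 + t * I : ℂ) = ((1 : ℝ) : ℂ) + t * I := by norm_num
  have e2 : (2 + t * I : ℂ) = ((2 : ℝ) : ℂ) + t * I := by norm_num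
  rw [e1, e2]
  simp only [norm_eval_sq]
  have h := prod_le_exp (s := p.roots)
    (A := fun r => ‖(((1 : ℝ) : ℂ) + t * I : ℂ) - r‖ ^ 2)
    (B := fun r => ‖(((2 : ℝ) : ℂ) + t * I : ℂ) - r‖ ^ 2)
    (ψ := fun r => -(3 / 4) * (1 / (1 + (t - r.im) ^ 2)))
    (fun r _ => by positivity) (fun r _ => by positivity) (fun r hr => by
      have hr0 := hp r hr
      rw [norm_root hr0, norm_root hr0]
      set y := t - r.im
      set u := 3 / 4 * (1 / (1 + y ^ 2)) with hu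
      have hu0 : 0 ≤ u := by positivity
      have hu1 : u ≤ 1 := by
        have : 1 / (1 + y ^ 2) ≤ 1 := by
          rw [div_le_one (by positivity)]
          nlinarith [sq_nonneg y]
        linarith
      have h1 : Real.exp u ≤ 1 + 2 * u := by
        have := Real.abs_exp_sub_one_le (x := u) (by rw [abs_of_nonneg hu0]; exact hu1)
        rw [abs_of_nonneg hu0] at this
        have := (abs_le.1 this).2
        linarith
      have h2 : (1 + y ^ 2) * (1 + 2 * u) ≤ 4 + y ^ 2 := by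
        have : (1 + y ^ 2) * u = 3 / 4 := by
          rw [hu]; field_simp
        nlinarith
      have h3 : (-(3 / 4) * (1 / (1 + y ^ 2))) = -u := by rw [hu]; ring
      rw [h3, Real.exp_neg, ← div_eq_mul_inv, le_div_iff₀ (Real.exp_pos _)]
      have h4 : (1 + y ^ 2) * Real.exp u ≤ (1 + y ^ 2) * (1 + 2 * u) := mul_le_mul_of_nonneg_left h1 (by positivity)
      nlinarith)
  rw [Multiset.sum_map_mul_left] at h
  set S := (p.roots.map fun r => 1 / (1 + (t - r.im) ^ 2)).sum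
  set X1 := (p.roots.map fun r => ‖(((1 : ℝ) : ℂ) + t * I : ℂ) - r‖ ^ 2).prod
  set X2 := (p.roots.map fun r => ‖(((2 : ℝ) : ℂ) + t * I : ℂ) - r‖ ^ 2).prod
  have h5 : X1 * Real.exp (3 / 4 * S) ≤ X2 := by
    have h6 : X1 * Real.exp (3 / 4 * S) ≤ X2 * Real.exp (-(3 / 4) * S) * Real.exp (3 / 4 * S) :=
      mul_le_mul_of_nonneg_right h (Real.exp_pos _).le
    rw [mul_assoc, ← Real.exp_add] at h6
    have : -(3 / 4) * S + 3 / 4 * S = 0 := by ring
    rwa [this, Real.exp_zero, mul_one] at h6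
  rw [mul_assoc]
  exact mul_le_mul_of_nonneg_left h5 (by positivity)

/-- the data of an approximation with a bound for the sums over the roots -/
lemma roots_sum {p : ℂ[X]} (A : Finset ℂ) (m : ℂ → ℕ) {f : ℂ → ℝ} (hf : ∀ r, 0 ≤ f r)
    (hA : ∀ r ∈ p.roots, f r ≠ 0 → r ∈ A) (hm : ∀ r ∈ A, p.rootMultiplicity r ≤ m r) :
    (p.roots.map f).sum ≤ ∑ r ∈ A, (m r : ℝ) * f r := by
  classical
  rw [Finset.sum_multiset_map_count]
  have h1 : ∀ r ∈ p.roots.toFinset, p.roots.count r • f r ≤ if r ∈ A then (m r : ℝ) * f r else 0 := by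
    intro r hr
    rw [Polynomial.count_roots, nsmul_eq_mul]
    split_ifs with h
    · exact mul_le_mul_of_nonneg_right (by exact_mod_cast hm r h) (hf r)
    · have : f r = 0 := by
        by_contra h2
        exact h (hA r (Multiset.mem_toFinset.1 hr) h2)
      rw [this, mul_zero]
  refine (Finset.sum_le_sum h1).trans ?_
  rw [← Finset.sum_filter]
  refine Finset.sum_le_sum_of_subset_of_nonneg ?_ ?_
  · intro r hr
    exact (Finset.mem_filter.1 hr).2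
  · intro r _ _
    exact mul_nonneg (Nat.cast_nonneg _) (hf r)

/-- zeros of `XX` are on the imaginary axis -/
lemma XX_re (hRH : RiemannHypothesis) {r : ℂ} (hr : XX r = 0) : IsZ (r + 1 / 2) ∧ r.re = 0 := by
  have h1 : IsZ (r + 1 / 2) := by
    rw [Pool.Agent.Y23.isZ_iff]
    have : (r + 1 / 2 - 1 / 2 : ℂ) = r := by ring
    rw [this, hr]
  refine ⟨h1, ?_⟩
  have h2 : (r + 1 / 2).re = 1 / 2 := by
    refine hRH (r + 1 / 2) h1.1 ?_ ?_
    · rintro ⟨n, hn⟩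
      have h3 := h1.2.1
      rw [hn] at h3
      simp at h3
      have : (0 : ℝ) ≤ n := Nat.cast_nonneg n
      linarith
    · intro h3
      have h4 := h1.2.2
      rw [h3] at h4
      simp at h4
  have h3 : (r + 1 / 2).re = r.re + 1 / 2 := by simp
  linarith

/-- sums over the roots of the approximating polynomials -/
lemma sums (hRH : RiemannHypothesis) {C1 : ℝ} (hfar : ∀ t : ℝ, 0 < ‖XX (1 + t * I)‖ ∧
      ‖XX (2 + t * I)‖ ≤ Real.exp (C1 * Lg t) * ‖XX (1 + t * I)‖)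
    {p : ℕ → ℂ[X]} (hp1 : ∀ (N : ℕ) (z : ℂ), (p N).eval z = 0 → XX z = 0)
    (hp2 : TendstoLocallyUniformly (fun (N : ℕ) (z : ℂ) => (p N).eval z) XX atTop)
    (τ : ℝ) (f : ℝ → ℝ) (hf0 : ∀ y, 0 ≤ f y) (hf1 : ∀ y, 1 < |y| → f y = 0) (Nn : ℝ)
    (hN : ∀ S : Finset ℂ, (∀ s ∈ S, IsZ s ∧ |s.im - τ| ≤ 1) → ∑ s ∈ S, (mu s : ℝ) * f (τ - s.im) ≤ Nn)
    (κ : ℝ) (hκ : 0 ≤ κ) :
    ∀ᶠ N in atTop, ((p N).roots.map fun r => 2 * (f (τ - r.im) + κ / (1 + (τ - r.im) ^ 2))).sum ≤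
      2 * Nn + 2 * (κ * (8 / 3 * (C1 * Lg τ + 1))) := by
  classical
  have hpt : ∀ z : ℂ, Tendsto (fun N => ‖(p N).eval z‖) atTop (𝓝 ‖XX z‖) := fun z =>
    ((tendstoLocallyUniformlyOn_univ.mpr hp2).tendsto_at (Set.mem_univ z)).norm
  -- the finite set of near zeros
  have hfin : {r : ℂ | XX r = 0 ∧ |r.im - τ| ≤ 1}.Finite := by
    have h1 := Pool.Agent.Y23.isZ_finite (|τ| + 1)
    have h2 : (fun s : ℂ => s - 1 / 2) '' {s : ℂ | IsZ s ∧ |s.im| ≤ |τ| + 1} ⊇ {r : ℂ | XX r = 0 ∧ |r.im - τ| ≤ 1} := by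
      rintro r ⟨hr1, hr2⟩
      refine ⟨r + 1 / 2, ⟨(XX_re hRH hr1).1, ?_⟩, by ring⟩
      have h3 : (r + 1 / 2 : ℂ).im = r.im := by simp
      rw [h3]
      have := abs_sub_abs_le_abs_sub r.im τ
      linarith
    exact (h1.image _).subset h2
  set A := hfin.toFinset with hA
  have hev : ∀ᶠ N in atTop, ∀ r ∈ A, (p N).rootMultiplicity r ≤ analyticOrderNatAt XX r := by
    rw [Filter.eventually_all_finset]
    intro r _
    exact mult_le Pool.Agent.Y23.XX_diff hp2 (Pool.Agent.Y23.XX_ne_top r)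
  -- the near sum
  have hnear : ∑ r ∈ A, (analyticOrderNatAt XX r : ℝ) * f (τ - r.im) ≤ Nn := by
    have h1 := hN (A.image fun r => r + 1 / 2) (by
      intro s hs
      obtain ⟨r, hr, rfl⟩ := Finset.mem_image.1 hs
      rw [hA, Set.Finite.mem_toFinset] at hr
      refine ⟨(XX_re hRH hr.1).1, ?_⟩
      have h3 : (r + 1 / 2 : ℂ).im = r.im := by simp
      rw [h3]
      exact hr.2)
    rw [Finset.sum_image (by
      intro x _ y _ hxy
      exact add_right_cancel hxy)] at h1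
    refine le_trans (le_of_eq ?_) h1
    refine Finset.sum_congr rfl fun r hr => ?_
    rw [hA, Set.Finite.mem_toFinset] at hr
    have hz := (XX_re hRH hr.1).1
    have h3 : (r + 1 / 2 : ℂ).im = r.im := by simp
    have h4 : mu (r + 1 / 2) = analyticOrderNatAt XX r := by
      rw [Pool.Agent.Y23.mu_eq hz.2.1 hz.2.2]
      congr 1
      ring
    rw [h3, h4]
  -- the far sum
  have hevF : ∀ᶠ N in atTop, ‖(p N).eval (2 + τ * I)‖ ^ 2 < Real.exp (2 * (C1 * Lg τ + 1)) * ‖(p N).eval (1 + τ * I)‖ ^ 2 ∧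
      0 < ‖(p N).eval (1 + τ * I)‖ := by
    obtain ⟨h1, h2⟩ := hfar τ
    have h3 : ‖XX (2 + τ * I)‖ ^ 2 < Real.exp (2 * (C1 * Lg τ + 1)) * ‖XX (1 + τ * I)‖ ^ 2 := by
      have h4 : ‖XX (2 + τ * I)‖ ^ 2 ≤ (Real.exp (C1 * Lg τ) * ‖XX (1 + τ * I)‖) ^ 2 := by gcongr
      refine h4.trans_lt ?_
      rw [mul_pow]
      refine mul_lt_mul_of_pos_right ?_ (by positivity)
      rw [← Real.exp_nat_mul, Real.exp_lt_exp]
      push_cast
      linarith
    have h5 := ((hpt (2 + τ * I)).pow 2).eventually_lt (((hpt (1 + τ * I)).pow 2).const_mul (Real.exp (2 * (C1 * Lg τ + 1)))) h3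
    have h6 := (hpt (1 + τ * I)).eventually (lt_mem_nhds h1)
    exact h5.and h6
  filter_upwards [hev, hevF] with N hN1 hN2
  have hroots : ∀ r ∈ (p N).roots, XX r = 0 := fun r hr => hp1 N r (Polynomial.isRoot_of_mem_roots hr)
  have hre : ∀ r ∈ (p N).roots, r.re = 0 := fun r hr => (XX_re hRH (hroots r hr)).2
  have hF := polyF hre τ
  set S := ((p N).roots.map fun r => 1 / (1 + (τ - r.im) ^ 2)).sum with hS
  have hS1 : S ≤ 8 / 3 * (C1 * Lg τ + 1) := by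
    have h1 : ‖(p N).eval (1 + τ * I)‖ ^ 2 * Real.exp (3 / 4 * S) ≤
        ‖(p N).eval (1 + τ * I)‖ ^ 2 * Real.exp (2 * (C1 * Lg τ + 1)) := by
      rw [mul_comm _ (Real.exp (2 * (C1 * Lg τ + 1)))]
      exact hF.trans hN2.1.le
    have h2 := le_of_mul_le_mul_left h1 (by have := hN2.2; positivity)
    rw [Real.exp_le_exp] at h2
    linarith
  have hn : ((p N).roots.map fun r => f (τ - r.im)).sum ≤ Nn := by
    refine (roots_sum A (fun r => analyticOrderNatAt XX r) (fun r => hf0 _) (fun r hr h => ?_) hN1).trans hnear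
    rw [hA, Set.Finite.mem_toFinset]
    refine ⟨hroots r hr, ?_⟩
    by_contra h2
    rw [not_le, abs_sub_comm] at h2
    exact h (hf1 _ h2)
  have e1 : ((p N).roots.map fun r => 2 * (f (τ - r.im) + κ / (1 + (τ - r.im) ^ 2))).sum =
      2 * (((p N).roots.map fun r => f (τ - r.im)).sum + κ * S) := by
    rw [hS, Multiset.sum_map_mul_left, Multiset.sum_map_add, ← Multiset.sum_map_mul_left]
    congr 3
    refine Multiset.map_congr rfl fun r _ => ?_
    ring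
  rw [e1]
  have := mul_le_mul_of_nonneg_left hS1 hκ
  linarith

/-- horizontal move at distance `b` from the line -/
theorem limA (hRH : RiemannHypothesis) {C1 : ℝ} (hfar : ∀ t : ℝ, 0 < ‖XX (1 + t * I)‖ ∧
      ‖XX (2 + t * I)‖ ≤ Real.exp (C1 * Lg t) * ‖XX (1 + t * I)‖)
    {b e l c t v Nn : ℝ} (hb : 0 < b) (hbe : b ≤ e) (he : e ≤ 1) (hc : 0 ≤ c) (hc1 : c ≤ 1) (hv : |v| ≤ l) (hl : l ≤ 1 / 4)
    (hN : ∀ S : Finset ℂ, (∀ s ∈ S, IsZ s ∧ |s.im - t| ≤ 1) → ∑ s ∈ S, (mu s : ℝ) * Pn l b c (t - s.im) ≤ Nn) :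
    ‖XX (b + ((t + v : ℝ) : ℂ) * I)‖ * ‖XX (e + t * I)‖ ≤
      ‖XX (b + t * I)‖ * ‖XX (e + ((t + v : ℝ) : ℂ) * I)‖ *
      Real.exp (Nn + 12 * l / e * (8 / 3 * (C1 * Lg t + 1))) := by
  obtain ⟨p, hp1, hp2, -⟩ := xx_approx
  have hl0 : 0 ≤ l := (abs_nonneg v).trans hv
  have he0 : 0 < e := hb.trans_le hbe
  have hpt : ∀ z : ℂ, Tendsto (fun N => ‖(p N).eval z‖) atTop (𝓝 ‖XX z‖) := fun z =>
    ((tendstoLocallyUniformlyOn_univ.mpr hp2).tendsto_at (Set.mem_univ z)).norm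
  have hs := sums hRH hfar hp1 hp2 t (fun y => Pn l b c y) (fun y => Pn_nonneg hl0 hb) (fun y hy => by
    unfold Pn
    rw [if_neg (by linarith), if_neg (by linarith)]) Nn hN (12 * l / e) (by positivity)
  have h1 : (‖XX (b + ((t + v : ℝ) : ℂ) * I)‖ * ‖XX (e + t * I)‖) ^ 2 ≤
      (‖XX (b + t * I)‖ * ‖XX (e + ((t + v : ℝ) : ℂ) * I)‖ *
      Real.exp (Nn + 12 * l / e * (8 / 3 * (C1 * Lg t + 1)))) ^ 2 := by
    rw [mul_pow, mul_pow, mul_pow, ← Real.exp_nat_mul]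
    refine le_of_tendsto_of_tendsto (((hpt _).pow 2).mul ((hpt _).pow 2))
      ((((hpt _).pow 2).mul ((hpt _).pow 2)).mul_const _) ?_
    filter_upwards [hs] with N hN1
    have hre : ∀ r ∈ (p N).roots, r.re = 0 := fun r hr =>
      (XX_re hRH (hp1 N r (Polynomial.isRoot_of_mem_roots hr))).2
    refine (polyA (c := c) (t := t) hre hb hbe he hc hv hl).trans ?_
    refine mul_le_mul_of_nonneg_left ?_ (by positivity)
    rw [Real.exp_le_exp]
    refine hN1.trans (le_of_eq ?_)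
    push_cast
    ring
  exact le_of_sq_le_sq h1 (by positivity)

/-- vertical move -/
theorem limB (hRH : RiemannHypothesis) {C1 : ℝ} (hfar : ∀ t : ℝ, 0 < ‖XX (1 + t * I)‖ ∧
      ‖XX (2 + t * I)‖ ≤ Real.exp (C1 * Lg t) * ‖XX (1 + t * I)‖)
    {b e c t Nn : ℝ} (hb : 0 < b) (hbe : b ≤ e) (he : e ≤ 1) (hc : 0 ≤ c) (hc1 : c ≤ 1)
    (hN : ∀ S : Finset ℂ, (∀ s ∈ S, IsZ s ∧ |s.im - t| ≤ 1) → ∑ s ∈ S, (mu s : ℝ) * Pn e b c (t - s.im) ≤ Nn) :
    ‖XX (e + t * I)‖ ≤ ‖XX (b + t * I)‖ * Real.exp (Nn + e * (8 / 3 * (C1 * Lg t + 1))) := by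
  obtain ⟨p, hp1, hp2, -⟩ := xx_approx
  have he0 : 0 < e := hb.trans_le hbe
  have hpt : ∀ z : ℂ, Tendsto (fun N => ‖(p N).eval z‖) atTop (𝓝 ‖XX z‖) := fun z =>
    ((tendstoLocallyUniformlyOn_univ.mpr hp2).tendsto_at (Set.mem_univ z)).norm
  have hs := sums hRH hfar hp1 hp2 t (fun y => Pn e b c y) (fun y => Pn_nonneg he0.le hb) (fun y hy => by
    unfold Pn
    rw [if_neg (by linarith), if_neg (by linarith)]) Nn hN e he0.le
  have h1 : (‖XX (e + t * I)‖) ^ 2 ≤ (‖XX (b + t * I)‖ * Real.exp (Nn + e * (8 / 3 * (C1 * Lg t + 1)))) ^ 2 := by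
    rw [mul_pow, ← Real.exp_nat_mul]
    refine le_of_tendsto_of_tendsto ((hpt _).pow 2) (((hpt _).pow 2).mul_const _) ?_
    filter_upwards [hs] with N hN1
    have hre : ∀ r ∈ (p N).roots, r.re = 0 := fun r hr =>
      (XX_re hRH (hp1 N r (Polynomial.isRoot_of_mem_roots hr))).2
    refine (polyB (c := c) (t := t) hre hb hbe he hc).trans ?_
    refine mul_le_mul_of_nonneg_left ?_ (by positivity)
    rw [Real.exp_le_exp]
    refine hN1.trans (le_of_eq ?_)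
    push_cast
    ring
  exact le_of_sq_le_sq h1 (by positivity)

end Pool.Agent.N967
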