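import Pool.Agent.N967.LowA

set_option autoImplicit false

/-!
# Baez-Duarte's distance: Cauchy's formula on the critical line, zeros to the right
-/

namespace Pool.Agent.N967

open Complex MeasureTheory Filter Topology Set
open Pool.Agent.H295R2

lemma rpow_half_le (y : ℝ) : (1 + |y|)⁻¹ ≤ (1 + |y|) ^ (-(1 / 2 : ℝ)) := by
  have h1 : 1 ≤ 1 + |y| := by linarith [abs_nonneg y]
  rw [← Real.rpow_neg_one]
  exact Real.rpow_le_rpow_of_exponent_le h1 (by norm_num)

lemma one_add_abs_le_two_mul {b y : ℝ} (hb : 1 ≤ b) : 1 + |y| ≤ 2 * ‖(b : ℂ) + y * I‖ := by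
  have h1 : |((b : ℂ) + y * I).re| ≤ ‖(b : ℂ) + y * I‖ := Complex.abs_re_le_norm _
  have h2 : |((b : ℂ) + y * I).im| ≤ ‖(b : ℂ) + y * I‖ := Complex.abs_im_le_norm _
  have h3 : ((b : ℂ) + y * I).re = b := by simp
  have h4 : ((b : ℂ) + y * I).im = y := by simp
  rw [h3, abs_of_pos (by linarith)] at h1
  rw [h4] at h2
  linarith

/-- the integrals over the lines far to the right tend to zero -/
lemma lim_far {F : ℂ → ℂ} {B : ℝ} (hd : ∀ z : ℂ, 0 ≤ z.re → DifferentiableAt ℂ F z)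
    (hB : ∀ z : ℂ, 0 ≤ z.re → ‖F z‖ ≤ B * (1 + |z.im|) ^ (-(1 / 2 : ℝ))) :
    Tendsto (fun b : ℝ => ∫ y : ℝ, F (b + y * I) / (b + y * I)) atTop (𝓝 0) := by
  have hB0 : 0 ≤ B := by
    have := (norm_nonneg _).trans (hB 0 (by simp))
    simpa using this
  have h0 : (0 : ℂ) = ∫ _y : ℝ, (0 : ℂ) := by simp
  rw [h0]
  refine tendsto_integral_filter_of_dominated_convergence
    (fun y : ℝ => 2 * B * (1 + |y|) ^ (-(3 / 2 : ℝ))) ?_ ?_ (integrable_decay.const_mul _) ?_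
  · filter_upwards [eventually_ge_atTop 1] with b hb
    refine Continuous.aestronglyMeasurable ?_
    rw [continuous_iff_continuousAt]
    intro y
    have h1 : ContinuousAt F ((b : ℂ) + y * I) := (hd _ (by simp; linarith)).continuousAt
    have h2 : ContinuousAt (fun y : ℝ => F ((b : ℂ) + y * I)) y :=
      ContinuousAt.comp (f := fun y : ℝ => (b : ℂ) + y * I) h1 (by fun_prop)
    refine h2.div (by fun_prop) ?_
    intro h
    have := congrArg Complex.re h
    simp at this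
    linarith
  · filter_upwards [eventually_ge_atTop 1] with b hb
    refine Eventually.of_forall fun y => ?_
    have h1 := hB (b + y * I) (by simp; linarith)
    have h2 : ((b : ℂ) + y * I).im = y := by simp
    rw [h2] at h1
    have h3 := one_add_abs_le_two_mul (y := y) hb
    have h4 : 0 < 1 + |y| := by positivity
    have h5 : 0 < ‖(b : ℂ) + y * I‖ := by linarith
    rw [norm_div, div_le_iff₀ h5]
    have h6 : (1 + |y|) ^ (-(1 / 2 : ℝ)) = (1 + |y|) ^ (-(3 / 2 : ℝ)) * (1 + |y|) := by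
      nth_rewrite 3 [← Real.rpow_one (1 + |y|)]
      rw [← Real.rpow_add h4]
      norm_num
    calc ‖F (b + y * I)‖ ≤ B * (1 + |y|) ^ (-(1 / 2 : ℝ)) := h1
      _ = B * (1 + |y|) ^ (-(3 / 2 : ℝ)) * (1 + |y|) := by rw [h6]; ring
      _ ≤ B * (1 + |y|) ^ (-(3 / 2 : ℝ)) * (2 * ‖(b : ℂ) + y * I‖) := by gcongr
      _ = _ := by ring
  · refine Eventually.of_forall fun y => ?_
    rw [tendsto_zero_iff_norm_tendsto_zero]
    have hl : Tendsto (fun b : ℝ => B * (1 + |y|) ^ (-(1 / 2 : ℝ)) * b⁻¹) atTop (𝓝 0) := by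
      simpa using tendsto_inv_atTop_zero.const_mul (B * (1 + |y|) ^ (-(1 / 2 : ℝ)))
    refine squeeze_zero' (Eventually.of_forall fun b => norm_nonneg _) ?_ hl
    filter_upwards [eventually_ge_atTop 1] with b hb
    have h1 := hB (b + y * I) (by simp; linarith)
    have h2 : ((b : ℂ) + y * I).im = y := by simp
    rw [h2] at h1
    have h3 : b ≤ ‖(b : ℂ) + y * I‖ := by
      have h1 : |((b : ℂ) + y * I).re| ≤ ‖(b : ℂ) + y * I‖ := Complex.abs_re_le_norm _
      have h3 : ((b : ℂ) + y * I).re = b := by simp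
      rwa [h3, abs_of_pos (by linarith)] at h1
    rw [norm_div, div_eq_mul_inv]
    have hb0 : 0 < b := by linarith
    gcongr

/-- shift of the line to infinity -/
lemma shift_inf (hs : S_shift) {F : ℂ → ℂ} {a B : ℝ} (ha : a < 0)
    (hd : ∀ z : ℂ, a ≤ z.re → DifferentiableAt ℂ F z)
    (hB : ∀ z : ℂ, a ≤ z.re → ‖F z‖ ≤ B * (1 + |z.im|) ^ (-(1 / 2 : ℝ))) :
    (∀ b : ℝ, 0 < b → ∫ y : ℝ, F (b + y * I) / (b + y * I) = 0) ∧
      -(∫ y : ℝ, F (a + y * I) / (a + y * I)) = 2 * Real.pi * F 0 := by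
  have h1 : ∀ b : ℝ, 0 < b → ∫ y : ℝ, F (b + y * I) / (b + y * I) =
      2 * Real.pi * F 0 + ∫ y : ℝ, F (a + y * I) / (a + y * I) := by
    intro b hb
    have := hs F a b B ha hb (fun z h _ => hd z h) (fun z h _ => hB z h)
    rw [← this]
    ring
  have h2 := lim_far (F := F) (B := B) (fun z hz => hd z (ha.le.trans hz))
    (fun z hz => hB z (ha.le.trans hz))
  have h3 : 2 * Real.pi * F 0 + ∫ y : ℝ, F (a + y * I) / (a + y * I) = 0 := by
    refine tendsto_nhds_unique ?_ h2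
    refine tendsto_const_nhds.congr' ?_
    filter_upwards [eventually_gt_atTop 0] with b hb
    exact (h1 b hb).symm
  refine ⟨fun b hb => (h1 b hb).trans h3, ?_⟩
  rw [add_eq_zero_iff_neg_eq'] at h3
  exact h3

/-- `(1 - ζ(s) A(s)) (s - 1) / s²` -/
noncomputable def GLow (N : ℕ) (a : ℕ → ℂ) (s : ℂ) : ℂ := ((s - 1) - Zs s * DP N a s) / s ^ 2

lemma ne_zero_of_re {s : ℂ} (hs : 0 < s.re) : s ≠ 0 := by
  rintro rfl
  simp at hs

lemma GG_diff (N : ℕ) (a : ℕ → ℂ) {s : ℂ} (hs : 0 < s.re) : DifferentiableAt ℂ (GLow N a) s := by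
  unfold GLow
  have h1 : DifferentiableAt ℂ Zs s := Zs_differentiable s
  have h2 : DifferentiableAt ℂ (DP N a) s := DP_differentiable N a s
  refine DifferentiableAt.div (by fun_prop) (by fun_prop) ?_
  exact pow_ne_zero 2 (ne_zero_of_re hs)

lemma GG_line (N : ℕ) (a : ℕ → ℂ) (t : ℝ) : ‖GLow N a (1 / 2 + t * I)‖ ^ 2 = ig N a t := by
  unfold GLow ig
  have h1 := Zs_eq (half_ne_one t)
  have h2 : (1 / 2 + (t : ℂ) * I) - 1 - Zs (1 / 2 + t * I) * DP N a (1 / 2 + t * I) =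
      ((1 / 2 + (t : ℂ) * I) - 1) * (1 - riemannZeta (1 / 2 + t * I) * DP N a (1 / 2 + t * I)) := by
    rw [← h1]
    ring
  have hp : (0:ℝ) < 1 / 4 + t ^ 2 := by positivity
  rw [h2, norm_div, norm_mul, norm_pow, div_pow, mul_pow, norm_half_sub_sq, norm_half_sq]
  field_simp

lemma GG_bound (N : ℕ) (a : ℕ → ℂ) : ∃ B : ℝ, 0 ≤ B ∧ ∀ s : ℂ, 1 / 4 ≤ s.re → ‖GLow N a s‖ ≤ B := by
  set M := ∑ n ∈ Finset.Icc 1 N, ‖a n‖ with hM
  have hM0 : 0 ≤ M := Finset.sum_nonneg fun n _ => norm_nonneg _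
  refine ⟨20 + 125 * M, by positivity, fun s hs => ?_⟩
  have h1 : 1 / 4 ≤ ‖s‖ := by
    have := (le_abs_self _).trans (Complex.abs_re_le_norm s)
    linarith
  have h2 := Zs_norm_le hs
  have h3 : ‖DP N a s‖ ≤ M := DP_norm_le N a (by linarith)
  have h4 : ‖s - 1‖ ≤ ‖s‖ + 1 := by
    have := norm_sub_le s 1
    rwa [norm_one] at this
  have h5 : 0 < ‖s‖ ^ 2 := by positivity
  unfold GLow
  rw [norm_div, norm_pow, div_le_iff₀ h5]
  have h6 : ‖s‖ + 1 ≤ 20 * ‖s‖ ^ 2 := by nlinarith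
  have h7 : (‖s‖ + 1) ^ 2 ≤ 25 * ‖s‖ ^ 2 := by nlinarith
  calc ‖s - 1 - Zs s * DP N a s‖ ≤ ‖s - 1‖ + ‖Zs s * DP N a s‖ := norm_sub_le _ _
    _ = ‖s - 1‖ + ‖Zs s‖ * ‖DP N a s‖ := by rw [norm_mul]
    _ ≤ (‖s‖ + 1) + (5 * (‖s‖ + 1) ^ 2) * M := by gcongr
    _ ≤ 20 * ‖s‖ ^ 2 + (5 * (25 * ‖s‖ ^ 2)) * M := by gcongr
    _ = _ := by ring

/-- decay of `1 / (z + s₀ + 1)` -/
lemma decay_lin {s0 z : ℂ} (h : 1 / 2 ≤ (z + s0).re) :
    ‖z + s0 + 1‖⁻¹ ≤ (2 + |s0.im|) * (1 + |z.im|) ^ (-(1 / 2 : ℝ)) := by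
  have h1 : 1 ≤ ‖z + s0 + 1‖ := by
    have h2 := (le_abs_self _).trans (Complex.abs_re_le_norm (z + s0 + 1))
    have h3 : (z + s0 + 1).re = (z + s0).re + 1 := by simp
    linarith
  have h2 : |z.im + s0.im| ≤ ‖z + s0 + 1‖ := by
    have h2 := Complex.abs_im_le_norm (z + s0 + 1)
    simpa using h2
  have h3 : |z.im| ≤ |z.im + s0.im| + |s0.im| := by
    have := abs_sub_abs_le_abs_sub z.im (-s0.im)
    rw [abs_neg, sub_neg_eq_add] at this
    linarith
  have h4 : 1 + |z.im| ≤ (2 + |s0.im|) * ‖z + s0 + 1‖ := by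
    nlinarith [abs_nonneg s0.im]
  have h5 : 0 < 1 + |z.im| := by positivity
  have h6 : ‖z + s0 + 1‖⁻¹ ≤ (2 + |s0.im|) * (1 + |z.im|)⁻¹ := by
    have hp : 0 < ‖z + s0 + 1‖ := by linarith
    rw [← div_eq_mul_inv, inv_eq_one_div, div_le_div_iff₀ hp h5]
    linarith
  refine h6.trans ?_
  gcongr
  exact rpow_half_le _

/-- the value at a point to the right of the critical line -/
lemma cau (h : S_int) (hs : S_shift) (N : ℕ) (a : ℕ → ℂ) {s0 : ℂ} (h0 : 1 / 2 < s0.re) :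
    ‖GLow N a s0‖ ^ 2 * (s0.re - 1 / 2) ≤ ‖s0 + 1‖ ^ 2 * err N a := by
  set α : ℝ := 1 / 2 - s0.re with hα
  have hα0 : α < 0 := by linarith
  obtain ⟨B, hB0, hB⟩ := GG_bound N a
  set F : ℂ → ℂ := fun z => GLow N a (z + s0) * (z + s0 + 1)⁻¹ with hF
  have hne : ∀ z : ℂ, α ≤ z.re → z + s0 + 1 ≠ 0 := by
    intro z hz
    refine ne_zero_of_re ?_
    simp only [add_re, one_re]
    linarith
  have hd : ∀ z : ℂ, α ≤ z.re → DifferentiableAt ℂ F z := by
    intro z hz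
    have h1 : DifferentiableAt ℂ (GLow N a) (z + s0) := by
      refine GG_diff N a ?_
      simp only [add_re]
      linarith
    have h2 : DifferentiableAt ℂ (fun z => GLow N a (z + s0)) z :=
      DifferentiableAt.comp (g := GLow N a) (f := fun z : ℂ => z + s0) z h1 (by fun_prop)
    have h3 : DifferentiableAt ℂ (fun z : ℂ => z + s0 + 1) z := by fun_prop
    exact h2.mul (h3.inv (hne z hz))
  have hBd : ∀ z : ℂ, α ≤ z.re → ‖F z‖ ≤ B * (2 + |s0.im|) * (1 + |z.im|) ^ (-(1 / 2 : ℝ)) := by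
    intro z hz
    have h1 : 1 / 2 ≤ (z + s0).re := by
      simp only [add_re]
      linarith
    have h2 := decay_lin h1
    have h3 := hB (z + s0) (by linarith)
    rw [hF]
    simp only
    rw [norm_mul, norm_inv, mul_assoc]
    gcongr
  have h1 := (shift_inf hs hα0 hd hBd).2
  -- the functions on the line
  set f : ℝ → ℝ := fun y => ‖GLow N a (1 / 2 + ((y + s0.im : ℝ) : ℂ) * I)‖ with hf
  set g : ℝ → ℝ := fun y => ‖(α : ℂ) + y * I + s0 + 1‖⁻¹ * ‖(α : ℂ) + y * I‖⁻¹ with hg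
  have hpt : ∀ y : ℝ, ‖F (α + y * I) / (α + y * I)‖ = f y * g y := by
    intro y
    have e1 : (α : ℂ) + y * I + s0 = 1 / 2 + ((y + s0.im : ℝ) : ℂ) * I := by
      apply Complex.ext
      · simp [hα]
      · simp
    rw [hF, hf, hg]
    simp only
    rw [norm_div, norm_mul, norm_inv, e1]
    ring
  have hf2 : ∀ y, f y ^ 2 = ig N a (y + s0.im) := fun y => GG_line N a (y + s0.im)
  have hfi : Integrable (fun y => f y ^ 2) := by
    simp_rw [hf2]
    exact (h N a).comp_add_right s0.im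
  have hfe : ∫ y, f y ^ 2 = 2 * Real.pi * err N a := by
    simp_rw [hf2]
    rw [integral_add_right_eq_self (fun y => ig N a y) s0.im]
    unfold err
    field_simp
  have hca := cauchy_int (a := -α) (by linarith) 0
  have hg2 : ∀ y, g y ^ 2 ≤ (4 / 9) * ((-α) ^ 2 + (y + 0) ^ 2)⁻¹ := by
    intro y
    have e1 : ‖(α : ℂ) + y * I‖ ^ 2 = (-α) ^ 2 + (y + 0) ^ 2 := by
      rw [← Complex.normSq_eq_norm_sq, Complex.normSq_apply]
      simp
      ring
    have e2 : 3 / 2 ≤ ‖(α : ℂ) + y * I + s0 + 1‖ := by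
      have h2 := (le_abs_self _).trans (Complex.abs_re_le_norm ((α : ℂ) + y * I + s0 + 1))
      have h3 : ((α : ℂ) + y * I + s0 + 1).re = 3 / 2 := by
        simp [hα]
        ring
      linarith
    rw [hg]
    simp only
    rw [mul_pow, inv_pow, inv_pow, e1]
    refine mul_le_mul_of_nonneg_right ?_ (by positivity)
    rw [inv_le_comm₀ (by positivity) (by norm_num)]
    nlinarith
  have hα1 : ∀ y : ℝ, (α : ℂ) + y * I ≠ 0 := by
    intro y hy
    have := congrArg Complex.re hy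
    simp at this
    linarith
  have hgc : Continuous g := by
    rw [hg]
    refine Continuous.mul (Continuous.inv₀ (by fun_prop) fun y => ?_)
      (Continuous.inv₀ (by fun_prop) fun y => ?_)
    · rw [norm_ne_zero_iff]
      exact hne _ (by simp)
    · rw [norm_ne_zero_iff]
      exact hα1 y
  have hgi : Integrable (fun y => g y ^ 2) := by
    refine (hca.1.const_mul (4 / 9)).mono' (hgc.pow 2).aestronglyMeasurable
      (Eventually.of_forall fun y => ?_)
    rw [Real.norm_of_nonneg (sq_nonneg _)]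
    exact hg2 y
  have hge : ∫ y, g y ^ 2 ≤ (4 / 9) * (Real.pi / (-α)) := by
    rw [← hca.2, ← integral_const_mul]
    exact integral_mono hgi (hca.1.const_mul _) hg2
  have hfc : Continuous f := by
    have hF2 : ∀ y, f y = Real.sqrt (ig N a (y + s0.im)) := by
      intro y
      rw [← hf2, Real.sqrt_sq (norm_nonneg _)]
    have : f = fun y => Real.sqrt (ig N a (y + s0.im)) := funext hF2
    rw [this]
    exact ((ig_continuous N a).comp (by fun_prop)).sqrt
  have hfgi : Integrable (fun y => f y * g y) := by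
    refine ((hfi.add hgi)).mono' (hfc.mul hgc).aestronglyMeasurable (Eventually.of_forall fun y => ?_)
    have hfn : 0 ≤ f y := norm_nonneg _
    have hgn : 0 ≤ g y := by rw [hg]; positivity
    rw [Real.norm_of_nonneg (mul_nonneg hfn hgn)]
    simp only [Pi.add_apply]
    nlinarith [sq_nonneg (f y - g y)]
  have hcs := cs hfi hgi hfgi
  have hle : 2 * Real.pi * ‖F 0‖ ≤ ∫ y, f y * g y := by
    have e1 : ‖(2 * Real.pi * F 0 : ℂ)‖ = 2 * Real.pi * ‖F 0‖ := by
      rw [norm_mul, norm_mul, Complex.norm_real, Real.norm_of_nonneg Real.pi_pos.le]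
      simp
    rw [← e1, ← h1, norm_neg]
    refine (norm_integral_le_integral_norm _).trans (le_of_eq ?_)
    exact integral_congr_ae (Eventually.of_forall hpt)
  have hF0 : ‖F 0‖ = ‖GLow N a s0‖ / ‖s0 + 1‖ := by
    rw [hF]
    simp only [zero_add]
    rw [norm_mul, norm_inv, div_eq_mul_inv]
  have hs1 : 0 < ‖s0 + 1‖ := by
    rw [norm_pos_iff]
    have := hne 0 (by simpa using hα0.le)
    simpa using this
  have hfin : (2 * Real.pi * ‖F 0‖) ^ 2 ≤ (2 * Real.pi * err N a) * ((4 / 9) * (Real.pi / (-α))) := by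
    have h3 : (2 * Real.pi * ‖F 0‖) ^ 2 ≤ (∫ y, f y * g y) ^ 2 :=
      pow_le_pow_left₀ (by positivity) hle 2
    refine h3.trans (hcs.trans ?_)
    rw [hfe]
    have h4 : 0 ≤ 2 * Real.pi * err N a := by
      rw [← hfe]
      exact integral_nonneg fun y => sq_nonneg _
    exact mul_le_mul_of_nonneg_left hge h4
  have herr : 0 ≤ err N a := by
    have h4 : 0 ≤ 2 * Real.pi * err N a := by
      rw [← hfe]
      exact integral_nonneg fun y => sq_nonneg _
    exact nonneg_of_mul_nonneg_right h4 (by positivity)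
  rw [hF0] at hfin
  have hαp : 0 < -α := by linarith
  have e3 : s0.re - 1 / 2 = -α := by rw [hα]; ring
  rw [e3]
  have h5 : (2 * Real.pi * (‖GLow N a s0‖ / ‖s0 + 1‖)) ^ 2 =
      4 * Real.pi ^ 2 * (‖GLow N a s0‖ ^ 2 / ‖s0 + 1‖ ^ 2) := by
    rw [mul_pow, div_pow]
    ring
  have h6 : (2 * Real.pi * err N a) * ((4 / 9) * (Real.pi / (-α))) =
      (8 / 9) * Real.pi ^ 2 * (err N a / (-α)) := by
    field_simp
    ring
  rw [h5, h6] at hfin
  have hpi : 0 < Real.pi ^ 2 := by positivity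
  have h7 : ‖GLow N a s0‖ ^ 2 / ‖s0 + 1‖ ^ 2 ≤ err N a / (-α) := by
    have h8 : 0 ≤ err N a / (-α) := by positivity
    have h9 : Real.pi ^ 2 * (4 * (‖GLow N a s0‖ ^ 2 / ‖s0 + 1‖ ^ 2)) ≤
        Real.pi ^ 2 * ((8 / 9) * (err N a / (-α))) := by linarith
    have h10 := le_of_mul_le_mul_left h9 hpi
    linarith
  rw [div_le_div_iff₀ (by positivity) hαp] at h7
  linarith

theorem low1 (h : S_int) (hs : S_shift) : S_low1 := by
  intro ρ hρ hre
  have hρ1 : ρ ≠ 1 := by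
    rintro rfl
    exact riemannZeta_one_ne_zero hρ
  have hρ0 : ρ ≠ 0 := ne_zero_of_re (by linarith)
  have hZ : Zs ρ = 0 := by rw [← Zs_eq hρ1, hρ, mul_zero]
  have hG : ∀ (N : ℕ) (a : ℕ → ℂ), GLow N a ρ = (ρ - 1) / ρ ^ 2 := by
    intro N a
    unfold GLow
    rw [hZ, zero_mul, sub_zero]
  have hg : 0 < ‖(ρ - 1) / ρ ^ 2‖ := by
    rw [norm_pos_iff]
    exact div_ne_zero (sub_ne_zero.mpr hρ1) (pow_ne_zero 2 hρ0)
  have hs1 : 0 < ‖ρ + 1‖ := by
    rw [norm_pos_iff]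
    refine ne_zero_of_re ?_
    simp only [add_re, one_re]
    linarith
  refine ⟨‖(ρ - 1) / ρ ^ 2‖ ^ 2 * (ρ.re - 1 / 2) / ‖ρ + 1‖ ^ 2, ?_, fun N a => ?_⟩
  · have : 0 < ρ.re - 1 / 2 := by linarith
    positivity
  · have h1 := cau h hs N a hre
    rw [hG] at h1
    rw [div_le_iff₀ (by positivity)]
    linarith

end Pool.Agent.N967
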