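import Mathlib
import Pool.Agent.N967.Stm2

set_option autoImplicit false

/-!
# High moments of Dirichlet polynomials over the primes
-/

namespace Pool.Agent.N967.MomAux

open Complex MeasureTheory FourierTransform Filter
open scoped SchwartzMap ContDiff

/-- the sum of translates of a function, as a Schwartz function -/
theorem fourier_translates {ι : Type} (s : Finset ι) (a : ι → ℂ) (μ : ι → ℝ) (φ : ℝ → ℝ)
    (hc : Continuous φ) (hs : HasCompactSupport φ) (ξ : ℝ) :
    𝓕 (fun x : ℝ => ∑ i ∈ s, a i * ((φ (x - μ i) : ℝ) : ℂ)) ξ =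
      (∑ i ∈ s, a i * Complex.exp (((-2 * Real.pi * μ i * ξ : ℝ) : ℂ) * I)) *
        𝓕 (fun x : ℝ => ((φ x : ℝ) : ℂ)) ξ := by
  have hint : ∀ m : ℝ, Integrable (fun x : ℝ =>
      Complex.exp (((-2 * Real.pi * x * ξ : ℝ) : ℂ) * I) * ((φ (x - m) : ℝ) : ℂ)) := by
    intro m
    apply Continuous.integrable_of_hasCompactSupport
    · fun_prop
    · have h1 : HasCompactSupport (fun x : ℝ => φ (x - m)) := by
        have := hs.comp_homeomorph (Homeomorph.addRight (-m))
        simpa [Function.comp_def, sub_eq_add_neg] using this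
      have h2 : HasCompactSupport (fun x : ℝ => ((φ (x - m) : ℝ) : ℂ)) :=
        h1.comp_left (g := fun r : ℝ => (r : ℂ)) (by simp)
      exact h2.mul_left
  rw [Real.fourier_real_eq_integral_exp_smul, Real.fourier_real_eq_integral_exp_smul]
  simp only [smul_eq_mul]
  have h1 : ∀ x : ℝ, Complex.exp (((-2 * Real.pi * x * ξ : ℝ) : ℂ) * I) *
      ∑ i ∈ s, a i * ((φ (x - μ i) : ℝ) : ℂ) =
      ∑ i ∈ s, a i * (Complex.exp (((-2 * Real.pi * x * ξ : ℝ) : ℂ) * I) *
        ((φ (x - μ i) : ℝ) : ℂ)) := by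
    intro x
    rw [Finset.mul_sum]
    refine Finset.sum_congr rfl fun i _ => ?_
    ring
  simp_rw [h1]
  rw [integral_finsetSum _ (fun i _ => (hint (μ i)).const_mul (a i)), Finset.sum_mul]
  refine Finset.sum_congr rfl fun i _ => ?_
  rw [integral_const_mul]
  have h2 : ∫ x : ℝ, Complex.exp (((-2 * Real.pi * x * ξ : ℝ) : ℂ) * I) *
      ((φ (x - μ i) : ℝ) : ℂ) =
      ∫ x : ℝ, Complex.exp (((-2 * Real.pi * (x + μ i) * ξ : ℝ) : ℂ) * I) *
      ((φ x : ℝ) : ℂ) := by
    rw [← integral_add_right_eq_self (fun x : ℝ =>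
      Complex.exp (((-2 * Real.pi * x * ξ : ℝ) : ℂ) * I) * ((φ (x - μ i) : ℝ) : ℂ)) (μ i)]
    congr 1
    ext x
    rw [add_sub_cancel_right]
  rw [h2, mul_assoc]
  congr 1
  rw [← integral_const_mul]
  apply integral_congr_ae
  filter_upwards with x
  rw [← mul_assoc, ← Complex.exp_add]
  congr 2
  push_cast
  ring

/-- mean square of an exponential sum with frequencies separated by `1` -/
theorem sep : ∃ C : ℝ, 0 < C ∧ ∀ {ι : Type} (s : Finset ι) (a : ι → ℂ) (l : ι → ℝ),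
    (∀ i ∈ s, ∀ j ∈ s, i ≠ j → 1 ≤ |l i - l j|) →
    ∫ t in (-1 : ℝ)..1, ‖∑ i ∈ s, a i * Complex.exp (((l i * t : ℝ) : ℂ) * I)‖ ^ 2 ≤
      C * ∑ i ∈ s, ‖a i‖ ^ 2 := by
  classical
  have hpi := Real.pi_pos
  let f : ContDiffBump (0 : ℝ) := ⟨1 / 4, 1 / 2, by norm_num, by norm_num⟩
  have hfc : Continuous (f : ℝ → ℝ) := f.continuous
  have hfs : HasCompactSupport (f : ℝ → ℝ) := f.hasCompactSupport
  have hfd : ContDiff ℝ ∞ (f : ℝ → ℝ) := f.contDiff
  have hsupp : ∀ x : ℝ, 1 / 2 ≤ |x| → f x = 0 := by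
    intro x hx
    apply f.zero_of_le_dist
    rw [dist_zero_right, Real.norm_eq_abs]
    exact hx
  have hfi : Integrable (f : ℝ → ℝ) := hfc.integrable_of_hasCompactSupport hfs
  have hI0 : 0 < ∫ x, f x := f.integral_pos
  set A : ℝ := ∫ x, f x with hA
  set B : ℝ := ∫ x, (f x) ^ 2 with hB
  have hB0 : 0 ≤ B := integral_nonneg fun x => sq_nonneg _
  have hcos : 0 < Real.cos (1 / 2) := Real.cos_pos_of_mem_Ioo ⟨by linarith, by linarith [Real.pi_gt_three]⟩
  -- lower bound for the transform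
  have hlow : ∀ ξ : ℝ, |ξ| ≤ 1 / (2 * Real.pi) → Real.cos (1 / 2) * A ≤
      ‖𝓕 (fun x : ℝ => ((f x : ℝ) : ℂ)) ξ‖ := by
    intro ξ hξ
    refine le_trans ?_ (Complex.re_le_norm _)
    rw [Real.fourier_real_eq_integral_exp_smul]
    simp only [smul_eq_mul]
    have hint : Integrable (fun x : ℝ =>
        Complex.exp (((-2 * Real.pi * x * ξ : ℝ) : ℂ) * I) * ((f x : ℝ) : ℂ)) := by
      apply Continuous.integrable_of_hasCompactSupport
      · fun_prop
      · have h2 : HasCompactSupport (fun x : ℝ => ((f x : ℝ) : ℂ)) :=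
          hfs.comp_left (g := fun r : ℝ => (r : ℂ)) (by simp)
        exact h2.mul_left
    have h1 : (∫ x : ℝ, Complex.exp (((-2 * Real.pi * x * ξ : ℝ) : ℂ) * I) * ((f x : ℝ) : ℂ)).re =
        ∫ x : ℝ, Real.cos (2 * Real.pi * x * ξ) * f x := by
      have := integral_re hint
      simp only [RCLike.re_to_complex] at this
      rw [← this]
      congr 1
      ext x
      rw [Complex.re_mul_ofReal, Complex.exp_ofReal_mul_I_re]
      congr 1
      rw [← Real.cos_neg]
      congr 1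
      ring
    rw [h1, hA, ← integral_const_mul]
    apply integral_mono (hfi.const_mul _)
    · apply Continuous.integrable_of_hasCompactSupport
      · fun_prop
      · exact hfs.mul_left
    · intro x
      simp only
      by_cases hx : 1 / 2 ≤ |x|
      · rw [hsupp x hx]; simp
      · push Not at hx
        apply mul_le_mul_of_nonneg_right _ f.nonneg
        have h3 : |2 * Real.pi * x * ξ| ≤ 1 / 2 := by
          rw [abs_mul, abs_mul, abs_of_pos (by positivity)]
          calc 2 * Real.pi * |x| * |ξ| ≤ 2 * Real.pi * (1 / 2) * (1 / (2 * Real.pi)) := by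
                apply mul_le_mul _ hξ (abs_nonneg _) (by positivity)
                apply mul_le_mul_of_nonneg_left hx.le (by positivity)
            _ = 1 / 2 := by field_simp
        rw [← Real.cos_abs (2 * Real.pi * x * ξ)]
        apply Real.cos_le_cos_of_nonneg_of_le_pi (abs_nonneg _) (by linarith [Real.pi_gt_three]) h3
  have hc0 : 0 < Real.cos (1 / 2) * A := mul_pos hcos hI0
  refine ⟨2 * Real.pi * (B + 1) / (Real.cos (1 / 2) * A) ^ 2, by positivity, ?_⟩
  intro ι s a l hl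
  -- the Schwartz function
  set G : ℝ → ℂ := fun x => ∑ i ∈ s, a i * ((f (x - -l i) : ℝ) : ℂ) with hG
  have hGd : ContDiff ℝ ∞ G := by
    rw [hG]
    apply ContDiff.sum
    intro i _
    apply ContDiff.mul contDiff_const
    exact Complex.ofRealCLM.contDiff.comp (hfd.comp (contDiff_id.sub contDiff_const))
  have hGs : HasCompactSupport G := by
    have : ∀ t : Finset ι, HasCompactSupport (fun x => ∑ i ∈ t, a i * ((f (x - -l i) : ℝ) : ℂ)) := by
      intro t
      induction t using Finset.induction_on with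
      | empty =>
        simp only [Finset.sum_empty]
        exact HasCompactSupport.zero
      | insert j t hj ih =>
        simp_rw [Finset.sum_insert hj]
        apply HasCompactSupport.add _ ih
        have h1 : HasCompactSupport (fun x : ℝ => f (x - -l j)) := by
          have := hfs.comp_homeomorph (Homeomorph.addRight (l j))
          simpa [Function.comp_def, sub_eq_add_neg] using this
        have h2 : HasCompactSupport (fun x : ℝ => ((f (x - -l j) : ℝ) : ℂ)) :=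
          h1.comp_left (g := fun r : ℝ => (r : ℂ)) (by simp)
        exact h2.mul_left
    exact this s
  set g : 𝓢(ℝ, ℂ) := hGs.toSchwartzMap hGd with hg
  have hP := SchwartzMap.integral_norm_sq_fourier g
  have hgG : ∀ x, g x = G x := fun x => rfl
  have hF : ∀ ξ : ℝ, (𝓕 g) ξ = (∑ i ∈ s, a i * Complex.exp (((2 * Real.pi * l i * ξ : ℝ) : ℂ) * I)) *
      𝓕 (fun x : ℝ => ((f x : ℝ) : ℂ)) ξ := by
    intro ξ
    rw [SchwartzMap.fourier_coe]
    have := fourier_translates s a (fun i => -l i) f hfc hfs ξ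
    have e : (g : ℝ → ℂ) = G := by
      ext x; rfl
    rw [e, hG, this]
    congr 1
    refine Finset.sum_congr rfl fun i _ => ?_
    congr 3
    push_cast
    ring
  -- the norm of `G`
  have hGn : ∫ x, ‖g x‖ ^ 2 = (∑ i ∈ s, ‖a i‖ ^ 2) * B := by
    have h1 : ∀ x, ‖G x‖ ^ 2 = ∑ i ∈ s, ‖a i‖ ^ 2 * (f (x - -l i)) ^ 2 := by
      intro x
      by_cases hx : ∃ i ∈ s, |x - -l i| < 1 / 2
      · obtain ⟨i, hi, hxi⟩ := hx
        have h2 : ∀ j ∈ s, j ≠ i → f (x - -l j) = 0 := by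
          intro j hj hji
          apply hsupp
          have h3 := hl j hj i hi hji
          by_contra hc
          push Not at hc
          have h4 : |l j - l i| ≤ |x - -l j| + |x - -l i| := by
            have : l j - l i = (x - -l j) - (x - -l i) := by ring
            rw [this]
            exact abs_sub _ _
          linarith
        rw [hG]
        simp only
        rw [Finset.sum_eq_single i (fun j hj hji => by rw [h2 j hj hji]; simp)
          (fun h => absurd hi h), Finset.sum_eq_single i (fun j hj hji => by rw [h2 j hj hji]; simp)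
          (fun h => absurd hi h), norm_mul, mul_pow, Complex.norm_real, Real.norm_eq_abs, sq_abs]
      · push Not at hx
        rw [hG]
        simp only
        rw [Finset.sum_eq_zero (fun j hj => by rw [hsupp _ (hx j hj)]; simp),
          Finset.sum_eq_zero (fun j hj => by rw [hsupp _ (hx j hj)]; simp)]
        simp
    have h2 : ∀ x, ‖g x‖ ^ 2 = ∑ i ∈ s, ‖a i‖ ^ 2 * (f (x - -l i)) ^ 2 := fun x => h1 x
    simp_rw [h2]
    have hsqc : Continuous (fun x : ℝ => (f x) ^ 2) := by fun_prop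
    have hsqi : Integrable (fun x : ℝ => (f x) ^ 2) := by
      apply hsqc.integrable_of_hasCompactSupport
      have : HasCompactSupport (fun x : ℝ => f x * f x) := hfs.mul_left
      simpa [sq] using this
    rw [integral_finsetSum _ (fun i _ => (hsqi.comp_sub_right (-l i)).const_mul _), Finset.sum_mul]
    refine Finset.sum_congr rfl fun i _ => ?_
    rw [integral_const_mul]
    congr 1
    exact integral_sub_right_eq_self (fun x => (f x) ^ 2) (-l i)
  -- the comparison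
  set S : ℝ → ℂ := fun t => ∑ i ∈ s, a i * Complex.exp (((l i * t : ℝ) : ℂ) * I) with hS
  have hSc : Continuous S := by
    rw [hS]
    fun_prop
  have hF2 : ∀ ξ : ℝ, (𝓕 g) ξ = S (2 * Real.pi * ξ) * 𝓕 (fun x : ℝ => ((f x : ℝ) : ℂ)) ξ := by
    intro ξ
    rw [hF ξ, hS]
    simp only
    congr 1
    refine Finset.sum_congr rfl fun i _ => ?_
    congr 3
    push_cast
    ring
  have hint : Integrable (fun ξ : ℝ => ‖(𝓕 g) ξ‖ ^ 2) := by
    have h1 := (𝓕 g).memLp 2
    have h2 := h1.integrable_norm_pow (by norm_num)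
    simpa using h2
  have hr : (0 : ℝ) < 1 / (2 * Real.pi) := by positivity
  have h1 : ∫ t in (-1 : ℝ)..1, ‖S t‖ ^ 2 =
      2 * Real.pi * ∫ ξ in (-(1 / (2 * Real.pi)))..(1 / (2 * Real.pi)), ‖S (2 * Real.pi * ξ)‖ ^ 2 := by
    have := intervalIntegral.mul_integral_comp_mul_left (a := -(1 / (2 * Real.pi)))
      (b := 1 / (2 * Real.pi)) (f := fun t => ‖S t‖ ^ 2) (2 * Real.pi)
    rw [this]
    congr 1 <;> field_simp
  have h2 : (Real.cos (1 / 2) * A) ^ 2 * ∫ ξ in (-(1 / (2 * Real.pi)))..(1 / (2 * Real.pi)),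
      ‖S (2 * Real.pi * ξ)‖ ^ 2 ≤ ∫ ξ, ‖(𝓕 g) ξ‖ ^ 2 := by
    rw [← intervalIntegral.integral_const_mul, intervalIntegral.integral_of_le (by linarith)]
    have h5 : ∫ ξ in Set.Ioc (-(1 / (2 * Real.pi))) (1 / (2 * Real.pi)),
        (Real.cos (1 / 2) * A) ^ 2 * ‖S (2 * Real.pi * ξ)‖ ^ 2 ≤
        ∫ ξ in Set.Ioc (-(1 / (2 * Real.pi))) (1 / (2 * Real.pi)), ‖(𝓕 g) ξ‖ ^ 2 := by
          apply setIntegral_mono_on
          · apply Continuous.integrableOn_Ioc
            fun_prop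
          · exact hint.integrableOn
          · exact measurableSet_Ioc
          · intro ξ hξ
            rw [hF2 ξ, norm_mul, mul_pow ‖S (2 * Real.pi * ξ)‖, mul_comm ((Real.cos (1 / 2) * A) ^ 2)]
            apply mul_le_mul_of_nonneg_left _ (by positivity)
            apply pow_le_pow_left₀ hc0.le
            exact hlow ξ (abs_le.2 ⟨hξ.1.le, hξ.2⟩)
    refine h5.trans ?_
    apply setIntegral_le_integral hint
    exact Filter.Eventually.of_forall fun ξ => by positivity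
  rw [hP, hGn] at h2
  rw [h1]
  have h3 : 0 ≤ ∑ i ∈ s, ‖a i‖ ^ 2 := Finset.sum_nonneg fun i _ => by positivity
  have h4 : ∫ ξ in (-(1 / (2 * Real.pi)))..(1 / (2 * Real.pi)), ‖S (2 * Real.pi * ξ)‖ ^ 2 ≤
      (∑ i ∈ s, ‖a i‖ ^ 2) * B / (Real.cos (1 / 2) * A) ^ 2 := by
    rw [le_div_iff₀ (by positivity)]
    linarith
  calc 2 * Real.pi * ∫ ξ in (-(1 / (2 * Real.pi)))..(1 / (2 * Real.pi)), ‖S (2 * Real.pi * ξ)‖ ^ 2
      ≤ 2 * Real.pi * ((∑ i ∈ s, ‖a i‖ ^ 2) * B / (Real.cos (1 / 2) * A) ^ 2) :=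
        mul_le_mul_of_nonneg_left h4 (by positivity)
    _ ≤ 2 * Real.pi * ((∑ i ∈ s, ‖a i‖ ^ 2) * (B + 1) / (Real.cos (1 / 2) * A) ^ 2) := by
        gcongr
        linarith
    _ = _ := by ring

theorem log_sep {N n m : ℕ} (hn : n ∈ Finset.Icc 1 N) (hm : m ∈ Finset.Icc 1 N) (h : n < m) :
    1 / (N : ℝ) ≤ Real.log m - Real.log n := by
  rw [Finset.mem_Icc] at hn hm
  have hn0 : (0 : ℝ) < n := by exact_mod_cast hn.1
  have hm0 : (0 : ℝ) < m := by exact_mod_cast hm.1
  have h1 := Real.one_sub_inv_le_log_of_pos (div_pos hm0 hn0)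
  rw [Real.log_div hm0.ne' hn0.ne'] at h1
  refine le_trans ?_ h1
  rw [inv_div]
  have h2 : (n : ℝ) + 1 ≤ m := by exact_mod_cast h
  have h3 : (m : ℝ) ≤ N := by exact_mod_cast hm.2
  have h4 : 1 - (n : ℝ) / m = (m - n) / m := by field_simp
  rw [h4]
  calc 1 / (N : ℝ) ≤ 1 / m := one_div_le_one_div_of_le hm0 h3
    _ ≤ (m - n) / m := by
        apply div_le_div_of_nonneg_right _ hm0.le
        linarith

/-- the mean value theorem without logarithm for `N ≤ T` -/
theorem mv : ∃ C : ℝ, 0 < C ∧ ∀ (N : ℕ) (a : ℕ → ℂ) (T : ℝ), 1 ≤ T → (N : ℝ) ≤ T →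
    ∫ t in (-T)..T, ‖∑ n ∈ Finset.Icc 1 N, a n * (n : ℂ) ^ (-(t : ℂ) * I)‖ ^ 2 ≤
      C * T * ∑ n ∈ Finset.Icc 1 N, ‖a n‖ ^ 2 := by
  obtain ⟨C, hC, h⟩ := sep
  refine ⟨C, hC, ?_⟩
  intro N a T hT hN
  have h1 := h (Finset.Icc 1 N) a (fun n => -T * Real.log n) (by
    have key : ∀ n ∈ Finset.Icc 1 N, ∀ m ∈ Finset.Icc 1 N, n < m →
        1 ≤ |(-T * Real.log n) - (-T * Real.log m)| := by
      intro n hn m hm hnm
      have h2 := log_sep hn hm hnm
      have hN0 : (0 : ℝ) < N := by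
        rw [Finset.mem_Icc] at hn
        have : 0 < N := by omega
        exact_mod_cast this
      rw [div_le_iff₀ hN0] at h2
      refine le_trans ?_ (le_abs_self _)
      nlinarith
    intro n hn m hm hnm
    rcases lt_or_gt_of_ne hnm with h3 | h3
    · exact key n hn m hm h3
    · have := key m hm n hn h3
      rwa [abs_sub_comm] at this)
  have h2 := intervalIntegral.mul_integral_comp_mul_left (a := -1) (b := 1)
    (f := fun t : ℝ => ‖∑ n ∈ Finset.Icc 1 N, a n * (n : ℂ) ^ (-(t : ℂ) * I)‖ ^ 2) T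
  rw [mul_neg, mul_one] at h2
  rw [← h2]
  have h3 : ∀ t : ℝ, ‖∑ n ∈ Finset.Icc 1 N, a n * (n : ℂ) ^ (-((T * t : ℝ) : ℂ) * I)‖ ^ 2 =
      ‖∑ i ∈ Finset.Icc 1 N, a i * Complex.exp (((-T * Real.log i * t : ℝ) : ℂ) * I)‖ ^ 2 := by
    intro t
    congr 2
    refine Finset.sum_congr rfl fun n hn => ?_
    rw [Finset.mem_Icc] at hn
    have hn0 : (n : ℂ) ≠ 0 := by
      have : n ≠ 0 := by omega
      exact_mod_cast this
    rw [Complex.cpow_def_of_ne_zero hn0, ← Complex.natCast_log]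
    congr 2
    push_cast
    ring
  simp_rw [h3]
  calc T * ∫ t in (-1 : ℝ)..1, ‖∑ i ∈ Finset.Icc 1 N, a i *
        Complex.exp (((-T * Real.log i * t : ℝ) : ℂ) * I)‖ ^ 2
      ≤ T * (C * ∑ i ∈ Finset.Icc 1 N, ‖a i‖ ^ 2) :=
        mul_le_mul_of_nonneg_left h1 (by linarith)
    _ = _ := by ring

/-! ### tuples of primes -/

/-- the primes up to `X` -/
def Pr (X : ℕ) : Finset ℕ := (Finset.range (X + 1)).filter Nat.Prime

/-- tuples of primes with a given product -/
def Fb (X k n : ℕ) : Finset (Fin k → ℕ) :=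
  (Fintype.piFinset (fun _ : Fin k => Pr X)).filter (fun f => ∏ i, f i = n)

/-- unique factorisation -/
theorem perm_of_prod {k : ℕ} {f g : Fin k → ℕ} (hf : ∀ i, (f i).Prime) (hg : ∀ i, (g i).Prime)
    (h : ∏ i, f i = ∏ i, g i) : (List.ofFn g).Perm (List.ofFn f) := by
  have h1 : (List.ofFn f).prod = ∏ i, f i := List.prod_ofFn
  have h2 : (List.ofFn g).prod = ∏ i, g i := List.prod_ofFn
  have h3 : (List.ofFn f).Perm (Nat.primeFactorsList (∏ i, f i)) :=
    Nat.primeFactorsList_unique h1 (by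
      intro p hp
      rw [List.mem_ofFn] at hp
      obtain ⟨i, rfl⟩ := hp
      exact hf i)
  have h4 : (List.ofFn g).Perm (Nat.primeFactorsList (∏ i, g i)) :=
    Nat.primeFactorsList_unique h2 (by
      intro p hp
      rw [List.mem_ofFn] at hp
      obtain ⟨i, rfl⟩ := hp
      exact hg i)
  rw [← h] at h4
  exact h4.trans h3.symm

theorem card_Fb (X k n : ℕ) : (Fb X k n).card ≤ k.factorial := by
  classical
  rcases (Fb X k n).eq_empty_or_nonempty with h | ⟨f, hf⟩
  · rw [h]; simp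
  · have h1 : ∀ g ∈ Fb X k n, List.ofFn g ∈ (List.permutations (List.ofFn f)).toFinset := by
      intro g hg
      rw [List.mem_toFinset, List.mem_permutations]
      rw [Fb, Finset.mem_filter, Fintype.mem_piFinset] at hf hg
      apply perm_of_prod
      · intro i
        exact (Finset.mem_filter.1 (hf.1 i)).2
      · intro i
        exact (Finset.mem_filter.1 (hg.1 i)).2
      · rw [hf.2, hg.2]
    have h2 : (Fb X k n).card ≤ (List.permutations (List.ofFn f)).toFinset.card :=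
      Finset.card_le_card_of_injOn (fun g => List.ofFn g) (fun g hg => h1 g hg)
        (fun g _ g' _ h => List.ofFn_injective h)
    refine h2.trans ((List.toFinset_card_le _).trans ?_)
    rw [List.length_permutations, List.length_ofFn]

theorem prod_cpow {k : ℕ} (f : Fin k → ℕ) (s : ℂ) :
    ∏ i, ((f i : ℕ) : ℂ) ^ s = ((∏ i, f i : ℕ) : ℂ) ^ s := by
  induction k with
  | zero => simp
  | succ k ih =>
    rw [Fin.prod_univ_succ, Fin.prod_univ_succ, ih (fun i => f i.succ), Nat.cast_mul,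
      Complex.natCast_mul_natCast_cpow]

/-- the coefficients of the power -/
noncomputable def Co (c : ℕ → ℝ) (X k n : ℕ) : ℝ := ∑ f ∈ Fb X k n, ∏ i, c (f i)

theorem prod_mem {X k : ℕ} {f : Fin k → ℕ} (hf : f ∈ Fintype.piFinset (fun _ : Fin k => Pr X)) :
    ∏ i, f i ∈ Finset.Icc 1 (X ^ k) := by
  rw [Fintype.mem_piFinset] at hf
  have h1 : ∀ i, 1 ≤ f i ∧ f i ≤ X := by
    intro i
    have := hf i
    rw [Pr, Finset.mem_filter, Finset.mem_range] at this
    exact ⟨this.2.one_lt.le, by omega⟩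
  rw [Finset.mem_Icc]
  constructor
  · exact Finset.one_le_prod' (fun i _ => (h1 i).1)
  · calc ∏ i, f i ≤ ∏ _i : Fin k, X := Finset.prod_le_prod' (fun i _ => (h1 i).2)
      _ = X ^ k := by simp

theorem pow_eq (c : ℕ → ℝ) (X k : ℕ) (t : ℝ) :
    (∑ p ∈ Pr X, ((c p : ℝ) : ℂ) * (p : ℂ) ^ (-(t : ℂ) * I)) ^ k =
      ∑ n ∈ Finset.Icc 1 (X ^ k), ((Co c X k n : ℝ) : ℂ) * (n : ℂ) ^ (-(t : ℂ) * I) := by
  classical
  have h1 : (∑ p ∈ Pr X, ((c p : ℝ) : ℂ) * (p : ℂ) ^ (-(t : ℂ) * I)) ^ k =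
      ∑ f ∈ Fintype.piFinset (fun _ : Fin k => Pr X),
        ∏ i, (((c (f i) : ℝ) : ℂ) * ((f i : ℕ) : ℂ) ^ (-(t : ℂ) * I)) := by
    rw [← Finset.prod_univ_sum (fun _ : Fin k => Pr X)
      (fun _ p => ((c p : ℝ) : ℂ) * (p : ℂ) ^ (-(t : ℂ) * I))]
    simp
  rw [h1, ← Finset.sum_fiberwise_of_maps_to (g := fun f : Fin k → ℕ => ∏ i, f i)
    (t := Finset.Icc 1 (X ^ k)) (fun f hf => prod_mem hf)]
  refine Finset.sum_congr rfl fun n hn => ?_
  unfold Co Fb
  push_cast
  rw [Finset.sum_mul]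
  refine Finset.sum_congr rfl fun f hf => ?_
  rw [Finset.mem_filter] at hf
  rw [Finset.prod_mul_distrib, prod_cpow, hf.2]

theorem sum_Co (c : ℕ → ℝ) (X k : ℕ) :
    ∑ n ∈ Finset.Icc 1 (X ^ k), ‖((Co c X k n : ℝ) : ℂ)‖ ^ 2 ≤
      k.factorial * (∑ p ∈ Pr X, c p ^ 2) ^ k := by
  classical
  have h1 : ∀ n, ‖((Co c X k n : ℝ) : ℂ)‖ ^ 2 ≤
      k.factorial * ∑ f ∈ Fb X k n, ∏ i, c (f i) ^ 2 := by
    intro n
    rw [Complex.norm_real, Real.norm_eq_abs, sq_abs]
    unfold Co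
    have h2 := sq_sum_le_card_mul_sum_sq (s := Fb X k n) (f := fun f => ∏ i, c (f i))
    refine h2.trans ?_
    simp_rw [← Finset.prod_pow]
    apply mul_le_mul_of_nonneg_right _ (Finset.sum_nonneg fun f _ =>
      Finset.prod_nonneg fun i _ => sq_nonneg _)
    exact_mod_cast card_Fb X k n
  calc ∑ n ∈ Finset.Icc 1 (X ^ k), ‖((Co c X k n : ℝ) : ℂ)‖ ^ 2
      ≤ ∑ n ∈ Finset.Icc 1 (X ^ k), (k.factorial : ℝ) * ∑ f ∈ Fb X k n, ∏ i, c (f i) ^ 2 :=
        Finset.sum_le_sum fun n _ => h1 n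
    _ = k.factorial * ∑ f ∈ Fintype.piFinset (fun _ : Fin k => Pr X), ∏ i, c (f i) ^ 2 := by
        rw [← Finset.mul_sum, ← Finset.sum_fiberwise_of_maps_to
          (g := fun f : Fin k → ℕ => ∏ i, f i) (t := Finset.Icc 1 (X ^ k))
          (fun f hf => prod_mem hf)]
        rfl
    _ = _ := by
        rw [← Finset.prod_univ_sum (fun _ : Fin k => Pr X) (fun _ p => c p ^ 2)]
        simp

theorem main : ∃ C : ℝ, 0 < C ∧ ∀ (X k : ℕ) (c : ℕ → ℝ) (T : ℝ), 1 ≤ T → (X : ℝ) ^ k ≤ T →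
  ∫ t in (-T)..T, ‖∑ p ∈ (Finset.range (X + 1)).filter Nat.Prime,
      ((c p : ℝ) : ℂ) * (p : ℂ) ^ (-(t : ℂ) * I)‖ ^ (2 * k) ≤
    C * T * k.factorial * (∑ p ∈ (Finset.range (X + 1)).filter Nat.Prime, c p ^ 2) ^ k := by
  obtain ⟨C, hC, h⟩ := mv
  refine ⟨C, hC, ?_⟩
  intro X k c T hT hX
  have h1 := h (X ^ k) (fun n => ((Co c X k n : ℝ) : ℂ)) T hT (by exact_mod_cast hX)
  have h2 : ∀ t : ℝ, ‖∑ p ∈ (Finset.range (X + 1)).filter Nat.Prime,
      ((c p : ℝ) : ℂ) * (p : ℂ) ^ (-(t : ℂ) * I)‖ ^ (2 * k) =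
      ‖∑ n ∈ Finset.Icc 1 (X ^ k), ((Co c X k n : ℝ) : ℂ) * (n : ℂ) ^ (-(t : ℂ) * I)‖ ^ 2 := by
    intro t
    rw [← pow_eq, norm_pow, ← pow_mul, mul_comm 2 k]
    rfl
  simp_rw [h2]
  refine h1.trans ?_
  rw [mul_assoc (C * T)]
  exact mul_le_mul_of_nonneg_left (sum_Co c X k) (by positivity)

end Pool.Agent.N967.MomAux

namespace Pool.Agent.N967

theorem mom : S_mom := MomAux.main

end Pool.Agent.N967
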