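import Pool.Agent.N967.Stm3
import Pool.Agent.N967.LowA

set_option autoImplicit false

/-!
# Baez-Duarte's distance: the inverse Laplace transform of the error
-/

namespace Pool.Agent.N967.JjAux

open Complex MeasureTheory Filter Topology Set FourierTransform
open Pool.Agent.H295R2
open Pool.Agent.Y23 (IsZ mu)

/-- the decay -/
noncomputable def dc (y : ℝ) : ℝ := (1 + |y|) ^ (-(2 : ℝ))

lemma dc_eq (y : ℝ) : dc y = ((1 + |y|) ^ 2)⁻¹ := by
  have h : 0 < 1 + |y| := by positivity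
  rw [dc, Real.rpow_neg h.le]
  norm_num

lemma dc_pos (y : ℝ) : 0 < dc y := by
  rw [dc_eq]; positivity

lemma dc_int : Integrable dc := by
  exact integrable_one_add_norm (E := ℝ) (μ := volume) (r := 2) (by simp)

lemma dc_le_one (y : ℝ) : dc y ≤ 1 := by
  rw [dc_eq]
  apply inv_le_one_of_one_le₀
  have : 1 ≤ 1 + |y| := by linarith [abs_nonneg y]
  exact one_le_pow₀ this

lemma dc_sq_int : Integrable (fun y => dc y ^ 2) := by
  refine dc_int.mono' ?_ (Eventually.of_forall fun y => ?_)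
  · exact (dc_int.aestronglyMeasurable).pow 2
  · rw [Real.norm_of_nonneg (sq_nonneg _), sq]
    exact mul_le_of_le_one_right (dc_pos y).le (dc_le_one y)

lemma ne_zero_of_re {s : ℂ} (hs : 0 < s.re) : s ≠ 0 := by
  rintro rfl
  simp at hs

/-! ### shift of lines -/

lemma line_cont {H : ℂ → ℂ} {a : ℝ} (hd : ∀ z : ℂ, z.re = a → DifferentiableAt ℂ H z) :
    Continuous fun y : ℝ => H (a + y * I) := by
  rw [continuous_iff_continuousAt]
  intro y
  have h1 : ContinuousAt H ((a : ℂ) + y * I) := (hd _ (by simp)).continuousAt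
  exact ContinuousAt.comp (f := fun y : ℝ => (a : ℂ) + y * I) h1 (by fun_prop)

lemma line_int {H : ℂ → ℂ} {a B : ℝ} (hd : ∀ z : ℂ, z.re = a → DifferentiableAt ℂ H z)
    (hB : ∀ z : ℂ, z.re = a → ‖H z‖ ≤ B * dc z.im) :
    Integrable fun y : ℝ => H (a + y * I) := by
  refine (dc_int.const_mul B).mono' (line_cont hd).aestronglyMeasurable
    (Eventually.of_forall fun y => ?_)
  have := hB (a + y * I) (by simp)
  simpa using this

lemma shiftH (hs : S_shift) {H : ℂ → ℂ} {a b B : ℝ} (hab : a < b) (hB0 : 0 ≤ B)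
    (hd : ∀ z : ℂ, a ≤ z.re → z.re ≤ b → DifferentiableAt ℂ H z)
    (hB : ∀ z : ℂ, a ≤ z.re → z.re ≤ b → ‖H z‖ ≤ B * dc z.im) :
    ∫ y : ℝ, H (b + y * I) = ∫ y : ℝ, H (a + y * I) := by
  set m : ℝ := (a + b) / 2 with hm
  have h1 := hs (fun z => z * H (z + m)) (a - m) (b - m) ((1 + (b - a)) * B) (by linarith)
    (by linarith) ?_ ?_
  · have e : ∀ c : ℝ, c - m ≠ 0 → ∫ y : ℝ, (((c - m : ℝ) : ℂ) + y * I) *
        H ((((c - m : ℝ) : ℂ) + y * I) + m) / (((c - m : ℝ) : ℂ) + y * I) =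
        ∫ y : ℝ, H (c + y * I) := by
      intro c hc
      refine integral_congr_ae (Eventually.of_forall fun y => ?_)
      have h2 : (((c - m : ℝ) : ℂ) + y * I) ≠ 0 := by
        intro h
        have := congrArg Complex.re h
        simp at this
        exact hc (by linarith)
      simp only
      rw [mul_div_assoc, mul_div_cancel₀ _ h2]
      congr 1
      push_cast
      ring
    rw [e b (by intro h; linarith), e a (by intro h; linarith)] at h1
    simp only [zero_mul, mul_zero] at h1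
    exact sub_eq_zero.1 h1
  · intro z hz1 hz2
    have h2 : DifferentiableAt ℂ H (z + m) := by
      refine hd _ ?_ ?_
      · simp; linarith
      · simp; linarith
    have h3 : DifferentiableAt ℂ (fun z : ℂ => H (z + m)) z :=
      DifferentiableAt.comp (g := H) (f := fun z : ℂ => z + m) z h2 (by fun_prop)
    exact differentiableAt_id.mul h3
  · intro z hz1 hz2
    have h2 := hB (z + m) (by simp; linarith) (by simp; linarith)
    have h3 : ‖z‖ ≤ (1 + (b - a)) * (1 + |z.im|) := by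
      have h4 := Complex.norm_le_abs_re_add_abs_im z
      have h5 : |z.re| ≤ b - a := by
        rw [abs_le]
        constructor <;> linarith
      nlinarith [abs_nonneg z.im]
    have h6 : 0 < 1 + |z.im| := by positivity
    have h7 : (z + m).im = z.im := by simp
    rw [h7, dc_eq] at h2
    rw [norm_mul]
    calc ‖z‖ * ‖H (z + m)‖ ≤ ((1 + (b - a)) * (1 + |z.im|)) * (B * ((1 + |z.im|) ^ 2)⁻¹) := by
          gcongr
      _ = ((1 + (b - a)) * B) * (1 + |z.im|)⁻¹ := by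
          field_simp
      _ ≤ _ := by
          have h8 : (1 + |z.im|)⁻¹ ≤ (1 + |z.im|) ^ (-(1 / 2 : ℝ)) := by
            rw [← Real.rpow_neg_one]
            exact Real.rpow_le_rpow_of_exponent_le (by linarith [abs_nonneg z.im]) (by norm_num)
          have : 0 ≤ (1 + (b - a)) * B := by
            apply mul_nonneg _ hB0
            linarith
          gcongr

lemma shift_top (hs : S_shift) {H : ℂ → ℂ} {a B : ℝ} (hB0 : 0 ≤ B)
    (hd : ∀ z : ℂ, a ≤ z.re → DifferentiableAt ℂ H z)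
    (hB : ∀ z : ℂ, a ≤ z.re → ‖H z‖ ≤ B * dc z.im)
    (hlim : ∀ y : ℝ, Tendsto (fun b : ℝ => H (b + y * I)) atTop (𝓝 0)) :
    ∫ y : ℝ, H (a + y * I) = 0 := by
  have h1 : ∀ b : ℝ, a < b → ∫ y : ℝ, H (b + y * I) = ∫ y : ℝ, H (a + y * I) := fun b hb =>
    shiftH hs hb hB0 (fun z h _ => hd z h) (fun z h _ => hB z h)
  have h2 : Tendsto (fun b : ℝ => ∫ y : ℝ, H (b + y * I)) atTop (𝓝 (∫ _y : ℝ, (0 : ℂ))) := by
    refine tendsto_integral_filter_of_dominated_convergence (fun y => B * dc y) ?_ ?_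
      (dc_int.const_mul B) (Eventually.of_forall hlim)
    · filter_upwards [eventually_ge_atTop a] with b hb
      exact (line_cont fun z hz => hd z (by rw [hz]; exact hb)).aestronglyMeasurable
    · filter_upwards [eventually_ge_atTop a] with b hb
      refine Eventually.of_forall fun y => ?_
      have := hB (b + y * I) (by simpa using hb)
      simpa using this
  rw [integral_zero] at h2
  refine tendsto_nhds_unique ?_ h2
  refine tendsto_const_nhds.congr' ?_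
  filter_upwards [eventually_gt_atTop a] with b hb
  exact (h1 b hb).symm

/-! ### the error -/

/-- `(1 - ζ(s) A(s)) (s - 1) / s²` -/
noncomputable def G0 (N : ℕ) (a : ℕ → ℂ) (s : ℂ) : ℂ := ((s - 1) - Zs s * DP N a s) / s ^ 2

lemma G0_diff (N : ℕ) (a : ℕ → ℂ) {s : ℂ} (hs : 0 < s.re) : DifferentiableAt ℂ (G0 N a) s := by
  unfold G0
  have h1 : DifferentiableAt ℂ Zs s := Zs_differentiable s
  have h2 : DifferentiableAt ℂ (DP N a) s := DP_differentiable N a s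
  refine DifferentiableAt.div (by fun_prop) (by fun_prop) ?_
  exact pow_ne_zero 2 (ne_zero_of_re hs)

lemma G0_line (N : ℕ) (a : ℕ → ℂ) (t : ℝ) : ‖G0 N a (1 / 2 + t * I)‖ ^ 2 = ig N a t := by
  unfold G0 ig
  have h1 := Zs_eq (half_ne_one t)
  have h2 : (1 / 2 + (t : ℂ) * I) - 1 - Zs (1 / 2 + t * I) * DP N a (1 / 2 + t * I) =
      ((1 / 2 + (t : ℂ) * I) - 1) * (1 - riemannZeta (1 / 2 + t * I) * DP N a (1 / 2 + t * I)) := by
    rw [← h1]
    ring
  have hp : (0:ℝ) < 1 / 4 + t ^ 2 := by positivity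
  rw [h2, norm_div, norm_mul, norm_pow, div_pow, mul_pow, norm_half_sub_sq, norm_half_sq]
  field_simp

lemma G0_bound (N : ℕ) (a : ℕ → ℂ) : ∃ B : ℝ, 0 ≤ B ∧ ∀ s : ℂ, 1 / 4 ≤ s.re → ‖G0 N a s‖ ≤ B := by
  set M := ∑ n ∈ Finset.Icc 1 N, ‖a n‖ with hM
  have hM0 : 0 ≤ M := Finset.sum_nonneg fun n _ => norm_nonneg _
  refine ⟨20 + 125 * M, by positivity, fun s hs => ?_⟩
  have h1 : 1 / 4 ≤ ‖s‖ := by
    have := (le_abs_self _).trans (Complex.abs_re_le_norm s)
    linarith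
  have h2 := Zs_norm_le hs
  have h3 : ‖DP N a s‖ ≤ M := DP_norm_le N a (by linarith)
  have h4 : ‖s - 1‖ ≤ ‖s‖ + 1 := by
    have := norm_sub_le s 1
    rwa [norm_one] at this
  have h5 : 0 < ‖s‖ ^ 2 := by positivity
  unfold G0
  rw [norm_div, norm_pow, div_le_iff₀ h5]
  have h6 : ‖s‖ + 1 ≤ 20 * ‖s‖ ^ 2 := by nlinarith
  have h7 : (‖s‖ + 1) ^ 2 ≤ 25 * ‖s‖ ^ 2 := by nlinarith
  calc ‖s - 1 - Zs s * DP N a s‖ ≤ ‖s - 1‖ + ‖Zs s * DP N a s‖ := norm_sub_le _ _
    _ = ‖s - 1‖ + ‖Zs s‖ * ‖DP N a s‖ := by rw [norm_mul]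
    _ ≤ (‖s‖ + 1) + (5 * (‖s‖ + 1) ^ 2) * M := by gcongr
    _ ≤ 20 * ‖s‖ ^ 2 + (5 * (25 * ‖s‖ ^ 2)) * M := by gcongr
    _ = _ := by ring

/-! ### the weight -/

lemma gw_den {c0 : ℝ} (hc : 1 ≤ c0) {s : ℂ} (hs : 1 / 4 ≤ s.re) :
    (1 + |s.im|) / 4 ≤ ‖(c0 : ℂ) + (s - 1 / 2)‖ := by
  have h1 := (le_abs_self _).trans (Complex.abs_re_le_norm ((c0 : ℂ) + (s - 1 / 2)))
  have h2 := Complex.abs_im_le_norm ((c0 : ℂ) + (s - 1 / 2))
  have h3 : ((c0 : ℂ) + (s - 1 / 2)).re = c0 + (s.re - 1 / 2) := by simp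
  have h4 : ((c0 : ℂ) + (s - 1 / 2)).im = s.im := by simp
  rw [h3] at h1
  rw [h4] at h2
  linarith

lemma gw_ne {c0 : ℝ} (hc : 1 ≤ c0) {s : ℂ} (hs : 0 < s.re) : (c0 : ℂ) + (s - 1 / 2) ≠ 0 := by
  refine ne_zero_of_re ?_
  have h3 : ((c0 : ℂ) + (s - 1 / 2)).re = c0 + (s.re - 1 / 2) := by simp
  rw [h3]
  linarith

lemma gw_diff {c0 : ℝ} (hc : 1 ≤ c0) (K : ℕ) {s : ℂ} (hs : 0 < s.re) :
    DifferentiableAt ℂ (gw c0 K) s := by
  unfold gw
  refine DifferentiableAt.pow ?_ K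
  exact DifferentiableAt.div (by fun_prop) (by fun_prop) (gw_ne hc hs)

lemma gw_norm {c0 : ℝ} (hc : 1 ≤ c0) (K : ℕ) {s : ℂ} (hs : 1 / 4 ≤ s.re) :
    ‖gw c0 K s‖ ≤ (4 * c0) ^ K * ((1 + |s.im|) ^ K)⁻¹ := by
  have h1 := gw_den hc hs
  have h0 : 0 < 1 + |s.im| := by positivity
  have hc0 : 0 ≤ c0 := by linarith
  rw [gw, norm_pow, ← div_eq_mul_inv, ← div_pow, norm_div, Complex.norm_real,
    Real.norm_of_nonneg hc0]
  refine pow_le_pow_left₀ (by positivity) ?_ K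
  calc c0 / ‖(c0 : ℂ) + (s - 1 / 2)‖ ≤ c0 / ((1 + |s.im|) / 4) := by gcongr
    _ = _ := by field_simp

lemma gw_half {c0 : ℝ} (hc : 1 ≤ c0) (K : ℕ) (t : ℝ) : ‖gw c0 K (1 / 2 + t * I)‖ ≤ 1 := by
  have hc0 : 0 < c0 := by linarith
  rw [gw, norm_pow]
  refine pow_le_one₀ (norm_nonneg _) ?_
  have e : (c0 : ℂ) + ((1 / 2 + t * I) - 1 / 2) = c0 + t * I := by ring
  rw [e, norm_div, Complex.norm_real, Real.norm_of_nonneg hc0.le]
  have h1 := (le_abs_self _).trans (Complex.abs_re_le_norm ((c0 : ℂ) + t * I))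
  have h3 : ((c0 : ℂ) + t * I).re = c0 := by simp
  rw [h3] at h1
  rw [div_le_one (by linarith)]
  exact h1

/-- the decay of the weight in the real direction -/
lemma gw_top {c0 : ℝ} (hc : 1 ≤ c0) {K : ℕ} (hK : 1 ≤ K) (y : ℝ) :
    Tendsto (fun b : ℝ => gw c0 K (b + y * I)) atTop (𝓝 0) := by
  have hc0 : 0 < c0 := by linarith
  have h1 : Tendsto (fun b : ℝ => (c0 : ℂ) / (c0 + ((b : ℂ) + y * I - 1 / 2))) atTop (𝓝 0) := by
    rw [tendsto_zero_iff_norm_tendsto_zero]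
    have hl : Tendsto (fun b : ℝ => c0 * b⁻¹) atTop (𝓝 0) := by
      simpa using tendsto_inv_atTop_zero.const_mul c0
    refine squeeze_zero' (Eventually.of_forall fun b => norm_nonneg _) ?_ hl
    filter_upwards [eventually_ge_atTop 1] with b hb
    have hb0 : 0 < b := by linarith
    rw [norm_div, Complex.norm_real, Real.norm_of_nonneg hc0.le, div_eq_mul_inv]
    have h2 := (le_abs_self _).trans (Complex.abs_re_le_norm ((c0 : ℂ) + ((b : ℂ) + y * I - 1 / 2)))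
    have h3 : ((c0 : ℂ) + ((b : ℂ) + y * I - 1 / 2)).re = c0 + (b - 1 / 2) := by simp
    rw [h3] at h2
    gcongr
    linarith
  have h2 := h1.pow K
  rw [zero_pow (by omega)] at h2
  exact h2

/-- the integrand -/
noncomputable def FF (N : ℕ) (a : ℕ → ℂ) (c0 : ℝ) (K : ℕ) (s : ℂ) : ℂ := G0 N a s * gw c0 K s

lemma FF_diff (N : ℕ) (a : ℕ → ℂ) {c0 : ℝ} (hc : 1 ≤ c0) (K : ℕ) {s : ℂ} (hs : 0 < s.re) :
    DifferentiableAt ℂ (FF N a c0 K) s := (G0_diff N a hs).mul (gw_diff hc K hs)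

lemma pow_dc {K : ℕ} (hK : 2 ≤ K) (y : ℝ) : ((1 + |y|) ^ K)⁻¹ ≤ dc y := by
  rw [dc_eq]
  have : 1 ≤ 1 + |y| := by linarith [abs_nonneg y]
  exact inv_anti₀ (by positivity) (pow_le_pow_right₀ this hK)

lemma FF_bound (N : ℕ) (a : ℕ → ℂ) {c0 : ℝ} (hc : 1 ≤ c0) {K : ℕ} (hK : 2 ≤ K) :
    ∃ B : ℝ, 0 ≤ B ∧ ∀ s : ℂ, 1 / 4 ≤ s.re → ‖FF N a c0 K s‖ ≤ B * dc s.im := by
  obtain ⟨B, hB0, hB⟩ := G0_bound N a
  have hc0 : 0 ≤ c0 := by linarith
  refine ⟨B * (4 * c0) ^ K, by positivity, fun s hs => ?_⟩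
  rw [FF, norm_mul, mul_assoc]
  refine mul_le_mul (hB s hs) ((gw_norm hc K hs).trans ?_) (norm_nonneg _) hB0
  exact mul_le_mul_of_nonneg_left (pow_dc hK _) (by positivity)

/-! ### the transform -/

lemma exp_norm_le {v : ℝ} {s : ℂ} (h : v * (s.re - 1 / 2) ≤ 0) :
    ‖Complex.exp (v * (s - 1 / 2))‖ ≤ 1 := by
  rw [Complex.norm_exp]
  have e : ((v : ℂ) * (s - 1 / 2)).re = v * (s.re - 1 / 2) := by simp
  rw [e]
  exact Real.exp_le_one_iff.2 h

/-- the transform -/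
noncomputable def JJ (F : ℂ → ℂ) (v : ℝ) : ℂ :=
  1 / (2 * Real.pi) * ∫ t : ℝ, F (1 / 2 + t * I) * Complex.exp (v * (t * I))

lemma cast_half : (((1 / 2 : ℝ)) : ℂ) = 1 / 2 := by push_cast; ring

lemma JJ_eq (F : ℂ → ℂ) (v : ℝ) :
    JJ F v = 1 / (2 * Real.pi) * ∫ y : ℝ, (fun s => F s * Complex.exp (v * (s - 1 / 2)))
      (((1 / 2 : ℝ) : ℂ) + y * I) := by
  unfold JJ
  congr 2
  ext t
  simp only [cast_half]
  congr 2
  ring

/-- the transform vanishes for `v ≤ 0` -/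
lemma JJ_neg (hs : S_shift) {F : ℂ → ℂ} {B : ℝ} (hB0 : 0 ≤ B)
    (hd : ∀ z : ℂ, 1 / 4 ≤ z.re → DifferentiableAt ℂ F z)
    (hB : ∀ z : ℂ, 1 / 4 ≤ z.re → ‖F z‖ ≤ B * dc z.im)
    (hlim : ∀ y : ℝ, Tendsto (fun b : ℝ => F (b + y * I)) atTop (𝓝 0)) {v : ℝ} (hv : v ≤ 0) :
    JJ F v = 0 := by
  have hle : ∀ z : ℂ, 1 / 2 ≤ z.re → ‖Complex.exp (v * (z - 1 / 2))‖ ≤ 1 := fun z hz =>
    exp_norm_le (mul_nonpos_of_nonpos_of_nonneg hv (by linarith))
  rw [JJ_eq, shift_top hs hB0 (H := fun s => F s * Complex.exp (v * (s - 1 / 2))) (B := B), mul_zero]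
  · intro z hz
    have h1 : DifferentiableAt ℂ (fun s : ℂ => Complex.exp (v * (s - 1 / 2))) z := by fun_prop
    exact (hd z (by linarith)).mul h1
  · intro z hz
    rw [norm_mul]
    calc ‖F z‖ * ‖Complex.exp (v * (z - 1 / 2))‖ ≤ ‖F z‖ * 1 := by
          gcongr
          exact hle z hz
      _ ≤ _ := by rw [mul_one]; exact hB z (by linarith)
  · intro y
    rw [tendsto_zero_iff_norm_tendsto_zero]
    have h1 := (tendsto_zero_iff_norm_tendsto_zero.1 (hlim y))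
    refine squeeze_zero' (Eventually.of_forall fun b => norm_nonneg _) ?_ h1
    filter_upwards [eventually_ge_atTop (1 / 2)] with b hb
    rw [norm_mul]
    exact mul_le_of_le_one_right (norm_nonneg _) (hle _ (by simpa using hb))

/-- the line `re s = 1 / 4` -/
lemma JJ_pos (hs : S_shift) {F : ℂ → ℂ} {B : ℝ} (hB0 : 0 ≤ B)
    (hd : ∀ z : ℂ, 1 / 4 ≤ z.re → DifferentiableAt ℂ F z)
    (hB : ∀ z : ℂ, 1 / 4 ≤ z.re → ‖F z‖ ≤ B * dc z.im) {B' : ℝ}
    (hB' : ∀ z : ℂ, z.re = 1 / 4 → ‖F z‖ ≤ B' * dc z.im) {v : ℝ} (hv : 0 ≤ v) :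
    ‖JJ F v‖ ≤ (B' * ∫ y, dc y) * Real.exp (-(v / 4)) := by
  have hle : ∀ z : ℂ, z.re ≤ 1 / 2 → ‖Complex.exp (v * (z - 1 / 2))‖ ≤ 1 := fun z hz =>
    exp_norm_le (mul_nonpos_of_nonneg_of_nonpos hv (by linarith))
  have hdd : ∀ z : ℂ, 1 / 4 ≤ z.re →
      DifferentiableAt ℂ (fun s : ℂ => F s * Complex.exp (v * (s - 1 / 2))) z := by
    intro z hz
    have h1 : DifferentiableAt ℂ (fun s : ℂ => Complex.exp (v * (s - 1 / 2))) z := by fun_prop
    exact (hd z (by linarith)).mul h1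
  rw [JJ_eq, shiftH hs (by norm_num : (1 / 4 : ℝ) < 1 / 2) hB0
    (H := fun s => F s * Complex.exp (v * (s - 1 / 2))) (B := B) (fun z hz _ => hdd z hz) ?_]
  · have h1 : ∀ y : ℝ, ‖(fun s => F s * Complex.exp (v * (s - 1 / 2))) (((1 / 4 : ℝ) : ℂ) + y * I)‖ ≤
        B' * dc y * Real.exp (-(v / 4)) := by
      intro y
      simp only
      rw [norm_mul, Complex.norm_exp]
      have e : ((v : ℂ) * ((((1 / 4 : ℝ) : ℂ) + y * I) - 1 / 2)).re = -(v / 4) := by
        simp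
        ring
      rw [e]
      have h2 := hB' (((1 / 4 : ℝ) : ℂ) + y * I) (by simp)
      have e2 : (((1 / 4 : ℝ) : ℂ) + y * I).im = y := by simp
      rw [e2] at h2
      gcongr
    have hpi := Real.pi_gt_three
    have h2 : ‖(1 / (2 * Real.pi) : ℂ)‖ ≤ 1 := by
      rw [norm_div, norm_one, norm_mul, Complex.norm_real, Real.norm_of_nonneg Real.pi_pos.le]
      simp only [Complex.norm_ofNat]
      rw [div_le_one (by positivity)]
      linarith
    rw [norm_mul]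
    calc ‖(1 / (2 * Real.pi) : ℂ)‖ * ‖∫ y : ℝ, (fun s => F s * Complex.exp (v * (s - 1 / 2)))
          (((1 / 4 : ℝ) : ℂ) + y * I)‖ ≤ 1 * ∫ y : ℝ, B' * dc y * Real.exp (-(v / 4)) := by
          refine mul_le_mul h2 ?_ (norm_nonneg _) zero_le_one
          exact norm_integral_le_of_norm_le ((dc_int.const_mul B').mul_const _)
            (Eventually.of_forall h1)
      _ = _ := by
          rw [one_mul, integral_mul_const, integral_const_mul]
  · intro z hz1 hz2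
    rw [norm_mul]
    calc ‖F z‖ * ‖Complex.exp (v * (z - 1 / 2))‖ ≤ ‖F z‖ * 1 := by
          gcongr
          exact hle z hz2
      _ ≤ _ := by rw [mul_one]; exact hB z (by linarith)

/-- the transform as a Fourier transform -/
lemma JJ_fourier (F : ℂ → ℂ) (v : ℝ) :
    JJ F v = 1 / (2 * Real.pi) * 𝓕 (fun t : ℝ => F (1 / 2 + t * I)) (-(2 * Real.pi)⁻¹ * v) := by
  unfold JJ
  rw [Real.fourier_real_eq_integral_exp_smul]
  congr 1
  refine integral_congr_ae (Eventually.of_forall fun t => ?_)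
  simp only [smul_eq_mul]
  rw [mul_comm]
  congr 2
  have hpi : (Real.pi : ℂ) ≠ 0 := by exact_mod_cast Real.pi_ne_zero
  push_cast
  field_simp

lemma line_half (t : ℝ) : ((1 / 2 : ℝ) : ℂ) + t * I = 1 / 2 + t * I := by push_cast; ring

/-- the properties of the function on the critical line -/
lemma half_props {F : ℂ → ℂ} {B : ℝ}
    (hd : ∀ z : ℂ, 1 / 4 ≤ z.re → DifferentiableAt ℂ F z)
    (hB : ∀ z : ℂ, 1 / 4 ≤ z.re → ‖F z‖ ≤ B * dc z.im) :
    Continuous (fun t : ℝ => F (1 / 2 + t * I)) ∧ Integrable (fun t : ℝ => F (1 / 2 + t * I)) ∧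
      MemLp (fun t : ℝ => F (1 / 2 + t * I)) 2 := by
  have h1 : Continuous (fun t : ℝ => F (1 / 2 + t * I)) := by
    have := line_cont (H := F) (a := 1 / 2) (fun z hz => hd z (by rw [hz]; norm_num))
    simpa only [line_half] using this
  have h2 : Integrable (fun t : ℝ => F (1 / 2 + t * I)) := by
    have := line_int (H := F) (a := 1 / 2) (B := B) (fun z hz => hd z (by rw [hz]; norm_num))
      (fun z hz => hB z (by rw [hz]; norm_num))
    simpa only [line_half] using this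
  refine ⟨h1, h2, ?_⟩
  rw [memLp_two_iff_integrable_sq_norm h1.aestronglyMeasurable]
  refine (dc_sq_int.const_mul (B ^ 2)).mono' (h1.norm.pow 2).aestronglyMeasurable
    (Eventually.of_forall fun t => ?_)
  rw [Real.norm_of_nonneg (by positivity), ← mul_pow]
  have := hB (1 / 2 + t * I) (by simp; norm_num)
  have e2 : (1 / 2 + (t : ℂ) * I).im = t := by simp
  rw [e2] at this
  exact pow_le_pow_left₀ (norm_nonneg _) this 2

lemma JJ_planch {F : ℂ → ℂ} {B : ℝ}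
    (hd : ∀ z : ℂ, 1 / 4 ≤ z.re → DifferentiableAt ℂ F z)
    (hB : ∀ z : ℂ, 1 / 4 ≤ z.re → ‖F z‖ ≤ B * dc z.im) :
    Continuous (JJ F) ∧ Integrable (fun v => ‖JJ F v‖ ^ 2) ∧
      ∫ v : ℝ, ‖JJ F v‖ ^ 2 = 1 / (2 * Real.pi) * ∫ t : ℝ, ‖F (1 / 2 + t * I)‖ ^ 2 := by
  obtain ⟨h1, h2, h3⟩ := half_props hd hB
  set f : ℝ → ℂ := fun t : ℝ => F (1 / 2 + t * I) with hf
  have hpi := Real.pi_pos
  obtain ⟨h4, h5⟩ := Pool.Agent.Helper625.Planch.plancherel f h2 h3
  have hcont : Continuous (𝓕 f) := by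
    have := VectorFourier.fourierIntegral_continuous (L := innerₗ ℝ) Real.continuous_fourierChar
      continuous_inner h2
    exact this
  have e : ∀ v, ‖JJ F v‖ ^ 2 = (1 / (2 * Real.pi)) ^ 2 * ‖𝓕 f (-(2 * Real.pi)⁻¹ * v)‖ ^ 2 := by
    intro v
    rw [JJ_fourier, norm_mul, mul_pow]
    congr 2
    rw [norm_div, norm_one, norm_mul, Complex.norm_real, Real.norm_of_nonneg Real.pi_pos.le]
    simp
  refine ⟨?_, ?_, ?_⟩
  · have : JJ F = fun v => 1 / (2 * Real.pi) * 𝓕 f (-(2 * Real.pi)⁻¹ * v) :=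
      funext fun v => JJ_fourier F v
    rw [this]
    exact continuous_const.mul (hcont.comp (by fun_prop))
  · simp_rw [e]
    have h6 := ((memLp_two_iff_integrable_sq_norm h4.aestronglyMeasurable).mp h4).comp_mul_left'
      (R := -(2 * Real.pi)⁻¹) (by simp [hpi.ne'])
    exact h6.const_mul _
  · simp_rw [e]
    rw [integral_const_mul, Measure.integral_comp_mul_left (fun x => ‖𝓕 f x‖ ^ 2), h5, smul_eq_mul,
      inv_neg, inv_inv, abs_neg, abs_of_pos (by positivity)]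
    have h7 : ∫ t : ℝ, ‖F (1 / 2 + t * I)‖ ^ 2 = ∫ t : ℝ, ‖f t‖ ^ 2 := rfl
    rw [h7]
    generalize (∫ t : ℝ, ‖f t‖ ^ 2) = X
    field_simp

/-! ### inversion -/

/-- the moments converge -/
lemma mom_int {J : ℝ → ℂ} {C : ℝ} (hJ : Continuous J) (h0 : ∀ v, v ≤ 0 → J v = 0)
    (hb : ∀ v, 0 ≤ v → ‖J v‖ ≤ C * Real.exp (-(v / 4))) (n : ℕ) :
    Integrable (fun v : ℝ => v ^ n • J v) := by
  have hC : 0 ≤ C := by
    have := (norm_nonneg _).trans (hb 0 le_rfl)
    simpa using this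
  have h1 : Integrable ((Ioi (0:ℝ)).indicator
      (fun v => (C * n.factorial * 8 ^ n) * Real.exp (-(1 / 8) * v))) := by
    rw [integrable_indicator_iff measurableSet_Ioi]
    exact (exp_neg_integrableOn_Ioi 0 (by norm_num)).const_mul _
  refine h1.mono' ?_ (Eventually.of_forall fun v => ?_)
  · exact ((continuous_id.pow n).smul hJ).aestronglyMeasurable
  · by_cases hv : v ∈ Ioi (0:ℝ)
    · rw [indicator_of_mem hv]
      have hv0 : 0 < v := hv
      rw [norm_smul, norm_pow, Real.norm_of_nonneg hv0.le]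
      have h2 := hb v hv0.le
      have h3 := Real.pow_div_factorial_le_exp (v / 8) (by positivity) n
      rw [div_le_iff₀ (by positivity), div_pow, div_le_iff₀ (by positivity)] at h3
      have h4 : Real.exp (-(1 / 8) * v) = Real.exp (v / 8) * Real.exp (-(v / 4)) := by
        rw [← Real.exp_add]
        congr 1
        ring
      rw [h4]
      calc v ^ n * ‖J v‖ ≤ (Real.exp (v / 8) * n.factorial * 8 ^ n) * (C * Real.exp (-(v / 4))) := by
            gcongr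
        _ = _ := by ring
    · rw [indicator_of_notMem hv, h0 v (not_lt.1 hv), smul_zero, norm_zero]

/-- the derivatives on the line -/
lemma iter_line {F : ℂ → ℂ} (hd : ∀ z : ℂ, 1 / 4 ≤ z.re → DifferentiableAt ℂ F z) (k : ℕ) :
    iteratedDeriv k (fun t : ℝ => F (1 / 2 + t * I)) =
      fun t : ℝ => I ^ k * iteratedDeriv k F (1 / 2 + t * I) := by
  have hop : IsOpen {z : ℂ | 1 / 4 < z.re} := isOpen_lt continuous_const Complex.continuous_re
  have han : AnalyticOnNhd ℂ F {z : ℂ | 1 / 4 < z.re} := by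
    refine DifferentiableOn.analyticOnNhd (fun z hz => ?_) hop
    have hz' : 1 / 4 < z.re := hz
    exact (hd z hz'.le).differentiableWithinAt
  induction k with
  | zero => ext t; simp
  | succ k ih =>
    rw [iteratedDeriv_succ, ih]
    ext t
    have hmem : (1 / 2 + (t : ℂ) * I) ∈ {z : ℂ | 1 / 4 < z.re} := by
      show 1 / 4 < (1 / 2 + (t : ℂ) * I).re
      simp
      norm_num
    have h1 : AnalyticAt ℂ (iteratedDeriv k F) (1 / 2 + t * I) := by
      have := (han _ hmem).iterated_deriv k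
      rw [iteratedDeriv_eq_iterate]
      exact this
    have h2 : HasDerivAt (iteratedDeriv k F) (iteratedDeriv (k + 1) F (1 / 2 + t * I))
        (1 / 2 + (t : ℂ) * I) := by
      rw [iteratedDeriv_succ]
      exact h1.differentiableAt.hasDerivAt
    have h3 : HasDerivAt (fun w : ℂ => (1 / 2 : ℂ) + w * I) I (t : ℂ) := by
      have := ((hasDerivAt_id (t : ℂ)).mul_const I).const_add (1 / 2 : ℂ)
      simpa using this
    have h4 := (h2.comp (t : ℂ) h3).comp_ofReal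
    have h5 := h4.const_mul (I ^ k)
    rw [show (fun t : ℝ => I ^ k * iteratedDeriv k F (1 / 2 + t * I)) =
      fun y : ℝ => I ^ k * (iteratedDeriv k F ∘ fun w : ℂ => (1 / 2 : ℂ) + w * I) y from rfl,
      h5.deriv]
    ring

/-- Fourier inversion with derivatives -/
lemma inversion {F : ℂ → ℂ} {B C : ℝ}
    (hd : ∀ z : ℂ, 1 / 4 ≤ z.re → DifferentiableAt ℂ F z)
    (hB : ∀ z : ℂ, 1 / 4 ≤ z.re → ‖F z‖ ≤ B * dc z.im) (h0 : ∀ v, v ≤ 0 → JJ F v = 0)
    (hb : ∀ v, 0 ≤ v → ‖JJ F v‖ ≤ C * Real.exp (-(v / 4))) (k : ℕ) (t : ℝ) :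
    ∫ v : ℝ, ((-v : ℝ) : ℂ) ^ k * JJ F v * Complex.exp (-(v * t : ℝ) * I) =
      iteratedDeriv k F (1 / 2 + t * I) := by
  obtain ⟨h1, h2, h3⟩ := half_props hd hB
  obtain ⟨hJc, -, -⟩ := JJ_planch hd hB
  set f : ℝ → ℂ := fun t : ℝ => F (1 / 2 + t * I) with hf
  have hpi := Real.pi_pos
  have hpc : (Real.pi : ℂ) ≠ 0 := by exact_mod_cast Real.pi_ne_zero
  have hinv : ∀ u : ℝ, 𝓕⁻ f u = 2 * Real.pi * JJ F (2 * Real.pi * u) := by
    intro u
    rw [Real.fourierInv_eq_fourier_neg, JJ_fourier]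
    have e : -(2 * Real.pi)⁻¹ * (2 * Real.pi * u) = -u := by field_simp
    have e5 : 𝓕 (fun t : ℝ => F (1 / 2 + t * I)) (-u) = 𝓕 f (-u) := rfl
    rw [e, e5]
    generalize 𝓕 f (-u) = X
    field_simp
  have hmom := mom_int hJc h0 hb
  have hjm : ∀ n : ℕ, Integrable (fun u : ℝ => u ^ n • 𝓕⁻ f u) := by
    intro n
    have h4 := ((hmom n).comp_mul_left' (R := 2 * Real.pi) (by positivity)).const_mul
      ((2 * Real.pi : ℂ) * (((2 * Real.pi) ^ n)⁻¹ : ℝ))
    refine h4.congr (Eventually.of_forall fun u => ?_)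
    simp only [hinv, Complex.real_smul]
    generalize JJ F (2 * Real.pi * u) = X
    push_cast
    rw [mul_pow]
    field_simp
    rw [mul_pow, mul_pow]
    ring
  have hFi : Integrable (𝓕 f) := by
    have h5 := hjm 0
    simp only [pow_zero, one_smul] at h5
    have h6 := h5.comp_neg
    refine h6.congr (Eventually.of_forall fun u => ?_)
    simp only
    rw [Real.fourierInv_eq_fourier_neg, neg_neg]
  have h7 : 𝓕 (𝓕⁻ f) = f := h1.fourier_fourierInv_eq h2 hFi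
  have h8 : iteratedDeriv k f t = I ^ k * iteratedDeriv k F (1 / 2 + t * I) := by
    rw [hf, iter_line hd k]
  have h9 := Real.iteratedDeriv_fourier (f := 𝓕⁻ f) (N := ⊤) (n := k) (fun n _ => hjm n) le_top
  rw [h7] at h9
  have h10 := congrFun h9 t
  rw [h8, Real.fourier_real_eq_integral_exp_smul] at h10
  set g : ℝ → ℂ := fun v : ℝ => 2 * Real.pi * (I ^ k * (((-v : ℝ) : ℂ) ^ k * JJ F v *
        Complex.exp (-(v * t : ℝ) * I))) with hg
  have h11 : ∫ v : ℝ, Complex.exp (((-2 * Real.pi * v * t : ℝ) : ℂ) * I) •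
      ((-2 * Real.pi * I * v) ^ k • 𝓕⁻ f v) = ∫ u : ℝ, g (2 * Real.pi * u) := by
    refine integral_congr_ae (Eventually.of_forall fun u => ?_)
    simp only [hinv, hg, smul_eq_mul]
    push_cast
    have e1 : (-2 * (Real.pi : ℂ) * I * u) ^ k = I ^ k * (-(2 * Real.pi * u)) ^ k := by
      rw [← mul_pow]
      congr 1
      ring
    have e2 : -2 * (Real.pi : ℂ) * u * t * I = -(2 * Real.pi * u * t) * I := by ring
    rw [e1, e2]
    ring
  rw [h11, Measure.integral_comp_mul_left g (2 * Real.pi), hg, integral_const_mul,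
    integral_const_mul, abs_of_pos (by positivity), Complex.real_smul] at h10
  set X := ∫ v : ℝ, ((-v : ℝ) : ℂ) ^ k * JJ F v * Complex.exp (-(v * t : ℝ) * I) with hX
  have e3 : (((2 * Real.pi)⁻¹ : ℝ) : ℂ) * (2 * Real.pi * (I ^ k * X)) = I ^ k * X := by
    push_cast
    field_simp
  rw [e3] at h10
  exact (mul_left_cancel₀ (pow_ne_zero k I_ne_zero) h10).symm

/-! ### the bound on the line `re s = 1 / 4` -/

lemma FF_quarter (hg : S_grow) (hRH : RiemannHypothesis) {δ : ℝ} (hδ : 0 < δ) (hδ' : δ ≤ 1 / 8) :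
    ∃ K : ℕ, 2 ≤ K ∧ ∀ c0 : ℝ, 1 ≤ c0 → ∃ C : ℝ, 0 < C ∧ ∀ (N : ℕ) (a : ℕ → ℂ), 2 ≤ N → err N a ≤ 1 →
      ∀ z : ℂ, z.re = 1 / 4 → ‖FF N a c0 K z‖ ≤ (C * (N : ℝ) ^ (1 / 4 + δ)) * dc z.im := by
  obtain ⟨C, k, hC, h⟩ := hg hRH δ hδ (by linarith)
  refine ⟨k + 4, by omega, fun c0 hc => ⟨16 * (1 + 5 * C) * 2 ^ (k + 2) * (4 * c0) ^ (k + 4),
    by positivity, fun N a hN he z hz => ?_⟩⟩
  have hN1 : (1:ℝ) ≤ N := by exact_mod_cast (by omega : 1 ≤ N)
  have h1 := h N a (by omega) he z (by rw [hz]; linarith)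
  have e1 : (1:ℝ) / 2 + δ - z.re = 1 / 4 + δ := by rw [hz]; ring
  rw [e1] at h1
  set Q := (N : ℝ) ^ (1 / 4 + δ) with hQ
  have hQ1 : 1 ≤ Q := Real.one_le_rpow hN1 (by linarith)
  set x := 1 + ‖z‖ with hx
  have hx1 : 1 ≤ x := by rw [hx]; linarith [norm_nonneg z]
  have h2 : 1 / 4 ≤ ‖z‖ := by
    have := (le_abs_self _).trans (Complex.abs_re_le_norm z)
    linarith
  have h3 := Zs_norm_le (s := z) (by rw [hz])
  have h4 : ‖z - 1‖ ≤ x := by
    have := norm_sub_le z 1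
    rw [norm_one] at this
    linarith
  have h5 : x ≤ 2 * (1 + |z.im|) := by
    have := Complex.norm_le_abs_re_add_abs_im z
    rw [hz, abs_of_pos (by norm_num : (0:ℝ) < 1 / 4)] at this
    linarith [abs_nonneg z.im]
  have h6 : ‖G0 N a z‖ ≤ 16 * (1 + 5 * C) * Q * x ^ (k + 2) := by
    have h7 : (1 / 16 : ℝ) ≤ ‖z‖ ^ 2 := by nlinarith
    have h8 : 0 < ‖z‖ ^ 2 := by linarith
    unfold G0
    rw [norm_div, norm_pow, div_le_iff₀ h8]
    have h9 : ‖z - 1 - Zs z * DP N a z‖ ≤ (1 + 5 * C) * Q * x ^ (k + 2) := by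
      have h10 : x ≤ Q * x ^ (k + 2) := by
        calc x = 1 * x ^ 1 := by ring
          _ ≤ Q * x ^ (k + 2) := by
            gcongr
            omega
      have h3' : ‖Zs z‖ ≤ 5 * x ^ 2 := by rw [hx]; convert h3 using 3; ring
      calc ‖z - 1 - Zs z * DP N a z‖ ≤ ‖z - 1‖ + ‖Zs z * DP N a z‖ := norm_sub_le _ _
        _ = ‖z - 1‖ + ‖Zs z‖ * ‖DP N a z‖ := by rw [norm_mul]
        _ ≤ x + (5 * x ^ 2) * (C * x ^ k * Q) := by gcongr
        _ ≤ Q * x ^ (k + 2) + (5 * x ^ 2) * (C * x ^ k * Q) := by gcongr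
        _ = _ := by ring
    have h11 : 0 ≤ (1 + 5 * C) * Q * x ^ (k + 2) := by positivity
    calc ‖z - 1 - Zs z * DP N a z‖ ≤ (1 + 5 * C) * Q * x ^ (k + 2) := h9
      _ = 16 * ((1 + 5 * C) * Q * x ^ (k + 2)) * (1 / 16) := by ring
      _ ≤ 16 * ((1 + 5 * C) * Q * x ^ (k + 2)) * ‖z‖ ^ 2 := by gcongr
      _ = _ := by ring
  have h12 := gw_norm hc (k + 4) (s := z) (by rw [hz])
  have h0 : 0 < 1 + |z.im| := by positivity
  have hc0 : 0 ≤ c0 := by linarith
  rw [FF, norm_mul]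
  calc ‖G0 N a z‖ * ‖gw c0 (k + 4) z‖ ≤ (16 * (1 + 5 * C) * Q * (2 * (1 + |z.im|)) ^ (k + 2)) *
        ((4 * c0) ^ (k + 4) * ((1 + |z.im|) ^ (k + 4))⁻¹) := by
        refine mul_le_mul (h6.trans ?_) h12 (norm_nonneg _) (by positivity)
        gcongr
    _ = _ := by
        rw [dc_eq, mul_pow, pow_add (1 + |z.im|) (k + 2) 2]
        field_simp

/-! ### the zeros -/

lemma deriv_zero (N : ℕ) (a : ℕ → ℂ) {c0 : ℝ} (hc : 1 ≤ c0) (K : ℕ) {ρ : ℂ} (hρ : IsZ ρ) {k : ℕ}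
    (hk : k < mu ρ) :
    iteratedDeriv k (FF N a c0 K) ρ = iteratedDeriv k (fun s => (s - 1) / s ^ 2 * gw c0 K s) ρ := by
  obtain ⟨hz, hre, hre1⟩ := hρ
  have hop : IsOpen {z : ℂ | 0 < z.re} := isOpen_lt continuous_const Complex.continuous_re
  have hnh : {z : ℂ | 0 < z.re} ∈ 𝓝 ρ := hop.mem_nhds hre
  have han : ∀ {f : ℂ → ℂ}, (∀ s : ℂ, 0 < s.re → DifferentiableAt ℂ f s) → AnalyticAt ℂ f ρ := by
    intro f hf
    exact (DifferentiableOn.analyticOnNhd (fun z hz => (hf z hz).differentiableWithinAt) hop) ρ hre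
  have hρ1 : ρ ≠ 1 := by
    rintro rfl
    simp at hre1
  set D : ℂ → ℂ := fun s => (s - 1) / s ^ 2 * gw c0 K s with hD
  set W : ℂ → ℂ := fun s => (s - 1) * DP N a s / s ^ 2 * gw c0 K s with hW
  have hDd : ∀ s : ℂ, 0 < s.re → DifferentiableAt ℂ D s := by
    intro s hs
    have h1 : DifferentiableAt ℂ (gw c0 K) s := gw_diff hc K hs
    have h2 : DifferentiableAt ℂ (fun s : ℂ => (s - 1) / s ^ 2) s :=
      DifferentiableAt.div (by fun_prop) (by fun_prop) (pow_ne_zero 2 (ne_zero_of_re hs))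
    exact h2.mul h1
  have hWd : ∀ s : ℂ, 0 < s.re → DifferentiableAt ℂ W s := by
    intro s hs
    have h1 : DifferentiableAt ℂ (gw c0 K) s := gw_diff hc K hs
    have h3 : DifferentiableAt ℂ (DP N a) s := DP_differentiable N a s
    have h2 : DifferentiableAt ℂ (fun s : ℂ => (s - 1) * DP N a s / s ^ 2) s :=
      DifferentiableAt.div (by fun_prop) (by fun_prop) (pow_ne_zero 2 (ne_zero_of_re hs))
    exact h2.mul h1
  have hFd : AnalyticAt ℂ (FF N a c0 K) ρ := han fun s hs => FF_diff N a hc K hs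
  have hE : (fun s => D s - FF N a c0 K s) =ᶠ[𝓝 ρ] riemannZeta * W := by
    have hne : ∀ᶠ s in 𝓝 ρ, s ≠ 1 := isOpen_ne.mem_nhds hρ1
    filter_upwards [hne] with s hs
    rw [Pi.mul_apply, hD, hW, FF, G0]
    simp only
    rw [← Zs_eq hs]
    ring
  have hζ : AnalyticAt ℂ riemannZeta ρ := by
    have : DifferentiableOn ℂ riemannZeta {1}ᶜ := fun s hs =>
      (differentiableAt_riemannZeta hs).differentiableWithinAt
    exact this.analyticAt (isOpen_compl_singleton.mem_nhds hρ1)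
  have hord : (mu ρ : ℕ∞) ≤ analyticOrderAt (fun s => D s - FF N a c0 K s) ρ := by
    rw [analyticOrderAt_congr hE, analyticOrderAt_mul hζ (han hWd)]
    refine le_trans ?_ le_self_add
    exact ENat.natCast_toNat_le_self _
  have hsub : AnalyticAt ℂ (fun s => D s - FF N a c0 K s) ρ := (han hDd).sub hFd
  have h1 := (natCast_le_analyticOrderAt_iff_iteratedDeriv_eq_zero hsub).1 hord k hk
  have h2 : iteratedDeriv k (fun s => D s - FF N a c0 K s) ρ =
      iteratedDeriv k D ρ - iteratedDeriv k (FF N a c0 K) ρ := by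
    have := iteratedDeriv_sub (n := k) (x := ρ) (han hDd).contDiffAt hFd.contDiffAt
    exact this
  rw [h2] at h1
  exact (sub_eq_zero.1 h1).symm

end Pool.Agent.N967.JjAux

namespace Pool.Agent.N967

open Complex MeasureTheory Filter Topology Set JjAux
open Pool.Agent.Y23 (IsZ mu)

theorem jj (hg : S_grow) (hi : S_int) (hs : S_shift) : S_jj := by
  intro hRH δ hδ hδ'
  obtain ⟨K, hK2, hK⟩ := FF_quarter hg hRH hδ hδ'
  refine ⟨K, fun c0 hc => ?_⟩
  obtain ⟨C, hC, hCb⟩ := hK c0 hc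
  have hdc : 0 < ∫ y, dc y := by
    rw [integral_pos_iff_support_of_nonneg (fun y => (dc_pos y).le) dc_int]
    have : Function.support dc = univ := by
      ext y
      simp [(dc_pos y).ne']
    rw [this]
    simp
  refine ⟨C * ∫ y, dc y, by positivity, fun N a hN he => ?_⟩
  obtain ⟨B, hB0, hB⟩ := FF_bound N a hc hK2
  have hd : ∀ z : ℂ, 1 / 4 ≤ z.re → DifferentiableAt ℂ (FF N a c0 K) z := fun z hz =>
    FF_diff N a hc K (by linarith)
  have hlim : ∀ y : ℝ, Tendsto (fun b : ℝ => FF N a c0 K (b + y * I)) atTop (𝓝 0) := by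
    intro y
    obtain ⟨B', hB0', hB'⟩ := G0_bound N a
    rw [tendsto_zero_iff_norm_tendsto_zero]
    have h1 := (tendsto_zero_iff_norm_tendsto_zero.1 (gw_top hc (by omega : 1 ≤ K) y)).const_mul B'
    rw [mul_zero] at h1
    refine squeeze_zero' (Eventually.of_forall fun b => norm_nonneg _) ?_ h1
    filter_upwards [eventually_ge_atTop (1 / 4)] with b hb
    rw [FF, norm_mul]
    gcongr
    exact hB' _ (by simpa using hb)
  have hneg : ∀ v, v ≤ 0 → JJ (FF N a c0 K) v = 0 := fun v hv => JJ_neg hs hB0 hd hB hlim hv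
  have hpos : ∀ v, 0 ≤ v → ‖JJ (FF N a c0 K) v‖ ≤
      ((C * (N : ℝ) ^ (1 / 4 + δ)) * ∫ y, dc y) * Real.exp (-(v / 4)) := fun v hv =>
    JJ_pos hs hB0 hd hB (hCb N a hN he) hv
  obtain ⟨h1, h2, h3⟩ := JJ_planch hd hB
  refine ⟨JJ (FF N a c0 K), h1.measurable, hneg, fun v hv => ?_, h2, ?_, fun ρ hρ k hk => ?_⟩
  · calc ‖JJ (FF N a c0 K) v‖ ≤ _ := hpos v hv
      _ = _ := by ring
  · rw [h3, err]
    refine mul_le_mul_of_nonneg_left ?_ (by positivity)
    refine integral_mono_of_nonneg (Eventually.of_forall fun t => by positivity) (hi N a)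
      (Eventually.of_forall fun t => ?_)
    simp only
    rw [FF, norm_mul, mul_pow, G0_line]
    have h4 : ‖gw c0 K (1 / 2 + t * I)‖ ^ 2 ≤ 1 := pow_le_one₀ (norm_nonneg _) (gw_half hc K t)
    have h5 : 0 ≤ ig N a t := by unfold ig; positivity
    exact mul_le_of_le_one_right h5 h4
  · have h4 : ρ.re = 1 / 2 := by
      refine hRH ρ hρ.1 ?_ ?_
      · rintro ⟨n, hn⟩
        have := hρ.2.1
        rw [hn] at this
        have h5 : (-2 * ((n : ℂ) + 1)).re = -2 * ((n : ℝ) + 1) := by simp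
        rw [h5] at this
        have : (0:ℝ) ≤ n := Nat.cast_nonneg n
        linarith
      · rintro rfl
        have := hρ.2.2
        simp at this
    have h5 : ρ = 1 / 2 + (ρ.im : ℂ) * I := by
      apply Complex.ext
      · simp [h4]
      · simp
    rw [inversion hd hB hneg hpos k ρ.im, ← h5]
    exact deriv_zero N a hc K hρ hk

end Pool.Agent.N967
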