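import Pool.Agent.N967.NT

set_option autoImplicit false

/-!
# Baez-Duarte's distance: the distance of `ζ(s) / ζ(s + ε)` from `1` (helper424)
-/

namespace Pool.Agent.N967

open Complex MeasureTheory Filter Topology Metric
open Pool.Agent.H295R2 (fz Zs fz_eq)
open Pool.Agent.Y23 (IsZ mu Lg one_le_Lg)
open Pool.Agent.H24R2.JP (XX)

namespace Fst

/-- the quotient -/
noncomputable def qf (ε : ℝ) (w : ℂ) : ℂ := XX w / XX (w + ε)

/-- the weight -/
noncomputable def wt (t : ℝ) : ℝ := 1 / (1 / 4 + t ^ 2)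

lemma wt_pos (t : ℝ) : 0 < wt t := by unfold wt; positivity

lemma wt_eq (t : ℝ) : wt t = 4 * (1 + (2 * t) ^ 2)⁻¹ := by
  unfold wt
  field_simp
  ring

lemma wt_int : Integrable wt := by
  have h1 : Integrable fun x : ℝ => (1 + x ^ 2)⁻¹ := integrable_inv_one_add_sq
  have h2 : Integrable fun x : ℝ => (1 + (2 * x) ^ 2)⁻¹ :=
    (integrable_comp_mul_left_iff (fun x : ℝ => (1 + x ^ 2)⁻¹) (two_ne_zero)).2 h1
  refine (h2.const_mul 4).congr (ae_of_all _ fun t => ?_)
  exact (wt_eq t).symm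

lemma wt_integral : ∫ t, wt t = 2 * Real.pi := by
  have h1 : ∫ x : ℝ, (1 + (2 * x) ^ 2)⁻¹ = |(2 : ℝ)⁻¹| • ∫ x : ℝ, (1 + x ^ 2)⁻¹ :=
    Measure.integral_comp_mul_left (fun x : ℝ => (1 + x ^ 2)⁻¹) 2
  have h2 : ∫ t, wt t = ∫ x : ℝ, 4 * (1 + (2 * x) ^ 2)⁻¹ :=
    integral_congr_ae (ae_of_all _ fun t => wt_eq t)
  rw [h2, integral_const_mul, h1, integral_univ_inv_one_add_sq, smul_eq_mul,
    abs_of_pos (by norm_num)]
  ring

section

variable (hm : S_mono) (hRH : RiemannHypothesis) {ε : ℝ} (hε : 0 < ε)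

include hm hRH hε

lemma XX_ne {w : ℂ} (hw : 0 ≤ w.re) : XX (w + ε) ≠ 0 := (hm hRH w ε hw hε.le).2 hε

lemma qf_le {w : ℂ} (hw : 0 ≤ w.re) : ‖qf ε w‖ ≤ 1 := by
  unfold qf
  rw [norm_div]
  have h1 := norm_pos_iff.2 (XX_ne hm hRH hε hw)
  rw [div_le_one h1]
  exact (hm hRH w ε hw hε.le).1

lemma qf_diff {w : ℂ} (hw : 0 ≤ w.re) : DifferentiableAt ℂ (qf ε) w := by
  unfold qf
  have h1 : DifferentiableAt ℂ XX w := Pool.Agent.Y23.XX_diff w
  have h2 : DifferentiableAt ℂ (fun w => XX (w + ε)) w :=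
    DifferentiableAt.comp (g := XX) (f := fun w : ℂ => w + ε) w
      (Pool.Agent.Y23.XX_diff _) (by fun_prop)
  exact h1.div h2 (XX_ne hm hRH hε hw)

lemma qf_cont : Continuous fun t : ℝ => qf ε (t * I) := by
  rw [continuous_iff_continuousAt]
  intro t
  have h1 : ContinuousAt (qf ε) (t * I) := (qf_diff hm hRH hε (by simp)).continuousAt
  have h2 : ContinuousAt (fun t : ℝ => (t * I : ℂ)) t := by fun_prop
  exact ContinuousAt.comp (g := qf ε) (f := fun t : ℝ => (t * I : ℂ)) h1 h2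

/-- Poisson's formula -/
lemma poisson (hs : S_shift) : ∫ y : ℝ, (wt y : ℂ) * qf ε (y * I) = 2 * Real.pi * qf ε (1 / 2) := by
  obtain ⟨F, hF⟩ : ∃ F : ℂ → ℂ, F = fun z => -(qf ε (z + 1 / 2) / (z + 1)) := ⟨_, rfl⟩
  have hre : ∀ z : ℂ, -(1 / 2) ≤ z.re → 0 ≤ (z + 1 / 2).re := by
    intro z hz
    have e : (z + 1 / 2).re = z.re + 1 / 2 := by simp
    rw [e]; linarith
  have hne : ∀ z : ℂ, -(1 / 2) ≤ z.re → z + 1 ≠ 0 := by
    intro z hz h0
    have := congrArg Complex.re h0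
    simp at this
    linarith
  have hnorm : ∀ z : ℂ, -(1 / 2) ≤ z.re → (1 + |z.im|) / 4 ≤ ‖z + 1‖ := by
    intro z hz
    have h1 := Complex.abs_re_le_norm (z + 1)
    have h2 := Complex.abs_im_le_norm (z + 1)
    have e1 : (z + 1).re = z.re + 1 := by simp
    have e2 : (z + 1).im = z.im := by simp
    rw [e1] at h1
    rw [e2] at h2
    have h3 := le_abs_self (z.re + 1)
    linarith
  have key : ∀ b : ℝ, 0 < b → ‖(∫ y : ℝ, (wt y : ℂ) * qf ε (y * I)) - 2 * Real.pi * qf ε (1 / 2)‖ ≤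
      Real.pi / b := by
    intro b hb
    have h1 := hs F (-(1 / 2)) b 4 (by norm_num) hb (by
      intro z hz _
      rw [hF]
      have h2 : DifferentiableAt ℂ (fun z : ℂ => qf ε (z + 1 / 2)) z :=
        DifferentiableAt.comp (g := qf ε) (f := fun z : ℂ => z + 1 / 2) z
          (qf_diff hm hRH hε (hre z hz)) (by fun_prop)
      exact (h2.div (by fun_prop) (hne z hz)).neg) (by
      intro z hz _
      rw [hF]
      simp only [norm_neg, norm_div]
      have h3 := qf_le hm hRH hε (hre z hz)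
      have h4 := hnorm z hz
      have h5 : 0 < 1 + |z.im| := by positivity
      have h6 : ‖qf ε (z + 1 / 2)‖ / ‖z + 1‖ ≤ 1 / ((1 + |z.im|) / 4) :=
        div_le_div₀ zero_le_one h3 (by positivity) h4
      refine h6.trans ?_
      have h7 : 1 / ((1 + |z.im|) / 4) = 4 * (1 + |z.im|) ^ (-1 : ℝ) := by
        rw [Real.rpow_neg_one]
        field_simp
      rw [h7]
      refine mul_le_mul_of_nonneg_left ?_ (by norm_num)
      exact Real.rpow_le_rpow_of_exponent_le (by linarith [abs_nonneg z.im]) (by norm_num))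
    have h2 : F 0 = -qf ε (1 / 2) := by
      rw [hF]
      simp
    have h3 : ∫ y : ℝ, F ((-(1 / 2) : ℝ) + y * I) / ((-(1 / 2) : ℝ) + y * I) =
        ∫ y : ℝ, (wt y : ℂ) * qf ε (y * I) := by
      refine integral_congr_ae (ae_of_all _ fun y => ?_)
      simp only []
      rw [hF]
      simp only []
      have e1 : (((-(1 / 2) : ℝ) : ℂ) + y * I + 1 / 2) = y * I := by push_cast; ring
      rw [e1]
      have e2 : (((-(1 / 2) : ℝ) : ℂ) + y * I + 1) * (((-(1 / 2) : ℝ) : ℂ) + y * I) =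
          -((1 / 4 + y ^ 2 : ℝ) : ℂ) := by
        push_cast
        linear_combination (y : ℂ) ^ 2 * I_sq
      have e3 : ((1 / 4 + y ^ 2 : ℝ) : ℂ) ≠ 0 := by
        have : (1 / 4 + y ^ 2 : ℝ) ≠ 0 := by positivity
        exact_mod_cast this
      rw [neg_div, div_div, e2]
      unfold wt
      push_cast at e3 ⊢
      rw [div_neg, neg_neg]
      ring
    rw [h2, h3] at h1
    have h4 : (∫ y : ℝ, (wt y : ℂ) * qf ε (y * I)) - 2 * Real.pi * qf ε (1 / 2) =
        ∫ y : ℝ, F (b + y * I) / (b + y * I) := by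
      linear_combination -h1
    rw [h4]
    have h5 : ∀ y : ℝ, ‖F (b + y * I) / (b + y * I)‖ ≤ (1 / b ^ 2) * (1 + (b⁻¹ * y) ^ 2)⁻¹ := by
      intro y
      rw [hF]
      simp only [norm_neg, norm_div]
      have e1 : (b + y * I : ℂ).re = b := by simp
      have e2 : (b + y * I : ℂ).im = y := by simp
      have h6 := qf_le hm hRH hε (hre (b + y * I) (by rw [e1]; linarith))
      have h7 : ‖(b + y * I : ℂ)‖ ^ 2 = b ^ 2 + y ^ 2 := by
        rw [Complex.sq_norm, Complex.normSq_apply, e1, e2]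
        ring
      have h8 : ‖(b + y * I : ℂ)‖ ≤ ‖(b + y * I + 1 : ℂ)‖ := by
        refine le_of_sq_le_sq ?_ (norm_nonneg _)
        rw [h7, Complex.sq_norm, Complex.normSq_apply]
        have e3 : (b + y * I + 1 : ℂ).re = b + 1 := by simp
        have e4 : (b + y * I + 1 : ℂ).im = y := by simp
        rw [e3, e4]
        nlinarith
      have h9 : 0 < ‖(b + y * I : ℂ)‖ := by
        rw [norm_pos_iff]
        intro h0
        have := congrArg Complex.re h0
        rw [e1, Complex.zero_re] at this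
        linarith
      rw [div_div]
      have h10 : ‖(b + y * I : ℂ)‖ ^ 2 ≤ ‖(b + y * I + 1 : ℂ)‖ * ‖(b + y * I : ℂ)‖ := by
        rw [pow_two]
        exact mul_le_mul_of_nonneg_right h8 h9.le
      refine (div_le_div₀ zero_le_one h6 (by positivity) h10).trans (le_of_eq ?_)
      rw [h7]
      field_simp
    have h6 : Integrable fun y : ℝ => (1 / b ^ 2) * (1 + (b⁻¹ * y) ^ 2)⁻¹ :=
      ((integrable_comp_mul_left_iff (fun x : ℝ => (1 + x ^ 2)⁻¹)
        (inv_ne_zero hb.ne')).2 integrable_inv_one_add_sq).const_mul _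
    refine (norm_integral_le_of_norm_le h6 (ae_of_all _ h5)).trans (le_of_eq ?_)
    rw [integral_const_mul, Measure.integral_comp_mul_left (fun x : ℝ => (1 + x ^ 2)⁻¹) b⁻¹,
      integral_univ_inv_one_add_sq, smul_eq_mul, inv_inv, abs_of_pos hb]
    field_simp
  have h1 : ‖(∫ y : ℝ, (wt y : ℂ) * qf ε (y * I)) - 2 * Real.pi * qf ε (1 / 2)‖ ≤ 0 := by
    have h2 : Tendsto (fun b : ℝ => Real.pi / b) atTop (𝓝 0) := tendsto_const_nhds.div_atTop tendsto_id
    refine ge_of_tendsto h2 ?_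
    filter_upwards [eventually_gt_atTop 0] with b hb using key b hb
  exact sub_eq_zero.1 (norm_le_zero_iff.1 h1)

/-- the real part -/
lemma re_int (hs : S_shift) : Integrable (fun y : ℝ => wt y * (1 - (qf ε (y * I)).re)) ∧
    ∫ y : ℝ, wt y * (1 - (qf ε (y * I)).re) = 2 * Real.pi * (1 - (qf ε (1 / 2)).re) := by
  have h1 : Integrable (fun y : ℝ => (wt y : ℂ) * qf ε (y * I)) := by
    have h2 : AEStronglyMeasurable (fun y : ℝ => qf ε (y * I)) volume :=
      (qf_cont hm hRH hε).aestronglyMeasurable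
    refine (wt_int.ofReal (𝕜 := ℂ)).mul_bdd (c := 1) h2 (ae_of_all _ fun y => ?_)
    exact qf_le hm hRH hε (by simp)
  have h3 : Integrable (fun y : ℝ => wt y * (qf ε (y * I)).re) := by
    refine h1.re.congr (ae_of_all _ fun y => ?_)
    simp
  have h4 : ∫ y : ℝ, wt y * (qf ε (y * I)).re = 2 * Real.pi * (qf ε (1 / 2)).re := by
    have h5 := congrArg Complex.re (poisson hm hRH hε hs)
    have h6 : ∫ y : ℝ, wt y * (qf ε (y * I)).re = (∫ y : ℝ, (wt y : ℂ) * qf ε (y * I)).re := by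
      refine Eq.trans (integral_congr_ae (ae_of_all _ fun y => ?_)) (integral_re h1)
      simp
    rw [h6, h5]
    have e : (2 * Real.pi * qf ε (1 / 2) : ℂ) = ((2 * Real.pi : ℝ) : ℂ) * qf ε (1 / 2) := by
      push_cast; ring
    rw [e, Complex.re_ofReal_mul]
  have e : (fun y : ℝ => wt y * (1 - (qf ε (y * I)).re)) =
      fun y => wt y - wt y * (qf ε (y * I)).re := by
    funext y; ring
  refine ⟨by rw [e]; exact wt_int.sub h3, ?_⟩
  rw [e, integral_sub wt_int h3, wt_integral, h4]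
  ring

end

/-- the value at `1/2` -/
lemma half_bd : ∃ C : ℝ, 0 < C ∧ ∀ ε : ℝ, 0 < ε → ε ≤ 1 → ‖XX (1 / 2 + ε) - XX (1 / 2)‖ ≤ C * ε := by
  have hc : Continuous (deriv XX) :=
    (Pool.Agent.Y23.XX_diff.contDiff (n := 1)).continuous_deriv le_rfl
  obtain ⟨C, hC⟩ := (isCompact_closedBall (1 / 2 : ℂ) 1).exists_bound_of_continuousOn
    hc.continuousOn
  refine ⟨|C| + 1, by positivity, fun ε hε hε1 => ?_⟩
  have h1 := (convex_closedBall (1 / 2 : ℂ) 1).norm_image_sub_le_of_norm_deriv_le (f := XX)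
    (fun x _ => Pool.Agent.Y23.XX_diff x) hC (x := 1 / 2) (y := 1 / 2 + ε)
    (mem_closedBall_self zero_le_one) (by
      rw [mem_closedBall, dist_eq_norm, add_sub_cancel_left, norm_real, Real.norm_eq_abs,
        abs_of_pos hε]
      exact hε1)
  rw [add_sub_cancel_left, norm_real, Real.norm_eq_abs, abs_of_pos hε] at h1
  refine h1.trans ?_
  refine mul_le_mul_of_nonneg_right ?_ hε.le
  linarith [le_abs_self C]

/-- the bound of the logarithm -/
lemma Lg_sq (t : ℝ) {c : ℝ} (hc : c ≤ 1 / 4) : Lg t ^ 2 * Real.exp (c * Lg t) ≤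
    128 * (1 + ‖t‖) ^ (1 / 2 : ℝ) := by
  have h0 : 0 ≤ |t| := abs_nonneg t
  have h1 := one_le_Lg t
  obtain ⟨x, hx⟩ : ∃ x : ℝ, x = 3 + |t| := ⟨_, rfl⟩
  have hx3 : 3 ≤ x := by rw [hx]; linarith
  have hx0 : 0 < x := by linarith
  have hL : Lg t = Real.log x := by rw [hx]; rfl
  rw [hL] at h1 ⊢
  have h2 : Real.log x ≤ 8 * x ^ (1 / 8 : ℝ) := by
    have := Real.log_le_rpow_div hx0.le (ε := 1 / 8) (by norm_num)
    linarith
  have h3 : Real.log x ^ 2 ≤ 64 * x ^ (1 / 4 : ℝ) := by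
    have h4 : Real.log x ^ 2 ≤ (8 * x ^ (1 / 8 : ℝ)) ^ 2 :=
      pow_le_pow_left₀ (by linarith) h2 2
    refine h4.trans (le_of_eq ?_)
    rw [mul_pow, ← Real.rpow_natCast (x ^ (1 / 8 : ℝ)) 2, ← Real.rpow_mul hx0.le]
    norm_num
  have h5 : Real.exp (c * Real.log x) ≤ x ^ (1 / 4 : ℝ) := by
    rw [Real.rpow_def_of_pos hx0, mul_comm (Real.log x)]
    exact Real.exp_le_exp.2 (mul_le_mul_of_nonneg_right hc (by linarith))
  have h6 : Real.log x ^ 2 * Real.exp (c * Real.log x) ≤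
      64 * x ^ (1 / 4 : ℝ) * x ^ (1 / 4 : ℝ) :=
    mul_le_mul h3 h5 (Real.exp_pos _).le (by positivity)
  refine h6.trans ?_
  rw [mul_assoc, ← Real.rpow_add hx0]
  have h7 : (1 / 4 + 1 / 4 : ℝ) = 1 / 2 := by norm_num
  rw [h7]
  have h8 : x ^ (1 / 2 : ℝ) ≤ (4 * (1 + ‖t‖)) ^ (1 / 2 : ℝ) := by
    refine Real.rpow_le_rpow hx0.le ?_ (by norm_num)
    rw [Real.norm_eq_abs, hx]
    linarith
  have h9 : (4 * (1 + ‖t‖)) ^ (1 / 2 : ℝ) = 2 * (1 + ‖t‖) ^ (1 / 2 : ℝ) := by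
    rw [Real.mul_rpow (by norm_num) (by positivity)]
    congr 1
    rw [show (4 : ℝ) = 2 ^ (2 : ℝ) by norm_num, ← Real.rpow_mul (by norm_num)]
    norm_num
  rw [h9] at h8
  linarith

lemma wt_le (t : ℝ) : wt t ≤ 8 * (1 + ‖t‖) ^ (-2 : ℝ) := by
  have h0 : 0 ≤ |t| := abs_nonneg t
  have h1 : (1 + ‖t‖) ^ (-2 : ℝ) = 1 / (1 + |t|) ^ 2 := by
    rw [Real.norm_eq_abs, Real.rpow_neg (by positivity), one_div]
    congr 1
    exact Real.rpow_natCast _ 2
  rw [h1]
  unfold wt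
  rw [mul_one_div, div_le_div_iff₀ (by positivity) (by positivity)]
  have h2 : t ^ 2 = |t| ^ 2 := (sq_abs t).symm
  rw [h2]
  nlinarith [sq_nonneg (|t| - 1)]

lemma dom_int : Integrable fun t : ℝ => (1 + ‖t‖) ^ (-(3 / 2) : ℝ) :=
  integrable_one_add_norm (by norm_num)

end Fst

open Fst in
/-- the first error -/
theorem first (h1 : S_mono) (h2 : S_gam) (h3 : S_shift) : S_first := by
  intro hRH
  obtain ⟨C, hC, hg⟩ := h2
  obtain ⟨C1, hC1, hh⟩ := half_bd
  obtain ⟨M, hM⟩ : ∃ M : ℝ, M = ∫ t : ℝ, (1 + ‖t‖) ^ (-(3 / 2) : ℝ) := ⟨_, rfl⟩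
  have hM0 : 0 ≤ M := by
    rw [hM]
    exact integral_nonneg fun t => by positivity
  refine ⟨2 * Real.pi * C1 + 2048 * C ^ 2 * M, min (1 / 4) (1 / (8 * C)),
    by positivity, lt_min (by norm_num) (by positivity), ?_⟩
  intro ε hε hε0
  have hε4 : ε ≤ 1 / 4 := hε0.trans (min_le_left _ _)
  have hεC : 2 * (C * ε) ≤ 1 / 4 := by
    have := hε0.trans (min_le_right (1 / 4) (1 / (8 * C)))
    rw [le_div_iff₀ (by positivity)] at this
    linarith
  -- the factorisation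
  have hfac : ∀ t : ℝ, ∃ g : ℂ, riemannZeta (1 / 2 + t * I) * fz (1 / 2 + ε + t * I) =
      qf ε (t * I) * g ∧ ‖g - 1‖ ≤ C * ε * Lg t * Real.exp (C * ε * Lg t) := by
    intro t
    have r1 : (1 / 2 + t * I : ℂ).re = 1 / 2 := by simp
    have r2 : (1 / 2 + ε + t * I : ℂ).re = 1 / 2 + ε := by simp
    have x1 : XX (t * I) = HG (t * I) * riemannZeta (1 / 2 + t * I) := by
      have := Pool.Agent.Y23.XX_strip (s := 1 / 2 + t * I) (by rw [r1]; norm_num)
        (by rw [r1]; norm_num)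
      have e : (1 / 2 + t * I - 1 / 2 : ℂ) = t * I := by ring
      rw [e] at this
      rw [this]
      rfl
    have x2 : XX (t * I + ε) = HG (ε + t * I) * riemannZeta (1 / 2 + ε + t * I) := by
      have := Pool.Agent.Y23.XX_strip (s := 1 / 2 + ε + t * I) (by rw [r2]; linarith)
        (by rw [r2]; linarith)
      have e : (1 / 2 + ε + t * I - 1 / 2 : ℂ) = t * I + ε := by ring
      rw [e] at this
      rw [this]
      unfold HG
      have e2 : (ε + t * I : ℂ) = t * I + ε := by ring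
      have e3 : (1 / 2 + ε + t * I : ℂ) = 1 / 2 + (t * I + ε) := by ring
      rw [e2, e3]
    have y1 : HG (t * I) ≠ 0 := by
      have := Pool.Agent.Y23.fac_ne (s := 1 / 2 + t * I) (by rw [r1]; norm_num)
        (by rw [r1]; norm_num)
      have e : (1 / 2 + t * I - 1 / 2 : ℂ) = t * I := by ring
      rw [e] at this
      exact this
    have z1 : XX (t * I + ε) ≠ 0 := XX_ne h1 hRH hε (by simp)
    have z2 : riemannZeta (1 / 2 + ε + t * I) ≠ 0 := by
      intro h0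
      rw [x2, h0, mul_zero] at z1
      exact z1 rfl
    have z3 : HG (ε + t * I) ≠ 0 := by
      intro h0
      rw [x2, h0, zero_mul] at z1
      exact z1 rfl
    have n1 : (1 / 2 + ε + t * I : ℂ) ≠ 1 := by
      intro h0
      have := congrArg Complex.re h0
      rw [r2, Complex.one_re] at this
      linarith
    refine ⟨HG (ε + t * I) / HG (t * I), ?_, ?_⟩
    · rw [fz_eq n1]
      unfold qf
      rw [x1, x2]
      field_simp
    · have g1 := (hg ε 0 t hε.le hε4 le_rfl (by norm_num)).2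
      rw [Complex.ofReal_zero, zero_add, sub_zero, abs_of_pos hε] at g1
      have e : HG (ε + t * I) / HG (t * I) - 1 = (HG (ε + t * I) - HG (t * I)) / HG (t * I) := by
        rw [sub_div, div_self y1]
      rw [e, norm_div, div_le_iff₀ (norm_pos_iff.2 y1)]
      exact g1
  -- the pointwise bound
  have hpt : ∀ t : ℝ, ‖1 - riemannZeta (1 / 2 + t * I) * fz (1 / 2 + ε + t * I)‖ ^ 2 /
      (1 / 4 + t ^ 2) ≤ 4 * (wt t * (1 - (qf ε (t * I)).re)) +
        2048 * C ^ 2 * ε ^ 2 * (1 + ‖t‖) ^ (-(3 / 2) : ℝ) := by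
    intro t
    obtain ⟨g, hg1, hg2⟩ := hfac t
    rw [hg1]
    have q1 := qf_le h1 hRH hε (w := t * I) (by simp)
    obtain ⟨q, hq⟩ : ∃ q : ℂ, q = qf ε (t * I) := ⟨_, rfl⟩
    rw [← hq] at q1 ⊢
    have a1 : ‖1 - q‖ ^ 2 ≤ 2 * (1 - q.re) := by
      rw [Complex.sq_norm, Complex.normSq_apply]
      have e1 : (1 - q).re = 1 - q.re := by simp
      have e2 : (1 - q).im = -q.im := by simp
      have e3 : q.re ^ 2 + q.im ^ 2 ≤ 1 := by
        have : ‖q‖ ^ 2 ≤ 1 := by nlinarith [norm_nonneg q]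
        rw [Complex.sq_norm, Complex.normSq_apply] at this
        nlinarith
      rw [e1, e2]
      nlinarith
    have a2 : ‖1 - q * g‖ ^ 2 ≤ 2 * ‖1 - q‖ ^ 2 + 2 * ‖g - 1‖ ^ 2 := by
      have e1 : 1 - q * g = (1 - q) - q * (g - 1) := by ring
      have e2 : ‖1 - q * g‖ ≤ ‖1 - q‖ + ‖g - 1‖ := by
        rw [e1]
        refine (norm_sub_le _ _).trans ?_
        rw [norm_mul]
        have := mul_le_mul_of_nonneg_right q1 (norm_nonneg (g - 1))
        linarith
      have e3 : ‖1 - q * g‖ ^ 2 ≤ (‖1 - q‖ + ‖g - 1‖) ^ 2 :=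
        pow_le_pow_left₀ (norm_nonneg _) e2 2
      nlinarith [sq_nonneg (‖1 - q‖ - ‖g - 1‖)]
    have a3 : ‖g - 1‖ ^ 2 ≤ C ^ 2 * ε ^ 2 * (128 * (1 + ‖t‖) ^ (1 / 2 : ℝ)) := by
      have e1 : ‖g - 1‖ ^ 2 ≤ (C * ε * Lg t * Real.exp (C * ε * Lg t)) ^ 2 :=
        pow_le_pow_left₀ (norm_nonneg _) hg2 2
      refine e1.trans ?_
      have e2 : (C * ε * Lg t * Real.exp (C * ε * Lg t)) ^ 2 =
          C ^ 2 * ε ^ 2 * (Lg t ^ 2 * Real.exp (2 * (C * ε) * Lg t)) := by
        have e3 : Real.exp (2 * (C * ε) * Lg t) = Real.exp (C * ε * Lg t) ^ 2 := by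
          rw [← Real.exp_nat_mul]
          congr 1
          push_cast
          ring
        rw [e3]
        ring
      rw [e2]
      exact mul_le_mul_of_nonneg_left (Lg_sq t hεC) (by positivity)
    have a4 := wt_le t
    have a5 : (1 + ‖t‖) ^ (1 / 2 : ℝ) * (8 * (1 + ‖t‖) ^ (-2 : ℝ)) =
        8 * (1 + ‖t‖) ^ (-(3 / 2) : ℝ) := by
      have : (1 + ‖t‖) ^ (-(3 / 2) : ℝ) = (1 + ‖t‖) ^ (1 / 2 : ℝ) * (1 + ‖t‖) ^ (-2 : ℝ) := by
        rw [← Real.rpow_add (by positivity)]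
        norm_num
      rw [this]
      ring
    have a6 : ‖g - 1‖ ^ 2 * wt t ≤ C ^ 2 * ε ^ 2 * (128 * (1 + ‖t‖) ^ (1 / 2 : ℝ)) *
        (8 * (1 + ‖t‖) ^ (-2 : ℝ)) :=
      mul_le_mul a3 a4 (wt_pos t).le (by positivity)
    have a7 : C ^ 2 * ε ^ 2 * (128 * (1 + ‖t‖) ^ (1 / 2 : ℝ)) *
        (8 * (1 + ‖t‖) ^ (-2 : ℝ)) = 1024 * C ^ 2 * ε ^ 2 * (1 + ‖t‖) ^ (-(3 / 2) : ℝ) := by
      linear_combination C ^ 2 * ε ^ 2 * 128 * a5
    rw [a7] at a6
    have a8 : ‖1 - q * g‖ ^ 2 / (1 / 4 + t ^ 2) = ‖1 - q * g‖ ^ 2 * wt t := by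
      unfold wt
      ring
    rw [a8]
    have a9 := mul_le_mul_of_nonneg_right a2 (wt_pos t).le
    have a10 := mul_le_mul_of_nonneg_right a1 (wt_pos t).le
    nlinarith
  obtain ⟨i1, i2⟩ := re_int h1 hRH hε h3
  have hdom : Integrable fun t : ℝ => 4 * (wt t * (1 - (qf ε (t * I)).re)) +
      2048 * C ^ 2 * ε ^ 2 * (1 + ‖t‖) ^ (-(3 / 2) : ℝ) :=
    (i1.const_mul 4).add (dom_int.const_mul _)
  have hcont : Continuous fun t : ℝ => ‖1 - riemannZeta (1 / 2 + t * I) *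
      fz (1 / 2 + ε + t * I)‖ ^ 2 / (1 / 4 + t ^ 2) := by
    have c1 : Continuous fun t : ℝ => riemannZeta (1 / 2 + t * I) := by
      rw [continuous_iff_continuousAt]
      intro t
      have n1 : (1 / 2 + t * I : ℂ) ≠ 1 := by
        intro h0
        have := congrArg Complex.re h0
        simp at this
      exact ContinuousAt.comp (g := riemannZeta) (f := fun t : ℝ => (1 / 2 + t * I : ℂ))
        (differentiableAt_riemannZeta n1).continuousAt (by fun_prop)
    have c2 : Continuous fun t : ℝ => fz (1 / 2 + ε + t * I) := by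
      rw [continuous_iff_continuousAt]
      intro t
      have r2 : (1 / 2 + ε + t * I : ℂ).re = 1 / 2 + ε := by simp
      have n1 : (1 / 2 + ε + t * I : ℂ) ≠ 1 := by
        intro h0
        have := congrArg Complex.re h0
        rw [r2, Complex.one_re] at this
        linarith
      have z1 : XX (t * I + ε) ≠ 0 := XX_ne h1 hRH hε (by simp)
      have z2 : Zs (1 / 2 + ε + t * I) ≠ 0 := by
        intro h0
        have x2 := Pool.Agent.Y23.XX_strip (s := 1 / 2 + ε + t * I) (by rw [r2]; linarith)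
          (by rw [r2]; linarith)
        have e : (1 / 2 + ε + t * I - 1 / 2 : ℂ) = t * I + ε := by ring
        rw [e] at x2
        have x3 := Pool.Agent.H295R2.Zs_eq n1
        rw [h0] at x3
        rcases mul_eq_zero.1 x3 with x4 | x4
        · exact n1 (sub_eq_zero.1 x4)
        · rw [x4, mul_zero] at x2
          exact z1 x2
      exact ContinuousAt.comp (g := fz) (f := fun t : ℝ => (1 / 2 + ε + t * I : ℂ))
        (Pool.Agent.H295R2.fz_differentiableAt z2).continuousAt (by fun_prop)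
    have c3 : Continuous fun t : ℝ => (1 / 4 + t ^ 2 : ℝ) := by fun_prop
    exact ((continuous_const.sub (c1.mul c2)).norm.pow 2).div c3 fun t => by positivity
  have hint : Integrable fun t : ℝ => ‖1 - riemannZeta (1 / 2 + t * I) *
      fz (1 / 2 + ε + t * I)‖ ^ 2 / (1 / 4 + t ^ 2) := by
    refine hdom.mono' hcont.aestronglyMeasurable (ae_of_all _ fun t => ?_)
    rw [Real.norm_eq_abs, abs_of_nonneg (by positivity)]
    exact hpt t
  refine ⟨hint, ?_⟩
  have hle := integral_mono hint hdom hpt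
  refine hle.trans ?_
  rw [integral_add (i1.const_mul 4) (dom_int.const_mul _), integral_const_mul,
    integral_const_mul, i2, ← hM]
  -- the value at `1/2`
  have v1 : (qf ε (1 / 2)).re ≥ 1 - C1 * ε / 4 := by
    have w1 := hh ε hε (by linarith)
    have w2 := (h1 hRH (1 / 2) ε (by norm_num) hε.le)
    have w3 := w2.2 hε
    have w4 : (4 : ℝ) ≤ ‖XX (1 / 2 + ε)‖ := by
      refine le_trans (le_of_eq ?_) w2.1
      rw [Pool.Agent.H24R2.JP.Zer.XX_half]
      simp
    have w5 : ‖1 - qf ε (1 / 2)‖ ≤ C1 * ε / 4 := by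
      unfold qf
      have e : 1 - XX (1 / 2) / XX (1 / 2 + ε) = (XX (1 / 2 + ε) - XX (1 / 2)) / XX (1 / 2 + ε) := by
        rw [sub_div, div_self w3]
      rw [e, norm_div]
      exact div_le_div₀ (by positivity) w1 (by norm_num) w4
    have w6 := (Complex.re_le_norm _).trans w5
    rw [Complex.sub_re, Complex.one_re] at w6
    linarith
  have hπ := Real.pi_pos
  have v2 : 4 * (2 * Real.pi * (1 - (qf ε (1 / 2)).re)) ≤ 2 * Real.pi * C1 * ε := by
    have : 2 * Real.pi * (1 - (qf ε (1 / 2)).re) ≤ 2 * Real.pi * (C1 * ε / 4) :=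
      mul_le_mul_of_nonneg_left (by linarith) (by positivity)
    linarith
  have v3 : 2048 * C ^ 2 * ε ^ 2 * M ≤ 2048 * C ^ 2 * M * ε := by
    have : ε ^ 2 ≤ ε := by nlinarith
    have h5 : 2048 * C ^ 2 * M * ε ^ 2 ≤ 2048 * C ^ 2 * M * ε :=
      mul_le_mul_of_nonneg_left this (by positivity)
    linarith
  linarith

end Pool.Agent.N967
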