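import Pool.Agent.N967.Defs

/-!
# BD/K: an entire kernel with decay `exp (-c |y| / log L)`
-/

set_option autoImplicit false

namespace Pool.Agent.N967

open Complex

namespace Kern

/-- `sinh z / z` -/
noncomputable def sc (z : ℂ) : ℂ := dslope Complex.sinh 0 z

theorem sc_diff : Differentiable ℂ sc := by
  intro z
  have h : DifferentiableOn ℂ (dslope Complex.sinh 0) Set.univ :=
    (Complex.differentiableOn_dslope Filter.univ_mem).2 Complex.differentiable_sinh.differentiableOn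
  exact (h z (Set.mem_univ z)).differentiableAt Filter.univ_mem

theorem sc_zero : sc 0 = 1 := by
  unfold sc
  rw [dslope_same, Complex.deriv_sinh, Complex.cosh_zero]

theorem sc_of_ne {z : ℂ} (hz : z ≠ 0) : sc z = Complex.sinh z / z := by
  unfold sc
  rw [dslope_of_ne _ hz, slope_def_field, Complex.sinh_zero, sub_zero, sub_zero]

theorem norm_exp_le (z : ℂ) : ‖Complex.exp z‖ ≤ Real.exp |z.re| := by
  rw [Complex.norm_exp]
  exact Real.exp_le_exp.2 (le_abs_self _)

theorem norm_exp_neg_le (z : ℂ) : ‖Complex.exp (-z)‖ ≤ Real.exp |z.re| := by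
  rw [Complex.norm_exp, Complex.neg_re]
  exact Real.exp_le_exp.2 (neg_le_abs _)

theorem norm_cosh_le (z : ℂ) : ‖Complex.cosh z‖ ≤ Real.exp |z.re| := by
  rw [Complex.cosh, norm_div, Complex.norm_ofNat, div_le_iff₀ (by norm_num)]
  have h := norm_add_le (Complex.exp z) (Complex.exp (-z))
  have h1 := norm_exp_le z
  have h2 := norm_exp_neg_le z
  linarith

theorem norm_sinh_le (z : ℂ) : ‖Complex.sinh z‖ ≤ Real.exp |z.re| := by
  rw [Complex.sinh, norm_div, Complex.norm_ofNat, div_le_iff₀ (by norm_num)]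
  have h := norm_sub_le (Complex.exp z) (Complex.exp (-z))
  have h1 := norm_exp_le z
  have h2 := norm_exp_neg_le z
  linarith

theorem norm_sinh_le' (z : ℂ) : ‖Complex.sinh z‖ ≤ Real.exp |z.re| * ‖z‖ := by
  have hconv : Convex ℝ {u : ℂ | |u.re| ≤ |z.re|} := by
    have : {u : ℂ | |u.re| ≤ |z.re|} = Complex.reCLM ⁻¹' (Set.Icc (-|z.re|) |z.re|) := by
      ext u
      simp [abs_le]
    rw [this]
    exact (convex_Icc _ _).linear_preimage _
  have h := hconv.norm_image_sub_le_of_norm_deriv_le (f := Complex.sinh) (C := Real.exp |z.re|)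
    (x := 0) (y := z) (fun u _ => Complex.differentiable_sinh u) ?_ (by simp) (by simp)
  · simpa using h
  · intro u hu
    rw [Complex.deriv_sinh]
    exact (norm_cosh_le u).trans (Real.exp_le_exp.2 hu)

theorem norm_sc_le (z : ℂ) : ‖sc z‖ ≤ Real.exp |z.re| / max 1 |z.im| := by
  by_cases hz : z = 0
  · subst hz
    rw [sc_zero]
    simp
  · rw [sc_of_ne hz, norm_div]
    have hz' : 0 < ‖z‖ := norm_pos_iff.2 hz
    have hm : 0 < max 1 |z.im| := lt_of_lt_of_le one_pos (le_max_left _ _)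
    rw [div_le_div_iff₀ hz' hm]
    rcases le_total 1 |z.im| with h | h
    · rw [max_eq_right h]
      have h1 := norm_sinh_le z
      have h2 := Complex.abs_im_le_norm z
      have h3 : 0 ≤ ‖Complex.sinh z‖ := norm_nonneg _
      have h4 : 0 ≤ |z.im| := abs_nonneg _
      have h5 := Real.exp_pos |z.re|
      calc ‖Complex.sinh z‖ * |z.im| ≤ Real.exp |z.re| * |z.im| :=
            mul_le_mul_of_nonneg_right h1 h4
        _ ≤ Real.exp |z.re| * ‖z‖ := mul_le_mul_of_nonneg_left h2 h5.le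
    · rw [max_eq_left h, mul_one]
      exact norm_sinh_le' z

/-- the scale of the `k`-th factor -/
noncomputable def bk (M k : ℕ) : ℝ := 1 / (4 * M * 2 ^ k)

/-- the kernel -/
noncomputable def mm (M : ℕ) (z : ℂ) : ℂ :=
  Complex.exp (-(3 / 4) * z) * ∏ k ∈ Finset.range M, sc ((bk M k : ℂ) * z) ^ (2 ^ k)

/-- the bound for the decay -/
noncomputable def DD (M : ℕ) (y : ℝ) : ℝ :=
  ∏ k ∈ Finset.range M, (1 / max 1 (bk M k * y)) ^ (2 ^ k)

theorem mm_diff (M : ℕ) : Differentiable ℂ (mm M) := by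
  unfold mm
  refine Differentiable.mul (by fun_prop) ?_
  refine Differentiable.fun_finsetProd fun k _ => ?_
  exact (sc_diff.comp (by fun_prop)).pow _

theorem mm_zero (M : ℕ) : mm M 0 = 1 := by
  unfold mm
  simp [sc_zero]

theorem bk_pos {M : ℕ} (hM : 0 < M) (k : ℕ) : 0 < bk M k := by
  unfold bk
  have : (0 : ℝ) < M := by exact_mod_cast hM
  positivity

theorem bk_sum {M : ℕ} (hM : 0 < M) : ∑ k ∈ Finset.range M, (2 : ℝ) ^ k * bk M k = 1 / 4 := by
  have hM' : (M : ℝ) ≠ 0 := by exact_mod_cast hM.ne'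
  have h : ∀ k ∈ Finset.range M, (2 : ℝ) ^ k * bk M k = 1 / (4 * M) := by
    intro k _
    unfold bk
    have : (2 : ℝ) ^ k ≠ 0 := by positivity
    field_simp
  rw [Finset.sum_congr rfl h, Finset.sum_const, Finset.card_range, nsmul_eq_mul]
  field_simp

theorem mm_le {M : ℕ} (hM : 0 < M) (z : ℂ) :
    ‖mm M z‖ ≤ Real.exp (-(3 / 4) * z.re + 1 / 4 * |z.re|) * DD M |z.im| := by
  unfold mm DD
  rw [norm_mul, Complex.norm_exp, norm_prod]
  have hre : (-(3 / 4) * z).re = -(3 / 4) * z.re := by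
    have : (-(3 / 4) : ℂ) = ((-(3 / 4) : ℝ) : ℂ) := by push_cast; ring
    rw [this, Complex.re_ofReal_mul]
  rw [hre]
  have h1 : ∀ k ∈ Finset.range M, ‖sc ((bk M k : ℂ) * z) ^ (2 ^ k)‖ ≤
      Real.exp ((2 : ℝ) ^ k * bk M k * |z.re|) * (1 / max 1 (bk M k * |z.im|)) ^ (2 ^ k) := by
    intro k _
    have hb := bk_pos hM k
    have h2 := norm_sc_le ((bk M k : ℂ) * z)
    rw [Complex.re_ofReal_mul, Complex.im_ofReal_mul, abs_mul, abs_mul, abs_of_pos hb] at h2
    rw [norm_pow]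
    calc ‖sc ((bk M k : ℂ) * z)‖ ^ (2 ^ k) ≤
        (Real.exp (bk M k * |z.re|) / max 1 (bk M k * |z.im|)) ^ (2 ^ k) :=
          pow_le_pow_left₀ (norm_nonneg _) h2 _
      _ = _ := by
        rw [div_eq_mul_one_div, mul_pow, ← Real.exp_nat_mul]
        congr 2
        push_cast
        ring
  have h2 := Finset.prod_le_prod (s := Finset.range M) (fun k _ => norm_nonneg _) h1
  rw [Finset.prod_mul_distrib, ← Real.exp_sum, ← Finset.sum_mul, bk_sum hM] at h2
  rw [Real.exp_add, mul_assoc]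
  exact mul_le_mul_of_nonneg_left h2 (Real.exp_pos _).le

theorem DD_le {M : ℕ} (y : ℝ) {k : ℕ} (hk : k < M) :
    DD M y ≤ (1 / max 1 (bk M k * y)) ^ (2 ^ k) := by
  unfold DD
  have h : ∀ j ∈ Finset.range M, 0 ≤ (1 / max 1 (bk M j * y)) ^ (2 ^ j) ∧
      (1 / max 1 (bk M j * y)) ^ (2 ^ j) ≤ 1 := by
    intro j _
    have h1 : 1 ≤ max 1 (bk M j * y) := le_max_left _ _
    have h2 : 0 ≤ 1 / max 1 (bk M j * y) := by positivity
    refine ⟨pow_nonneg h2 _, pow_le_one₀ h2 ?_⟩
    rw [div_le_one (by linarith)]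
    exact h1
  rw [← Finset.mul_prod_erase _ _ (Finset.mem_range.2 hk)]
  refine mul_le_of_le_one_right (h k (Finset.mem_range.2 hk)).1 ?_
  refine Finset.prod_le_one (fun j hj => (h j (Finset.mem_of_mem_erase hj)).1)
    (fun j hj => (h j (Finset.mem_of_mem_erase hj)).2)

theorem DD_le_one (M : ℕ) (y : ℝ) : DD M y ≤ 1 := by
  unfold DD
  refine Finset.prod_le_one (fun j _ => ?_) (fun j _ => ?_)
  · have h1 : 1 ≤ max 1 (bk M j * y) := le_max_left _ _
    positivity
  · have h1 : 1 ≤ max 1 (bk M j * y) := le_max_left _ _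
    have h2 : 0 ≤ 1 / max 1 (bk M j * y) := by positivity
    refine pow_le_one₀ h2 ?_
    rw [div_le_one (by linarith)]
    exact h1

/-- the choice of `M` -/
theorem exists_M (L : ℝ) (hL : 257 ≤ L) : ∃ M : ℕ, 5 ≤ M ∧ L ≤ 4 * M * 2 ^ M ∧
    4 * M * 2 ^ M ≤ 4 * L ∧ (M : ℝ) ≤ 3 * Real.log L := by
  classical
  have hex : ∃ M : ℕ, L ≤ 4 * M * 2 ^ M := by
    refine ⟨⌈L⌉₊, ?_⟩
    have h1 : L ≤ (⌈L⌉₊ : ℝ) := Nat.le_ceil L
    have h2 : (1 : ℝ) ≤ 2 ^ ⌈L⌉₊ := one_le_pow₀ (by norm_num)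
    have h3 : (0 : ℝ) ≤ (⌈L⌉₊ : ℝ) := Nat.cast_nonneg _
    nlinarith
  obtain ⟨M, hM, hmin⟩ : ∃ M : ℕ, L ≤ 4 * M * 2 ^ M ∧ ∀ m < M, ¬ L ≤ 4 * m * 2 ^ m :=
    ⟨Nat.find hex, Nat.find_spec hex, fun m hm => Nat.find_min hex hm⟩
  have h5 : 5 ≤ M := by
    by_contra h
    have : M ≤ 4 := by omega
    interval_cases M <;> norm_num at hM <;> linarith
  obtain ⟨m, rfl⟩ : ∃ m, M = m + 1 := ⟨M - 1, by omega⟩
  have h6 := hmin m (by omega)
  rw [not_le] at h6
  have hm4 : (4 : ℝ) ≤ m := by exact_mod_cast (by omega : 4 ≤ m)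
  have hp : (0 : ℝ) < 2 ^ m := by positivity
  refine ⟨m + 1, h5, hM, ?_, ?_⟩
  · push_cast
    rw [pow_succ]
    nlinarith
  · have h7 : (2 : ℝ) ^ m ≤ L := by nlinarith
    have h8 : (m : ℝ) * Real.log 2 ≤ Real.log L := by
      rw [← Real.log_pow]
      exact Real.log_le_log hp h7
    have h9 : 1 ≤ Real.log L := by
      rw [Real.le_log_iff_exp_le (by linarith)]
      have := Real.exp_one_lt_d9
      linarith
    have h10 := Real.log_two_gt_d9
    push_cast
    nlinarith

theorem DD_KL {L : ℝ} (hL : 257 ≤ L) {M : ℕ} (h5 : 5 ≤ M) (hM1 : L ≤ 4 * M * 2 ^ M)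
    (hM2 : 4 * M * 2 ^ M ≤ 4 * L) (hM3 : (M : ℝ) ≤ 3 * Real.log L) (y : ℝ) :
    DD M |y| ≤ (5 ^ 8 * Real.exp 1) * KL (1 / 100) L y := by
  unfold KL
  have hy : 0 ≤ |y| := abs_nonneg y
  set t : ℝ := |y| with ht
  have hL0 : 0 < L := by linarith
  have hlog : 0 < Real.log L := Real.log_pos (by linarith)
  have hM0 : (0 : ℝ) < M := by exact_mod_cast (by omega : 0 < M)
  have hM5 : (5 : ℝ) ≤ M := by exact_mod_cast h5
  have hl2 := Real.log_two_gt_d9
  have he1 : 1 ≤ Real.exp 1 := Real.one_le_exp (by norm_num)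
  have hpos8 : (0 : ℝ) < (1 + t / L) ^ 8 := by positivity
  have hminL : min t L ≤ L := min_le_right _ _
  have hmint : min t L ≤ t := min_le_left _ _
  have hmin0 : 0 ≤ min t L := le_min hy hL0.le
  -- reduction
  have red : ∀ D : ℝ, 0 ≤ D → t ≤ 4 * L →
      D ≤ Real.exp 1 * Real.exp (-(1 / 100 * min t L / Real.log L)) →
      D ≤ (5 ^ 8 * Real.exp 1) *
        (Real.exp (-(1 / 100 * min t L / Real.log L)) / (1 + t / L) ^ 8) := by
    intro D hD htL h
    have h1 : (1 + t / L) ^ 8 ≤ 5 ^ 8 := by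
      refine pow_le_pow_left₀ (by positivity) ?_ 8
      have : t / L ≤ 4 := by rw [div_le_iff₀ hL0]; linarith
      linarith
    rw [mul_div_assoc', le_div_iff₀ hpos8]
    calc D * (1 + t / L) ^ 8 ≤ D * 5 ^ 8 := mul_le_mul_of_nonneg_left h1 hD
      _ ≤ (Real.exp 1 * Real.exp (-(1 / 100 * min t L / Real.log L))) * 5 ^ 8 :=
          mul_le_mul_of_nonneg_right h (by norm_num)
      _ = _ := by ring
  have hDD0 : 0 ≤ DD M t := by
    unfold DD
    refine Finset.prod_nonneg fun j _ => ?_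
    have h1 : 1 ≤ max 1 (bk M j * t) := le_max_left _ _
    positivity
  have h32 : (32 : ℝ) ≤ 2 ^ M := by
    calc (32 : ℝ) = 2 ^ 5 := by norm_num
      _ ≤ 2 ^ M := pow_le_pow_right₀ (by norm_num) h5
  rcases lt_or_ge t (4 * M * 2 ^ M) with hA | hB
  · have htL : t ≤ 4 * L := by linarith
    refine red _ hDD0 htL ?_
    rcases lt_or_ge t (8 * M) with hA1 | hA2
    · -- small `t`
      refine (DD_le_one M t).trans ?_
      rw [← Real.exp_add]
      refine Real.one_le_exp ?_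
      have h1 : 1 / 100 * min t L / Real.log L ≤ 1 := by
        rw [div_le_one hlog]
        nlinarith
      linarith
    · -- middle range
      have h1 : 1 ≤ t / (8 * M) := by
        rw [one_le_div (by positivity)]
        exact hA2
      obtain ⟨k, hk1, hk2⟩ := exists_nat_pow_near h1 (one_lt_two)
      rw [le_div_iff₀ (by positivity)] at hk1
      rw [div_lt_iff₀ (by positivity)] at hk2
      have hkM : k + 1 < M := by
        have h2 : (2 : ℝ) ^ (k + 1) < 2 ^ M := by
          rw [pow_succ]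
          have : 2 ^ k * (8 * (M : ℝ)) < 4 * M * 2 ^ M := lt_of_le_of_lt hk1 hA
          have h3 : (4 * (M : ℝ)) * (2 ^ k * 2) < (4 * M) * 2 ^ M := by linarith
          exact lt_of_mul_lt_mul_left h3 (by positivity)
        exact (pow_lt_pow_iff_right₀ (by norm_num : (1 : ℝ) < 2)).1 h2
      refine (DD_le t (by omega : k < M)).trans ?_
      have h2 : 2 ≤ bk M k * t := by
        unfold bk
        rw [one_div, inv_mul_eq_div, le_div_iff₀ (by positivity)]
        linarith
      have h3 : (1 / max 1 (bk M k * t)) ^ (2 ^ k) ≤ (1 / 2 : ℝ) ^ (2 ^ k) := by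
        refine pow_le_pow_left₀ (by positivity) ?_ _
        refine one_div_le_one_div_of_le (by norm_num) ?_
        exact h2.trans (le_max_right _ _)
      refine h3.trans ?_
      have h4 : (1 / 2 : ℝ) ^ (2 ^ k) = Real.exp (-(Real.log 2 * 2 ^ k)) := by
        rw [Real.exp_neg, one_div, inv_pow]
        congr 1
        rw [mul_comm, show ((2 : ℝ) ^ k) = ((2 ^ k : ℕ) : ℝ) by push_cast; rfl, Real.exp_nat_mul,
          Real.exp_log (by norm_num)]
      rw [h4, ← Real.exp_add]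
      refine Real.exp_le_exp.2 ?_
      have h5 : 1 / 100 * min t L / Real.log L ≤ Real.log 2 * 2 ^ k := by
        rw [div_le_iff₀ hlog]
        have h6 : t < 2 ^ k * (16 * M) := by
          rw [pow_succ] at hk2
          linarith
        have h7 : (2 : ℝ) ^ k * (16 * M) ≤ 2 ^ k * (16 * (3 * Real.log L)) := by
          have : (0 : ℝ) < 2 ^ k := by positivity
          nlinarith
        have h8 : (0 : ℝ) < 2 ^ k * Real.log L := by positivity
        nlinarith
      linarith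
  · -- large `t`
    obtain ⟨j, rfl⟩ : ∃ j, M = j + 1 := ⟨M - 1, by omega⟩
    have hYpos : 0 < 4 * ((j + 1 : ℕ) : ℝ) * 2 ^ (j + 1) := by positivity
    have ht0 : 0 < t := lt_of_lt_of_le hYpos hB
    set Y : ℝ := 4 * ((j + 1 : ℕ) : ℝ) * 2 ^ (j + 1) with hY
    have hb : bk (j + 1) j * t = 2 * (t / Y) := by
      unfold bk
      rw [hY, pow_succ]
      field_simp
    have hYt : Y / t ≤ 1 := by rw [div_le_one ht0]; exact hB
    have hYt0 : 0 < Y / t := by positivity
    have h1 : DD (j + 1) t ≤ (1 / 2) ^ (2 ^ j) * (Y / t) ^ 8 := by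
      refine (DD_le t (by omega : j < j + 1)).trans ?_
      have h2 : 1 / max 1 (bk (j + 1) j * t) ≤ 1 / 2 * (Y / t) := by
        have h3 : 1 / 2 * (Y / t) = 1 / (2 * (t / Y)) := by
          field_simp
        rw [h3, hb]
        refine one_div_le_one_div_of_le (by positivity) (le_max_right _ _)
      have h3 : 0 ≤ 1 / max 1 (bk (j + 1) j * t) := by
        have : 1 ≤ max 1 (bk (j + 1) j * t) := le_max_left _ _
        positivity
      refine (pow_le_pow_left₀ h3 h2 _).trans ?_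
      rw [mul_pow]
      refine mul_le_mul_of_nonneg_left ?_ (by positivity)
      refine pow_le_pow_of_le_one hYt0.le hYt ?_
      calc 8 ≤ 2 ^ 4 := by norm_num
        _ ≤ 2 ^ j := Nat.pow_le_pow_right (by norm_num) (by omega)
    refine h1.trans ?_
    have h2 : (1 / 2 : ℝ) ^ (2 ^ j) ≤ Real.exp (-(1 / 100 * min t L / Real.log L)) := by
      have h4 : (1 / 2 : ℝ) ^ (2 ^ j) = Real.exp (-(Real.log 2 * 2 ^ j)) := by
        rw [Real.exp_neg, one_div, inv_pow]
        congr 1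
        rw [mul_comm, show ((2 : ℝ) ^ j) = ((2 ^ j : ℕ) : ℝ) by push_cast; rfl, Real.exp_nat_mul,
          Real.exp_log (by norm_num)]
      rw [h4]
      refine Real.exp_le_exp.2 ?_
      have h5 : 1 / 100 * min t L / Real.log L ≤ Real.log 2 * 2 ^ j := by
        rw [div_le_iff₀ hlog]
        have h6 : L ≤ 2 ^ j * (8 * ((j + 1 : ℕ) : ℝ)) := by
          rw [hY, pow_succ] at hM1
          linarith
        have h7 : (2 : ℝ) ^ j * (8 * ((j + 1 : ℕ) : ℝ)) ≤ 2 ^ j * (8 * (3 * Real.log L)) := by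
          have : (0 : ℝ) < 2 ^ j := by positivity
          nlinarith
        have h8 : (0 : ℝ) < 2 ^ j * Real.log L := by positivity
        nlinarith
      linarith
    have h3 : (Y / t) ^ 8 ≤ 5 ^ 8 / (1 + t / L) ^ 8 := by
      rw [le_div_iff₀ hpos8, ← mul_pow]
      refine pow_le_pow_left₀ (by positivity) ?_ 8
      have h4 : Y / t * (1 + t / L) = Y / t + Y / L := by field_simp
      rw [h4]
      have h5 : Y / L ≤ 4 := by rw [div_le_iff₀ hL0]; exact hM2
      linarith
    calc (1 / 2 : ℝ) ^ (2 ^ j) * (Y / t) ^ 8 ≤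
        Real.exp (-(1 / 100 * min t L / Real.log L)) * (5 ^ 8 / (1 + t / L) ^ 8) :=
          mul_le_mul h2 h3 (by positivity) (Real.exp_pos _).le
      _ = 5 ^ 8 * 1 * (Real.exp (-(1 / 100 * min t L / Real.log L)) / (1 + t / L) ^ 8) := by ring
      _ ≤ 5 ^ 8 * Real.exp 1 *
          (Real.exp (-(1 / 100 * min t L / Real.log L)) / (1 + t / L) ^ 8) := by
          refine mul_le_mul_of_nonneg_right ?_ (by positivity)
          exact mul_le_mul_of_nonneg_left he1 (by norm_num)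

end Kern

open Kern in
theorem kern : S_kern := by
  refine ⟨1 / 100, 5 ^ 8 * Real.exp 1, 257, by norm_num, by positivity, by norm_num, ?_⟩
  intro L hL
  obtain ⟨M, h5, h1, h2, h3⟩ := exists_M L hL
  have hM : 0 < M := by omega
  refine ⟨mm M, mm_diff M, mm_zero M, ?_, ?_⟩
  · intro z hz
    refine (mm_le hM z).trans ?_
    rw [abs_of_nonneg hz, show -(3 / 4) * z.re + 1 / 4 * z.re = -(z.re / 2) by ring]
    have h := DD_KL hL h5 h1 h2 h3 z.im
    calc Real.exp (-(z.re / 2)) * DD M |z.im| ≤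
        Real.exp (-(z.re / 2)) * ((5 ^ 8 * Real.exp 1) * KL (1 / 100) L z.im) :=
          mul_le_mul_of_nonneg_left h (Real.exp_pos _).le
      _ = _ := by ring
  · intro z hz
    refine (mm_le hM z).trans ?_
    rw [abs_of_nonpos hz, show -(3 / 4) * z.re + 1 / 4 * -z.re = -z.re by ring]
    have h := DD_KL hL h5 h1 h2 h3 z.im
    calc Real.exp (-z.re) * DD M |z.im| ≤
        Real.exp (-z.re) * ((5 ^ 8 * Real.exp 1) * KL (1 / 100) L z.im) :=
          mul_le_mul_of_nonneg_left h (Real.exp_pos _).le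
      _ = _ := by ring

end Pool.Agent.N967
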