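import Mathlib
import Pool.Agent.N967.NT
import Pool.Agent.H295R2.L
import Pool.Agent.Y22.LM3

set_option autoImplicit false

/-!
# Littlewood's bounds and the monotonicity of `|ξ|` under the Riemann hypothesis
-/

open MeasureTheory Filter Topology Set Metric

namespace Pool.Agent.N967

open Pool.Agent.H295R2

noncomputable section

/-- Littlewood's bounds for `ζ` and `1/ζ` in a zero-free half plane, away from the real axis. -/
theorem both_bound {θ σ ε : ℝ} (hθ : 1 / 4 ≤ θ) (hθ1 : θ < 1)
    (hz : ∀ s : ℂ, θ < s.re → Zs s ≠ 0) (hσ : θ < σ) (hσ1 : σ ≤ 1) (hε : 0 < ε) :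
    ∃ C : ℝ, 0 < C ∧ ∀ s : ℂ, σ ≤ s.re → s.re ≤ 2 → 4 ≤ |s.im| →
      ‖riemannZeta s‖ ≤ C * (1 + |s.im|) ^ ε ∧ ‖fz s‖ ≤ C * (1 + |s.im|) ^ ε := by
  -- parameters
  set R : ℝ := 2 - (θ + σ) / 2 with hR
  set R' : ℝ := 2 - (θ + 3 * σ) / 4 with hR'
  have hRR' : R' < R := by rw [hR, hR']; linarith
  have hR2 : R < 7 / 4 := by rw [hR]; linarith
  have hR'1 : 1 < R' := by rw [hR']; linarith
  have hrR' : 2 - σ < R' := by rw [hR']; linarith
  have hR1 : 1 < R := by linarith
  obtain ⟨K, hK1, hK⟩ := zeta_bounds (a := 17 / 16) (by norm_num)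
  have hlogK : 0 ≤ Real.log K := Real.log_nonneg hK1
  set C1 : ℝ := 2 * (Real.log K + 1) * (7 / 8) / (15 / 16 - 7 / 8) +
    (Real.log K + 4) * (15 / 16 + 7 / 8) / (15 / 16 - 7 / 8) with hC1
  have hC1pos : 0 < C1 := by
    rw [hC1]
    have : (0:ℝ) < 15 / 16 - 7 / 8 := by norm_num
    positivity
  set C2 : ℝ := 2 * 5 * R' / (R - R') + (Real.log K + 4) * (R + R') / (R - R') with hC2
  have hC2pos : 0 < C2 := by
    rw [hC2]
    have : (0:ℝ) < R - R' := by linarith
    positivity
  -- choose N
  have hratio : (2 - σ) / R' < 1 := by rw [div_lt_one (by linarith)]; exact hrR'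
  have hratio0 : 0 ≤ (2 - σ) / R' := div_nonneg (by linarith) (by linarith)
  obtain ⟨N, hN⟩ := exists_pow_lt_of_lt_one (div_pos hε hC2pos) hratio
  have hN' : C2 * ((2 - σ) / R') ^ N ≤ ε := by
    have := (lt_div_iff₀ hC2pos).mp hN
    linarith
  set C3 : ℝ := C1 * ((2 - σ) / (7 / 8)) ^ N with hC3
  have hC3pos : 0 ≤ C3 := by
    rw [hC3]
    have : (0:ℝ) ≤ (2 - σ) / (7 / 8) := div_nonneg (by linarith) (by norm_num)
    positivity
  -- main claim for |t| ≥ 4
  have main : ∀ s : ℂ, σ ≤ s.re → s.re ≤ 2 → 4 ≤ |s.im| →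
      ‖riemannZeta s‖ ≤ Real.exp (C1 + C3 + ε) * 5 ^ ε * (1 + |s.im|) ^ ε ∧
      ‖fz s‖ ≤ Real.exp (C1 + C3 + ε) * 5 ^ ε * (1 + |s.im|) ^ ε := by
    intro s hs1 hs2 ht
    set t : ℝ := s.im with htdef
    set c : ℂ := ⟨2, t⟩ with hc
    set f0 : ℂ → ℂ := fun z => riemannZeta (c + z) with hf0
    have hcre : c.re = 2 := rfl
    have hcim : c.im = t := rfl
    -- geometry
    have hgeo : ∀ z ∈ ball (0:ℂ) R, θ < (c + z).re ∧ (c + z).re ≤ 4 ∧ |t| - 2 ≤ |(c + z).im| ∧ |(c+z).im| ≤ |t| + 2 := by
      intro z hz'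
      rw [mem_ball_zero_iff] at hz'
      have h1 := Complex.abs_re_le_norm z
      have h2 := Complex.abs_im_le_norm z
      have h3 := abs_le.mp (h1.trans hz'.le)
      have h4 := abs_le.mp (h2.trans hz'.le)
      rw [Complex.add_re, Complex.add_im, hcre, hcim]
      refine ⟨by rw [hR] at h3; linarith, by linarith [h3.2], ?_, ?_⟩
      · have := abs_sub_abs_le_abs_sub t (-z.im)
        rw [abs_neg, sub_neg_eq_add] at this
        have : |z.im| ≤ 2 := by linarith
        linarith
      · have := abs_add_le t z.im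
        have : |z.im| ≤ 2 := by linarith
        linarith
    have hne1 : ∀ z ∈ ball (0:ℂ) R, c + z ≠ 1 := by
      intro z hz' h
      have := (hgeo z hz').2.2.1
      rw [h] at this
      simp at this
      linarith
    have hf0d : DifferentiableOn ℂ f0 (ball 0 R) := by
      intro z hz'
      refine DifferentiableAt.differentiableWithinAt ?_
      have := differentiableAt_riemannZeta (hne1 z hz')
      exact DifferentiableAt.comp z (g := riemannZeta) (f := fun z => c + z) this (by fun_prop)
    have hf0ne : ∀ z ∈ ball (0:ℂ) R, f0 z ≠ 0 := by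
      intro z hz' h
      apply hz (c + z) (hgeo z hz').1
      rw [← Zs_eq (hne1 z hz')]
      have : riemannZeta (c + z) = 0 := h
      rw [this, mul_zero]
    obtain ⟨L, hLd, hLexp, hL0⟩ := exists_log_ball (by linarith) hf0d hf0ne
    have hLre : ∀ z ∈ ball (0:ℂ) R, (L z).re = Real.log ‖f0 z‖ := by
      intro z hz'
      rw [← hLexp z hz', Complex.norm_exp, Real.log_exp]
    -- value at 0
    have hL00 : ‖L 0‖ ≤ Real.log K + 4 := by
      rw [hL0]
      have hc0 : 17 / 16 ≤ (c + 0).re := by rw [add_zero, hcre]; norm_num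
      refine norm_log_le hK1 (hK _ hc0).1 ?_ (hf0ne 0 (mem_ball_self (by linarith)))
      have := (hK _ hc0).2
      rw [fz_eq (hne1 0 (mem_ball_self (by linarith)))] at this
      exact this
    -- bound on ball R
    set A : ℝ := 5 * (1 + Real.log (|t| + 5)) with hA
    have hlogt : 0 ≤ Real.log (|t| + 5) := Real.log_nonneg (by linarith [abs_nonneg t])
    have hApos : 0 < A := by rw [hA]; positivity
    have hupper : MapsTo L (ball 0 R) {z | z.re ≤ A} := by
      intro z hz'
      obtain ⟨g1, g2, g3, g4⟩ := hgeo z hz'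
      have h1 : ‖f0 z‖ ≤ 5 * (|t| + 7) ^ 2 := by
        have h2 : ‖Zs (c + z)‖ ≤ 5 * (‖c + z‖ + 1) ^ 2 := Zs_norm_le (by linarith)
        rw [← Zs_eq (hne1 z hz'), norm_mul] at h2
        have h3 : 1 ≤ ‖c + z - 1‖ := by
          have h4 := Complex.abs_im_le_norm (c + z - 1)
          rw [Complex.sub_im, Complex.one_im, sub_zero] at h4
          linarith
        have h5 : ‖c + z‖ ≤ |t| + 6 := by
          have := Complex.norm_le_abs_re_add_abs_im (c + z)
          have h6 : |(c + z).re| ≤ 4 := by
            rw [abs_le]; constructor <;> linarith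
          linarith
        have h7 : ‖f0 z‖ ≤ ‖c + z - 1‖ * ‖riemannZeta (c + z)‖ := by
          have h8 : 0 ≤ ‖riemannZeta (c + z)‖ := norm_nonneg _
          calc ‖f0 z‖ = 1 * ‖riemannZeta (c + z)‖ := by rw [one_mul]
            _ ≤ _ := mul_le_mul_of_nonneg_right h3 h8
        calc ‖f0 z‖ ≤ 5 * (‖c + z‖ + 1) ^ 2 := h7.trans h2
          _ ≤ 5 * (|t| + 7) ^ 2 := by
            have : ‖c + z‖ + 1 ≤ |t| + 7 := by linarith
            gcongr
      change (L z).re ≤ A
      rw [hLre z hz']
      have hf0pos : 0 < ‖f0 z‖ := norm_pos_iff.mpr (hf0ne z hz')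
      have h9 : Real.log ‖f0 z‖ ≤ Real.log (5 * (|t| + 7) ^ 2) := Real.log_le_log hf0pos h1
      have h10 : Real.log (5 * (|t| + 7) ^ 2) = Real.log 5 + 2 * Real.log (|t| + 7) := by
        rw [Real.log_mul (by norm_num) (by positivity), Real.log_pow]
        norm_num
      have h11 : Real.log (|t| + 7) ≤ Real.log (|t| + 5) + 1 := by
        have h12 : |t| + 7 ≤ Real.exp 1 * (|t| + 5) := by
          have := Real.add_one_le_exp (1:ℝ)
          nlinarith [abs_nonneg t]
        calc Real.log (|t| + 7) ≤ Real.log (Real.exp 1 * (|t| + 5)) :=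
              Real.log_le_log (by positivity) h12
          _ = Real.log (|t| + 5) + 1 := by
            rw [Real.log_mul (Real.exp_pos _).ne' (by positivity), Real.log_exp]; ring
      have h13 : Real.log 5 ≤ 2 := by
        rw [Real.log_le_iff_le_exp (by norm_num)]
        have h14 := Real.quadratic_le_exp_of_nonneg (x := 2) (by norm_num)
        linarith
      rw [hA]
      linarith
    have hBC : ∀ z : ℂ, ‖z‖ ≤ R' → ‖L z‖ ≤ C2 * (1 + Real.log (|t| + 5)) := by
      intro z hz'
      have hzR : z ∈ ball (0:ℂ) R := by rw [mem_ball_zero_iff]; linarith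
      have h1 := Complex.borelCaratheodory hApos hLd hupper (by linarith) hzR
      refine h1.trans ?_
      have hd1 : 0 < R - R' := by linarith
      have hd2 : R - R' ≤ R - ‖z‖ := by linarith
      have e1 : 2 * A * ‖z‖ / (R - ‖z‖) ≤ 2 * A * R' / (R - R') := by
        have : 0 ≤ 2 * A * R' := by positivity
        gcongr
      have e2 : ‖L 0‖ * (R + ‖z‖) / (R - ‖z‖) ≤ (Real.log K + 4) * (R + R') / (R - R') := by
        gcongr
      have e3 : 0 ≤ (Real.log K + 4) * (R + R') / (R - R') := by positivity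
      calc _ ≤ 2 * A * R' / (R - R') + (Real.log K + 4) * (R + R') / (R - R') := add_le_add e1 e2
        _ ≤ C2 * (1 + Real.log (|t| + 5)) := by
          rw [hC2, hA]
          have e4 : 2 * (5 * (1 + Real.log (|t| + 5))) * R' / (R - R') =
            (2 * 5 * R' / (R - R')) * (1 + Real.log (|t| + 5)) := by ring
          rw [e4]
          generalize (Real.log K + 4) * (R + R') / (R - R') = q at e3 ⊢
          generalize 2 * 5 * R' / (R - R') = p
          nlinarith
    -- bound on small ball
    have hsmall : ∀ z : ℂ, ‖z‖ ≤ 7 / 8 → ‖L z‖ ≤ C1 := by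
      intro z hz'
      have hsub : ball (0:ℂ) (15 / 16) ⊆ ball (0:ℂ) R := ball_subset_ball (by linarith)
      have hup2 : MapsTo L (ball 0 (15 / 16)) {z | z.re ≤ Real.log K + 1} := by
        intro w hw
        change (L w).re ≤ _
        rw [hLre w (hsub hw)]
        have hre : 17 / 16 ≤ (c + w).re := by
          rw [mem_ball_zero_iff] at hw
          have := abs_le.mp ((Complex.abs_re_le_norm w).trans hw.le)
          rw [Complex.add_re, hcre]
          linarith [this.1]
        have := Real.log_le_log (norm_pos_iff.mpr (hf0ne w (hsub hw))) (hK _ hre).1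
        linarith
      have hzR : z ∈ ball (0:ℂ) (15 / 16) := by rw [mem_ball_zero_iff]; linarith
      have h1 := Complex.borelCaratheodory (by linarith : 0 < Real.log K + 1) (hLd.mono hsub) hup2
        (by norm_num) hzR
      refine h1.trans ?_
      have hd1 : (0:ℝ) < 15 / 16 - 7 / 8 := by norm_num
      have hd2 : (15:ℝ) / 16 - 7 / 8 ≤ 15 / 16 - ‖z‖ := by linarith
      rw [hC1]
      refine add_le_add ?_ ?_
      · gcongr
      · gcongr
    -- annulus
    have hann : ∀ z : ℂ, 7 / 8 < ‖z‖ → ‖z‖ ≤ 2 - σ →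
        ‖L z‖ ≤ C3 + ε * (1 + Real.log (|t| + 5)) := by
      intro z hz1 hz2
      set U : Set ℂ := ball 0 R' ∩ (closedBall (0:ℂ) (7 / 8))ᶜ with hU
      set B : ℝ := C2 * (1 + Real.log (|t| + 5)) with hB
      have hBpos : 0 < B := by rw [hB]; positivity
      have hclos : closure U ⊆ closedBall 0 R' ∩ (ball (0:ℂ) (7 / 8))ᶜ := by
        refine closure_minimal ?_ (isClosed_closedBall.inter isOpen_ball.isClosed_compl)
        rintro w ⟨hw1, hw2⟩
        refine ⟨ball_subset_closedBall hw1, fun hw3 => hw2 (ball_subset_closedBall hw3)⟩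
      have hdiff : DiffContOnCl ℂ (fun w => L w / w ^ N) U := by
        refine DifferentiableOn.diffContOnCl ?_
        refine DifferentiableOn.mono (s := closure U) ?_ (subset_refl _)
        intro w hw
        obtain ⟨hw1, hw2⟩ := hclos hw
        rw [mem_closedBall_zero_iff] at hw1
        rw [mem_compl_iff, mem_ball_zero_iff, not_lt] at hw2
        have hw0 : w ≠ 0 := by
          intro h
          rw [h, norm_zero] at hw2
          norm_num at hw2
        have hwR : w ∈ ball (0:ℂ) R := by rw [mem_ball_zero_iff]; linarith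
        refine DifferentiableAt.differentiableWithinAt ?_
        refine DifferentiableAt.div (hLd.differentiableAt (isOpen_ball.mem_nhds hwR)) (by fun_prop)
          (pow_ne_zero _ hw0)
      have hfront : ∀ w ∈ frontier U, ‖L w / w ^ N‖ ≤ C1 / (7 / 8) ^ N + B / R' ^ N := by
        intro w hw
        have h1 : w ∈ frontier (ball (0:ℂ) R') ∪ frontier ((closedBall (0:ℂ) (7 / 8))ᶜ) := by
          rcases frontier_inter_subset _ _ hw with h | h
          · exact Or.inl h.1
          · exact Or.inr h.2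
        have hp1 : 0 < C1 / (7 / 8 : ℝ) ^ N := by positivity
        have hp2 : 0 < B / R' ^ N := by positivity
        rcases h1 with h1 | h1
        · rw [frontier_ball _ (by linarith : R' ≠ 0)] at h1
          rw [mem_sphere_zero_iff_norm] at h1
          rw [norm_div, norm_pow, h1]
          have := hBC w h1.le
          calc ‖L w‖ / R' ^ N ≤ B / R' ^ N := by gcongr
            _ ≤ _ := by linarith
        · rw [frontier_compl, frontier_closedBall _ (by norm_num : (7:ℝ) / 8 ≠ 0)] at h1
          rw [mem_sphere_zero_iff_norm] at h1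
          rw [norm_div, norm_pow, h1]
          have := hsmall w h1.le
          calc ‖L w‖ / (7 / 8) ^ N ≤ C1 / (7 / 8) ^ N := by gcongr
            _ ≤ _ := by linarith
      have hzU : z ∈ U := by
        refine ⟨?_, ?_⟩
        · rw [mem_ball_zero_iff]; linarith
        · rw [mem_compl_iff, mem_closedBall_zero_iff, not_le]; exact hz1
      have hbdd : Bornology.IsBounded U := isBounded_ball.subset inter_subset_left
      have h1 := Complex.norm_le_of_forall_mem_frontier_norm_le hbdd hdiff hfront (subset_closure hzU)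
      rw [norm_div, norm_pow] at h1
      have hzpos : 0 < ‖z‖ ^ N := pow_pos (by linarith) _
      rw [div_le_iff₀ hzpos] at h1
      have h2 : ‖z‖ ^ N ≤ (2 - σ) ^ N := pow_le_pow_left₀ (norm_nonneg _) hz2 N
      calc ‖L z‖ ≤ (C1 / (7 / 8) ^ N + B / R' ^ N) * ‖z‖ ^ N := h1
        _ ≤ (C1 / (7 / 8) ^ N + B / R' ^ N) * (2 - σ) ^ N := by gcongr
        _ = C3 + (C2 * ((2 - σ) / R') ^ N) * (1 + Real.log (|t| + 5)) := by
          rw [hC3, hB, div_pow (2 - σ) (7 / 8), div_pow (2 - σ) R']
          generalize (7 / 8 : ℝ) ^ N = b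
          generalize (2 - σ) ^ N = a
          ring
        _ ≤ _ := by gcongr
    -- conclude
    set z : ℂ := ((s.re - 2 : ℝ) : ℂ) with hzdef
    have hcz : c + z = s := by
      apply Complex.ext
      · rw [Complex.add_re, hcre, hzdef, Complex.ofReal_re]; ring
      · rw [Complex.add_im, hcim, hzdef, Complex.ofReal_im, add_zero]
    have hznorm : ‖z‖ = 2 - s.re := by
      rw [hzdef, Complex.norm_real, Real.norm_eq_abs, abs_of_nonpos (by linarith)]; ring
    have hzR : z ∈ ball (0:ℂ) R := by rw [mem_ball_zero_iff, hznorm]; linarith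
    have hLz : ‖L z‖ ≤ C1 + C3 + ε * (1 + Real.log (|t| + 5)) := by
      have hε' : 0 ≤ ε * (1 + Real.log (|t| + 5)) := by positivity
      rcases le_or_gt ‖z‖ (7 / 8) with h | h
      · have := hsmall z h
        linarith
      · have := hann z h (by rw [hznorm]; linarith)
        linarith
    have hfz : fz s = Complex.exp (-L z) := by
      rw [fz_eq, Complex.exp_neg, hLexp z hzR, hf0]
      · simp only [hcz]
      · rw [← hcz]; exact hne1 z hzR
    have hze : riemannZeta s = Complex.exp (L z) := by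
      rw [hLexp z hzR, hf0]
      simp only [hcz]
    have fin : ∀ u : ℂ, ‖u‖ ≤ C1 + C3 + ε * (1 + Real.log (|t| + 5)) →
        ‖Complex.exp u‖ ≤ Real.exp (C1 + C3 + ε) * 5 ^ ε * (1 + |t|) ^ ε := by
      intro u hu
      rw [Complex.norm_exp]
      have h1 : u.re ≤ C1 + C3 + ε + ε * Real.log (|t| + 5) := by
        have := Complex.abs_re_le_norm u
        have := le_abs_self u.re
        linarith
      calc Real.exp u.re ≤ Real.exp (C1 + C3 + ε + ε * Real.log (|t| + 5)) := Real.exp_le_exp.mpr h1
        _ = Real.exp (C1 + C3 + ε) * (|t| + 5) ^ ε := by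
          rw [Real.exp_add, Real.rpow_def_of_pos (by positivity), mul_comm ε]
        _ ≤ Real.exp (C1 + C3 + ε) * (5 * (1 + |t|)) ^ ε := by
          have : |t| + 5 ≤ 5 * (1 + |t|) := by linarith [abs_nonneg t]
          gcongr
        _ = Real.exp (C1 + C3 + ε) * 5 ^ ε * (1 + |t|) ^ ε := by
          rw [Real.mul_rpow (by norm_num) (by positivity)]; ring
    refine ⟨?_, ?_⟩
    · rw [hze]; exact fin _ hLz
    · rw [hfz]; exact fin _ (by rw [norm_neg]; exact hLz)
  exact ⟨_, by positivity, main⟩

theorem rh_right (h : RiemannHypothesis) {s : ℂ} (h0 : riemannZeta s = 0) : s.re ≤ 1 / 2 := by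
  by_contra h2
  push Not at h2
  have h1 : s.re < 1 := by
    by_contra h2
    push Not at h2
    exact riemannZeta_ne_zero_of_one_le_re h2 h0
  have h3 := h s h0 (by
    rintro ⟨n, hn⟩
    have := congrArg Complex.re hn
    simp at this
    have h3 : (0 : ℝ) ≤ n := Nat.cast_nonneg n
    linarith) (by rintro rfl; simp at h1)
  linarith

theorem rh_Zs (h : RiemannHypothesis) {s : ℂ} (hs : 1 / 2 < s.re) : Zs s ≠ 0 := by
  intro h0
  by_cases h1 : s = 1
  · exact Zs_ne_zero_of_one_le (s := s) (by rw [h1]; simp) h0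
  · rw [← Zs_eq h1] at h0
    rcases mul_eq_zero.mp h0 with h2 | h2
    · exact h1 (sub_eq_zero.mp h2)
    · linarith [rh_right h h2]

theorem lind : S_lind := by
  intro hRH σ ε hσ hσ1 hε
  obtain ⟨C, hC, hb⟩ := both_bound (θ := 1 / 2) (σ := σ) (ε := ε) (by norm_num) (by norm_num)
    (fun s hs => rh_Zs hRH hs) hσ hσ1.le hε
  have hne : ∀ t : ℝ, (σ : ℂ) + t * Complex.I ≠ 1 := by
    intro t h
    have := congrArg Complex.re h
    simp at this
    linarith
  have hc1 : ContinuousOn (fun t : ℝ => riemannZeta (σ + t * Complex.I)) (Icc (-4) 4) := by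
    refine Continuous.continuousOn ?_
    refine continuous_iff_continuousAt.mpr fun t => ?_
    have h1 := (differentiableAt_riemannZeta (hne t)).continuousAt
    exact ContinuousAt.comp (g := riemannZeta) (f := fun t : ℝ => (σ : ℂ) + t * Complex.I) h1
      (by fun_prop)
  have hc2 : ContinuousOn (fun t : ℝ => fz (σ + t * Complex.I)) (Icc (-4) 4) := by
    refine Continuous.continuousOn ?_
    refine continuous_iff_continuousAt.mpr fun t => ?_
    have h1 := (fz_differentiableAt (rh_Zs hRH (s := (σ : ℂ) + t * Complex.I) (by simpa using hσ))).continuousAt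
    exact ContinuousAt.comp (g := fz) (f := fun t : ℝ => (σ : ℂ) + t * Complex.I) h1
      (by fun_prop)
  obtain ⟨M1, hM1⟩ := isCompact_Icc.exists_bound_of_continuousOn hc1
  obtain ⟨M2, hM2⟩ := isCompact_Icc.exists_bound_of_continuousOn hc2
  refine ⟨C + |M1| + |M2|, by positivity, fun t => ?_⟩
  have hge : (1:ℝ) ≤ (1 + |t|) ^ ε := Real.one_le_rpow (by linarith [abs_nonneg t]) hε.le
  rcases le_or_gt 4 |t| with h | h
  · have h2 := hb ((σ : ℂ) + t * Complex.I) (by simp) (by simp; linarith) (by simpa using h)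
    have e : ((σ : ℂ) + t * Complex.I).im = t := by simp
    rw [e] at h2
    have h3 : 0 ≤ (|M1| + |M2|) * (1 + |t|) ^ ε := by positivity
    constructor <;> nlinarith [h2.1, h2.2]
  · have h1 := hM1 t ⟨by linarith [(abs_lt.mp h).1], (abs_lt.mp h).2.le⟩
    have h2 := hM2 t ⟨by linarith [(abs_lt.mp h).1], (abs_lt.mp h).2.le⟩
    have h3 := le_abs_self M1
    have h4 := le_abs_self M2
    have h5 := abs_nonneg M1
    have h6 := abs_nonneg M2
    constructor <;> nlinarith

open Polynomial in
theorem poly_mono (p : ℂ[X]) (hp : ∀ z : ℂ, p.eval z = 0 → z.re = 0) (w : ℂ) (h : ℝ)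
    (hw : 0 ≤ w.re) (hh : 0 ≤ h) : ‖p.eval w‖ ≤ ‖p.eval (w + h)‖ := by
  by_cases hp0 : p = 0
  · simp [hp0]
  have hsp : p.Splits := IsAlgClosed.splits p
  have hev : ∀ z : ℂ, p.eval z = p.leadingCoeff * (p.roots.map (fun r => z - r)).prod := by
    intro z
    exact hsp.eval_eq_prod_roots z
  have hr : ∀ r ∈ p.roots, r.re = 0 := by
    intro r hr
    rw [mem_roots hp0] at hr
    exact hp r hr
  rw [hev, hev, norm_mul, norm_mul]
  refine mul_le_mul_of_nonneg_left ?_ (norm_nonneg _)
  generalize p.roots = s at hr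
  induction s using Multiset.induction with
  | empty => simp
  | cons a s ih =>
    rw [Multiset.map_cons, Multiset.prod_cons, Multiset.map_cons, Multiset.prod_cons, norm_mul, norm_mul]
    have h1 := ih (fun r hr' => hr r (Multiset.mem_cons_of_mem hr'))
    have ha : a.re = 0 := hr a (Multiset.mem_cons_self _ _)
    refine mul_le_mul ?_ h1 (norm_nonneg _) (norm_nonneg _)
    have h2 : Complex.normSq (w - a) ≤ Complex.normSq (w + h - a) := by
      rw [Complex.normSq_apply, Complex.normSq_apply]
      simp only [Complex.sub_re, Complex.sub_im, Complex.add_re, Complex.add_im, Complex.ofReal_re,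
        Complex.ofReal_im, ha]
      nlinarith
    rw [Complex.norm_def, Complex.norm_def]
    exact Real.sqrt_le_sqrt h2

open Pool.Agent.H24R2.JP (XX) in
theorem mono : S_mono := by
  intro hRH w h hw hh
  have hz : ∀ z : ℂ, XX z = 0 → z.re = 0 := by
    intro z hz
    have h1 : Pool.Agent.Y23.IsZ (z + 1 / 2) := by
      rw [Pool.Agent.Y23.isZ_iff]
      have e : z + 1 / 2 - 1 / 2 = z := by ring
      rw [e]; exact hz
    obtain ⟨h2, h3, h4⟩ := h1
    have h5 := hRH _ h2 (by
      rintro ⟨n, hn⟩
      rw [hn] at h3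
      simp at h3
      have h6 : (0 : ℝ) ≤ n := Nat.cast_nonneg n
      linarith) (by intro h6; rw [h6] at h4; simp at h4)
    simp at h5
    exact h5
  constructor
  · obtain ⟨p, hp1, hp2, _⟩ := Pool.Agent.Y22.LM.xx_approx
    have hp3 := tendstoLocallyUniformlyOn_univ.mpr hp2
    have h1 := (hp3.tendsto_at (mem_univ w)).norm
    have h2 := (hp3.tendsto_at (mem_univ (w + (h : ℂ)))).norm
    refine le_of_tendsto_of_tendsto' h1 h2 fun N => ?_
    exact poly_mono (p N) (fun z hz' => hz z (hp1 N z hz')) w h hw hh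
  · intro hpos h0
    have h1 := hz _ h0
    simp at h1
    linarith

end

end Pool.Agent.N967
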