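import Pool.Agent.N967.LowD

set_option autoImplicit false

/-!
# Baez-Duarte's distance: the lower bounds

`int_ig : S_int` (in `LowA`), `low1 : S_int → S_shift → S_low1` (in `LowB`) and
`low2 : S_int → S_shift → S_low2`.
-/

namespace Pool.Agent.N967

open Complex MeasureTheory Filter Topology Set
open Pool.Agent.H295R2

lemma err_nonneg (N : ℕ) (a : ℕ → ℂ) : 0 ≤ err N a := by
  unfold err
  refine mul_nonneg (by positivity) (integral_nonneg fun t => ?_)
  simp only [Pi.zero_apply]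
  unfold ig
  positivity

lemma norm_ge_three {z : ℂ} (hz : 1 / 4 ≤ |z.re|) : 1 + |z.im| ≤ 5 * ‖z‖ := by
  have h1 := Complex.abs_re_le_norm z
  have h2 := Complex.abs_im_le_norm z
  linarith

lemma int_line {F : ℂ → ℂ} {b B : ℝ} (hb : 1 / 4 ≤ |b|)
    (hd : ∀ z : ℂ, z.re = b → DifferentiableAt ℂ F z)
    (hB : ∀ z : ℂ, z.re = b → ‖F z‖ ≤ B * (1 + |z.im|) ^ (-(1 / 2 : ℝ))) :
    Integrable (fun y : ℝ => F (b + y * I) / (b + y * I)) := by
  have hne : ∀ z : ℂ, z.re = b → z ≠ 0 := by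
    rintro z hz rfl
    simp at hz
    rw [← hz] at hb
    norm_num at hb
  refine vertical_integrable (H := fun z => F z / z) (a := b) (B := 5 * B) (fun z hz => ?_)
    (fun z hz => ?_)
  · exact (hd z hz).continuousAt.div continuousAt_id (hne z hz)
  · have h1 := hB z hz
    have h2 := norm_ge_three (z := z) (by rwa [hz])
    have h4 : 0 < 1 + |z.im| := by positivity
    have h5 : 0 < ‖z‖ := by linarith
    have hB0 : 0 ≤ B := by
      by_contra hneg
      push Not at hneg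
      have h7 : 0 < (1 + |z.im|) ^ (-(1 / 2 : ℝ)) := by positivity
      nlinarith [norm_nonneg (F z)]
    rw [norm_div, div_le_iff₀ h5]
    have h6 : (1 + |z.im|) ^ (-(1 / 2 : ℝ)) = (1 + |z.im|) ^ (-(3 / 2 : ℝ)) * (1 + |z.im|) := by
      nth_rewrite 3 [← Real.rpow_one (1 + |z.im|)]
      rw [← Real.rpow_add h4]
      norm_num
    calc ‖F z‖ ≤ B * (1 + |z.im|) ^ (-(1 / 2 : ℝ)) := h1
      _ = B * (1 + |z.im|) ^ (-(3 / 2 : ℝ)) * (1 + |z.im|) := by rw [h6]; ring
      _ ≤ B * (1 + |z.im|) ^ (-(3 / 2 : ℝ)) * (5 * ‖z‖) := by gcongr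
      _ = _ := by ring

/-- the main identity -/
lemma main_id (hs : S_shift) (N : ℕ) (a : ℕ → ℂ) (L : ℝ) {ρ : ℂ} (hρ : ρ.re = 1 / 2) :
    2 * Real.pi * GLow N a ρ = (∫ y : ℝ, GLow N a (y * I + ρ) * K1 L (y * I)) -
      ∫ y : ℝ, GLow N a (((-(1 / 4) : ℝ) : ℂ) + y * I + ρ) *
        cexp (L * (((-(1 / 4) : ℝ) : ℂ) + y * I) + (((-(1 / 4) : ℝ) : ℂ) + y * I) ^ 2) /
        (((-(1 / 4) : ℝ) : ℂ) + y * I) := by
  obtain ⟨BG, hBG0, hBG⟩ := GG_bound N a
  obtain ⟨BK, hBK0, hBK⟩ := K1_strip L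
  set H : ℂ → ℂ := fun z => GLow N a (z + ρ) with hH
  have hHd : ∀ z : ℂ, -(1 / 4) ≤ z.re → DifferentiableAt ℂ H z := by
    intro z hz
    have h1 : DifferentiableAt ℂ (GLow N a) (z + ρ) := by
      refine GG_diff N a ?_
      simp only [add_re]
      linarith
    exact DifferentiableAt.comp (g := GLow N a) (f := fun z : ℂ => z + ρ) z h1 (by fun_prop)
  have hHb : ∀ z : ℂ, -(1 / 4) ≤ z.re → ‖H z‖ ≤ BG := by
    intro z hz
    refine hBG _ ?_
    simp only [add_re]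
    linarith
  set P : ℂ → ℂ := fun z => H z * cexp (L * z + z ^ 2) with hP
  set Q : ℂ → ℂ := fun z => H z * ((1 + z) ^ 4)⁻¹ with hQ
  set E := Real.exp (|L| / 2 + 1 / 4) with hE
  have hPd : ∀ z : ℂ, -(1 / 4) ≤ z.re → DifferentiableAt ℂ P z := by
    intro z hz
    have h2 : DifferentiableAt ℂ (fun z : ℂ => cexp (L * z + z ^ 2)) z := by fun_prop
    exact (hHd z hz).mul h2
  have hQd : ∀ z : ℂ, -(1 / 4) ≤ z.re → DifferentiableAt ℂ Q z := by
    intro z hz
    have h2 : DifferentiableAt ℂ (fun z : ℂ => (1 + z) ^ 4) z := by fun_prop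
    exact (hHd z hz).mul (h2.inv (pow_ne_zero 4 (one_add_ne (by linarith))))
  have hPb : ∀ z : ℂ, -(1 / 4) ≤ z.re → z.re ≤ 1 / 2 →
      ‖P z‖ ≤ (2 * BG * E) * (1 + |z.im|) ^ (-(1 / 2 : ℝ)) := by
    intro z h0 h1
    rw [hP]
    simp only
    rw [norm_mul, norm_exp_kern]
    have h2 : Real.exp (L * z.re + z.re ^ 2) ≤ E := by
      refine Real.exp_le_exp.mpr ?_
      have h4 : L * z.re ≤ |L| / 2 := by
        have h6 : |z.re| ≤ 1 / 2 := abs_le.mpr ⟨by linarith, h1⟩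
        calc L * z.re ≤ |L * z.re| := le_abs_self _
          _ = |L| * |z.re| := abs_mul _ _
          _ ≤ |L| * (1 / 2) := by gcongr
          _ = _ := by ring
      have h5 : z.re ^ 2 ≤ 1 / 4 := by nlinarith
      linarith
    have h3 := (exp_neg_sq_le z.im).trans (mul_le_mul_of_nonneg_left (inv_sq_le_half z.im) zero_le_two)
    calc ‖H z‖ * (Real.exp (L * z.re + z.re ^ 2) * Real.exp (-z.im ^ 2)) ≤
          BG * (E * (2 * (1 + |z.im|) ^ (-(1 / 2 : ℝ)))) := by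
          refine mul_le_mul (hHb z h0) (mul_le_mul h2 h3 (Real.exp_pos _).le (Real.exp_pos _).le)
            (by positivity) hBG0
      _ = _ := by ring
  have hQb : ∀ z : ℂ, -(1 / 4) ≤ z.re → ‖Q z‖ ≤ (81 * BG) * (1 + |z.im|) ^ (-(1 / 2 : ℝ)) := by
    intro z h0
    rw [hQ]
    simp only
    rw [norm_mul]
    have h3 := (inv_four_le h0).trans (mul_le_mul_of_nonneg_left (inv_sq_le_half z.im) (by norm_num))
    calc ‖H z‖ * ‖((1 + z) ^ 4)⁻¹‖ ≤ BG * (81 * (1 + |z.im|) ^ (-(1 / 2 : ℝ))) :=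
          mul_le_mul (hHb z h0) h3 (norm_nonneg _) hBG0
      _ = _ := by ring
  have s1 := hs P (-(1 / 4)) (1 / 2) (2 * BG * E) (by norm_num) (by norm_num)
    (fun z h _ => hPd z h) hPb
  have s2 := (shift_inf hs (a := -(1 / 4)) (by norm_num) hQd hQb).1 (1 / 2) (by norm_num)
  have s3 : ∫ y : ℝ, (fun z => H z * K1 L z) ((0 : ℝ) + y * I) =
      ∫ y : ℝ, (fun z => H z * K1 L z) ((1 / 2 : ℝ) + y * I) := by
    refine contour_shift (H := fun z => H z * K1 L z) (a := 0) (b := 1 / 2) (B := BG * BK)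
      (by norm_num) (fun z h0 h1 => ?_) (fun z h0 h1 => ?_)
    · exact (hHd z (by linarith)).mul (K1_diff L (by linarith))
    · calc ‖H z * K1 L z‖ = ‖H z‖ * ‖K1 L z‖ := norm_mul _ _
        _ ≤ BG * (BK * (1 + |z.im|) ^ (-(3 / 2 : ℝ))) :=
          mul_le_mul (hHb z (by linarith)) (hBK z h0 h1) (norm_nonneg _) hBG0
        _ = _ := by ring
  have i1 : Integrable (fun y : ℝ => P ((1 / 2 : ℝ) + y * I) / ((1 / 2 : ℝ) + y * I)) :=
    int_line (B := 2 * BG * E) (by rw [abs_of_pos] <;> norm_num)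
      (fun z hz => hPd z (by rw [hz]; norm_num)) (fun z hz => hPb z (by rw [hz]; norm_num) hz.le)
  have i2 : Integrable (fun y : ℝ => Q ((1 / 2 : ℝ) + y * I) / ((1 / 2 : ℝ) + y * I)) :=
    int_line (B := 81 * BG) (by rw [abs_of_pos] <;> norm_num)
      (fun z hz => hQd z (by rw [hz]; norm_num)) (fun z hz => hQb z (by rw [hz]; norm_num))
  have s4 : ∫ y : ℝ, (fun z => H z * K1 L z) ((1 / 2 : ℝ) + y * I) =
      ∫ y : ℝ, P ((1 / 2 : ℝ) + y * I) / ((1 / 2 : ℝ) + y * I) := by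
    have h1 : ∀ y : ℝ, (fun z => H z * K1 L z) ((1 / 2 : ℝ) + y * I) =
        P ((1 / 2 : ℝ) + y * I) / ((1 / 2 : ℝ) + y * I) -
          Q ((1 / 2 : ℝ) + y * I) / ((1 / 2 : ℝ) + y * I) := by
      intro y
      have hne : ((1 / 2 : ℝ) + y * I : ℂ) ≠ 0 := by
        refine ne_zero_of_re ?_
        simp
      simp only
      rw [K1_eq L hne, hP, hQ]
      simp only
      unfold kk
      ring
    rw [integral_congr_ae (Eventually.of_forall h1), integral_sub i1 i2, s2, sub_zero]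
  have hP0 : P 0 = GLow N a ρ := by
    rw [hP, hH]
    simp
  rw [hP0] at s1
  have s5 : ∫ y : ℝ, (fun z => H z * K1 L z) ((0 : ℝ) + y * I) =
      ∫ y : ℝ, GLow N a (y * I + ρ) * K1 L (y * I) := by
    refine integral_congr_ae (Eventually.of_forall fun y => ?_)
    simp only [ofReal_zero, zero_add]
    rw [hH]
  rw [← s1, ← s4, ← s3, s5]

/-- the integrand on the left line -/
lemma left_bound {K : ℝ} (hK0 : 0 ≤ K) (N : ℕ) (a : ℕ → ℂ) (hN : 1 ≤ N)
    (hK : ∀ s : ℂ, s.re = 1 / 4 → ‖GLow N a s‖ ≤ K * (N : ℝ) ^ (7 / 4 : ℝ) * (1 + |s.im|) ^ 2)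
    {ρ : ℂ} (hre : ρ.re = 1 / 2) {L : ℝ} (hL : L = 12 * Real.log N) (y : ℝ) :
    ‖GLow N a (((-(1 / 4) : ℝ) : ℂ) + y * I + ρ) *
        cexp (L * (((-(1 / 4) : ℝ) : ℂ) + y * I) + (((-(1 / 4) : ℝ) : ℂ) + y * I) ^ 2) /
        (((-(1 / 4) : ℝ) : ℂ) + y * I)‖ ≤
        (K * (1 + |ρ.im|) ^ 2 * Real.exp (1 / 16) * 64 / N) * (1 ^ 2 + (y + 0) ^ 2)⁻¹ := by
  set γ := ρ.im with hγ
  have hN1 : (1:ℝ) ≤ N := by exact_mod_cast hN
  have hN0 : (0:ℝ) < N := by linarith
  have hlog : 0 ≤ Real.log N := Real.log_nonneg hN1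
  have r1 : (((-(1 / 4) : ℝ) : ℂ) + y * I + ρ).re = 1 / 4 := by
    simp [hre]
    norm_num
  have r2 : (((-(1 / 4) : ℝ) : ℂ) + y * I + ρ).im = y + γ := by simp [hγ]
  have r3 : (((-(1 / 4) : ℝ) : ℂ) + y * I).re = -(1 / 4) := by simp
  have r4 : (((-(1 / 4) : ℝ) : ℂ) + y * I).im = y := by simp
  have b1 := hK _ r1
  rw [r2] at b1
  have b2 : 1 / 4 ≤ ‖((-(1 / 4) : ℝ) : ℂ) + y * I‖ := by
    have := Complex.abs_re_le_norm (((-(1 / 4) : ℝ) : ℂ) + y * I)
    rw [r3, abs_neg, abs_of_pos (by norm_num)] at this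
    exact this
  have b3 : 1 + |y + γ| ≤ (1 + |γ|) * (1 + |y|) := by
    have i1 := abs_add_le y γ
    have i2 := mul_nonneg (abs_nonneg γ) (abs_nonneg y)
    calc 1 + |y + γ| ≤ 1 + |y| + |γ| + |γ| * |y| := by linarith
      _ = _ := by ring
  have b4 := exp_neg_sq_le' y
  have b5 : ((1 + |y|) ^ 2)⁻¹ ≤ (1 ^ 2 + (y + 0) ^ 2)⁻¹ := by
    refine inv_anti₀ (by positivity) ?_
    rw [add_zero, ← sq_abs y]
    nlinarith [abs_nonneg y]
  have hexpN : (N : ℝ) ^ (7 / 4 : ℝ) * Real.exp (L * -(1 / 4) + (-(1 / 4)) ^ 2) ≤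
      Real.exp (1 / 16) / N := by
    rw [Real.rpow_def_of_pos hN0, ← Real.exp_add]
    have e5 : Real.log N * (7 / 4) + (L * -(1 / 4) + (-(1 / 4)) ^ 2) =
        1 / 16 - (5 / 4) * Real.log N := by
      rw [hL]
      ring
    rw [e5]
    calc Real.exp (1 / 16 - (5 / 4) * Real.log N) ≤ Real.exp (1 / 16 - Real.log N) :=
          Real.exp_le_exp.mpr (by linarith)
      _ = _ := by rw [Real.exp_sub, Real.exp_log hN0]
  rw [norm_div, norm_mul, norm_exp_kern, r3, r4, div_le_iff₀ (by linarith)]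
  have hy1 : 0 < (1 + |y|) ^ 2 := by positivity
  set W := Real.exp (L * -(1 / 4) + (-(1 / 4)) ^ 2) with hW
  have hW0 : 0 < W := Real.exp_pos _
  set T := (N : ℝ) ^ (7 / 4 : ℝ) with hT
  have hT0 : 0 ≤ T := by positivity
  set u := ((1 + |y|) ^ 2)⁻¹ with hu
  have hu0 : 0 < u := by positivity
  have huy : (1 + |y|) ^ 2 * u = 1 := mul_inv_cancel₀ hy1.ne'
  set v := (1 ^ 2 + (y + 0) ^ 2)⁻¹ with hv
  have hv0 : 0 < v := by positivity
  have c1 : ‖GLow N a (((-(1 / 4) : ℝ) : ℂ) + y * I + ρ)‖ ≤ K * T * ((1 + |γ|) * (1 + |y|)) ^ 2 := by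
    refine b1.trans ?_
    gcongr
  calc ‖GLow N a (((-(1 / 4) : ℝ) : ℂ) + y * I + ρ)‖ * (W * Real.exp (-y ^ 2)) ≤
        (K * T * ((1 + |γ|) * (1 + |y|)) ^ 2) * (W * (16 * u * u)) := by
        refine mul_le_mul c1 (mul_le_mul_of_nonneg_left b4 hW0.le) (by positivity) (by positivity)
    _ = (K * (1 + |γ|) ^ 2 * 16 * u) * (T * W) * ((1 + |y|) ^ 2 * u) := by ring
    _ = (K * (1 + |γ|) ^ 2 * 16 * u) * (T * W) := by rw [huy, mul_one]
    _ ≤ (K * (1 + |γ|) ^ 2 * 16 * v) * (Real.exp (1 / 16) / N) := by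
        gcongr
    _ = (K * (1 + |γ|) ^ 2 * Real.exp (1 / 16) * 64 / N) * v * (1 / 4) := by
        ring
    _ ≤ _ := by gcongr

theorem low2 (h : S_int) (hs : S_shift) : S_low2 := by
  intro ρ hρ hre
  have hρ1 : ρ ≠ 1 := by
    rintro rfl
    exact riemannZeta_one_ne_zero hρ
  have hρ0 : ρ ≠ 0 := ne_zero_of_re (by linarith)
  have hZ : Zs ρ = 0 := by rw [← Zs_eq hρ1, hρ, mul_zero]
  have hG : ∀ (N : ℕ) (a : ℕ → ℂ), GLow N a ρ = (ρ - 1) / ρ ^ 2 := by
    intro N a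
    unfold GLow
    rw [hZ, zero_mul, sub_zero]
  set g := ‖(ρ - 1) / ρ ^ 2‖ with hg
  have hg0 : 0 < g := by
    rw [hg, norm_pos_iff]
    exact div_ne_zero (sub_ne_zero.mpr hρ1) (pow_ne_zero 2 hρ0)
  obtain ⟨K, hK0, hK⟩ := GG_quarter h hs
  set γ := ρ.im with hγ
  have hρe : ρ = 1 / 2 + (γ : ℂ) * I := by
    apply Complex.ext
    · simp [hre]
    · simp [hγ]
  -- the constant for the left line
  set K2 := K * (1 + |γ|) ^ 2 * Real.exp (1 / 16) * 64 * Real.pi with hK2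
  have hK20 : 0 ≤ K2 := by positivity
  obtain ⟨N1, hN1⟩ := exists_nat_ge (K2 / (Real.pi * g))
  have hpg : 0 < Real.pi * g := mul_pos Real.pi_pos hg0
  have hl2 : 0 < Real.log 2 := Real.log_pos (by norm_num)
  refine ⟨min (g ^ 2 / 7032) (Real.log 2), max N1 3, lt_min (by positivity) hl2, by simp, ?_⟩
  intro N hN a
  have hN3 : 3 ≤ N := (le_max_right _ _).trans hN
  have hNN1 : (N1 : ℝ) ≤ N := by exact_mod_cast (le_max_left _ _).trans hN
  have hN3' : (3:ℝ) ≤ N := by exact_mod_cast hN3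
  have hN0 : (0:ℝ) < N := by linarith
  have hlog : 1 ≤ Real.log N := by
    rw [Real.le_log_iff_exp_le hN0]
    have := Real.exp_one_lt_d9
    linarith
  have hlog0 : 0 < Real.log N := by linarith
  rcases le_or_gt (err N a) 1 with he | he
  swap
  · rw [div_le_iff₀ hlog0]
    have h1 : Real.log 2 ≤ Real.log N := Real.log_le_log (by norm_num) (by linarith)
    have h2 := min_le_right (g ^ 2 / 7032) (Real.log 2)
    nlinarith
  have he0 := err_nonneg N a
  set L := 12 * Real.log N with hL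
  have hL1 : 1 ≤ L := by linarith
  have hid := main_id hs N a L hre
  rw [hG] at hid
  -- the integral on the critical line
  set f : ℝ → ℝ := fun y => ‖GLow N a (y * I + ρ)‖ with hf
  set k : ℝ → ℝ := fun y => ‖K1 L (y * I)‖ with hk
  have hf2 : ∀ y, f y ^ 2 = ig N a (y + γ) := by
    intro y
    have e1 : (y : ℂ) * I + ρ = 1 / 2 + ((y + γ : ℝ) : ℂ) * I := by
      rw [hρe]
      push_cast
      ring
    rw [hf]
    simp only
    rw [e1, GG_line]
  have hfi : Integrable (fun y => f y ^ 2) := by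
    simp_rw [hf2]
    exact (h N a).comp_add_right γ
  have hfe : ∫ y, f y ^ 2 = 2 * Real.pi * err N a := by
    simp_rw [hf2]
    rw [integral_add_right_eq_self (fun y => ig N a y) γ]
    unfold err
    field_simp
  have hca := cauchy_int (a := 1 / L) (by positivity) 0
  have hae : ∀ᵐ y : ℝ, y ≠ 0 := by
    rw [ae_iff]
    simp
  have hk2 : ∀ᵐ y : ℝ, k y ^ 2 ≤ 293 * ((1 / L) ^ 2 + (y + 0) ^ 2)⁻¹ := by
    filter_upwards [hae] with y hy
    exact K1_axis hL1 hy
  have hkc : Continuous k := by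
    rw [hk]
    refine continuous_norm.comp ?_
    rw [continuous_iff_continuousAt]
    intro y
    have h1 : ContinuousAt (K1 L) ((y : ℂ) * I) := (K1_diff L (by simp)).continuousAt
    exact ContinuousAt.comp (f := fun y : ℝ => (y : ℂ) * I) h1 (by fun_prop)
  have hfc : Continuous f := by
    have : f = fun y => Real.sqrt (ig N a (y + γ)) := by
      ext y
      rw [← hf2, Real.sqrt_sq (norm_nonneg _)]
    rw [this]
    exact ((ig_continuous N a).comp (by fun_prop)).sqrt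
  have hki : Integrable (fun y => k y ^ 2) := by
    refine (hca.1.const_mul 293).mono' (hkc.pow 2).aestronglyMeasurable ?_
    filter_upwards [hk2] with y hy
    rw [Real.norm_of_nonneg (sq_nonneg _)]
    exact hy
  have hke : ∫ y, k y ^ 2 ≤ 293 * (Real.pi * L) := by
    have e1 : Real.pi / (1 / L) = Real.pi * L := by field_simp
    rw [← e1, ← hca.2, ← integral_const_mul]
    exact integral_mono_ae hki (hca.1.const_mul _) hk2
  have hfk : Integrable (fun y => f y * k y) := by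
    refine (hfi.add hki).mono' (hfc.mul hkc).aestronglyMeasurable (Eventually.of_forall fun y => ?_)
    have hfn : 0 ≤ f y := norm_nonneg _
    have hgn : 0 ≤ k y := norm_nonneg _
    rw [Real.norm_of_nonneg (mul_nonneg hfn hgn)]
    simp only [Pi.add_apply]
    nlinarith [sq_nonneg (f y - k y)]
  have hcs := cs hfi hki hfk
  set J := ∫ y, f y * k y with hJ
  have hJ0 : 0 ≤ J := integral_nonneg fun y => mul_nonneg (norm_nonneg _) (norm_nonneg _)
  have hJ2 : J ^ 2 ≤ (2 * Real.pi * err N a) * (293 * (Real.pi * L)) := by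
    refine hcs.trans ?_
    rw [hfe]
    exact mul_le_mul_of_nonneg_left hke (by positivity)
  -- the integral on the left line
  set R := ∫ y : ℝ, GLow N a (((-(1 / 4) : ℝ) : ℂ) + y * I + ρ) *
        cexp (L * (((-(1 / 4) : ℝ) : ℂ) + y * I) + (((-(1 / 4) : ℝ) : ℂ) + y * I) ^ 2) /
        (((-(1 / 4) : ℝ) : ℂ) + y * I) with hR
  have hRle : ‖R‖ ≤ K2 / N := by
    have hc1 := cauchy_int (a := 1) one_pos 0
    have hb := left_bound hK0 N a (by omega) (hK N a (by omega) he) hre (L := L) hL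
    rw [← hγ] at hb
    have h3 := norm_integral_le_of_norm_le (hc1.1.const_mul _) (Eventually.of_forall hb)
    rw [integral_const_mul, hc1.2] at h3
    refine h3.trans (le_of_eq ?_)
    rw [hK2]
    ring
  have hR2 : K2 / N ≤ Real.pi * g := by
    rw [div_le_iff₀ hN0]
    rw [div_le_iff₀ hpg] at hN1
    calc K2 ≤ N1 * (Real.pi * g) := hN1
      _ ≤ N * (Real.pi * g) := by gcongr
      _ = _ := by ring
  have hJle : ‖∫ y : ℝ, GLow N a (y * I + ρ) * K1 L (y * I)‖ ≤ J := by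
    refine (norm_integral_le_integral_norm _).trans (le_of_eq ?_)
    refine integral_congr_ae (Eventually.of_forall fun y => ?_)
    simp only
    rw [norm_mul]
  have hmain : 2 * Real.pi * g ≤ J + K2 / N := by
    have e1 : ‖(2 * Real.pi * ((ρ - 1) / ρ ^ 2) : ℂ)‖ = 2 * Real.pi * g := by
      rw [norm_mul, norm_mul, Complex.norm_real, Real.norm_of_nonneg Real.pi_pos.le]
      simp [hg]
    rw [← e1, hid]
    exact (norm_sub_le _ _).trans (add_le_add hJle hRle)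
  have hJg : Real.pi * g ≤ J := by linarith
  have hfin : (Real.pi * g) ^ 2 ≤ (2 * Real.pi * err N a) * (293 * (Real.pi * L)) :=
    (pow_le_pow_left₀ hpg.le hJg 2).trans hJ2
  have hfin2 : g ^ 2 ≤ 7032 * (err N a * Real.log N) := by
    have hpi : 0 < Real.pi ^ 2 := by positivity
    have e1 : (2 * Real.pi * err N a) * (293 * (Real.pi * L)) =
        Real.pi ^ 2 * (7032 * (err N a * Real.log N)) := by
      rw [hL]
      ring
    rw [e1, mul_pow] at hfin
    exact le_of_mul_le_mul_left hfin hpi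
  rw [div_le_iff₀ hlog0]
  have h2 := min_le_left (g ^ 2 / 7032) (Real.log 2)
  linarith

end Pool.Agent.N967
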