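import Mathlib
import Pool.Agent.N967.Lim
import Pool.Agent.N967.Near

set_option autoImplicit false

/-!
# The pointwise bound for the ratio
-/

namespace Pool.Agent.N967

open Complex Filter Topology
open Pool.Agent.Y23 (IsZ mu Lg)
open Pool.Agent.H295R2 (fz Zs)
open Pool.Agent.H24R2.JP (XX)

lemma one_lt_Lg (t : ℝ) : 1.09 ≤ Lg t := by
  unfold Lg
  have h1 : Real.log 3 ≤ Real.log (3 + |t|) := Real.log_le_log (by norm_num) (by linarith [abs_nonneg t])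
  have h2 : (1.09 : ℝ) ≤ Real.log 3 := by
    rw [Real.le_log_iff_exp_le (by norm_num)]
    have := Real.exp_one_lt_d9
    have h3 : Real.exp (1.09 : ℝ) = Real.exp 1 * Real.exp 0.09 := by rw [← Real.exp_add]; norm_num
    have h4 : Real.exp (0.09 : ℝ) ≤ 1.1 := by
      have h5 := Real.exp_bound' (x := 0.09) (by norm_num) (by norm_num) (n := 3) (by norm_num)
      norm_num [Finset.sum_range_succ, Nat.factorial] at h5
      linarith
    rw [h3]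
    have h6 : 0 < Real.exp (0.09 : ℝ) := Real.exp_pos _
    nlinarith
  linarith

lemma log_Lg_pos (t : ℝ) : 0 < Real.log (Lg t) := Real.log_pos (by linarith [one_lt_Lg t])

lemma near_all (hcnt : S_cnt) (hRH : RiemannHypothesis) {η : ℝ} (hη : 0 < η) (hη1 : η ≤ 1) :
    ∃ C2 K : ℝ, 0 < C2 ∧ 0 < K ∧ ∀ t l b : ℝ, 0 ≤ l → l ≤ 1 → 0 < b → b ≤ 1 → ∃ c : ℝ, 0 < c ∧ c ≤ 1 ∧
      ∀ S : Finset ℂ, (∀ s ∈ S, IsZ s ∧ |s.im - t| ≤ 1) → ∑ s ∈ S, (mu s : ℝ) * Pn l b c (t - s.im) ≤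
        (1 / 2 + η) * (Lg t / Real.log (Lg t)) * Real.log (1 + l / b) + C2 * Real.sqrt l * Lg t + K * Real.log (2 / b) := by
  classical
  obtain ⟨θ, C, T0, hθ0, hθ1, hC, hT0, h⟩ := hcnt hRH η hη hη1
  obtain ⟨C0, hC0, hcnt0⟩ := Pool.Agent.Y23.cnt
  have hT0pos : 0 < T0 := (Real.exp_pos 1).trans_le hT0
  refine ⟨5 * C, C0 * T0, by positivity, by positivity, fun t l b hl hl1 hb hb1 => ?_⟩
  have hX := one_lt_Lg t
  have hlogX := log_Lg_pos t
  have hL := log_one_add_nonneg hl hb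
  have h2b : Real.log (1 + l / b) ≤ Real.log (2 / b) := by
    refine Real.log_le_log (by positivity) ?_
    rw [le_div_iff₀ hb, add_mul, div_mul_cancel₀ _ hb.ne']
    linarith
  rcases le_or_gt T0 (Lg t) with hT | hT
  · have hr0 : 0 < θ / Real.log (Lg t) := by positivity
    have hr1 : θ / Real.log (Lg t) ≤ 1 := by
      rw [div_le_one hlogX]
      have : 1 ≤ Real.log (Lg t) := by
        rw [Real.le_log_iff_exp_le (by linarith)]
        exact hT0.trans hT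
      linarith
    refine ⟨θ / Real.log (Lg t), hr0, hr1, fun S hS => ?_⟩
    have h1 := near_sum (S := S) (m := fun s => (mu s : ℝ)) (y := fun s => t - s.im) (fun s _ => Nat.cast_nonneg _)
      (fun s hs => by
        have := (hS s hs).2
        rwa [abs_sub_comm] at this)
      (C' := C * Lg t) (r0 := θ / Real.log (Lg t)) (M0 := (1 / 2 + η) * Lg t / Real.log (Lg t)) (l := l) (b := b)
      (by positivity) hr0 hl hb ?_ ?_
    · refine h1.trans ?_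
      have h3 : 0 ≤ C0 * T0 * Real.log (2 / b) := by
        have : 0 ≤ Real.log (2 / b) := hL.trans h2b
        positivity
      have e1 : (1 / 2 + η) * Lg t / Real.log (Lg t) * Real.log (1 + l / b) =
        (1 / 2 + η) * (Lg t / Real.log (Lg t)) * Real.log (1 + l / b) := by ring
      have e2 : 5 * (C * Lg t) * Real.sqrt l = 5 * C * Real.sqrt l * Lg t := by ring
      linarith
    · exact (h t hT _ _ (fun s hs => by
        rw [Finset.mem_filter] at hs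
        refine ⟨(hS s hs.1).1, ?_⟩
        have := hs.2
        rwa [abs_sub_comm] at this)).1 le_rfl
    · intro r hr hr'
      have := (h t hT r (S.filter (fun s => |t - s.im| ≤ r)) (fun s hs => by
        rw [Finset.mem_filter] at hs
        refine ⟨(hS s hs.1).1, ?_⟩
        have := hs.2
        rwa [abs_sub_comm] at this)).2 hr hr'
      refine this.trans (le_of_eq (by ring))
  · refine ⟨1, one_pos, le_rfl, fun S hS => ?_⟩
    have h1 : ∑ s ∈ S, (mu s : ℝ) * Pn l b 1 (t - s.im) = (∑ s ∈ S, (mu s : ℝ)) * Real.log (1 + l / b) := by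
      rw [Finset.sum_mul]
      refine Finset.sum_congr rfl fun s hs => ?_
      unfold Pn
      have := (hS s hs).2
      rw [abs_sub_comm] at this
      rw [if_pos this]
    rw [h1]
    have h2 : (∑ s ∈ S, (mu s : ℝ)) ≤ C0 * Lg t := by
      have := hcnt0 t S hS
      push_cast at this
      exact this
    have h3 : (∑ s ∈ S, (mu s : ℝ)) * Real.log (1 + l / b) ≤ C0 * T0 * Real.log (2 / b) := by
      refine mul_le_mul (h2.trans ?_) h2b hL (by positivity)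
      exact mul_le_mul_of_nonneg_left hT.le hC0.le
    have h4 : 0 ≤ (1 / 2 + η) * (Lg t / Real.log (Lg t)) * Real.log (1 + l / b) := by positivity
    have h5 : 0 ≤ 5 * C * Real.sqrt l * Lg t := by positivity
    linarith

lemma half_add_eq (b t : ℝ) : (1 / 2 + (b + t * I) : ℂ) = 1 / 2 + b + t * I := by ring

lemma XX_HGr {b : ℝ} (hb0 : 0 ≤ b) (hb : b ≤ 1 / 4) (t : ℝ) :
    XX (b + t * I) = HG (b + t * I) * riemannZeta (1 / 2 + b + t * I) := by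
  have h := Pool.Agent.Y23.XX_strip (s := 1 / 2 + b + t * I) (by simp; linarith) (by simp; linarith)
  have e : (1 / 2 + b + t * I - 1 / 2 : ℂ) = b + t * I := by ring
  rw [e] at h
  rw [h]
  unfold HG
  rw [half_add_eq]

lemma HG_ner {b : ℝ} (hb0 : 0 ≤ b) (hb : b ≤ 1 / 4) (t : ℝ) : HG (b + t * I) ≠ 0 := by
  have h := Pool.Agent.Y23.fac_ne (s := 1 / 2 + b + t * I) (by simp; linarith) (by simp; linarith)
  have e : (1 / 2 + b + t * I - 1 / 2 : ℂ) = b + t * I := by ring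
  rw [e] at h
  unfold HG
  rw [half_add_eq]
  exact h

lemma fz_inv {b : ℝ} (hb0 : 0 ≤ b) (hb : b ≤ 1 / 4) (t : ℝ) :
    fz (1 / 2 + b + t * I) = (riemannZeta (1 / 2 + b + t * I))⁻¹ := by
  refine Pool.Agent.H295R2.fz_eq ?_
  intro h
  have := congrArg Complex.re h
  simp at this
  linarith

lemma XX_ner (hmono : S_mono) (hRH : RiemannHypothesis) {b : ℝ} (hb0 : 0 < b) (t : ℝ) : XX (b + t * I) ≠ 0 := by
  have := (hmono hRH (t * I) b (by simp) hb0.le).2 hb0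
  rwa [add_comm] at this

lemma fz_XX (hmono : S_mono) (hRH : RiemannHypothesis) {b : ℝ} (hb0 : 0 < b) (hb : b ≤ 1 / 4) (t : ℝ) :
    ‖fz (1 / 2 + b + t * I)‖ * ‖XX (b + t * I)‖ = ‖HG (b + t * I)‖ := by
  have h1 := XX_ner hmono hRH hb0 t
  rw [XX_HGr hb0.le hb] at h1 ⊢
  rw [fz_inv hb0.le hb, norm_inv, norm_mul]
  have h2 : ‖riemannZeta (1 / 2 + b + t * I)‖ ≠ 0 := by
    rw [norm_ne_zero_iff]
    exact right_ne_zero_of_mul h1
  rw [mul_comm ‖HG (b + t * I)‖, ← mul_assoc, inv_mul_cancel₀ h2, one_mul]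

/-- the constants of the far estimate -/
def FarC (C1 : ℝ) : Prop := 0 < C1 ∧ ∀ t : ℝ, 0 < ‖XX (1 + t * I)‖ ∧
  ‖XX (2 + t * I)‖ ≤ Real.exp (C1 * Lg t) * ‖XX (1 + t * I)‖

/-- the constants of the gamma estimate -/
def GamC (C4 : ℝ) : Prop := 0 < C4 ∧ ∀ a b t : ℝ, 0 ≤ a → a ≤ 1 / 4 → 0 ≤ b → b ≤ 1 / 4 →
  ‖HG (a + t * I)‖ ≤ Real.exp (C4 * |a - b| * Lg t) * ‖HG (b + t * I)‖

lemma gam_e {C4 : ℝ} (h : GamC C4) {a b e t : ℝ} (ha : 0 ≤ a) (hae : a ≤ e) (hb : 0 ≤ b) (hbe : b ≤ e) (he : e ≤ 1 / 4) :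
    ‖HG (a + t * I)‖ ≤ Real.exp (C4 * e * Lg t) * ‖HG (b + t * I)‖ := by
  refine (h.2 a b t ha (hae.trans he) hb (hbe.trans he)).trans ?_
  refine mul_le_mul_of_nonneg_right ?_ (norm_nonneg _)
  rw [Real.exp_le_exp]
  have h1 : |a - b| ≤ e := by
    rw [abs_le]; constructor <;> linarith
  have h2 := h.1
  have h3 := one_lt_Lg t
  gcongr

/-- small `v` -/
lemma caseA (hmono : S_mono) (hRH : RiemannHypothesis) {C1 C4 Z1 Z2 : ℝ} (h1 : FarC C1) (h4 : GamC C4)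
    {b e c t v Nn : ℝ} (hb : 0 < b) (hbe : b ≤ e) (he : e ≤ 1 / 4) (hc : 0 ≤ c) (hc1 : c ≤ 1) (hv : |v| ≤ 1 / 4)
    (hZ1 : ‖riemannZeta (1 / 2 + e + ((t + v : ℝ) : ℂ) * I)‖ ≤ Z1) (hZ2 : ‖fz (1 / 2 + e + t * I)‖ ≤ Z2)
    (hN : ∀ S : Finset ℂ, (∀ s ∈ S, IsZ s ∧ |s.im - t| ≤ 1) → ∑ s ∈ S, (mu s : ℝ) * Pn |v| b c (t - s.im) ≤ Nn) :
    ‖riemannZeta (1 / 2 + ((t + v : ℝ) : ℂ) * I)‖ * ‖fz (1 / 2 + b + t * I)‖ ≤
      Real.exp (C4 * e * Lg t) * Real.exp (C4 * e * Lg (t + v)) * Z1 * Z2 *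
      Real.exp (Nn + 12 * |v| / e * (8 / 3 * (C1 * Lg t + 1))) := by
  have he0 : 0 < e := hb.trans_le hbe
  have hl := limA hRH h1.2 hb hbe (by linarith : e ≤ 1) hc hc1 le_rfl hv hN
  set E1 := Real.exp (Nn + 12 * |v| / e * (8 / 3 * (C1 * Lg t + 1))) with hE1
  set G1 := Real.exp (C4 * e * Lg t) with hG1
  set G2 := Real.exp (C4 * e * Lg (t + v)) with hG2
  have k0 := XX_HGr (b := 0) le_rfl (by norm_num) (t + v)
  have k1 := (hmono hRH (((t + v : ℝ) : ℂ) * I) b (by simp) hb.le).1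
  have kz : ((0 : ℝ) : ℂ) = 0 := Complex.ofReal_zero
  rw [kz, zero_add, add_zero] at k0
  rw [k0, norm_mul, add_comm (((t + v : ℝ) : ℂ) * I) (b : ℂ)] at k1
  have k2 := fz_XX hmono hRH hb (hbe.trans he) t
  have k3 := congrArg norm (XX_HGr he0.le he (t + v))
  rw [norm_mul] at k3
  have k4 := fz_XX hmono hRH he0 he t
  have g1 := gam_e h4 (t := t) hb.le hbe he0.le le_rfl he
  have g2 := gam_e h4 (a := e) (b := 0) (t := t + v) he0.le le_rfl le_rfl he0.le he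
  rw [kz, zero_add] at g2
  have p1 : 0 < ‖HG (((t + v : ℝ) : ℂ) * I)‖ := by
    have := HG_ner (b := 0) le_rfl (by norm_num) (t + v)
    rw [kz, zero_add] at this
    exact norm_pos_iff.2 this
  have p2 : 0 < ‖HG (e + t * I)‖ := norm_pos_iff.2 (HG_ner he0.le he t)
  set A1 := ‖riemannZeta (1 / 2 + ((t + v : ℝ) : ℂ) * I)‖ with hA1
  set B1 := ‖fz (1 / 2 + b + t * I)‖ with hB1
  have nB : 0 ≤ B1 := norm_nonneg _
  have nZ1 : 0 ≤ Z1 := (norm_nonneg _).trans hZ1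
  have nZ2 : 0 ≤ Z2 := (norm_nonneg _).trans hZ2
  have nE : 0 < E1 := Real.exp_pos _
  have nG1 : 0 < G1 := Real.exp_pos _
  have nG2 : 0 < G2 := Real.exp_pos _
  -- chain
  have c1 : A1 * B1 * (‖HG (((t + v : ℝ) : ℂ) * I)‖ * ‖HG (e + t * I)‖) ≤
      (G1 * G2 * Z1 * Z2 * E1) * (‖HG (((t + v : ℝ) : ℂ) * I)‖ * ‖HG (e + t * I)‖) := by
    calc A1 * B1 * (‖HG (((t + v : ℝ) : ℂ) * I)‖ * ‖HG (e + t * I)‖)
        = B1 * (‖HG (((t + v : ℝ) : ℂ) * I)‖ * A1) * (‖fz (1 / 2 + e + t * I)‖ * ‖XX (e + t * I)‖) := by rw [k4]; ring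
      _ ≤ B1 * ‖XX (b + ((t + v : ℝ) : ℂ) * I)‖ * (Z2 * ‖XX (e + t * I)‖) := by
          gcongr
      _ = B1 * Z2 * (‖XX (b + ((t + v : ℝ) : ℂ) * I)‖ * ‖XX (e + t * I)‖) := by ring
      _ ≤ B1 * Z2 * (‖XX (b + t * I)‖ * ‖XX (e + ((t + v : ℝ) : ℂ) * I)‖ * E1) := by
          gcongr
      _ = (B1 * ‖XX (b + t * I)‖) * Z2 * (‖HG (e + ((t + v : ℝ) : ℂ) * I)‖ *
            ‖riemannZeta (1 / 2 + e + ((t + v : ℝ) : ℂ) * I)‖) * E1 := by rw [k3]; ring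
      _ ≤ (G1 * ‖HG (e + t * I)‖) * Z2 * ((G2 * ‖HG (((t + v : ℝ) : ℂ) * I)‖) * Z1) * E1 := by
          rw [k2]
          gcongr
      _ = _ := by ring
  exact le_of_mul_le_mul_right c1 (by positivity)

/-- large `v` -/
lemma caseB (hmono : S_mono) (hRH : RiemannHypothesis) {C1 C4 Z1 Z2 : ℝ} (h1 : FarC C1) (h4 : GamC C4)
    {b e c t t' Nn : ℝ} (hb : 0 < b) (hbe : b ≤ e) (he : e ≤ 1 / 4) (hc : 0 ≤ c) (hc1 : c ≤ 1)
    (hZ1 : ‖riemannZeta (1 / 2 + e + t' * I)‖ ≤ Z1) (hZ2 : ‖fz (1 / 2 + e + t * I)‖ ≤ Z2)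
    (hN : ∀ S : Finset ℂ, (∀ s ∈ S, IsZ s ∧ |s.im - t| ≤ 1) → ∑ s ∈ S, (mu s : ℝ) * Pn e b c (t - s.im) ≤ Nn) :
    ‖riemannZeta (1 / 2 + t' * I)‖ * ‖fz (1 / 2 + b + t * I)‖ ≤
      Real.exp (C4 * e * Lg t) * Real.exp (C4 * e * Lg t') * Z1 * Z2 *
      Real.exp (Nn + e * (8 / 3 * (C1 * Lg t + 1))) := by
  have he0 : 0 < e := hb.trans_le hbe
  have hl := limB hRH h1.2 hb hbe (by linarith : e ≤ 1) hc hc1 hN
  set E1 := Real.exp (Nn + e * (8 / 3 * (C1 * Lg t + 1))) with hE1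
  set G1 := Real.exp (C4 * e * Lg t) with hG1
  set G2 := Real.exp (C4 * e * Lg t') with hG2
  have k0 := XX_HGr (b := 0) le_rfl (by norm_num) t'
  have k1 := (hmono hRH (t' * I) e (by simp) he0.le).1
  have kz : ((0 : ℝ) : ℂ) = 0 := Complex.ofReal_zero
  rw [kz, zero_add, add_zero] at k0
  rw [k0, norm_mul, add_comm ((t' : ℂ) * I) (e : ℂ)] at k1
  have k2 := fz_XX hmono hRH hb (hbe.trans he) t
  have k3 := congrArg norm (XX_HGr he0.le he t')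
  rw [norm_mul] at k3
  have k4 := fz_XX hmono hRH he0 he t
  have g1 := gam_e h4 (t := t) hb.le hbe he0.le le_rfl he
  have g2 := gam_e h4 (a := e) (b := 0) (t := t') he0.le le_rfl le_rfl he0.le he
  rw [kz, zero_add] at g2
  have p1 : 0 < ‖HG (t' * I)‖ := by
    have := HG_ner (b := 0) le_rfl (by norm_num) t'
    rw [kz, zero_add] at this
    exact norm_pos_iff.2 this
  have p3 : 0 < ‖XX (b + t * I)‖ := norm_pos_iff.2 (XX_ner hmono hRH hb t)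
  set A1 := ‖riemannZeta (1 / 2 + t' * I)‖ with hA1
  set B1 := ‖fz (1 / 2 + b + t * I)‖ with hB1
  have nB : 0 ≤ B1 := norm_nonneg _
  have nZ1 : 0 ≤ Z1 := (norm_nonneg _).trans hZ1
  have nZ2 : 0 ≤ Z2 := (norm_nonneg _).trans hZ2
  have nE : 0 < E1 := Real.exp_pos _
  have nG1 : 0 < G1 := Real.exp_pos _
  have nG2 : 0 < G2 := Real.exp_pos _
  have a1 : A1 ≤ G2 * Z1 := by
    have : ‖HG (t' * I)‖ * A1 ≤ ‖HG (t' * I)‖ * (G2 * Z1) := by
      calc ‖HG (t' * I)‖ * A1 ≤ ‖XX (e + t' * I)‖ := k1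
        _ = ‖HG (e + t' * I)‖ * ‖riemannZeta (1 / 2 + e + t' * I)‖ := k3
        _ ≤ (G2 * ‖HG (t' * I)‖) * Z1 := by gcongr
        _ = _ := by ring
    exact le_of_mul_le_mul_left this p1
  have b1 : B1 ≤ G1 * Z2 * E1 := by
    have : B1 * ‖XX (b + t * I)‖ ≤ (G1 * Z2 * E1) * ‖XX (b + t * I)‖ := by
      calc B1 * ‖XX (b + t * I)‖ = ‖HG (b + t * I)‖ := k2
        _ ≤ G1 * ‖HG (e + t * I)‖ := g1
        _ = G1 * (‖fz (1 / 2 + e + t * I)‖ * ‖XX (e + t * I)‖) := by rw [k4]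
        _ ≤ G1 * (Z2 * (‖XX (b + t * I)‖ * E1)) := by gcongr
        _ = _ := by ring
    exact le_of_mul_le_mul_right this p3
  calc A1 * B1 ≤ (G2 * Z1) * (G1 * Z2 * E1) := mul_le_mul a1 b1 nB (by positivity)
    _ = _ := by ring

end Pool.Agent.N967
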