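import Mathlib
import Pool.Agent.N967.Ratio

set_option autoImplicit false

/-!
# The pointwise bound for the ratio: choice of the parameters
-/

namespace Pool.Agent.N967

open Complex Filter Topology
open Pool.Agent.Y23 (IsZ mu Lg)
open Pool.Agent.H295R2 (fz Zs)
open Pool.Agent.H24R2.JP (XX)

lemma log_lower {X : ℝ} (hX : 1.09 ≤ X) : 0.08 ≤ Real.log X := by
  have h1 := Real.one_sub_inv_le_log_of_pos (by linarith : 0 < X)
  have h2 : X⁻¹ ≤ 1 / 1.09 := by
    rw [inv_eq_one_div]
    exact one_div_le_one_div_of_le (by norm_num) hX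
  norm_num at h2
  linarith

lemma fin_ineq {η X V : ℝ} (hη : 0 < η) (hη1 : η ≤ 1 / 16) (hX : 1.09 ≤ X) (hV : 0 ≤ V) :
    (1 / 2 + η) * (X / Real.log X) * V + η * X ≤ (1 - η) / 2 * X + 20 * Real.exp ((1 + 8 * η) * V) := by
  have hl := log_lower hX
  have hl0 : 0 < Real.log X := by linarith
  have hE : 0 < Real.exp ((1 + 8 * η) * V) := Real.exp_pos _
  have hEV : Real.exp V ≤ Real.exp ((1 + 8 * η) * V) := by
    rw [Real.exp_le_exp]; nlinarith
  rcases le_or_gt ((1 + 8 * η) * V) (Real.log X) with h | h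
  · have h1 : X / Real.log X * V ≤ X / (1 + 8 * η) := by
      rw [div_mul_eq_mul_div, div_le_div_iff₀ hl0 (by linarith)]
      nlinarith
    have h2 : (1 / 2 + η) * (X / (1 + 8 * η)) ≤ (1 / 2 - 2 * η) * X := by
      rw [← mul_div_assoc, div_le_iff₀ (by linarith)]
      have h3 : 1 / 2 + η ≤ (1 / 2 - 2 * η) * (1 + 8 * η) := by nlinarith
      nlinarith
    have h4 : (1 / 2 + η) * (X / Real.log X) * V = (1 / 2 + η) * (X / Real.log X * V) := by ring
    rw [h4]
    nlinarith
  · have hXW : X < Real.exp ((1 + 8 * η) * V) := by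
      rwa [← Real.log_lt_iff_lt_exp (by linarith)]
    rcases le_or_gt (Real.log X) 1 with h1 | h1
    · have hXe : X ≤ 2.72 := by
        have h2 : X ≤ Real.exp 1 := by rwa [← Real.log_le_iff_le_exp (by linarith)]
        have := Real.exp_one_lt_d9
        linarith
      have h3 : X / Real.log X ≤ 34 := by
        rw [div_le_iff₀ hl0]; linarith
      have h4 : V ≤ Real.exp V - 1 := by linarith [Real.add_one_le_exp V]
      have h5 : 0 ≤ X / Real.log X := by positivity
      have h6 : (1 / 2 + η) * (X / Real.log X) * V ≤ 9 / 16 * 34 * V := by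
        have : (1 / 2 + η) * (X / Real.log X) ≤ 9 / 16 * 34 := by
          refine mul_le_mul (by linarith) h3 h5 (by norm_num)
        exact mul_le_mul_of_nonneg_right this hV
      have h7 : 0 ≤ (1 - η) / 2 * X := by
        have : 0 ≤ 1 - η := by linarith
        positivity
      nlinarith
    · have h2 : X / Real.log X * V ≤ 2 * Real.exp ((1 + 8 * η) * V) := by
        rcases le_or_gt (V / 2) (Real.log X) with h3 | h3
        · rw [div_mul_eq_mul_div, div_le_iff₀ hl0]
          nlinarith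
        · have h4 : X ≤ Real.exp (V / 2) := by
            rw [← Real.log_le_iff_le_exp (by linarith)]
            exact h3.le
          have h5 : X / Real.log X ≤ X := by
            rw [div_le_iff₀ hl0]; nlinarith
          have h6 : V / 2 ≤ Real.exp (V / 2) := by linarith [Real.add_one_le_exp (V / 2)]
          have h7 : Real.exp (V / 2) * Real.exp (V / 2) = Real.exp V := by rw [← Real.exp_add]; congr 1; ring
          have h8 : X / Real.log X * V ≤ Real.exp (V / 2) * (2 * Real.exp (V / 2)) :=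
            mul_le_mul (h5.trans h4) (by linarith) hV (Real.exp_pos _).le
          nlinarith
      have h4 : (1 / 2 + η) * (X / Real.log X) * V = (1 / 2 + η) * (X / Real.log X * V) := by ring
      rw [h4]
      have h5 : (1 / 2 + η) * (X / Real.log X * V) ≤ 9 / 16 * (2 * Real.exp ((1 + 8 * η) * V)) :=
        mul_le_mul (by linarith) h2 (by positivity) (by norm_num)
      have h7 : 0 ≤ (1 - η) / 2 * X := by
        have : 0 ≤ 1 - η := by linarith
        positivity
      nlinarith

/-- a constant times `X / log X` is small compared with `X` -/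
lemma const_small {A δ : ℝ} (hA : 0 ≤ A) (hδ : 0 < δ) : ∃ C5 : ℝ, 0 ≤ C5 ∧ ∀ X : ℝ, 1.09 ≤ X →
    A * (X / Real.log X) ≤ δ * X + C5 := by
  refine ⟨A * (Real.exp (A / δ) / 0.08), by positivity, fun X hX => ?_⟩
  have hl := log_lower hX
  have hl0 : 0 < Real.log X := by linarith
  rcases le_or_gt (A / δ) (Real.log X) with h | h
  · have h1 : A ≤ δ * Real.log X := by
      rw [div_le_iff₀ hδ] at h
      linarith
    have h2 : A * (X / Real.log X) ≤ δ * X := by
      rw [← mul_div_assoc, div_le_iff₀ hl0]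
      nlinarith
    have : 0 ≤ A * (Real.exp (A / δ) / 0.08) := by positivity
    linarith
  · have h1 : X ≤ Real.exp (A / δ) := by
      rw [← Real.log_le_iff_le_exp (by linarith)]
      exact h.le
    have h2 : X / Real.log X ≤ Real.exp (A / δ) / 0.08 := by
      exact div_le_div₀ (Real.exp_pos _).le h1 (by norm_num) hl
    have h3 : 0 ≤ δ * X := by positivity
    nlinarith [mul_le_mul_of_nonneg_left h2 hA]

lemma Lg_shift (t v : ℝ) : Lg (t + v) ≤ Lg t + Real.log (1 + |v|) := by
  unfold Lg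
  rw [← Real.log_mul (by positivity) (by positivity)]
  refine Real.log_le_log (by positivity) ?_
  have := abs_add_le t v
  nlinarith [abs_nonneg t, abs_nonneg v, mul_nonneg (abs_nonneg t) (abs_nonneg v)]

lemma rpow_Lg {t δ : ℝ} (hδ : 0 ≤ δ) : (1 + |t|) ^ δ ≤ Real.exp (δ * Lg t) := by
  unfold Lg
  rw [mul_comm, ← Real.rpow_def_of_pos (by positivity)]
  exact Real.rpow_le_rpow (by positivity) (by linarith) hδ

/-- the final form of the exponent -/
lemma final_form {η K C6 b t v E X : ℝ} (hη : 0 < η) (hη1 : η ≤ 1 / 16) (hb : 0 < b) (hb1 : b ≤ 1)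
    (hX : 1.09 ≤ X) (hXt : X ≤ Lg t + Real.log (1 + |v|))
    (hE : E ≤ (1 / 2 + η) * (X / Real.log X) * Real.log (1 + min |v| 1 / b) + η * X +
      1 / 2 * Real.log (1 + |v|) + K * Real.log (2 / b) + C6) :
    Real.exp E ≤ (max (max K 20) (3 * 2 ^ K * Real.exp C6)) * b ^ (-(max (max K 20) (3 * 2 ^ K * Real.exp C6))) *
      (1 + |v|) * (1 + |t|) ^ ((1 - η) / 2) *
      Real.exp ((max (max K 20) (3 * 2 ^ K * Real.exp C6)) * (1 + min |v| 1 / b) ^ (1 + 8 * η)) := by
  set C := max (max K 20) (3 * 2 ^ K * Real.exp C6) with hC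
  have hCK : K ≤ C := (le_max_left _ _).trans (le_max_left _ _)
  have hC20 : 20 ≤ C := (le_max_right _ _).trans (le_max_left _ _)
  have hC3 : 3 * 2 ^ K * Real.exp C6 ≤ C := le_max_right _ _
  set V := Real.log (1 + min |v| 1 / b) with hVdef
  have hm : 0 ≤ min |v| 1 / b := by
    have : 0 ≤ min |v| 1 := le_min (abs_nonneg v) zero_le_one
    positivity
  have hV : 0 ≤ V := Real.log_nonneg (by linarith)
  have h1 := fin_ineq hη hη1 hX hV
  have hlv : 0 ≤ Real.log (1 + |v|) := Real.log_nonneg (by linarith [abs_nonneg v])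
  have h2 : E ≤ (1 - η) / 2 * Lg t + Real.log (1 + |v|) + 20 * Real.exp ((1 + 8 * η) * V) + K * Real.log (2 / b) + C6 := by
    have h3 : (1 - η) / 2 * X ≤ (1 - η) / 2 * (Lg t + Real.log (1 + |v|)) := by
      apply mul_le_mul_of_nonneg_left hXt
      linarith
    nlinarith
  refine (Real.exp_le_exp.2 h2).trans ?_
  rw [Real.exp_add, Real.exp_add, Real.exp_add, Real.exp_add]
  have e1 : Real.exp ((1 - η) / 2 * Lg t) ≤ 3 * (1 + |t|) ^ ((1 - η) / 2) := by
    unfold Lg
    rw [mul_comm, ← Real.rpow_def_of_pos (by positivity)]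
    have h4 : (3 + |t|) ^ ((1 - η) / 2) ≤ (3 * (1 + |t|)) ^ ((1 - η) / 2) :=
      Real.rpow_le_rpow (by positivity) (by linarith [abs_nonneg t]) (by linarith)
    refine h4.trans ?_
    rw [Real.mul_rpow (by norm_num) (by positivity)]
    refine mul_le_mul_of_nonneg_right ?_ (by positivity)
    calc (3 : ℝ) ^ ((1 - η) / 2) ≤ 3 ^ (1 : ℝ) := Real.rpow_le_rpow_of_exponent_le (by norm_num) (by linarith)
      _ = 3 := Real.rpow_one _
  have e2 : Real.exp (Real.log (1 + |v|)) = 1 + |v| := Real.exp_log (by positivity)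
  have e3 : Real.exp (20 * Real.exp ((1 + 8 * η) * V)) ≤ Real.exp (C * (1 + min |v| 1 / b) ^ (1 + 8 * η)) := by
    rw [Real.exp_le_exp, mul_comm (1 + 8 * η) V, hVdef, ← Real.rpow_def_of_pos (by positivity)]
    exact mul_le_mul_of_nonneg_right hC20 (by positivity)
  have e4 : Real.exp (K * Real.log (2 / b)) ≤ 2 ^ K * b ^ (-C) := by
    rw [mul_comm, ← Real.rpow_def_of_pos (by positivity), Real.div_rpow (by norm_num) hb.le, div_eq_mul_inv,
      ← Real.rpow_neg hb.le]
    refine mul_le_mul_of_nonneg_left ?_ (by positivity)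
    exact Real.rpow_le_rpow_of_exponent_ge hb hb1 (by linarith)
  have hb0 : 0 < b ^ (-C) := Real.rpow_pos_of_pos hb _
  calc Real.exp ((1 - η) / 2 * Lg t) * Real.exp (Real.log (1 + |v|)) * Real.exp (20 * Real.exp ((1 + 8 * η) * V)) *
        Real.exp (K * Real.log (2 / b)) * Real.exp C6
      ≤ (3 * (1 + |t|) ^ ((1 - η) / 2)) * (1 + |v|) * Real.exp (C * (1 + min |v| 1 / b) ^ (1 + 8 * η)) *
        (2 ^ K * b ^ (-C)) * Real.exp C6 := by
        rw [e2]
        gcongr
    _ = (3 * 2 ^ K * Real.exp C6) * b ^ (-C) * (1 + |v|) * (1 + |t|) ^ ((1 - η) / 2) *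
        Real.exp (C * (1 + min |v| 1 / b) ^ (1 + 8 * η)) := by ring
    _ ≤ _ := by gcongr

theorem ratio (hgam : S_gam) (hfar : S_far) (hcnt : S_cnt) (hlind : S_lind) (hmono : S_mono) : S_ratio := by
  intro hRH η hη hη1
  obtain ⟨C2, K, hC2, hK, hnear⟩ := near_all hcnt hRH hη (by linarith)
  obtain ⟨C1, hC1, hfar'⟩ := hfar
  have h1 : FarC C1 := ⟨hC1, hfar'⟩
  obtain ⟨C4, hC4, hgam'⟩ := hgam
  have h4 : GamC C4 := ⟨hC4, fun a b t ha ha' hb hb' => (hgam' a b t ha ha' hb hb').1⟩
  -- the choice of e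
  set e : ℝ := min (min (1 / 4) (η / (16 * C4))) (min ((η / (8 * C2)) ^ 2) (η / (64 * C1))) with he
  have he0 : 0 < e := lt_min (lt_min (by norm_num) (by positivity)) (lt_min (by positivity) (by positivity))
  have he1 : e ≤ 1 / 4 := (min_le_left _ _).trans (min_le_left _ _)
  have he2 : C4 * e ≤ η / 16 := by
    have : e ≤ η / (16 * C4) := (min_le_left _ _).trans (min_le_right _ _)
    calc C4 * e ≤ C4 * (η / (16 * C4)) := by gcongr
      _ = η / 16 := by field_simp
  have he3 : C2 * Real.sqrt e ≤ η / 8 := by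
    have : e ≤ (η / (8 * C2)) ^ 2 := (min_le_right _ _).trans (min_le_left _ _)
    have h2 : Real.sqrt e ≤ η / (8 * C2) := by
      rw [Real.sqrt_le_left (by positivity)]
      exact this
    calc C2 * Real.sqrt e ≤ C2 * (η / (8 * C2)) := by gcongr
      _ = η / 8 := by field_simp
  have he4 : C1 * e ≤ η / 64 := by
    have : e ≤ η / (64 * C1) := (min_le_right _ _).trans (min_le_right _ _)
    calc C1 * e ≤ C1 * (η / (64 * C1)) := by gcongr
      _ = η / 64 := by field_simp
  obtain ⟨Z, hZ, hlind'⟩ := hlind hRH (1 / 2 + e) (η / 16) (by linarith) (by linarith) (by positivity)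
  have hlind2 : ∀ t : ℝ, ‖riemannZeta (1 / 2 + e + t * I)‖ ≤ Z * Real.exp (η / 16 * Lg t) ∧
      ‖fz (1 / 2 + e + t * I)‖ ≤ Z * Real.exp (η / 16 * Lg t) := by
    intro t
    have h := hlind' t
    have e1 : (((1 / 2 + e : ℝ) : ℂ) + t * I) = 1 / 2 + e + t * I := by push_cast; ring
    rw [e1] at h
    have h2 := rpow_Lg (t := t) (δ := η / 16) (by positivity)
    exact ⟨h.1.trans (mul_le_mul_of_nonneg_left h2 hZ.le), h.2.trans (mul_le_mul_of_nonneg_left h2 hZ.le)⟩
  -- the choice of v0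
  set v0 : ℝ := min (1 / 4) (min ((η / (8 * C2)) ^ 2) (η * e / (256 * C1))) with hv0
  have hv00 : 0 < v0 := lt_min (by norm_num) (lt_min (by positivity) (by positivity))
  have hv01 : v0 ≤ 1 / 4 := min_le_left _ _
  have hv02 : C2 * Real.sqrt v0 ≤ η / 8 := by
    have : v0 ≤ (η / (8 * C2)) ^ 2 := (min_le_right _ _).trans (min_le_left _ _)
    have h2 : Real.sqrt v0 ≤ η / (8 * C2) := by
      rw [Real.sqrt_le_left (by positivity)]
      exact this
    calc C2 * Real.sqrt v0 ≤ C2 * (η / (8 * C2)) := by gcongr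
      _ = η / 8 := by field_simp
  have hv03 : 12 * v0 / e * (8 / 3 * C1) ≤ η / 8 := by
    have : v0 ≤ η * e / (256 * C1) := (min_le_right _ _).trans (min_le_right _ _)
    calc 12 * v0 / e * (8 / 3 * C1) ≤ 12 * (η * e / (256 * C1)) / e * (8 / 3 * C1) := by gcongr
      _ = η / 8 := by field_simp; norm_num
  obtain ⟨C5, hC5, hsmall⟩ := const_small (A := (1 / 2 + η) * Real.log (1 / v0)) (δ := η / 8)
    (mul_nonneg (by linarith) (Real.log_nonneg (by rw [le_div_iff₀ hv00]; linarith))) (by positivity)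
  set C6 : ℝ := 2 * Real.log Z + 32 * v0 / e + 1 + C5 with hC6
  refine ⟨max (max K 20) (3 * 2 ^ K * Real.exp C6), e, lt_of_lt_of_le (by norm_num : (0:ℝ) < 20)
    ((le_max_right _ _).trans (le_max_left _ _)), he0, he1, fun b t v hb hbe => ?_⟩
  set τ : ℝ := t - v with hτ
  have etv : t = τ + v := by rw [hτ]; ring
  have ecast : ((t : ℂ) - v) = ((τ : ℝ) : ℂ) := by rw [hτ]; push_cast; ring
  rw [ecast]
  have hX := one_lt_Lg τ
  have hXt : Lg τ ≤ Lg t + Real.log (1 + |v|) := by
    have := Lg_shift t (-v)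
    rw [abs_neg] at this
    exact this
  have htX : Lg t ≤ Lg τ + Real.log (1 + |v|) := by
    have := Lg_shift τ v
    rwa [← etv] at this
  have hlv : 0 ≤ Real.log (1 + |v|) := Real.log_nonneg (by linarith [abs_nonneg v])
  have hXl : 0 ≤ Lg τ / Real.log (Lg τ) := by
    have := log_Lg_pos τ
    positivity
  have hlogZ : Z = Real.exp (Real.log Z) := (Real.exp_log hZ).symm
  rcases le_or_gt |v| v0 with hv | hv
  · -- small v
    obtain ⟨c, hc0, hc1, hN⟩ := hnear τ |v| b (abs_nonneg v) (by linarith) hb (by linarith)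
    have key := caseA hmono hRH h1 h4 (t := τ) (v := v) hb hbe he1 hc0.le hc1 (by linarith) (hlind2 (τ + v)).1 (hlind2 τ).2 hN
    rw [← etv] at key
    refine key.trans ?_
    have e9 : Real.exp (C4 * e * Lg τ) * Real.exp (C4 * e * Lg t) * (Z * Real.exp (η / 16 * Lg t)) * (Z * Real.exp (η / 16 * Lg τ)) *
        Real.exp ((1 / 2 + η) * (Lg τ / Real.log (Lg τ)) * Real.log (1 + |v| / b) + C2 * Real.sqrt |v| * Lg τ +
          K * Real.log (2 / b) + 12 * |v| / e * (8 / 3 * (C1 * Lg τ + 1))) =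
        Real.exp (C4 * e * Lg τ + C4 * e * Lg t + (Real.log Z + η / 16 * Lg t) + (Real.log Z + η / 16 * Lg τ) +
          ((1 / 2 + η) * (Lg τ / Real.log (Lg τ)) * Real.log (1 + |v| / b) + C2 * Real.sqrt |v| * Lg τ +
          K * Real.log (2 / b) + 12 * |v| / e * (8 / 3 * (C1 * Lg τ + 1)))) := by
      simp only [Real.exp_add, Real.exp_log hZ]
    rw [e9]
    refine final_form (X := Lg τ) hη hη1 hb (by linarith) hX hXt ?_
    have hmin : min |v| 1 = |v| := min_eq_left (by linarith)
    rw [hmin]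
    have q1 : C4 * e * Lg τ ≤ η / 16 * Lg τ := mul_le_mul_of_nonneg_right he2 (by linarith)
    have q2 : C4 * e * Lg t ≤ η / 16 * (Lg τ + Real.log (1 + |v|)) :=
      (mul_le_mul_of_nonneg_right he2 (by linarith [one_lt_Lg t])).trans (mul_le_mul_of_nonneg_left htX (by positivity))
    have q3 : η / 16 * Lg t ≤ η / 16 * (Lg τ + Real.log (1 + |v|)) := mul_le_mul_of_nonneg_left htX (by positivity)
    have q4 : C2 * Real.sqrt |v| * Lg τ ≤ η / 8 * Lg τ := by
      refine mul_le_mul_of_nonneg_right (le_trans ?_ hv02) (by linarith)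
      exact mul_le_mul_of_nonneg_left (Real.sqrt_le_sqrt hv) hC2.le
    have q5 : 12 * |v| / e * (8 / 3 * (C1 * Lg τ + 1)) ≤ η / 8 * Lg τ + 32 * v0 / e := by
      calc 12 * |v| / e * (8 / 3 * (C1 * Lg τ + 1)) ≤ 12 * v0 / e * (8 / 3 * (C1 * Lg τ + 1)) := by
            have : 0 ≤ C1 * Lg τ + 1 := by positivity
            gcongr
        _ = 12 * v0 / e * (8 / 3 * C1) * Lg τ + 32 * v0 / e := by ring
        _ ≤ _ := by
          have := mul_le_mul_of_nonneg_right hv03 (by linarith : 0 ≤ Lg τ)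
          linarith
    have q6 : η / 16 * Real.log (1 + |v|) ≤ 1 / 16 * Real.log (1 + |v|) := mul_le_mul_of_nonneg_right (by linarith) hlv
    rw [hC6]
    have q7 : 0 ≤ η * Lg τ := by positivity
    linarith
  · -- large v
    obtain ⟨c, hc0, hc1, hN⟩ := hnear τ e b he0.le (by linarith) hb (by linarith)
    have key := caseB hmono hRH h1 h4 (t := τ) (t' := t) hb hbe he1 hc0.le hc1 (hlind2 t).1 (hlind2 τ).2 hN
    refine key.trans ?_
    have e9 : Real.exp (C4 * e * Lg τ) * Real.exp (C4 * e * Lg t) * (Z * Real.exp (η / 16 * Lg t)) * (Z * Real.exp (η / 16 * Lg τ)) *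
        Real.exp ((1 / 2 + η) * (Lg τ / Real.log (Lg τ)) * Real.log (1 + e / b) + C2 * Real.sqrt e * Lg τ +
          K * Real.log (2 / b) + e * (8 / 3 * (C1 * Lg τ + 1))) =
        Real.exp (C4 * e * Lg τ + C4 * e * Lg t + (Real.log Z + η / 16 * Lg t) + (Real.log Z + η / 16 * Lg τ) +
          ((1 / 2 + η) * (Lg τ / Real.log (Lg τ)) * Real.log (1 + e / b) + C2 * Real.sqrt e * Lg τ +
          K * Real.log (2 / b) + e * (8 / 3 * (C1 * Lg τ + 1)))) := by
      simp only [Real.exp_add, Real.exp_log hZ]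
    rw [e9]
    refine final_form (X := Lg τ) hη hη1 hb (by linarith) hX hXt ?_
    have hm : v0 ≤ min |v| 1 := le_min hv.le (by linarith)
    have hlog : Real.log (1 + e / b) ≤ Real.log (1 + min |v| 1 / b) + Real.log (1 / v0) := by
      rw [← Real.log_mul (by positivity) (by positivity)]
      refine Real.log_le_log (by positivity) ?_
      rw [mul_one_div, le_div_iff₀ hv00]
      have h2 : (1 + e / b) * v0 = v0 + e * (v0 / b) := by ring
      rw [h2]
      have h3 : v0 / b ≤ min |v| 1 / b := by gcongr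
      have h4 : 0 ≤ v0 / b := by positivity
      nlinarith
    have q0 : (1 / 2 + η) * (Lg τ / Real.log (Lg τ)) * Real.log (1 + e / b) ≤
        (1 / 2 + η) * (Lg τ / Real.log (Lg τ)) * Real.log (1 + min |v| 1 / b) + (η / 8 * Lg τ + C5) := by
      have h2 := mul_le_mul_of_nonneg_left hlog (by positivity : 0 ≤ (1 / 2 + η) * (Lg τ / Real.log (Lg τ)))
      have h3 := hsmall (Lg τ) hX
      have e3 : (1 / 2 + η) * Real.log (1 / v0) * (Lg τ / Real.log (Lg τ)) =
        (1 / 2 + η) * (Lg τ / Real.log (Lg τ)) * Real.log (1 / v0) := by ring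
      rw [e3] at h3
      rw [mul_add] at h2
      linarith
    have q1 : C4 * e * Lg τ ≤ η / 16 * Lg τ := mul_le_mul_of_nonneg_right he2 (by linarith)
    have q2 : C4 * e * Lg t ≤ η / 16 * (Lg τ + Real.log (1 + |v|)) :=
      (mul_le_mul_of_nonneg_right he2 (by linarith [one_lt_Lg t])).trans (mul_le_mul_of_nonneg_left htX (by positivity))
    have q3 : η / 16 * Lg t ≤ η / 16 * (Lg τ + Real.log (1 + |v|)) := mul_le_mul_of_nonneg_left htX (by positivity)
    have q4 : C2 * Real.sqrt e * Lg τ ≤ η / 8 * Lg τ := mul_le_mul_of_nonneg_right he3 (by linarith)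
    have q5 : e * (8 / 3 * (C1 * Lg τ + 1)) ≤ η / 24 * Lg τ + 1 := by
      have h2 := mul_le_mul_of_nonneg_right he4 (by linarith : 0 ≤ Lg τ)
      have e3 : e * (8 / 3 * (C1 * Lg τ + 1)) = 8 / 3 * (C1 * e * Lg τ) + 8 / 3 * e := by ring
      rw [e3]
      linarith
    have q6 : η / 16 * Real.log (1 + |v|) ≤ 1 / 16 * Real.log (1 + |v|) := mul_le_mul_of_nonneg_right (by linarith) hlv
    rw [hC6]
    have q7 : 0 ≤ η * Lg τ := by positivity
    have q8 : 0 ≤ 32 * v0 / e := by positivity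
    linarith

end Pool.Agent.N967
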