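import Mathlib
import Pool.Agent.N967.Lim

set_option autoImplicit false

/-!
# The zeta function has a zero in the critical strip
-/

namespace Pool.Agent.N967

open Complex Polynomial Filter Topology
open Pool.Agent.Y22.LM (xx_approx)
open Pool.Agent.H24R2.JP (XX)

lemma XX_three_half : XX (3 / 2) = 4 * Real.pi / 3 := by
  unfold Pool.Agent.H24R2.JP.XX
  have e1 : (1 / 2 + 3 / 2 : ℂ) = 2 := by norm_num
  have h1 := completedRiemannZeta_eq 2
  have h2 := riemannZeta_def_of_ne_zero (s := 2) (by norm_num)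
  have h3 : Gammaℝ 2 = 1 / Real.pi := by
    rw [Gammaℝ_def]
    have : (2 / 2 : ℂ) = 1 := by norm_num
    rw [this, Complex.Gamma_one, mul_one]
    have : (-2 / 2 : ℂ) = -1 := by norm_num
    rw [this, Complex.cpow_neg_one, one_div]
  have hpi : (Real.pi : ℂ) ≠ 0 := by exact_mod_cast Real.pi_ne_zero
  rw [riemannZeta_two, h3] at h2
  have h4 : completedRiemannZeta 2 = Real.pi / 6 := by
    field_simp at h2 ⊢
    rw [← h2]
  rw [e1]
  have h5 : completedRiemannZeta₀ 2 = Real.pi / 6 - 1 / 2 := by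
    rw [← h4, h1]; ring
  rw [h5]
  ring

lemma exists_zero2 : ∃ z : ℂ, XX z = 0 := by
  by_contra hcon
  push Not at hcon
  obtain ⟨p, hp1, hp2, -⟩ := xx_approx
  have hconst : ∀ N : ℕ, ∀ z w : ℂ, (p N).eval z = (p N).eval w := by
    intro N z w
    have hdeg : (p N).degree ≤ 0 := by
      by_contra h
      push Not at h
      obtain ⟨r, hr⟩ := Complex.exists_root h
      exact hcon r (hp1 N r hr)
    rw [Polynomial.eq_C_of_degree_le_zero hdeg]
    simp
  have hpt : ∀ z : ℂ, Tendsto (fun N => (p N).eval z) atTop (𝓝 (XX z)) := fun z =>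
    ((tendstoLocallyUniformlyOn_univ.mpr hp2).tendsto_at (Set.mem_univ z))
  have h1 := hpt (1 / 2)
  have h2 := (hpt (3 / 2)).congr (fun N => hconst N (3 / 2) (1 / 2))
  have h3 := tendsto_nhds_unique h1 h2
  have hx : XX (1 / 2) = 4 := by
    unfold Pool.Agent.H24R2.JP.XX
    norm_num
  rw [hx, XX_three_half] at h3
  have h4 := congrArg Complex.re h3
  have e2 : (4 * Real.pi / 3 : ℂ) = ((4 * Real.pi / 3 : ℝ) : ℂ) := by push_cast; ring
  rw [e2, Complex.ofReal_re] at h4
  norm_num at h4
  have := Real.pi_gt_d2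
  linarith

end Pool.Agent.N967
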