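import Pool.Agent.N967.Upper2
import Pool.Agent.N967.Ratio2
import Pool.Agent.N967.Kern
import Pool.Agent.N967.First
import Pool.Agent.N967.Gam
import Pool.Agent.N967.Fejer
import Pool.Agent.N967.Lind
import Pool.Agent.N967.App
import Pool.Agent.N967.Low
import Pool.Agent.N967.Zero
import Pool.Agent.N831.LI.RH

set_option autoImplicit false

/-!
# Baez-Duarte's distance: the parts put together
-/

namespace Pool.Agent.N967

open Complex MeasureTheory Filter Topology
open Pool.Agent.Y23 (IsZ isZ_iff isZ_refl)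

theorem ratio_all : S_ratio := ratio gam far (cnt fejer) lind mono

theorem first_all : S_first := first mono gam shift

/-- the upper bound under the Riemann hypothesis -/
theorem upper_all (hRH : RiemannHypothesis) {δ : ℝ} (hδ : 0 < δ) :
    ∃ C : ℝ, 0 < C ∧ ∀ N : ℕ, 2 ≤ N → dd N ≤ C * Real.log N ^ (-(1 - δ)) := by
  rcases le_or_gt δ 1 with h1 | h1
  · exact upper kern app first_all ratio_all hRH hδ h1
  · obtain ⟨C, hC, h⟩ := upper kern app first_all ratio_all hRH one_pos le_rfl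
    refine ⟨C * Real.log 2 ^ (-(δ - 1)), mul_pos hC (Real.rpow_pos_of_pos (Real.log_pos (by norm_num)) _),
      fun N hN => ?_⟩
    have h2 := h N hN
    simp only [sub_self, neg_zero, Real.rpow_zero, mul_one] at h2
    have hl2 : 0 < Real.log 2 := Real.log_pos (by norm_num)
    have hN' : (2 : ℝ) ≤ N := by exact_mod_cast hN
    have hlN : Real.log 2 ≤ Real.log N := Real.log_le_log (by norm_num) hN'
    have h3 : Real.log 2 ^ (δ - 1) ≤ Real.log N ^ (δ - 1) :=
      Real.rpow_le_rpow hl2.le hlN (by linarith)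
    have h4 : 1 ≤ Real.log 2 ^ (-(δ - 1)) * Real.log N ^ (δ - 1) := by
      rw [Real.rpow_neg hl2.le, ← div_eq_inv_mul, one_le_div (Real.rpow_pos_of_pos hl2 _)]
      exact h3
    calc dd N ≤ C := h2
      _ = C * 1 := (mul_one C).symm
      _ ≤ C * (Real.log 2 ^ (-(δ - 1)) * Real.log N ^ (δ - 1)) := mul_le_mul_of_nonneg_left h4 hC.le
      _ = C * Real.log 2 ^ (-(δ - 1)) * Real.log N ^ (-(1 - δ)) := by
        rw [show -(1 - δ) = δ - 1 by ring]; ring

lemma bdd_err (N : ℕ) : BddBelow (Set.range (fun a : ℕ → ℂ => err N a)) :=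
  ⟨0, by rintro _ ⟨a, rfl⟩; exact err_nonneg N a⟩

lemma DP_ext (M N : ℕ) (h : M ≤ N) (a : ℕ → ℂ) :
    ∃ b : ℕ → ℂ, ∀ s : ℂ, DP N b s = DP M a s := by
  refine ⟨fun n => if n ≤ M then a n else 0, fun s => ?_⟩
  unfold DP
  rw [← Finset.sum_subset (s₁ := Finset.Icc 1 M) (s₂ := Finset.Icc 1 N)]
  · refine Finset.sum_congr rfl fun n hn => ?_
    simp only [if_pos (Finset.mem_Icc.mp hn).2]
  · exact Finset.Icc_subset_Icc_right h
  · intro n _ h2
    by_cases h3 : n ≤ M
    · exact absurd (Finset.mem_Icc.mpr ⟨(Finset.mem_Icc.mp ‹n ∈ Finset.Icc 1 N›).1, h3⟩) h2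
    · simp only [if_neg h3, zero_mul]

/-- the distance decreases with `N` -/
lemma dd_anti : Antitone dd := by
  intro M N h
  refine le_ciInf fun a => ?_
  obtain ⟨b, hb⟩ := DP_ext M N h a
  have : err N b = err M a := by
    unfold err ig
    simp only [hb]
  rw [← this]
  exact ciInf_le (bdd_err N) b

/-- a zero to the right of the line -/
theorem low_off (h : ¬ RiemannHypothesis) : ∃ c : ℝ, 0 < c ∧ ∀ N : ℕ, c ≤ dd N := by
  have h1 : ∃ s : ℂ, riemannZeta s = 0 ∧ 1 / 2 < s.re := by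
    by_contra hcon
    push Not at hcon
    exact h (Pool.Agent.N831.LI.rh_of_right hcon)
  obtain ⟨ρ, h0, h2⟩ := h1
  obtain ⟨c, hc, h3⟩ := low1 int_ig shift ρ h0 h2
  exact ⟨c, hc, fun N => le_ciInf fun a => h3 N a⟩

/-- the lower bound -/
theorem low_all : ∃ c : ℝ, 0 < c ∧ ∀ N : ℕ, 2 ≤ N → c / Real.log N ≤ dd N := by
  by_cases hRH : RiemannHypothesis
  · obtain ⟨z, hz⟩ := exists_zero2
    obtain ⟨hz1, hz2⟩ := XX_re hRH hz
    obtain ⟨c, N0, hc, hN0, h⟩ := low2 int_ig shift (z + 1 / 2) hz1.1 (by simp [hz2])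
    have hl2 : 0 < Real.log 2 := Real.log_pos (by norm_num)
    have hlN0 : 0 < Real.log N0 := Real.log_pos (by exact_mod_cast (by omega : 1 < N0))
    refine ⟨c * Real.log 2 / Real.log N0, by positivity, fun N hN => ?_⟩
    have hN' : (2 : ℝ) ≤ N := by exact_mod_cast hN
    have hlN : Real.log 2 ≤ Real.log N := Real.log_le_log (by norm_num) hN'
    have hlN' : 0 < Real.log N := lt_of_lt_of_le hl2 hlN
    rcases le_or_gt N0 N with h1 | h1
    · have h2 : c / Real.log N ≤ dd N := le_ciInf fun a => h N h1 a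
      refine le_trans ?_ h2
      refine div_le_div_of_nonneg_right ?_ hlN'.le
      rw [div_le_iff₀ hlN0]
      refine mul_le_mul_of_nonneg_left ?_ hc.le
      exact Real.log_le_log (by norm_num) (by exact_mod_cast hN0)
    · have h2 : c / Real.log N0 ≤ dd N0 := le_ciInf fun a => h N0 le_rfl a
      have h3 : dd N0 ≤ dd N := dd_anti h1.le
      refine le_trans ?_ (h2.trans h3)
      rw [div_div, div_le_div_iff₀ (by positivity) hlN0]
      have : Real.log 2 / Real.log N ≤ 1 := (div_le_one hlN').mpr hlN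
      nlinarith [mul_le_mul_of_nonneg_left hlN (mul_pos hc hlN0).le]
  · obtain ⟨c, hc, h⟩ := low_off hRH
    have hl2 : 0 < Real.log 2 := Real.log_pos (by norm_num)
    refine ⟨c * Real.log 2, by positivity, fun N hN => ?_⟩
    have hN' : (2 : ℝ) ≤ N := by exact_mod_cast hN
    have hlN : Real.log 2 ≤ Real.log N := Real.log_le_log (by norm_num) hN'
    refine le_trans ?_ (h N)
    rw [div_le_iff₀ (by linarith)]
    exact mul_le_mul_of_nonneg_left hlN hc.le

lemma dd_pos {N : ℕ} (hN : 2 ≤ N) : 0 < dd N := by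
  obtain ⟨c, hc, h⟩ := low_all
  refine lt_of_lt_of_le (div_pos hc (Real.log_pos ?_)) (h N hN)
  exact_mod_cast (by omega : 1 < N)

end Pool.Agent.N967
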