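import Mathlib
import Pool.Agent.N967.App
import Pool.Agent.N967.Stm2

set_option autoImplicit false

/-!
# Baez-Duarte's distance: the Dirichlet polynomial from the kernel, the line moved across `0`
-/

namespace Pool.Agent.N967

open Complex MeasureTheory Set Filter Topology
open Pool.Agent.H295R2 (fz Zs contour_shift vertical_integrable integrable_decay)

namespace App2Aux

lemma half_bound (y : ℝ) : 1 / (1 + |y|) ^ 8 ≤ (1 + |y|) ^ (-(1 / 2 : ℝ)) := by
  have hp : 1 ≤ 1 + |y| := by linarith [abs_nonneg y]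
  refine le_trans ?_ (AppAux.pow7_le y)
  have h2 : 0 ≤ 1 / (1 + |y|) ^ 8 := by positivity
  nlinarith

/-- the bound for the kernel in a right half plane -/
lemma m_bound {B b : ℝ} {m : ℂ → ℂ} (hb : 0 ≤ b)
    (hB1 : ∀ z : ℂ, 0 ≤ z.re → ‖m z‖ ≤ B / (1 + |z.im|) ^ 8)
    (hB2 : ∀ z : ℂ, z.re ≤ 0 → ‖m z‖ ≤ B * Real.exp (-z.re) / (1 + |z.im|) ^ 8) :
    ∀ z : ℂ, -b ≤ z.re → ‖m z‖ ≤ B * Real.exp b * (1 / (1 + |z.im|) ^ 8) := by
  have hB0 : 0 ≤ B := by
    have := hB1 0 (by simp)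
    simp at this
    exact (norm_nonneg _).trans this
  intro z hz
  rcases le_or_gt z.re 0 with h | h
  · refine (hB2 z h).trans ?_
    rw [mul_one_div]
    gcongr
    linarith
  · refine (hB1 z h.le).trans ?_
    rw [mul_one_div]
    gcongr
    have : 1 ≤ Real.exp b := Real.one_le_exp hb
    nlinarith

/-- the integral of `m z / z` to the left of the pole -/
lemma left_integral (hs : S_shift) {B : ℝ} {m : ℂ → ℂ} (hm : Differentiable ℂ m) (hm0 : m 0 = 1)
    (hB1 : ∀ z : ℂ, 0 ≤ z.re → ‖m z‖ ≤ B / (1 + |z.im|) ^ 8)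
    (hB2 : ∀ z : ℂ, z.re ≤ 0 → ‖m z‖ ≤ B * Real.exp (-z.re) / (1 + |z.im|) ^ 8) :
    ∫ y : ℝ, m (((-(1 / 2) : ℝ) : ℂ) + y * I) / (((-(1 / 2) : ℝ) : ℂ) + y * I) = -(2 * Real.pi) := by
  have hB0 : 0 ≤ B := by
    have := hB1 0 (by simp)
    simp at this
    exact (norm_nonneg _).trans this
  have hmb := m_bound (b := 1 / 2) (by norm_num) hB1 hB2
  have key : ∀ b : ℝ, 0 < b → (∫ y : ℝ, m ((b : ℂ) + y * I) / ((b : ℂ) + y * I)) -
      (∫ y : ℝ, m (((-(1 / 2) : ℝ) : ℂ) + y * I) / (((-(1 / 2) : ℝ) : ℂ) + y * I)) = 2 * Real.pi := by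
    intro b hb
    have := hs m (-(1 / 2)) b (B * Real.exp (1 / 2)) (by norm_num) hb (fun z _ _ => hm z)
      (fun z hz _ => (hmb z hz).trans (by
        gcongr
        exact half_bound _))
    rw [hm0, mul_one] at this
    exact this
  set J : ℝ := ∫ y : ℝ, (1 + |y|) ^ (-(3 / 2 : ℝ)) with hJ
  have hJ0 : 0 ≤ J := integral_nonneg fun y => by positivity
  have hsmall : ∀ b : ℝ, 0 < b → ‖∫ y : ℝ, m ((b : ℂ) + y * I) / ((b : ℂ) + y * I)‖ ≤ B / b * J := by
    intro b hb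
    rw [hJ, ← integral_const_mul]
    refine norm_integral_le_of_norm_le (integrable_decay.const_mul _) (Eventually.of_forall fun y => ?_)
    have h1 := hB1 ((b : ℂ) + y * I) (by simpa using hb.le)
    have h2 : b ≤ ‖(b : ℂ) + y * I‖ := by
      have := Complex.abs_re_le_norm ((b : ℂ) + y * I)
      simp only [add_re, ofReal_re, mul_re, I_re, mul_zero, ofReal_im, I_im, mul_one, sub_self, add_zero] at this
      exact (le_abs_self b).trans this
    have h3 : ((b : ℂ) + y * I).im = y := by simp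
    rw [h3] at h1
    rw [norm_div]
    calc ‖m ((b : ℂ) + y * I)‖ / ‖(b : ℂ) + y * I‖ ≤ (B / (1 + |y|) ^ 8) / b := by gcongr
      _ = B / b * (1 / (1 + |y|) ^ 8) := by ring
      _ ≤ B / b * (1 + |y|) ^ (-(3 / 2 : ℝ)) := by
          gcongr
          exact AppAux.pow8_le _
  generalize hA : (∫ y : ℝ, m (((-(1 / 2) : ℝ) : ℂ) + y * I) / (((-(1 / 2) : ℝ) : ℂ) + y * I)) = A at key ⊢
  have hle : ∀ b : ℝ, 0 < b → ‖2 * (Real.pi : ℂ) + A‖ ≤ B / b * J := by
    intro b hb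
    have := hsmall b hb
    have h2 : (∫ y : ℝ, m ((b : ℂ) + y * I) / ((b : ℂ) + y * I)) = 2 * (Real.pi : ℂ) + A := by
      rw [← key b hb]
      ring
    rwa [h2] at this
  have h0 : 2 * (Real.pi : ℂ) + A = 0 := by
    by_contra hne
    have hpos : 0 < ‖2 * (Real.pi : ℂ) + A‖ := norm_pos_iff.mpr hne
    set q := ‖2 * (Real.pi : ℂ) + A‖ with hq
    have h1 := hle (B * J / q + 1) (by positivity)
    have h2 : 0 < B * J / q + 1 := by positivity
    rw [div_mul_eq_mul_div, le_div_iff₀ h2] at h1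
    have h3 : q * (B * J / q + 1) = B * J + q := by
      field_simp
    rw [h3] at h1
    linarith
  linear_combination h0

end App2Aux

open App2Aux in
theorem app2 (h : S_app) (hs : S_shift) : S_app2 := by
  intro hRH B m hm hm0 hB1 hB2
  have e0 : ((-(1 / 2) : ℝ) : ℂ) = -(1 / 2) := by push_cast; ring
  refine ⟨?_, fun L hL N hN => ?_⟩
  · have := left_integral hs hm hm0 hB1 hB2
    rw [e0] at this
    exact this
  have hL0 : 0 < L := by linarith
  have hB0 : 0 ≤ B := by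
    have := hB1 0 (by simp)
    simp at this
    exact (norm_nonneg _).trans this
  set ε : ℝ := 1 / (2 * L) with hε
  have hε0 : 0 < ε := by positivity
  have hε1 : ε ≤ 1 / 4 := by
    rw [hε, div_le_div_iff₀ (by positivity) (by norm_num)]
    linarith
  have hLε : L * ε / 2 = 1 / 4 := by
    rw [hε]
    field_simp
    norm_num
  obtain ⟨a, ha⟩ := h hRH ε L B m hε0 hε1 (by linarith) hm hm0 hB1 hB2 N hN
  refine ⟨a, fun t => ?_⟩
  rw [ha t, hLε]
  set s : ℂ := 1 / 2 + ε + t * I with hsdef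
  have hsre : s.re = 1 / 2 + ε := by simp [hsdef]
  have hsim : s.im = t := by simp [hsdef]
  have hre : ∀ z : ℂ, (s - z / L).re = 1 / 2 + ε - z.re / L := by
    intro z
    rw [Complex.sub_re, hsre, Complex.div_ofReal_re]
  have him : ∀ z : ℂ, (s - z / L).im = t - z.im / L := by
    intro z
    rw [Complex.sub_im, hsim, Complex.div_ofReal_im]
  obtain ⟨C, hC, hfz⟩ := AppAux.fz_bound_rh hRH (σ := 1 / 2 + ε / 2) (by linarith)
  have hrange : ∀ z : ℂ, z.re ≤ 1 / 4 → 1 / 2 + ε / 2 ≤ (s - z / L).re := by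
    intro z hz
    rw [hre]
    have : z.re / L ≤ ε / 2 := by
      rw [div_le_iff₀ hL0]
      linarith
    linarith
  set F : ℂ → ℂ := fun z => m z * fz (s - z / L) with hF
  have hmb := m_bound (b := 1 / 2) (by norm_num) hB1 hB2
  have hFB : ∀ z : ℂ, -(1 / 2) ≤ z.re → z.re ≤ 1 / 4 →
      ‖F z‖ ≤ (B * Real.exp (1 / 2) * (C * (1 + |t|))) * (1 + |z.im|) ^ (-(1 / 2 : ℝ)) := by
    intro z hz hz'
    have h1 := hfz _ (hrange z hz')
    rw [him] at h1
    have h2 : 1 + |t - z.im / L| ≤ (1 + |t|) * (1 + |z.im|) := by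
      have e1 : |t - z.im / L| ≤ |t| + |z.im / L| := abs_sub _ _
      have e2 : |z.im / L| ≤ |z.im| := by
        rw [abs_div, abs_of_pos hL0]
        exact div_le_self (abs_nonneg _) (by linarith)
      nlinarith [abs_nonneg t, abs_nonneg z.im]
    simp only [hF]
    rw [norm_mul]
    calc ‖m z‖ * ‖fz (s - z / L)‖
        ≤ (B * Real.exp (1 / 2) * (1 / (1 + |z.im|) ^ 8)) * (C * (1 + |t - z.im / L|)) := by
          have := hmb z hz
          gcongr
      _ ≤ (B * Real.exp (1 / 2) * (1 / (1 + |z.im|) ^ 8)) * (C * ((1 + |t|) * (1 + |z.im|))) := by gcongr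
      _ = (B * Real.exp (1 / 2) * (C * (1 + |t|))) * ((1 + |z.im|) * (1 / (1 + |z.im|) ^ 8)) := by ring
      _ ≤ _ := by
          gcongr
          exact AppAux.pow7_le _
  have hFd : ∀ z : ℂ, -(1 / 2) ≤ z.re → z.re ≤ 1 / 4 → DifferentiableAt ℂ F z := by
    intro z _ hz'
    have h1 := hrange z hz'
    have h2 : DifferentiableAt ℂ fz (s - z / L) :=
      Pool.Agent.H295R2.fz_differentiableAt (AppAux.Zs_ne_zero_of_rh hRH (by linarith))
    have h3 : DifferentiableAt ℂ (fun z : ℂ => s - z / L) z := by fun_prop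
    have h4 : DifferentiableAt ℂ (fz ∘ (fun z : ℂ => s - z / L)) z := DifferentiableAt.comp z h2 h3
    exact (hm z).mul h4
  have hsh := hs F (-(1 / 2)) (1 / 4) _ (by norm_num) (by norm_num) hFd hFB
  have hF0 : F 0 = fz s := by
    simp only [hF, hm0, one_mul, zero_div, sub_zero]
  rw [hF0, e0] at hsh
  have hL0c : (L : ℂ) ≠ 0 := by exact_mod_cast hL0.ne'
  have h1 : (∫ y : ℝ, m (((1 / 4 : ℝ) : ℂ) + y * I) / (((1 / 4 : ℝ) : ℂ) + y * I) *
      fz (s - (((1 / 4 : ℝ) : ℂ) + y * I) / L)) =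
      ∫ y : ℝ, F (((1 / 4 : ℝ) : ℂ) + y * I) / (((1 / 4 : ℝ) : ℂ) + y * I) := by
    congr 1
    funext y
    simp only [hF]
    ring
  have h2 : (∫ y : ℝ, m (-(1 / 2) + y * I) / (-(1 / 2) + y * I) *
      fz (1 / 2 + ((1 / L : ℝ) : ℂ) + ((t - y / L : ℝ) : ℂ) * I)) =
      ∫ y : ℝ, F (-(1 / 2) + y * I) / (-(1 / 2) + y * I) := by
    congr 1
    funext y
    have e1 : (1 / 2 : ℂ) + ((1 / L : ℝ) : ℂ) + ((t - y / L : ℝ) : ℂ) * I = s - (-(1 / 2) + y * I) / L := by
      rw [hsdef, hε]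
      push_cast
      field_simp
      ring
    rw [e1]
    simp only [hF]
    ring
  rw [h1, h2]
  have hpi : (Real.pi : ℂ) ≠ 0 := by exact_mod_cast Real.pi_ne_zero
  generalize (∫ y : ℝ, F (((1 / 4 : ℝ) : ℂ) + y * I) / (((1 / 4 : ℝ) : ℂ) + y * I)) = J1 at hsh ⊢
  generalize (∫ y : ℝ, F (-(1 / 2) + y * I) / (-(1 / 2) + y * I)) = J2 at hsh ⊢
  have h3 : fz s = (J1 - J2) / (2 * Real.pi) := by
    rw [hsh]
    field_simp
  rw [h3]
  field_simp
  ring

end Pool.Agent.N967
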