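import Mathlib
import Pool.Agent.N967.Stm2

set_option autoImplicit false

/-!
# Bad intervals, part A: the prime powers in the explicit formula
-/

namespace Pool.Agent.N967.BadN

open Complex MeasureTheory
open scoped ArithmeticFunction.vonMangoldt

/-- the harmonic sum -/
lemma harm (X : ℕ) : ∑ n ∈ Finset.Icc 1 X, (1 : ℝ) / n ≤ 1 + Real.log X := by
  have h := harmonic_le_one_add_log X
  have e : ((harmonic X : ℚ) : ℝ) = ∑ n ∈ Finset.Icc 1 X, (1 : ℝ) / n := by
    rw [harmonic_eq_sum_Icc]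
    push_cast
    exact Finset.sum_congr rfl fun i _ => by rw [one_div]
  rw [← e]
  exact h

/-- the prime powers that are not primes contribute little -/
lemma pp (X : ℕ) (hX : 1 ≤ X) :
    ∑ n ∈ (Finset.Icc 1 X).filter (fun n => ¬ n.Prime), ArithmeticFunction.vonMangoldt n / Real.sqrt n ≤
      4 * (1 + Real.log X) ^ 4 := by
  classical
  set J := Nat.log 2 X with hJ
  set f : ℕ → ℝ := fun n => ArithmeticFunction.vonMangoldt n / Real.sqrt n with hf
  have hf0 : ∀ n, 0 ≤ f n := fun n => div_nonneg ArithmeticFunction.vonMangoldt_nonneg (Real.sqrt_nonneg _)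
  have hlX : 0 ≤ Real.log X := Real.log_nonneg (by exact_mod_cast hX)
  have hJl : (J : ℝ) ≤ 2 * Real.log X := by
    have h1 : (J : ℝ) ≤ Real.logb 2 X := by
      have := Real.natLog_le_logb X 2
      simpa [hJ] using this
    rw [Real.logb, le_div_iff₀ (Real.log_pos (by norm_num))] at h1
    have h2 : (1 / 2 : ℝ) ≤ Real.log 2 := by
      have := Real.log_two_gt_d9
      linarith
    have h3 : (0 : ℝ) ≤ J := Nat.cast_nonneg _
    nlinarith
  set A := (Finset.Icc 1 X).filter (fun n => ¬ n.Prime) with hA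
  have e1 : ∑ n ∈ A, f n = ∑ n ∈ A.filter (fun n => ArithmeticFunction.vonMangoldt n ≠ 0), f n := by
    symm
    refine Finset.sum_filter_of_ne fun n _ hn h => hn ?_
    simp [hf, h]
  have hsub : A.filter (fun n => ArithmeticFunction.vonMangoldt n ≠ 0) ⊆
      (Finset.Icc 1 X ×ˢ Finset.Icc 2 J).image (fun q : ℕ × ℕ => q.1 ^ q.2) := by
    intro n hn
    rw [Finset.mem_filter, hA, Finset.mem_filter, Finset.mem_Icc] at hn
    obtain ⟨⟨⟨h1, h2⟩, h3⟩, h4⟩ := hn
    rw [ArithmeticFunction.vonMangoldt_ne_zero_iff, isPrimePow_nat_iff] at h4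
    obtain ⟨p, k, hp, hk, rfl⟩ := h4
    rw [Finset.mem_image]
    refine ⟨(p, k), ?_, rfl⟩
    rw [Finset.mem_product, Finset.mem_Icc, Finset.mem_Icc]
    have hk2 : 2 ≤ k := by
      rcases Nat.lt_or_ge k 2 with h | h
      · exfalso
        have : k = 1 := by omega
        subst this
        exact h3 (by simpa using hp)
      · exact h
    refine ⟨⟨hp.one_le, ?_⟩, hk2, ?_⟩
    · exact (Nat.le_self_pow (by omega) p).trans h2
    · rw [hJ]
      refine Nat.le_log_of_pow_le (by norm_num) ?_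
      exact (Nat.pow_le_pow_left hp.two_le k).trans h2
  have h5 : ∀ q ∈ Finset.Icc 1 X ×ˢ Finset.Icc 2 J, f (q.1 ^ q.2) ≤ (J : ℝ) * Real.log X * (1 / (q.1 : ℝ)) := by
    intro q hq
    rw [Finset.mem_product, Finset.mem_Icc, Finset.mem_Icc] at hq
    obtain ⟨⟨h1, h2⟩, h3, h4⟩ := hq
    have hp : (1 : ℝ) ≤ q.1 := by exact_mod_cast h1
    have hv : ArithmeticFunction.vonMangoldt (q.1 ^ q.2) ≤ (J : ℝ) * Real.log X := by
      refine ArithmeticFunction.vonMangoldt_le_log.trans ?_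
      push_cast
      rw [Real.log_pow]
      have h6 : (q.2 : ℝ) ≤ J := by exact_mod_cast h4
      have h7 : Real.log q.1 ≤ Real.log X := Real.log_le_log (by linarith) (by exact_mod_cast h2)
      exact mul_le_mul h6 h7 (Real.log_nonneg hp) (Nat.cast_nonneg _)
    have hs : (q.1 : ℝ) ≤ Real.sqrt ((q.1 ^ q.2 : ℕ) : ℝ) := by
      rw [Real.le_sqrt (by linarith) (by positivity)]
      push_cast
      exact pow_le_pow_right₀ hp h3
    simp only [hf]
    rw [mul_one_div]
    exact div_le_div₀ (by positivity) hv (by linarith) hs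
  calc ∑ n ∈ A, f n = ∑ n ∈ A.filter (fun n => ArithmeticFunction.vonMangoldt n ≠ 0), f n := e1
    _ ≤ ∑ n ∈ (Finset.Icc 1 X ×ˢ Finset.Icc 2 J).image (fun q : ℕ × ℕ => q.1 ^ q.2), f n :=
        Finset.sum_le_sum_of_subset_of_nonneg hsub fun n _ _ => hf0 n
    _ ≤ ∑ q ∈ Finset.Icc 1 X ×ˢ Finset.Icc 2 J, f (q.1 ^ q.2) :=
        Finset.sum_image_le_of_nonneg (g := fun q : ℕ × ℕ => q.1 ^ q.2) (fun i _ => hf0 _)
    _ ≤ ∑ q ∈ Finset.Icc 1 X ×ˢ Finset.Icc 2 J, (J : ℝ) * Real.log X * (1 / (q.1 : ℝ)) := Finset.sum_le_sum h5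
    _ = (Finset.Icc 2 J).card * ((J : ℝ) * Real.log X * ∑ n ∈ Finset.Icc 1 X, (1 : ℝ) / n) := by
        rw [Finset.sum_product]
        simp only [Finset.sum_const, nsmul_eq_mul]
        rw [← Finset.mul_sum, ← Finset.mul_sum]
    _ ≤ (2 * Real.log X) * ((2 * Real.log X) * Real.log X * (1 + Real.log X)) := by
        have hc : ((Finset.Icc 2 J).card : ℝ) ≤ J := by
          rw [Nat.card_Icc]
          exact_mod_cast (by omega : J + 1 - 2 ≤ J)
        refine mul_le_mul (hc.trans hJl) ?_ ?_ (by positivity)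
        · refine mul_le_mul (mul_le_mul_of_nonneg_right hJl hlX) (harm X) ?_ (by positivity)
          exact Finset.sum_nonneg fun i _ => by positivity
        · have : 0 ≤ ∑ n ∈ Finset.Icc 1 X, (1 : ℝ) / n := Finset.sum_nonneg fun i _ => by positivity
          positivity
    _ ≤ 4 * (1 + Real.log X) ^ 4 := by
        have h1 : Real.log X ≤ 1 + Real.log X := by linarith
        calc (2 * Real.log X) * ((2 * Real.log X) * Real.log X * (1 + Real.log X))
            = 4 * (Real.log X ^ 3 * (1 + Real.log X)) := by ring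
          _ ≤ 4 * ((1 + Real.log X) ^ 3 * (1 + Real.log X)) := by gcongr
          _ = _ := by ring

/-- the coefficients of the explicit formula -/
noncomputable def cf (a : ℝ) (n : ℕ) : ℝ :=
  ArithmeticFunction.vonMangoldt n / Real.sqrt n * (2 * a - Real.log n)

/-- the length -/
noncomputable def XN (a : ℝ) : ℕ := ⌊Real.exp (2 * a)⌋₊

/-- the sum over the primes -/
noncomputable def W1 (a t : ℝ) : ℂ :=
  ∑ p ∈ (Finset.range (XN a + 1)).filter Nat.Prime, ((cf a p : ℝ) : ℂ) * (p : ℂ) ^ (-(t : ℂ) * I)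

lemma XN_pos {a : ℝ} (ha : 1 ≤ a) : 1 ≤ XN a := by
  unfold XN
  rw [Nat.one_le_floor_iff]
  exact Real.one_le_exp (by linarith)

lemma log_XN {a : ℝ} (ha : 1 ≤ a) : Real.log (XN a) ≤ 2 * a := by
  have h := XN_pos ha
  rw [Real.log_le_iff_le_exp (by exact_mod_cast h)]
  exact Nat.floor_le (Real.exp_pos _).le

lemma log_le_of_mem {a : ℝ} (ha : 1 ≤ a) {n : ℕ} (h1 : 1 ≤ n) (h2 : n ≤ XN a) :
    0 ≤ Real.log n ∧ Real.log n ≤ 2 * a := by
  refine ⟨Real.log_nonneg (by exact_mod_cast h1), le_trans ?_ (log_XN ha)⟩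
  exact Real.log_le_log (by exact_mod_cast h1) (by exact_mod_cast h2)

lemma norm_cpow {n : ℕ} (hn : 1 ≤ n) (t : ℝ) : ‖(n : ℂ) ^ (-(t : ℂ) * I)‖ = 1 := by
  rw [Complex.norm_natCast_cpow_of_pos (by omega)]
  simp

lemma decomp {a : ℝ} (ha : 1 ≤ a) (t : ℝ) : ‖WW a t‖ ≤ ‖W1 a t‖ + 648 * a ^ 5 := by
  classical
  have e : WW a t = W1 a t + ∑ n ∈ (Finset.Icc 1 (XN a)).filter (fun n => ¬ n.Prime),
      ((cf a n : ℝ) : ℂ) * (n : ℂ) ^ (-(t : ℂ) * I) := by
    unfold WW W1
    rw [← Finset.sum_filter_add_sum_filter_not (Finset.Icc 1 ⌊Real.exp (2 * a)⌋₊) Nat.Prime]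
    congr 1
    refine Finset.sum_congr ?_ fun _ _ => rfl
    ext n
    simp only [Finset.mem_filter, Finset.mem_Icc, Finset.mem_range, XN]
    constructor
    · rintro ⟨⟨h1, h2⟩, h3⟩
      exact ⟨by omega, h3⟩
    · rintro ⟨h1, h3⟩
      exact ⟨⟨h3.one_le, by omega⟩, h3⟩
  rw [e]
  refine (norm_add_le _ _).trans ?_
  gcongr
  calc ‖∑ n ∈ (Finset.Icc 1 (XN a)).filter (fun n => ¬ n.Prime), ((cf a n : ℝ) : ℂ) * (n : ℂ) ^ (-(t : ℂ) * I)‖
      ≤ ∑ n ∈ (Finset.Icc 1 (XN a)).filter (fun n => ¬ n.Prime),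
        2 * a * (ArithmeticFunction.vonMangoldt n / Real.sqrt n) := by
        refine norm_sum_le_of_le _ fun n hn => ?_
        rw [Finset.mem_filter, Finset.mem_Icc] at hn
        obtain ⟨⟨h1, h2⟩, _⟩ := hn
        rw [norm_mul, norm_cpow h1, mul_one, Complex.norm_real, Real.norm_eq_abs]
        obtain ⟨h3, h4⟩ := log_le_of_mem ha h1 h2
        have h5 : 0 ≤ ArithmeticFunction.vonMangoldt n / Real.sqrt n :=
          div_nonneg ArithmeticFunction.vonMangoldt_nonneg (Real.sqrt_nonneg _)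
        unfold cf
        rw [abs_of_nonneg (mul_nonneg h5 (by linarith)), mul_comm]
        exact mul_le_mul_of_nonneg_right (by linarith) h5
    _ = 2 * a * ∑ n ∈ (Finset.Icc 1 (XN a)).filter (fun n => ¬ n.Prime),
        ArithmeticFunction.vonMangoldt n / Real.sqrt n := by rw [Finset.mul_sum]
    _ ≤ 2 * a * (4 * (1 + Real.log (XN a)) ^ 4) := by
        gcongr
        exact pp _ (XN_pos ha)
    _ ≤ 2 * a * (4 * (3 * a) ^ 4) := by
        have h1 := log_XN ha
        have h2 : 0 ≤ Real.log (XN a) := Real.log_nonneg (by exact_mod_cast XN_pos ha)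
        gcongr
        linarith
    _ = 648 * a ^ 5 := by ring

lemma coef_sq {a : ℝ} (ha : 1 ≤ a) :
    ∑ p ∈ (Finset.range (XN a + 1)).filter Nat.Prime, cf a p ^ 2 ≤ 48 * a ^ 5 := by
  classical
  calc ∑ p ∈ (Finset.range (XN a + 1)).filter Nat.Prime, cf a p ^ 2
      ≤ ∑ p ∈ (Finset.range (XN a + 1)).filter Nat.Prime, (16 * a ^ 4) * (1 / (p : ℝ)) := by
        refine Finset.sum_le_sum fun p hp => ?_
        rw [Finset.mem_filter, Finset.mem_range] at hp
        obtain ⟨h1, h2⟩ := hp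
        obtain ⟨h3, h4⟩ := log_le_of_mem ha h2.one_le (by omega : p ≤ XN a)
        have h5 : (0 : ℝ) < p := by exact_mod_cast h2.pos
        unfold cf
        rw [mul_pow, div_pow, Real.sq_sqrt h5.le]
        have h6 : ArithmeticFunction.vonMangoldt p ^ 2 ≤ (2 * a) ^ 2 := by
          refine pow_le_pow_left₀ ArithmeticFunction.vonMangoldt_nonneg ?_ 2
          exact ArithmeticFunction.vonMangoldt_le_log.trans h4
        have h7 : (2 * a - Real.log p) ^ 2 ≤ (2 * a) ^ 2 := by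
          refine pow_le_pow_left₀ (by linarith) (by linarith) 2
        calc ArithmeticFunction.vonMangoldt p ^ 2 / (p : ℝ) * (2 * a - Real.log p) ^ 2
            ≤ (2 * a) ^ 2 / (p : ℝ) * (2 * a) ^ 2 := by gcongr
          _ = _ := by ring
    _ ≤ ∑ p ∈ Finset.Icc 1 (XN a), (16 * a ^ 4) * (1 / (p : ℝ)) := by
        refine Finset.sum_le_sum_of_subset_of_nonneg ?_ fun n _ _ => by positivity
        intro p hp
        rw [Finset.mem_filter, Finset.mem_range] at hp
        rw [Finset.mem_Icc]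
        exact ⟨hp.2.one_le, by omega⟩
    _ = (16 * a ^ 4) * ∑ p ∈ Finset.Icc 1 (XN a), 1 / (p : ℝ) := by rw [Finset.mul_sum]
    _ ≤ (16 * a ^ 4) * (3 * a) := by
        gcongr
        refine (harm _).trans ?_
        have := log_XN ha
        linarith
    _ = 48 * a ^ 5 := by ring

end Pool.Agent.N967.BadN
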