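import Mathlib
import Pool.Agent.N967.BadA
import Pool.Agent.N967.Fejer

set_option autoImplicit false

/-!
# Bad intervals, part D: the sum over the primes is large near a bad height
-/

namespace Pool.Agent.N967.BadN

open Complex MeasureTheory
open Pool.Agent.Y23 (IsZ mu Lg)

/-- the scale -/
noncomputable def LL (T : ℝ) : ℝ := Real.log (4 + T)

/-- the length of the explicit formula -/
noncomputable def aa (T : ℝ) : ℝ := 2 * Real.log (LL T)

/-- the conditions that T is large of this part -/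
structure Big (η C T : ℝ) : Prop where
  one : 1 ≤ Real.log (LL T)
  sq : LL T ≤ T / 2 - 2
  lin : 11 + 2 * C ≤ 5 * η * LL T
  pw : 648 * aa T ^ 4 ≤ η / 2 * LL T
  three : 3 ≤ LL T

/-- the lower bound for the sum over the primes near a bad height -/
lemma near {C : ℝ} (hC : 0 < C)
    (hfej : ∀ t a : ℝ, 1 ≤ a → ∀ S : Finset ℂ, (∀ s ∈ S, IsZ s) →
      ∑ s ∈ S, (mu s : ℝ) * (4 * a ^ 2 * Real.sinc (a * (s.im - t)) ^ 2) ≤
        2 * a * Lg t + C * a + C * Real.exp a / (1 + t ^ 2) + 2 * ‖WW a t‖)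
    {η T : ℝ} (hη : 0 < η) (hη1 : η ≤ 1) (hB : Big η C T) {τ : ℝ}
    (h1 : T / 2 - 1 ≤ |τ|) (h2 : |τ| ≤ T + 1) (h3 : Real.exp 1 ≤ Lg τ)
    (hbad : ¬ Cnt τ ((η / 16) / Real.log (Lg τ)) ((1 / 4 + η) * Lg τ / Real.log (Lg τ)))
    {t : ℝ} (ht : |t - τ| ≤ (η / 16) / Real.log (LL T)) :
    η / 2 * (aa T * LL T) ≤ ‖W1 (aa T) t‖ := by
  obtain ⟨b1, b2, b3, b4, b5⟩ := hB
  set L := LL T with hL
  set a := aa T with ha
  have haL : a = 2 * Real.log L := rfl
  have ha2 : 2 ≤ a := by rw [haL]; linarith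
  have ha1 : 1 ≤ a := by linarith
  have hL0 : 0 < L := by linarith
  have hT0 : 0 < 4 + T := by
    have : T / 2 - 2 ≥ 3 := by linarith
    linarith
  have hl1 : 1 ≤ Real.log (Lg τ) := by
    rw [Real.le_log_iff_exp_le (by linarith [Real.exp_pos 1])]
    exact h3
  have hlg : 0 < Lg τ := by linarith [Real.exp_pos 1]
  -- comparison of `Lg τ` and `L`
  have hup : Lg τ ≤ L := by
    rw [hL]
    unfold Lg LL
    exact Real.log_le_log (by positivity) (by linarith)
  have hlo : L - 1 ≤ Lg τ := by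
    rw [hL]
    unfold Lg LL
    have h4 : Real.log ((4 + T) / 2) ≤ Real.log (3 + |τ|) := Real.log_le_log (by positivity) (by linarith)
    rw [Real.log_div (by positivity) (by norm_num)] at h4
    have h5 : Real.log 2 ≤ 1 := by
      have := Real.log_two_lt_d9
      linarith
    linarith
  have hllup : Real.log (Lg τ) ≤ Real.log L := Real.log_le_log hlg hup
  have hlllo : Real.log L ≤ 2 * Real.log (Lg τ) := by
    have h4 : L ≤ (Lg τ) ^ 2 := by nlinarith
    have h5 := Real.log_le_log hL0 h4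
    rw [Real.log_pow] at h5
    exact_mod_cast h5
  -- the zeros
  unfold Cnt at hbad
  push Not at hbad
  obtain ⟨S, hS, hsum⟩ := hbad
  have hf := hfej t a ha1 S fun s hs => (hS s hs).1
  have hs1 : ∀ s ∈ S, 1 - (η / 2) ^ 2 / 3 ≤ Real.sinc (a * (s.im - t)) ^ 2 := by
    intro s hs
    refine Pool.Agent.N967.FJ.sinc_sq_lower ?_ (by linarith)
    have h4 := (hS s hs).2
    have h5 : |s.im - t| ≤ 2 * ((η / 16) / Real.log (Lg τ)) := by
      have h6 : (η / 16) / Real.log L ≤ (η / 16) / Real.log (Lg τ) :=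
        div_le_div_of_nonneg_left (by positivity) (by linarith) hllup
      have h7 : s.im - t = (s.im - τ) - (t - τ) := by ring
      rw [h7]
      refine (abs_sub _ _).trans ?_
      linarith
    rw [abs_mul, abs_of_pos (by linarith : (0 : ℝ) < a)]
    calc a * |s.im - t| ≤ (4 * Real.log (Lg τ)) * (2 * ((η / 16) / Real.log (Lg τ))) := by
          refine mul_le_mul ?_ h5 (abs_nonneg _) (by linarith)
          rw [haL]; linarith
      _ = η / 2 := by field_simp; ring
  have hlow : a * ((2 + 7 * η) * (L - 1)) ≤ ∑ s ∈ S, (mu s : ℝ) * (4 * a ^ 2 * Real.sinc (a * (s.im - t)) ^ 2) := by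
    have h4 : (∑ s ∈ S, (mu s : ℝ)) * (4 * a ^ 2 * (1 - (η / 2) ^ 2 / 3)) ≤
        ∑ s ∈ S, (mu s : ℝ) * (4 * a ^ 2 * Real.sinc (a * (s.im - t)) ^ 2) := by
      rw [Finset.sum_mul]
      refine Finset.sum_le_sum fun s hs => ?_
      have h5 := hs1 s hs
      have h6 : (0 : ℝ) ≤ mu s := Nat.cast_nonneg _
      gcongr
    refine le_trans ?_ h4
    have h5 : (1 / 4 + η) * (L - 1) / Real.log L ≤ ∑ s ∈ S, (mu s : ℝ) := by
      refine le_trans ?_ hsum.le
      refine div_le_div₀ (by positivity) ?_ (by linarith) hllup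
      gcongr
    have h6 : 0 ≤ 4 * a ^ 2 * (1 - (η / 2) ^ 2 / 3) := by
      have : 0 ≤ 1 - (η / 2) ^ 2 / 3 := by nlinarith
      positivity
    calc a * ((2 + 7 * η) * (L - 1)) ≤ a * (((2 + 8 * η) * (1 - (η / 2) ^ 2 / 3)) * (L - 1)) := by
          refine mul_le_mul_of_nonneg_left ?_ (by linarith)
          refine mul_le_mul_of_nonneg_right ?_ (by linarith)
          have : η ^ 2 ≤ η := by nlinarith
          nlinarith
      _ = ((1 / 4 + η) * (L - 1) / Real.log L) * (4 * a ^ 2 * (1 - (η / 2) ^ 2 / 3)) := by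
          have : Real.log L = a / 2 := by rw [haL]; ring
          rw [this]
          field_simp
          ring
      _ ≤ _ := mul_le_mul_of_nonneg_right h5 h6
  -- the right side
  have ht1 : |t - τ| ≤ 1 := by
    refine ht.trans ?_
    rw [div_le_one (by linarith)]
    linarith
  have ht2 : |t| ≤ T + 2 := by
    have : |t| ≤ |t - τ| + |τ| := by
      have := abs_add_le (t - τ) τ
      simpa using this
    linarith
  have ht3 : T / 2 - 2 ≤ |t| := by
    have : |τ| ≤ |t - τ| + |t| := by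
      have := abs_add_le (τ - t) t
      rw [abs_sub_comm t τ]
      simpa using this
    linarith
  have hLt : Lg t ≤ L + 1 := by
    rw [hL]
    unfold Lg LL
    rw [← Real.log_exp 1, ← Real.log_mul (by positivity) (Real.exp_pos 1).ne']
    refine Real.log_le_log (by positivity) ?_
    have := Real.exp_one_gt_d9
    nlinarith [abs_nonneg τ]
  have hexp : C * Real.exp a / (1 + t ^ 2) ≤ C := by
    rw [div_le_iff₀ (by positivity)]
    refine mul_le_mul_of_nonneg_left ?_ hC.le
    have h4 : Real.exp a = L ^ 2 := by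
      rw [haL, mul_comm, Real.exp_mul, Real.exp_log hL0]
      exact_mod_cast rfl
    rw [h4]
    have h5 : L ^ 2 ≤ |t| ^ 2 := pow_le_pow_left₀ hL0.le (b2.trans ht3) 2
    rw [sq_abs] at h5
    linarith
  have hWW : η * (a * L) ≤ ‖WW a t‖ := by
    have h4 : 2 * a * Lg t ≤ 2 * a * (L + 1) := by gcongr
    have h5 : C ≤ C * a := by nlinarith
    have h6 : 2 * η * (a * L) ≤ a * ((2 + 7 * η) * (L - 1)) - 2 * a * (L + 1) - C * a - C * a := by
      have h7 : a * ((2 + 7 * η) * (L - 1)) - 2 * a * (L + 1) - C * a - C * a - 2 * η * (a * L) =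
        a * (5 * η * L - (7 * η + 4 + 2 * C)) := by ring
      have h8 : 0 ≤ a * (5 * η * L - (7 * η + 4 + 2 * C)) := mul_nonneg (by linarith) (by linarith)
      linarith
    linarith
  have hdec := decomp ha1 t
  have h4 : 648 * a ^ 5 ≤ η / 2 * (a * L) := by
    calc 648 * a ^ 5 = (648 * a ^ 4) * a := by ring
      _ ≤ (η / 2 * L) * a := mul_le_mul_of_nonneg_right b4 (by linarith)
      _ = _ := by ring
  linarith

end Pool.Agent.N967.BadN
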