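import Mathlib
import Pool.Agent.N967.BadD

set_option autoImplicit false

/-!
# Bad intervals, part E: the number of bad intervals and the high moments
-/

namespace Pool.Agent.N967.BadN

open Complex MeasureTheory
open Pool.Agent.Y23 (IsZ mu Lg)

lemma W1_cont (a : ℝ) : Continuous (fun t : ℝ => W1 a t) := by
  unfold W1
  refine continuous_finsetSum _ fun p hp => ?_
  rw [Finset.mem_filter] at hp
  refine continuous_const.mul ?_
  refine Continuous.const_cpow (by fun_prop) (Or.inl ?_)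
  exact_mod_cast hp.2.ne_zero

/-- unit intervals do not overlap -/
lemma unit_sum (f : ℝ → ℝ) (hf : Continuous f) (h0 : ∀ t, 0 ≤ f t) (B : Finset ℤ) (c : ℤ) (R : ℝ) (hR0 : 0 ≤ R)
    (hB : ∀ m ∈ B, -R ≤ ((m + c : ℤ) : ℝ) ∧ ((m + c : ℤ) : ℝ) + 1 ≤ R) :
    ∑ m ∈ B, ∫ t in ((m + c : ℤ) : ℝ)..(((m + c : ℤ) : ℝ) + 1), f t ≤ ∫ t in (-R)..R, f t := by
  classical
  have hR : -R ≤ R := by linarith
  have e1 : ∀ m : ℤ, ∫ t in ((m + c : ℤ) : ℝ)..(((m + c : ℤ) : ℝ) + 1), f t =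
      ∫ t in Set.Ioc ((m + c : ℤ) : ℝ) (((m + c : ℤ) : ℝ) + 1), f t := fun m =>
    intervalIntegral.integral_of_le (by linarith)
  rw [Finset.sum_congr rfl fun m _ => e1 m, intervalIntegral.integral_of_le hR]
  have hint : ∀ x y : ℝ, IntegrableOn f (Set.Ioc x y) := fun x y =>
    (hf.integrableOn_Icc).mono_set Set.Ioc_subset_Icc_self
  rw [← integral_biUnion_finset B (fun m _ => measurableSet_Ioc) ?_ (fun m _ => hint _ _)]
  · refine setIntegral_mono_set (hint _ _) (Filter.Eventually.of_forall h0) ?_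
    refine Filter.Eventually.of_forall ?_
    refine Set.iUnion₂_subset fun m hm => ?_
    obtain ⟨h1, h2⟩ := hB m hm
    exact Set.Ioc_subset_Ioc h1 h2
  · intro m _ m' _ hmm
    have h3 := Set.pairwise_disjoint_Ioc_intCast ℝ
    have h4 : m + c ≠ m' + c := fun h => hmm (by omega)
    exact h3 h4

/-- the bad intervals of a dyadic block -/
def Blk (η T : ℝ) : Set ℤ := {m : ℤ | T / 2 < |(m : ℝ)| ∧ |(m : ℝ)| ≤ T ∧ Bad (η / 16) (Real.exp 1) η m}

/-- the number of bad intervals in a dyadic block and the moments -/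
lemma count {C : ℝ} (hC : 0 < C)
    (hfej : ∀ t a : ℝ, 1 ≤ a → ∀ S : Finset ℂ, (∀ s ∈ S, IsZ s) →
      ∑ s ∈ S, (mu s : ℝ) * (4 * a ^ 2 * Real.sinc (a * (s.im - t)) ^ 2) ≤
        2 * a * Lg t + C * a + C * Real.exp a / (1 + t ^ 2) + 2 * ‖WW a t‖)
    {η T : ℝ} (hη : 0 < η) (hη1 : η ≤ 1) (hB : Big η C T) (k : ℕ) (B : Finset ℤ) (hBl : ∀ m ∈ B, m ∈ Blk η T) :
    (B.card : ℝ) * ((η / 16) / Real.log (LL T) * (η / 2 * (aa T * LL T)) ^ (2 * k)) ≤
      2 * ∫ t in (-(T + 3))..(T + 3), ‖W1 (aa T) t‖ ^ (2 * k) := by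
  classical
  have b1 := hB.one
  have b2 := hB.sq
  have b5 := hB.three
  set f : ℝ → ℝ := fun t => ‖W1 (aa T) t‖ ^ (2 * k) with hf
  have hfc : Continuous f := (W1_cont _).norm.pow _
  have hf0 : ∀ t, 0 ≤ f t := fun t => by positivity
  set r : ℝ := (η / 16) / Real.log (LL T) with hr
  have hr0 : 0 < r := by positivity
  have hr1 : r ≤ 1 := by
    rw [hr, div_le_one (by linarith)]
    linarith
  have hT : 0 ≤ T := by linarith
  have hone : ∀ m ∈ B, r * (η / 2 * (aa T * LL T)) ^ (2 * k) ≤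
      (∫ t in ((m + 0 : ℤ) : ℝ)..(((m + 0 : ℤ) : ℝ) + 1), f t) +
        ∫ t in ((m + 1 : ℤ) : ℝ)..(((m + 1 : ℤ) : ℝ) + 1), f t := by
    intro m hm
    obtain ⟨h1, h2, τ, h3, h4, h5, h6⟩ := hBl m hm
    have hτ1 : T / 2 - 1 ≤ |τ| := by
      have h7 : |(m : ℝ)| ≤ |τ| + |(m : ℝ) - τ| := by
        have := abs_add_le τ ((m : ℝ) - τ)
        simpa using this
      have h8 : |(m : ℝ) - τ| ≤ 1 := by rw [abs_le]; constructor <;> linarith
      linarith
    have hτ2 : |τ| ≤ T + 1 := by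
      have h7 : |τ| ≤ |(m : ℝ)| + |τ - m| := by
        have := abs_add_le (m : ℝ) (τ - m)
        simpa using this
      have h8 : |τ - (m : ℝ)| ≤ 1 := by rw [abs_le]; constructor <;> linarith
      linarith
    have e1 : (∫ t in ((m + 0 : ℤ) : ℝ)..(((m + 0 : ℤ) : ℝ) + 1), f t) +
        ∫ t in ((m + 1 : ℤ) : ℝ)..(((m + 1 : ℤ) : ℝ) + 1), f t = ∫ t in (m : ℝ)..(m + 2), f t := by
      have h7 := intervalIntegral.integral_add_adjacent_intervals (hfc.intervalIntegrable (μ := volume) (m : ℝ) (m + 1))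
        (hfc.intervalIntegrable (μ := volume) ((m : ℝ) + 1) (m + 2))
      rw [← h7]
      push_cast
      congr 2
      · simp
      · simp
      · ring
    rw [e1]
    calc r * (η / 2 * (aa T * LL T)) ^ (2 * k) = ∫ t in τ..(τ + r), (η / 2 * (aa T * LL T)) ^ (2 * k) := by
          rw [intervalIntegral.integral_const]
          simp
      _ ≤ ∫ t in τ..(τ + r), f t := by
          refine intervalIntegral.integral_mono_on (by linarith) (by simp) (hfc.intervalIntegrable _ _) ?_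
          intro t ht
          have h7 := near hC hfej hη hη1 hB hτ1 hτ2 h5 h6 (t := t) (by
            rw [abs_le]
            constructor <;> linarith [ht.1, ht.2])
          have haa : 0 ≤ aa T := by unfold aa; linarith
          have hLL : 0 ≤ LL T := by linarith
          exact pow_le_pow_left₀ (by positivity) h7 _
      _ ≤ ∫ t in (m : ℝ)..(m + 2), f t :=
          intervalIntegral.integral_mono_interval h3 (by linarith) (by linarith)
            (Filter.Eventually.of_forall hf0) (hfc.intervalIntegrable _ _)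
  calc (B.card : ℝ) * (r * (η / 2 * (aa T * LL T)) ^ (2 * k)) = ∑ m ∈ B, r * (η / 2 * (aa T * LL T)) ^ (2 * k) := by
        rw [Finset.sum_const, nsmul_eq_mul]
    _ ≤ ∑ m ∈ B, ((∫ t in ((m + 0 : ℤ) : ℝ)..(((m + 0 : ℤ) : ℝ) + 1), f t) +
        ∫ t in ((m + 1 : ℤ) : ℝ)..(((m + 1 : ℤ) : ℝ) + 1), f t) := Finset.sum_le_sum hone
    _ = (∑ m ∈ B, ∫ t in ((m + 0 : ℤ) : ℝ)..(((m + 0 : ℤ) : ℝ) + 1), f t) +
        ∑ m ∈ B, ∫ t in ((m + 1 : ℤ) : ℝ)..(((m + 1 : ℤ) : ℝ) + 1), f t := Finset.sum_add_distrib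
    _ ≤ (∫ t in (-(T + 3))..(T + 3), f t) + ∫ t in (-(T + 3))..(T + 3), f t := by
        refine add_le_add (unit_sum f hfc hf0 B 0 _ (by linarith) fun m hm => ?_)
          (unit_sum f hfc hf0 B 1 _ (by linarith) fun m hm => ?_)
        · have h2 := (hBl m hm).2.1
          rw [abs_le] at h2
          push_cast
          constructor <;> linarith [h2.1, h2.2]
        · have h2 := (hBl m hm).2.1
          rw [abs_le] at h2
          push_cast
          constructor <;> linarith [h2.1, h2.2]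
    _ = _ := by ring

/-- the bound for the moments -/
lemma mom_bound {C2 : ℝ} (hC2 : 0 < C2)
    (hmom : ∀ (X k : ℕ) (c : ℕ → ℝ) (T : ℝ), 1 ≤ T → (X : ℝ) ^ k ≤ T →
      ∫ t in (-T)..T, ‖∑ p ∈ (Finset.range (X + 1)).filter Nat.Prime, ((c p : ℝ) : ℂ) * (p : ℂ) ^ (-(t : ℂ) * I)‖ ^ (2 * k) ≤
        C2 * T * k.factorial * (∑ p ∈ (Finset.range (X + 1)).filter Nat.Prime, c p ^ 2) ^ k)
    {T : ℝ} (hT : 1 ≤ T) (ha : 1 ≤ aa T) (k : ℕ) (hk : (k : ℝ) ≤ Real.log T / (2 * aa T)) :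
    ∫ t in (-(T + 3))..(T + 3), ‖W1 (aa T) t‖ ^ (2 * k) ≤
      C2 * (2 * T + 3) * ((k : ℝ) * (48 * aa T ^ 5)) ^ k := by
  have hX : ((XN (aa T) : ℕ) : ℝ) ^ k ≤ T + 3 := by
    have h1 : ((XN (aa T) : ℕ) : ℝ) ≤ Real.exp (2 * aa T) := Nat.floor_le (Real.exp_pos _).le
    calc ((XN (aa T) : ℕ) : ℝ) ^ k ≤ (Real.exp (2 * aa T)) ^ k := pow_le_pow_left₀ (Nat.cast_nonneg _) h1 _
      _ = Real.exp (k * (2 * aa T)) := by rw [← Real.exp_nat_mul]
      _ ≤ Real.exp (Real.log T) := by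
          refine Real.exp_le_exp.mpr ?_
          rwa [le_div_iff₀ (by linarith)] at hk
      _ = T := Real.exp_log (by linarith)
      _ ≤ T + 3 := by linarith
  have h2 := hmom (XN (aa T)) k (cf (aa T)) (T + 3) (by linarith) hX
  refine h2.trans ?_
  have h3 := coef_sq ha
  have h4 : 0 ≤ ∑ p ∈ (Finset.range (XN (aa T) + 1)).filter Nat.Prime, cf (aa T) p ^ 2 :=
    Finset.sum_nonneg fun i _ => sq_nonneg _
  have h5 : (k.factorial : ℝ) ≤ (k : ℝ) ^ k := by exact_mod_cast Nat.factorial_le_pow k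
  calc C2 * (T + 3) * k.factorial * (∑ p ∈ (Finset.range (XN (aa T) + 1)).filter Nat.Prime, cf (aa T) p ^ 2) ^ k
      ≤ C2 * (2 * T + 3) * (k : ℝ) ^ k * (48 * aa T ^ 5) ^ k := by
        gcongr
        linarith
    _ = _ := by rw [mul_pow]; ring

end Pool.Agent.N967.BadN
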