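import Mathlib
import Pool.Agent.N967.BadE

set_option autoImplicit false

/-!
# Bad intervals, part F: the number of bad intervals in a dyadic block
-/

namespace Pool.Agent.N967.BadN

open Complex MeasureTheory Filter
open Pool.Agent.Y23 (IsZ mu Lg)

/-- further conditions that T is large -/
structure Big2 (η C2 T : ℝ) : Prop where
  kap : Real.log (96 * aa T ^ 2 / η ^ 2) ≤ η * Real.log (LL T)
  pol : 96 * C2 / η * LL T ^ 2 ≤ T ^ (3 * η / 4)

lemma tend_LL : Tendsto LL atTop atTop := by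
  unfold LL
  exact Real.tendsto_log_atTop.comp (tendsto_atTop_add_const_left _ _ tendsto_id)

lemma tend_log_LL : Tendsto (fun T => Real.log (LL T)) atTop atTop :=
  Real.tendsto_log_atTop.comp tend_LL

lemma ev_big {η C C2 : ℝ} (hη : 0 < η) (hC2 : 0 < C2) :
    ∀ᶠ T in atTop, Big η C T ∧ Big2 η C2 T := by
  have e1 := tend_log_LL.eventually_ge_atTop 1
  have e2 : ∀ᶠ T in atTop, LL T ≤ T / 2 - 2 := by
    have h1 : Tendsto (fun T : ℝ => 4 + T) atTop atTop := tendsto_atTop_add_const_left _ _ tendsto_id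
    have h2 := (Real.isLittleO_log_id_atTop.comp_tendsto h1).bound (c := 1 / 4) (by norm_num)
    filter_upwards [h2, eventually_ge_atTop (12 : ℝ)] with T h3 h4
    simp only [Function.comp_apply, id, Real.norm_eq_abs] at h3
    rw [abs_of_pos (by linarith : (0 : ℝ) < 4 + T)] at h3
    unfold LL
    linarith [le_abs_self (Real.log (4 + T))]
  have e3 : ∀ᶠ T in atTop, 11 + 2 * C ≤ 5 * η * LL T := by
    have := (tend_LL.const_mul_atTop (by positivity : 0 < 5 * η)).eventually_ge_atTop (11 + 2 * C)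
    exact this
  have e4 : ∀ᶠ T in atTop, 648 * aa T ^ 4 ≤ η / 2 * LL T := by
    have h2 := ((Real.isLittleO_pow_log_id_atTop (n := 4)).comp_tendsto tend_LL).bound
      (c := η / 2 / (648 * 16)) (by positivity)
    filter_upwards [h2, tend_LL.eventually_ge_atTop 3] with T h3 h4
    simp only [Function.comp_apply, id, Real.norm_eq_abs] at h3
    rw [abs_of_nonneg (by positivity : (0 : ℝ) ≤ Real.log (LL T) ^ 4), abs_of_pos (by linarith : 0 < LL T)] at h3
    unfold aa
    calc 648 * (2 * Real.log (LL T)) ^ 4 = (648 * 16) * Real.log (LL T) ^ 4 := by ring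
      _ ≤ (648 * 16) * (η / 2 / (648 * 16) * LL T) := by gcongr
      _ = _ := by ring
  have e5 := tend_LL.eventually_ge_atTop 3
  have e6 : ∀ᶠ T in atTop, Real.log (96 * aa T ^ 2 / η ^ 2) ≤ η * Real.log (LL T) := by
    have h1 := (Real.isLittleO_log_id_atTop.comp_tendsto tend_log_LL).bound (c := η / 4) (by positivity)
    have h2 := (tend_log_LL.const_mul_atTop (by positivity : 0 < η / 2)).eventually_ge_atTop (Real.log (384 / η ^ 2))
    filter_upwards [h1, h2, e1] with T h3 h4 h5
    simp only [Function.comp_apply, id, Real.norm_eq_abs] at h3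
    rw [abs_of_pos (by linarith : 0 < Real.log (LL T))] at h3
    unfold aa
    have h6 : 96 * (2 * Real.log (LL T)) ^ 2 / η ^ 2 = (384 / η ^ 2) * (Real.log (LL T)) ^ 2 := by ring
    rw [h6, Real.log_mul (by positivity) (by positivity), Real.log_pow]
    push_cast
    linarith [le_abs_self (Real.log (Real.log (LL T)))]
  have e7 : ∀ᶠ T in atTop, 96 * C2 / η * LL T ^ 2 ≤ T ^ (3 * η / 4) := by
    have h1 := (isLittleO_log_rpow_rpow_atTop (s := 3 * η / 4) 2 (by positivity)).bound
      (c := 1 / (96 * C2 / η * 4)) (by positivity)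
    filter_upwards [h1, eventually_ge_atTop (4 : ℝ)] with T h3 h4
    have hl : 0 ≤ Real.log T := Real.log_nonneg (by linarith)
    have h5 : LL T ≤ 2 * Real.log T := by
      unfold LL
      have h6 : (2 : ℝ) * Real.log T = Real.log (T ^ 2) := by
        rw [Real.log_pow]; norm_num
      rw [h6]
      exact Real.log_le_log (by linarith) (by nlinarith)
    have h7 : 0 ≤ LL T := by
      unfold LL
      exact Real.log_nonneg (by linarith)
    rw [Real.norm_eq_abs, Real.norm_eq_abs, abs_of_nonneg (by positivity), abs_of_nonneg (by positivity)] at h3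
    have h8 : Real.log T ^ (2 : ℝ) = Real.log T ^ 2 := by exact_mod_cast Real.rpow_natCast (Real.log T) 2
    rw [h8] at h3
    calc 96 * C2 / η * LL T ^ 2 ≤ 96 * C2 / η * (2 * Real.log T) ^ 2 := by gcongr
      _ = (96 * C2 / η * 4) * Real.log T ^ 2 := by ring
      _ ≤ (96 * C2 / η * 4) * (1 / (96 * C2 / η * 4) * T ^ (3 * η / 4)) := by gcongr
      _ = T ^ (3 * η / 4) := by field_simp
  filter_upwards [e1, e2, e3, e4, e5, e6, e7] with T h1 h2 h3 h4 h5 h6 h7
  exact ⟨⟨h1, h2, h3, h4, h5⟩, ⟨h6, h7⟩⟩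

/-- the number of bad intervals in a dyadic block -/
lemma block {C C2 : ℝ} (hC : 0 < C) (hC2 : 0 < C2)
    (hfej : ∀ t a : ℝ, 1 ≤ a → ∀ S : Finset ℂ, (∀ s ∈ S, IsZ s) →
      ∑ s ∈ S, (mu s : ℝ) * (4 * a ^ 2 * Real.sinc (a * (s.im - t)) ^ 2) ≤
        2 * a * Lg t + C * a + C * Real.exp a / (1 + t ^ 2) + 2 * ‖WW a t‖)
    (hmom : ∀ (X k : ℕ) (c : ℕ → ℝ) (T : ℝ), 1 ≤ T → (X : ℝ) ^ k ≤ T →
      ∫ t in (-T)..T, ‖∑ p ∈ (Finset.range (X + 1)).filter Nat.Prime, ((c p : ℝ) : ℂ) * (p : ℂ) ^ (-(t : ℂ) * I)‖ ^ (2 * k) ≤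
        C2 * T * k.factorial * (∑ p ∈ (Finset.range (X + 1)).filter Nat.Prime, c p ^ 2) ^ k)
    {η T : ℝ} (hη : 0 < η) (hη1 : η ≤ 1) (hB : Big η C T) (hB2 : Big2 η C2 T)
    (B : Finset ℤ) (hBl : ∀ m ∈ B, m ∈ Blk η T) : (B.card : ℝ) ≤ T ^ (3 / 4 + η) := by
  have b1 := hB.one
  have b2 := hB.sq
  have b5 := hB.three
  obtain ⟨c1, c2⟩ := hB2
  set L := LL T with hL
  set a := aa T with ha
  set l := Real.log L with hl
  have hal : a = 2 * l := rfl
  have hT : 10 ≤ T := by linarith
  have hT0 : 0 < T := by linarith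
  set x := Real.log T with hx
  have hx0 : 0 ≤ x := Real.log_nonneg (by linarith)
  have hxL : x ≤ L := Real.log_le_log hT0 (by linarith)
  have hL0 : 0 < L := by linarith
  have hl0 : 0 < l := by linarith
  have ha0 : 0 < a := by linarith
  set k := ⌊x / (2 * a)⌋₊ with hk
  have hk1 : (k : ℝ) ≤ x / (2 * a) := Nat.floor_le (by positivity)
  have hk2 : x / (2 * a) - 1 ≤ k := by
    have := Nat.lt_floor_add_one (x / (2 * a))
    linarith
  have h1 := count hC hfej hη hη1 hB k B hBl
  have h2 := mom_bound hC2 hmom (T := T) (by linarith) (by linarith) k hk1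
  have h3 : (B.card : ℝ) * ((η / 16) / l * (η / 2 * (a * L)) ^ (2 * k)) ≤
      2 * (C2 * (2 * T + 3) * ((k : ℝ) * (48 * a ^ 5)) ^ k) := h1.trans (by linarith)
  set ρ : ℝ := 96 * a ^ 2 / η ^ 2 / L with hρ
  have hρ0 : 0 < ρ := by positivity
  -- compare with the power of `ρ`
  have h4 : ((k : ℝ) * (48 * a ^ 5)) ^ k ≤ ρ ^ k * (η / 2 * (a * L)) ^ (2 * k) := by
    rw [pow_mul, ← mul_pow]
    refine pow_le_pow_left₀ (by positivity) ?_ k
    calc (k : ℝ) * (48 * a ^ 5) ≤ (L / (2 * a)) * (48 * a ^ 5) := by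
          refine mul_le_mul_of_nonneg_right ?_ (by positivity)
          exact hk1.trans (by gcongr)
      _ = ρ * (η / 2 * (a * L)) ^ 2 := by
          rw [hρ]
          field_simp
          ring
  have h5 : (B.card : ℝ) ≤ 2 * (C2 * (2 * T + 3)) * (16 * l / η) * ρ ^ k := by
    have hpos : 0 < (η / 16) / l * (η / 2 * (a * L)) ^ (2 * k) := by positivity
    rw [← mul_le_mul_iff_left₀ hpos]
    refine h3.trans ?_
    calc 2 * (C2 * (2 * T + 3) * ((k : ℝ) * (48 * a ^ 5)) ^ k)
        ≤ 2 * (C2 * (2 * T + 3) * (ρ ^ k * (η / 2 * (a * L)) ^ (2 * k))) := by gcongr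
      _ = _ := by
          field_simp
  have h6 : ρ ^ k ≤ L * T ^ (η / 4 - 1 / 4) := by
    have h7 : Real.log ρ = Real.log (96 * a ^ 2 / η ^ 2) - l := by
      rw [hρ, Real.log_div (by positivity) (by positivity)]
    have h8 : Real.log ρ ≤ 0 := by
      rw [h7]
      have : η * l ≤ 1 * l := by gcongr
      linarith
    have h9 : 0 ≤ Real.log (96 * a ^ 2 / η ^ 2) := by
      refine Real.log_nonneg ?_
      rw [one_le_div (by positivity)]
      have : 2 ≤ a := by linarith
      nlinarith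
    calc ρ ^ k = Real.exp (k * Real.log ρ) := by
          rw [Real.exp_nat_mul, Real.exp_log hρ0]
      _ ≤ Real.exp (l + x * (η / 4 - 1 / 4)) := by
          refine Real.exp_le_exp.mpr ?_
          calc (k : ℝ) * Real.log ρ ≤ (x / (2 * a) - 1) * Real.log ρ := mul_le_mul_of_nonpos_right hk2 h8
            _ = x / (4 * l) * Real.log (96 * a ^ 2 / η ^ 2) - x / 4 - Real.log (96 * a ^ 2 / η ^ 2) + l := by
                rw [h7, hal]
                field_simp
                ring
            _ ≤ x / (4 * l) * (η * l) - x / 4 - 0 + l := by gcongr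
            _ = _ := by
                field_simp
                ring
      _ = L * T ^ (η / 4 - 1 / 4) := by
          rw [Real.exp_add, hl, Real.exp_log hL0, Real.rpow_def_of_pos hT0]
  calc (B.card : ℝ) ≤ 2 * (C2 * (2 * T + 3)) * (16 * l / η) * ρ ^ k := h5
    _ ≤ 2 * (C2 * (3 * T)) * (16 * L / η) * (L * T ^ (η / 4 - 1 / 4)) := by
        have hlL : l ≤ L := by
          rw [hl]
          exact (Real.log_le_sub_one_of_pos hL0).trans (by linarith)
        gcongr
        linarith
    _ = (96 * C2 / η * L ^ 2) * (T * T ^ (η / 4 - 1 / 4)) := by ring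
    _ ≤ T ^ (3 * η / 4) * (T * T ^ (η / 4 - 1 / 4)) := by
        refine mul_le_mul_of_nonneg_right c2 (by positivity)
    _ = T ^ (3 / 4 + η) := by
        nth_rewrite 2 [← Real.rpow_one T]
        rw [← Real.rpow_add hT0, ← Real.rpow_add hT0]
        congr 1
        ring

end Pool.Agent.N967.BadN
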