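import Mathlib
import Pool.Agent.N967.BadF

set_option autoImplicit false

/-!
# The number of bad unit intervals (project BD2, part BD2/B)

Under the Riemann hypothesis the unit intervals with `|m| ≤ T` which contain a height `τ` such that more than
`(1/4 + η) log τ / log log τ` zeros are within `θ / log log τ` of it are at most `C T ^ (3/4 + η)` in number: by
the explicit formula the sum over the primes up to `(log T)^4` is large on an interval of length `θ / log log T`
near such a height, and its high moments are small.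
-/

namespace Pool.Agent.N967

open Complex MeasureTheory Filter
open Pool.Agent.Y23 (IsZ mu Lg)

namespace BadN

/-- the bad intervals up to `T` -/
def All (η T : ℝ) : Set ℤ := {m : ℤ | |(m : ℝ)| ≤ T ∧ Bad (η / 16) (Real.exp 1) η m}

lemma fin_abs (T : ℝ) : {m : ℤ | |(m : ℝ)| ≤ T}.Finite := by
  refine (Set.finite_Icc (⌊-T⌋) ⌈T⌉).subset fun m hm => ?_
  simp only [Set.mem_ofPred_eq] at hm
  rw [abs_le] at hm
  rw [Set.mem_Icc]
  constructor
  · have h1 := Int.floor_le (-T)
    exact_mod_cast (show ((⌊-T⌋ : ℤ) : ℝ) ≤ m by linarith [hm.1])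
  · have h1 := Int.le_ceil T
    exact_mod_cast (show (m : ℝ) ≤ ((⌈T⌉ : ℤ) : ℝ) by linarith [hm.2])

lemma ncard_abs (T : ℝ) (hT : 0 ≤ T) : (({m : ℤ | |(m : ℝ)| ≤ T}).ncard : ℝ) ≤ 2 * T + 1 := by
  have hsub : {m : ℤ | |(m : ℝ)| ≤ T} ⊆ (Finset.Icc (-⌊T⌋) ⌊T⌋ : Finset ℤ) := by
    intro m hm
    simp only [Set.mem_ofPred_eq] at hm
    rw [abs_le] at hm
    rw [Finset.mem_coe, Finset.mem_Icc]
    have h1 : m ≤ ⌊T⌋ := Int.le_floor.mpr hm.2
    have h2 : -m ≤ ⌊T⌋ := Int.le_floor.mpr (by push_cast; linarith [hm.1])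
    exact ⟨by linarith, h1⟩
  have h1 := Set.ncard_le_ncard hsub (Finset.finite_toSet _)
  rw [Set.ncard_coe_finset, Int.card_Icc] at h1
  have h2 : 0 ≤ ⌊T⌋ := Int.floor_nonneg.mpr hT
  have h3 : ((⌊T⌋ + 1 - -⌊T⌋).toNat : ℝ) = 2 * (⌊T⌋ : ℝ) + 1 := by
    have : ((⌊T⌋ + 1 - -⌊T⌋).toNat : ℤ) = 2 * ⌊T⌋ + 1 := by
      rw [Int.toNat_of_nonneg (by linarith)]
      ring
    exact_mod_cast this
  have h4 : (({m : ℤ | |(m : ℝ)| ≤ T}).ncard : ℝ) ≤ ((⌊T⌋ + 1 - -⌊T⌋).toNat : ℝ) := by exact_mod_cast h1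
  rw [h3] at h4
  have h5 := Int.floor_le T
  linarith

lemma ncard_all (η T : ℝ) (hT : 0 ≤ T) : ((All η T).ncard : ℝ) ≤ 2 * T + 1 := by
  refine le_trans ?_ (ncard_abs T hT)
  have h : All η T ⊆ {m : ℤ | |(m : ℝ)| ≤ T} := fun m hm => hm.1
  exact_mod_cast Set.ncard_le_ncard h (fin_abs T)

/-- the sum over the dyadic blocks -/
lemma total {η T1 : ℝ} (hη : 0 < η) (hT1 : 1 ≤ T1)
    (hblk : ∀ T : ℝ, T1 ≤ T → ∀ B : Finset ℤ, (∀ m ∈ B, m ∈ Blk η T) → (B.card : ℝ) ≤ T ^ (3 / 4 + η)) :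
    ∀ n : ℕ, ∀ T : ℝ, 1 ≤ T → T ≤ 2 ^ n * T1 → ((All η T).ncard : ℝ) ≤ (3 * T1 + 3) * T ^ (3 / 4 + η) := by
  intro n
  induction n with
  | zero =>
    intro T hT hT2
    rw [pow_zero, one_mul] at hT2
    have h1 := ncard_all η T (by linarith)
    have h2 : 1 ≤ T ^ (3 / 4 + η) := Real.one_le_rpow hT (by positivity)
    calc ((All η T).ncard : ℝ) ≤ 2 * T + 1 := h1
      _ ≤ (3 * T1 + 3) * 1 := by linarith
      _ ≤ _ := by gcongr
  | succ n ih =>
    intro T hT hT2
    rcases le_or_gt T (2 ^ n * T1) with h | h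
    · exact ih T hT h
    · have hp : (1 : ℝ) ≤ 2 ^ n := one_le_pow₀ (by norm_num)
      have hTT : T1 ≤ T := by nlinarith
      rcases lt_or_ge T 2 with h2 | h2
      · -- small
        have h1 := ncard_all η T (by linarith)
        have h3 : 1 ≤ T ^ (3 / 4 + η) := Real.one_le_rpow hT (by positivity)
        calc ((All η T).ncard : ℝ) ≤ 2 * T + 1 := h1
          _ ≤ (3 * T1 + 3) * 1 := by linarith
          _ ≤ _ := by gcongr
      · have hih := ih (T / 2) (by linarith) (by
          rw [pow_succ] at hT2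
          linarith)
        have hBf : (Blk η T).Finite := (fin_abs T).subset fun m hm => hm.2.1
        have hb := hblk T hTT hBf.toFinset fun m hm => hBf.mem_toFinset.mp hm
        have hsub : All η T ⊆ All η (T / 2) ∪ Blk η T := by
          intro m hm
          rcases le_or_gt |(m : ℝ)| (T / 2) with h3 | h3
          · exact Or.inl ⟨h3, hm.2⟩
          · exact Or.inr ⟨h3, hm.1, hm.2⟩
        have hAf : (All η (T / 2)).Finite := (fin_abs _).subset fun m hm => hm.1
        have h4 : (All η T).ncard ≤ (All η (T / 2)).ncard + (Blk η T).ncard :=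
          (Set.ncard_le_ncard hsub (hAf.union hBf)).trans (Set.ncard_union_le _ _)
        have h5 : ((Blk η T).ncard : ℝ) ≤ T ^ (3 / 4 + η) := by
          rw [Set.ncard_eq_toFinset_card _ hBf]
          exact hb
        have h6 : ((All η T).ncard : ℝ) ≤ (All η (T / 2)).ncard + (Blk η T).ncard := by exact_mod_cast h4
        have h7 : (T / 2) ^ (3 / 4 + η) ≤ (2 / 3) * T ^ (3 / 4 + η) := by
          rw [Real.div_rpow (by linarith) (by norm_num), div_le_iff₀ (by positivity)]
          have h8 : (3 / 2 : ℝ) ≤ 2 ^ (3 / 4 + η) := by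
            calc (3 / 2 : ℝ) ≤ 2 ^ (3 / 4 : ℝ) := by
                  have h9 : ((3 / 2 : ℝ) ^ (4 : ℝ)) ^ (1 / 4 : ℝ) ≤ ((2 : ℝ) ^ (3 : ℝ)) ^ (1 / 4 : ℝ) := by
                    refine Real.rpow_le_rpow (by positivity) ?_ (by norm_num)
                    norm_num
                  rw [← Real.rpow_mul (by norm_num), ← Real.rpow_mul (by norm_num)] at h9
                  norm_num at h9
                  norm_num
                  exact h9
              _ ≤ _ := Real.rpow_le_rpow_of_exponent_le (by norm_num) (by linarith)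
          have h9 : 0 ≤ T ^ (3 / 4 + η) := by positivity
          nlinarith
        have h8 : 0 ≤ T ^ (3 / 4 + η) := by positivity
        calc ((All η T).ncard : ℝ) ≤ (3 * T1 + 3) * ((2 / 3) * T ^ (3 / 4 + η)) + T ^ (3 / 4 + η) := by
              refine h6.trans (add_le_add (hih.trans ?_) h5)
              gcongr
          _ ≤ (3 * T1 + 3) * T ^ (3 / 4 + η) := by nlinarith

end BadN

/-- **The number of bad unit intervals.** -/
theorem bad (h1 : S_fej2) (h2 : S_mom) : S_bad := by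
  intro hR η hη hη1
  obtain ⟨C, hC, hfej⟩ := h1 hR
  obtain ⟨C2, hC2, hmom⟩ := h2
  obtain ⟨T1, hT1⟩ := (BadN.ev_big (C := C) hη hC2).exists_forall_of_atTop
  set T2 := max T1 1 with hT2
  refine ⟨η / 16, 3 * T2 + 3, Real.exp 1, by positivity, by linarith, ?_, le_refl _, ?_⟩
  · have : 1 ≤ T2 := le_max_right _ _
    linarith
  · intro T hT
    have hblk : ∀ T : ℝ, T2 ≤ T → ∀ B : Finset ℤ, (∀ m ∈ B, m ∈ BadN.Blk η T) → (B.card : ℝ) ≤ T ^ (3 / 4 + η) := by
      intro T hT B hB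
      obtain ⟨h3, h4⟩ := hT1 T ((le_max_left _ _).trans hT)
      exact BadN.block hC hC2 hfej hmom hη hη1 h3 h4 B hB
    have hT20 : 0 < T2 := lt_of_lt_of_le one_pos (le_max_right _ _)
    obtain ⟨n, hn⟩ := pow_unbounded_of_one_lt (T / T2) (by norm_num : (1 : ℝ) < 2)
    rw [div_lt_iff₀ hT20] at hn
    exact BadN.total hη (le_max_right _ _) hblk n T hT hn.le

end Pool.Agent.N967
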