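import Mathlib
import Pool.Agent.N967.Stm2

set_option autoImplicit false

/-!
# The mean square of `1 - F` over a unit block (task BD2/Q, by helper768)
-/

namespace Pool.Agent.N967

open Complex MeasureTheory
open Pool.Agent.H295R2 (fz)
open Pool.Agent.Y23 (IsZ mu Lg)

namespace BK

open Set

lemma Lg_shift (t v : ℝ) : Lg (t + v) ≤ Lg t + Real.log (1 + |v|) := by
  unfold Lg
  rw [← Real.log_mul (by positivity) (by positivity)]
  refine Real.log_le_log (by positivity) ?_
  have := abs_add_le t v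
  nlinarith [abs_nonneg t, abs_nonneg v, mul_nonneg (abs_nonneg t) (abs_nonneg v)]

lemma Lg_near {t m : ℝ} (h : |t - m| ≤ 2) : Lg t ≤ Lg m + 2 := by
  have h1 := Lg_shift m (t - m)
  rw [add_sub_cancel] at h1
  have h2 : Real.log (1 + |t - m|) ≤ |t - m| := by
    have := Real.log_le_sub_one_of_pos (show 0 < 1 + |t - m| by positivity)
    linarith
  linarith

/-- the zeros near the integer `m` -/
lemma near_set : ∃ C : ℝ, 0 < C ∧ ∀ m : ℝ, ∃ Z : Finset ℂ, (∀ s, s ∈ Z ↔ IsZ s ∧ |s.im - m| ≤ 2) ∧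
    (Z.card : ℝ) ≤ C * Lg m := by
  classical
  obtain ⟨C, hC, h⟩ := Pool.Agent.Y23.cnt
  refine ⟨6 * C, by positivity, fun m => ?_⟩
  have hfin : {s : ℂ | IsZ s ∧ |s.im - m| ≤ 2}.Finite := by
    refine (Pool.Agent.Y23.isZ_finite (|m| + 2)).subset ?_
    rintro s ⟨hs1, hs2⟩
    refine ⟨hs1, ?_⟩
    have := abs_sub_abs_le_abs_sub s.im m
    linarith
  refine ⟨hfin.toFinset, fun s => by rw [Set.Finite.mem_toFinset]; rfl, ?_⟩
  set Z := hfin.toFinset with hZ
  have hmem : ∀ s ∈ Z, IsZ s ∧ |s.im - m| ≤ 2 := by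
    intro s hs
    rw [hZ, Set.Finite.mem_toFinset] at hs
    exact hs
  have key : ∀ c : ℝ, |c - m| ≤ 2 → ((Z.filter fun s => |s.im - c| ≤ 1).card : ℝ) ≤ C * (Lg m + 2) := by
    intro c hc
    have h1 := h c (Z.filter fun s => |s.im - c| ≤ 1) (by
      intro s hs
      rw [Finset.mem_filter] at hs
      exact ⟨(hmem s hs.1).1, hs.2⟩)
    have h2 : ((Z.filter fun s => |s.im - c| ≤ 1).card : ℝ) ≤
        ((∑ s ∈ Z.filter fun s => |s.im - c| ≤ 1, mu s : ℕ) : ℝ) := by
      have h3 : (Z.filter fun s => |s.im - c| ≤ 1).card ≤ ∑ s ∈ Z.filter fun s => |s.im - c| ≤ 1, mu s := by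
        rw [Finset.card_eq_sum_ones]
        apply Finset.sum_le_sum
        intro s hs
        rw [Finset.mem_filter] at hs
        exact Pool.Agent.Y23.mu_pos (hmem s hs.1).1
      exact_mod_cast h3
    have h4 := Lg_near hc
    have h5 : C * Lg c ≤ C * (Lg m + 2) := mul_le_mul_of_nonneg_left h4 hC.le
    linarith
  have hsub : Z ⊆ (Z.filter fun s => |s.im - (m - 1)| ≤ 1) ∪ (Z.filter fun s => |s.im - (m + 1)| ≤ 1) := by
    intro s hs
    rw [Finset.mem_union, Finset.mem_filter, Finset.mem_filter]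
    have h1 := (hmem s hs).2
    rw [abs_le] at h1
    rcases le_total s.im m with h2 | h2
    · left
      refine ⟨hs, ?_⟩
      rw [abs_le]
      constructor <;> linarith
    · right
      refine ⟨hs, ?_⟩
      rw [abs_le]
      constructor <;> linarith
  have h1 := (Finset.card_le_card hsub).trans (Finset.card_union_le _ _)
  have h2 : (Z.card : ℝ) ≤ ((Z.filter fun s => |s.im - (m - 1)| ≤ 1).card : ℝ) +
      ((Z.filter fun s => |s.im - (m + 1)| ≤ 1).card : ℝ) := by exact_mod_cast h1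
  have h3 := key (m - 1) (by rw [show m - 1 - m = -1 by ring]; norm_num)
  have h4 := key (m + 1) (by rw [show m + 1 - m = 1 by ring]; norm_num)
  have h5 := mul_le_mul_of_nonneg_left (Pool.Agent.Y23.one_le_Lg m) hC.le
  linarith

/-- a bound for the number of zeros in all short intervals -/
lemma cnt_all {θ C T0 : ℝ} (hθ : 0 < θ) (hθ1 : θ ≤ 1) (hC : 0 < C) (hT0 : Real.exp 1 ≤ T0)
    (hS : Slope θ C T0) {η : ℝ} (hη : 0 < η) :
    ∃ C' : ℝ, 0 ≤ C' ∧ ∀ τ : ℝ, ∃ M : ℝ, 0 ≤ M ∧ Cnt τ (rad θ T0 τ) M ∧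
      M * Real.log 2 ≤ η * Lg τ + C' := by
  obtain ⟨C0, hC0, hcnt⟩ := Pool.Agent.Y23.cnt
  have hT0' : 0 < T0 := (Real.exp_pos 1).trans_le hT0
  have hl2 : 0 < Real.log 2 := Real.log_pos (by norm_num)
  have hl2' : Real.log 2 ≤ 1 := by
    have := Real.log_two_lt_d9
    linarith
  set A : ℝ := C * θ * Real.log 2 with hA
  have hA0 : 0 < A := by positivity
  refine ⟨A * Real.exp (A / η) + C0 * T0, by positivity, fun τ => ?_⟩
  by_cases h : T0 ≤ Lg τ
  · have hX : Real.exp 1 ≤ Lg τ := hT0.trans h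
    have hl : 1 ≤ Real.log (Lg τ) := by
      rw [Real.le_log_iff_exp_le (by linarith [Pool.Agent.Y23.one_le_Lg τ])]
      exact hX
    have hX0 : 0 < Lg τ := by linarith [Pool.Agent.Y23.one_le_Lg τ]
    refine ⟨C * (θ / Real.log (Lg τ)) * Lg τ, by positivity, ?_, ?_⟩
    · rw [rad, if_pos h]
      refine hS τ h _ le_rfl ?_
      rw [div_le_one (by linarith)]
      linarith
    · have e : C * (θ / Real.log (Lg τ)) * Lg τ * Real.log 2 = A * Lg τ / Real.log (Lg τ) := by
        rw [hA]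
        field_simp
      rw [e, div_le_iff₀ (by linarith)]
      have h0 : 0 ≤ C0 * T0 := by positivity
      rcases le_or_gt (A / η) (Real.log (Lg τ)) with h1 | h1
      · rw [div_le_iff₀ hη] at h1
        have h2 : 0 ≤ A * Real.exp (A / η) := by positivity
        nlinarith
      · have h2 : Lg τ < Real.exp (A / η) := by
          rwa [← Real.log_lt_iff_lt_exp hX0]
        have h3 : A * Lg τ ≤ A * Real.exp (A / η) := mul_le_mul_of_nonneg_left h2.le hA0.le
        have h4 : 0 ≤ η * Lg τ := by positivity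
        have h5 : (η * Lg τ + (A * Real.exp (A / η) + C0 * T0)) * 1 ≤
            (η * Lg τ + (A * Real.exp (A / η) + C0 * T0)) * Real.log (Lg τ) :=
          mul_le_mul_of_nonneg_left hl (by positivity)
        linarith
  · refine ⟨C0 * T0, by positivity, ?_, ?_⟩
    · rw [rad, if_neg h]
      intro S hS'
      have h1 := hcnt τ S hS'
      push_cast at h1
      have h2 : C0 * Lg τ ≤ C0 * T0 := mul_le_mul_of_nonneg_left (not_le.mp h).le hC0.le
      linarith
    · have h1 : C0 * T0 * Real.log 2 ≤ C0 * T0 * 1 := mul_le_mul_of_nonneg_left hl2' (by positivity)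
      have h2 : 0 ≤ η * Lg τ := by
        have := Pool.Agent.Y23.one_le_Lg τ
        positivity
      have h3 : 0 ≤ A * Real.exp (A / η) := by positivity
      linarith

/-- the distance to the nearest zero, with a bound for its inverse square -/
lemma exists_d (Z : Finset ℂ) (t e r : ℝ) (he : 0 < e) (hr : 0 < r) (hre : 4 * r ≤ e)
    (hZ : ∀ s ∈ Z, 4 * r < |t - s.im|) :
    ∃ d : ℝ, 0 < d ∧ d ≤ e ∧ 4 * r ≤ d ∧ (∀ s ∈ Z, d ≤ |t - s.im|) ∧
      1 / d ^ 2 ≤ 1 / e ^ 2 + ∑ s ∈ Z, 1 / (t - s.im) ^ 2 := by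
  classical
  rcases Z.eq_empty_or_nonempty with h | h
  · subst h
    exact ⟨e, he, le_rfl, hre, by simp, by simp⟩
  · obtain ⟨s0, hs0, hmin⟩ := Z.exists_min_image (fun s => |t - s.im|) h
    have hpos : 0 < |t - s0.im| := by linarith [hZ s0 hs0]
    have hnn : 0 ≤ ∑ s ∈ Z, 1 / (t - s.im) ^ 2 := Finset.sum_nonneg fun s _ => by positivity
    have hle : 1 / (t - s0.im) ^ 2 ≤ ∑ s ∈ Z, 1 / (t - s.im) ^ 2 :=
      Finset.single_le_sum (f := fun s : ℂ => 1 / (t - s.im) ^ 2) (fun s _ => by positivity) hs0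
    rcases le_total e (|t - s0.im|) with h1 | h1
    · refine ⟨e, he, le_rfl, hre, fun s hs => h1.trans (hmin s hs), by linarith⟩
    · refine ⟨|t - s0.im|, hpos, h1, (hZ s0 hs0).le, fun s hs => hmin s hs, ?_⟩
      rw [sq_abs]
      have : 0 ≤ 1 / e ^ 2 := by positivity
      linarith

lemma one_sub_sq (z : ℂ) : ‖1 - z‖ ^ 2 ≤ 2 + 2 * ‖z‖ ^ 2 := by
  have h1 : ‖1 - z‖ ≤ 1 + ‖z‖ := by
    have := norm_sub_le (1 : ℂ) z
    rwa [norm_one] at this
  have h2 : ‖1 - z‖ ^ 2 ≤ (1 + ‖z‖) ^ 2 := pow_le_pow_left₀ (norm_nonneg _) h1 2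
  nlinarith [sq_nonneg (1 - ‖z‖)]

lemma enlarge {a c E X : ℝ} (hc : 0 ≤ c) (hE : 0 ≤ E) (hX : 0 ≤ X) : a * E * X ≤ (a + c) * E * X := by
  have h := mul_nonneg (mul_nonneg hc hE) hX
  have e : (a + c) * E * X = a * E * X + c * E * X := by ring
  rw [e]
  linarith

/-- the pointwise bound -/
lemma pointwise {e' K' η θ T0 C' : ℝ} (he' : 0 < e') (he4 : e' ≤ 1 / 4) (hK' : 0 < K')
    (hη : 0 < η) (hη1 : η ≤ 1) (_hC' : 0 ≤ C')
    (near : ∀ x v τ β M : ℝ, |x| ≤ e' → |v| ≤ e' → 0 < β →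
      (∀ s : ℂ, IsZ s → |s.im - τ| ≤ 1 → β ^ 2 ≤ x ^ 2 + (τ - s.im) ^ 2) → Cnt τ (rad θ T0 τ) M →
      ‖riemannZeta (1 / 2 + ((τ + v : ℝ) : ℂ) * I)‖ * ‖fz (1 / 2 + x + τ * I)‖ ≤
        K' * Real.exp (η * Lg τ + M * Real.log (1 + |v| / β)))
    (hcnt : ∀ τ : ℝ, ∃ M : ℝ, 0 ≤ M ∧ Cnt τ (rad θ T0 τ) M ∧ M * Real.log 2 ≤ η * Lg τ + C') :
    ∃ K2 : ℝ, 0 < K2 ∧ ∀ (b v M t m : ℝ) (Z : Finset ℂ), (∀ s, s ∈ Z ↔ IsZ s ∧ |s.im - m| ≤ 2) →
      0 < b → b ≤ e' / 16 → |v| ≤ e' / 16 → m ≤ t + v → t + v ≤ m + 1 →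
      Cnt (t + v) (rad θ T0 (t + v)) M →
      ‖1 - Fr b v t‖ ^ 2 ≤ K2 * Real.exp (6 * η * Lg m + 2 * M * Real.log (1 + |v| / b)) *
        ((b + |v|) ^ 2 + ∑ s ∈ Z, (b + |v|) ^ 2 / ((b + |v|) ^ 2 + (t - s.im) ^ 2)) := by
  classical
  set K3 : ℝ := 2 + K' * Real.exp (4 + C') with hK3
  have hK30 : 0 < K3 := by positivity
  refine ⟨17 * (2 + 2 * K' ^ 2 * Real.exp 4) + 16 * K3 ^ 2 / e' ^ 2, by positivity, ?_⟩
  intro b v M t m Z hZ hb hbe hve hm1 hm2 hM
  set r : ℝ := b + |v| with hr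
  have hv0 : 0 ≤ |v| := abs_nonneg v
  have hr0 : 0 < r := by linarith
  have hr8 : 4 * r ≤ e' / 2 := by linarith
  have hM0 : 0 ≤ M := by
    have := hM ∅ (by simp)
    simpa using this
  have hL1 := Pool.Agent.Y23.one_le_Lg m
  have hlog : 0 ≤ Real.log (1 + |v| / b) := Real.log_nonneg (by
    have : 0 ≤ |v| / b := by positivity
    linarith)
  have hvle : |v| ≤ 1 / 64 := by linarith
  have htm : |t - m| ≤ 5 / 4 := by
    rw [abs_le] at hvle ⊢
    constructor <;> linarith
  have hE1 : 1 ≤ Real.exp (6 * η * Lg m + 2 * M * Real.log (1 + |v| / b)) := by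
    apply Real.one_le_exp
    positivity
  set S : ℝ := ∑ s ∈ Z, r ^ 2 / (r ^ 2 + (t - s.im) ^ 2) with hS
  have hS0 : 0 ≤ S := Finset.sum_nonneg fun s _ => by positivity
  set E : ℝ := Real.exp (6 * η * Lg m + 2 * M * Real.log (1 + |v| / b)) with hE
  by_cases hcase : ∃ s ∈ Z, |t - s.im| ≤ 4 * r
  · -- Case 1
    obtain ⟨s, hsZ, hs⟩ := hcase
    have hF : ‖Fr b v t‖ ≤ K' * Real.exp (η * Lg (t + v) + M * Real.log (1 + |v| / b)) := by
      have h1 := near b (-v) (t + v) b M (by rw [abs_of_pos hb]; linarith) (by rw [abs_neg]; linarith)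
        hb (fun s _ _ => le_add_of_nonneg_right (sq_nonneg _)) hM
      rw [abs_neg, show t + v + -v = t by ring] at h1
      rw [Fr, norm_mul]
      exact h1
    have hLg : Lg (t + v) ≤ Lg m + 2 := by
      apply Lg_near
      rw [abs_le]
      constructor <;> linarith
    have hF2 : ‖Fr b v t‖ ^ 2 ≤ K' ^ 2 * Real.exp 4 * E := by
      have h1 : ‖Fr b v t‖ ^ 2 ≤ (K' * Real.exp (η * Lg (t + v) + M * Real.log (1 + |v| / b))) ^ 2 :=
        pow_le_pow_left₀ (norm_nonneg _) hF 2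
      refine h1.trans ?_
      rw [mul_pow, ← Real.exp_nat_mul, mul_assoc, hE, ← Real.exp_add]
      refine mul_le_mul_of_nonneg_left ?_ (by positivity)
      rw [Real.exp_le_exp]
      push_cast
      have h2 : η * Lg (t + v) ≤ η * (Lg m + 2) := mul_le_mul_of_nonneg_left hLg hη.le
      have h3 : 0 ≤ η * Lg m := by positivity
      linarith
    have h1F : ‖1 - Fr b v t‖ ^ 2 ≤ 2 + 2 * ‖Fr b v t‖ ^ 2 := one_sub_sq _
    have hSge : 1 / 17 ≤ S := by
      have h1 : r ^ 2 / (r ^ 2 + (t - s.im) ^ 2) ≤ S :=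
        Finset.single_le_sum (f := fun s : ℂ => r ^ 2 / (r ^ 2 + (t - s.im) ^ 2))
          (fun s _ => by positivity) hsZ
      refine le_trans ?_ h1
      have h2 : (t - s.im) ^ 2 ≤ (4 * r) ^ 2 := by
        rw [← sq_abs (t - s.im)]
        exact pow_le_pow_left₀ (abs_nonneg _) hs 2
      have h3 : (4 * r) ^ 2 = 16 * r ^ 2 := by ring
      rw [div_le_div_iff₀ (by norm_num) (by positivity)]
      linarith
    have hD : 0 ≤ 2 + 2 * K' ^ 2 * Real.exp 4 := by positivity
    have h17 : 1 ≤ 17 * (r ^ 2 + S) := by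
      have := sq_nonneg r
      linarith
    calc ‖1 - Fr b v t‖ ^ 2 ≤ 2 + 2 * ‖Fr b v t‖ ^ 2 := h1F
      _ ≤ 2 * E + 2 * (K' ^ 2 * Real.exp 4 * E) := by linarith
      _ = (2 + 2 * K' ^ 2 * Real.exp 4) * E * 1 := by ring
      _ ≤ (2 + 2 * K' ^ 2 * Real.exp 4) * E * (17 * (r ^ 2 + S)) :=
          mul_le_mul_of_nonneg_left h17 (by positivity)
      _ = (17 * (2 + 2 * K' ^ 2 * Real.exp 4)) * E * (r ^ 2 + S) := by ring
      _ ≤ (17 * (2 + 2 * K' ^ 2 * Real.exp 4) + 16 * K3 ^ 2 / e' ^ 2) * E * (r ^ 2 + S) := by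
          exact enlarge (by positivity) (by positivity) (by positivity)
  · -- Case 2
    push Not at hcase
    obtain ⟨d, hd0, hde, hrd, hdZ, hdinv⟩ := exists_d Z t (e' / 2) r (by positivity) hr0 hr8 hcase
    have hfar : ∀ s : ℂ, IsZ s → d ≤ |t - s.im| := by
      intro s hs
      by_cases hsZ : s ∈ Z
      · exact hdZ s hsZ
      · have h1 : 2 < |s.im - m| := by
          by_contra h
          exact hsZ ((hZ s).mpr ⟨hs, not_lt.mp h⟩)
        have h2 : |s.im - m| ≤ |t - s.im| + |t - m| := by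
          have := abs_sub_le s.im t m
          rwa [abs_sub_comm s.im t] at this
        linarith
    set s0 : ℂ := 1 / 2 + t * I with hs0
    have hs0re : s0.re = 1 / 2 := by simp [hs0]
    have hs0im : s0.im = t := by simp [hs0]
    set f : ℂ → ℂ := fun z => 1 - riemannZeta s0 * fz (s0 + z) with hf
    have hZs : ∀ z : ℂ, ‖z‖ < d → Pool.Agent.H295R2.Zs (s0 + z) ≠ 0 := by
      intro z hz h0
      have hre := (Complex.abs_re_le_norm z).trans_lt hz
      have him := (Complex.abs_im_le_norm z).trans_lt hz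
      rw [abs_lt] at hre
      have hre1 : (s0 + z).re = 1 / 2 + z.re := by rw [Complex.add_re, hs0re]
      have him1 : (s0 + z).im = t + z.im := by rw [Complex.add_im, hs0im]
      have hne : s0 + z ≠ 1 := by
        intro h1
        have := congrArg Complex.re h1
        rw [hre1] at this
        simp only [Complex.one_re] at this
        linarith
      rw [← Pool.Agent.H295R2.Zs_eq hne, mul_eq_zero] at h0
      rcases h0 with h0 | h0
      · exact hne (sub_eq_zero.mp h0)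
      · have h1 := hfar (s0 + z) ⟨h0, by rw [hre1]; linarith, by rw [hre1]; linarith⟩
        rw [him1, show t - (t + z.im) = -z.im by ring, abs_neg] at h1
        linarith
    have hfd : DifferentiableOn ℂ f (Metric.ball 0 (d / 2)) := by
      intro z hz
      rw [mem_ball_zero_iff] at hz
      have h1 : DifferentiableAt ℂ fz (s0 + z) :=
        Pool.Agent.H295R2.fz_differentiableAt (hZs z (by linarith))
      have h2 : DifferentiableAt ℂ (fun z => fz (s0 + z)) z :=
        h1.comp z ((differentiableAt_const s0).add differentiableAt_id)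
      exact ((differentiableAt_const (1 : ℂ)).sub (h2.const_mul _)).differentiableWithinAt
    have hne1 : s0 ≠ 1 := by
      intro h
      have := congrArg Complex.re h
      rw [hs0re] at this
      norm_num at this
    have hzeta : riemannZeta s0 ≠ 0 := by
      intro h
      have h1 := hfar s0 ⟨h, by rw [hs0re]; norm_num, by rw [hs0re]; norm_num⟩
      rw [hs0im, sub_self, abs_zero] at h1
      linarith
    have hf0 : f 0 = 0 := by
      rw [hf]
      simp only [add_zero]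
      rw [Pool.Agent.H295R2.fz_eq hne1, mul_inv_cancel₀ hzeta, sub_self]
    set B : ℝ := K3 * Real.exp (2 * η * Lg m) with hB
    have hexp1 : 1 ≤ Real.exp (2 * η * Lg m) := Real.one_le_exp (by positivity)
    have hbound : ∀ z : ℂ, ‖z‖ < d / 2 → ‖f z‖ ≤ B := by
      intro z hz
      have hre := (Complex.abs_re_le_norm z).trans_lt hz
      have him := (Complex.abs_im_le_norm z).trans_lt hz
      obtain ⟨M', hM'0, hM'1, hM'2⟩ := hcnt (t + z.im)
      have h1 := near z.re (-z.im) (t + z.im) (d / 2) M' (by linarith) (by rw [abs_neg]; linarith)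
        (by positivity) (by
          intro s hs _
          have h2 := hfar s hs
          have h3 : |t - s.im| ≤ |t + z.im - s.im| + |z.im| := by
            have := abs_sub (t + z.im - s.im) z.im
            rwa [show t + z.im - s.im - z.im = t - s.im by ring] at this
          have h4 : d / 2 ≤ |t + z.im - s.im| := by linarith
          have h5 : (d / 2) ^ 2 ≤ (t + z.im - s.im) ^ 2 := by
            rw [← sq_abs (t + z.im - s.im)]
            exact pow_le_pow_left₀ (by positivity) h4 2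
          exact h5.trans (le_add_of_nonneg_left (sq_nonneg _))) hM'1
      rw [abs_neg, show t + z.im + -z.im = t by ring] at h1
      have e1 : (1 / 2 + (z.re : ℂ) + ((t + z.im : ℝ) : ℂ) * I) = s0 + z := by
        rw [hs0]
        apply Complex.ext <;> simp
      rw [e1] at h1
      have h2 : M' * Real.log (1 + |z.im| / (d / 2)) ≤ η * Lg (t + z.im) + C' := by
        refine le_trans ?_ hM'2
        refine mul_le_mul_of_nonneg_left ?_ hM'0
        apply Real.log_le_log (by positivity)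
        have : |z.im| / (d / 2) ≤ 1 := by
          rw [div_le_one (by positivity)]
          exact him.le
        linarith
      have h3 : Lg (t + z.im) ≤ Lg m + 2 := by
        apply Lg_near
        have h4 : |t + z.im - m| ≤ |t - m| + |z.im| := by
          have := abs_add_le (t - m) z.im
          rwa [show t - m + z.im = t + z.im - m by ring] at this
        linarith
      have h5 : Real.exp (η * Lg (t + z.im) + M' * Real.log (1 + |z.im| / (d / 2))) ≤
          Real.exp (4 + C') * Real.exp (2 * η * Lg m) := by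
        rw [← Real.exp_add, Real.exp_le_exp]
        have h6 : η * Lg (t + z.im) ≤ η * (Lg m + 2) := mul_le_mul_of_nonneg_left h3 hη.le
        linarith
      have h7 : ‖f z‖ ≤ 1 + ‖riemannZeta s0‖ * ‖fz (s0 + z)‖ := by
        rw [hf, ← norm_mul]
        have := norm_sub_le (1 : ℂ) (riemannZeta s0 * fz (s0 + z))
        rwa [norm_one] at this
      have h8 : K' * Real.exp (η * Lg (t + z.im) + M' * Real.log (1 + |z.im| / (d / 2))) ≤
          K' * (Real.exp (4 + C') * Real.exp (2 * η * Lg m)) := mul_le_mul_of_nonneg_left h5 hK'.le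
      have h9 : (2 + K' * Real.exp (4 + C')) * Real.exp (2 * η * Lg m) =
          2 * Real.exp (2 * η * Lg m) + K' * (Real.exp (4 + C') * Real.exp (2 * η * Lg m)) := by ring
      rw [hB, hK3, h9]
      linarith
    have hw : ‖((b : ℂ) + (v : ℂ) * I)‖ ≤ r := by
      refine (norm_add_le _ _).trans ?_
      rw [norm_mul, Complex.norm_I, mul_one, Complex.norm_real, Complex.norm_real, Real.norm_eq_abs,
        Real.norm_eq_abs, abs_of_pos hb]
    have hwb : ((b : ℂ) + (v : ℂ) * I) ∈ Metric.ball (0 : ℂ) (d / 2) := by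
      rw [mem_ball_zero_iff]
      linarith
    have hsch := Complex.dist_le_div_mul_dist_of_mapsTo_ball (f := f) (R₁ := d / 2) (R₂ := B) hfd (by
      intro z hz
      rw [mem_ball_zero_iff] at hz
      rw [hf0, mem_closedBall_zero_iff]
      exact hbound z hz) hwb
    rw [hf0, dist_zero_right, dist_zero_right] at hsch
    have hfw : f ((b : ℂ) + (v : ℂ) * I) = 1 - Fr b v t := by
      rw [hf, Fr]
      simp only
      congr 3
      rw [hs0]
      push_cast
      ring
    rw [hfw] at hsch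
    have hB0 : 0 < B := by positivity
    have h1 : ‖1 - Fr b v t‖ ≤ 2 * B * r / d := by
      refine hsch.trans ?_
      have : B / (d / 2) * ‖((b : ℂ) + (v : ℂ) * I)‖ ≤ B / (d / 2) * r :=
        mul_le_mul_of_nonneg_left hw (by positivity)
      refine this.trans (le_of_eq ?_)
      field_simp
    have h2 : ‖1 - Fr b v t‖ ^ 2 ≤ 4 * B ^ 2 * (r ^ 2 * (1 / d ^ 2)) := by
      refine (pow_le_pow_left₀ (norm_nonneg _) h1 2).trans (le_of_eq ?_)
      field_simp
      ring
    have h3 : r ^ 2 * (1 / d ^ 2) ≤ 4 / e' ^ 2 * (r ^ 2 + S) := by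
      have h4 : ∑ s ∈ Z, 1 / (t - s.im) ^ 2 ≤ ∑ s ∈ Z, 2 / (r ^ 2 + (t - s.im) ^ 2) := by
        apply Finset.sum_le_sum
        intro s hs
        have h5 := hcase s hs
        have h6 : r ^ 2 ≤ (t - s.im) ^ 2 := by
          rw [← sq_abs (t - s.im)]
          exact pow_le_pow_left₀ hr0.le (by linarith) 2
        have h7 : 0 < (t - s.im) ^ 2 := lt_of_lt_of_le (by positivity) h6
        rw [div_le_div_iff₀ h7 (by positivity)]
        linarith
      have h5 : r ^ 2 * ∑ s ∈ Z, 2 / (r ^ 2 + (t - s.im) ^ 2) = 2 * S := by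
        rw [hS, Finset.mul_sum, Finset.mul_sum]
        apply Finset.sum_congr rfl
        intro s _
        ring
      have h6 : (2 : ℝ) ≤ 4 / e' ^ 2 := by
        rw [le_div_iff₀ (by positivity)]
        have h7 : e' ^ 2 ≤ (1 / 4) ^ 2 := pow_le_pow_left₀ he'.le he4 2
        norm_num at h7
        linarith
      calc r ^ 2 * (1 / d ^ 2) ≤ r ^ 2 * (1 / (e' / 2) ^ 2 + ∑ s ∈ Z, 2 / (r ^ 2 + (t - s.im) ^ 2)) :=
            mul_le_mul_of_nonneg_left (hdinv.trans (by linarith)) (by positivity)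
        _ = r ^ 2 * (4 / e' ^ 2) + r ^ 2 * ∑ s ∈ Z, 2 / (r ^ 2 + (t - s.im) ^ 2) := by
            rw [mul_add]
            congr 2
            field_simp
            ring
        _ = 4 / e' ^ 2 * r ^ 2 + 2 * S := by rw [h5]; ring
        _ ≤ 4 / e' ^ 2 * r ^ 2 + 4 / e' ^ 2 * S := by
            have := mul_le_mul_of_nonneg_right h6 hS0
            linarith
        _ = _ := by ring
    have hBE : B ^ 2 ≤ K3 ^ 2 * E := by
      rw [hB, mul_pow, ← Real.exp_nat_mul, hE]
      refine mul_le_mul_of_nonneg_left ?_ (by positivity)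
      rw [Real.exp_le_exp]
      push_cast
      have h4 : 0 ≤ η * Lg m := by positivity
      have h5 : 0 ≤ M * Real.log (1 + |v| / b) := by positivity
      linarith
    calc ‖1 - Fr b v t‖ ^ 2 ≤ 4 * B ^ 2 * (r ^ 2 * (1 / d ^ 2)) := h2
      _ ≤ 4 * B ^ 2 * (4 / e' ^ 2 * (r ^ 2 + S)) := mul_le_mul_of_nonneg_left h3 (by positivity)
      _ ≤ 4 * (K3 ^ 2 * E) * (4 / e' ^ 2 * (r ^ 2 + S)) := by
          refine mul_le_mul_of_nonneg_right ?_ (by positivity)
          linarith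
      _ = (16 * K3 ^ 2 / e' ^ 2) * E * (r ^ 2 + S) := by ring
      _ ≤ (17 * (2 + 2 * K' ^ 2 * Real.exp 4) + 16 * K3 ^ 2 / e' ^ 2) * E * (r ^ 2 + S) := by
          rw [add_comm (17 * (2 + 2 * K' ^ 2 * Real.exp 4))]
          exact enlarge (by positivity) (by positivity) (by positivity)

lemma integral_cauchy {x : ℝ} (hx : 0 < x) : ∫ y : ℝ, x ^ 2 / (x ^ 2 + y ^ 2) = x * Real.pi := by
  have h1 : ∀ y : ℝ, x ^ 2 / (x ^ 2 + y ^ 2) = (fun u : ℝ => (1 + u ^ 2)⁻¹) (y / x) := by
    intro y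
    have : x ^ 2 + y ^ 2 ≠ 0 := by positivity
    have h2 : 1 + (y / x) ^ 2 = (x ^ 2 + y ^ 2) / x ^ 2 := by
      field_simp
    simp only [h2]
    field_simp
  simp_rw [h1]
  rw [Measure.integral_comp_div (fun u : ℝ => (1 + u ^ 2)⁻¹) x, integral_univ_inv_one_add_sq, smul_eq_mul,
    abs_of_pos hx]

lemma integrable_cauchy {x : ℝ} (hx : 0 < x) : Integrable (fun y : ℝ => x ^ 2 / (x ^ 2 + y ^ 2)) := by
  have h1 : ∀ y : ℝ, x ^ 2 / (x ^ 2 + y ^ 2) = (fun u : ℝ => (1 + u ^ 2)⁻¹) (y / x) := by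
    intro y
    have : x ^ 2 + y ^ 2 ≠ 0 := by positivity
    have h2 : 1 + (y / x) ^ 2 = (x ^ 2 + y ^ 2) / x ^ 2 := by
      field_simp
    simp only [h2]
    field_simp
  simp_rw [h1]
  exact integrable_inv_one_add_sq.comp_div hx.ne'

/-- the integral of the majorant over an interval of length `1` -/
lemma int_major {r a : ℝ} (hr : 0 < r) (Z : Finset ℂ) :
    IntervalIntegrable (fun t : ℝ => r ^ 2 + ∑ s ∈ Z, r ^ 2 / (r ^ 2 + (t - s.im) ^ 2)) volume a (a + 1) ∧
    ∫ t in a..(a + 1), (r ^ 2 + ∑ s ∈ Z, r ^ 2 / (r ^ 2 + (t - s.im) ^ 2)) ≤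
      r ^ 2 + Z.card * (r * Real.pi) := by
  have hint : ∀ s : ℂ, Integrable (fun t : ℝ => r ^ 2 / (r ^ 2 + (t - s.im) ^ 2)) := fun s =>
    (integrable_cauchy hr).comp_sub_right s.im
  have hsum : Integrable (fun t : ℝ => ∑ s ∈ Z, r ^ 2 / (r ^ 2 + (t - s.im) ^ 2)) :=
    integrable_finsetSum Z fun s _ => hint s
  refine ⟨intervalIntegrable_const.add hsum.intervalIntegrable, ?_⟩
  rw [intervalIntegral.integral_add intervalIntegrable_const hsum.intervalIntegrable,
    intervalIntegral.integral_const]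
  have h1 : ∫ t in a..(a + 1), ∑ s ∈ Z, r ^ 2 / (r ^ 2 + (t - s.im) ^ 2) ≤
      ∫ t : ℝ, ∑ s ∈ Z, r ^ 2 / (r ^ 2 + (t - s.im) ^ 2) := by
    rw [intervalIntegral.integral_of_le (by linarith)]
    exact setIntegral_le_integral hsum (Filter.Eventually.of_forall fun t =>
      Finset.sum_nonneg fun s _ => by positivity)
  have h2 : ∫ t : ℝ, ∑ s ∈ Z, r ^ 2 / (r ^ 2 + (t - s.im) ^ 2) = Z.card * (r * Real.pi) := by
    rw [integral_finsetSum Z fun s _ => hint s]
    have : ∀ s ∈ Z, ∫ t : ℝ, r ^ 2 / (r ^ 2 + (t - s.im) ^ 2) = r * Real.pi := by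
      intro s _
      rw [integral_sub_right_eq_self (fun t : ℝ => r ^ 2 / (r ^ 2 + t ^ 2)) s.im]
      exact integral_cauchy hr
    rw [Finset.sum_congr rfl this, Finset.sum_const, nsmul_eq_mul]
  rw [h2] at h1
  have h3 : (a + 1 - a) • r ^ 2 = r ^ 2 := by
    rw [show a + 1 - a = 1 by ring, one_smul]
  rw [h3]
  linarith

end BK

theorem blk (h : S_pt) (_hm : S_mono) : S_blk := by
  intro RH η θ C T0 hη hη1 hθ hθ1 hC hT0 hS
  obtain ⟨e', K', he', he4, hK', near, -⟩ := h RH η θ C T0 hη hη1 hθ hθ1 hC hT0 hS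
  obtain ⟨C', hC', hcnt⟩ := BK.cnt_all hθ hθ1 hC hT0 hS hη
  obtain ⟨K2, hK2, hpt⟩ := BK.pointwise he' he4 hK' hη hη1 hC' near hcnt
  obtain ⟨C2, hC2, hset⟩ := BK.near_set
  refine ⟨e' / 16, K2 * (1 + 4 * C2 / η), by positivity, by linarith, by positivity, ?_⟩
  intro b v M m hb hbe hve hM
  obtain ⟨Z, hZ, hcard⟩ := hset m
  set r : ℝ := b + |v| with hr
  have hv0 : 0 ≤ |v| := abs_nonneg v
  have hr0 : 0 < r := by linarith
  have hr1 : r ≤ 1 := by linarith
  set A : ℝ := K2 * Real.exp (6 * η * Lg m + 2 * M * Real.log (1 + |v| / b)) with hA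
  have hA0 : 0 < A := by positivity
  obtain ⟨hi, hle⟩ := BK.int_major (a := (m : ℝ) - v) hr0 Z
  have e1 : (m : ℝ) + 1 - v = (m : ℝ) - v + 1 := by ring
  rw [e1]
  have hL1 := Pool.Agent.Y23.one_le_Lg (m : ℝ)
  have hRHS : A * (r ^ 2 + Z.card * (r * Real.pi)) ≤
      K2 * (1 + 4 * C2 / η) * r * Real.exp (8 * η * Lg m + 2 * M * Real.log (1 + |v| / b)) := by
    have h1 : r ^ 2 + Z.card * (r * Real.pi) ≤ r * ((1 + 4 * C2 / η) * Real.exp (2 * η * Lg m)) := by
      have h2 : (Z.card : ℝ) * Real.pi ≤ C2 * Lg m * 4 :=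
        mul_le_mul hcard Real.pi_le_four Real.pi_pos.le (by positivity)
      have h3 : Lg m ≤ Real.exp (2 * η * Lg m) / η := by
        rw [le_div_iff₀ hη]
        have := Real.add_one_le_exp (2 * η * Lg m)
        have h0 : 0 ≤ η * Lg m := by positivity
        linarith
      have h4 : 1 ≤ Real.exp (2 * η * Lg m) := Real.one_le_exp (by positivity)
      have h5 : C2 * Lg m * 4 ≤ C2 * (Real.exp (2 * η * Lg m) / η) * 4 := by
        gcongr
      have h6 : r + Z.card * Real.pi ≤ (1 + 4 * C2 / η) * Real.exp (2 * η * Lg m) := by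
        have e2 : (1 + 4 * C2 / η) * Real.exp (2 * η * Lg m) =
            Real.exp (2 * η * Lg m) + C2 * (Real.exp (2 * η * Lg m) / η) * 4 := by ring
        rw [e2]
        linarith
      have e3 : r ^ 2 + Z.card * (r * Real.pi) = r * (r + Z.card * Real.pi) := by ring
      rw [e3]
      exact mul_le_mul_of_nonneg_left h6 hr0.le
    calc A * (r ^ 2 + Z.card * (r * Real.pi)) ≤ A * (r * ((1 + 4 * C2 / η) * Real.exp (2 * η * Lg m))) :=
          mul_le_mul_of_nonneg_left h1 hA0.le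
      _ = K2 * (1 + 4 * C2 / η) * r *
          (Real.exp (6 * η * Lg m + 2 * M * Real.log (1 + |v| / b)) * Real.exp (2 * η * Lg m)) := by
          rw [hA]; ring
      _ = _ := by
          rw [← Real.exp_add]
          congr 2
          ring
  refine le_trans ?_ hRHS
  by_cases hint : IntervalIntegrable (fun t : ℝ => ‖1 - Fr b v t‖ ^ 2) volume ((m : ℝ) - v) ((m : ℝ) - v + 1)
  · calc ∫ t in ((m : ℝ) - v)..((m : ℝ) - v + 1), ‖1 - Fr b v t‖ ^ 2
        ≤ ∫ t in ((m : ℝ) - v)..((m : ℝ) - v + 1),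
          A * (r ^ 2 + ∑ s ∈ Z, r ^ 2 / (r ^ 2 + (t - s.im) ^ 2)) := by
          refine intervalIntegral.integral_mono_on (by linarith) hint (hi.const_mul A) ?_
          intro t ht
          have h1 : (m : ℝ) ≤ t + v := by linarith [ht.1]
          have h2 : t + v ≤ m + 1 := by linarith [ht.2]
          exact hpt b v M t m Z hZ hb hbe hve h1 h2 (hM (t + v) h1 h2)
      _ = A * ∫ t in ((m : ℝ) - v)..((m : ℝ) - v + 1),
          (r ^ 2 + ∑ s ∈ Z, r ^ 2 / (r ^ 2 + (t - s.im) ^ 2)) := by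
          rw [intervalIntegral.integral_const_mul]
      _ ≤ _ := mul_le_mul_of_nonneg_left hle hA0.le
  · rw [intervalIntegral.integral_undef hint]
    positivity

end Pool.Agent.N967
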