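import Mathlib
import Pool.Agent.N967.Stm2
import Pool.Agent.N967.Ratio

set_option autoImplicit false

/-!
# All that is used about the zeros in short intervals
-/

namespace Pool.Agent.N967

open Pool.Agent.Y23 (IsZ mu Lg)

lemma Cnt.mono {t r r' M M' : ℝ} (h : Cnt t r M) (hr : r' ≤ r) (hM : M ≤ M') : Cnt t r' M' := fun S hS =>
  (h S (fun s hs => ⟨(hS s hs).1, (hS s hs).2.trans hr⟩)).trans hM

lemma Bad.mono {θ θ' T0 T0' η : ℝ} {m : ℤ} (h : Bad θ' T0' η m) (hθ : θ' ≤ θ) (hT : T0 ≤ T0') :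
    Bad θ T0 η m := by
  obtain ⟨τ, h1, h2, h3, h4⟩ := h
  refine ⟨τ, h1, h2, hT.trans h3, fun h5 => h4 (h5.mono ?_ le_rfl)⟩
  exact div_le_div_of_nonneg_right hθ (log_Lg_pos τ).le

lemma bad_fin (θ T0 η T : ℝ) : {m : ℤ | |(m : ℝ)| ≤ T ∧ Bad θ T0 η m}.Finite := by
  refine (Set.finite_Icc (-⌈T⌉) ⌈T⌉).subset ?_
  rintro m ⟨h1, -⟩
  rw [abs_le] at h1
  have h2 := Int.le_ceil T
  rw [Set.mem_Icc]
  constructor
  · have : (-(⌈T⌉ : ℝ)) ≤ m := by linarith
    exact_mod_cast this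
  · have : (m : ℝ) ≤ ⌈T⌉ := by linarith
    exact_mod_cast this

theorem cnt2 (h1 : S_cnt) (h2 : S_bad) : S_cnt2 := by
  intro hRH η hη hη1
  obtain ⟨θ1, C1, T1, hθ1, hθ11, hC1, hT1, k1⟩ := h1 hRH η hη hη1
  obtain ⟨θ2, C2, T2, hθ2, hθ21, hC2, hT2, k2⟩ := h2 hRH η hη hη1
  set θ := min θ1 θ2 with hθ
  have hθ0 : 0 < θ := lt_min hθ1 hθ2
  refine ⟨θ, max (C1 * θ1 / θ) C2, max T1 T2, hθ0, (min_le_left _ _).trans hθ11, lt_max_of_lt_right hC2,
    hT1.trans (le_max_left _ _), ?_, ?_, ?_⟩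
  · intro t ht r hr hr1 S hS
    have ht1 : T1 ≤ Lg t := (le_max_left _ _).trans ht
    have hl := log_Lg_pos t
    have hL := one_lt_Lg t
    have hr0 : 0 < r := lt_of_lt_of_le (by positivity) hr
    have hCC : C1 ≤ C1 * θ1 / θ := by
      rw [le_div_iff₀ hθ0]
      exact mul_le_mul_of_nonneg_left (min_le_left _ _) hC1.le
    rcases le_or_gt (θ1 / Real.log (Lg t)) r with h | h
    · refine ((k1 t ht1 r S hS).2 h hr1).trans ?_
      gcongr
      exact hCC.trans (le_max_left _ _)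
    · have h5 := (k1 t ht1 (θ1 / Real.log (Lg t)) S (fun s hs => ⟨(hS s hs).1, (hS s hs).2.trans h.le⟩)).2 le_rfl (by
        rw [div_le_one hl]
        have : 1 ≤ Real.log (Lg t) := by
          rw [Real.le_log_iff_exp_le (by linarith)]
          exact hT1.trans ht1
        linarith)
      refine h5.trans ?_
      have h6 : C1 * (θ1 / Real.log (Lg t)) ≤ max (C1 * θ1 / θ) C2 * r := by
        calc C1 * (θ1 / Real.log (Lg t)) = C1 * θ1 / θ * (θ / Real.log (Lg t)) := by field_simp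
          _ ≤ C1 * θ1 / θ * r := by gcongr
          _ ≤ _ := mul_le_mul_of_nonneg_right (le_max_left _ _) hr0.le
      exact mul_le_mul_of_nonneg_right h6 (by linarith)
  · intro t ht
    have ht1 : T1 ≤ Lg t := (le_max_left _ _).trans ht
    have hl := log_Lg_pos t
    intro S hS
    exact (k1 t ht1 _ S hS).1 (div_le_div_of_nonneg_right (min_le_left _ _) hl.le)
  · intro T hT
    refine le_trans ?_ ((k2 T hT).trans ?_)
    · have h5 : {m : ℤ | |(m : ℝ)| ≤ T ∧ Bad θ (max T1 T2) η m} ⊆ {m : ℤ | |(m : ℝ)| ≤ T ∧ Bad θ2 T2 η m} :=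
        fun m hm => ⟨hm.1, hm.2.mono (min_le_right _ _) (le_max_right _ _)⟩
      exact_mod_cast Set.ncard_le_ncard h5 (bad_fin _ _ _ _)
    · exact mul_le_mul_of_nonneg_right (le_max_right _ _) (by positivity)

end Pool.Agent.N967
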