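import Mathlib

set_option autoImplicit false

/-!
# The sum over the unit blocks: the real-variable part
-/

namespace Pool.Agent.N967.Dev

open MeasureTheory

lemma finite_abs_le (T : ℝ) : ({m : ℤ | |(m : ℝ)| ≤ T}).Finite := by
  refine Set.Finite.subset (Set.finite_Icc (-⌈T⌉) ⌈T⌉) ?_
  intro m hm
  have hm' : |(m : ℝ)| ≤ T := hm
  obtain ⟨h1, h2⟩ := abs_le.mp hm'
  have h3 : T ≤ (⌈T⌉ : ℝ) := Int.le_ceil T
  constructor
  · have : (((-⌈T⌉ : ℤ)) : ℝ) ≤ (m : ℝ) := by push_cast; linarith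
    exact_mod_cast this
  · have : (m : ℝ) ≤ ((⌈T⌉ : ℤ) : ℝ) := by linarith
    exact_mod_cast this

/-- a sparse set of integers: the sum of `(3 + |m|) ^ (-s)` converges -/
lemma summable_sparse {B : Set ℤ} {C α s : ℝ} (hC : 0 ≤ C) (hs0 : 0 ≤ s) (hs : α < s)
    (hB : ∀ T : ℝ, 1 ≤ T → ((({m : ℤ | |(m : ℝ)| ≤ T ∧ m ∈ B}).ncard : ℕ) : ℝ) ≤ C * T ^ α) :
    Summable (B.indicator (fun m : ℤ => (3 + |(m : ℝ)|) ^ (-s))) := by
  classical
  set r : ℝ := (2 : ℝ) ^ (α - s) with hr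
  have hr0 : 0 < r := Real.rpow_pos_of_pos (by norm_num) _
  have hr1 : r < 1 := Real.rpow_lt_one_of_one_lt_of_neg (by norm_num) (by linarith)
  have hgeo : Summable fun j : ℕ => C * 2 ^ α * r ^ j := (summable_geometric_of_lt_one hr0.le hr1).mul_left _
  refine summable_of_sum_le (c := ∑' j : ℕ, C * 2 ^ α * r ^ j) ?_ ?_
  · intro m
    simp only [Pi.zero_apply]
    refine Set.indicator_nonneg (fun m _ => ?_) m
    positivity
  · intro u
    set g : ℤ → ℕ := fun m => Nat.log 2 (3 + m.natAbs) with hg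
    have e1 : ∑ x ∈ u, B.indicator (fun m : ℤ => (3 + |(m : ℝ)|) ^ (-s)) x =
        ∑ x ∈ u.filter (· ∈ B), (3 + |(x : ℝ)|) ^ (-s) := by
      rw [Finset.sum_filter]
      refine Finset.sum_congr rfl fun x _ => ?_
      rw [Set.indicator_apply]
    rw [e1]
    rw [← Finset.sum_fiberwise_of_maps_to (t := (u.filter (· ∈ B)).image g) (g := g)
      (fun x hx => Finset.mem_image_of_mem g hx)]
    have e2 : ∀ j ∈ (u.filter (· ∈ B)).image g,
        ∑ x ∈ (u.filter (· ∈ B)).filter (fun x => g x = j), (3 + |(x : ℝ)|) ^ (-s) ≤ C * 2 ^ α * r ^ j := by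
      intro j _
      have hxb : ∀ x : ℤ, g x = j → (2 : ℝ) ^ j ≤ 3 + |(x : ℝ)| ∧ 3 + |(x : ℝ)| ≤ (2 : ℝ) ^ (j + 1) := by
        intro x hx
        have h0 : 3 + x.natAbs ≠ 0 := by omega
        have h1 : 2 ^ j ≤ 3 + x.natAbs := by
          rw [← hx]; exact Nat.pow_log_le_self 2 h0
        have h2 : 3 + x.natAbs < 2 ^ (j + 1) := by
          rw [← hx]; exact Nat.lt_pow_succ_log_self (by norm_num) _
        have h3 : (x.natAbs : ℝ) = |(x : ℝ)| := by
          rw [Nat.cast_natAbs, Int.cast_abs]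
        constructor
        · rw [← h3]; exact_mod_cast h1
        · rw [← h3]; exact_mod_cast h2.le
      have h1 : ∀ x ∈ (u.filter (· ∈ B)).filter (fun x => g x = j),
          (3 + |(x : ℝ)|) ^ (-s) ≤ ((2 : ℝ) ^ j) ^ (-s) := by
        intro x hx
        rw [Finset.mem_filter] at hx
        exact Real.rpow_le_rpow_of_nonpos (by positivity) (hxb x hx.2).1 (by linarith)
      refine (Finset.sum_le_card_nsmul _ _ _ h1).trans ?_
      rw [nsmul_eq_mul]
      have h2 : ((((u.filter (· ∈ B)).filter (fun x => g x = j)).card : ℕ) : ℝ) ≤ C * ((2 : ℝ) ^ (j + 1)) ^ α := by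
        refine le_trans ?_ (hB ((2 : ℝ) ^ (j + 1)) (one_le_pow₀ (by norm_num)))
        rw [← Set.ncard_coe_finset]
        refine Nat.cast_le.mpr (Set.ncard_le_ncard ?_ ?_)
        · intro x hx
          rw [Finset.coe_filter] at hx
          obtain ⟨hx1, hx2⟩ := hx
          rw [Finset.mem_filter] at hx1
          refine ⟨?_, hx1.2⟩
          have := (hxb x hx2).2
          linarith [abs_nonneg (x : ℝ)]
        · exact (finite_abs_le _).subset fun x hx => hx.1
      have h3 : 0 ≤ ((2 : ℝ) ^ j) ^ (-s) := by positivity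
      refine (mul_le_mul_of_nonneg_right h2 h3).trans (le_of_eq ?_)
      have e3 : ((2 : ℝ) ^ (j + 1)) ^ α = (2 : ℝ) ^ ((j + 1 : ℝ) * α) := by
        rw [← Real.rpow_natCast, ← Real.rpow_mul (by norm_num)]; push_cast; rfl
      have e4 : ((2 : ℝ) ^ j) ^ (-s) = (2 : ℝ) ^ ((j : ℝ) * (-s)) := by
        rw [← Real.rpow_natCast, ← Real.rpow_mul (by norm_num)]
      have e5 : r ^ j = (2 : ℝ) ^ ((α - s) * j) := by
        rw [hr, ← Real.rpow_natCast, ← Real.rpow_mul (by norm_num)]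
      rw [e3, e4, e5, mul_assoc, mul_assoc, ← Real.rpow_add (by norm_num), ← Real.rpow_add (by norm_num)]
      congr 2
      ring
    refine (Finset.sum_le_sum e2).trans ?_
    exact hgeo.sum_le_tsum _ (fun j _ => by positivity)

lemma summable_all {s : ℝ} (hs : 1 < s) : Summable (fun m : ℤ => (3 + |(m : ℝ)|) ^ (-s)) := by
  refine Summable.of_norm_bounded_eventually (Real.summable_abs_int_rpow hs) ?_
  have : ∀ᶠ m : ℤ in Filter.cofinite, m ≠ 0 := by
    rw [Filter.eventually_cofinite]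
    simp
  filter_upwards [this] with m hm
  have h1 : 0 < |(m : ℝ)| := by
    rw [abs_pos]; exact_mod_cast hm
  rw [Real.norm_of_nonneg (by positivity)]
  exact Real.rpow_le_rpow_of_nonpos h1 (by linarith) (by linarith)

lemma inv_one_add_sq (x : ℝ) : (1 + x ^ 2)⁻¹ ≤ 10 * (3 + |x|) ^ (-2 : ℝ) := by
  have h0 : 0 < 3 + |x| := by positivity
  have h1 : (3 + |x|) ^ (-2 : ℝ) = ((3 + |x|) ^ 2)⁻¹ := by
    rw [Real.rpow_neg h0.le]; norm_num
  rw [h1]
  have h2 : (3 + |x|) ^ 2 ≤ 10 * (1 + x ^ 2) := by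
    rw [← sq_abs x]
    nlinarith [sq_nonneg (3 * |x| - 1)]
  rw [inv_eq_one_div, ← div_eq_mul_inv, div_le_div_iff₀ (by positivity) (by positivity)]
  linarith

/-- the exponent of a block -/
lemma expo {V Y κ η σ : ℝ} (hV : 0 ≤ V) (hY : 2 ≤ Y) (hκ0 : 0 ≤ κ) (hκ1 : κ ≤ 1)
    (hσ : 8 * η + 9 / 4 * κ ≤ σ) :
    8 * η * Y + 2 * κ * (Y / Real.log Y) * V ≤ σ * Y + 270 * Real.exp (9 * V / 10) := by
  have hl : 0.69 ≤ Real.log Y := by
    have h1 : Real.log 2 ≤ Real.log Y := Real.log_le_log (by norm_num) hY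
    linarith [Real.log_two_gt_d9]
  have hl0 : 0 < Real.log Y := by linarith
  have hY0 : 0 < Y := by linarith
  have he : 0 < Real.exp (9 * V / 10) := Real.exp_pos _
  rcases lt_or_ge (Real.log Y) (8 * V / 9) with h | h
  · have h1 : Y ≤ Real.exp (8 * V / 9) := by
      rw [← Real.log_le_iff_le_exp hY0]; exact h.le
    have h2 : V ≤ 90 * Real.exp (V / 90) := by
      have := Real.add_one_le_exp (V / 90)
      linarith
    have h3 : Real.exp (9 * V / 10) = Real.exp (8 * V / 9) * Real.exp (V / 90) := by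
      rw [← Real.exp_add]; congr 1; ring
    have h4 : Y / Real.log Y ≤ 1.5 * Real.exp (8 * V / 9) := by
      rw [div_le_iff₀ hl0]
      have : 1 ≤ 1.5 * Real.log Y := by linarith
      nlinarith [Real.exp_pos (8 * V / 9)]
    have h5 : 2 * κ * (Y / Real.log Y) * V ≤ 270 * Real.exp (9 * V / 10) := by
      have h50 : 0 ≤ Y / Real.log Y := by positivity
      calc 2 * κ * (Y / Real.log Y) * V ≤ 2 * 1 * (1.5 * Real.exp (8 * V / 9)) * (90 * Real.exp (V / 90)) := by
            gcongr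
        _ = 270 * Real.exp (9 * V / 10) := by rw [h3]; ring
    nlinarith
  · have h1 : V / Real.log Y ≤ 9 / 8 := by
      rw [div_le_iff₀ hl0]; linarith
    have h2 : 2 * κ * (Y / Real.log Y) * V = 2 * κ * Y * (V / Real.log Y) := by ring
    rw [h2]
    have h3 : 2 * κ * Y * (V / Real.log Y) ≤ 2 * κ * Y * (9 / 8) := by gcongr
    nlinarith

end Pool.Agent.N967.Dev
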