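import Mathlib
import Pool.Agent.N967.Stm2
import Pool.Agent.N967.DevA

set_option autoImplicit false

/-!
# The sum over the unit blocks: `S_dev`
-/

namespace Pool.Agent.N967

open Complex MeasureTheory
open Pool.Agent.H295R2 (fz Zs)
open Pool.Agent.Y23 (IsZ mu Lg one_le_Lg)

namespace Dev

/-- the height of the block -/
noncomputable def YY (m : ℤ) : ℝ := Lg m + 1

lemma YY_two (m : ℤ) : 2 ≤ YY m := by
  unfold YY; linarith [one_le_Lg (m : ℝ)]

open Classical in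
/-- the constant in the number of zeros -/
noncomputable def kap (B : Set ℤ) (m : ℤ) : ℝ := if m ∈ B then 1 / 2 + 1 / 200 else 1 / 4 + 1 / 200

lemma kap_nonneg (B : Set ℤ) (m : ℤ) : 0 ≤ kap B m := by
  unfold kap; split_ifs <;> norm_num

lemma kap_le (B : Set ℤ) (m : ℤ) : kap B m ≤ 1 := by
  unfold kap; split_ifs <;> norm_num

/-- the majorant -/
noncomputable def WT (B : Set ℤ) (m : ℤ) : ℝ :=
  (1 + (m : ℝ) ^ 2)⁻¹ * Real.exp (0.61375 * YY m) +
    B.indicator (fun m : ℤ => (1 + (m : ℝ) ^ 2)⁻¹ * Real.exp (1.17625 * YY m)) m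

lemma WT_nonneg (B : Set ℤ) (m : ℤ) : 0 ≤ WT B m := by
  unfold WT
  refine add_nonneg (by positivity) (Set.indicator_nonneg (fun m _ => ?_) m)
  positivity

lemma exp_YY (σ : ℝ) (m : ℤ) : Real.exp (σ * YY m) = Real.exp σ * (3 + |(m : ℝ)|) ^ σ := by
  unfold YY Lg
  rw [Real.rpow_def_of_pos (by positivity), ← Real.exp_add]
  congr 1; ring

lemma core_le {σ : ℝ} (m : ℤ) :
    (1 + (m : ℝ) ^ 2)⁻¹ * Real.exp (σ * YY m) ≤ 10 * Real.exp σ * (3 + |(m : ℝ)|) ^ (-(2 - σ)) := by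
  rw [exp_YY]
  have h0 : 0 < 3 + |(m : ℝ)| := by positivity
  have h1 := inv_one_add_sq (m : ℝ)
  have h2 : (3 + |(m : ℝ)|) ^ (-(2 - σ)) = (3 + |(m : ℝ)|) ^ (-2 : ℝ) * (3 + |(m : ℝ)|) ^ σ := by
    rw [← Real.rpow_add h0]; congr 1; ring
  rw [h2]
  calc (1 + (m : ℝ) ^ 2)⁻¹ * (Real.exp σ * (3 + |(m : ℝ)|) ^ σ)
      ≤ (10 * (3 + |(m : ℝ)|) ^ (-2 : ℝ)) * (Real.exp σ * (3 + |(m : ℝ)|) ^ σ) := by
        gcongr
    _ = _ := by ring

lemma WT_summable {B : Set ℤ} {C : ℝ} (hC : 0 ≤ C)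
    (hB : ∀ T : ℝ, 1 ≤ T → ((({m : ℤ | |(m : ℝ)| ≤ T ∧ m ∈ B}).ncard : ℕ) : ℝ) ≤ C * T ^ (3 / 4 + 1 / 200 : ℝ)) :
    Summable (WT B) := by
  unfold WT
  refine Summable.add ?_ ?_
  · refine Summable.of_nonneg_of_le (fun m => by positivity) (fun m => core_le m) ?_
    exact (summable_all (by norm_num)).mul_left _
  · have h1 := summable_sparse (s := 2 - 1.17625) hC (by norm_num) (by norm_num) hB
    refine Summable.of_nonneg_of_le (fun m => Set.indicator_nonneg (fun m _ => by positivity) m) (fun m => ?_)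
      (h1.mul_left (10 * Real.exp 1.17625))
    by_cases hm : m ∈ B
    · rw [Set.indicator_of_mem hm, Set.indicator_of_mem hm]
      exact core_le m
    · rw [Set.indicator_of_notMem hm, Set.indicator_of_notMem hm, mul_zero]

lemma term_le (B : Set ℤ) {V : ℝ} (hV : 0 ≤ V) (m : ℤ) :
    (1 + (m : ℝ) ^ 2)⁻¹ * Real.exp (8 * (1 / 200) * YY m + 2 * kap B m * (YY m / Real.log (YY m)) * V) ≤
      WT B m * Real.exp (270 * Real.exp (9 * V / 10)) := by
  have hp : 0 ≤ (1 + (m : ℝ) ^ 2)⁻¹ := by positivity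
  by_cases hm : m ∈ B
  · have h1 : kap B m = 1 / 2 + 1 / 200 := by unfold kap; rw [if_pos hm]
    have h2 := expo (κ := kap B m) (η := 1 / 200) (σ := 1.17625) hV (YY_two m) (kap_nonneg B m) (kap_le B m)
      (by rw [h1]; norm_num)
    have h3 : (1 + (m : ℝ) ^ 2)⁻¹ * Real.exp (1.17625 * YY m) ≤ WT B m := by
      unfold WT
      rw [Set.indicator_of_mem hm]
      have : 0 ≤ (1 + (m : ℝ) ^ 2)⁻¹ * Real.exp (0.61375 * YY m) := by positivity
      linarith
    calc _ ≤ (1 + (m : ℝ) ^ 2)⁻¹ * Real.exp (1.17625 * YY m + 270 * Real.exp (9 * V / 10)) :=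
          mul_le_mul_of_nonneg_left (Real.exp_le_exp.mpr h2) hp
      _ = (1 + (m : ℝ) ^ 2)⁻¹ * Real.exp (1.17625 * YY m) * Real.exp (270 * Real.exp (9 * V / 10)) := by
          rw [Real.exp_add]; ring
      _ ≤ _ := mul_le_mul_of_nonneg_right h3 (Real.exp_pos _).le
  · have h1 : kap B m = 1 / 4 + 1 / 200 := by unfold kap; rw [if_neg hm]
    have h2 := expo (κ := kap B m) (η := 1 / 200) (σ := 0.61375) hV (YY_two m) (kap_nonneg B m) (kap_le B m)
      (by rw [h1]; norm_num)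
    have h3 : (1 + (m : ℝ) ^ 2)⁻¹ * Real.exp (0.61375 * YY m) ≤ WT B m := by
      unfold WT
      rw [Set.indicator_of_notMem hm]
      linarith
    calc _ ≤ (1 + (m : ℝ) ^ 2)⁻¹ * Real.exp (0.61375 * YY m + 270 * Real.exp (9 * V / 10)) :=
          mul_le_mul_of_nonneg_left (Real.exp_le_exp.mpr h2) hp
      _ = (1 + (m : ℝ) ^ 2)⁻¹ * Real.exp (0.61375 * YY m) * Real.exp (270 * Real.exp (9 * V / 10)) := by
          rw [Real.exp_add]; ring
      _ ≤ _ := mul_le_mul_of_nonneg_right h3 (Real.exp_pos _).le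

lemma Lg_block {m : ℤ} {τ : ℝ} (h1 : (m : ℝ) ≤ τ) (h2 : τ ≤ m + 1) : Lg τ ≤ YY m := by
  unfold YY Lg
  have h3 : Real.log (3 + |(m : ℝ)|) + 1 = Real.log ((3 + |(m : ℝ)|) * Real.exp 1) := by
    rw [Real.log_mul (by positivity) (Real.exp_pos 1).ne', Real.log_exp]
  rw [h3]
  refine Real.log_le_log (by positivity) ?_
  have h4 : |τ| ≤ |(m : ℝ)| + 1 := by
    have : |τ - m| ≤ 1 := by rw [abs_le]; constructor <;> linarith
    have h5 := abs_add_le (τ - m) (m : ℝ)
    rw [sub_add_cancel] at h5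
    linarith
  have h6 : 2 ≤ Real.exp 1 := by linarith [Real.add_one_le_exp (1 : ℝ)]
  nlinarith [abs_nonneg (m : ℝ)]

lemma Lg_shift (t v : ℝ) : Lg (t + v) ≤ Lg t + Real.log (1 + |v|) := by
  unfold Lg
  rw [← Real.log_mul (by positivity) (by positivity)]
  refine Real.log_le_log (by positivity) ?_
  have := abs_add_le t v
  nlinarith [abs_nonneg t, abs_nonneg v, mul_nonneg (abs_nonneg t) (abs_nonneg v)]

lemma div_log_mono {x y : ℝ} (hx : Real.exp 1 ≤ x) (hxy : x ≤ y) : x / Real.log x ≤ y / Real.log y := by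
  have h1 := Real.log_div_self_antitoneOn (a := x) (b := y) hx (hx.trans hxy) hxy
  have hx0 : 0 < x := (Real.exp_pos 1).trans_le hx
  have hy0 : 0 < y := hx0.trans_le hxy
  have h2 : 1 ≤ Real.log x := by rwa [Real.le_log_iff_exp_le hx0]
  have h3 : 1 ≤ Real.log y := by
    rw [Real.le_log_iff_exp_le hy0]; exact hx.trans hxy
  simp only at h1
  rw [div_le_div_iff₀ hy0 hx0] at h1
  rw [div_le_div_iff₀ (by linarith) (by linarith)]
  linarith

lemma cnt_block {θ T0 C0 : ℝ} (hT0 : Real.exp 1 ≤ T0) (hC0 : 0 < C0)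
    (h0 : ∀ t : ℝ, ∀ S : Finset ℂ, (∀ s ∈ S, IsZ s ∧ |s.im - t| ≤ 1) → ((∑ s ∈ S, mu s : ℕ) : ℝ) ≤ C0 * Lg t)
    (hcn : ∀ t : ℝ, T0 ≤ Lg t → Cnt t (θ / Real.log (Lg t)) ((1 / 2 + 1 / 200) * Lg t / Real.log (Lg t)))
    (m : ℤ) (τ : ℝ) (h1 : (m : ℝ) ≤ τ) (h2 : τ ≤ m + 1) :
    Cnt τ (rad θ T0 τ) (C0 * T0 + kap {m | Bad θ T0 (1 / 200) m} m * (YY m / Real.log (YY m))) := by
  have hT00 : 0 < T0 := (Real.exp_pos 1).trans_le hT0
  have hY := YY_two m
  have hlY : 0 < Real.log (YY m) := Real.log_pos (by linarith)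
  have hq : 0 ≤ YY m / Real.log (YY m) := by positivity
  have hk := kap_nonneg {m | Bad θ T0 (1 / 200) m} m
  by_cases hT : T0 ≤ Lg τ
  · have hr : rad θ T0 τ = θ / Real.log (Lg τ) := by unfold rad; rw [if_pos hT]
    rw [hr]
    have hm1 := div_log_mono (hT0.trans hT) (Lg_block h1 h2)
    have hK : 0 ≤ C0 * T0 := by positivity
    have key : Cnt τ (θ / Real.log (Lg τ)) (kap {m | Bad θ T0 (1 / 200) m} m * (Lg τ / Real.log (Lg τ))) := by
      by_cases hm : Bad θ T0 (1 / 200) m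
      · have h3 : kap {m | Bad θ T0 (1 / 200) m} m = 1 / 2 + 1 / 200 := by
          unfold kap; rw [if_pos]; exact hm
        rw [h3, ← mul_div_assoc]
        exact hcn τ hT
      · have h3 : kap {m | Bad θ T0 (1 / 200) m} m = 1 / 4 + 1 / 200 := by
          unfold kap; rw [if_neg]; exact hm
        rw [h3, ← mul_div_assoc]
        by_contra h4
        exact hm ⟨τ, h1, h2, hT, h4⟩
    intro S hS
    have h5 := key S hS
    have h6 := mul_le_mul_of_nonneg_left hm1 hk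
    linarith
  · have hr : rad θ T0 τ = 1 := by unfold rad; rw [if_neg hT]
    rw [hr]
    intro S hS
    have h5 := h0 τ S hS
    push_cast at h5
    have h6 : C0 * Lg τ ≤ C0 * T0 := mul_le_mul_of_nonneg_left (not_le.mp hT).le hC0.le
    have h7 := mul_nonneg hk hq
    linarith

lemma weight {t v : ℝ} {m : ℤ} (h1 : (m : ℝ) ≤ t + v) (h2 : t + v ≤ m + 1) :
    1 / (1 / 4 + t ^ 2) ≤ 24 * (1 + v ^ 2) * (1 + (m : ℝ) ^ 2)⁻¹ := by
  rw [← div_eq_mul_inv, div_le_div_iff₀ (by positivity) (by positivity)]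
  have h3 : (m : ℝ) ^ 2 ≤ 2 * (t + v) ^ 2 + 2 := by
    nlinarith [sq_nonneg ((t + v) + ((t + v) - m))]
  nlinarith [sq_nonneg (t - v), sq_nonneg (t * v)]

lemma block_small {b v E : ℝ} {m : ℤ} (hc : Continuous (Fr b v))
    (hE : ∫ t in ((m : ℝ) - v)..(m + 1 - v), ‖1 - Fr b v t‖ ^ 2 ≤ E) :
    ∫⁻ t in Set.Ioc ((m : ℝ) - v) (m + 1 - v), ENNReal.ofReal (‖1 - Fr b v t‖ ^ 2 / (1 / 4 + t ^ 2)) ≤
      ENNReal.ofReal (24 * (1 + v ^ 2) * (1 + (m : ℝ) ^ 2)⁻¹ * E) := by
  set c : ℝ := 24 * (1 + v ^ 2) * (1 + (m : ℝ) ^ 2)⁻¹ with hcdef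
  have hc0 : 0 ≤ c := by positivity
  have hcont : Continuous fun t : ℝ => c * ‖1 - Fr b v t‖ ^ 2 := by fun_prop
  have hint : IntegrableOn (fun t : ℝ => c * ‖1 - Fr b v t‖ ^ 2) (Set.Ioc ((m : ℝ) - v) (m + 1 - v)) :=
    (hcont.integrableOn_Icc).mono_set Set.Ioc_subset_Icc_self
  calc ∫⁻ t in Set.Ioc ((m : ℝ) - v) (m + 1 - v), ENNReal.ofReal (‖1 - Fr b v t‖ ^ 2 / (1 / 4 + t ^ 2))
      ≤ ∫⁻ t in Set.Ioc ((m : ℝ) - v) (m + 1 - v), ENNReal.ofReal (c * ‖1 - Fr b v t‖ ^ 2) := by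
        refine setLIntegral_mono' measurableSet_Ioc fun t ht => ENNReal.ofReal_le_ofReal ?_
        have h1 := weight (t := t) (v := v) (m := m) (by linarith [ht.1]) (by linarith [ht.2])
        rw [div_eq_mul_one_div, mul_comm]
        exact mul_le_mul_of_nonneg_right h1 (by positivity)
    _ = ENNReal.ofReal (∫ t in Set.Ioc ((m : ℝ) - v) (m + 1 - v), c * ‖1 - Fr b v t‖ ^ 2) := by
        rw [ofReal_integral_eq_lintegral_ofReal hint]
        exact Filter.Eventually.of_forall fun t => by positivity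
    _ ≤ ENNReal.ofReal (c * E) := by
        refine ENNReal.ofReal_le_ofReal ?_
        rw [integral_const_mul]
        refine mul_le_mul_of_nonneg_left ?_ hc0
        rw [← intervalIntegral.integral_of_le (by linarith)]
        exact hE

lemma block_large {b v D : ℝ} {m : ℤ}
    (hD : ∀ t : ℝ, (m : ℝ) ≤ t + v → t + v ≤ m + 1 → ‖1 - Fr b v t‖ ^ 2 ≤ D) :
    ∫⁻ t in Set.Ioc ((m : ℝ) - v) (m + 1 - v), ENNReal.ofReal (‖1 - Fr b v t‖ ^ 2 / (1 / 4 + t ^ 2)) ≤
      ENNReal.ofReal (24 * (1 + v ^ 2) * (1 + (m : ℝ) ^ 2)⁻¹ * D) := by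
  set c : ℝ := 24 * (1 + v ^ 2) * (1 + (m : ℝ) ^ 2)⁻¹ with hcdef
  have hc0 : 0 ≤ c := by positivity
  calc ∫⁻ t in Set.Ioc ((m : ℝ) - v) (m + 1 - v), ENNReal.ofReal (‖1 - Fr b v t‖ ^ 2 / (1 / 4 + t ^ 2))
      ≤ ∫⁻ _t in Set.Ioc ((m : ℝ) - v) (m + 1 - v), ENNReal.ofReal (c * D) := by
        refine setLIntegral_mono' measurableSet_Ioc fun t ht => ENNReal.ofReal_le_ofReal ?_
        have h1 := weight (t := t) (v := v) (m := m) (by linarith [ht.1]) (by linarith [ht.2])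
        have h2 := hD t (by linarith [ht.1]) (by linarith [ht.2])
        rw [div_eq_mul_one_div, mul_comm]
        exact mul_le_mul h1 h2 (by positivity) hc0
    _ = ENNReal.ofReal (c * D) := by
        rw [setLIntegral_const, Real.volume_Ioc]
        have : (m : ℝ) + 1 - v - (m - v) = 1 := by ring
        rw [this, ENNReal.ofReal_one, mul_one]

lemma sum_blocks {f : ℝ → ENNReal} {v A : ℝ} {W : ℤ → ℝ} (hA : 0 ≤ A) (hW : ∀ m, 0 ≤ W m) (hs : Summable W)
    (h : ∀ m : ℤ, ∫⁻ t in Set.Ioc ((m : ℝ) - v) (m + 1 - v), f t ≤ ENNReal.ofReal (A * W m)) :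
    ∫⁻ t, f t ≤ ENNReal.ofReal (A * ∑' m, W m) := by
  have hU : (⋃ m : ℤ, Set.Ioc ((m : ℝ) - v) (m + 1 - v)) = Set.univ := by
    have h1 := iUnion_Ioc_add_intCast (-v)
    rw [← h1]
    refine Set.iUnion_congr fun m => ?_
    congr 1 <;> ring
  calc ∫⁻ t, f t = ∫⁻ t in ⋃ m : ℤ, Set.Ioc ((m : ℝ) - v) (m + 1 - v), f t := by
        rw [hU, Measure.restrict_univ]
    _ ≤ ∑' m : ℤ, ∫⁻ t in Set.Ioc ((m : ℝ) - v) (m + 1 - v), f t := lintegral_iUnion_le _ _
    _ ≤ ∑' m : ℤ, ENNReal.ofReal (A * W m) := ENNReal.tsum_le_tsum h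
    _ = ENNReal.ofReal (∑' m : ℤ, A * W m) := by
        rw [ENNReal.ofReal_tsum_of_nonneg (fun m => mul_nonneg hA (hW m)) (hs.mul_left _)]
    _ = _ := by rw [tsum_mul_left]

lemma zeta_half (t : ℝ) : (1 / 2 + t * I : ℂ) ≠ 1 := by
  intro h
  have := congrArg Complex.re h
  norm_num at this

lemma Zs_ne (hRH : RiemannHypothesis) {s : ℂ} (hs : 1 / 2 < s.re) : Zs s ≠ 0 := by
  by_cases h1 : s = 1
  · exact Pool.Agent.H295R2.Zs_ne_zero_of_one_le (by rw [h1]; simp)
  · rw [← Pool.Agent.H295R2.Zs_eq h1]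
    refine mul_ne_zero (sub_ne_zero.mpr h1) ?_
    intro h0
    have h2 := hRH s h0 (by
      rintro ⟨n, hn⟩
      have := congrArg Complex.re hn
      simp at this
      have hn0 : (0 : ℝ) ≤ n := Nat.cast_nonneg n
      linarith) h1
    linarith

lemma Fr_cont (hRH : RiemannHypothesis) {b : ℝ} (hb : 0 < b) (v : ℝ) : Continuous (Fr b v) := by
  unfold Fr
  refine Continuous.mul ?_ ?_
  · rw [continuous_iff_continuousAt]
    intro t
    have h1 : ContinuousAt riemannZeta (1 / 2 + t * I : ℂ) := (differentiableAt_riemannZeta (zeta_half t)).continuousAt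
    exact ContinuousAt.comp (f := fun t : ℝ => (1 / 2 + t * I : ℂ)) (g := riemannZeta) h1 (by fun_prop)
  · rw [continuous_iff_continuousAt]
    intro t
    have h2 : 1 / 2 < ((1 / 2 + b + ((t + v : ℝ) : ℂ) * I : ℂ)).re := by
      simp; exact hb
    have h1 : ContinuousAt fz (1 / 2 + b + ((t + v : ℝ) : ℂ) * I : ℂ) :=
      (Pool.Agent.H295R2.fz_differentiableAt (Zs_ne hRH h2)).continuousAt
    exact ContinuousAt.comp (f := fun t : ℝ => (1 / 2 + b + ((t + v : ℝ) : ℂ) * I : ℂ)) (g := fz) h1 (by fun_prop)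


lemma final_le {b D A C Z : ℝ} (hb : 0 < b) (hD0 : 0 ≤ D) (hD : D ≤ C) (hA : A ≤ C) (hZ : 0 ≤ Z) :
    b * D * Real.exp (A * Z) ≤ C * b * Real.exp (C * Z) := by
  have h1 : Real.exp (A * Z) ≤ Real.exp (C * Z) := Real.exp_le_exp.mpr (mul_le_mul_of_nonneg_right hA hZ)
  have h2 : 0 < Real.exp (A * Z) := Real.exp_pos _
  calc b * D * Real.exp (A * Z) ≤ b * C * Real.exp (C * Z) := by
        have : 0 ≤ C := hD0.trans hD
        gcongr
    _ = _ := by ring

lemma log_le_pow (X : ℝ) : Real.log X ≤ 10 / 9 * Real.exp (9 * Real.log X / 10) := by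
  have := Real.add_one_le_exp (9 * Real.log X / 10)
  linarith

lemma exp_pow {X : ℝ} (hX : 1 ≤ X) : Real.exp (9 * Real.log X / 10) = X ^ (9 / 10 : ℝ) := by
  rw [Real.rpow_def_of_pos (by linarith)]
  congr 1; ring

end Dev

set_option maxHeartbeats 4000000 in
open Dev in
theorem dev (h1 : S_cnt2) (h2 : S_pt) (h3 : S_blk) : S_dev := by
  intro hRH
  obtain ⟨θ, C, T0, hθ, hθ1, hC, hT0, hsl, hcn, hbad⟩ := h1 hRH (1 / 200) (by norm_num) (by norm_num)
  obtain ⟨e1, K1, he1, he1', hK1, -, hfar⟩ := h2 hRH (1 / 200) θ C T0 (by norm_num) (by norm_num) hθ hθ1 hC hT0 hsl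
  obtain ⟨e2, K2, he2, he2', hK2, hblk⟩ := h3 hRH (1 / 200) θ C T0 (by norm_num) (by norm_num) hθ hθ1 hC hT0 hsl
  obtain ⟨C0, hC0, h0⟩ := Pool.Agent.Y23.cnt
  have hcnt := fun (m : ℤ) (τ : ℝ) h1 h2 => cnt_block hT0 hC0 h0 hcn m τ h1 h2
  have hWs : Summable (WT {m | Bad θ T0 (1 / 200) m}) := WT_summable hC.le hbad
  set B : Set ℤ := {m | Bad θ T0 (1 / 200) m} with hB
  set S : ℝ := ∑' m, WT B m with hSdef
  have hS : 0 ≤ S := tsum_nonneg (WT_nonneg B)
  set K0 := C0 * T0 with hK0def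
  have hT00 : 0 < T0 := (Real.exp_pos 1).trans_le hT0
  have hK0 : 0 < K0 := by positivity
  set e := min e1 e2 with hedef
  have he0 : 0 < e := lt_min he1 he2
  have he4 : e ≤ 1 / 4 := (min_le_left _ _).trans he1'
  set le : ℝ := -Real.log e with hledef
  have hle : 0 ≤ le := by
    have := Real.log_nonpos he0.le (by linarith)
    linarith
  set q : ℝ := Real.exp (9 * le / 10) with hq
  set D1 : ℝ := 48 * K2 * S with hD1
  set A1 : ℝ := 10 / 9 * (1 + 2 * K0) + 270 with hA1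
  set D2 : ℝ := 24 * (2 + 2 * K1 ^ 2) * S * Real.exp (2 * K0 * le) * e⁻¹ with hD2
  set A2 : ℝ := 10 / 9 * (4 + 2 * K0) + 270 * q with hA2
  set Cf : ℝ := max (max D1 A1) (max D2 A2) with hCf
  have hD1C : D1 ≤ Cf := (le_max_left _ _).trans (le_max_left _ _)
  have hA1C : A1 ≤ Cf := (le_max_right _ _).trans (le_max_left _ _)
  have hD2C : D2 ≤ Cf := (le_max_left _ _).trans (le_max_right _ _)
  have hA2C : A2 ≤ Cf := (le_max_right _ _).trans (le_max_right _ _)
  have hA1pos : 0 < A1 := by positivity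
  refine ⟨Cf, e, lt_of_lt_of_le hA1pos hA1C, he0, he4, ?_⟩
  intro b v hb hbe
  have hX1 : 1 ≤ 1 + |v| / b := by
    have : 0 ≤ |v| / b := by positivity
    linarith
  rw [← exp_pow hX1]
  set U : ℝ := Real.log (1 + |v| / b) with hU
  have hU0 : 0 ≤ U := Real.log_nonneg hX1
  have hUZ : U ≤ 10 / 9 * Real.exp (9 * U / 10) := log_le_pow _
  set Z : ℝ := Real.exp (9 * U / 10) with hZ
  have hZ0 : 0 < Z := Real.exp_pos _
  have hXexp : 1 + |v| / b = Real.exp U := by rw [hU, Real.exp_log (by linarith)]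
  rcases le_or_gt |v| e with hv | hv
  · -- small shifts
    have hve2 : |v| ≤ e2 := hv.trans (min_le_right _ _)
    have hbv : b + |v| = b * Real.exp U := by
      rw [← hXexp]; field_simp
    have hv2 : v ^ 2 ≤ 1 := by
      rw [← sq_abs]; nlinarith [abs_nonneg v]
    have hb' : ∀ m : ℤ, ∫⁻ t in Set.Ioc ((m : ℝ) - v) (m + 1 - v),
        ENNReal.ofReal (‖1 - Fr b v t‖ ^ 2 / (1 / 4 + t ^ 2)) ≤
        ENNReal.ofReal ((48 * K2 * (b * Real.exp U) * Real.exp (2 * K0 * U) * Real.exp (270 * Z)) * WT B m) := by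
      intro m
      have k1 := hblk b v (K0 + kap B m * (YY m / Real.log (YY m))) m hb (hbe.trans (min_le_right _ _)) hve2 (hcnt m)
      refine (block_small (Fr_cont hRH hb v) k1).trans (ENNReal.ofReal_le_ofReal ?_)
      have k2 := term_le B hU0 m
      have k3 : Lg (m : ℝ) ≤ YY m := by unfold YY; linarith
      have k4 : Real.exp (8 * (1 / 200) * Lg m + 2 * (K0 + kap B m * (YY m / Real.log (YY m))) * U) ≤
          Real.exp (2 * K0 * U) * Real.exp (8 * (1 / 200) * YY m + 2 * kap B m * (YY m / Real.log (YY m)) * U) := by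
        rw [← Real.exp_add]
        refine Real.exp_le_exp.mpr ?_
        linarith
      rw [hbv]
      have hWn := WT_nonneg B m
      calc 24 * (1 + v ^ 2) * (1 + (m : ℝ) ^ 2)⁻¹ * (K2 * (b * Real.exp U) *
            Real.exp (8 * (1 / 200) * Lg m + 2 * (K0 + kap B m * (YY m / Real.log (YY m))) * U))
          ≤ 24 * (1 + 1) * (1 + (m : ℝ) ^ 2)⁻¹ * (K2 * (b * Real.exp U) * (Real.exp (2 * K0 * U) *
              Real.exp (8 * (1 / 200) * YY m + 2 * kap B m * (YY m / Real.log (YY m)) * U))) := by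
            gcongr
        _ = 48 * (K2 * (b * Real.exp U)) * Real.exp (2 * K0 * U) * ((1 + (m : ℝ) ^ 2)⁻¹ *
              Real.exp (8 * (1 / 200) * YY m + 2 * kap B m * (YY m / Real.log (YY m)) * U)) := by ring
        _ ≤ 48 * (K2 * (b * Real.exp U)) * Real.exp (2 * K0 * U) * (WT B m * Real.exp (270 * Z)) := by
            gcongr
        _ = _ := by ring
    refine (sum_blocks (by positivity) (WT_nonneg B) hWs hb').trans (ENNReal.ofReal_le_ofReal ?_)
    refine le_trans (le_of_eq ?_) ((mul_le_mul_of_nonneg_left (Real.exp_le_exp.mpr (?_ : U + 2 * K0 * U + 270 * Z ≤ A1 * Z))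
      (by positivity : 0 ≤ b * D1)).trans (final_le hb (by positivity) hD1C hA1C hZ0.le))
    · rw [← hSdef, hD1, Real.exp_add, Real.exp_add]; ring
    · rw [hA1]
      nlinarith [mul_le_mul_of_nonneg_left hUZ (by positivity : 0 ≤ 1 + 2 * K0)]
  · -- large shifts
    have hbe1 : b ≤ e1 := hbe.trans (min_le_left _ _)
    have hb1 : b ≤ 1 := by linarith
    have hV1 : 1 ≤ 1 + 1 / b := by
      have : 0 ≤ 1 / b := by positivity
      linarith
    set V : ℝ := Real.log (1 + 1 / b) with hV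
    have hV0 : 0 ≤ V := Real.log_nonneg hV1
    have hv1 : 0 ≤ Real.log (1 + |v|) := Real.log_nonneg (by linarith [abs_nonneg v])
    have hb' : ∀ m : ℤ, ∫⁻ t in Set.Ioc ((m : ℝ) - v) (m + 1 - v),
        ENNReal.ofReal (‖1 - Fr b v t‖ ^ 2 / (1 / 4 + t ^ 2)) ≤
        ENNReal.ofReal ((24 * (1 + |v|) ^ 2 * ((2 + 2 * K1 ^ 2) * (1 + |v|) * Real.exp (2 * K0 * V)) *
          Real.exp (270 * Real.exp (9 * V / 10))) * WT B m) := by
      intro m
      have hY := YY_two m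
      have hlY : 0 < Real.log (YY m) := Real.log_pos (by linarith)
      have hq : 0 ≤ YY m / Real.log (YY m) := by positivity
      have hk := kap_nonneg B m
      have hD : ∀ t : ℝ, (m : ℝ) ≤ t + v → t + v ≤ m + 1 → ‖1 - Fr b v t‖ ^ 2 ≤
          (2 + 2 * K1 ^ 2) * ((1 + |v|) * Real.exp (2 * K0 * V) *
            Real.exp (8 * (1 / 200) * YY m + 2 * kap B m * (YY m / Real.log (YY m)) * V)) := by
        intro t ht1 ht2
        have k1 := hfar b t (t + v) (K0 + kap B m * (YY m / Real.log (YY m))) hb hbe1 (hcnt m (t + v) ht1 ht2)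
        have k2 : ‖Fr b v t‖ ≤ K1 * Real.exp (1 / 200 * Lg t + 1 / 200 * Lg (t + v) +
            (K0 + kap B m * (YY m / Real.log (YY m))) * V) := by
          unfold Fr; rw [norm_mul]; exact k1
        have k3 : Lg (t + v) ≤ YY m := Lg_block ht1 ht2
        have k4 : Lg t ≤ YY m + Real.log (1 + |v|) := by
          have := Lg_shift (t + v) (-v)
          rw [add_neg_cancel_right, abs_neg] at this
          linarith
        have k5 : ‖1 - Fr b v t‖ ≤ 1 + ‖Fr b v t‖ := by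
          have := norm_sub_le 1 (Fr b v t)
          rwa [norm_one] at this
        set G : ℝ := Real.exp (8 * (1 / 200) * YY m + Real.log (1 + |v|) + 2 * K0 * V +
          2 * kap B m * (YY m / Real.log (YY m)) * V) with hG
        have hkq : 0 ≤ kap B m * (YY m / Real.log (YY m)) * V := by positivity
        have k6 : Real.exp (1 / 200 * Lg t + 1 / 200 * Lg (t + v) +
            (K0 + kap B m * (YY m / Real.log (YY m))) * V) ^ 2 ≤ G := by
          rw [← Real.exp_nat_mul, hG]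
          refine Real.exp_le_exp.mpr ?_
          push_cast
          linarith
        have k7 : 1 ≤ G := by
          rw [hG]
          refine Real.one_le_exp ?_
          have : 0 ≤ 2 * K0 * V := by positivity
          linarith
        have k8 : ‖Fr b v t‖ ^ 2 ≤ K1 ^ 2 * G := by
          calc ‖Fr b v t‖ ^ 2 ≤ (K1 * Real.exp (1 / 200 * Lg t + 1 / 200 * Lg (t + v) +
            (K0 + kap B m * (YY m / Real.log (YY m))) * V)) ^ 2 := by gcongr
            _ = K1 ^ 2 * Real.exp (1 / 200 * Lg t + 1 / 200 * Lg (t + v) +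
            (K0 + kap B m * (YY m / Real.log (YY m))) * V) ^ 2 := by ring
            _ ≤ K1 ^ 2 * G := by gcongr
        have k9 : (1 + |v|) * Real.exp (2 * K0 * V) *
            Real.exp (8 * (1 / 200) * YY m + 2 * kap B m * (YY m / Real.log (YY m)) * V) = G := by
          have : (1 + |v|) = Real.exp (Real.log (1 + |v|)) := by
            rw [Real.exp_log (by positivity)]
          rw [hG]
          nth_rewrite 1 [this]
          rw [← Real.exp_add, ← Real.exp_add]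
          congr 1; ring
        rw [k9]
        calc ‖1 - Fr b v t‖ ^ 2 ≤ (1 + ‖Fr b v t‖) ^ 2 := by gcongr
          _ ≤ 2 + 2 * ‖Fr b v t‖ ^ 2 := by nlinarith [sq_nonneg (1 - ‖Fr b v t‖)]
          _ ≤ 2 * G + 2 * (K1 ^ 2 * G) := by linarith
          _ = _ := by ring
      refine (block_large hD).trans (ENNReal.ofReal_le_ofReal ?_)
      have k2 := term_le B hV0 m
      have hv2 : 1 + v ^ 2 ≤ (1 + |v|) ^ 2 := by
        rw [← sq_abs v]; nlinarith [abs_nonneg v]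
      calc 24 * (1 + v ^ 2) * (1 + (m : ℝ) ^ 2)⁻¹ * ((2 + 2 * K1 ^ 2) * ((1 + |v|) * Real.exp (2 * K0 * V) *
            Real.exp (8 * (1 / 200) * YY m + 2 * kap B m * (YY m / Real.log (YY m)) * V)))
          = 24 * (1 + v ^ 2) * ((2 + 2 * K1 ^ 2) * (1 + |v|) * Real.exp (2 * K0 * V)) * ((1 + (m : ℝ) ^ 2)⁻¹ *
            Real.exp (8 * (1 / 200) * YY m + 2 * kap B m * (YY m / Real.log (YY m)) * V)) := by ring
        _ ≤ 24 * (1 + |v|) ^ 2 * ((2 + 2 * K1 ^ 2) * (1 + |v|) * Real.exp (2 * K0 * V)) *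
            (WT B m * Real.exp (270 * Real.exp (9 * V / 10))) := by gcongr
        _ = _ := by ring
    refine (sum_blocks (by positivity) (WT_nonneg B) hWs hb').trans (ENNReal.ofReal_le_ofReal ?_)
    rw [← hSdef]
    have g1 : 1 + |v| ≤ Real.exp U := by
      rw [← hXexp]
      have : |v| ≤ |v| / b := by
        rw [le_div_iff₀ hb]; nlinarith [abs_nonneg v]
      linarith
    have g2 : 1 + 1 / b ≤ Real.exp (U + le) := by
      rw [Real.exp_add, ← hXexp, hledef, Real.exp_neg, Real.exp_log he0]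
      have k1 : 1 / b ≤ |v| / b * e⁻¹ := by
        rw [div_mul_eq_mul_div, div_le_div_iff_of_pos_right hb, ← div_eq_mul_inv, le_div_iff₀ he0]
        linarith
      have k2 : 1 ≤ e⁻¹ := by
        rw [le_inv_comm₀ one_pos he0, inv_one]; linarith
      calc 1 + 1 / b ≤ e⁻¹ + |v| / b * e⁻¹ := add_le_add k2 k1
        _ = (1 + |v| / b) * e⁻¹ := by ring
    have g3 : V ≤ U + le := by
      rw [hV, Real.log_le_iff_le_exp (by linarith)]; exact g2
    have g4 : Real.exp (9 * V / 10) ≤ q * Z := by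
      rw [hq, hZ, ← Real.exp_add]
      exact Real.exp_le_exp.mpr (by linarith)
    have g5 : 1 ≤ b * Real.exp U * e⁻¹ := by
      rw [← hXexp, ← div_eq_mul_inv, le_div_iff₀ he0]
      have : b * (1 + |v| / b) = b + |v| := by field_simp
      rw [this]; linarith
    have g6 : Real.exp (2 * K0 * V) ≤ Real.exp (2 * K0 * le) * Real.exp (2 * K0 * U) := by
      rw [← Real.exp_add]
      refine Real.exp_le_exp.mpr ?_
      nlinarith
    have hq0 : 0 < q := Real.exp_pos _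
    refine le_trans ?_ ((mul_le_mul_of_nonneg_left (Real.exp_le_exp.mpr
      (?_ : 4 * U + 2 * K0 * U + 270 * (q * Z) ≤ A2 * Z))
      (by positivity : 0 ≤ b * D2)).trans (final_le hb (by positivity) hD2C hA2C hZ0.le))
    · have hv0 := abs_nonneg v
      calc 24 * (1 + |v|) ^ 2 * ((2 + 2 * K1 ^ 2) * (1 + |v|) * Real.exp (2 * K0 * V)) *
            Real.exp (270 * Real.exp (9 * V / 10)) * S
          = 1 * (24 * (2 + 2 * K1 ^ 2) * S * ((1 + |v|) ^ 3 * Real.exp (2 * K0 * V) *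
            Real.exp (270 * Real.exp (9 * V / 10)))) := by ring
        _ ≤ (b * Real.exp U * e⁻¹) * (24 * (2 + 2 * K1 ^ 2) * S * (Real.exp U ^ 3 *
            (Real.exp (2 * K0 * le) * Real.exp (2 * K0 * U)) * Real.exp (270 * (q * Z)))) := by
            gcongr
        _ = b * D2 * Real.exp (4 * U + 2 * K0 * U + 270 * (q * Z)) := by
            rw [hD2, Real.exp_add, Real.exp_add, show (4 : ℝ) * U = ((4 : ℕ) : ℝ) * U by norm_num, Real.exp_nat_mul]
            ring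
    · rw [hA2]
      nlinarith [mul_le_mul_of_nonneg_left hUZ (by positivity : 0 ≤ 4 + 2 * K0)]

end Pool.Agent.N967
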