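import Mathlib
import Pool.Agent.N967.Stm2
import Pool.Agent.N967.Fejer

/-! # The Fejer kernel in Weil's explicit formula, with the sum over the primes kept
(project BD2, part F2) -/

set_option autoImplicit false
set_option maxHeartbeats 2000000
open Complex Filter Topology Set MeasureTheory
open scoped ComplexConjugate

namespace Pool.Agent.N967.FJ2

open Pool.Agent.N967.FJ
open Pool.Agent.Y23

/-! ### the pole term -/

lemma TT_ff_eq {a : ℝ} (ha : 0 < a) (t : ℝ) (w : ℂ) :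
    TT (ff a t) w = ∫ x in (-a)..a, cexp ((w - t * I) * x) := by
  unfold TT
  rw [intervalIntegral.integral_of_le (by linarith), ← integral_Icc_eq_integral_Ioc,
    ← integral_indicator measurableSet_Icc]
  congr 1
  funext x
  unfold ff gI
  by_cases h : x ∈ Icc (-a) a
  · rw [indicator_of_mem h, indicator_of_mem h, one_mul, ← Complex.exp_add]
    congr 1
    ring
  · rw [indicator_of_notMem h, indicator_of_notMem h, zero_mul, zero_mul]

lemma norm_TT_real {a : ℝ} (ha : 0 < a) (t s : ℝ) (hs : |s| = 1 / 2) :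
    ‖TT (ff a t) (s : ℂ)‖ ≤ 2 * Real.exp (a / 2) / Real.sqrt (1 / 4 + t ^ 2) := by
  have hs0 : s ≠ 0 := by
    intro h
    rw [h, abs_zero] at hs
    norm_num at hs
  have hs2 : s ^ 2 = 1 / 4 := by
    rw [← sq_abs, hs]; norm_num
  have hz : ((s : ℂ) - t * I) ≠ 0 := by
    intro h
    have := congrArg Complex.re h
    simp at this
    exact hs0 this
  have hn : ‖((s : ℂ) - t * I)‖ = Real.sqrt (1 / 4 + t ^ 2) := by
    rw [Complex.norm_eq_sqrt_sq_add_sq]
    congr 1
    simp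
    rw [hs2]; norm_num
  rw [TT_ff_eq ha, integral_exp_mul_complex hz, norm_div, hn]
  have h0 : 0 < Real.sqrt (1 / 4 + t ^ 2) := Real.sqrt_pos.2 (by positivity)
  refine div_le_div_of_nonneg_right ?_ h0.le
  have hsa := abs_le.1 hs.le
  have h1 : ‖cexp (((s : ℂ) - t * I) * ((a : ℝ) : ℂ))‖ ≤ Real.exp (a / 2) := by
    rw [Complex.norm_exp, Real.exp_le_exp]
    simp
    nlinarith [hsa.2]
  have h2 : ‖cexp (((s : ℂ) - t * I) * ((-a : ℝ) : ℂ))‖ ≤ Real.exp (a / 2) := by
    rw [Complex.norm_exp, Real.exp_le_exp]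
    simp
    nlinarith [hsa.1]
  calc _ ≤ ‖cexp (((s : ℂ) - t * I) * ((a : ℝ) : ℂ))‖ + ‖cexp (((s : ℂ) - t * I) * ((-a : ℝ) : ℂ))‖ :=
        norm_sub_le _ _
    _ ≤ _ := by linarith

lemma pole_le2 {a : ℝ} (ha : 0 < a) (t : ℝ) :
    2 * (TT (ff a t) (1 / 2) * conj (TT (ff a t) (-(1 / 2)))).re ≤ 32 * (Real.exp a / (1 + t ^ 2)) := by
  have h1 := norm_TT_real ha t (1 / 2) (by norm_num)
  have h2 := norm_TT_real ha t (-(1 / 2)) (by norm_num)
  have e1 : (((1 / 2 : ℝ)) : ℂ) = 1 / 2 := by push_cast; ring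
  have e2 : (((-(1 / 2) : ℝ)) : ℂ) = -(1 / 2) := by push_cast; ring
  rw [e1] at h1
  rw [e2] at h2
  have h0 : 0 < Real.sqrt (1 / 4 + t ^ 2) := Real.sqrt_pos.2 (by positivity)
  have h3 := Complex.re_le_norm (TT (ff a t) (1 / 2) * conj (TT (ff a t) (-(1 / 2))))
  rw [norm_mul, RCLike.norm_conj] at h3
  have h4 : ‖TT (ff a t) (1 / 2)‖ * ‖TT (ff a t) (-(1 / 2))‖ ≤
      (2 * Real.exp (a / 2) / Real.sqrt (1 / 4 + t ^ 2)) * (2 * Real.exp (a / 2) / Real.sqrt (1 / 4 + t ^ 2)) :=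
    mul_le_mul h1 h2 (norm_nonneg _) (by positivity)
  have h5 : (2 * Real.exp (a / 2) / Real.sqrt (1 / 4 + t ^ 2)) * (2 * Real.exp (a / 2) / Real.sqrt (1 / 4 + t ^ 2))
      = 4 * Real.exp a / (1 / 4 + t ^ 2) := by
    rw [div_mul_div_comm, Real.mul_self_sqrt (by positivity)]
    congr 1
    have : Real.exp a = Real.exp (a / 2) * Real.exp (a / 2) := by rw [← Real.exp_add]; congr 1; ring
    rw [this]; ring
  have h6 : 4 * Real.exp a / (1 / 4 + t ^ 2) ≤ 16 * (Real.exp a / (1 + t ^ 2)) := by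
    rw [← mul_div_assoc, div_le_div_iff₀ (by positivity) (by positivity)]
    have := Real.exp_pos a
    nlinarith [mul_nonneg this.le (sq_nonneg t)]
  linarith

/-! ### the sum over the primes -/

lemma corr_eq {a : ℝ} (t L : ℝ) (h0 : 0 ≤ L) (h1 : L ≤ 2 * a) :
    ∫ x : ℝ, ff a t (x + L) * conj (ff a t x) = ((2 * a - L : ℝ) : ℂ) * cexp (-(t * I) * L) := by
  have e : (fun x : ℝ => ff a t (x + L) * conj (ff a t x)) =
      (Icc (-a) (a - L)).indicator (fun _ => cexp (-(t * I) * L)) := by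
    funext x
    unfold ff gI
    by_cases hx : x ∈ Icc (-a) (a - L)
    · rw [indicator_of_mem hx]
      rw [mem_Icc] at hx
      have m1 : x + L ∈ Icc (-a) a := by rw [mem_Icc]; constructor <;> linarith
      have m2 : x ∈ Icc (-a) a := by rw [mem_Icc]; constructor <;> linarith
      rw [indicator_of_mem m1, indicator_of_mem m2, one_mul, one_mul, ← Complex.exp_conj, ← Complex.exp_add]
      congr 1
      simp
      ring
    · rw [indicator_of_notMem hx]
      by_cases m2 : x ∈ Icc (-a) a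
      · have m1 : x + L ∉ Icc (-a) a := by
          rw [mem_Icc] at m2 hx ⊢
          intro h
          exact hx ⟨m2.1, by linarith [h.2]⟩
        rw [indicator_of_notMem m1]
        simp
      · rw [indicator_of_notMem m2]
        simp
  rw [e, integral_indicator measurableSet_Icc]
  simp only [integral_const, MeasurableSet.univ, measureReal_restrict_apply, univ_inter,
        Real.volume_real_Icc]
  rw [max_eq_left (by linarith), Complex.real_smul]
  congr 2
  ring

lemma prime_le2 {a : ℝ} (ha : 0 < a) (t : ℝ) :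
    -(2 * ∑ n ∈ Finset.Icc 1 ⌊Real.exp (2 * a)⌋₊, ArithmeticFunction.vonMangoldt n / Real.sqrt n *
        (∫ x : ℝ, ff a t (x + Real.log n) * conj (ff a t x)).re) ≤ 2 * ‖WW a t‖ := by
  have h1 : ∑ n ∈ Finset.Icc 1 ⌊Real.exp (2 * a)⌋₊, ArithmeticFunction.vonMangoldt n / Real.sqrt n *
        (∫ x : ℝ, ff a t (x + Real.log n) * conj (ff a t x)).re = (WW a t).re := by
    unfold WW
    rw [Complex.re_sum]
    refine Finset.sum_congr rfl fun n hn => ?_
    rw [Finset.mem_Icc] at hn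
    have hn0 : (0 : ℝ) < n := by exact_mod_cast hn.1
    have hn1 : (1 : ℝ) ≤ n := by exact_mod_cast hn.1
    have h2 : (n : ℝ) ≤ Real.exp (2 * a) := (Nat.le_floor_iff (Real.exp_pos _).le).1 hn.2
    have h3 : Real.log n ≤ 2 * a := by
      rw [Real.log_le_iff_le_exp hn0]; exact h2
    rw [corr_eq t (Real.log n) (Real.log_nonneg hn1) h3]
    have e : (n : ℂ) ^ (-(t : ℂ) * I) = cexp (-(t * I) * (Real.log n : ℝ)) := by
      rw [Complex.cpow_def_of_ne_zero (by exact_mod_cast (by omega : n ≠ 0)), Complex.natCast_log]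
      congr 1
      ring
    rw [e, ← Complex.re_ofReal_mul]
    congr 1
    push_cast
    ring
  rw [h1]
  have := Complex.abs_re_le_norm (WW a t)
  have h2 := neg_le_abs (WW a t).re
  linarith

theorem fej2_main : S_fej2 := by
  classical
  intro RH
  obtain ⟨C, hC0, hC⟩ := DG_upper
  have hh : 0 ≤ ∫ v, hF v := integral_nonneg hF_nonneg
  refine ⟨32 + 2 * (1 + C) + ∫ v, hF v, by positivity, fun t a ha1 S hS => ?_⟩
  have ha : 0 < a := by linarith
  have hw := weil ha (Hd_ff ha t)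
  have h1 := pole_le2 ha t
  have h2 := arch_le ha hC t
  have h3 := prime_le2 ha t
  have hD : Dom (ff a t) := ((Hd_iff ha _).1 (Hd_ff ha t)).2
  have e1 : ∀ ρ : Zt, GG (ff a t) (ff a t) ((ρ : ℂ) - 1 / 2) = ((KF a ((ρ : ℂ).im - t) : ℝ) : ℂ) := by
    intro ρ
    rw [rh_line RH ρ.2, GG_line, norm_TT_ff ha]
  have hs : Summable (fun ρ : Zt => (mu ρ : ℝ) * KF a ((ρ : ℂ).im - t)) := by
    refine hD.congr fun ρ => ?_
    have e : ((ρ : ℂ) - 1 / 2) = ((ρ : ℂ).im : ℂ) * I := by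
      rw [rh_line RH ρ.2]
      apply Complex.ext <;> simp
    rw [e, norm_TT_ff ha]
  have e2 : QQ (ff a t) = ∑' ρ : Zt, (mu ρ : ℝ) * KF a ((ρ : ℂ).im - t) := by
    unfold QQ
    refine tsum_congr fun ρ => ?_
    rw [e1, Complex.ofReal_re]
  have h4 : ∑ s ∈ S, (mu s : ℝ) * (4 * a ^ 2 * Real.sinc (a * (s.im - t)) ^ 2) ≤ QQ (ff a t) := by
    rw [e2]
    have h5 := hs.sum_le_tsum (S.subtype (fun s : ℂ => riemannZeta s = 0 ∧ 0 < s.re ∧ s.re < 1))
      (fun ρ _ => mul_nonneg (Nat.cast_nonneg _) (KF_nonneg _ _))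
    have h6 := Finset.sum_subtype_of_mem (s := S) (fun s : ℂ => (mu s : ℝ) * KF a (s.im - t))
      (p := fun s : ℂ => riemannZeta s = 0 ∧ 0 < s.re ∧ s.re < 1) hS
    rw [h6] at h5
    exact h5
  refine h4.trans ?_
  rw [hw]
  have hpi := Real.pi_pos
  have h7 : 1 / (2 * Real.pi) * (∫ v : ℝ, DG v * ‖TT (ff a t) (v * I)‖ ^ 2) ≤
      2 * a * (Lg t + 1 + C) + ∫ v, hF v := by
    have h8 : 1 / (2 * Real.pi) * (∫ v : ℝ, DG v * ‖TT (ff a t) (v * I)‖ ^ 2) ≤
        1 / (2 * Real.pi) * ((Lg t + 1 + C) * (4 * Real.pi * a) + ∫ v, hF v) :=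
      mul_le_mul_of_nonneg_left h2 (by positivity)
    have h9 : 1 / (2 * Real.pi) * ((Lg t + 1 + C) * (4 * Real.pi * a) + ∫ v, hF v) =
        2 * a * (Lg t + 1 + C) + 1 / (2 * Real.pi) * ∫ v, hF v := by
      field_simp
      ring
    have h10 : 1 / (2 * Real.pi) * (∫ v, hF v) ≤ ∫ v, hF v := by
      have : 1 / (2 * Real.pi) ≤ 1 := by
        rw [div_le_one (by positivity)]
        linarith [Real.pi_gt_three]
      nlinarith
    linarith
  have h14 : (∫ v, hF v) ≤ (∫ v, hF v) * a := by nlinarith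
  have h17 : 0 < Real.exp a / (1 + t ^ 2) := by positivity
  have h16 : (32 + 2 * (1 + C) + ∫ v, hF v) * a + (32 + 2 * (1 + C) + ∫ v, hF v) * Real.exp a / (1 + t ^ 2) =
      32 * a + 2 * (1 + C) * a + (∫ v, hF v) * a + 32 * (Real.exp a / (1 + t ^ 2)) +
        (2 * (1 + C) + ∫ v, hF v) * (Real.exp a / (1 + t ^ 2)) := by ring
  have h18 : 0 ≤ (2 * (1 + C) + ∫ v, hF v) * (Real.exp a / (1 + t ^ 2)) := by positivity
  linarith

end Pool.Agent.N967.FJ2

namespace Pool.Agent.N967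

/-- the Fejer kernel in the explicit formula, with the sum over the primes kept -/
theorem fej2 : S_fej2 := FJ2.fej2_main

end Pool.Agent.N967
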