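import Mathlib
import Pool.Agent.N967.Stm2
import Pool.Agent.N967.Gam

set_option autoImplicit false

/-!
# The gamma factor on both sides of the critical line (helper124), after `Gam.lean`
-/

namespace Pool.Agent.N967

open Complex MeasureTheory
open Pool.Agent.Y23 (Lg one_le_Lg)

namespace Gam2aux

lemma quad_ne {w : ℂ} (h : |w.re| < 1 / 2) : (4 * w ^ 2 - 1 : ℂ) ≠ 0 := by
  have h3 : (4 * w ^ 2 - 1 : ℂ) = (2 * w - 1) * (2 * w + 1) := by ring
  obtain ⟨h1, h2⟩ := abs_lt.1 h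
  rw [h3]
  refine mul_ne_zero ?_ ?_
  · intro h
    have := congrArg Complex.re h
    simp at this
    linarith
  · intro h
    have := congrArg Complex.re h
    simp at this
    linarith

lemma half_re {w : ℂ} (h : |w.re| < 1 / 2) : 0 < (1 / 2 + w : ℂ).re := by
  have h1 := (abs_lt.1 h).1
  simp only [add_re, one_div, inv_re, re_ofNat, normSq_ofNat]
  norm_num at h1 ⊢
  linarith

lemma HG_ne {w : ℂ} (h : |w.re| < 1 / 2) : HG w ≠ 0 :=
  mul_ne_zero (quad_ne h) (Gammaℝ_ne_zero_of_re_pos (half_re h))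

lemma HG_logDeriv {w : ℂ} (h : |w.re| < 1 / 2) :
    deriv HG w = (2 / (2 * w - 1) + 2 / (2 * w + 1) + logDeriv Gammaℝ (1 / 2 + w)) * HG w := by
  have d1 : HasDerivAt (fun w : ℂ => 4 * w ^ 2 - 1) (8 * w) w := by
    have := ((hasDerivAt_pow 2 w).const_mul 4).sub_const 1
    have e8 : (4 * (((2 : ℕ) : ℂ) * w ^ (2 - 1)) : ℂ) = 8 * w := by norm_num; ring
    rw [e8] at this
    exact this
  have d2 : HasDerivAt (fun w : ℂ => Gammaℝ (1 / 2 + w)) (deriv Gammaℝ (1 / 2 + w) * 1) w :=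
    HasDerivAt.comp w (gammaR_diff (half_re h)).hasDerivAt ((hasDerivAt_id w).const_add _)
  have d3 := (d1.mul d2).deriv
  have d4 : deriv HG w = 8 * w * Gammaℝ (1 / 2 + w) +
      (4 * w ^ 2 - 1) * (deriv Gammaℝ (1 / 2 + w) * 1) := d3
  rw [d4, logDeriv_apply]
  unfold HG
  have h3 := Gammaℝ_ne_zero_of_re_pos (half_re h)
  have h4 := quad_ne h
  have h5 : (4 * w ^ 2 - 1 : ℂ) = (2 * w - 1) * (2 * w + 1) := by ring
  have h6 : (2 * w - 1 : ℂ) ≠ 0 := fun h => h4 (by rw [h5, h, zero_mul])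
  have h7 : (2 * w + 1 : ℂ) ≠ 0 := fun h => h4 (by rw [h5, h, mul_zero])
  have h8 : (8 * w : ℂ) = 2 * (2 * w + 1) + 2 * (2 * w - 1) := by ring
  generalize deriv Gammaℝ (1 / 2 + w) = D
  generalize Gammaℝ (1 / 2 + w) = G at h3 ⊢
  rw [h5, h8]
  generalize 2 * w - 1 = a at h6 ⊢
  generalize 2 * w + 1 = b at h7 ⊢
  field_simp

/-- the bound of the logarithmic derivative -/
lemma HG_ld : ∃ C : ℝ, 0 < C ∧ ∀ t u : ℝ, -(1 / 4) ≤ u → u ≤ 1 / 4 →
    ‖deriv HG (u + t * I)‖ ≤ C * Lg t * ‖HG (u + t * I)‖ := by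
  obtain ⟨C, hC, hG⟩ := H370.DL.logDeriv_Gammaℝ_bound
  have hre : ∀ u t : ℝ, ((u : ℂ) + t * I).re = u := by intro u t; simp
  have him : ∀ u t : ℝ, ((u : ℂ) + t * I).im = t := by intro u t; simp
  -- the compact part
  have hcomp : IsCompact (Set.Icc (-(1 / 4) : ℝ) (1 / 4) ×ℂ Set.Icc (-1) 1) :=
    isCompact_Icc.reProdIm isCompact_Icc
  have hU : IsOpen {w : ℂ | -(1 / 2) < w.re} := isOpen_lt continuous_const continuous_re
  have hcd : ContinuousOn (fun w => deriv HG w / HG w)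
      (Set.Icc (-(1 / 4) : ℝ) (1 / 4) ×ℂ Set.Icc (-1) 1) := by
    have h1 : DifferentiableOn ℂ HG {w : ℂ | -(1 / 2) < w.re} := fun w hw =>
      (HG_diff hw).differentiableWithinAt
    have h2 := h1.deriv hU
    have hsub : Set.Icc (-(1 / 4) : ℝ) (1 / 4) ×ℂ Set.Icc (-1) 1 ⊆ {w : ℂ | -(1 / 2) < w.re} := by
      intro w hw
      have := (mem_reProdIm.1 hw).1.1
      simp only [Set.mem_setOf_eq]; linarith
    refine (h2.continuousOn.mono hsub).div (h1.continuousOn.mono hsub) ?_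
    intro w hw
    have := (mem_reProdIm.1 hw).1
    exact HG_ne (abs_lt.2 ⟨by linarith [this.1], by linarith [this.2]⟩)
  obtain ⟨B, hB⟩ := hcomp.exists_bound_of_continuousOn hcd
  refine ⟨|B| + C + 5, by positivity, fun t u hu hu' => ?_⟩
  have hL := one_le_Lg t
  have h0 : |((u : ℂ) + t * I).re| < 1 / 2 := by
    rw [hre]
    exact abs_lt.2 ⟨by linarith, by linarith⟩
  have hne := HG_ne h0
  have hn : 0 ≤ ‖HG (u + t * I)‖ := norm_nonneg _
  rcases le_or_gt 1 |t| with ht | ht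
  · rw [HG_logDeriv h0, norm_mul]
    refine mul_le_mul_of_nonneg_right ?_ hn
    have h1 : ‖(2 : ℂ) / (2 * (u + t * I) - 1)‖ ≤ 1 := quot_le ht (by simp)
    have h2 : ‖(2 : ℂ) / (2 * (u + t * I) + 1)‖ ≤ 1 := quot_le ht (by simp)
    have him' : (1 / 2 + ((u : ℂ) + t * I)).im = t := by simp
    have hre' : (1 / 2 + ((u : ℂ) + t * I)).re = 1 / 2 + u := by simp
    have h3 := hG (1 / 2 + (u + t * I)) (by rw [hre']; linarith) (by rw [hre']; linarith)
      (by rw [him']; exact ht)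
    rw [him'] at h3
    have h4 : 0 ≤ Real.log |t| := Real.log_nonneg ht
    have h5 : Real.log |t| ≤ Lg t := Real.log_le_log (by linarith) (by linarith)
    have h6 : ‖logDeriv Gammaℝ (1 / 2 + (u + t * I))‖ ≤ C + 1 / 2 * Real.log |t| := by
      have h7 : logDeriv Gammaℝ (1 / 2 + (u + t * I)) =
          (logDeriv Gammaℝ (1 / 2 + (u + t * I)) - 1 / 2 * (Real.log |t| : ℂ)) +
            1 / 2 * (Real.log |t| : ℂ) := by ring
      rw [h7]
      refine (norm_add_le _ _).trans (add_le_add h3 ?_)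
      rw [norm_mul, Complex.norm_real, Real.norm_of_nonneg h4]
      norm_num
    have h8 : ‖(2 : ℂ) / (2 * (u + t * I) - 1) + 2 / (2 * (u + t * I) + 1) +
        logDeriv Gammaℝ (1 / 2 + (u + t * I))‖ ≤ 1 + 1 + (C + 1 / 2 * Real.log |t|) :=
      (norm_add_le _ _).trans (add_le_add ((norm_add_le _ _).trans (add_le_add h1 h2)) h6)
    refine h8.trans ?_
    nlinarith [abs_nonneg B]
  · have h1 : ((u : ℂ) + t * I) ∈ Set.Icc (-(1 / 4) : ℝ) (1 / 4) ×ℂ Set.Icc (-1 : ℝ) 1 := by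
      rw [mem_reProdIm, hre, him]
      exact ⟨⟨hu, hu'⟩, ⟨by linarith [neg_abs_le t], by linarith [le_abs_self t]⟩⟩
    have h2 := hB _ h1
    rw [norm_div, div_le_iff₀ (norm_pos_iff.2 hne)] at h2
    refine h2.trans (mul_le_mul_of_nonneg_right ?_ hn)
    have := le_abs_self B
    nlinarith [abs_nonneg B]

end Gam2aux

/-- the gamma factor on both sides of the line -/
theorem gam2 : S_gam2 := by
  obtain ⟨C, hC, hb⟩ := Gam2aux.HG_ld
  refine ⟨C, hC, fun a b t ha hb' => ?_⟩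
  have hL := one_le_Lg t
  obtain ⟨a1, a2⟩ := abs_le.1 ha
  obtain ⟨b1, b2⟩ := abs_le.1 hb'
  have := (horiz (H := HG) (p := -(1 / 4)) (q := 1 / 4) (K := C * Lg t) (t := t) (by positivity)
    (fun u hu _ => HG_diff (by simp; linarith)) (fun u hu hu' => hb t u hu hu') a1 a2 b1 b2).1
  have e : C * Lg t * |a - b| = C * |a - b| * Lg t := by ring
  rw [e] at this
  exact this

end Pool.Agent.N967
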