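import Mathlib
import Pool.Agent.N967.Stm2
import Pool.Agent.N967.Kern

/-!
# BD2/K2: an entire kernel of exponential type with decay `exp (-c |y| ^ (19 / 20))`
-/

set_option autoImplicit false

namespace Pool.Agent.N967

open Complex

namespace Kern2

open Pool.Agent.N967.Kern Filter Topology

/-- the unnormalised scales -/
noncomputable def A0 (k : ℕ) : ℝ := 1 / ((k : ℝ) + 1) ^ (20 / 19 : ℝ)

theorem A0_pos (k : ℕ) : 0 < A0 k := by
  unfold A0
  positivity

theorem A0_summable : Summable A0 := by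
  have h : Summable fun n : ℕ => 1 / (n : ℝ) ^ (20 / 19 : ℝ) :=
    Real.summable_one_div_nat_rpow.2 (by norm_num)
  have h2 := (summable_nat_add_iff 1).2 h
  refine h2.congr fun k => ?_
  unfold A0
  push_cast
  rfl

/-- the sum of the scales -/
noncomputable def SS : ℝ := ∑' k, A0 k

theorem SS_pos : 0 < SS := A0_summable.tsum_pos (fun k => (A0_pos k).le) 0 (A0_pos 0)

/-- the normalising constant -/
noncomputable def c0 : ℝ := 1 / (2 * SS)

theorem c0_pos : 0 < c0 := by
  unfold c0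
  have := SS_pos
  positivity

/-- the scales -/
noncomputable def A (k : ℕ) : ℝ := c0 * A0 k

theorem A_pos (k : ℕ) : 0 < A k := mul_pos c0_pos (A0_pos k)

theorem A_summable : Summable A := A0_summable.mul_left c0

theorem A_sum_le (n : ℕ) : ∑ k ∈ Finset.range n, A k ≤ 1 / 2 := by
  have h1 : ∑ k ∈ Finset.range n, A k ≤ ∑' k, A k :=
    A_summable.sum_le_tsum _ fun k _ => (A_pos k).le
  have h2 : ∑' k, A k = 1 / 2 := by
    unfold A
    rw [tsum_mul_left]
    change c0 * SS = 1 / 2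
    unfold c0
    have := SS_pos.ne'
    field_simp
  linarith

theorem A_le (k : ℕ) : A k ≤ 1 := by
  have h := A_sum_le (k + 1)
  rw [Finset.sum_range_succ] at h
  have h2 : 0 ≤ ∑ k ∈ Finset.range k, A k := Finset.sum_nonneg fun j _ => (A_pos j).le
  linarith

/-- `sc` is `1 + O(|z|)` on balls -/
theorem sc_sub_one (R : ℝ) : ∃ K : ℝ, 0 ≤ K ∧ ∀ w : ℂ, ‖w‖ ≤ R → ‖sc w - 1‖ ≤ K * ‖w‖ := by
  have hd : Differentiable ℂ (dslope sc 0) := by
    intro z
    have h : DifferentiableOn ℂ (dslope sc 0) Set.univ :=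
      (Complex.differentiableOn_dslope Filter.univ_mem).2 sc_diff.differentiableOn
    exact (h z (Set.mem_univ z)).differentiableAt Filter.univ_mem
  obtain ⟨K, hK⟩ := (isCompact_closedBall (0 : ℂ) R).exists_bound_of_continuousOn
    hd.continuous.continuousOn
  refine ⟨max K 0, le_max_right _ _, fun w hw => ?_⟩
  have h1 := hK w (by simpa using hw)
  have h2 : sc w - 1 = w * dslope sc 0 w := by
    have := sub_smul_dslope sc 0 w
    rw [sub_zero, sc_zero, smul_eq_mul] at this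
    exact this.symm
  rw [h2, norm_mul, mul_comm]
  exact mul_le_mul_of_nonneg_right (h1.trans (le_max_left _ _)) (norm_nonneg _)

/-- the factors -/
noncomputable def F (k : ℕ) (z : ℂ) : ℂ := sc ((A k : ℂ) * z)

theorem F_diff (k : ℕ) : Differentiable ℂ (F k) := sc_diff.comp (by fun_prop)

theorem F_zero (k : ℕ) : F k 0 = 1 := by
  unfold F
  rw [mul_zero, sc_zero]

theorem mult : MultipliableLocallyUniformlyOn (fun k z => 1 + (F k z - 1)) (Set.univ : Set ℂ) := by
  use fun z => ∏' k, (1 + (F k z - 1))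
  apply hasProdLocallyUniformlyOn_of_forall_compact isOpen_univ
  intro K _ hcK
  obtain ⟨R, hR⟩ := hcK.isBounded.exists_norm_le
  obtain ⟨C, hC0, hC⟩ := sc_sub_one R
  refine (A_summable.mul_left (C * R)).hasProdUniformlyOn_nat_one_add hcK
    (.of_forall fun n x hx => ?_) (fun n => ?_)
  · have h1 : ‖(A n : ℂ) * x‖ = A n * ‖x‖ := by
      rw [norm_mul, Complex.norm_real, Real.norm_of_nonneg (A_pos n).le]
    have h2 : ‖(A n : ℂ) * x‖ ≤ R := by
      rw [h1]
      calc A n * ‖x‖ ≤ 1 * ‖x‖ := mul_le_mul_of_nonneg_right (A_le n) (norm_nonneg _)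
        _ ≤ R := by rw [one_mul]; exact hR x hx
    refine (hC _ h2).trans ?_
    rw [h1]
    have h3 := hR x hx
    have h4 := A_pos n
    calc C * (A n * ‖x‖) = (C * A n) * ‖x‖ := by ring
      _ ≤ (C * A n) * R := mul_le_mul_of_nonneg_left h3 (by positivity)
      _ = C * R * A n := by ring
  · exact ((F_diff n).sub_const 1).continuous.continuousOn

/-- the infinite product -/
noncomputable def g (z : ℂ) : ℂ := ∏' k, (1 + (F k z - 1))

theorem g_diff : Differentiable ℂ g := by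
  have h : DifferentiableOn ℂ g Set.univ :=
    mult.hasProdLocallyUniformlyOn.differentiableOn
      (.of_forall fun s => by
        simpa [Finset.prod_fn] using
          DifferentiableOn.finsetProd (fun k _ => (F_diff k).differentiableOn)) isOpen_univ
  intro z
  exact (h z (Set.mem_univ z)).differentiableAt Filter.univ_mem

theorem g_zero : g 0 = 1 := by
  unfold g
  simp [F_zero]

theorem g_tendsto (z : ℂ) : Tendsto (fun n => ∏ k ∈ Finset.range n, F k z) atTop (𝓝 (g z)) := by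
  have h := (mult.multipliable (Set.mem_univ z)).hasProd.tendsto_prod_nat
  simpa [g] using h

theorem F_le (k : ℕ) (z : ℂ) : ‖F k z‖ ≤ Real.exp (A k * |z.re|) * (1 / max 1 (A k * |z.im|)) := by
  have h := norm_sc_le ((A k : ℂ) * z)
  rw [Complex.re_ofReal_mul, Complex.im_ofReal_mul, abs_mul, abs_mul, abs_of_pos (A_pos k)] at h
  rw [← div_eq_mul_one_div]
  exact h

theorem fac_nonneg (k : ℕ) (y : ℝ) : 0 ≤ 1 / max 1 (A k * |y|) := by
  have h1 : 1 ≤ max 1 (A k * |y|) := le_max_left _ _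
  positivity

theorem fac_le_one (k : ℕ) (y : ℝ) : 1 / max 1 (A k * |y|) ≤ 1 := by
  have h1 : 1 ≤ max 1 (A k * |y|) := le_max_left _ _
  rw [div_le_one (by linarith)]
  exact h1

theorem fac_small {k : ℕ} {y : ℝ} (h : (k : ℝ) + 1 ≤ (c0 * |y| / Real.exp 1) ^ (19 / 20 : ℝ)) :
    1 / max 1 (A k * |y|) ≤ Real.exp (-1) := by
  have hk : (0 : ℝ) < (k : ℝ) + 1 := by positivity
  have hc := c0_pos
  have hy := abs_nonneg y
  have he := Real.exp_pos 1
  have h1 : ((k : ℝ) + 1) ^ (20 / 19 : ℝ) ≤ c0 * |y| / Real.exp 1 := by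
    have h2 := Real.rpow_le_rpow hk.le h (by norm_num : (0 : ℝ) ≤ 20 / 19)
    rw [← Real.rpow_mul (by positivity)] at h2
    norm_num at h2
    exact h2
  rw [le_div_iff₀ he] at h1
  have h3 : Real.exp 1 ≤ A k * |y| := by
    unfold A A0
    have h4 : (0 : ℝ) < ((k : ℝ) + 1) ^ (20 / 19 : ℝ) := by positivity
    rw [show c0 * (1 / ((k : ℝ) + 1) ^ (20 / 19 : ℝ)) * |y| =
      c0 * |y| / ((k : ℝ) + 1) ^ (20 / 19 : ℝ) by ring, le_div_iff₀ h4]
    linarith
  rw [Real.exp_neg, ← one_div]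
  exact one_div_le_one_div_of_le he (h3.trans (le_max_right _ _))

theorem prod_le (z : ℂ) {N n : ℕ} (hN : (N : ℝ) ≤ (c0 * |z.im| / Real.exp 1) ^ (19 / 20 : ℝ))
    (hn : N ≤ n) :
    ‖∏ k ∈ Finset.range n, F k z‖ ≤ Real.exp (1 / 2 * |z.re|) * Real.exp (-(N : ℝ)) := by
  rw [norm_prod]
  refine (Finset.prod_le_prod (fun k _ => norm_nonneg _) fun k _ => F_le k z).trans ?_
  rw [Finset.prod_mul_distrib, ← Real.exp_sum, ← Finset.sum_mul]
  refine mul_le_mul ?_ ?_ (Finset.prod_nonneg fun k _ => fac_nonneg k _) (Real.exp_pos _).le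
  · exact Real.exp_le_exp.2 (mul_le_mul_of_nonneg_right (A_sum_le n) (abs_nonneg _))
  · have h1 : ∏ k ∈ Finset.range n, 1 / max 1 (A k * |z.im|) ≤
        ∏ k ∈ Finset.range N, 1 / max 1 (A k * |z.im|) := by
      rw [← Finset.prod_range_mul_prod_Ico _ hn]
      exact mul_le_of_le_one_right (Finset.prod_nonneg fun k _ => fac_nonneg k _)
        (Finset.prod_le_one (fun k _ => fac_nonneg k _) fun k _ => fac_le_one k _)
    refine h1.trans ?_
    have h2 : ∏ k ∈ Finset.range N, 1 / max 1 (A k * |z.im|) ≤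
        ∏ k ∈ Finset.range N, Real.exp (-1) := by
      refine Finset.prod_le_prod (fun k _ => fac_nonneg k _) fun k hk => fac_small ?_
      have h3 : ((k + 1 : ℕ) : ℝ) ≤ N := by exact_mod_cast Finset.mem_range.1 hk
      push_cast at h3
      linarith
    refine h2.trans ?_
    rw [Finset.prod_const, Finset.card_range, ← Real.exp_nat_mul]
    simp

theorem g_le (z : ℂ) : ‖g z‖ ≤ Real.exp 1 * Real.exp (1 / 2 * |z.re|) *
    Real.exp (-((c0 / Real.exp 1) ^ (19 / 20 : ℝ) * |z.im| ^ (19 / 20 : ℝ))) := by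
  set x : ℝ := (c0 * |z.im| / Real.exp 1) ^ (19 / 20 : ℝ) with hx
  have hc := c0_pos
  have hy := abs_nonneg z.im
  have hx0 : 0 ≤ x := by positivity
  have hx' : x = (c0 / Real.exp 1) ^ (19 / 20 : ℝ) * |z.im| ^ (19 / 20 : ℝ) := by
    rw [hx, ← Real.mul_rpow (by positivity) hy]
    congr 1
    ring
  rw [← hx']
  have hN : ((⌊x⌋₊ : ℕ) : ℝ) ≤ x := Nat.floor_le hx0
  have h1 : ‖g z‖ ≤ Real.exp (1 / 2 * |z.re|) * Real.exp (-((⌊x⌋₊ : ℕ) : ℝ)) := by
    refine le_of_tendsto (g_tendsto z).norm ?_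
    filter_upwards [eventually_ge_atTop ⌊x⌋₊] with n hn
    exact prod_le z hN hn
  refine h1.trans ?_
  have h2 : x - 1 ≤ (⌊x⌋₊ : ℕ) := by
    have := Nat.lt_floor_add_one x
    linarith
  calc Real.exp (1 / 2 * |z.re|) * Real.exp (-((⌊x⌋₊ : ℕ) : ℝ)) ≤
      Real.exp (1 / 2 * |z.re|) * (Real.exp 1 * Real.exp (-x)) := by
        refine mul_le_mul_of_nonneg_left ?_ (Real.exp_pos _).le
        rw [← Real.exp_add]
        exact Real.exp_le_exp.2 (by linarith)
    _ = _ := by ring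

end Kern2

open Kern2 in
theorem kern2 : S_kern2 := by
  have hc := c0_pos
  refine ⟨(c0 / Real.exp 1) ^ (19 / 20 : ℝ), Real.exp 1, by positivity, by positivity,
    fun z => Complex.exp (-z / 2) * g z, ?_, ?_, ?_, ?_⟩
  · exact (by fun_prop : Differentiable ℂ fun z : ℂ => Complex.exp (-z / 2)).mul g_diff
  · simp [g_zero]
  · intro z hz
    rw [norm_mul, Complex.norm_exp]
    refine (mul_le_mul_of_nonneg_left (g_le z) (Real.exp_pos _).le).trans (le_of_eq ?_)
    rw [abs_of_nonneg hz]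
    have h1 : (-z / 2).re = -(1 / 2 * z.re) := by
      simp
      ring
    rw [h1]
    have h2 : Real.exp (-(1 / 2 * z.re)) * Real.exp (1 / 2 * z.re) = 1 := by
      rw [← Real.exp_add]
      simp
    calc _ = (Real.exp (-(1 / 2 * z.re)) * Real.exp (1 / 2 * z.re)) * (Real.exp 1 * Real.exp (-((c0 / Real.exp 1) ^ (19 / 20 : ℝ) * |z.im| ^ (19 / 20 : ℝ)))) := by ring
      _ = _ := by rw [h2, one_mul]
  · intro z hz
    rw [norm_mul, Complex.norm_exp]
    refine (mul_le_mul_of_nonneg_left (g_le z) (Real.exp_pos _).le).trans (le_of_eq ?_)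
    rw [abs_of_nonpos hz]
    have h1 : (-z / 2).re = -(1 / 2 * z.re) := by
      simp
      ring
    rw [h1]
    have h2 : Real.exp (-(1 / 2 * z.re)) * Real.exp (1 / 2 * -z.re) = Real.exp (-z.re) := by
      rw [← Real.exp_add]
      congr 1
      ring
    calc _ = (Real.exp (-(1 / 2 * z.re)) * Real.exp (1 / 2 * -z.re)) * (Real.exp 1 * Real.exp (-((c0 / Real.exp 1) ^ (19 / 20 : ℝ) * |z.im| ^ (19 / 20 : ℝ)))) := by ring
      _ = _ := by rw [h2]; ring

end Pool.Agent.N967
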