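import Mathlib
import Pool.Agent.N967.Ratio2
import Pool.Agent.N967.Stm2
import Pool.Agent.Y22.LM6

set_option autoImplicit false

/-!
# The cost of a horizontal move at distance `b ≥ 0` from the line, zeros at distance `≥ β`
-/

namespace Pool.Agent.N967

open Complex Polynomial Filter Topology
open Pool.Agent.Y22.LM (xx_approx mult_le XX_refl_norm)
open Pool.Agent.Y23 (IsZ mu Lg)
open Pool.Agent.H295R2 (fz Zs)
open Pool.Agent.H24R2.JP (XX)

lemma near_bound2 {b y v l r β : ℝ} (hβ : 0 < β) (hβ2 : β ^ 2 ≤ b ^ 2 + y ^ 2) (hr : 0 ≤ r) (hv : |v| ≤ l) :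
    |y| ≤ 1 → b ^ 2 + (y + v) ^ 2 ≤ (b ^ 2 + y ^ 2) * Real.exp (2 * Pn l β r y) := by
  intro hy
  have hl : 0 ≤ l := (abs_nonneg v).trans hv
  unfold Pn
  split_ifs with h
  · have h1 := shift_sq (b := b) (y := y) hβ hβ2 hv
    have h2 : Real.exp (2 * Real.log (1 + l / β)) = (1 + l / β) ^ 2 := by
      rw [mul_comm, Real.exp_mul, Real.exp_log (by positivity)]
      norm_num
    rwa [h2]
  · have hy0 : 0 < |y| := lt_of_le_of_lt hr (not_le.1 h)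
    have h1 := shift_sq (b := b) (y := y) hy0 (by rw [sq_abs]; nlinarith [sq_nonneg b]) hv
    refine h1.trans (mul_le_mul_of_nonneg_left ?_ (by positivity))
    have h2 := log_one_add_le_sqrt (u := l / |y|) (by positivity)
    have h3 : 1 + l / |y| ≤ Real.exp (Real.sqrt (l / |y|)) := by
      rwa [← Real.log_le_iff_le_exp (by positivity)]
    calc (1 + l / |y|) ^ 2 ≤ (Real.exp (Real.sqrt (l / |y|))) ^ 2 := by gcongr
      _ = Real.exp (2 * Real.sqrt (l / |y|)) := by rw [← Real.exp_nat_mul]; norm_num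

/-- the cost of one root: horizontal move -/
lemma rootA2 {b e l r y v β : ℝ} (hb : 0 ≤ b) (hbe : b ≤ e) (he0 : 0 < e) (he : e ≤ 1) (hβ : 0 < β)
    (hβ2 : |y| ≤ 1 → β ^ 2 ≤ b ^ 2 + y ^ 2) (hr : 0 ≤ r) (hv : |v| ≤ l) (hl : l ≤ 1 / 4) :
    (b ^ 2 + (y + v) ^ 2) * (e ^ 2 + y ^ 2) ≤
      (b ^ 2 + y ^ 2) * (e ^ 2 + (y + v) ^ 2) * Real.exp (2 * (Pn l β r y + 12 * l / e / (1 + y ^ 2))) := by
  have hl0 : 0 ≤ l := (abs_nonneg v).trans hv
  rcases le_or_gt |y| 1 with hy | hy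
  · have h1 := near_bound2 (r := r) hβ (hβ2 hy) hr hv hy
    have h2 : e ^ 2 + y ^ 2 ≤ (e ^ 2 + (y + v) ^ 2) * (1 + l / e) ^ 2 := by
      have h9 := shift_sq (b := e) (y := y + v) (v := -v) (l := l) (c := e) he0 (by nlinarith [sq_nonneg (y + v)])
        (by rw [abs_neg]; exact hv)
      rwa [add_neg_cancel_right] at h9
    have h3 : (1 + l / e) ^ 2 ≤ Real.exp (2 * (12 * l / e / (1 + y ^ 2))) := by
      have h4 : 1 + l / e ≤ Real.exp (l / e) := by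
        have := Real.add_one_le_exp (l / e)
        linarith
      have h5 : l / e ≤ 12 * l / e / (1 + y ^ 2) := by
        rw [le_div_iff₀ (by positivity)]
        have h6 : y ^ 2 ≤ 1 := by rw [← sq_abs]; nlinarith [abs_nonneg y]
        have h7 : 0 ≤ l / e := by positivity
        have h8 : 12 * l / e = 12 * (l / e) := by ring
        rw [h8]
        nlinarith
      calc (1 + l / e) ^ 2 ≤ (Real.exp (l / e)) ^ 2 := by
            have : 0 ≤ l / e := by positivity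
            gcongr
        _ = Real.exp (2 * (l / e)) := by rw [← Real.exp_nat_mul]; norm_num
        _ ≤ _ := by
          rw [Real.exp_le_exp]; linarith
    have e9 : Real.exp (2 * (Pn l β r y + 12 * l / e / (1 + y ^ 2))) =
        Real.exp (2 * Pn l β r y) * Real.exp (2 * (12 * l / e / (1 + y ^ 2))) := by
      rw [← Real.exp_add]; congr 1; ring
    rw [e9]
    calc (b ^ 2 + (y + v) ^ 2) * (e ^ 2 + y ^ 2)
        ≤ ((b ^ 2 + y ^ 2) * Real.exp (2 * Pn l β r y)) * ((e ^ 2 + (y + v) ^ 2) * Real.exp (2 * (12 * l / e / (1 + y ^ 2)))) := by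
          refine mul_le_mul h1 (h2.trans (mul_le_mul_of_nonneg_left h3 (by positivity))) (by positivity) (by positivity)
      _ = _ := by ring
  · have hP : 0 ≤ Pn l β r y := Pn_nonneg hl0 hβ
    have hy2 : 1 < y ^ 2 := by rw [← sq_abs]; nlinarith [abs_nonneg y]
    have e1 : (b ^ 2 + (y + v) ^ 2) * (e ^ 2 + y ^ 2) =
      (b ^ 2 + y ^ 2) * (e ^ 2 + (y + v) ^ 2) + (e ^ 2 - b ^ 2) * ((y + v) ^ 2 - y ^ 2) := by ring
    set Q := (b ^ 2 + y ^ 2) * (e ^ 2 + (y + v) ^ 2) with hQ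
    have hv2 : y * v ≤ l * |y| := by
      calc y * v ≤ |y * v| := le_abs_self _
        _ = |y| * |v| := abs_mul _ _
        _ ≤ |y| * l := by gcongr
        _ = l * |y| := mul_comm _ _
    have hv3 : v ^ 2 ≤ l * |y| := by
      have h1 : v ^ 2 ≤ l ^ 2 := by rw [← sq_abs v]; gcongr
      nlinarith
    have h1 : (y + v) ^ 2 - y ^ 2 ≤ 3 * l * |y| := by nlinarith
    have h2 : (3 / 4 * |y|) ^ 2 ≤ (y + v) ^ 2 := by
      have h3 : 3 / 4 * |y| ≤ |y + v| := by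
        have := abs_sub_abs_le_abs_sub y (-v)
        rw [abs_neg, sub_neg_eq_add] at this
        nlinarith
      rw [← sq_abs (y + v)]
      gcongr
    have h4 : (e ^ 2 - b ^ 2) * ((y + v) ^ 2 - y ^ 2) ≤ 3 * l * |y| := by
      have h5 : 0 ≤ e ^ 2 - b ^ 2 := by nlinarith
      have h6 : e ^ 2 - b ^ 2 ≤ 1 := by nlinarith [sq_nonneg b]
      have h7 : 0 ≤ 3 * l * |y| := by positivity
      calc (e ^ 2 - b ^ 2) * ((y + v) ^ 2 - y ^ 2) ≤ (e ^ 2 - b ^ 2) * (3 * l * |y|) :=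
            mul_le_mul_of_nonneg_left h1 h5
        _ ≤ 1 * (3 * l * |y|) := mul_le_mul_of_nonneg_right h6 h7
        _ = 3 * l * |y| := one_mul _
    have h5 : y ^ 2 * (9 / 16 * y ^ 2) ≤ Q := by
      rw [hQ]
      have : (3 / 4 * |y|) ^ 2 = 9 / 16 * y ^ 2 := by rw [mul_pow, sq_abs]; norm_num
      rw [this] at h2
      refine mul_le_mul (by nlinarith [sq_nonneg b]) (by nlinarith [sq_nonneg e]) (by positivity) (by positivity)
    have h6 : 3 * l * |y| ≤ Q * (24 * l / (1 + y ^ 2)) := by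
      have h7 : y ^ 2 * (9 / 16 * y ^ 2) * (24 * l / (1 + y ^ 2)) ≤ Q * (24 * l / (1 + y ^ 2)) := by
        gcongr
      refine le_trans ?_ h7
      rw [← mul_div_assoc, le_div_iff₀ (by positivity)]
      have h9 : |y| ≤ y ^ 2 := by rw [← sq_abs]; nlinarith
      have h10 : |y| * (1 + y ^ 2) ≤ y ^ 2 * (2 * y ^ 2) :=
        mul_le_mul h9 (by linarith) (by positivity) (by positivity)
      have h11 : 3 * l * (|y| * (1 + y ^ 2)) ≤ 3 * l * (y ^ 2 * (2 * y ^ 2)) :=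
        mul_le_mul_of_nonneg_left h10 (by positivity)
      have h12 : 0 ≤ l * (y ^ 2 * y ^ 2) := by positivity
      have e2 : y ^ 2 * (9 / 16 * y ^ 2) * (24 * l) = 27 / 2 * (l * (y ^ 2 * y ^ 2)) := by ring
      have e3 : 3 * l * (y ^ 2 * (2 * y ^ 2)) = 6 * (l * (y ^ 2 * y ^ 2)) := by ring
      rw [e2]
      rw [e3] at h11
      calc 3 * l * |y| * (1 + y ^ 2) = 3 * l * (|y| * (1 + y ^ 2)) := by ring
        _ ≤ 6 * (l * (y ^ 2 * y ^ 2)) := h11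
        _ ≤ _ := by linarith
    have h7 : Real.exp (2 * (Pn l β r y + 12 * l / e / (1 + y ^ 2))) ≥ 1 + 24 * l / (1 + y ^ 2) := by
      have h8 := Real.add_one_le_exp (2 * (Pn l β r y + 12 * l / e / (1 + y ^ 2)))
      have h9 : 12 * l / (1 + y ^ 2) ≤ 12 * l / e / (1 + y ^ 2) := by
        gcongr
        rw [le_div_iff₀ he0]
        nlinarith
      have h10 : 24 * l / (1 + y ^ 2) = 2 * (12 * l / (1 + y ^ 2)) := by ring
      rw [h10]
      linarith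
    rw [e1]
    have hQ0 : 0 ≤ Q := by positivity
    calc Q + (e ^ 2 - b ^ 2) * ((y + v) ^ 2 - y ^ 2) ≤ Q + 3 * l * |y| := by linarith
      _ ≤ Q + Q * (24 * l / (1 + y ^ 2)) := by linarith
      _ = Q * (1 + 24 * l / (1 + y ^ 2)) := by ring
      _ ≤ _ := mul_le_mul_of_nonneg_left h7 hQ0

lemma polyA2 {p : ℂ[X]} {b e l c t v β : ℝ} (hp : ∀ r ∈ p.roots, r.re = 0)
    (hp2 : ∀ r ∈ p.roots, |t - r.im| ≤ 1 → β ^ 2 ≤ b ^ 2 + (t - r.im) ^ 2) (hb : 0 ≤ b) (hbe : b ≤ e) (he0 : 0 < e) (he : e ≤ 1)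
    (hβ : 0 < β) (hc : 0 ≤ c) (hv : |v| ≤ l) (hl : l ≤ 1 / 4) :
    ‖p.eval (b + ((t + v : ℝ) : ℂ) * I)‖ ^ 2 * ‖p.eval (e + t * I)‖ ^ 2 ≤
      ‖p.eval (b + t * I)‖ ^ 2 * ‖p.eval (e + ((t + v : ℝ) : ℂ) * I)‖ ^ 2 *
      Real.exp ((p.roots.map fun r => 2 * (Pn l β c (t - r.im) + 12 * l / e / (1 + (t - r.im) ^ 2))).sum) := by
  simp only [norm_eval_sq]
  have h := prod_le_exp (s := p.roots)
    (A := fun r => ‖(b + ((t + v : ℝ) : ℂ) * I : ℂ) - r‖ ^ 2 * ‖(e + t * I : ℂ) - r‖ ^ 2)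
    (B := fun r => ‖(b + t * I : ℂ) - r‖ ^ 2 * ‖(e + ((t + v : ℝ) : ℂ) * I : ℂ) - r‖ ^ 2)
    (ψ := fun r => 2 * (Pn l β c (t - r.im) + 12 * l / e / (1 + (t - r.im) ^ 2)))
    (fun r _ => by positivity) (fun r _ => by positivity) (fun r hr => by
      have hr0 := hp r hr
      rw [norm_root hr0, norm_root hr0, norm_root hr0, norm_root hr0]
      have h1 := rootA2 (y := t - r.im) hb hbe he0 he hβ (hp2 r hr) hc hv hl
      have e1 : t + v - r.im = t - r.im + v := by ring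
      rw [e1]
      exact h1)
  rw [Multiset.prod_map_mul, Multiset.prod_map_mul] at h
  set X1 := (p.roots.map fun r => ‖(b + ((t + v : ℝ) : ℂ) * I : ℂ) - r‖ ^ 2).prod
  set X2 := (p.roots.map fun r => ‖(e + t * I : ℂ) - r‖ ^ 2).prod
  set Y1 := (p.roots.map fun r => ‖(b + t * I : ℂ) - r‖ ^ 2).prod
  set Y2 := (p.roots.map fun r => ‖(e + ((t + v : ℝ) : ℂ) * I : ℂ) - r‖ ^ 2).prod
  set E := Real.exp ((p.roots.map fun r => 2 * (Pn l β c (t - r.im) + 12 * l / e / (1 + (t - r.im) ^ 2))).sum)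
  calc ‖p.leadingCoeff‖ ^ 2 * X1 * (‖p.leadingCoeff‖ ^ 2 * X2) = ‖p.leadingCoeff‖ ^ 4 * (X1 * X2) := by ring
    _ ≤ ‖p.leadingCoeff‖ ^ 4 * (Y1 * Y2 * E) := mul_le_mul_of_nonneg_left h (by positivity)
    _ = _ := by ring

/-- horizontal move at distance `b` from the line -/
theorem limA2 (hRH : RiemannHypothesis) {C1 : ℝ} (hfar : ∀ t : ℝ, 0 < ‖XX (1 + t * I)‖ ∧
      ‖XX (2 + t * I)‖ ≤ Real.exp (C1 * Lg t) * ‖XX (1 + t * I)‖)
    {b e l c t v Nn β : ℝ} (hb : 0 ≤ b) (hbe : b ≤ e) (he0 : 0 < e) (he : e ≤ 1) (hβ : 0 < β)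
    (hβ2 : ∀ s : ℂ, IsZ s → |s.im - t| ≤ 1 → β ^ 2 ≤ b ^ 2 + (t - s.im) ^ 2)
    (hc : 0 ≤ c) (hc1 : c ≤ 1) (hv : |v| ≤ l) (hl : l ≤ 1 / 4)
    (hN : ∀ S : Finset ℂ, (∀ s ∈ S, IsZ s ∧ |s.im - t| ≤ 1) → ∑ s ∈ S, (mu s : ℝ) * Pn l β c (t - s.im) ≤ Nn) :
    ‖XX (b + ((t + v : ℝ) : ℂ) * I)‖ * ‖XX (e + t * I)‖ ≤
      ‖XX (b + t * I)‖ * ‖XX (e + ((t + v : ℝ) : ℂ) * I)‖ *
      Real.exp (Nn + 12 * l / e * (8 / 3 * (C1 * Lg t + 1))) := by
  obtain ⟨p, hp1, hp2, -⟩ := xx_approx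
  have hl0 : 0 ≤ l := (abs_nonneg v).trans hv
  have hpt : ∀ z : ℂ, Tendsto (fun N => ‖(p N).eval z‖) atTop (𝓝 ‖XX z‖) := fun z =>
    ((tendstoLocallyUniformlyOn_univ.mpr hp2).tendsto_at (Set.mem_univ z)).norm
  have hs := sums hRH hfar hp1 hp2 t (fun y => Pn l β c y) (fun y => Pn_nonneg hl0 hβ) (fun y hy => by
    unfold Pn
    rw [if_neg (by linarith), if_neg (by linarith)]) Nn hN (12 * l / e) (by positivity)
  have h1 : (‖XX (b + ((t + v : ℝ) : ℂ) * I)‖ * ‖XX (e + t * I)‖) ^ 2 ≤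
      (‖XX (b + t * I)‖ * ‖XX (e + ((t + v : ℝ) : ℂ) * I)‖ *
      Real.exp (Nn + 12 * l / e * (8 / 3 * (C1 * Lg t + 1)))) ^ 2 := by
    rw [mul_pow, mul_pow, mul_pow, ← Real.exp_nat_mul]
    refine le_of_tendsto_of_tendsto (((hpt _).pow 2).mul ((hpt _).pow 2))
      ((((hpt _).pow 2).mul ((hpt _).pow 2)).mul_const _) ?_
    filter_upwards [hs] with N hN1
    have hre : ∀ r ∈ (p N).roots, r.re = 0 := fun r hr =>
      (XX_re hRH (hp1 N r (Polynomial.isRoot_of_mem_roots hr))).2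
    have hre2 : ∀ r ∈ (p N).roots, |t - r.im| ≤ 1 → β ^ 2 ≤ b ^ 2 + (t - r.im) ^ 2 := fun r hr h => by
      have h3 := hβ2 (r + 1 / 2) (XX_re hRH (hp1 N r (Polynomial.isRoot_of_mem_roots hr))).1
      have h4 : (r + 1 / 2 : ℂ).im = r.im := by simp
      rw [h4] at h3
      exact h3 (by rwa [abs_sub_comm])
    refine (polyA2 (c := c) (t := t) hre hre2 hb hbe he0 he hβ hc hv hl).trans ?_
    refine mul_le_mul_of_nonneg_left ?_ (by positivity)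
    rw [Real.exp_le_exp]
    refine hN1.trans (le_of_eq ?_)
    push_cast
    ring
  exact le_of_sq_le_sq h1 (by positivity)

/-- the constants of the gamma estimate on both sides -/
def GamC2 (C4 : ℝ) : Prop := 0 < C4 ∧ ∀ a b t : ℝ, |a| ≤ 1 / 4 → |b| ≤ 1 / 4 →
  ‖HG (a + t * I)‖ ≤ Real.exp (C4 * |a - b| * Lg t) * ‖HG (b + t * I)‖

lemma gam_e2 {C4 : ℝ} (h : GamC2 C4) {a b e t : ℝ} (ha : |a| ≤ e) (hb : |b| ≤ e) (he : e ≤ 1 / 4) :
    ‖HG (a + t * I)‖ ≤ Real.exp (2 * C4 * e * Lg t) * ‖HG (b + t * I)‖ := by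
  refine (h.2 a b t (ha.trans he) (hb.trans he)).trans ?_
  refine mul_le_mul_of_nonneg_right ?_ (norm_nonneg _)
  rw [Real.exp_le_exp]
  have h1 : |a - b| ≤ 2 * e := by
    have := abs_sub a b
    linarith
  have h2 := h.1
  have h3 := one_lt_Lg t
  calc C4 * |a - b| * Lg t ≤ C4 * (2 * e) * Lg t := by gcongr
    _ = _ := by ring

lemma XX_HG2 {x : ℝ} (hx : |x| ≤ 1 / 4) (t : ℝ) :
    XX (x + t * I) = HG (x + t * I) * riemannZeta (1 / 2 + x + t * I) := by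
  obtain ⟨h1, h2⟩ := abs_le.1 hx
  have h := Pool.Agent.Y23.XX_strip (s := 1 / 2 + x + t * I) (by simp; linarith) (by simp; linarith)
  have e : (1 / 2 + x + t * I - 1 / 2 : ℂ) = x + t * I := by ring
  rw [e] at h
  rw [h]
  unfold HG
  rw [half_add_eq]

lemma HG_ne2 {x : ℝ} (hx : |x| ≤ 1 / 4) (t : ℝ) : HG (x + t * I) ≠ 0 := by
  obtain ⟨h1, h2⟩ := abs_le.1 hx
  have h := Pool.Agent.Y23.fac_ne (s := 1 / 2 + x + t * I) (by simp; linarith) (by simp; linarith)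
  have e : (1 / 2 + x + t * I - 1 / 2 : ℂ) = x + t * I := by ring
  rw [e] at h
  unfold HG
  rw [half_add_eq]
  exact h

lemma fz_inv2 {x : ℝ} (hx : |x| ≤ 1 / 4) (t : ℝ) :
    fz (1 / 2 + x + t * I) = (riemannZeta (1 / 2 + x + t * I))⁻¹ := by
  obtain ⟨h1, h2⟩ := abs_le.1 hx
  refine Pool.Agent.H295R2.fz_eq ?_
  intro h
  have := congrArg Complex.re h
  simp at this
  linarith

lemma fz_XX2 {x : ℝ} (hx : |x| ≤ 1 / 4) (t : ℝ) (h1 : XX (x + t * I) ≠ 0) :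
    ‖fz (1 / 2 + x + t * I)‖ * ‖XX (x + t * I)‖ = ‖HG (x + t * I)‖ := by
  rw [XX_HG2 hx] at h1 ⊢
  rw [fz_inv2 hx, norm_inv, norm_mul]
  have h2 : ‖riemannZeta (1 / 2 + x + t * I)‖ ≠ 0 := by
    rw [norm_ne_zero_iff]
    exact right_ne_zero_of_mul h1
  rw [mul_comm ‖HG (x + t * I)‖, ← mul_assoc, inv_mul_cancel₀ h2, one_mul]

lemma XX_abs (x t : ℝ) : ‖XX (x + t * I)‖ = ‖XX (((|x| : ℝ) : ℂ) + t * I)‖ := by
  rcases le_total 0 x with h | h
  · rw [abs_of_nonneg h]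
  · rw [abs_of_nonpos h]
    have := XX_refl_norm (-x) t
    push_cast at this ⊢
    rw [neg_neg] at this
    exact this

/-- small `v`, both sides of the line -/
lemma caseA2 (hmono : S_mono) (hRH : RiemannHypothesis) {C1 C4 Z1 Z2 : ℝ} (h1 : FarC C1) (h4 : GamC2 C4)
    {x e c t v Nn β : ℝ} (hxe : |x| ≤ e) (he0 : 0 < e) (he : e ≤ 1 / 4) (hβ : 0 < β)
    (hβ2 : ∀ s : ℂ, IsZ s → |s.im - t| ≤ 1 → β ^ 2 ≤ x ^ 2 + (t - s.im) ^ 2)
    (hc : 0 ≤ c) (hc1 : c ≤ 1) (hv : |v| ≤ 1 / 4)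
    (hZ1 : ‖riemannZeta (1 / 2 + e + ((t + v : ℝ) : ℂ) * I)‖ ≤ Z1) (hZ2 : ‖fz (1 / 2 + e + t * I)‖ ≤ Z2)
    (hN : ∀ S : Finset ℂ, (∀ s ∈ S, IsZ s ∧ |s.im - t| ≤ 1) → ∑ s ∈ S, (mu s : ℝ) * Pn |v| β c (t - s.im) ≤ Nn) :
    ‖riemannZeta (1 / 2 + ((t + v : ℝ) : ℂ) * I)‖ * ‖fz (1 / 2 + x + t * I)‖ ≤
      Real.exp (2 * C4 * e * Lg t) * Real.exp (2 * C4 * e * Lg (t + v)) * Z1 * Z2 *
      Real.exp (Nn + 12 * |v| / e * (8 / 3 * (C1 * Lg t + 1))) := by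
  have hl := limA2 hRH h1.2 (abs_nonneg x) hxe he0 (by linarith : e ≤ 1) hβ (by
    intro s hs h
    rw [sq_abs]
    exact hβ2 s hs h) hc hc1 le_rfl hv hN
  have hX0 : XX (x + t * I) ≠ 0 := by
    intro h
    obtain ⟨h5, h6⟩ := XX_re hRH h
    have h7 : x = 0 := by simpa using h6
    have h8 : (x + t * I + 1 / 2 : ℂ).im = t := by simp
    have h9 := hβ2 _ h5 (by rw [h8]; simp)
    rw [h8, h7] at h9
    simp at h9
    nlinarith [sq_nonneg β]
  set E1 := Real.exp (Nn + 12 * |v| / e * (8 / 3 * (C1 * Lg t + 1))) with hE1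
  set G1 := Real.exp (2 * C4 * e * Lg t) with hG1
  set G2 := Real.exp (2 * C4 * e * Lg (t + v)) with hG2
  have k0 := XX_HGr (b := 0) le_rfl (by norm_num) (t + v)
  have k1 := (hmono hRH (((t + v : ℝ) : ℂ) * I) |x| (by simp) (abs_nonneg x)).1
  have kz : ((0 : ℝ) : ℂ) = 0 := Complex.ofReal_zero
  rw [kz, zero_add, add_zero] at k0
  rw [k0, norm_mul, add_comm (((t + v : ℝ) : ℂ) * I) ((|x| : ℝ) : ℂ)] at k1
  have k2 := fz_XX2 (hxe.trans he) t hX0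
  rw [XX_abs] at k2
  have k3 := congrArg norm (XX_HGr he0.le he (t + v))
  rw [norm_mul] at k3
  have k4 := fz_XX hmono hRH he0 he t
  have hee : |e| ≤ e := by rw [abs_of_pos he0]
  have g1 := gam_e2 h4 (t := t) hxe hee he
  have g2 := gam_e2 h4 (a := e) (b := 0) (t := t + v) hee (by rw [abs_zero]; exact he0.le) he
  rw [kz, zero_add] at g2
  have p1 : 0 < ‖HG (((t + v : ℝ) : ℂ) * I)‖ := by
    have := HG_ner (b := 0) le_rfl (by norm_num) (t + v)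
    rw [kz, zero_add] at this
    exact norm_pos_iff.2 this
  have p2 : 0 < ‖HG (e + t * I)‖ := norm_pos_iff.2 (HG_ner he0.le he t)
  set A1 := ‖riemannZeta (1 / 2 + ((t + v : ℝ) : ℂ) * I)‖ with hA1
  set B1 := ‖fz (1 / 2 + x + t * I)‖ with hB1
  have nB : 0 ≤ B1 := norm_nonneg _
  have nZ1 : 0 ≤ Z1 := (norm_nonneg _).trans hZ1
  have nZ2 : 0 ≤ Z2 := (norm_nonneg _).trans hZ2
  have nE : 0 < E1 := Real.exp_pos _
  have nG1 : 0 < G1 := Real.exp_pos _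
  have nG2 : 0 < G2 := Real.exp_pos _
  -- chain
  have c1 : A1 * B1 * (‖HG (((t + v : ℝ) : ℂ) * I)‖ * ‖HG (e + t * I)‖) ≤
      (G1 * G2 * Z1 * Z2 * E1) * (‖HG (((t + v : ℝ) : ℂ) * I)‖ * ‖HG (e + t * I)‖) := by
    calc A1 * B1 * (‖HG (((t + v : ℝ) : ℂ) * I)‖ * ‖HG (e + t * I)‖)
        = B1 * (‖HG (((t + v : ℝ) : ℂ) * I)‖ * A1) * (‖fz (1 / 2 + e + t * I)‖ * ‖XX (e + t * I)‖) := by rw [k4]; ring
      _ ≤ B1 * ‖XX (((|x| : ℝ) : ℂ) + ((t + v : ℝ) : ℂ) * I)‖ * (Z2 * ‖XX (e + t * I)‖) := by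
          gcongr
      _ = B1 * Z2 * (‖XX (((|x| : ℝ) : ℂ) + ((t + v : ℝ) : ℂ) * I)‖ * ‖XX (e + t * I)‖) := by ring
      _ ≤ B1 * Z2 * (‖XX (((|x| : ℝ) : ℂ) + t * I)‖ * ‖XX (e + ((t + v : ℝ) : ℂ) * I)‖ * E1) := by
          gcongr
      _ = (B1 * ‖XX (((|x| : ℝ) : ℂ) + t * I)‖) * Z2 * (‖HG (e + ((t + v : ℝ) : ℂ) * I)‖ *
            ‖riemannZeta (1 / 2 + e + ((t + v : ℝ) : ℂ) * I)‖) * E1 := by rw [k3]; ring
      _ ≤ (G1 * ‖HG (e + t * I)‖) * Z2 * ((G2 * ‖HG (((t + v : ℝ) : ℂ) * I)‖) * Z1) * E1 := by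
          rw [k2]
          gcongr
      _ = _ := by ring
  exact le_of_mul_le_mul_right c1 (by positivity)

/-- the near cost, with a bound for the number of zeros in the short interval -/
lemma near_all2 {θ C T0 : ℝ} (hθ0 : 0 < θ) (hθ1 : θ ≤ 1) (hC : 0 < C) (hT0 : Real.exp 1 ≤ T0) (hS : Slope θ C T0)
    {t l β M : ℝ} (hl : 0 ≤ l) (hβ : 0 < β) (hM : Cnt t (rad θ T0 t) M) :
    0 < rad θ T0 t ∧ rad θ T0 t ≤ 1 ∧
      ∀ S : Finset ℂ, (∀ s ∈ S, IsZ s ∧ |s.im - t| ≤ 1) → ∑ s ∈ S, (mu s : ℝ) * Pn l β (rad θ T0 t) (t - s.im) ≤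
        M * Real.log (1 + l / β) + 5 * C * Real.sqrt l * Lg t := by
  classical
  have hX := one_lt_Lg t
  have hlogX := log_Lg_pos t
  have hL := log_one_add_nonneg hl hβ
  have hT0pos : 0 < T0 := (Real.exp_pos 1).trans_le hT0
  rcases le_or_gt T0 (Lg t) with hT | hT
  · have hrad : rad θ T0 t = θ / Real.log (Lg t) := if_pos hT
    have hr0 : 0 < θ / Real.log (Lg t) := by positivity
    have hr1 : θ / Real.log (Lg t) ≤ 1 := by
      rw [div_le_one hlogX]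
      have : 1 ≤ Real.log (Lg t) := by
        rw [Real.le_log_iff_exp_le (by linarith)]
        exact hT0.trans hT
      linarith
    rw [hrad] at hM ⊢
    refine ⟨hr0, hr1, fun S hS1 => ?_⟩
    have h1 := near_sum (S := S) (m := fun s => (mu s : ℝ)) (y := fun s => t - s.im) (fun s _ => Nat.cast_nonneg _)
      (fun s hs => by
        have := (hS1 s hs).2
        rwa [abs_sub_comm] at this)
      (C' := C * Lg t) (r0 := θ / Real.log (Lg t)) (M0 := M) (l := l) (b := β)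
      (by positivity) hr0 hl hβ ?_ ?_
    · refine h1.trans (le_of_eq ?_)
      ring
    · exact hM _ (fun s hs => by
        rw [Finset.mem_filter] at hs
        refine ⟨(hS1 s hs.1).1, ?_⟩
        have := hs.2
        rwa [abs_sub_comm] at this)
    · intro r hr hr'
      have := hS t hT r hr hr' (S.filter (fun s => |t - s.im| ≤ r)) (fun s hs => by
        rw [Finset.mem_filter] at hs
        refine ⟨(hS1 s hs.1).1, ?_⟩
        have := hs.2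
        rwa [abs_sub_comm] at this)
      refine this.trans (le_of_eq (by ring))
  · have hrad : rad θ T0 t = 1 := if_neg (not_le.2 hT)
    rw [hrad] at hM ⊢
    refine ⟨one_pos, le_rfl, fun S hS1 => ?_⟩
    have h1 : ∑ s ∈ S, (mu s : ℝ) * Pn l β 1 (t - s.im) = (∑ s ∈ S, (mu s : ℝ)) * Real.log (1 + l / β) := by
      rw [Finset.sum_mul]
      refine Finset.sum_congr rfl fun s hs => ?_
      unfold Pn
      have := (hS1 s hs).2
      rw [abs_sub_comm] at this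
      rw [if_pos this]
    rw [h1]
    have h3 := mul_le_mul_of_nonneg_right (hM S hS1) hL
    have h5 : 0 ≤ 5 * C * Real.sqrt l * Lg t := by positivity
    linarith

end Pool.Agent.N967
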