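import Mathlib
import Pool.Agent.N967.Pt1

set_option autoImplicit false

/-!
# Pointwise bounds for the ratio
-/

namespace Pool.Agent.N967

open Complex Filter Topology
open Pool.Agent.Y23 (IsZ mu Lg)
open Pool.Agent.H295R2 (fz Zs)
open Pool.Agent.H24R2.JP (XX)

theorem pt (hgam : S_gam2) (hfar : S_far) (hlind : S_lind) (hmono : S_mono) : S_pt := by
  intro hRH η θ C T0 hη hη1 hθ0 hθ1 hC hT0 hS
  obtain ⟨C1, hC1, hfar'⟩ := hfar
  have h1 : FarC C1 := ⟨hC1, hfar'⟩
  obtain ⟨C4, hC4, hgam'⟩ := hgam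
  have h4 : GamC2 C4 := ⟨hC4, hgam'⟩
  have h4' : GamC C4 := ⟨hC4, fun a b t ha ha' hb hb' => hgam' a b t (by rwa [abs_of_nonneg ha]) (by rwa [abs_of_nonneg hb])⟩
  -- the choice of e
  set e : ℝ := min (min (1 / 4) (η / (32 * C4))) (min ((η / (40 * C)) ^ 2) (η / (64 * C1))) with he
  have he0 : 0 < e := lt_min (lt_min (by norm_num) (by positivity)) (lt_min (by positivity) (by positivity))
  have he1 : e ≤ 1 / 4 := (min_le_left _ _).trans (min_le_left _ _)
  have he2 : 2 * C4 * e ≤ η / 16 := by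
    have : e ≤ η / (32 * C4) := (min_le_left _ _).trans (min_le_right _ _)
    calc 2 * C4 * e ≤ 2 * C4 * (η / (32 * C4)) := by gcongr
      _ = η / 16 := by field_simp; norm_num
  have he3 : 5 * C * Real.sqrt e ≤ η / 8 := by
    have : e ≤ (η / (40 * C)) ^ 2 := (min_le_right _ _).trans (min_le_left _ _)
    have h2 : Real.sqrt e ≤ η / (40 * C) := by
      rw [Real.sqrt_le_left (by positivity)]
      exact this
    calc 5 * C * Real.sqrt e ≤ 5 * C * (η / (40 * C)) := by gcongr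
      _ = η / 8 := by field_simp; norm_num
  have he4 : C1 * e ≤ η / 64 := by
    have : e ≤ η / (64 * C1) := (min_le_right _ _).trans (min_le_right _ _)
    calc C1 * e ≤ C1 * (η / (64 * C1)) := by gcongr
      _ = η / 64 := by field_simp
  obtain ⟨Z, hZ, hlind'⟩ := hlind hRH (1 / 2 + e) (η / 16) (by linarith) (by linarith) (by positivity)
  have hlind2 : ∀ t : ℝ, ‖riemannZeta (1 / 2 + e + t * I)‖ ≤ Z * Real.exp (η / 16 * Lg t) ∧
      ‖fz (1 / 2 + e + t * I)‖ ≤ Z * Real.exp (η / 16 * Lg t) := by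
    intro t
    have h := hlind' t
    have e1 : (((1 / 2 + e : ℝ) : ℂ) + t * I) = 1 / 2 + e + t * I := by push_cast; ring
    rw [e1] at h
    have h2 := rpow_Lg (t := t) (δ := η / 16) (by positivity)
    exact ⟨h.1.trans (mul_le_mul_of_nonneg_left h2 hZ.le), h.2.trans (mul_le_mul_of_nonneg_left h2 hZ.le)⟩
  -- the choice of v0
  set v0 : ℝ := min e (η * e / (256 * C1)) with hv0
  have hv00 : 0 < v0 := lt_min he0 (by positivity)
  have hv01 : v0 ≤ e := min_le_left _ _
  have hv03 : 12 * v0 / e * (8 / 3 * C1) ≤ η / 8 := by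
    have : v0 ≤ η * e / (256 * C1) := min_le_right _ _
    calc 12 * v0 / e * (8 / 3 * C1) ≤ 12 * (η * e / (256 * C1)) / e * (8 / 3 * C1) := by gcongr
      _ = η / 8 := by field_simp; norm_num
  set C6 : ℝ := 2 * Real.log Z + 32 * v0 / e + 2 with hC6
  refine ⟨v0, Real.exp C6, hv00, hv01.trans he1, Real.exp_pos _, ?_, ?_⟩
  · intro x v τ β M hx hv hβ hβ2 hM
    obtain ⟨hc0, hc1, hN⟩ := near_all2 (l := |v|) hθ0 hθ1 hC hT0 hS (abs_nonneg v) hβ hM
    have key := caseA2 hmono hRH h1 h4 (t := τ) (v := v) (hx.trans hv01) he0 he1 hβ hβ2 hc0.le hc1 (by linarith)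
      (hlind2 (τ + v)).1 (hlind2 τ).2 hN
    refine key.trans ?_
    have e9 : Real.exp (2 * C4 * e * Lg τ) * Real.exp (2 * C4 * e * Lg (τ + v)) * (Z * Real.exp (η / 16 * Lg (τ + v))) *
        (Z * Real.exp (η / 16 * Lg τ)) *
        Real.exp (M * Real.log (1 + |v| / β) + 5 * C * Real.sqrt |v| * Lg τ + 12 * |v| / e * (8 / 3 * (C1 * Lg τ + 1))) =
        Real.exp (2 * C4 * e * Lg τ + 2 * C4 * e * Lg (τ + v) + (Real.log Z + η / 16 * Lg (τ + v)) + (Real.log Z + η / 16 * Lg τ) +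
          (M * Real.log (1 + |v| / β) + 5 * C * Real.sqrt |v| * Lg τ + 12 * |v| / e * (8 / 3 * (C1 * Lg τ + 1)))) := by
      simp only [Real.exp_add, Real.exp_log hZ]
    rw [e9, ← Real.exp_add, Real.exp_le_exp]
    have hX := one_lt_Lg τ
    have hX2 : Lg (τ + v) ≤ Lg τ + 1 := by
      have h5 := Lg_shift τ v
      have h6 := Real.log_le_sub_one_of_pos (x := 1 + |v|) (by positivity)
      linarith
    have hX3 := one_lt_Lg (τ + v)
    have q1 : 2 * C4 * e * Lg τ ≤ η / 16 * Lg τ := mul_le_mul_of_nonneg_right he2 (by linarith)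
    have q2 : 2 * C4 * e * Lg (τ + v) ≤ η / 16 * (Lg τ + 1) :=
      (mul_le_mul_of_nonneg_right he2 (by linarith)).trans (mul_le_mul_of_nonneg_left hX2 (by positivity))
    have q3 : η / 16 * Lg (τ + v) ≤ η / 16 * (Lg τ + 1) := mul_le_mul_of_nonneg_left hX2 (by positivity)
    have q4 : 5 * C * Real.sqrt |v| * Lg τ ≤ η / 8 * Lg τ := by
      refine mul_le_mul_of_nonneg_right (le_trans ?_ he3) (by linarith)
      exact mul_le_mul_of_nonneg_left (Real.sqrt_le_sqrt (hv.trans hv01)) (by positivity)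
    have q5 : 12 * |v| / e * (8 / 3 * (C1 * Lg τ + 1)) ≤ η / 8 * Lg τ + 32 * v0 / e := by
      calc 12 * |v| / e * (8 / 3 * (C1 * Lg τ + 1)) ≤ 12 * v0 / e * (8 / 3 * (C1 * Lg τ + 1)) := by
            have : 0 ≤ C1 * Lg τ + 1 := by positivity
            gcongr
        _ = 12 * v0 / e * (8 / 3 * C1) * Lg τ + 32 * v0 / e := by ring
        _ ≤ _ := by
          have := mul_le_mul_of_nonneg_right hv03 (by linarith : 0 ≤ Lg τ)
          linarith
    have q7 : 0 ≤ η * Lg τ := by positivity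
    rw [hC6]
    linarith
  · intro b t τ M hb hbe hM
    obtain ⟨hc0, hc1, hN⟩ := near_all2 (l := e) hθ0 hθ1 hC hT0 hS he0.le hb hM
    have key := caseB hmono hRH h1 h4' (t := τ) (t' := t) hb (hbe.trans hv01) he1 hc0.le hc1 (hlind2 t).1 (hlind2 τ).2 hN
    refine key.trans ?_
    have e9 : Real.exp (C4 * e * Lg τ) * Real.exp (C4 * e * Lg t) * (Z * Real.exp (η / 16 * Lg t)) * (Z * Real.exp (η / 16 * Lg τ)) *
        Real.exp (M * Real.log (1 + e / b) + 5 * C * Real.sqrt e * Lg τ + e * (8 / 3 * (C1 * Lg τ + 1))) =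
        Real.exp (C4 * e * Lg τ + C4 * e * Lg t + (Real.log Z + η / 16 * Lg t) + (Real.log Z + η / 16 * Lg τ) +
          (M * Real.log (1 + e / b) + 5 * C * Real.sqrt e * Lg τ + e * (8 / 3 * (C1 * Lg τ + 1)))) := by
      simp only [Real.exp_add, Real.exp_log hZ]
    rw [e9, ← Real.exp_add, Real.exp_le_exp]
    have hX := one_lt_Lg τ
    have hX3 := one_lt_Lg t
    have hM0 : 0 ≤ M := by
      have := hM ∅ (by simp)
      simpa using this
    have q0 : M * Real.log (1 + e / b) ≤ M * Real.log (1 + 1 / b) := by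
      refine mul_le_mul_of_nonneg_left (Real.log_le_log (by positivity) ?_) hM0
      have : e / b ≤ 1 / b := div_le_div_of_nonneg_right (by linarith) hb.le
      linarith
    have q1 : C4 * e * Lg τ ≤ η / 16 * Lg τ := mul_le_mul_of_nonneg_right (by nlinarith [mul_pos hC4 he0]) (by linarith)
    have q2 : C4 * e * Lg t ≤ η / 16 * Lg t := mul_le_mul_of_nonneg_right (by nlinarith [mul_pos hC4 he0]) (by linarith)
    have q4 : 5 * C * Real.sqrt e * Lg τ ≤ η / 8 * Lg τ := mul_le_mul_of_nonneg_right he3 (by linarith)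
    have q5 : e * (8 / 3 * (C1 * Lg τ + 1)) ≤ η / 24 * Lg τ + 1 := by
      have h5 := mul_le_mul_of_nonneg_right he4 (by linarith : 0 ≤ Lg τ)
      nlinarith
    have q7 : 0 ≤ η * Lg τ := by positivity
    have q8 : 0 ≤ η * Lg t := by positivity
    have q9 : 0 ≤ 32 * v0 / e := by positivity
    rw [hC6]
    linarith

end Pool.Agent.N967
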