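import Mathlib
import Pool.Agent.N967.Defs

set_option autoImplicit false

/-!
# The upper bound under the Riemann hypothesis
-/

namespace Pool.Agent.N967

open Complex MeasureTheory Filter Topology
open Pool.Agent.H295R2 (fz)

lemma err_nn (N : ℕ) (a : ℕ → ℂ) : 0 ≤ err N a := by
  unfold err
  refine mul_nonneg (by positivity) (integral_nonneg fun t => ?_)
  unfold ig
  positivity

lemma bdd (N : ℕ) : BddBelow (Set.range (err N)) := ⟨0, by rintro x ⟨a, rfl⟩; exact err_nn N a⟩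

lemma dd_le (N : ℕ) (a : ℕ → ℂ) : dd N ≤ err N a := ciInf_le (bdd N) a

lemma dd_nonneg (N : ℕ) : 0 ≤ dd N := le_ciInf fun a => err_nn N a

/-- the weight is integrable against a small power -/
lemma weight_int {p : ℝ} (hp : 0 ≤ p) (hp1 : p < 1) : Integrable (fun t : ℝ => (1 + |t|) ^ p / (1 / 4 + t ^ 2)) := by
  have h1 : Integrable (fun t : ℝ => (1 + |t|) ^ (-(2 - p))) := by
    have := integrable_one_add_norm (E := ℝ) (μ := volume) (r := 2 - p) (by simp; linarith)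
    simpa using this
  have hc : Continuous (fun t : ℝ => (1 + |t|) ^ p / (1 / 4 + t ^ 2)) := by
    refine Continuous.div ?_ (by fun_prop) (fun t => by positivity)
    exact Continuous.rpow_const (by fun_prop) (fun t => Or.inr hp)
  refine (h1.const_mul 8).mono' hc.aestronglyMeasurable (Eventually.of_forall fun t => ?_)
  rw [Real.norm_eq_abs, abs_of_nonneg (by positivity)]
  have h2 : (1 + |t|) ^ (-(2 - p)) = (1 + |t|) ^ p / (1 + |t|) ^ 2 := by
    rw [neg_sub, Real.rpow_sub (by positivity)]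
    norm_num
  rw [h2, ← mul_div_assoc, div_le_div_iff₀ (by positivity) (by positivity)]
  have h3 : (1 + |t|) ^ 2 ≤ 8 * (1 / 4 + t ^ 2) := by
    have := sq_abs t
    nlinarith [sq_nonneg (|t| - 1), abs_nonneg t, sq_nonneg (|t| - 1/2)]
  have h4 : 0 ≤ (1 + |t|) ^ p := by positivity
  nlinarith

/-- the exponential inequality -/
lemma expo {C ck ε L η δ u : ℝ} (hC : 0 < C) (hε : 0 < ε) (hu : 0 ≤ u) (hu1 : u ≤ 1) (hη : 0 < η) (hη1 : η ≤ 1 / 16)
    (hδ : δ = 16 * η) (hL : L = ε ^ (-(1 + δ))) (hlog : 0 < Real.log L)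
    (h1 : 36 * C ≤ ε ^ (-δ) / 8) (h2 : 36 * C * ε ^ (δ / 2) * Real.log L ≤ ck) :
    C * (1 + u / (ε / 2)) ^ (1 + 8 * η) ≤ ck * (L * u) / Real.log L + L * ε / 8 := by
  have hLε : L * ε = ε ^ (-δ) := by
    rw [hL]
    nth_rewrite 2 [← Real.rpow_one ε]
    rw [← Real.rpow_add hε]
    congr 1; ring
  have hck : 0 ≤ ck := le_trans (by positivity) h2
  have hL0 : 0 < L := by rw [hL]; positivity
  rcases le_or_gt u ε with h | h
  · have h3 : 1 + u / (ε / 2) ≤ 3 := by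
      have : u / (ε / 2) ≤ 2 := by
        rw [div_le_iff₀ (by positivity)]; linarith
      linarith
    have h4 : (1 + u / (ε / 2)) ^ (1 + 8 * η) ≤ 9 := by
      calc (1 + u / (ε / 2)) ^ (1 + 8 * η) ≤ 3 ^ (1 + 8 * η) := by
            have : 0 ≤ u / (ε / 2) := by positivity
            exact Real.rpow_le_rpow (by positivity) h3 (by positivity)
        _ ≤ 3 ^ (2 : ℝ) := Real.rpow_le_rpow_of_exponent_le (by norm_num) (by linarith)
        _ = 9 := by norm_num
    have h5 : 0 ≤ ck * (L * u) / Real.log L := by positivity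
    rw [hLε]
    nlinarith
  · have hu0 : 0 < u := hε.trans h
    have h3 : 1 + u / (ε / 2) ≤ 3 * (u / ε) := by
      have : u / (ε / 2) = 2 * (u / ε) := by field_simp
      rw [this]
      have : 1 ≤ u / ε := by rw [le_div_iff₀ hε]; linarith
      linarith
    have hue : 0 < u / ε := by positivity
    have h4 : (1 + u / (ε / 2)) ^ (1 + 8 * η) ≤ 9 * (u / ε) * ε ^ (-(δ / 2)) := by
      calc (1 + u / (ε / 2)) ^ (1 + 8 * η) ≤ (3 * (u / ε)) ^ (1 + 8 * η) := by
            have : 0 ≤ u / (ε / 2) := by positivity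
            exact Real.rpow_le_rpow (by positivity) h3 (by positivity)
        _ = (3 * (u / ε)) * (3 ^ (8 * η) * (u / ε) ^ (8 * η)) := by
            rw [Real.rpow_add (by positivity), Real.rpow_one, Real.mul_rpow (by norm_num) hue.le]
        _ ≤ (3 * (u / ε)) * (3 * ε ^ (-(δ / 2))) := by
            have h5 : (3 : ℝ) ^ (8 * η) ≤ 3 := by
              calc (3 : ℝ) ^ (8 * η) ≤ 3 ^ (1 : ℝ) := Real.rpow_le_rpow_of_exponent_le (by norm_num) (by linarith)
                _ = 3 := Real.rpow_one _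
            have h6 : (u / ε) ^ (8 * η) ≤ ε ^ (-(δ / 2)) := by
              rw [Real.rpow_neg hε.le, ← Real.inv_rpow hε.le, hδ, show 16 * η / 2 = 8 * η by ring]
              refine Real.rpow_le_rpow hue.le ?_ (by positivity)
              rw [inv_eq_one_div]
              gcongr
            gcongr
        _ = _ := by ring
    have h5 : C * (9 * (u / ε) * ε ^ (-(δ / 2))) ≤ ck * (L * u) / Real.log L := by
      rw [le_div_iff₀ hlog]
      have e1 : L * u = u / ε * ε ^ (-δ) := by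
        rw [← hLε]; field_simp
      have e2 : ε ^ (-(δ / 2)) = ε ^ (δ / 2) * ε ^ (-δ) := by
        rw [← Real.rpow_add hε]; congr 1; ring
      rw [e1]
      have h6 : 0 ≤ u / ε * ε ^ (-δ) := by positivity
      have h7 : 9 * C * ε ^ (δ / 2) * Real.log L ≤ ck := by
        refine le_trans ?_ h2
        have : 0 ≤ C * ε ^ (δ / 2) * Real.log L := by positivity
        nlinarith
      calc C * (9 * (u / ε) * ε ^ (-(δ / 2))) * Real.log L = (9 * C * ε ^ (δ / 2) * Real.log L) * (u / ε * ε ^ (-δ)) := by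
            rw [e2]; ring
        _ ≤ ck * (u / ε * ε ^ (-δ)) := mul_le_mul_of_nonneg_right h7 h6
    have h8 : 0 ≤ L * ε / 8 := by positivity
    calc C * (1 + u / (ε / 2)) ^ (1 + 8 * η) ≤ C * (9 * (u / ε) * ε ^ (-(δ / 2))) := by gcongr
      _ ≤ _ := by linarith

lemma seven_int : Integrable (fun x : ℝ => ((1 + |x|) ^ 7)⁻¹) := by
  have h1 : Integrable (fun t : ℝ => (1 + |t|) ^ (-(7 : ℝ))) := by
    have := integrable_one_add_norm (E := ℝ) (μ := volume) (r := 7) (by simp)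
    simpa using this
  refine h1.congr (Eventually.of_forall fun t => ?_)
  simp only
  rw [Real.rpow_neg (by positivity)]
  congr 1
  exact_mod_cast Real.rpow_natCast (1 + |t|) 7

/-- the second error, pointwise -/
lemma second {η C : ℝ} (hη : 0 < η) (hη1 : η ≤ 1 / 16) (hC : 0 < C) {b0 : ℝ}
    (hr : ∀ b t v : ℝ, 0 < b → b ≤ b0 → ‖riemannZeta (1 / 2 + t * I)‖ * ‖fz (1 / 2 + b + (t - v) * I)‖ ≤
      C * b ^ (-C) * (1 + |v|) * (1 + |t|) ^ ((1 - η) / 2) * Real.exp (C * (1 + min |v| 1 / b) ^ (1 + 8 * η)))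
    {ck Ck L ε δ : ℝ} {m : ℂ → ℂ} (hCk : 0 < Ck)
    (hm : ∀ z : ℂ, 0 ≤ z.re → ‖m z‖ ≤ Ck * Real.exp (-(z.re / 2)) * KL ck L z.im)
    (hε : 0 < ε) (hεb : ε / 2 ≤ b0) (hδ : δ = 16 * η) (hL : L = ε ^ (-(1 + δ))) (hlog : 0 < Real.log L)
    (h1 : 36 * C ≤ ε ^ (-δ) / 8) (h2 : 36 * C * ε ^ (δ / 2) * Real.log L ≤ ck) (t : ℝ) :
    ‖riemannZeta (1 / 2 + t * I)‖ * ‖1 / (2 * Real.pi) * ∫ y : ℝ, m (((L * ε / 2 : ℝ) : ℂ) + y * I) / (((L * ε / 2 : ℝ) : ℂ) + y * I) *
        fz (1 / 2 + ε + t * I - (((L * ε / 2 : ℝ) : ℂ) + y * I) / L)‖ ≤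
      (2 * Ck * C * (∫ x : ℝ, ((1 + |x|) ^ 7)⁻¹) * (1 / ε) * (ε / 2) ^ (-C) * Real.exp (-(ε ^ (-δ)) / 8)) * (1 + |t|) ^ ((1 - η) / 2) := by
  have hL0 : 0 < L := by rw [hL]; positivity
  have hLε : L * ε = ε ^ (-δ) := by
    rw [hL]
    nth_rewrite 2 [← Real.rpow_one ε]
    rw [← Real.rpow_add hε]
    congr 1; ring
  set c : ℝ := L * ε / 2 with hc
  have hc0 : 0 < c := by positivity
  set z : ℝ → ℂ := fun y => ((c : ℝ) : ℂ) + y * I with hz
  have hzre : ∀ y, (z y).re = c := fun y => by simp [hz]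
  have hzim : ∀ y, (z y).im = y := fun y => by simp [hz]
  have hI7 : 0 ≤ ∫ x : ℝ, ((1 + |x|) ^ 7)⁻¹ := integral_nonneg fun x => by positivity
  -- pointwise
  have hpt : ∀ y : ℝ, ‖riemannZeta (1 / 2 + t * I)‖ * ‖m (z y) / (z y) * fz (1 / 2 + ε + t * I - (z y) / L)‖ ≤
      (Ck * (1 / c) * (C * (ε / 2) ^ (-C) * (1 + |t|) ^ ((1 - η) / 2)) * Real.exp (-(L * ε / 8))) * ((1 + |y / L|) ^ 7)⁻¹ := by
    intro y
    have e1 : (1 / 2 + ε + t * I - (z y) / L : ℂ) = 1 / 2 + ((ε / 2 : ℝ) : ℂ) + (t - ((y / L : ℝ) : ℂ)) * I := by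
      have hLc : (L : ℂ) ≠ 0 := by exact_mod_cast hL0.ne'
      simp only [hz, hc]
      push_cast
      field_simp
      ring
    have e2 := hr (ε / 2) t (y / L) (by positivity) hεb
    rw [e1, norm_mul, norm_div]
    have h3 := hm (z y) (by rw [hzre]; exact hc0.le)
    rw [hzre, hzim] at h3
    have h4 : c ≤ ‖z y‖ := by
      have := Complex.abs_re_le_norm (z y)
      rw [hzre, abs_of_pos hc0] at this
      exact this
    have habs : |y / L| = |y| / L := by rw [abs_div, abs_of_pos hL0]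
    set u := min |y / L| 1 with hu
    have hu0 : 0 ≤ u := le_min (abs_nonneg _) zero_le_one
    have hu1 : u ≤ 1 := min_le_right _ _
    have hLu : L * u = min |y| L := by
      rw [hu, habs, mul_min_of_nonneg _ _ hL0.le, mul_one]
      congr 1
      field_simp
    have h5 := expo (ck := ck) hC hε hu0 hu1 hη hη1 hδ hL hlog h1 h2
    rw [hLu] at h5
    have h6 : ‖m (z y)‖ / ‖z y‖ ≤ Ck * Real.exp (-(c / 2)) * KL ck L y * (1 / c) := by
      rw [mul_one_div]
      exact div_le_div₀ (by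
        have : 0 ≤ KL ck L y := by unfold KL; positivity
        positivity) h3 hc0 h4
    have hKL : KL ck L y = Real.exp (-(ck * min |y| L / Real.log L)) * ((1 + |y / L|) ^ 8)⁻¹ := by
      unfold KL
      rw [habs, div_eq_mul_inv]
    have hKL0 : 0 ≤ KL ck L y := by unfold KL; positivity
    calc ‖riemannZeta (1 / 2 + t * I)‖ * (‖m (z y)‖ / ‖z y‖ * ‖fz (1 / 2 + ((ε / 2 : ℝ) : ℂ) + (t - ((y / L : ℝ) : ℂ)) * I)‖)
        = (‖m (z y)‖ / ‖z y‖) * (‖riemannZeta (1 / 2 + t * I)‖ * ‖fz (1 / 2 + ((ε / 2 : ℝ) : ℂ) + (t - ((y / L : ℝ) : ℂ)) * I)‖) := by ring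
      _ ≤ (Ck * Real.exp (-(c / 2)) * KL ck L y * (1 / c)) *
          (C * (ε / 2) ^ (-C) * (1 + |y / L|) * (1 + |t|) ^ ((1 - η) / 2) * Real.exp (C * (1 + u / (ε / 2)) ^ (1 + 8 * η))) := by
          gcongr
      _ ≤ (Ck * Real.exp (-(c / 2)) * KL ck L y * (1 / c)) *
          (C * (ε / 2) ^ (-C) * (1 + |y / L|) * (1 + |t|) ^ ((1 - η) / 2) * Real.exp (ck * min |y| L / Real.log L + L * ε / 8)) := by
          gcongr
      _ = _ := by
          rw [hKL]
          have e3 : Real.exp (-(c / 2)) * Real.exp (-(ck * min |y| L / Real.log L)) * Real.exp (ck * min |y| L / Real.log L + L * ε / 8) =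
              Real.exp (-(L * ε / 8)) := by
            rw [← Real.exp_add, ← Real.exp_add]
            congr 1
            rw [hc]; ring
          have e4 : ((1 + |y / L|) ^ 8)⁻¹ * (1 + |y / L|) = ((1 + |y / L|) ^ 7)⁻¹ := by
            have : (1 + |y / L|) ≠ 0 := by positivity
            field_simp
          rw [← e3, ← e4]
          ring
  have hint7 : Integrable (fun y : ℝ => ((1 + |y / L|) ^ 7)⁻¹) := seven_int.comp_div hL0.ne'
  have hI : ∫ y : ℝ, ((1 + |y / L|) ^ 7)⁻¹ = L * ∫ x : ℝ, ((1 + |x|) ^ 7)⁻¹ := by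
    have := Measure.integral_comp_div (fun x : ℝ => ((1 + |x|) ^ 7)⁻¹) L
    rw [this, abs_of_pos hL0, smul_eq_mul]
  have h7 : ‖riemannZeta (1 / 2 + t * I)‖ * ‖∫ y : ℝ, m (z y) / (z y) * fz (1 / 2 + ε + t * I - (z y) / L)‖ ≤
      (Ck * (1 / c) * (C * (ε / 2) ^ (-C) * (1 + |t|) ^ ((1 - η) / 2)) * Real.exp (-(L * ε / 8))) * (L * ∫ x : ℝ, ((1 + |x|) ^ 7)⁻¹) := by
    rw [← hI, ← integral_const_mul]
    calc ‖riemannZeta (1 / 2 + t * I)‖ * ‖∫ y : ℝ, m (z y) / (z y) * fz (1 / 2 + ε + t * I - (z y) / L)‖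
        ≤ ‖riemannZeta (1 / 2 + t * I)‖ * ∫ y : ℝ, ‖m (z y) / (z y) * fz (1 / 2 + ε + t * I - (z y) / L)‖ := by
          gcongr
          exact norm_integral_le_integral_norm _
      _ = ∫ y : ℝ, ‖riemannZeta (1 / 2 + t * I)‖ * ‖m (z y) / (z y) * fz (1 / 2 + ε + t * I - (z y) / L)‖ := by
          rw [integral_const_mul]
      _ ≤ _ := by
          refine integral_mono_of_nonneg (Eventually.of_forall fun y => by positivity) (hint7.const_mul _)
            (Eventually.of_forall hpt)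
  have hpi : ‖(1 / (2 * Real.pi) : ℂ)‖ ≤ 1 := by
    have e5 : (1 / (2 * Real.pi) : ℂ) = ((1 / (2 * Real.pi) : ℝ) : ℂ) := by push_cast; rfl
    rw [e5, Complex.norm_real, Real.norm_eq_abs, abs_of_nonneg (by positivity), div_le_one (by positivity)]
    linarith [Real.pi_gt_three]
  rw [norm_mul]
  calc ‖riemannZeta (1 / 2 + t * I)‖ * (‖(1 / (2 * Real.pi) : ℂ)‖ * ‖∫ y : ℝ, m (z y) / (z y) * fz (1 / 2 + ε + t * I - (z y) / L)‖)
      ≤ ‖riemannZeta (1 / 2 + t * I)‖ * (1 * ‖∫ y : ℝ, m (z y) / (z y) * fz (1 / 2 + ε + t * I - (z y) / L)‖) := by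
        gcongr
    _ = ‖riemannZeta (1 / 2 + t * I)‖ * ‖∫ y : ℝ, m (z y) / (z y) * fz (1 / 2 + ε + t * I - (z y) / L)‖ := by rw [one_mul]
    _ ≤ _ := h7
    _ = _ := by
        have e6 : -(L * ε / 8) = -(ε ^ (-δ)) / 8 := by rw [hLε]; ring
        rw [e6, hc]
        field_simp

end Pool.Agent.N967
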