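import Mathlib
import Pool.Agent.N967.Stm2
import Pool.Agent.N967.App
import Pool.Agent.N967.LowA
import Pool.Agent.N967.Upper

set_option autoImplicit false

/-!
# The upper bound of the right order of magnitude for Baez-Duarte's distance: the final assembly
-/

namespace Pool.Agent.N967

open Complex MeasureTheory Filter Topology
open Pool.Agent.H295R2 (fz)

namespace U3

/-- stretched exponential decay beats the powers -/
lemma dec {c : ℝ} (hc : 0 < c) : ∃ B : ℝ, 0 < B ∧ ∀ u : ℝ, 0 ≤ u →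
    Real.exp (-(c * u ^ (19 / 20 : ℝ))) ≤ B / (1 + u) ^ 8 := by
  refine ⟨2 ^ 8 * (1 + (Nat.factorial 9 : ℝ) / c ^ 9), by positivity, fun u hu => ?_⟩
  set x : ℝ := c * u ^ (19 / 20 : ℝ) with hx
  have hx0 : 0 ≤ x := by positivity
  have h1 : x ^ 9 / (Nat.factorial 9 : ℝ) ≤ Real.exp x := Real.pow_div_factorial_le_exp x hx0 9
  have h2 : (1 : ℝ) ≤ Real.exp x := Real.one_le_exp hx0
  rw [Real.exp_neg, ← one_div, div_le_div_iff₀ (Real.exp_pos _) (by positivity), one_mul]
  have h0 : 0 ≤ (Nat.factorial 9 : ℝ) / c ^ 9 := by positivity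
  rcases le_total u 1 with h | h
  · calc (1 + u) ^ 8 ≤ 2 ^ 8 := by gcongr; linarith
      _ = 2 ^ 8 * (1 + 0) * 1 := by ring
      _ ≤ 2 ^ 8 * (1 + (Nat.factorial 9 : ℝ) / c ^ 9) * Real.exp x := by gcongr
  · have h3 : u ^ 8 ≤ (u ^ (19 / 20 : ℝ)) ^ 9 := by
      rw [← Real.rpow_natCast (u ^ (19 / 20 : ℝ)) 9, ← Real.rpow_mul hu, ← Real.rpow_natCast u 8]
      exact Real.rpow_le_rpow_of_exponent_le h (by norm_num)
    have h4 : (u ^ (19 / 20 : ℝ)) ^ 9 = x ^ 9 / c ^ 9 := by
      rw [hx, mul_pow]; field_simp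
    have h5 : x ^ 9 ≤ (Nat.factorial 9 : ℝ) * Real.exp x := by
      rw [div_le_iff₀ (by positivity)] at h1
      linarith
    calc (1 + u) ^ 8 ≤ (2 * u) ^ 8 := by gcongr; linarith
      _ = 2 ^ 8 * u ^ 8 := by ring
      _ ≤ 2 ^ 8 * (x ^ 9 / c ^ 9) := by rw [← h4]; gcongr
      _ ≤ 2 ^ 8 * (((Nat.factorial 9 : ℝ) * Real.exp x) / c ^ 9) := by gcongr
      _ = 2 ^ 8 * ((Nat.factorial 9 : ℝ) / c ^ 9) * Real.exp x := by ring
      _ ≤ 2 ^ 8 * (1 + (Nat.factorial 9 : ℝ) / c ^ 9) * Real.exp x := by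
          gcongr
          linarith

/-- comparison of the two exponents -/
lemma mix {c C : ℝ} (hc : 0 < c) (hC : 0 < C) : ∃ D : ℝ, 0 < D ∧ ∀ u : ℝ, 0 ≤ u →
    C * (1 + u) ^ (9 / 10 : ℝ) ≤ D + c / 2 * u ^ (19 / 20 : ℝ) := by
  set u0 : ℝ := max 1 ((4 * C / c) ^ 20) with hu0
  have hu01 : 1 ≤ u0 := le_max_left _ _
  refine ⟨C * (1 + u0), by positivity, fun u hu => ?_⟩
  rcases le_total u u0 with h | h
  · have h1 : (1 + u) ^ (9 / 10 : ℝ) ≤ 1 + u0 := by
      calc (1 + u) ^ (9 / 10 : ℝ) ≤ (1 + u) ^ (1 : ℝ) :=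
            Real.rpow_le_rpow_of_exponent_le (by linarith) (by norm_num)
        _ = 1 + u := Real.rpow_one _
        _ ≤ 1 + u0 := by linarith
    have h2 : 0 ≤ c / 2 * u ^ (19 / 20 : ℝ) := by positivity
    have h3 : C * (1 + u) ^ (9 / 10 : ℝ) ≤ C * (1 + u0) := by gcongr
    linarith
  · have hu1 : 1 ≤ u := hu01.trans h
    have hup : 0 < u := by linarith
    have h1 : (1 + u) ^ (9 / 10 : ℝ) ≤ 2 * u ^ (9 / 10 : ℝ) := by
      calc (1 + u) ^ (9 / 10 : ℝ) ≤ (2 * u) ^ (9 / 10 : ℝ) :=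
            Real.rpow_le_rpow (by linarith) (by linarith) (by norm_num)
        _ = 2 ^ (9 / 10 : ℝ) * u ^ (9 / 10 : ℝ) := Real.mul_rpow (by norm_num) hup.le
        _ ≤ 2 ^ (1 : ℝ) * u ^ (9 / 10 : ℝ) := by
            gcongr
            · norm_num
            · norm_num
        _ = 2 * u ^ (9 / 10 : ℝ) := by rw [Real.rpow_one]
    have h2 : 4 * C / c ≤ u ^ (1 / 20 : ℝ) := by
      have h3 : (4 * C / c) ^ 20 ≤ u := (le_max_right _ _).trans h
      have h4 : ((4 * C / c) ^ 20) ^ (1 / 20 : ℝ) = 4 * C / c := by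
        rw [← Real.rpow_natCast (4 * C / c) 20, ← Real.rpow_mul (by positivity)]
        norm_num
      rw [← h4]
      exact Real.rpow_le_rpow (by positivity) h3 (by norm_num)
    have h5 : u ^ (19 / 20 : ℝ) = u ^ (9 / 10 : ℝ) * u ^ (1 / 20 : ℝ) := by
      rw [← Real.rpow_add hup]; norm_num
    have h6 : 2 * C * u ^ (9 / 10 : ℝ) ≤ c / 2 * u ^ (19 / 20 : ℝ) := by
      rw [h5]
      have h7 : 0 < u ^ (9 / 10 : ℝ) := by positivity
      rw [div_le_iff₀ hc] at h2
      nlinarith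
    have h8 : 0 ≤ C * (1 + u0) := by positivity
    calc C * (1 + u) ^ (9 / 10 : ℝ) ≤ C * (2 * u ^ (9 / 10 : ℝ)) := by gcongr
      _ = 2 * C * u ^ (9 / 10 : ℝ) := by ring
      _ ≤ _ := by linarith

lemma eight_int : Integrable (fun x : ℝ => 1 / (1 + |x|) ^ 8) := by
  have h1 : Integrable (fun t : ℝ => (1 + |t|) ^ (-(8 : ℝ))) := by
    have := integrable_one_add_norm (E := ℝ) (μ := volume) (r := 8) (by simp)
    simpa using this
  refine h1.congr (Eventually.of_forall fun t => ?_)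
  simp only
  rw [Real.rpow_neg (by positivity), one_div]
  congr 1
  exact_mod_cast Real.rpow_natCast (1 + |t|) 8

/-- Cauchy-Schwarz with a weight -/
lemma csE {G H : ℝ → ENNReal} (hG : Measurable G) (hH : Measurable H) :
    (∫⁻ y, G y * H y) ^ 2 ≤ (∫⁻ y, G y) * ∫⁻ y, G y * H y ^ 2 := by
  have h1 := ENNReal.lintegral_mul_le_Lp_mul_Lq volume (p := 2) (q := 2) Real.HolderConjugate.two_two
    (f := fun y => G y ^ (1 / 2 : ℝ)) (g := fun y => G y ^ (1 / 2 : ℝ) * H y)
    (hG.pow_const _).aemeasurable ((hG.pow_const _).mul hH).aemeasurable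
  have e0 : ∀ x : ENNReal, x ^ (1 / 2 : ℝ) * x ^ (1 / 2 : ℝ) = x := by
    intro x
    rw [← ENNReal.rpow_add_of_nonneg _ _ (by norm_num) (by norm_num)]
    norm_num
  have e1 : ∀ x : ENNReal, (x ^ (1 / 2 : ℝ)) ^ (2 : ℝ) = x := by
    intro x
    rw [← ENNReal.rpow_mul]
    norm_num
  have e2 : ∀ y, ((fun y => G y ^ (1 / 2 : ℝ)) * fun y => G y ^ (1 / 2 : ℝ) * H y) y = G y * H y := by
    intro y
    simp only [Pi.mul_apply]
    rw [← mul_assoc, e0]
  have e3 : ∀ y, (G y ^ (1 / 2 : ℝ) * H y) ^ (2 : ℝ) = G y * H y ^ 2 := by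
    intro y
    rw [ENNReal.mul_rpow_of_nonneg _ _ (by norm_num), e1]
    congr 1
    exact_mod_cast ENNReal.rpow_natCast (H y) 2
  simp_rw [e2, e1, e3] at h1
  calc (∫⁻ y, G y * H y) ^ 2 ≤ ((∫⁻ y, G y) ^ (1 / 2 : ℝ) * (∫⁻ y, G y * H y ^ 2) ^ (1 / 2 : ℝ)) ^ 2 := by
        gcongr
    _ = _ := by
        rw [mul_pow]
        have e4 : ∀ x : ENNReal, (x ^ (1 / 2 : ℝ)) ^ 2 = x := by
          intro x
          have := e1 x
          rwa [show (2 : ℝ) = ((2 : ℕ) : ℝ) by norm_num, ENNReal.rpow_natCast] at this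
        rw [e4, e4]

lemma zeta_cont : Continuous fun t : ℝ => riemannZeta (1 / 2 + t * I) := by
  rw [continuous_iff_continuousAt]
  intro t
  have h2 : ContinuousAt riemannZeta (1 / 2 + t * I) :=
    (differentiableAt_riemannZeta (half_ne_one t)).continuousAt
  exact ContinuousAt.comp (f := fun t : ℝ => (1 / 2 : ℂ) + t * I) h2 (by fun_prop)

lemma fz_cont (h : RiemannHypothesis) {b : ℝ} (hb : 0 < b) :
    Continuous fun u : ℝ => fz (1 / 2 + b + (u : ℂ) * I) := by
  rw [continuous_iff_continuousAt]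
  intro t
  have h2 : ContinuousAt fz (1 / 2 + b + (t : ℂ) * I) := by
    refine (Pool.Agent.H295R2.fz_differentiableAt (AppAux.Zs_ne_zero_of_rh h ?_)).continuousAt
    simp
    exact hb
  exact ContinuousAt.comp (f := fun u : ℝ => (1 / 2 : ℂ) + b + (u : ℂ) * I) h2 (by fun_prop)

lemma Fr_cont (h : RiemannHypothesis) {b : ℝ} (hb : 0 < b) :
    Continuous fun p : ℝ × ℝ => Fr b p.2 p.1 := by
  unfold Fr
  exact (zeta_cont.comp continuous_fst).mul ((fz_cont h hb).comp (continuous_fst.add continuous_snd))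

end U3

open U3 in
theorem upper3 (hk : S_kern2) (ha : S_app2) (hd : S_dev) : S_upper2 := by
  intro hRH
  obtain ⟨c, Ck, hc, hCk, m, hm0, hm1, hm2, hm3⟩ := hk
  obtain ⟨C, b0, hC, hb0, hb01, hdev⟩ := hd hRH
  obtain ⟨B1, hB1, hdec1⟩ := dec hc
  obtain ⟨B2, hB2, hdec2⟩ := dec (half_pos hc)
  obtain ⟨D, hD, hmix⟩ := mix hc hC
  -- the constants
  set A : ℝ := 2 * (Ck * Real.exp (1 / 2)) with hA
  have hA0 : 0 < A := by positivity
  set J : ℝ := ∫ x : ℝ, 1 / (1 + |x|) ^ 8 with hJ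
  have hJ0 : 0 ≤ J := integral_nonneg fun x => by positivity
  set K : ℝ := (A * B1 * J) * (A * C * Real.exp D * B2 * J) with hK
  have hK0 : 0 ≤ K := by positivity
  -- the kernel
  set g : ℝ → ℂ := fun y => m (-(1 / 2) + y * I) / (-(1 / 2) + y * I) with hg
  have hden : ∀ y : ℝ, (-(1 / 2) + y * I : ℂ) ≠ 0 := by
    intro y h
    have := congrArg Complex.re h
    simp at this
  have hgc : Continuous g := by
    simp only [hg]
    refine Continuous.div ?_ (by fun_prop) hden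
    exact hm0.continuous.comp (by fun_prop)
  have hgn : ∀ y : ℝ, ‖g y‖ ≤ A * Real.exp (-(c * |y| ^ (19 / 20 : ℝ))) := by
    intro y
    have h1 := hm3 (-(1 / 2) + y * I) (by simp)
    have e1 : (-(1 / 2) + y * I : ℂ).re = -(1 / 2) := by simp
    have e2 : (-(1 / 2) + y * I : ℂ).im = y := by simp
    rw [e1, e2, neg_neg] at h1
    have h2 : 1 / 2 ≤ ‖(-(1 / 2) + y * I : ℂ)‖ := by
      have := Complex.abs_re_le_norm (-(1 / 2) + y * I : ℂ)
      rw [e1, abs_neg, abs_of_pos (by norm_num)] at this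
      exact this
    simp only [hg]
    rw [norm_div]
    calc ‖m (-(1 / 2) + y * I)‖ / ‖(-(1 / 2) + y * I : ℂ)‖
        ≤ (Ck * Real.exp (1 / 2) * Real.exp (-(c * |y| ^ (19 / 20 : ℝ)))) / (1 / 2) := by gcongr
      _ = _ := by rw [hA]; ring
  have hgn8 : ∀ y : ℝ, ‖g y‖ ≤ A * B1 * (1 / (1 + |y|) ^ 8) := by
    intro y
    refine (hgn y).trans ?_
    have := hdec1 |y| (abs_nonneg y)
    calc A * Real.exp (-(c * |y| ^ (19 / 20 : ℝ))) ≤ A * (B1 / (1 + |y|) ^ 8) := by gcongr
      _ = _ := by ring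
  have hgint : Integrable g :=
    (eight_int.const_mul (A * B1)).mono' hgc.aestronglyMeasurable (Eventually.of_forall hgn8)
  have hG1 : ∫⁻ y, ‖g y‖ₑ ≤ ENNReal.ofReal (A * B1 * J) := by
    rw [hJ, ← integral_const_mul, ofReal_integral_eq_lintegral_ofReal (eight_int.const_mul _)
      (Eventually.of_forall fun y => by positivity)]
    refine lintegral_mono fun y => ?_
    rw [← ofReal_norm]
    exact ENNReal.ofReal_le_ofReal (hgn8 y)
  -- the main estimate
  have main : ∀ L : ℝ, 2 ≤ L → 1 / b0 ≤ L → ∀ N : ℕ, L ≤ Real.log (N + 1) → dd N ≤ K / L := by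
    intro L hL hLb N hN
    have hL0 : 0 < L := by linarith
    set b : ℝ := 1 / L with hb
    have hbp : 0 < b := by positivity
    have hbb0 : b ≤ b0 := by
      rw [hb, div_le_iff₀ hL0]
      rw [div_le_iff₀ hb0] at hLb
      linarith
    -- the coefficients
    have hBz : ∀ y : ℝ, Real.exp (-(c * |y| ^ (19 / 20 : ℝ))) ≤ B1 / (1 + |y|) ^ 8 :=
      fun y => hdec1 |y| (abs_nonneg y)
    obtain ⟨hone, happ⟩ := ha hRH (Ck * B1) m hm0 hm1 (fun z hz => by
        refine (hm2 z hz).trans ?_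
        rw [mul_div_assoc]
        have := hBz z.im
        gcongr) (fun z hz => by
        refine (hm3 z hz).trans ?_
        calc Ck * Real.exp (-z.re) * Real.exp (-(c * |z.im| ^ (19 / 20 : ℝ)))
            ≤ Ck * Real.exp (-z.re) * (B1 / (1 + |z.im|) ^ 8) := by
              have := hBz z.im
              gcongr
          _ = _ := by ring)
    obtain ⟨a, ha'⟩ := happ L hL N hN
    refine (dd_le N a).trans ?_
    -- integrability
    obtain ⟨Cf, hCf, hfz⟩ := AppAux.fz_bound_rh hRH (σ := 1 / 2 + b) (by linarith)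
    have hgf : ∀ t : ℝ, Integrable (fun y : ℝ => g y * fz (1 / 2 + (b : ℂ) + ((t - y / L : ℝ) : ℂ) * I)) := by
      intro t
      have hcont : Continuous (fun y : ℝ => g y * fz (1 / 2 + (b : ℂ) + ((t - y / L : ℝ) : ℂ) * I)) :=
        hgc.mul ((fz_cont hRH hbp).comp (f := fun y : ℝ => t - y / L) (by fun_prop))
      refine ((seven_int).const_mul (A * B1 * (Cf * (1 + |t|)))).mono' hcont.aestronglyMeasurable
        (Eventually.of_forall fun y => ?_)
      have h1 := hfz (1 / 2 + (b : ℂ) + ((t - y / L : ℝ) : ℂ) * I) (by simp)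
      have e1 : (1 / 2 + (b : ℂ) + ((t - y / L : ℝ) : ℂ) * I).im = t - y / L := by simp
      rw [e1] at h1
      have h2 : 1 + |t - y / L| ≤ (1 + |t|) * (1 + |y|) := by
        have q1 : |t - y / L| ≤ |t| + |y / L| := abs_sub _ _
        have q2 : |y / L| ≤ |y| := by
          rw [abs_div, abs_of_pos hL0]
          exact div_le_self (abs_nonneg _) (by linarith)
        nlinarith [abs_nonneg t, abs_nonneg y]
      rw [norm_mul]
      calc ‖g y‖ * ‖fz (1 / 2 + (b : ℂ) + ((t - y / L : ℝ) : ℂ) * I)‖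
          ≤ (A * B1 * (1 / (1 + |y|) ^ 8)) * (Cf * ((1 + |t|) * (1 + |y|))) := by
            have := hgn8 y
            have h3 : Cf * (1 + |t - y / L|) ≤ Cf * ((1 + |t|) * (1 + |y|)) := by gcongr
            have h4 := h1.trans h3
            gcongr
        _ = _ := by
            have : (1 + |y|) ≠ 0 := by positivity
            field_simp
    -- the identity
    have hid : ∀ t : ℝ, 1 - riemannZeta (1 / 2 + t * I) * DP N a (1 / 2 + t * I) =
        -(1 / (2 * Real.pi)) * ∫ y : ℝ, g y * (1 - Fr b (-(y / L)) t) := by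
      intro t
      have hpi : (Real.pi : ℂ) ≠ 0 := by exact_mod_cast Real.pi_ne_zero
      have e1 : ∀ y : ℝ, g y * (1 - Fr b (-(y / L)) t) =
          g y - riemannZeta (1 / 2 + t * I) * (g y * fz (1 / 2 + (b : ℂ) + ((t - y / L : ℝ) : ℂ) * I)) := by
        intro y
        unfold Fr
        rw [← sub_eq_add_neg]
        ring
      simp_rw [e1]
      rw [integral_sub hgint ((hgf t).const_mul _), integral_const_mul, ha' t]
      have e2 : (∫ y : ℝ, g y) = -(2 * Real.pi) := hone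
      rw [e2]
      have e3 : (∫ y : ℝ, m (-(1 / 2) + y * I) / (-(1 / 2) + y * I) *
        fz (1 / 2 + ((1 / L : ℝ) : ℂ) + ((t - y / L : ℝ) : ℂ) * I)) =
          ∫ y : ℝ, g y * fz (1 / 2 + (b : ℂ) + ((t - y / L : ℝ) : ℂ) * I) := rfl
      rw [e3]
      generalize (∫ y : ℝ, g y * fz (1 / 2 + (b : ℂ) + ((t - y / L : ℝ) : ℂ) * I)) = Q
      field_simp
      ring
    -- measurability
    have hFc : Continuous fun p : ℝ × ℝ => Fr b (-(p.2 / L)) p.1 :=
      (Fr_cont hRH hbp).comp (f := fun p : ℝ × ℝ => (p.1, -(p.2 / L))) (by fun_prop)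
    set w : ℝ → ENNReal := fun t => ENNReal.ofReal ((1 / 4 + t ^ 2)⁻¹) with hw
    have hwc : Measurable w := by
      refine ENNReal.measurable_ofReal.comp ?_
      exact (by fun_prop : Continuous fun t : ℝ => (1 / 4 + t ^ 2)).measurable.inv
    have hHm : ∀ t : ℝ, Measurable fun y : ℝ => ‖1 - Fr b (-(y / L)) t‖ₑ := by
      intro t
      have : Continuous fun y : ℝ => (1 : ℂ) - Fr b (-(y / L)) t :=
        continuous_const.sub (hFc.comp (f := fun y : ℝ => (t, y)) (by fun_prop))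
      exact this.measurable.enorm
    -- the pointwise estimate
    have hpi1 : ‖(-(1 / (2 * Real.pi)) : ℂ)‖ₑ ≤ 1 := by
      have e5 : (-(1 / (2 * Real.pi)) : ℂ) = ((-(1 / (2 * Real.pi)) : ℝ) : ℂ) := by push_cast; rfl
      rw [e5, ← ofReal_norm, Complex.norm_real, norm_neg, Real.norm_eq_abs, abs_of_nonneg (by positivity)]
      refine ENNReal.ofReal_le_one.2 ?_
      rw [div_le_one (by positivity)]
      linarith [Real.pi_gt_three]
    have hpt : ∀ t : ℝ, ENNReal.ofReal (ig N a t) ≤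
        (∫⁻ y, ‖g y‖ₑ) * ∫⁻ y, ‖g y‖ₑ * ENNReal.ofReal (‖1 - Fr b (-(y / L)) t‖ ^ 2 / (1 / 4 + t ^ 2)) := by
      intro t
      have e1 : ENNReal.ofReal (ig N a t) = ‖1 - riemannZeta (1 / 2 + t * I) * DP N a (1 / 2 + t * I)‖ₑ ^ 2 * w t := by
        unfold ig
        rw [div_eq_mul_inv, ENNReal.ofReal_mul (by positivity), ENNReal.ofReal_pow (norm_nonneg _),
          ofReal_norm]
      have e2 : ∀ y : ℝ, ENNReal.ofReal (‖1 - Fr b (-(y / L)) t‖ ^ 2 / (1 / 4 + t ^ 2)) =
          ‖1 - Fr b (-(y / L)) t‖ₑ ^ 2 * w t := by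
        intro y
        rw [div_eq_mul_inv, ENNReal.ofReal_mul (by positivity), ENNReal.ofReal_pow (norm_nonneg _),
          ofReal_norm]
      have h1 : ‖1 - riemannZeta (1 / 2 + t * I) * DP N a (1 / 2 + t * I)‖ₑ ≤
          ∫⁻ y, ‖g y‖ₑ * ‖1 - Fr b (-(y / L)) t‖ₑ := by
        rw [hid t, enorm_mul]
        calc ‖(-(1 / (2 * Real.pi)) : ℂ)‖ₑ * ‖∫ y : ℝ, g y * (1 - Fr b (-(y / L)) t)‖ₑ
            ≤ 1 * ∫⁻ y : ℝ, ‖g y * (1 - Fr b (-(y / L)) t)‖ₑ := by
              gcongr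
              exact enorm_integral_le_lintegral_enorm _
          _ = _ := by
              rw [one_mul]
              refine lintegral_congr fun y => ?_
              rw [enorm_mul]
      rw [e1]
      simp_rw [e2]
      calc ‖1 - riemannZeta (1 / 2 + t * I) * DP N a (1 / 2 + t * I)‖ₑ ^ 2 * w t
          ≤ (∫⁻ y, ‖g y‖ₑ * ‖1 - Fr b (-(y / L)) t‖ₑ) ^ 2 * w t := by gcongr
        _ ≤ ((∫⁻ y, ‖g y‖ₑ) * ∫⁻ y, ‖g y‖ₑ * ‖1 - Fr b (-(y / L)) t‖ₑ ^ 2) * w t := by
            gcongr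
            exact csE hgc.measurable.enorm (hHm t)
        _ = _ := by
            rw [mul_assoc, ← lintegral_mul_const' _ _ ENNReal.ofReal_ne_top]
            congr 1
            refine lintegral_congr fun y => ?_
            rw [mul_assoc]
    -- the double integral
    have hjoint : AEMeasurable (Function.uncurry fun (t y : ℝ) => ‖g y‖ₑ *
        ENNReal.ofReal (‖1 - Fr b (-(y / L)) t‖ ^ 2 / (1 / 4 + t ^ 2))) (volume.prod volume) := by
      refine Measurable.aemeasurable ?_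
      refine (hgc.measurable.enorm.comp measurable_snd).mul (ENNReal.measurable_ofReal.comp ?_)
      have : Continuous fun p : ℝ × ℝ => ‖1 - Fr b (-(p.2 / L)) p.1‖ ^ 2 / (1 / 4 + p.1 ^ 2) := by
        refine Continuous.div ((continuous_const.sub hFc).norm.pow 2) (by fun_prop) fun p => ?_
        positivity
      exact this.measurable
    have hdbl : ∫⁻ t, ENNReal.ofReal (ig N a t) ≤ ENNReal.ofReal (K * b) := by
      calc ∫⁻ t, ENNReal.ofReal (ig N a t)
          ≤ ∫⁻ t, (∫⁻ y, ‖g y‖ₑ) * ∫⁻ y, ‖g y‖ₑ * ENNReal.ofReal (‖1 - Fr b (-(y / L)) t‖ ^ 2 / (1 / 4 + t ^ 2)) :=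
            lintegral_mono hpt
        _ = (∫⁻ y, ‖g y‖ₑ) * ∫⁻ t, ∫⁻ y, ‖g y‖ₑ * ENNReal.ofReal (‖1 - Fr b (-(y / L)) t‖ ^ 2 / (1 / 4 + t ^ 2)) := by
            rw [lintegral_const_mul' _ _ (ne_top_of_le_ne_top ENNReal.ofReal_ne_top hG1)]
        _ = (∫⁻ y, ‖g y‖ₑ) * ∫⁻ y, ∫⁻ t, ‖g y‖ₑ * ENNReal.ofReal (‖1 - Fr b (-(y / L)) t‖ ^ 2 / (1 / 4 + t ^ 2)) := by
            rw [lintegral_lintegral_swap hjoint]
        _ = (∫⁻ y, ‖g y‖ₑ) * ∫⁻ y, ‖g y‖ₑ * ∫⁻ t, ENNReal.ofReal (‖1 - Fr b (-(y / L)) t‖ ^ 2 / (1 / 4 + t ^ 2)) := by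
            congr 1
            refine lintegral_congr fun y => ?_
            rw [lintegral_const_mul' _ _ enorm_ne_top]
        _ ≤ (∫⁻ y, ‖g y‖ₑ) * ∫⁻ y, ENNReal.ofReal (A * C * Real.exp D * B2 * b * (1 / (1 + |y|) ^ 8)) := by
            gcongr with y
            have h1 := hdev b (-(y / L)) hbp hbb0
            have e1 : |-(y / L)| / b = |y| := by
              rw [abs_neg, abs_div, abs_of_pos hL0, hb]
              field_simp
            rw [e1] at h1
            have h2 : ‖g y‖ₑ ≤ ENNReal.ofReal (A * Real.exp (-(c * |y| ^ (19 / 20 : ℝ)))) := by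
              rw [← ofReal_norm]
              exact ENNReal.ofReal_le_ofReal (hgn y)
            calc ‖g y‖ₑ * ∫⁻ t, ENNReal.ofReal (‖1 - Fr b (-(y / L)) t‖ ^ 2 / (1 / 4 + t ^ 2))
                ≤ ENNReal.ofReal (A * Real.exp (-(c * |y| ^ (19 / 20 : ℝ)))) *
                  ENNReal.ofReal (C * b * Real.exp (C * (1 + |y|) ^ (9 / 10 : ℝ))) := by gcongr
              _ = ENNReal.ofReal ((A * Real.exp (-(c * |y| ^ (19 / 20 : ℝ)))) *
                  (C * b * Real.exp (C * (1 + |y|) ^ (9 / 10 : ℝ)))) := by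
                  rw [← ENNReal.ofReal_mul (by positivity)]
              _ ≤ _ := by
                  refine ENNReal.ofReal_le_ofReal ?_
                  have h3 := hmix |y| (abs_nonneg y)
                  have h4 := hdec2 |y| (abs_nonneg y)
                  have h5 : Real.exp (-(c * |y| ^ (19 / 20 : ℝ))) * Real.exp (C * (1 + |y|) ^ (9 / 10 : ℝ)) ≤
                      Real.exp D * (B2 / (1 + |y|) ^ 8) := by
                    rw [← Real.exp_add]
                    calc Real.exp (-(c * |y| ^ (19 / 20 : ℝ)) + C * (1 + |y|) ^ (9 / 10 : ℝ))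
                        ≤ Real.exp (D + -(c / 2 * |y| ^ (19 / 20 : ℝ))) :=
                          Real.exp_le_exp.2 (by linarith)
                      _ = Real.exp D * Real.exp (-(c / 2 * |y| ^ (19 / 20 : ℝ))) := Real.exp_add _ _
                      _ ≤ _ := by gcongr
                  calc (A * Real.exp (-(c * |y| ^ (19 / 20 : ℝ)))) * (C * b * Real.exp (C * (1 + |y|) ^ (9 / 10 : ℝ)))
                      = A * C * b * (Real.exp (-(c * |y| ^ (19 / 20 : ℝ))) * Real.exp (C * (1 + |y|) ^ (9 / 10 : ℝ))) := by ring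
                    _ ≤ A * C * b * (Real.exp D * (B2 / (1 + |y|) ^ 8)) := by gcongr
                    _ = _ := by ring
        _ ≤ ENNReal.ofReal (A * B1 * J) * ENNReal.ofReal (A * C * Real.exp D * B2 * b * J) := by
            gcongr
            rw [hJ, ← integral_const_mul, ofReal_integral_eq_lintegral_ofReal (eight_int.const_mul _)
              (Eventually.of_forall fun y => by positivity)]
        _ = ENNReal.ofReal (K * b) := by
            rw [← ENNReal.ofReal_mul (by positivity), hK]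
            congr 1
            ring
    have hig0 : ∀ t : ℝ, 0 ≤ ig N a t := fun t => by unfold ig; positivity
    have hfin : ∫ t : ℝ, ig N a t ≤ K * b := by
      rw [integral_eq_lintegral_of_nonneg_ae (Eventually.of_forall hig0)
        (ig_continuous N a).aestronglyMeasurable]
      exact ENNReal.toReal_le_of_le_ofReal (by positivity) hdbl
    unfold err
    have h10 : 1 / (2 * Real.pi) ≤ 1 := by
      rw [div_le_one (by positivity)]
      linarith [Real.pi_gt_three]
    have h11 : 0 ≤ ∫ t : ℝ, ig N a t := integral_nonneg hig0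
    calc 1 / (2 * Real.pi) * ∫ t : ℝ, ig N a t ≤ 1 * ∫ t : ℝ, ig N a t := by gcongr
      _ = ∫ t : ℝ, ig N a t := one_mul _
      _ ≤ K * b := hfin
      _ = K / L := by rw [hb]; ring
  -- small N
  set E0 : ℝ := err 0 (fun _ => 0) with hE0
  have hE : ∀ N : ℕ, dd N ≤ E0 := by
    intro N
    refine (dd_le N (fun _ => 0)).trans (le_of_eq ?_)
    rw [hE0]
    unfold err ig DP
    simp
  have hE0n : 0 ≤ E0 := err_nn _ _
  set L0 : ℝ := max 2 (1 / b0) with hL0
  have hL02 : 2 ≤ L0 := le_max_left _ _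
  refine ⟨K + E0 * L0 + 1, by positivity, fun N hN => ?_⟩
  have hN2 : (2 : ℝ) ≤ N := by exact_mod_cast hN
  have hlogpos : 0 < Real.log N := Real.log_pos (by linarith)
  rcases le_or_gt L0 (Real.log N) with h | h
  · have h1 := main (Real.log N) (hL02.trans h) ((le_max_right _ _).trans h) N
      (Real.log_le_log (by linarith) (by linarith))
    refine h1.trans ?_
    have : 0 ≤ E0 * L0 := by positivity
    gcongr
    linarith
  · rw [le_div_iff₀ hlogpos]
    have h1 := hE N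
    have h2 : dd N * Real.log N ≤ E0 * L0 := by
      have h3 := dd_nonneg N
      gcongr
    linarith

end Pool.Agent.N967
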