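import Pool.Agent.N967.All
import Pool.Agent.N967.Kern2
import Pool.Agent.N967.App2
import Pool.Agent.N967.Fej2
import Pool.Agent.N967.Mom
import Pool.Agent.N967.BadN
import Pool.Agent.N967.Gam2
import Pool.Agent.N967.Cnt2
import Pool.Agent.N967.Pt
import Pool.Agent.N967.Blk
import Pool.Agent.N967.Dev
import Pool.Agent.N967.Upper3

set_option autoImplicit false

/-!
# Baez-Duarte's distance: the sharp order of magnitude
-/

namespace Pool.Agent.N967

theorem cnt2_all : S_cnt2 := cnt2 (cnt fejer) (bad fej2 mom)

theorem pt_all : S_pt := pt gam2 far lind mono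

theorem blk_all : S_blk := blk pt_all mono

theorem app2_all : S_app2 := app2 app shift

theorem dev_all : S_dev := dev cnt2_all pt_all blk_all

/-- the upper bound of the right order of magnitude -/
theorem upper_sharp : S_upper2 := upper3 kern2 app2_all dev_all

end Pool.Agent.N967
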