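import Mathlib
import Pool.Agent.N967.App2
import Pool.Agent.N967.Stm3

set_option autoImplicit false

/-!
# Baez-Duarte's distance: the exact approximation without the shift by epsilon (helper196)
-/

namespace Pool.Agent.N967

open Complex MeasureTheory Set Filter Topology
open Pool.Agent.H295R2 (fz Zs contour_shift vertical_integrable integrable_decay)

namespace App3Aux

/-- stretched exponential decay beats the powers -/
lemma dec {c : ℝ} (hc : 0 < c) : ∃ B : ℝ, 0 < B ∧ ∀ u : ℝ, 0 ≤ u →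
    Real.exp (-(c * u ^ (19 / 20 : ℝ))) ≤ B / (1 + u) ^ 8 := by
  refine ⟨2 ^ 8 * (1 + (Nat.factorial 9 : ℝ) / c ^ 9), by positivity, fun u hu => ?_⟩
  set x : ℝ := c * u ^ (19 / 20 : ℝ) with hx
  have hx0 : 0 ≤ x := by positivity
  have h1 : x ^ 9 / (Nat.factorial 9 : ℝ) ≤ Real.exp x := Real.pow_div_factorial_le_exp x hx0 9
  have h2 : (1 : ℝ) ≤ Real.exp x := Real.one_le_exp hx0
  rw [Real.exp_neg, ← one_div, div_le_div_iff₀ (Real.exp_pos _) (by positivity), one_mul]
  have h0 : 0 ≤ (Nat.factorial 9 : ℝ) / c ^ 9 := by positivity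
  rcases le_total u 1 with h | h
  · calc (1 + u) ^ 8 ≤ 2 ^ 8 := by gcongr; linarith
      _ = 2 ^ 8 * (1 + 0) * 1 := by ring
      _ ≤ 2 ^ 8 * (1 + (Nat.factorial 9 : ℝ) / c ^ 9) * Real.exp x := by gcongr
  · have h3 : u ^ 8 ≤ (u ^ (19 / 20 : ℝ)) ^ 9 := by
      rw [← Real.rpow_natCast (u ^ (19 / 20 : ℝ)) 9, ← Real.rpow_mul hu, ← Real.rpow_natCast u 8]
      exact Real.rpow_le_rpow_of_exponent_le h (by norm_num)
    have h4 : (u ^ (19 / 20 : ℝ)) ^ 9 = x ^ 9 / c ^ 9 := by
      rw [hx, mul_pow]; field_simp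
    have h5 : x ^ 9 ≤ (Nat.factorial 9 : ℝ) * Real.exp x := by
      rw [div_le_iff₀ (by positivity)] at h1
      linarith
    calc (1 + u) ^ 8 ≤ (2 * u) ^ 8 := by gcongr; linarith
      _ = 2 ^ 8 * u ^ 8 := by ring
      _ ≤ 2 ^ 8 * (x ^ 9 / c ^ 9) := by rw [← h4]; gcongr
      _ ≤ 2 ^ 8 * (((Nat.factorial 9 : ℝ) * Real.exp x) / c ^ 9) := by gcongr
      _ = 2 ^ 8 * ((Nat.factorial 9 : ℝ) / c ^ 9) * Real.exp x := by ring
      _ ≤ 2 ^ 8 * (1 + (Nat.factorial 9 : ℝ) / c ^ 9) * Real.exp x := by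
          gcongr
          linarith

/-- the bounds of an admissible kernel, in the form used for `S_app` -/
lemma ker_bounds {κ : ℂ → ℂ} (h : Ker κ) : ∃ B : ℝ, 0 < B ∧
    (∀ z : ℂ, 0 ≤ z.re → ‖κ z‖ ≤ B / (1 + |z.im|) ^ 8) ∧
    (∀ z : ℂ, z.re ≤ 0 → ‖κ z‖ ≤ B * Real.exp (-z.re) / (1 + |z.im|) ^ 8) := by
  obtain ⟨-, -, c, C, hc, hC, h1, h2⟩ := h
  obtain ⟨B, hB, hdec⟩ := dec hc
  refine ⟨C * B, by positivity, fun z hz => ?_, fun z hz => ?_⟩
  · refine (h1 z hz).trans ?_
    have := hdec |z.im| (abs_nonneg _)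
    calc C * Real.exp (-(c * |z.im| ^ (19 / 20 : ℝ))) ≤ C * (B / (1 + |z.im|) ^ 8) := by gcongr
      _ = C * B / (1 + |z.im|) ^ 8 := by ring
  · refine (h2 z hz).trans ?_
    have := hdec |z.im| (abs_nonneg _)
    calc C * Real.exp (-z.re) * Real.exp (-(c * |z.im| ^ (19 / 20 : ℝ)))
        ≤ C * Real.exp (-z.re) * (B / (1 + |z.im|) ^ 8) := by gcongr
      _ = C * B * Real.exp (-z.re) / (1 + |z.im|) ^ 8 := by ring

/-- a shift of the line to the left of the pole at `0` -/
lemma shift_left {F : ℂ → ℂ} {a b B : ℝ} (hab : a ≤ b) (hb : b < 0)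
    (hd : ∀ z : ℂ, a ≤ z.re → z.re ≤ b → DifferentiableAt ℂ F z)
    (hB : ∀ z : ℂ, a ≤ z.re → z.re ≤ b → ‖F z‖ ≤ B * (1 + |z.im|) ^ (-(1 / 2 : ℝ))) :
    ∫ y : ℝ, F (a + y * I) / (a + y * I) = ∫ y : ℝ, F (b + y * I) / (b + y * I) := by
  have hne : ∀ z : ℂ, z.re ≤ b → z ≠ 0 := by
    rintro z hz rfl
    simp at hz
    linarith
  have hB0 : 0 ≤ B := by
    have := hB b (by simpa using hab) (by simp)
    simp at this
    exact (norm_nonneg _).trans this
  refine contour_shift (H := fun z => F z / z) (B := B * (1 / |b| + 1)) hab ?_ ?_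
  · intro s hs hs'
    exact (hd s hs hs').div differentiableAt_id (hne s hs')
  · intro s hs hs'
    refine AppAux.pow_aux ?_
    have hre : s.re ≠ 0 := by linarith
    have e1 := AppAux.norm_ge (y := s.im) hre
    rw [Complex.re_add_im s] at e1
    have e3 := hB s hs hs'
    have hp : 0 < 1 + |s.im| := by positivity
    have hk0 : 0 < |s.re| := abs_pos.mpr hre
    have hkb : 0 < |b| := abs_pos.mpr hb.ne
    have hk1 : 0 < 1 / |s.re| + 1 := by positivity
    have hk2 : 1 / |s.re| ≤ 1 / |b| := by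
      refine one_div_le_one_div_of_le hkb ?_
      rw [abs_of_neg hb, abs_of_neg (by linarith)]
      linarith
    rw [norm_div]
    calc ‖F s‖ / ‖s‖ ≤ (B * (1 + |s.im|) ^ (-(1 / 2 : ℝ))) / ((1 + |s.im|) / (1 / |s.re| + 1)) := by
          gcongr
      _ = B * (1 / |s.re| + 1) * (1 + |s.im|)⁻¹ * (1 + |s.im|) ^ (-(1 / 2 : ℝ)) := by field_simp
      _ ≤ B * (1 / |b| + 1) * (1 + |s.im|)⁻¹ * (1 + |s.im|) ^ (-(1 / 2 : ℝ)) := by gcongr

end App3Aux

open App3Aux in
theorem app3 (hs : S_shift) : S_app3 := by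
  intro hRH κ hκ L hL N hN
  obtain ⟨B, hB, hB1, hB2⟩ := ker_bounds hκ
  have hm : Differentiable ℂ κ := hκ.1
  have hm0 : κ 0 = 1 := hκ.2.1
  have hL0 : 0 < L := by linarith
  set b : ℝ := 2 * L with hb
  have hb0 : 0 < b := by positivity
  have hmB := App2Aux.m_bound hb0.le hB1 hB2
  -- the integral of the kernel
  have hone : ∫ y : ℝ, κ (((-1 : ℝ) : ℂ) + y * I) / (((-1 : ℝ) : ℂ) + y * I) = -(2 * Real.pi) := by
    rw [← App2Aux.left_integral hs hm hm0 hB1 hB2]
    refine shift_left (B := B * Real.exp b) (by norm_num) (by norm_num) (fun z _ _ => hm z) ?_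
    intro z hz _
    refine (hmB z (by linarith)).trans ?_
    gcongr
    exact App2Aux.half_bound _
  set W : ℝ → ℂ := fun x => ∫ y : ℝ, κ (((-b : ℝ) : ℂ) + y * I) / (((-b : ℝ) : ℂ) + y * I) *
      Complex.exp ((((-b : ℝ) : ℂ) + y * I) * x) with hW
  refine ⟨fun n => ((ArithmeticFunction.moebius n : ℤ) : ℂ) *
    (-(1 / (2 * Real.pi)) * W (Real.log n / L)), fun t => ?_⟩
  set s : ℂ := 1 / 2 + t * I with hsd
  have hsre : s.re = 1 / 2 := by simp [hsd]
  have hsim : s.im = t := by simp [hsd]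
  have hre : ∀ z : ℂ, (s - z / L).re = 1 / 2 - z.re / L := by
    intro z
    rw [Complex.sub_re, hsre, Complex.div_ofReal_re]
  have him : ∀ z : ℂ, (s - z / L).im = t - z.im / L := by
    intro z
    rw [Complex.sub_im, hsim, Complex.div_ofReal_im]
  have hLi : 0 < 1 / L := by positivity
  obtain ⟨C, hC, hfz⟩ := AppAux.fz_bound_rh hRH (σ := 1 / 2 + 1 / L) (by linarith)
  have hrange : ∀ z : ℂ, z.re ≤ -1 → 1 / 2 + 1 / L ≤ (s - z / L).re := by
    intro z hz
    rw [hre]
    have : z.re / L ≤ -1 / L := by gcongr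
    have h2 : -1 / L = -(1 / L) := by ring
    linarith
  set F : ℂ → ℂ := fun z => κ z * fz (s - z / L) with hF
  have hFB : ∀ z : ℂ, -b ≤ z.re → z.re ≤ -1 →
      ‖F z‖ ≤ (B * Real.exp b * (C * (1 + |t|))) * (1 + |z.im|) ^ (-(1 / 2 : ℝ)) := by
    intro z hz hz'
    have h1 := hfz _ (hrange z hz')
    rw [him] at h1
    have h2 : 1 + |t - z.im / L| ≤ (1 + |t|) * (1 + |z.im|) := by
      have e1 : |t - z.im / L| ≤ |t| + |z.im / L| := abs_sub _ _
      have e2 : |z.im / L| ≤ |z.im| := by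
        rw [abs_div, abs_of_pos hL0]
        exact div_le_self (abs_nonneg _) (by linarith)
      nlinarith [abs_nonneg t, abs_nonneg z.im]
    simp only [hF]
    rw [norm_mul]
    calc ‖κ z‖ * ‖fz (s - z / L)‖
        ≤ (B * Real.exp b * (1 / (1 + |z.im|) ^ 8)) * (C * (1 + |t - z.im / L|)) := by
          have := hmB z hz
          gcongr
      _ ≤ (B * Real.exp b * (1 / (1 + |z.im|) ^ 8)) * (C * ((1 + |t|) * (1 + |z.im|))) := by gcongr
      _ = (B * Real.exp b * (C * (1 + |t|))) * ((1 + |z.im|) * (1 / (1 + |z.im|) ^ 8)) := by ring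
      _ ≤ _ := by
          gcongr
          exact AppAux.pow7_le _
  have hFd : ∀ z : ℂ, -b ≤ z.re → z.re ≤ -1 → DifferentiableAt ℂ F z := by
    intro z _ hz'
    have h1 := hrange z hz'
    have h2 : DifferentiableAt ℂ fz (s - z / L) :=
      Pool.Agent.H295R2.fz_differentiableAt (AppAux.Zs_ne_zero_of_rh hRH (by linarith))
    have h3 : DifferentiableAt ℂ (fun z : ℂ => s - z / L) z := by fun_prop
    have h4 : DifferentiableAt ℂ (fz ∘ (fun z : ℂ => s - z / L)) z := DifferentiableAt.comp z h2 h3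
    exact (hm z).mul h4
  have hb1 : -b ≤ -1 := by rw [hb]; linarith
  have hsh : (∫ y : ℝ, F (((-b : ℝ) : ℂ) + y * I) / (((-b : ℝ) : ℂ) + y * I)) =
      ∫ y : ℝ, F (((-1 : ℝ) : ℂ) + y * I) / (((-1 : ℝ) : ℂ) + y * I) :=
    shift_left hb1 (by norm_num) hFd hFB
  -- the sum
  set g : ℝ → ℂ := fun y => κ (((-b : ℝ) : ℂ) + y * I) / (((-b : ℝ) : ℂ) + y * I) with hg
  have hgint : Integrable g := by
    refine AppAux.line_integrable (F := κ) (x := -b) (B := B * Real.exp b) (by linarith)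
      (fun z _ => hm z) (fun z hz => ?_)
    refine (hmB z hz.ge).trans ?_
    gcongr
    exact App2Aux.half_bound _
  set μ : ℕ → ℂ := fun n => ((ArithmeticFunction.moebius n : ℤ) : ℂ) with hμ
  set T : ℕ → ℝ → ℂ := fun n y => g y * LSeries.term μ (s - (((-b : ℝ) : ℂ) + y * I) / L) n with hT
  have hre2 : ∀ y : ℝ, (s - (((-b : ℝ) : ℂ) + y * I) / L).re = 5 / 2 := by
    intro y
    rw [hre]
    have : (((-b : ℝ) : ℂ) + y * I).re = -b := by simp
    rw [this, hb]
    field_simp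
    ring
  have hTeq : ∀ n : ℕ, n ≠ 0 → ∀ y : ℝ, T n y = μ n * (n : ℂ) ^ (-s) *
      (g y * Complex.exp ((((-b : ℝ) : ℂ) + y * I) * ((Real.log n / L : ℝ) : ℂ))) := by
    intro n hn y
    have hn' : (n : ℂ) ≠ 0 := by exact_mod_cast hn
    simp only [hT]
    rw [LSeries.term_of_ne_zero hn, Complex.cpow_sub _ _ hn', Complex.cpow_neg]
    have e1 : (n : ℂ) ^ ((((-b : ℝ) : ℂ) + y * I) / L) =
        Complex.exp ((((-b : ℝ) : ℂ) + y * I) * ((Real.log n / L : ℝ) : ℂ)) := by
      rw [Complex.cpow_def_of_ne_zero hn', ← Complex.natCast_log]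
      congr 1
      push_cast
      ring
    rw [← e1]
    have e2 : (n : ℂ) ^ s ≠ 0 := by
      rw [Complex.cpow_def_of_ne_zero hn']
      exact Complex.exp_ne_zero _
    have e3 : (n : ℂ) ^ ((((-b : ℝ) : ℂ) + y * I) / L) ≠ 0 := by
      rw [Complex.cpow_def_of_ne_zero hn']
      exact Complex.exp_ne_zero _
    field_simp
  have hTnorm : ∀ n : ℕ, ∀ y : ℝ, ‖T n y‖ = ‖LSeries.term μ (((5 / 2 : ℝ) : ℂ)) n‖ * ‖g y‖ := by
    intro n y
    simp only [hT]
    rw [norm_mul, LSeries.norm_term_eq, LSeries.norm_term_eq, hre2, Complex.ofReal_re, mul_comm]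
  have hgc : Continuous g := by
    simp only [hg]
    refine Continuous.div ?_ (by fun_prop) ?_
    · exact hm.continuous.comp (by fun_prop)
    · intro y h
      have := congrArg Complex.re h
      simp at this
      linarith
  have hTint : ∀ n : ℕ, Integrable (T n) := by
    intro n
    rcases Nat.eq_zero_or_pos n with rfl | hn
    · have : T 0 = fun _ => 0 := by
        funext y
        simp [hT]
      rw [this]
      exact integrable_zero _ _ _
    · refine Integrable.mono (hgint.norm.const_mul (‖LSeries.term μ (((5 / 2 : ℝ) : ℂ)) n‖)) ?_ ?_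
      · have : T n = fun y => μ n * (n : ℂ) ^ (-s) *
            (g y * Complex.exp ((((-b : ℝ) : ℂ) + y * I) * ((Real.log n / L : ℝ) : ℂ))) := by
          funext y
          exact hTeq n hn.ne' y
        rw [this]
        refine Continuous.aestronglyMeasurable ?_
        exact continuous_const.mul (hgc.mul (by fun_prop))
      · refine Eventually.of_forall fun y => ?_
        rw [hTnorm, Real.norm_of_nonneg (by positivity)]
  have hmu : ∀ y : ℝ, HasSum (fun n => T n y) (g y * fz (s - (((-b : ℝ) : ℂ) + y * I) / L)) := by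
    intro y
    exact (Pool.Agent.H295R2.moebius_lseries (s := s - (((-b : ℝ) : ℂ) + y * I) / L)
      (by rw [hre2]; linarith)).mul_left _
  have hsummable : Summable fun n => ∫ y : ℝ, ‖T n y‖ := by
    have h1 : Summable fun n => ‖LSeries.term μ (((5 / 2 : ℝ) : ℂ)) n‖ := by
      have := (Pool.Agent.H295R2.moebius_lseries (s := ((5 / 2 : ℝ) : ℂ))
        (by rw [Complex.ofReal_re]; linarith)).summable
      exact this.norm
    refine (h1.mul_right (∫ y : ℝ, ‖g y‖)).congr fun n => ?_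
    rw [← integral_const_mul]
    simp_rw [hTnorm]
  have hsum := hasSum_integral_of_summable_integral_norm hTint hsummable
  have htsum : ∀ y : ℝ, ∑' n, T n y = F (((-b : ℝ) : ℂ) + y * I) / (((-b : ℝ) : ℂ) + y * I) := by
    intro y
    rw [(hmu y).tsum_eq]
    simp only [hF, hg]
    ring
  simp_rw [htsum] at hsum
  have hTI : ∀ n : ℕ, n ≠ 0 → ∫ y : ℝ, T n y = μ n * (n : ℂ) ^ (-s) * W (Real.log n / L) := by
    intro n hn
    simp_rw [hTeq n hn]
    rw [integral_const_mul]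
  have hzero : ∀ n ∉ Finset.Icc 1 N, ∫ y : ℝ, T n y = 0 := by
    intro n hn
    rcases Nat.eq_zero_or_pos n with rfl | hn0
    · simp [hT]
    · have hnN : N + 1 ≤ n := by
        by_contra h
        exact hn (Finset.mem_Icc.mpr ⟨hn0, by omega⟩)
      rw [hTI n hn0.ne']
      have : W (Real.log n / L) = 0 := by
        refine AppAux.weight_zero hm hB2 hb0 ?_
        rw [one_le_div hL0]
        refine hN.trans (Real.log_le_log (by positivity) ?_)
        exact_mod_cast hnN
      rw [this, mul_zero]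
  have hfin : HasSum (fun n => ∫ y : ℝ, T n y) (∑ n ∈ Finset.Icc 1 N, ∫ y : ℝ, T n y) :=
    hasSum_sum_of_ne_finset_zero hzero
  have heq := hsum.unique hfin
  -- conclusion
  have hDP : DP N (fun n => ((ArithmeticFunction.moebius n : ℤ) : ℂ) *
    (-(1 / (2 * Real.pi)) * W (Real.log n / L))) s =
      -(1 / (2 * Real.pi)) * ∑ n ∈ Finset.Icc 1 N, ∫ y : ℝ, T n y := by
    unfold DP
    rw [Finset.mul_sum]
    refine Finset.sum_congr rfl fun n hn => ?_
    have hn0 : n ≠ 0 := by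
      have := (Finset.mem_Icc.mp hn).1
      omega
    rw [hTI n hn0]
    simp only [hμ]
    ring
  rw [hDP, ← heq, hsh]
  have hpi : (Real.pi : ℂ) ≠ 0 := by exact_mod_cast Real.pi_ne_zero
  -- the two integrals on the line `re z = -1`
  have e1 : ((-1 : ℝ) : ℂ) = -1 := by push_cast; ring
  have hKK : Integrable (KK κ) := by
    have h1 := AppAux.line_integrable (F := κ) (x := -1) (B := B * Real.exp b) (by norm_num)
      (fun z _ => hm z) (fun z hz => by
        refine (hmB z (by rw [hz]; exact hb1)).trans ?_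
        gcongr
        exact App2Aux.half_bound _)
    rw [e1] at h1
    exact (h1.const_mul (1 / (2 * Real.pi : ℂ))).neg
  have hKF : Integrable (fun y : ℝ => KK κ y * Fr (1 / L) (-(y / L)) t) := by
    have h1 := AppAux.line_integrable (F := F) (x := -1) (B := (B * Real.exp b * (C * (1 + |t|))))
      (by norm_num) (fun z hz => hFd z (by rw [hz]; exact hb1) hz.le)
      (fun z hz => hFB z (by rw [hz]; exact hb1) hz.le)
    rw [e1] at h1
    refine (h1.const_mul (-(1 / (2 * Real.pi : ℂ)) * riemannZeta (1 / 2 + t * I))).congr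
      (Eventually.of_forall fun y => ?_)
    simp only [KK, Fr, hF]
    have e2 : (1 / 2 : ℂ) + ((1 / L : ℝ) : ℂ) + ((t + -(y / L) : ℝ) : ℂ) * I = s - (-1 + y * I) / L := by
      rw [hsd]
      push_cast
      ring
    rw [e2]
    ring
  unfold HH
  have hsplit : ∀ y : ℝ, KK κ y * (1 - Fr (1 / L) (-(y / L)) t) =
      KK κ y - KK κ y * Fr (1 / L) (-(y / L)) t := by
    intro y
    ring
  simp_rw [hsplit]
  rw [integral_sub hKK hKF]
  have h1 : ∫ y : ℝ, KK κ y = 1 := by
    have : KK κ = fun y : ℝ => -(1 / (2 * Real.pi : ℂ)) *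
        (κ (((-1 : ℝ) : ℂ) + y * I) / (((-1 : ℝ) : ℂ) + y * I)) := by
      funext y
      simp only [KK, e1]
      ring
    rw [this, integral_const_mul, hone]
    field_simp
  have h2 : ∫ y : ℝ, KK κ y * Fr (1 / L) (-(y / L)) t = riemannZeta s * (-(1 / (2 * Real.pi)) *
      ∫ y : ℝ, F (((-1 : ℝ) : ℂ) + y * I) / (((-1 : ℝ) : ℂ) + y * I)) := by
    rw [← mul_assoc, ← integral_const_mul]
    congr 1
    funext y
    simp only [KK, Fr, hF, e1]
    have e2 : (1 / 2 : ℂ) + ((1 / L : ℝ) : ℂ) + ((t + -(y / L) : ℝ) : ℂ) * I = s - (-1 + y * I) / L := by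
      rw [hsd]
      push_cast
      ring
    rw [e2]
    ring
  rw [h1, h2]

end Pool.Agent.N967
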