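import Mathlib
import Pool.Agent.N967.Stm3
import Pool.Agent.N967.Upper3

set_option autoImplicit false

/-!
# Baez-Duarte's distance, the asymptotic formula: Cauchy-Schwarz and Tonelli for `HH`
-/

namespace Pool.Agent.N967

open Complex MeasureTheory Filter Topology

namespace Cs

lemma den_ne (y : ℝ) : (-1 + y * I : ℂ) ≠ 0 := by
  intro h
  have := congrArg Complex.re h
  simp at this

lemma one_le_den (y : ℝ) : 1 ≤ ‖(-1 + y * I : ℂ)‖ := by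
  have := Complex.abs_re_le_norm (-1 + y * I : ℂ)
  simpa using this

lemma KK_cont {κ : ℂ → ℂ} (h : Ker κ) : Continuous (KK κ) := by
  unfold KK
  refine (continuous_const.mul (Continuous.div ?_ (by fun_prop) den_ne)).neg
  exact h.1.continuous.comp (by fun_prop)

lemma KK_bd {κ : ℂ → ℂ} (h : Ker κ) : ∃ c A : ℝ, 0 < c ∧ 0 < A ∧
    ∀ y : ℝ, ‖KK κ y‖ ≤ A * Real.exp (-(c * |y| ^ (19 / 20 : ℝ))) := by
  obtain ⟨-, -, c, C, hc, hC, -, h3⟩ := h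
  refine ⟨c, C * Real.exp 1, hc, by positivity, fun y => ?_⟩
  have h1 := h3 (-1 + y * I) (by simp)
  have e1 : (-1 + y * I : ℂ).re = -1 := by simp
  have e2 : (-1 + y * I : ℂ).im = y := by simp
  rw [e1, e2, neg_neg] at h1
  have h2 := one_le_den y
  unfold KK
  rw [norm_neg, norm_mul, norm_div (κ (-1 + y * I))]
  have h4 : ‖(1 / (2 * Real.pi) : ℂ)‖ ≤ 1 := by
    have e5 : ((1 / (2 * Real.pi)) : ℂ) = (((1 / (2 * Real.pi)) : ℝ) : ℂ) := by push_cast; rfl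
    rw [e5, Complex.norm_real, Real.norm_eq_abs, abs_of_nonneg (by positivity)]
    rw [div_le_one (by positivity)]
    linarith [Real.pi_gt_three]
  calc ‖(1 / (2 * Real.pi) : ℂ)‖ * (‖κ (-1 + y * I)‖ / ‖(-1 + y * I : ℂ)‖)
      ≤ 1 * ((C * Real.exp 1 * Real.exp (-(c * |y| ^ (19 / 20 : ℝ)))) / 1) := by gcongr
    _ = _ := by ring

lemma KK_int {κ : ℂ → ℂ} (h : Ker κ) : Integrable (KK κ) := by
  obtain ⟨c, A, hc, hA, hb⟩ := KK_bd h
  obtain ⟨B, hB, hd⟩ := U3.dec hc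
  refine (U3.eight_int.const_mul (A * B)).mono' (KK_cont h).aestronglyMeasurable
    (Eventually.of_forall fun y => ?_)
  refine (hb y).trans ?_
  have := hd |y| (abs_nonneg y)
  calc A * Real.exp (-(c * |y| ^ (19 / 20 : ℝ))) ≤ A * (B / (1 + |y|) ^ 8) := by gcongr
    _ = _ := by ring

lemma KK_lint {κ : ℂ → ℂ} (h : Ker κ) : ENNReal.ofReal (∫ y : ℝ, ‖KK κ y‖) = ∫⁻ y, ‖KK κ y‖ₑ := by
  rw [ofReal_integral_eq_lintegral_ofReal (KK_int h).norm (Eventually.of_forall fun y => norm_nonneg _)]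
  exact lintegral_congr fun y => ofReal_norm _

lemma Fr_cont' (h : RiemannHypothesis) {L : ℝ} (hL : 0 < L) :
    Continuous fun p : ℝ × ℝ => Fr (1 / L) (-(p.2 / L)) p.1 := by
  have := U3.Fr_cont h (b := 1 / L) (by positivity)
  exact this.comp (f := fun p : ℝ × ℝ => (p.1, -(p.2 / L))) (by fun_prop)

end Cs

open Cs in
theorem cs3 : S_cs := by
  intro hRH κ hκ L hL w hw hw0
  have hL0 : 0 < L := by linarith
  have hgc := KK_cont hκ
  have hFc := Fr_cont' hRH hL0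
  rw [KK_lint hκ]
  have hHm : ∀ t : ℝ, Measurable fun y : ℝ => ‖1 - Fr (1 / L) (-(y / L)) t‖ₑ := by
    intro t
    have : Continuous fun y : ℝ => (1 : ℂ) - Fr (1 / L) (-(y / L)) t :=
      continuous_const.sub (hFc.comp (f := fun y : ℝ => (t, y)) (by fun_prop))
    exact this.measurable.enorm
  have e2 : ∀ t y : ℝ, ENNReal.ofReal (‖1 - Fr (1 / L) (-(y / L)) t‖ ^ 2 * w t) =
      ‖1 - Fr (1 / L) (-(y / L)) t‖ₑ ^ 2 * ENNReal.ofReal (w t) := by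
    intro t y
    rw [ENNReal.ofReal_mul (by positivity), ENNReal.ofReal_pow (norm_nonneg _), ofReal_norm]
  have hpt : ∀ t : ℝ, ENNReal.ofReal (‖HH κ L t‖ ^ 2 * w t) ≤
      (∫⁻ y, ‖KK κ y‖ₑ) * ∫⁻ y, ‖KK κ y‖ₑ * ENNReal.ofReal (‖1 - Fr (1 / L) (-(y / L)) t‖ ^ 2 * w t) := by
    intro t
    have h1 : ‖HH κ L t‖ₑ ≤ ∫⁻ y, ‖KK κ y‖ₑ * ‖1 - Fr (1 / L) (-(y / L)) t‖ₑ := by
      unfold HH
      refine (enorm_integral_le_lintegral_enorm _).trans (le_of_eq ?_)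
      exact lintegral_congr fun y => enorm_mul _ _
    simp_rw [e2]
    rw [ENNReal.ofReal_mul (by positivity), ENNReal.ofReal_pow (norm_nonneg _), ofReal_norm]
    calc ‖HH κ L t‖ₑ ^ 2 * ENNReal.ofReal (w t)
        ≤ (∫⁻ y, ‖KK κ y‖ₑ * ‖1 - Fr (1 / L) (-(y / L)) t‖ₑ) ^ 2 * ENNReal.ofReal (w t) := by gcongr
      _ ≤ ((∫⁻ y, ‖KK κ y‖ₑ) * ∫⁻ y, ‖KK κ y‖ₑ * ‖1 - Fr (1 / L) (-(y / L)) t‖ₑ ^ 2) * ENNReal.ofReal (w t) := by
          gcongr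
          exact U3.csE hgc.measurable.enorm (hHm t)
      _ = _ := by
          rw [mul_assoc, ← lintegral_mul_const' _ _ ENNReal.ofReal_ne_top]
          congr 1
          refine lintegral_congr fun y => ?_
          rw [mul_assoc]
  have hjoint : AEMeasurable (Function.uncurry fun (t y : ℝ) => ‖KK κ y‖ₑ *
      ENNReal.ofReal (‖1 - Fr (1 / L) (-(y / L)) t‖ ^ 2 * w t)) (volume.prod volume) := by
    refine Measurable.aemeasurable ?_
    refine (hgc.measurable.enorm.comp measurable_snd).mul (ENNReal.measurable_ofReal.comp ?_)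
    have h1 : Continuous fun p : ℝ × ℝ => ‖1 - Fr (1 / L) (-(p.2 / L)) p.1‖ ^ 2 :=
      (continuous_const.sub hFc).norm.pow 2
    exact h1.measurable.mul (hw.comp measurable_fst)
  have hfin : (∫⁻ y, ‖KK κ y‖ₑ) ≠ ⊤ := by
    rw [← KK_lint hκ]; exact ENNReal.ofReal_ne_top
  calc ∫⁻ t : ℝ, ENNReal.ofReal (‖HH κ L t‖ ^ 2 * w t)
      ≤ ∫⁻ t, (∫⁻ y, ‖KK κ y‖ₑ) * ∫⁻ y, ‖KK κ y‖ₑ * ENNReal.ofReal (‖1 - Fr (1 / L) (-(y / L)) t‖ ^ 2 * w t) :=
        lintegral_mono hpt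
    _ = (∫⁻ y, ‖KK κ y‖ₑ) * ∫⁻ t, ∫⁻ y, ‖KK κ y‖ₑ * ENNReal.ofReal (‖1 - Fr (1 / L) (-(y / L)) t‖ ^ 2 * w t) := by
        rw [lintegral_const_mul' _ _ hfin]
    _ = (∫⁻ y, ‖KK κ y‖ₑ) * ∫⁻ y, ∫⁻ t, ‖KK κ y‖ₑ * ENNReal.ofReal (‖1 - Fr (1 / L) (-(y / L)) t‖ ^ 2 * w t) := by
        rw [lintegral_lintegral_swap hjoint]
    _ = (∫⁻ y, ‖KK κ y‖ₑ) * ∫⁻ y, ‖KK κ y‖ₑ * ∫⁻ t, ENNReal.ofReal (‖1 - Fr (1 / L) (-(y / L)) t‖ ^ 2 * w t) := by
        congr 1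
        refine lintegral_congr fun y => ?_
        rw [lintegral_const_mul' _ _ enorm_ne_top]
    _ = _ := by
        congr 1
        refine lintegral_congr fun y => ?_
        rw [ofReal_norm]

end Pool.Agent.N967
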