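import Mathlib
import Pool.Agent.N967.Stm3
import Pool.Agent.N967.Upper3
import Pool.Agent.N967.Blk

set_option autoImplicit false

/-!
# Baez-Duarte's distance: the mean square of `1 - F` with a small tail (task BD3/DT, by helper711)
-/

namespace Pool.Agent.N967

open MeasureTheory Filter Topology
open scoped ENNReal
open Pool.Agent.Y23 (IsZ mu Lg)

namespace DT

/-- sums over sparse sets of integers -/
lemma sparse_sum (B : Set ℤ) {C α β : ℝ} (hC : 0 ≤ C) (hβ0 : 0 ≤ β) (hβ : β ≤ 2) (hαβ : α + β < 2)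
    (hfin : ∀ T : ℝ, {m : ℤ | |(m : ℝ)| ≤ T ∧ m ∈ B}.Finite)
    (hB : ∀ T : ℝ, 1 ≤ T → ((({m : ℤ | |(m : ℝ)| ≤ T ∧ m ∈ B}).ncard : ℕ) : ℝ) ≤ C * T ^ α) :
    ∑' m : ℤ, B.indicator (fun m : ℤ => ENNReal.ofReal ((1 + (m : ℝ) ^ 2)⁻¹ * (3 + |(m : ℝ)|) ^ β)) m ≠ ⊤ := by
  classical
  set D : ℝ := 2 * 3 ^ β with hD
  have hD0 : 0 < D := by positivity
  set P : ℕ → Set ℤ := fun j => {m : ℤ | |(m : ℝ)| ≤ (2 : ℝ) ^ (j + 1) ∧ m ∈ B} with hP
  have h1 : ∀ m : ℤ, B.indicator (fun m : ℤ => ENNReal.ofReal ((1 + (m : ℝ) ^ 2)⁻¹ * (3 + |(m : ℝ)|) ^ β)) m ≤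
      ∑' j : ℕ, (P j).indicator (fun _ => ENNReal.ofReal (D * ((2 : ℝ) ^ j) ^ (β - 2))) m := by
    intro m
    by_cases hm : m ∈ B
    · rw [Set.indicator_of_mem hm]
      set j : ℕ := Nat.log 2 (m.natAbs + 1) with hj
      have e1 : ((m.natAbs + 1 : ℕ) : ℝ) = |(m : ℝ)| + 1 := by
        push_cast
        rw [Nat.cast_natAbs]
        push_cast
        ring
      have h2 : (2 : ℝ) ^ j ≤ |(m : ℝ)| + 1 := by
        rw [← e1]
        exact_mod_cast Nat.pow_log_le_self 2 (by omega)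
      have h3 : |(m : ℝ)| + 1 < (2 : ℝ) ^ (j + 1) := by
        rw [← e1]
        exact_mod_cast Nat.lt_pow_succ_log_self (b := 2) (by norm_num) (m.natAbs + 1)
      have hmP : m ∈ P j := ⟨by linarith, hm⟩
      refine le_trans ?_ (ENNReal.le_tsum j)
      rw [Set.indicator_of_mem hmP]
      refine ENNReal.ofReal_le_ofReal ?_
      have hx0 : 0 ≤ |(m : ℝ)| := abs_nonneg _
      set x : ℝ := |(m : ℝ)| + 1 with hx
      have hx1 : 1 ≤ x := by linarith
      have h4 : (1 + (m : ℝ) ^ 2)⁻¹ ≤ 2 * (x ^ 2)⁻¹ := by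
        rw [inv_le_comm₀ (by positivity) (by positivity), mul_inv, inv_inv]
        have : (m : ℝ) ^ 2 = |(m : ℝ)| ^ 2 := (sq_abs _).symm
        rw [this, hx]
        nlinarith [sq_nonneg (|(m : ℝ)| - 1)]
      have h5 : (3 + |(m : ℝ)|) ^ β ≤ 3 ^ β * x ^ β := by
        rw [← Real.mul_rpow (by norm_num) (by linarith)]
        exact Real.rpow_le_rpow (by linarith) (by linarith) hβ0
      calc (1 + (m : ℝ) ^ 2)⁻¹ * (3 + |(m : ℝ)|) ^ β ≤ (2 * (x ^ 2)⁻¹) * (3 ^ β * x ^ β) := by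
            gcongr
        _ = D * x ^ (β - 2) := by
            rw [hD, Real.rpow_sub (by linarith)]
            have : x ^ (2 : ℝ) = x ^ 2 := by norm_cast
            rw [this]
            ring
        _ ≤ D * ((2 : ℝ) ^ j) ^ (β - 2) := by
            refine mul_le_mul_of_nonneg_left ?_ hD0.le
            exact Real.rpow_le_rpow_of_nonpos (by positivity) h2 (by linarith)
    · rw [Set.indicator_of_notMem hm]
      exact bot_le
  refine ne_top_of_le_ne_top ?_ (ENNReal.tsum_le_tsum h1)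
  rw [ENNReal.tsum_comm]
  have h6 : ∀ j : ℕ, ∑' m : ℤ, (P j).indicator (fun _ => ENNReal.ofReal (D * ((2 : ℝ) ^ j) ^ (β - 2))) m ≤
      ENNReal.ofReal (D * C * 2 ^ α * ((2 : ℝ) ^ (α + β - 2)) ^ j) := by
    intro j
    have hfj : (P j).Finite := hfin _
    have e2 : ∑' m : ℤ, (P j).indicator (fun _ => ENNReal.ofReal (D * ((2 : ℝ) ^ j) ^ (β - 2))) m =
        ((P j).ncard : ℝ≥0∞) * ENNReal.ofReal (D * ((2 : ℝ) ^ j) ^ (β - 2)) := by
      rw [tsum_eq_sum (s := hfj.toFinset)]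
      · rw [Finset.sum_congr rfl (g := fun _ => ENNReal.ofReal (D * ((2 : ℝ) ^ j) ^ (β - 2)))]
        · rw [Finset.sum_const, nsmul_eq_mul, Set.ncard_eq_toFinset_card _ hfj]
        · intro m hm
          rw [Set.Finite.mem_toFinset] at hm
          exact Set.indicator_of_mem hm _
      · intro m hm
        rw [Set.Finite.mem_toFinset] at hm
        exact Set.indicator_of_notMem hm _
    rw [e2, ← ENNReal.ofReal_natCast, ← ENNReal.ofReal_mul (by positivity)]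
    refine ENNReal.ofReal_le_ofReal ?_
    have h7 : (((P j).ncard : ℕ) : ℝ) ≤ C * ((2 : ℝ) ^ (j + 1)) ^ α := hB _ (one_le_pow₀ (by norm_num))
    calc (((P j).ncard : ℕ) : ℝ) * (D * ((2 : ℝ) ^ j) ^ (β - 2)) ≤
        (C * ((2 : ℝ) ^ (j + 1)) ^ α) * (D * ((2 : ℝ) ^ j) ^ (β - 2)) := by gcongr
      _ = D * C * 2 ^ α * ((2 : ℝ) ^ (α + β - 2)) ^ j := by
          rw [← Real.rpow_natCast 2 j, ← Real.rpow_natCast 2 (j + 1), ← Real.rpow_natCast (2 ^ (α + β - 2)) j,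
            ← Real.rpow_mul (by norm_num), ← Real.rpow_mul (by norm_num), ← Real.rpow_mul (by norm_num)]
          have : (2 : ℝ) ^ (((j + 1 : ℕ) : ℝ) * α) * (2 : ℝ) ^ ((j : ℝ) * (β - 2)) =
              2 ^ α * (2 : ℝ) ^ ((α + β - 2) * (j : ℝ)) := by
            rw [← Real.rpow_add (by norm_num), ← Real.rpow_add (by norm_num)]
            congr 1
            push_cast
            ring
          calc C * (2 : ℝ) ^ (((j + 1 : ℕ) : ℝ) * α) * (D * (2 : ℝ) ^ ((j : ℝ) * (β - 2))) =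
              D * C * ((2 : ℝ) ^ (((j + 1 : ℕ) : ℝ) * α) * (2 : ℝ) ^ ((j : ℝ) * (β - 2))) := by ring
            _ = _ := by rw [this]; ring
  refine ne_top_of_le_ne_top ?_ (ENNReal.tsum_le_tsum h6)
  have hr0 : (0 : ℝ) < 2 ^ (α + β - 2) := by positivity
  have hr1 : (2 : ℝ) ^ (α + β - 2) < 1 := Real.rpow_lt_one_of_one_lt_of_neg (by norm_num) (by linarith)
  have hs : Summable fun j : ℕ => D * C * 2 ^ α * ((2 : ℝ) ^ (α + β - 2)) ^ j :=
    (summable_geometric_of_lt_one hr0.le hr1).mul_left _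
  rw [← ENNReal.ofReal_tsum_of_nonneg (fun j => by positivity) hs]
  exact ENNReal.ofReal_ne_top

lemma fin_abs (B : Set ℤ) (T : ℝ) : {m : ℤ | |(m : ℝ)| ≤ T ∧ m ∈ B}.Finite := by
  refine (Set.finite_Icc (-⌈T⌉) ⌈T⌉).subset ?_
  rintro m ⟨h1, -⟩
  rw [abs_le] at h1
  have h2 := Int.le_ceil T
  rw [Set.mem_Icc]
  constructor
  · have : (-(⌈T⌉ : ℝ)) ≤ m := by linarith
    exact_mod_cast this
  · have : (m : ℝ) ≤ ⌈T⌉ := by linarith
    exact_mod_cast this

lemma card_abs (T : ℝ) (hT : 1 ≤ T) :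
    ((({m : ℤ | |(m : ℝ)| ≤ T ∧ m ∈ (Set.univ : Set ℤ)}).ncard : ℕ) : ℝ) ≤ 3 * T ^ (1 : ℝ) := by
  have hsub : {m : ℤ | |(m : ℝ)| ≤ T ∧ m ∈ (Set.univ : Set ℤ)} ⊆ (Finset.Icc (-⌊T⌋) ⌊T⌋ : Finset ℤ) := by
    rintro m ⟨h1, -⟩
    rw [abs_le] at h1
    rw [Finset.mem_coe, Finset.mem_Icc]
    constructor
    · rw [neg_le, Int.le_floor]
      push_cast
      linarith
    · rw [Int.le_floor]
      exact h1.2
  have h1 := Set.ncard_le_ncard hsub (Finset.finite_toSet _)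
  rw [Set.ncard_coe_finset, Int.card_Icc] at h1
  have hf : (0 : ℤ) ≤ ⌊T⌋ := Int.floor_nonneg.mpr (by linarith)
  have h2 : ((({m : ℤ | |(m : ℝ)| ≤ T ∧ m ∈ (Set.univ : Set ℤ)}).ncard : ℕ) : ℝ) ≤
      (((⌊T⌋ + 1 - -⌊T⌋).toNat : ℕ) : ℝ) := by exact_mod_cast h1
  have h3 : (((⌊T⌋ + 1 - -⌊T⌋).toNat : ℕ) : ℝ) = 2 * (⌊T⌋ : ℝ) + 1 := by
    have : (((⌊T⌋ + 1 - -⌊T⌋).toNat : ℤ) : ℝ) = 2 * (⌊T⌋ : ℝ) + 1 := by
      rw [Int.toNat_of_nonneg (by omega)]
      push_cast
      ring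
    exact_mod_cast this
  rw [h3] at h2
  have h4 := Int.floor_le T
  rw [Real.rpow_one]
  linarith

/-- the exponent: the terms with few zeros and the terms with many zeros -/
lemma exponent_le {K0 κ V y : ℝ} (hK0 : 0 ≤ K0) (hκ0 : 0 ≤ κ) (hκ : κ ≤ 1) (hV : 0 ≤ V) (hy : 2 ≤ y) :
    2 * (K0 + κ * (y / Real.log y)) * V ≤ (3 * K0 + 270) * Real.exp (9 / 10 * V) + 9 / 4 * κ * y := by
  have hl2 := Real.log_two_gt_d9
  have hly : Real.log 2 ≤ Real.log y := Real.log_le_log (by norm_num) hy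
  have hl0 : 0 < Real.log y := by linarith
  have hy0 : 0 < y := by linarith
  have hE0 : 0 < Real.exp (9 / 10 * V) := Real.exp_pos _
  have h1 : V ≤ 10 / 9 * Real.exp (9 / 10 * V) := by
    have := Real.add_one_le_exp (9 / 10 * V)
    linarith
  have h2 : 2 * K0 * V ≤ 3 * K0 * Real.exp (9 / 10 * V) := by
    have := mul_le_mul_of_nonneg_left h1 hK0
    nlinarith [mul_nonneg hK0 hE0.le]
  have h3 : 2 * (κ * (y / Real.log y)) * V ≤ 270 * Real.exp (9 / 10 * V) + 9 / 4 * κ * y := by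
    rcases le_or_gt (Real.exp (8 / 9 * V)) y with h | h
    · have h4 : 8 / 9 * V ≤ Real.log y := by rwa [Real.le_log_iff_exp_le hy0]
      have h5 : y / Real.log y * V ≤ 9 / 8 * y := by
        rw [div_mul_eq_mul_div, div_le_iff₀ hl0]
        nlinarith
      have h6 := mul_le_mul_of_nonneg_left h5 hκ0
      nlinarith
    · have h4 : y / Real.log y ≤ 3 / 2 * Real.exp (8 / 9 * V) := by
        rw [div_le_iff₀ hl0]
        have : 3 / 2 * Real.exp (8 / 9 * V) * Real.log y ≥ 3 / 2 * Real.exp (8 / 9 * V) * (2 / 3) := by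
          refine mul_le_mul_of_nonneg_left (by linarith) (by positivity)
        linarith
      have h5 : V ≤ 90 * Real.exp (1 / 90 * V) := by
        have := Real.add_one_le_exp (1 / 90 * V)
        linarith
      have h6 : Real.exp (8 / 9 * V) * Real.exp (1 / 90 * V) = Real.exp (9 / 10 * V) := by
        rw [← Real.exp_add]
        congr 1
        ring
      have h7 : κ * (y / Real.log y) ≤ 1 * (3 / 2 * Real.exp (8 / 9 * V)) :=
        mul_le_mul hκ h4 (by positivity) (by norm_num)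
      have h8 : κ * (y / Real.log y) * V ≤ 3 / 2 * Real.exp (8 / 9 * V) * (90 * Real.exp (1 / 90 * V)) := by
        rw [one_mul] at h7
        exact mul_le_mul h7 h5 hV (by positivity)
      have h9 : 0 ≤ 9 / 4 * κ * y := by positivity
      have h10 : 3 / 2 * Real.exp (8 / 9 * V) * (90 * Real.exp (1 / 90 * V)) = 135 * Real.exp (9 / 10 * V) := by
        rw [← h6]
        ring
      linarith
  linarith


/-- the bound for the number of zeros in the short intervals meeting a unit interval -/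
lemma blk_cnt {θ T0 η : ℝ} (hT0 : Real.exp 1 ≤ T0) (hη : 0 < η)
    (hcnt : ∀ t : ℝ, T0 ≤ Lg t → Cnt t (θ / Real.log (Lg t)) ((1 / 2 + η) * Lg t / Real.log (Lg t))) :
    ∃ K0 : ℝ, 0 ≤ K0 ∧ ∀ (m : ℤ) (κ : ℝ), (1 / 4 + η ≤ κ ∧ ¬ Bad θ T0 η m ∨ 1 / 2 + η ≤ κ) →
      ∀ τ : ℝ, (m : ℝ) ≤ τ → τ ≤ m + 1 → Cnt τ (rad θ T0 τ) (K0 + κ * ((Lg m + 1) / Real.log (Lg m + 1))) := by
  obtain ⟨C0, hC0, hc⟩ := Pool.Agent.Y23.cnt
  have hT0' : 0 < T0 := (Real.exp_pos 1).trans_le hT0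
  refine ⟨C0 * T0, by positivity, fun m κ hκ τ h1 h2 => ?_⟩
  have hκ0 : 0 ≤ κ := by
    rcases hκ with ⟨h, -⟩ | h <;> linarith
  have hL := Pool.Agent.Y23.one_le_Lg (m : ℝ)
  have hLτ := Pool.Agent.Y23.one_le_Lg τ
  have hY : Lg τ ≤ Lg m + 1 := by
    have h3 := BK.Lg_shift m (τ - m)
    rw [add_sub_cancel] at h3
    have h4 : Real.log (1 + |τ - m|) ≤ |τ - m| := by
      have := Real.log_le_sub_one_of_pos (show 0 < 1 + |τ - m| by positivity)
      linarith
    rw [abs_of_nonneg (by linarith : 0 ≤ τ - m)] at h3 h4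
    linarith
  have hlY : 0 < Real.log (Lg m + 1) := Real.log_pos (by linarith)
  by_cases h : T0 ≤ Lg τ
  · rw [rad, if_pos h]
    have h5 : Cnt τ (θ / Real.log (Lg τ)) (κ * Lg τ / Real.log (Lg τ)) := by
      have hl0 : 0 ≤ Real.log (Lg τ) := Real.log_nonneg hLτ
      rcases hκ with ⟨hκ1, hb⟩ | hκ1
      · have h6 : Cnt τ (θ / Real.log (Lg τ)) ((1 / 4 + η) * Lg τ / Real.log (Lg τ)) := by
          by_contra hcon
          exact hb ⟨τ, h1, h2, h, hcon⟩
        intro S hS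
        refine (h6 S hS).trans ?_
        gcongr
      · intro S hS
        refine (hcnt τ h S hS).trans ?_
        gcongr
    intro S hS
    refine (h5 S hS).trans ?_
    have he : Real.exp 1 ≤ Lg τ := hT0.trans h
    have h7 := Real.log_div_self_antitoneOn (Set.mem_ofPred.mpr he) (Set.mem_ofPred.mpr (he.trans hY)) hY
    simp only at h7
    have hl1 : 0 < Real.log (Lg τ) := by
      refine Real.log_pos ?_
      have := Real.add_one_le_exp (1 : ℝ)
      linarith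
    have h8 : Lg τ / Real.log (Lg τ) ≤ (Lg m + 1) / Real.log (Lg m + 1) := by
      rw [div_le_div_iff₀ (by linarith) (by linarith)] at h7
      rw [div_le_div_iff₀ hl1 hlY]
      linarith
    have h9 := mul_le_mul_of_nonneg_left h8 hκ0
    have h10 : 0 ≤ C0 * T0 := by positivity
    rw [mul_div_assoc]
    linarith
  · rw [rad, if_neg h]
    intro S hS
    have h3 := hc τ S hS
    push_cast at h3
    have h4 : C0 * Lg τ ≤ C0 * T0 := mul_le_mul_of_nonneg_left (not_le.mp h).le hC0.le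
    have h5 : 0 ≤ κ * ((Lg m + 1) / Real.log (Lg m + 1)) := by positivity
    linarith

/-- one block -/
lemma block {b v : ℝ} (h : RiemannHypothesis) (hb : 0 < b) (hv : |v| ≤ 1 / 4) (m : ℤ) :
    ∫⁻ t in Set.Icc ((m : ℝ) - v) (m + 1 - v), ENNReal.ofReal (‖1 - Fr b v t‖ ^ 2 / (1 / 4 + t ^ 2)) ≤
      ENNReal.ofReal (17 * (1 + (m : ℝ) ^ 2)⁻¹ * ∫ t in ((m : ℝ) - v)..(m + 1 - v), ‖1 - Fr b v t‖ ^ 2) := by
  have hcont : Continuous fun t : ℝ => ‖1 - Fr b v t‖ ^ 2 := by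
    have h1 : Continuous fun t : ℝ => Fr b v t :=
      (U3.Fr_cont h hb).comp (continuous_id.prodMk continuous_const)
    fun_prop
  have h2 : ∀ t ∈ Set.Icc ((m : ℝ) - v) (m + 1 - v), ENNReal.ofReal (‖1 - Fr b v t‖ ^ 2 / (1 / 4 + t ^ 2)) ≤
      ENNReal.ofReal (17 * (1 + (m : ℝ) ^ 2)⁻¹ * ‖1 - Fr b v t‖ ^ 2) := by
    intro t ht
    refine ENNReal.ofReal_le_ofReal ?_
    rw [div_eq_inv_mul]
    refine mul_le_mul_of_nonneg_right ?_ (by positivity)
    rw [inv_le_iff_one_le_mul₀ (by positivity), mul_assoc, mul_comm, mul_assoc, ← div_eq_inv_mul, one_le_div (by positivity)]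
    have hv' := abs_le.mp hv
    have h3 : |t - m| ≤ 5 / 4 := by
      rw [abs_le]
      constructor <;> linarith [ht.1, ht.2]
    have h4 : (t - m) ^ 2 ≤ (5 / 4) ^ 2 := by
      rw [← sq_abs]
      gcongr
    nlinarith [sq_nonneg (2 * t - m)]
  calc ∫⁻ t in Set.Icc ((m : ℝ) - v) (m + 1 - v), ENNReal.ofReal (‖1 - Fr b v t‖ ^ 2 / (1 / 4 + t ^ 2))
      ≤ ∫⁻ t in Set.Icc ((m : ℝ) - v) (m + 1 - v), ENNReal.ofReal (17 * (1 + (m : ℝ) ^ 2)⁻¹ * ‖1 - Fr b v t‖ ^ 2) :=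
        setLIntegral_mono' measurableSet_Icc h2
    _ = ENNReal.ofReal (∫ t in Set.Icc ((m : ℝ) - v) (m + 1 - v), 17 * (1 + (m : ℝ) ^ 2)⁻¹ * ‖1 - Fr b v t‖ ^ 2) := by
        rw [ofReal_integral_eq_lintegral_ofReal]
        · exact ((hcont.const_mul _).integrableOn_Icc)
        · exact Eventually.of_forall fun t => by positivity
    _ = _ := by
        congr 1
        rw [integral_const_mul, integral_Icc_eq_integral_Ioc, ← intervalIntegral.integral_of_le (by linarith)]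

end DT

open DT in
theorem devT (h1 : S_cnt2) (_h2 : S_pt) (h3 : S_blk) : S_devT := by
  classical
  intro RH
  set η : ℝ := 1 / 200 with hη
  have hη0 : 0 < η := by norm_num
  obtain ⟨θ, C, T0, hθ, hθ1, hC, hT0, hslope, hcnt, hbad⟩ := h1 RH η hη0 (by norm_num)
  obtain ⟨e, K, he, he4, hK, hblk⟩ := h3 RH η θ C T0 hη0 (by norm_num) hθ hθ1 hC hT0 hslope
  obtain ⟨K0, hK0, hM⟩ := blk_cnt hT0 hη0 hcnt
  set B : Set ℤ := {m | Bad θ T0 η m} with hB
  set W : ℝ → ℤ → ℝ≥0∞ := fun β m => ENNReal.ofReal ((1 + (m : ℝ) ^ 2)⁻¹ * (3 + |(m : ℝ)|) ^ β) with hW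
  have hS1 : ∑' m : ℤ, B.indicator (W 1.2) m ≠ ⊤ := by
    refine sparse_sum B (C := C) (α := 0.755) (β := 1.2) hC.le (by norm_num) (by norm_num) (by norm_num)
      (fin_abs B) fun T hT => ?_
    have := hbad T hT
    rw [hη] at this
    norm_num at this ⊢
    exact this
  have hS2 : ∑' m : ℤ, (Set.univ : Set ℤ).indicator (W 0.64) m ≠ ⊤ :=
    sparse_sum Set.univ (C := 3) (α := 1) (β := 0.64) (by norm_num) (by norm_num) (by norm_num) (by norm_num)
      (fin_abs _) card_abs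
  set S : ℝ≥0∞ := (∑' m : ℤ, B.indicator (W 1.2) m) + ∑' m : ℤ, (Set.univ : Set ℤ).indicator (W 0.64) m with hS
  have hStop : S ≠ ⊤ := ENNReal.add_ne_top.mpr ⟨hS1, hS2⟩
  set E : ℝ := 3 * K0 + 270 + 10 / 9 with hE
  set D : ℝ := 17 * K * Real.exp 3 with hD
  have hD0 : 0 < D := by positivity
  refine ⟨max (D * S.toReal + 1) E, e, e, lt_max_of_lt_left (by positivity), he, he4, he, ?_⟩
  intro b v T hb hbe hve hT
  set V : ℝ := Real.log (1 + |v| / b) with hV
  have hv0 : 0 ≤ |v| / b := by positivity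
  have hV0 : 0 ≤ V := Real.log_nonneg (by linarith)
  have hVe : Real.exp V = 1 + |v| / b := Real.exp_log (by linarith)
  have hVe9 : Real.exp (9 / 10 * V) = (1 + |v| / b) ^ (9 / 10 : ℝ) := by
    rw [Real.rpow_def_of_pos (by linarith), mul_comm]
  set Q : ℝ := D * b * T ^ (-(1 / 50 : ℝ)) * Real.exp (E * Real.exp (9 / 10 * V)) with hQ
  have hTp : 0 < T ^ (-(1 / 50 : ℝ)) := by positivity
  have hQ0 : 0 < Q := by positivity
  -- one block
  have key : ∀ m : ℤ, ∫⁻ t in ({t : ℝ | T < |t|} ∩ Set.Icc ((m : ℝ) - v) (m + 1 - v)),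
      ENNReal.ofReal (‖1 - Fr b v t‖ ^ 2 / (1 / 4 + t ^ 2)) ≤
      ENNReal.ofReal Q * (B.indicator (W 1.2) m + (Set.univ : Set ℤ).indicator (W 0.64) m) := by
    intro m
    by_cases hne : ({t : ℝ | T < |t|} ∩ Set.Icc ((m : ℝ) - v) (m + 1 - v)).Nonempty
    swap
    · rw [Set.not_nonempty_iff_eq_empty] at hne
      rw [hne]
      simp
    obtain ⟨t0, ht0, ht1⟩ := hne
    have hTm : T ≤ 3 + |(m : ℝ)| := by
      have h4 : |t0| ≤ |(m : ℝ)| + |t0 - m| := by
        have := abs_add_le (m : ℝ) (t0 - m)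
        rwa [add_sub_cancel] at this
      have hv' := abs_le.mp hve
      have h5 : |t0 - m| ≤ 2 := by
        rw [abs_le]
        constructor <;> linarith [ht1.1, ht1.2]
      have h6 : T < |t0| := ht0
      linarith
    set x : ℝ := 3 + |(m : ℝ)| with hx
    have hx3 : 3 ≤ x := by
      have := abs_nonneg (m : ℝ)
      linarith
    have hLg : Lg m = Real.log x := rfl
    have hL1 := Pool.Agent.Y23.one_le_Lg (m : ℝ)
    -- the general bound
    have gen : ∀ κ β : ℝ, 0 ≤ κ → κ ≤ 1 → 3 / 50 + 9 / 4 * κ ≤ β →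
        (1 / 4 + η ≤ κ ∧ ¬ Bad θ T0 η m ∨ 1 / 2 + η ≤ κ) →
        ∫⁻ t in ({t : ℝ | T < |t|} ∩ Set.Icc ((m : ℝ) - v) (m + 1 - v)),
          ENNReal.ofReal (‖1 - Fr b v t‖ ^ 2 / (1 / 4 + t ^ 2)) ≤ ENNReal.ofReal Q * W β m := by
      intro κ β hκ0 hκ1 hβ hκ
      have h4 := hblk b v (K0 + κ * ((Lg m + 1) / Real.log (Lg m + 1))) m hb hbe hve (hM m κ hκ)
      have h5 := DT.exponent_le (V := V) (y := Lg m + 1) hK0 hκ0 hκ1 hV0 (by linarith)
      have h6 : K * (b + |v|) * Real.exp (8 * η * Lg m +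
          2 * (K0 + κ * ((Lg m + 1) / Real.log (Lg m + 1))) * Real.log (1 + |v| / b)) ≤
          K * b * Real.exp 3 * T ^ (-(1 / 50 : ℝ)) * Real.exp (E * Real.exp (9 / 10 * V)) * x ^ β := by
        have e1 : b + |v| = b * Real.exp V := by
          rw [hVe]
          field_simp
        have e2 : T ^ (-(1 / 50 : ℝ)) ≥ x ^ (-(1 / 50 : ℝ)) :=
          Real.rpow_le_rpow_of_nonpos (by linarith) hTm (by norm_num)
        have e3 : x ^ (-(1 / 50 : ℝ)) = Real.exp (Lg m * (-(1 / 50 : ℝ))) := by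
          rw [hLg, Real.rpow_def_of_pos (by linarith)]
        have e4 : x ^ β = Real.exp (Lg m * β) := by
          rw [hLg, Real.rpow_def_of_pos (by linarith)]
        have e5 : V ≤ 10 / 9 * Real.exp (9 / 10 * V) := by
          have := Real.add_one_le_exp (9 / 10 * V)
          linarith
        calc K * (b + |v|) * Real.exp (8 * η * Lg m +
              2 * (K0 + κ * ((Lg m + 1) / Real.log (Lg m + 1))) * Real.log (1 + |v| / b))
            = K * b * Real.exp (V + (8 * η * Lg m +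
              2 * (K0 + κ * ((Lg m + 1) / Real.log (Lg m + 1))) * V)) := by
              rw [e1, Real.exp_add V]
              ring
          _ ≤ K * b * Real.exp (3 + (Lg m * (-(1 / 50 : ℝ)) + (E * Real.exp (9 / 10 * V) + Lg m * β))) := by
              refine mul_le_mul_of_nonneg_left (Real.exp_le_exp.mpr ?_) (by positivity)
              have h7 : 8 * η * Lg m = 1 / 25 * Lg m := by
                rw [hη]
                ring
              rw [h7, hE]
              have h8 : (3 / 50 + 9 / 4 * κ) * Lg m ≤ β * Lg m := mul_le_mul_of_nonneg_right hβ (by linarith)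
              linarith
          _ = K * b * Real.exp 3 * x ^ (-(1 / 50 : ℝ)) * Real.exp (E * Real.exp (9 / 10 * V)) * x ^ β := by
              rw [e3, e4, Real.exp_add, Real.exp_add, Real.exp_add]
              ring
          _ ≤ _ := by gcongr
      calc ∫⁻ t in ({t : ℝ | T < |t|} ∩ Set.Icc ((m : ℝ) - v) (m + 1 - v)),
            ENNReal.ofReal (‖1 - Fr b v t‖ ^ 2 / (1 / 4 + t ^ 2))
          ≤ ∫⁻ t in Set.Icc ((m : ℝ) - v) (m + 1 - v), ENNReal.ofReal (‖1 - Fr b v t‖ ^ 2 / (1 / 4 + t ^ 2)) :=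
            lintegral_mono_set Set.inter_subset_right
        _ ≤ ENNReal.ofReal (17 * (1 + (m : ℝ) ^ 2)⁻¹ * ∫ t in ((m : ℝ) - v)..(m + 1 - v), ‖1 - Fr b v t‖ ^ 2) :=
            block RH hb (hve.trans he4) m
        _ ≤ ENNReal.ofReal (Q * ((1 + (m : ℝ) ^ 2)⁻¹ * x ^ β)) := by
            refine ENNReal.ofReal_le_ofReal ?_
            calc 17 * (1 + (m : ℝ) ^ 2)⁻¹ * ∫ t in ((m : ℝ) - v)..(m + 1 - v), ‖1 - Fr b v t‖ ^ 2
                ≤ 17 * (1 + (m : ℝ) ^ 2)⁻¹ * (K * b * Real.exp 3 * T ^ (-(1 / 50 : ℝ)) *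
                  Real.exp (E * Real.exp (9 / 10 * V)) * x ^ β) := by
                  refine mul_le_mul_of_nonneg_left (h4.trans h6) (by positivity)
              _ = _ := by
                  rw [hQ, hD]
                  ring
        _ = ENNReal.ofReal Q * W β m := by
            rw [ENNReal.ofReal_mul hQ0.le]
    by_cases hm : m ∈ B
    · rw [Set.indicator_of_mem hm]
      refine (gen (1 / 2 + η) 1.2 (by norm_num) (by norm_num) (by norm_num) (Or.inr le_rfl)).trans ?_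
      gcongr
      exact le_self_add
    · rw [Set.indicator_of_mem (Set.mem_univ m)]
      refine (gen (1 / 4 + η) 0.64 (by norm_num) (by norm_num) (by norm_num) (Or.inl ⟨le_rfl, hm⟩)).trans ?_
      gcongr
      exact le_add_self
  have hcov : {t : ℝ | T < |t|} ⊆ ⋃ m : ℤ, ({t : ℝ | T < |t|} ∩ Set.Icc ((m : ℝ) - v) (m + 1 - v)) := by
    intro t ht
    rw [Set.mem_iUnion]
    refine ⟨⌊t + v⌋, ht, ?_, ?_⟩
    · have := Int.floor_le (t + v)
      linarith
    · have := Int.lt_floor_add_one (t + v)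
      linarith
  calc ∫⁻ t in {t : ℝ | T < |t|}, ENNReal.ofReal (‖1 - Fr b v t‖ ^ 2 / (1 / 4 + t ^ 2))
      ≤ ∫⁻ t in ⋃ m : ℤ, ({t : ℝ | T < |t|} ∩ Set.Icc ((m : ℝ) - v) (m + 1 - v)),
        ENNReal.ofReal (‖1 - Fr b v t‖ ^ 2 / (1 / 4 + t ^ 2)) := lintegral_mono_set hcov
    _ ≤ ∑' m : ℤ, ∫⁻ t in ({t : ℝ | T < |t|} ∩ Set.Icc ((m : ℝ) - v) (m + 1 - v)),
        ENNReal.ofReal (‖1 - Fr b v t‖ ^ 2 / (1 / 4 + t ^ 2)) := lintegral_iUnion_le _ _
    _ ≤ ∑' m : ℤ, ENNReal.ofReal Q * (B.indicator (W 1.2) m + (Set.univ : Set ℤ).indicator (W 0.64) m) :=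
        ENNReal.tsum_le_tsum key
    _ = ENNReal.ofReal Q * S := by rw [ENNReal.tsum_mul_left, ENNReal.tsum_add]
    _ = ENNReal.ofReal (Q * S.toReal) := by
        rw [ENNReal.ofReal_mul hQ0.le, ENNReal.ofReal_toReal hStop]
    _ ≤ _ := by
        refine ENNReal.ofReal_le_ofReal ?_
        rw [← hVe9, hQ]
        calc D * b * T ^ (-(1 / 50 : ℝ)) * Real.exp (E * Real.exp (9 / 10 * V)) * S.toReal
            = (D * S.toReal) * b * T ^ (-(1 / 50 : ℝ)) * Real.exp (E * Real.exp (9 / 10 * V)) := by ring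
          _ ≤ max (D * S.toReal + 1) E * b * T ^ (-(1 / 50 : ℝ)) *
              Real.exp (max (D * S.toReal + 1) E * Real.exp (9 / 10 * V)) := by
              have h4 : D * S.toReal ≤ max (D * S.toReal + 1) E := le_trans (by linarith) (le_max_left _ _)
              have h5 : E ≤ max (D * S.toReal + 1) E := le_max_right _ _
              gcongr

end Pool.Agent.N967
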