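import Mathlib
import Pool.Agent.N967.Stm3

set_option autoImplicit false

/-!
# Baez-Duarte's distance, the asymptotic formula: the profile through derivatives of the kernel
-/

namespace Pool.Agent.N967

open Complex MeasureTheory Set Filter Topology

namespace GgAux

/-- decay of the kernel -/
lemma exp_decay (c : ℝ) (hc : 0 < c) : ∃ D : ℝ, 0 < D ∧ ∀ y : ℝ,
    Real.exp (-(c * |y| ^ (19 / 20 : ℝ))) ≤ D * (1 + |y|) ^ (-(2 : ℝ)) := by
  refine ⟨4 * (1 + 24 / c ^ 4), by positivity, fun y => ?_⟩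
  set u : ℝ := |y| with hu
  have hu0 : 0 ≤ u := abs_nonneg y
  have hrp : (1 + u) ^ (-(2 : ℝ)) = 1 / (1 + u) ^ 2 := by
    rw [Real.rpow_neg (by positivity)]
    norm_num
  rw [hrp, mul_one_div, le_div_iff₀ (by positivity)]
  rcases le_or_gt u 1 with h | h
  · have h1 : Real.exp (-(c * u ^ (19 / 20 : ℝ))) ≤ 1 := by
      apply Real.exp_le_one_iff.mpr
      have : 0 ≤ c * u ^ (19 / 20 : ℝ) := by positivity
      linarith
    have h2 : (1 + u) ^ 2 ≤ 4 := by nlinarith
    calc Real.exp (-(c * u ^ (19 / 20 : ℝ))) * (1 + u) ^ 2 ≤ 1 * 4 := by gcongr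
      _ ≤ 4 * (1 + 24 / c ^ 4) := by
          have : 0 ≤ 24 / c ^ 4 := by positivity
          linarith
  · have h1 : u ^ (1 / 2 : ℝ) ≤ u ^ (19 / 20 : ℝ) :=
      Real.rpow_le_rpow_of_exponent_le h.le (by norm_num)
    set s : ℝ := c * u ^ (19 / 20 : ℝ) with hs
    have hs0 : 0 < s := by positivity
    have h3 : c ^ 4 * u ^ 2 ≤ s ^ 4 := by
      have e1 : (c * u ^ (1 / 2 : ℝ)) ^ 4 ≤ s ^ 4 := by
        rw [hs]
        gcongr
      have e2 : (u ^ (1 / 2 : ℝ)) ^ 4 = u ^ 2 := by
        rw [← Real.rpow_natCast, ← Real.rpow_mul hu0]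
        norm_num
      rw [mul_pow, e2] at e1
      exact e1
    have h4 : s ^ 4 / 24 ≤ Real.exp s := by
      have := Real.pow_div_factorial_le_exp s hs0.le 4
      norm_num [Nat.factorial] at this
      exact this
    have h5 : Real.exp (-s) * u ^ 2 ≤ 24 / c ^ 4 := by
      rw [Real.exp_neg, inv_mul_le_iff₀ (Real.exp_pos _)]
      have : c ^ 4 * u ^ 2 / 24 ≤ Real.exp s := le_trans (by gcongr) h4
      have e3 : u ^ 2 = (c ^ 4 * u ^ 2 / 24) * (24 / c ^ 4) := by
        field_simp
      calc u ^ 2 = (c ^ 4 * u ^ 2 / 24) * (24 / c ^ 4) := e3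
        _ ≤ Real.exp s * (24 / c ^ 4) := by gcongr
    have h6 : (1 + u) ^ 2 ≤ 4 * u ^ 2 := by nlinarith
    calc Real.exp (-s) * (1 + u) ^ 2 ≤ Real.exp (-s) * (4 * u ^ 2) := by gcongr
      _ = 4 * (Real.exp (-s) * u ^ 2) := by ring
      _ ≤ 4 * (24 / c ^ 4) := by gcongr
      _ ≤ 4 * (1 + 24 / c ^ 4) := by linarith

lemma decay2_le (y : ℝ) : (1 + |y|) ^ (-(2 : ℝ)) ≤ (1 + |y|) ^ (-(1 / 2 : ℝ)) := by
  apply Real.rpow_le_rpow_of_exponent_le
  · linarith [abs_nonneg y]
  · norm_num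

lemma integrable_decay2 : Integrable (fun y : ℝ => (1 + |y|) ^ (-(2 : ℝ))) := by
  have := integrable_one_add_norm (E := ℝ) (μ := volume) (r := 2) (by simp)
  simpa using this

/-- bound for the kernel in a right half plane -/
lemma ker_bound {κ : ℂ → ℂ} (hk : Ker κ) (b : ℝ) (hb : 0 ≤ b) : ∃ A : ℝ, 0 < A ∧
    ∀ z : ℂ, -b ≤ z.re → ‖κ z‖ ≤ A * (1 + |z.im|) ^ (-(2 : ℝ)) := by
  obtain ⟨-, -, c, C, hc, hC, h1, h2⟩ := hk
  obtain ⟨D, hD, hDy⟩ := exp_decay c hc
  refine ⟨C * Real.exp b * D, by positivity, fun z hz => ?_⟩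
  rcases le_or_gt z.re 0 with h | h
  · refine (h2 z h).trans ?_
    calc C * Real.exp (-z.re) * Real.exp (-(c * |z.im| ^ (19 / 20 : ℝ)))
        ≤ C * Real.exp b * (D * (1 + |z.im|) ^ (-(2 : ℝ))) := by
          have := hDy z.im
          gcongr
          linarith
      _ = _ := by ring
  · refine (h1 z h.le).trans ?_
    have he : 1 ≤ Real.exp b := Real.one_le_exp hb
    calc C * Real.exp (-(c * |z.im| ^ (19 / 20 : ℝ)))
        ≤ C * (D * (1 + |z.im|) ^ (-(2 : ℝ))) := by
          have := hDy z.im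
          gcongr
      _ = C * 1 * D * (1 + |z.im|) ^ (-(2 : ℝ)) := by ring
      _ ≤ _ := by gcongr

/-- the line moved to infinity -/
lemma shift_inf (hs : S_shift) {F : ℂ → ℂ} {a A : ℝ} (ha : a < 0) (hF : Differentiable ℂ F)
    (hA : ∀ z : ℂ, a ≤ z.re → ‖F z‖ ≤ A * (1 + |z.im|) ^ (-(2 : ℝ))) :
    ∫ y : ℝ, F (a + y * I) / (a + y * I) = -(2 * Real.pi * F 0) := by
  have hA0 : 0 ≤ A := by
    have := hA 0 (by simpa using ha.le)
    simp at this
    exact (norm_nonneg _).trans this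
  have key : ∀ b : ℝ, 0 < b → (∫ y : ℝ, F (b + y * I) / (b + y * I)) -
      (∫ y : ℝ, F (a + y * I) / (a + y * I)) = 2 * Real.pi * F 0 := by
    intro b hb
    exact hs F a b A ha hb (fun z _ _ => hF z)
      (fun z hz _ => (hA z hz).trans (mul_le_mul_of_nonneg_left (decay2_le _) hA0))
  set J : ℝ := ∫ y : ℝ, (1 + |y|) ^ (-(2 : ℝ)) with hJ
  have hJ0 : 0 ≤ J := integral_nonneg fun y => by positivity
  have hsmall : ∀ b : ℝ, 0 < b → ‖∫ y : ℝ, F (b + y * I) / (b + y * I)‖ ≤ A / b * J := by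
    intro b hb
    rw [hJ, ← integral_const_mul]
    refine norm_integral_le_of_norm_le (integrable_decay2.const_mul _) (Eventually.of_forall fun y => ?_)
    have h1 := hA ((b : ℂ) + y * I) (by simp; linarith)
    have h2 : b ≤ ‖(b : ℂ) + y * I‖ := by
      have := Complex.abs_re_le_norm ((b : ℂ) + y * I)
      simp only [add_re, ofReal_re, mul_re, I_re, mul_zero, ofReal_im, I_im, mul_one, sub_self, add_zero] at this
      exact (le_abs_self b).trans this
    have h3 : ((b : ℂ) + y * I).im = y := by simp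
    rw [h3] at h1
    rw [norm_div]
    calc ‖F ((b : ℂ) + y * I)‖ / ‖(b : ℂ) + y * I‖ ≤ (A * (1 + |y|) ^ (-(2 : ℝ))) / b := by gcongr
      _ = A / b * (1 + |y|) ^ (-(2 : ℝ)) := by ring
  generalize hAA : (∫ y : ℝ, F (a + y * I) / (a + y * I)) = T at key ⊢
  have hle : ∀ b : ℝ, 0 < b → ‖2 * (Real.pi : ℂ) * F 0 + T‖ ≤ A / b * J := by
    intro b hb
    have := hsmall b hb
    have h2 : (∫ y : ℝ, F (b + y * I) / (b + y * I)) = 2 * (Real.pi : ℂ) * F 0 + T := by
      rw [← key b hb]
      ring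
    rwa [h2] at this
  have h0 : 2 * (Real.pi : ℂ) * F 0 + T = 0 := by
    by_contra hne
    have hpos : 0 < ‖2 * (Real.pi : ℂ) * F 0 + T‖ := norm_pos_iff.mpr hne
    set q := ‖2 * (Real.pi : ℂ) * F 0 + T‖ with hq
    have h1 := hle (A * J / q + 1) (by positivity)
    have h2 : 0 < A * J / q + 1 := by positivity
    rw [div_mul_eq_mul_div, le_div_iff₀ h2] at h1
    have h3 : q * (A * J / q + 1) = A * J + q := by
      field_simp
    rw [h3] at h1
    linarith
  linear_combination h0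

/-- the line of integration -/
noncomputable def zl (y : ℝ) : ℂ := -1 + y * I

lemma zl_re (y : ℝ) : (zl y).re = -1 := by simp [zl]
lemma zl_im (y : ℝ) : (zl y).im = y := by simp [zl]

lemma zl_ne (y : ℝ) : zl y ≠ 0 := by
  intro h
  have := zl_re y
  rw [h] at this
  simp at this

lemma continuous_zl : Continuous zl := by
  unfold zl
  fun_prop

lemma KK_eq (κ : ℂ → ℂ) (y : ℝ) : KK κ y = -(1 / (2 * Real.pi) * (κ (zl y) / zl y)) := rfl

lemma continuous_KK {κ : ℂ → ℂ} (hk : Ker κ) : Continuous (KK κ) := by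
  have : KK κ = fun y => -(1 / (2 * Real.pi) * (κ (zl y) / zl y)) := rfl
  rw [this]
  have h1 : Continuous fun y => κ (zl y) := hk.1.continuous.comp continuous_zl
  exact (continuous_const.mul (h1.div continuous_zl zl_ne)).neg

lemma norm_zl_ge (y : ℝ) : 1 ≤ ‖zl y‖ := by
  have := Complex.abs_re_le_norm (zl y)
  rw [zl_re] at this
  simpa using this

lemma integrable_kap {κ : ℂ → ℂ} (hk : Ker κ) : Integrable (fun y => κ (zl y)) := by
  obtain ⟨A, hA, hb⟩ := ker_bound hk 1 (by norm_num)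
  refine (integrable_decay2.const_mul A).mono' (hk.1.continuous.comp continuous_zl).aestronglyMeasurable
    (Eventually.of_forall fun y => ?_)
  have := hb (zl y) (by rw [zl_re])
  rwa [zl_im] at this

lemma integrable_KK {κ : ℂ → ℂ} (hk : Ker κ) : Integrable (KK κ) := by
  refine ((integrable_kap hk).norm.const_mul (1 / (2 * Real.pi))).mono' (continuous_KK hk).aestronglyMeasurable
    (Eventually.of_forall fun y => ?_)
  rw [KK_eq, norm_neg, norm_mul, norm_div, norm_div]
  have h1 : ‖(1 : ℂ)‖ / ‖2 * (Real.pi : ℂ)‖ = 1 / (2 * Real.pi) := by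
    rw [norm_one, norm_mul, Complex.norm_real, Complex.norm_ofNat, Real.norm_of_nonneg Real.pi_pos.le]
  rw [h1]
  have := norm_zl_ge y
  gcongr
  exact div_le_self (norm_nonneg _) this

lemma int_kap {κ : ℂ → ℂ} (hs : S_shift) (hk : Ker κ) :
    ∫ y : ℝ, κ (zl y) / zl y = -(2 * Real.pi) := by
  obtain ⟨A, hA, hb⟩ := ker_bound hk 1 (by norm_num)
  have := shift_inf hs (a := -1) (by norm_num) hk.1 hb
  rw [hk.2.1, mul_one] at this
  rw [← this]
  congr 1
  funext y
  simp [zl]

lemma int_KK {κ : ℂ → ℂ} (hs : S_shift) (hk : Ker κ) : ∫ y : ℝ, KK κ y = 1 := by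
  have : KK κ = fun y => -(1 / (2 * Real.pi)) * (κ (zl y) / zl y) := by
    funext y
    rw [KK_eq]
    ring
  rw [this, integral_const_mul, int_kap hs hk]
  have : (Real.pi : ℂ) ≠ 0 := by exact_mod_cast Real.pi_ne_zero
  field_simp

lemma int_kap_w {κ : ℂ → ℂ} (hs : S_shift) (hk : Ker κ) (w : ℂ) (hw : -1 < w.re) :
    ∫ y : ℝ, κ (zl y) / (zl y - w) = -(2 * Real.pi * κ w) := by
  obtain ⟨A, hA, hb⟩ := ker_bound hk 1 (by norm_num)
  have h1 := shift_inf hs (F := fun z => κ (w + z)) (a := -1 - w.re) (A := A * (1 + |w.im|) ^ 2)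
    (by linarith) (hk.1.comp (differentiable_id.const_add w)) (by
      intro z hz
      refine (hb (w + z) (by rw [add_re]; linarith)).trans ?_
      rw [mul_assoc]
      gcongr
      rw [add_im, Real.rpow_neg (by positivity), Real.rpow_neg (by positivity), ← div_eq_mul_inv,
        le_div_iff₀ (by positivity), inv_mul_le_iff₀ (by positivity)]
      have e1 : 1 + |z.im| ≤ (1 + |w.im + z.im|) * (1 + |w.im|) := by
        have : |z.im| ≤ |w.im + z.im| + |w.im| := by
          have := abs_sub (w.im + z.im) w.im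
          simpa using this
        nlinarith [abs_nonneg (w.im + z.im), abs_nonneg w.im]
      have e2 : (1 + |z.im|) ^ (2 : ℝ) ≤ ((1 + |w.im + z.im|) * (1 + |w.im|)) ^ (2 : ℝ) := by
        gcongr
      rw [Real.mul_rpow (by positivity) (by positivity)] at e2
      norm_num at e2 ⊢
      exact e2)
  simp only [add_zero] at h1
  rw [← h1]
  rw [← integral_sub_right_eq_self (fun y : ℝ => κ (w + (((-1 - w.re : ℝ) : ℂ) + y * I)) /
    (((-1 - w.re : ℝ) : ℂ) + y * I)) w.im]
  congr 1
  funext y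
  have e : w = w.re + w.im * I := (re_add_im w).symm
  have e3 : w + (((-1 - w.re : ℝ) : ℂ) + ((y - w.im : ℝ) : ℂ) * I) = zl y := by
    unfold zl
    nth_rewrite 1 [e]
    push_cast
    ring
  have e4 : (((-1 - w.re : ℝ) : ℂ) + ((y - w.im : ℝ) : ℂ) * I) = zl y - w := by
    rw [← e3]
    ring
  rw [e3, e4]

/-- the derivatives of the Cauchy transform -/
noncomputable def RR (κ : ℂ → ℂ) (k : ℕ) (w : ℂ) : ℂ := ∫ y : ℝ, KK κ y / (w - zl y) ^ (k + 1)

lemma dist_zl {w : ℂ} {y e : ℝ} (hw : -1 + e ≤ w.re) : e ≤ ‖w - zl y‖ := by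
  have := Complex.abs_re_le_norm (w - zl y)
  rw [sub_re, zl_re] at this
  have h2 := le_abs_self (w.re - -1)
  linarith

lemma RR_zero {κ : ℂ → ℂ} (hs : S_shift) (hk : Ker κ) (w : ℂ) (hw : -1 < w.re) (hw0 : w ≠ 0) :
    RR κ 0 w = w⁻¹ - κ w / w := by
  have hpi : (Real.pi : ℂ) ≠ 0 := by exact_mod_cast Real.pi_ne_zero
  have hne : ∀ y, w - zl y ≠ 0 := by
    intro y h
    have := dist_zl (y := y) (e := w.re + 1) (w := w) (by linarith)
    rw [h, norm_zero] at this
    linarith
  have hi1 : Integrable (fun y => κ (zl y) / zl y) := by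
    refine (integrable_kap hk).norm.mono' ((hk.1.continuous.comp continuous_zl).div continuous_zl zl_ne).aestronglyMeasurable
      (Eventually.of_forall fun y => ?_)
    rw [norm_div]
    exact div_le_self (norm_nonneg _) (norm_zl_ge y)
  have hi2 : Integrable (fun y => κ (zl y) / (zl y - w)) := by
    refine ((integrable_kap hk).norm.div_const (w.re + 1)).mono' ((hk.1.continuous.comp continuous_zl).div
      (continuous_zl.sub continuous_const) (fun y h => hne y (by
        have h' : zl y - w = 0 := h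
        rw [← neg_sub, h', neg_zero]))).aestronglyMeasurable
      (Eventually.of_forall fun y => ?_)
    rw [norm_div]
    have h1 := dist_zl (y := y) (e := w.re + 1) (w := w) (by linarith)
    rw [norm_sub_rev] at h1
    have h2 : 0 < w.re + 1 := by linarith
    gcongr
  have h1 : (fun y : ℝ => KK κ y / (w - zl y) ^ (0 + 1)) = fun y =>
      -(1 / (2 * Real.pi * w)) * (κ (zl y) / zl y - κ (zl y) / (zl y - w)) := by
    funext y
    rw [KK_eq, zero_add, pow_one]
    have h1 := zl_ne y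
    have h2 := hne y
    have h3 : zl y - w ≠ 0 := by
      intro h
      apply h2
      rw [← neg_sub, h, neg_zero]
    field_simp
    ring
  unfold RR
  rw [h1, integral_const_mul, integral_sub hi1 hi2, int_kap hs hk, int_kap_w hs hk w hw]
  field_simp
  ring

lemma RR_deriv {κ : ℂ → ℂ} (hk : Ker κ) (k : ℕ) (w : ℂ) (hw : -1 < w.re) :
    HasDerivAt (RR κ k) (-((k : ℂ) + 1) * RR κ (k + 1) w) w := by
  set e : ℝ := (w.re + 1) / 2 with he
  have he0 : 0 < e := by rw [he]; linarith
  have hball : ∀ w' ∈ Metric.ball w e, ∀ y, e ≤ ‖w' - zl y‖ := by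
    intro w' hw' y
    apply dist_zl
    have h1 : |(w' - w).re| ≤ ‖w' - w‖ := Complex.abs_re_le_norm _
    rw [Metric.mem_ball, dist_eq_norm] at hw'
    have h2 := neg_abs_le (w' - w).re
    rw [sub_re] at h1 h2
    rw [he] at hw' ⊢
    linarith
  have hne : ∀ w' ∈ Metric.ball w e, ∀ y, w' - zl y ≠ 0 := by
    intro w' hw' y h
    have := hball w' hw' y
    rw [h, norm_zero] at this
    linarith
  have hcont : ∀ (j : ℕ) (w' : ℂ), w' ∈ Metric.ball w e → Continuous fun y => KK κ y / (w' - zl y) ^ j := by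
    intro j w' hw'
    exact (continuous_KK hk).div ((continuous_const.sub continuous_zl).pow j)
      (fun y => pow_ne_zero _ (hne w' hw' y))
  have hmem : w ∈ Metric.ball w e := Metric.mem_ball_self he0
  have hbd : ∀ (j : ℕ) (w' : ℂ), w' ∈ Metric.ball w e → ∀ y, ‖KK κ y / (w' - zl y) ^ j‖ ≤ ‖KK κ y‖ / e ^ j := by
    intro j w' hw' y
    rw [norm_div, norm_pow]
    have := hball w' hw' y
    gcongr
  have main := hasDerivAt_integral_of_dominated_loc_of_deriv_le (μ := volume)
    (F := fun (w' : ℂ) (y : ℝ) => KK κ y / (w' - zl y) ^ (k + 1))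
    (F' := fun (w' : ℂ) (y : ℝ) => -((k : ℂ) + 1) * (KK κ y / (w' - zl y) ^ (k + 2)))
    (x₀ := w) (s := Metric.ball w e) (bound := fun y => ((k : ℝ) + 1) * (‖KK κ y‖ / e ^ (k + 2)))
    (Metric.ball_mem_nhds w he0)
    ?_ ?_ ?_ ?_ ?_ ?_
  · have h2 := main.2
    rw [integral_const_mul] at h2
    exact h2
  · filter_upwards [Metric.ball_mem_nhds w he0] with w' hw'
    exact (hcont _ w' hw').aestronglyMeasurable
  · exact ((integrable_KK hk).norm.div_const _).mono' (hcont _ w hmem).aestronglyMeasurable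
      (Eventually.of_forall fun y => hbd _ w hmem y)
  · exact (continuous_const.mul (hcont _ w hmem)).aestronglyMeasurable
  · refine Eventually.of_forall fun y w' hw' => ?_
    rw [norm_mul, norm_neg]
    have h1 : ‖(k : ℂ) + 1‖ = (k : ℝ) + 1 := by
      have : ((k : ℂ) + 1) = ((k + 1 : ℕ) : ℂ) := by push_cast; ring
      rw [this, Complex.norm_natCast]
      push_cast
      ring
    rw [h1]
    have := hbd (k + 2) w' hw' y
    gcongr
  · exact ((integrable_KK hk).norm.div_const _).const_mul _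
  · refine Eventually.of_forall fun y w' hw' => ?_
    have h0 := hne w' hw' y
    have h1 : HasDerivAt (fun w' : ℂ => (w' - zl y) ^ (k + 1)) (((k + 1 : ℕ) : ℂ) * (w' - zl y) ^ k * 1) w' := by
      have := (hasDerivAt_id' w').sub_const (zl y)
      have h3 := this.fun_pow (k + 1)
      rw [Nat.add_sub_cancel] at h3
      exact h3
    have h2 := (hasDerivAt_const w' (KK κ y)).fun_div h1 (pow_ne_zero _ h0)
    refine h2.congr_deriv ?_
    push_cast
    field_simp
    ring

lemma RR_iter {κ : ℂ → ℂ} (hk : Ker κ) (k : ℕ) : ∀ w : ℂ, -1 < w.re →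
    iteratedDeriv k (RR κ 0) w = (-1) ^ k * (k.factorial : ℂ) * RR κ k w := by
  induction k with
  | zero => intro w _; simp
  | succ k ih =>
    intro w hw
    rw [iteratedDeriv_succ]
    have hopen : IsOpen {w : ℂ | -1 < w.re} := isOpen_lt continuous_const Complex.continuous_re
    have heq : iteratedDeriv k (RR κ 0) =ᶠ[𝓝 w] fun w => (-1) ^ k * (k.factorial : ℂ) * RR κ k w := by
      filter_upwards [hopen.mem_nhds hw] with w' hw'
      exact ih w' hw'
    rw [heq.deriv_eq]
    rw [((RR_deriv hk k w hw).const_mul _).deriv]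
    rw [Nat.factorial_succ]
    push_cast
    ring

end GgAux

open GgAux in
theorem gg (hs : S_shift) : S_gg := by
  intro κ hk m x hm hx
  obtain ⟨k, rfl⟩ : ∃ k, m = k + 1 := ⟨m - 1, by omega⟩
  set w : ℂ := x * I with hw
  have hwre : w.re = 0 := by simp [hw]
  have hw0 : w ≠ 0 := by
    rw [hw]
    have : (x : ℂ) ≠ 0 := by exact_mod_cast hx
    exact mul_ne_zero this I_ne_zero
  have hden : ∀ y : ℝ, (1 : ℂ) + ((x - y : ℝ) : ℂ) * I = w - zl y := by
    intro y
    rw [hw]
    unfold zl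
    push_cast
    ring
  have hne : ∀ y, w - zl y ≠ 0 := by
    intro y h
    have := dist_zl (y := y) (e := w.re + 1) (w := w) (by linarith)
    rw [h, norm_zero] at this
    linarith
  -- the profile
  have hGG : GG κ (k + 1) x = 1 - w ^ (k + 1) * RR κ k w := by
    unfold GG RR
    have h1 : (fun y : ℝ => KK κ y * (1 - (w / (1 + ((x - y : ℝ) : ℂ) * I)) ^ (k + 1))) =
        fun y => KK κ y - w ^ (k + 1) * (KK κ y / (w - zl y) ^ (k + 1)) := by
      funext y
      rw [hden y, div_pow]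
      have := pow_ne_zero (k + 1) (hne y)
      field_simp
    have hi : Integrable (fun y => KK κ y / (w - zl y) ^ (k + 1)) := by
      refine (integrable_KK hk).norm.mono' ((continuous_KK hk).div ((continuous_const.sub continuous_zl).pow _)
        (fun y => pow_ne_zero _ (hne y))).aestronglyMeasurable (Eventually.of_forall fun y => ?_)
      rw [norm_div, norm_pow]
      have h1 := dist_zl (y := y) (e := 1) (w := w) (by linarith)
      exact div_le_self (norm_nonneg _) (one_le_pow₀ h1)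
    rw [← hw, h1, integral_sub (integrable_KK hk) (hi.const_mul _), int_KK hs hk, integral_const_mul]
  rw [hGG, Nat.add_sub_cancel]
  -- the derivatives
  have hit := RR_iter hk k w (by rw [hwre]; norm_num)
  have hopen : IsOpen {z : ℂ | -1 < z.re ∧ z ≠ 0} := by
    apply IsOpen.inter
    · exact isOpen_lt continuous_const Complex.continuous_re
    · exact isOpen_ne
  have heq : RR κ 0 =ᶠ[𝓝 w] fun z => z⁻¹ - κ z / z := by
    filter_upwards [hopen.mem_nhds ⟨by rw [hwre]; norm_num, hw0⟩] with z hz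
    exact RR_zero hs hk z hz.1 hz.2
  have hit2 : iteratedDeriv k (RR κ 0) w = iteratedDeriv k (fun z => z⁻¹ - κ z / z) w :=
    heq.iteratedDeriv_eq k
  have hc1 : ContDiffAt ℂ k (fun z : ℂ => z⁻¹) w := contDiffAt_inv ℂ hw0
  have hc2 : ContDiffAt ℂ k (fun z : ℂ => κ z / z) w := by
    have h1 : ContDiff ℂ k κ := hk.1.contDiff
    exact h1.contDiffAt.div contDiffAt_id hw0
  have hsub : iteratedDeriv k (fun z => z⁻¹ - κ z / z) w =
      iteratedDeriv k (fun z : ℂ => z⁻¹) w - iteratedDeriv k (fun z => κ z / z) w :=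
    iteratedDeriv_fun_sub hc1 hc2
  have hinv : iteratedDeriv k (fun z : ℂ => z⁻¹) w = (-1) ^ k * (k.factorial : ℂ) / w ^ (k + 1) := by
    rw [iteratedDeriv_eq_iterate]
    have h1 : deriv^[k] (fun z : ℂ => z⁻¹) w = _ := iter_deriv_inv k w
    rw [h1]
    have h3 : w ^ (-1 - (k : ℤ)) = 1 / w ^ (k + 1) := by
      have : (-1 - (k : ℤ)) = -((k + 1 : ℕ) : ℤ) := by push_cast; ring
      rw [this, zpow_neg, zpow_natCast, one_div]
    rw [h3]
    ring
  rw [hit2, hsub, hinv] at hit
  have hf : (k.factorial : ℂ) ≠ 0 := by exact_mod_cast Nat.factorial_ne_zero k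
  have hwp : w ^ (k + 1) ≠ 0 := pow_ne_zero _ hw0
  set Dk := iteratedDeriv k (fun z => κ z / z) w with hDk
  have hneg : ((-1 : ℂ) ^ k) * (-1) ^ k = 1 := by
    rw [← mul_pow]
    simp
  have hR : RR κ k w = 1 / w ^ (k + 1) - (-1) ^ k * Dk / k.factorial := by
    have h2 : (k.factorial : ℂ) * RR κ k w = (-1) ^ k * ((-1) ^ k * (k.factorial : ℂ) / w ^ (k + 1) - Dk) := by
      rw [hit]
      linear_combination (-(k.factorial : ℂ) * RR κ k w) * hneg
    have h3 : RR κ k w = (-1) ^ k * ((-1) ^ k * (k.factorial : ℂ) / w ^ (k + 1) - Dk) / k.factorial := by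
      rw [← h2]
      field_simp
    rw [h3]
    field_simp
    linear_combination (k.factorial : ℂ) * hneg
  rw [hR]
  field_simp
  ring

end Pool.Agent.N967
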