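import Mathlib
import Pool.Agent.N967.Stm3

set_option autoImplicit false

/-!
# Baez-Duarte's distance: the extremal polynomial
-/

namespace Pool.Agent.N967

open Complex MeasureTheory Filter Topology

namespace Hpol

open Polynomial

lemma ibp (q p : ℝ[X]) : ∫ u in (0 : ℝ)..1, (derivative q).eval u * p.eval u =
    q.eval 1 * p.eval 1 - q.eval 0 * p.eval 0 - ∫ u in (0 : ℝ)..1, q.eval u * (derivative p).eval u := by
  have h1 : ∫ u in (0 : ℝ)..1, ((derivative q).eval u * p.eval u + q.eval u * (derivative p).eval u) =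
      q.eval 1 * p.eval 1 - q.eval 0 * p.eval 0 := by
    apply intervalIntegral.integral_eq_sub_of_hasDerivAt (f := fun u => q.eval u * p.eval u)
    · intro x _
      exact (q.hasDerivAt x).mul (p.hasDerivAt x)
    · apply Continuous.intervalIntegrable
      fun_prop
  rw [intervalIntegral.integral_add] at h1
  · linarith
  · apply Continuous.intervalIntegrable
    fun_prop
  · apply Continuous.intervalIntegrable
    fun_prop

lemma ibp_iter (f : ℝ[X]) : ∀ (k : ℕ) (p : ℝ[X]),
    ∫ u in (0 : ℝ)..1, (derivative^[k] f).eval u * p.eval u =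
      (∑ j ∈ Finset.range k, (-1) ^ j * ((derivative^[k - 1 - j] f).eval 1 * (derivative^[j] p).eval 1 -
        (derivative^[k - 1 - j] f).eval 0 * (derivative^[j] p).eval 0)) +
      (-1) ^ k * ∫ u in (0 : ℝ)..1, f.eval u * (derivative^[k] p).eval u := by
  intro k
  induction k with
  | zero => intro p; simp
  | succ k ih =>
    intro p
    have h1 : derivative^[k + 1] f = derivative (derivative^[k] f) := by
      rw [Function.iterate_succ_apply']
    have h2 : ∀ j, derivative^[j] (derivative p) = derivative^[j + 1] p := by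
      intro j
      rw [Function.iterate_succ_apply]
    rw [h1, ibp, ih (derivative p), Finset.sum_range_succ']
    simp only [h2]
    have h3 : ∀ j ∈ Finset.range k, (-1 : ℝ) ^ (j + 1) * ((derivative^[k + 1 - 1 - (j + 1)] f).eval 1 *
        (derivative^[j + 1] p).eval 1 - (derivative^[k + 1 - 1 - (j + 1)] f).eval 0 *
        (derivative^[j + 1] p).eval 0) = -((-1) ^ j * ((derivative^[k - 1 - j] f).eval 1 *
        (derivative^[j + 1] p).eval 1 - (derivative^[k - 1 - j] f).eval 0 *
        (derivative^[j + 1] p).eval 0)) := by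
      intro j hj
      rw [show k + 1 - 1 - (j + 1) = k - 1 - j by omega, pow_succ]
      ring
    rw [Finset.sum_congr rfl h3, Finset.sum_neg_distrib]
    simp only [Nat.add_sub_cancel, Nat.sub_zero, pow_zero, one_mul, Function.iterate_zero, id_eq]
    rw [pow_succ]
    ring

lemma coeff_zero_f (m : ℕ) : ((1 - X : ℝ[X]) ^ m).coeff 0 = 1 := by
  rw [coeff_zero_eq_eval_zero]
  simp

lemma coeff_one_f (m : ℕ) : ((1 - X : ℝ[X]) ^ m).coeff 1 = -(m : ℝ) := by
  have h : (derivative ((1 - X : ℝ[X]) ^ m)).coeff 0 = ((1 - X : ℝ[X]) ^ m).coeff 1 := by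
    rw [coeff_derivative]
    simp
  rw [← h, coeff_zero_eq_eval_zero, derivative_pow]
  simp

lemma eval_zero_iter (f : ℝ[X]) (k : ℕ) : (derivative^[k] f).eval 0 = (k.factorial : ℝ) * f.coeff k := by
  rw [← coeff_zero_eq_eval_zero, coeff_iterate_derivative]
  simp [Nat.descFactorial_self]

end Hpol

open Hpol Polynomial in
theorem hpol_facts : S_hpol := by
  intro m hm
  obtain ⟨n, rfl⟩ : ∃ n, m = n + 1 := ⟨m - 1, by omega⟩
  set f : ℝ[X] := X ^ n * (1 - X) ^ (n + 1) with hf
  have hh : hpol (n + 1) = -(C (1 / (n.factorial : ℝ)) * (derivative^[n + 1] f)) := by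
    rw [hf]
    rfl
  have hfac : (n.factorial : ℝ) ≠ 0 := by positivity
  have hdegf : f.natDegree ≤ n + (n + 1) := by
    have h1 : (1 - X : ℝ[X]).natDegree ≤ 1 := by
      refine (natDegree_sub_le _ _).trans ?_
      simp
    calc f.natDegree ≤ (X ^ n : ℝ[X]).natDegree + ((1 - X : ℝ[X]) ^ (n + 1)).natDegree := natDegree_mul_le
      _ ≤ n + (n + 1) * 1 := by
          apply Nat.add_le_add
          · simp
          · exact natDegree_pow_le.trans (Nat.mul_le_mul_left _ h1)
      _ = _ := by ring
  have hc1 : f.coeff n = 1 := by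
    rw [hf]
    have := coeff_X_pow_mul ((1 - X : ℝ[X]) ^ (n + 1)) n 0
    rw [zero_add] at this
    rw [this, coeff_zero_f]
  have hc2 : f.coeff (n + 1) = -((n + 1 : ℕ) : ℝ) := by
    rw [hf]
    have := coeff_X_pow_mul ((1 - X : ℝ[X]) ^ (n + 1)) n 1
    rw [add_comm 1 n] at this
    rw [this, coeff_one_f]
  have hlow : ∀ i, i < n → (derivative^[i] f).eval 0 = 0 := by
    intro i hi
    rw [eval_zero_iter]
    have : f.coeff i = 0 := by
      rw [hf, coeff_X_pow_mul', if_neg (by omega)]
    rw [this, mul_zero]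
  have hone : ∀ i, i < n + 1 → (derivative^[i] f).eval 1 = 0 := by
    intro i hi
    have hd : (1 - X : ℝ[X]) ^ (n + 1 - i) ∣ derivative^[i] f :=
      pow_sub_dvd_iterate_derivative_of_pow_dvd i (Dvd.intro_left _ rfl)
    obtain ⟨g, hg⟩ := hd
    rw [hg, eval_mul, eval_pow]
    simp [show n + 1 - i ≠ 0 by omega]
  refine ⟨?_, ?_, ?_⟩
  · rw [hh, natDegree_neg]
    refine lt_of_le_of_lt (natDegree_C_mul_le _ _) ?_
    have := natDegree_iterate_derivative f (n + 1)
    omega
  · rw [hh, eval_neg, eval_mul, eval_C, eval_zero_iter, hc2, Nat.factorial_succ]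
    push_cast
    field_simp
  · intro p hp
    have h1 : ∀ u : ℝ, (hpol (n + 1)).eval u * p.eval u =
        -(1 / (n.factorial : ℝ)) * ((derivative^[n + 1] f).eval u * p.eval u) := by
      intro u
      rw [hh, eval_neg, eval_mul, eval_C]
      ring
    simp only [h1]
    rw [intervalIntegral.integral_const_mul, ibp_iter, iterate_derivative_eq_zero hp]
    simp only [eval_zero, mul_zero, intervalIntegral.integral_zero, add_zero]
    rw [Finset.sum_eq_single 0]
    · simp only [Nat.add_sub_cancel, Nat.sub_zero, pow_zero, one_mul, Function.iterate_zero, id_eq]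
      rw [hone n (by omega), eval_zero_iter, hc1]
      field_simp
      ring
    · intro j hj hj0
      rw [Finset.mem_range] at hj
      rw [hone _ (by omega), hlow _ (by omega)]
      ring
    · intro h
      exact absurd (Finset.mem_range.mpr (by omega)) h

end Pool.Agent.N967
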