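import Mathlib
import Pool.Agent.N967.Stm3
import Pool.Agent.N967.Kern2

set_option autoImplicit false

/-!
# A kernel that is bounded by one on the imaginary axis
-/

namespace Pool.Agent.N967

open Complex Filter Topology

open Kern2 in
theorem kern3 : S_kern3 := by
  have hc := c0_pos
  refine ⟨fun z => Complex.exp (-z / 2) * g z, ⟨?_, ?_, (c0 / Real.exp 1) ^ (19 / 20 : ℝ), Real.exp 1,
    by positivity, by positivity, ?_, ?_⟩, ?_⟩
  · exact (by fun_prop : Differentiable ℂ fun z : ℂ => Complex.exp (-z / 2)).mul g_diff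
  · simp [g_zero]
  · intro z hz
    rw [norm_mul, Complex.norm_exp]
    refine (mul_le_mul_of_nonneg_left (g_le z) (Real.exp_pos _).le).trans (le_of_eq ?_)
    rw [abs_of_nonneg hz]
    have h1 : (-z / 2).re = -(1 / 2 * z.re) := by
      simp
      ring
    rw [h1]
    have h2 : Real.exp (-(1 / 2 * z.re)) * Real.exp (1 / 2 * z.re) = 1 := by
      rw [← Real.exp_add]
      simp
    calc _ = (Real.exp (-(1 / 2 * z.re)) * Real.exp (1 / 2 * z.re)) * (Real.exp 1 * Real.exp (-((c0 / Real.exp 1) ^ (19 / 20 : ℝ) * |z.im| ^ (19 / 20 : ℝ)))) := by ring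
      _ = _ := by rw [h2, one_mul]
  · intro z hz
    rw [norm_mul, Complex.norm_exp]
    refine (mul_le_mul_of_nonneg_left (g_le z) (Real.exp_pos _).le).trans (le_of_eq ?_)
    rw [abs_of_nonpos hz]
    have h1 : (-z / 2).re = -(1 / 2 * z.re) := by
      simp
      ring
    rw [h1]
    have h2 : Real.exp (-(1 / 2 * z.re)) * Real.exp (1 / 2 * -z.re) = Real.exp (-z.re) := by
      rw [← Real.exp_add]
      congr 1
      ring
    calc _ = (Real.exp (-(1 / 2 * z.re)) * Real.exp (1 / 2 * -z.re)) * (Real.exp 1 * Real.exp (-((c0 / Real.exp 1) ^ (19 / 20 : ℝ) * |z.im| ^ (19 / 20 : ℝ)))) := by ring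
      _ = _ := by rw [h2]; ring
  · intro y
    rw [norm_mul, Complex.norm_exp]
    have h1 : (-((y : ℂ) * I) / 2).re = 0 := by
      simp
    rw [h1, Real.exp_zero, one_mul]
    refine le_of_tendsto (g_tendsto _).norm (Eventually.of_forall fun n => ?_)
    rw [norm_prod]
    refine Finset.prod_le_one (fun k _ => norm_nonneg _) fun k _ => ?_
    refine (F_le k _).trans ?_
    have h2 : ((y : ℂ) * I).re = 0 := by simp
    rw [h2, abs_zero, mul_zero, Real.exp_zero, one_mul]
    exact fac_le_one k _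

end Pool.Agent.N967
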