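import Mathlib
import Pool.Agent.N967.Stm3

set_option autoImplicit false

/-!
# The localizer, products of Dirichlet polynomials, combinations of families with profiles
-/

namespace Pool.Agent.N967

open Complex MeasureTheory Filter Topology
open Pool.Agent.Y23 (IsZ mu Lg)

namespace Loc3

/-! ### The localizer -/

theorem H_pos {M : ℕ} (hM : 1 ≤ M) : 0 < ∑ n ∈ Finset.Icc 1 M, 1 / (n : ℝ) := by
  refine Finset.sum_pos (fun n hn => ?_) ⟨1, Finset.mem_Icc.2 ⟨le_rfl, hM⟩⟩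
  have h1 := (Finset.mem_Icc.1 hn).1
  have : (0 : ℝ) < n := by exact_mod_cast h1
  positivity

theorem norm_term (n : ℕ) (hn : 1 ≤ n) (u : ℝ) : ‖(n : ℂ) ^ (-1 - (u : ℂ) * I)‖ = 1 / (n : ℝ) := by
  rw [Complex.norm_natCast_cpow_of_pos (by omega)]
  have : (-1 - (u : ℂ) * I).re = -1 := by simp
  rw [this, Real.rpow_neg_one, one_div]

theorem norm_EE (γ : ℝ) {M : ℕ} (hM : 1 ≤ M) (t : ℝ) : ‖EE γ M t‖ ≤ 1 := by
  unfold EE
  rw [norm_div, Complex.norm_real, Real.norm_of_nonneg (H_pos hM).le, div_le_one (H_pos hM)]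
  refine (norm_sum_le _ _).trans (le_of_eq ?_)
  refine Finset.sum_congr rfl fun n hn => ?_
  exact norm_term n (Finset.mem_Icc.1 hn).1 (t - γ)

theorem EE_self (γ : ℝ) {M : ℕ} (hM : 1 ≤ M) : EE γ M γ = 1 := by
  unfold EE
  have h0 : ((∑ n ∈ Finset.Icc 1 M, 1 / (n : ℝ) : ℝ) : ℂ) ≠ 0 := by
    exact_mod_cast (H_pos hM).ne'
  rw [div_eq_one_iff_eq h0]
  push_cast
  refine Finset.sum_congr rfl fun n _ => ?_
  rw [sub_self, zero_mul, sub_zero, Complex.cpow_neg_one, one_div]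

theorem EE_cont (γ : ℝ) (M : ℕ) : Continuous (EE γ M) := by
  unfold EE
  refine Continuous.div_const ?_ _
  refine continuous_finsetSum _ fun n hn => ?_
  have h1 : (n : ℂ) ≠ 0 := by
    have := (Finset.mem_Icc.1 hn).1
    exact_mod_cast (by omega : n ≠ 0)
  refine Continuous.const_cpow ?_ (Or.inl h1)
  fun_prop

theorem EE_DP (γ : ℝ) (M : ℕ) : ∃ e : ℕ → ℂ, ∀ t : ℝ, EE γ M t = DP M e (1 / 2 + t * I) := by
  refine ⟨fun n => (n : ℂ) ^ (-(1 / 2 : ℂ) + γ * I) / ((∑ n ∈ Finset.Icc 1 M, 1 / (n : ℝ) : ℝ) : ℂ),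
    fun t => ?_⟩
  unfold EE DP
  rw [Finset.sum_div]
  refine Finset.sum_congr rfl fun n hn => ?_
  have h1 : (n : ℂ) ≠ 0 := by
    have := (Finset.mem_Icc.1 hn).1
    exact_mod_cast (by omega : n ≠ 0)
  rw [div_mul_eq_mul_div, ← Complex.cpow_add _ _ h1]
  congr 2
  push_cast
  ring

/-- The sums of `n^(-1-iu)` are bounded. -/
theorem sum_bdd (u : ℝ) (hu : u ≠ 0) :
    ∃ C : ℝ, ∀ M : ℕ, ‖∑ n ∈ Finset.Icc 1 M, (n : ℂ) ^ (-1 - (u : ℂ) * I)‖ ≤ C := by
  set r : ℂ := -1 - (u : ℂ) * I with hr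
  have hr1 : r ≠ -1 := by
    intro h
    have : (r + 1).im = 0 := by rw [h]; simp
    rw [hr] at this
    simp at this
    exact hu this
  have hr0 : r + 1 ≠ 0 := fun h => hr1 (by linear_combination h)
  have hrre : r.re = -1 := by rw [hr]; simp
  -- the comparison on a unit interval
  have step : ∀ n : ℕ, 1 ≤ n → ‖(((n + 1 : ℕ) : ℂ) ^ (r + 1) / (r + 1) - (n : ℂ) ^ (r + 1) / (r + 1)) -
      (n : ℂ) ^ r‖ ≤ ‖r‖ * (1 / (n : ℝ) ^ 2) := by
    intro n hn
    have hn0 : (0 : ℝ) < n := by exact_mod_cast hn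
    have hpos : ∀ x ∈ Set.Icc (n : ℝ) (n + 1), 0 < x := fun x hx => lt_of_lt_of_le hn0 hx.1
    -- derivative of x ^ r
    have d1 : ∀ x ∈ Set.Icc (n : ℝ) (n + 1), HasDerivWithinAt (fun y : ℝ => (y : ℂ) ^ r)
        (r * (x : ℂ) ^ (r - 1)) (Set.Icc (n : ℝ) (n + 1)) x := by
      intro x hx
      have hx0 := hpos x hx
      by_cases hrz : r = 0
      · rw [hrz] at hrre; simp at hrre
      exact (hasDerivAt_ofReal_cpow_const (x := x) hx0.ne' hrz).hasDerivWithinAt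
    have b1 : ∀ x ∈ Set.Icc (n : ℝ) (n + 1), ‖(x : ℂ) ^ r - (n : ℂ) ^ r‖ ≤ ‖r‖ * (1 / (n : ℝ) ^ 2) := by
      intro x hx
      have hbd : ∀ y ∈ Set.Icc (n : ℝ) (n + 1), ‖r * (y : ℂ) ^ (r - 1)‖ ≤ ‖r‖ * (1 / (n : ℝ) ^ 2) := by
        intro y hy
        rw [norm_mul, Complex.norm_cpow_eq_rpow_re_of_pos (hpos y hy)]
        refine mul_le_mul_of_nonneg_left ?_ (norm_nonneg _)
        have : (r - 1).re = -2 := by rw [sub_re, hrre]; norm_num
        rw [this, show (-2 : ℝ) = -((2 : ℕ) : ℝ) by norm_num, Real.rpow_neg (hpos y hy).le, Real.rpow_natCast, one_div]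
        have := hy.1
        gcongr
      have h := (convex_Icc (n : ℝ) (n + 1)).norm_image_sub_le_of_norm_hasDerivWithin_le d1 hbd
        (x := (n : ℝ)) (y := x) ⟨le_rfl, by linarith⟩ hx
      have hx1 : ‖x - (n : ℝ)‖ ≤ 1 := by
        rw [Real.norm_eq_abs, abs_of_nonneg (by linarith [hx.1])]
        linarith [hx.2]
      have h2 : (0 : ℝ) ≤ ‖r‖ * (1 / (n : ℝ) ^ 2) := by positivity
      calc ‖(x : ℂ) ^ r - (n : ℂ) ^ r‖ = ‖(x : ℂ) ^ r - ((n : ℝ) : ℂ) ^ r‖ := by simp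
        _ ≤ ‖r‖ * (1 / (n : ℝ) ^ 2) * ‖x - (n : ℝ)‖ := h
        _ ≤ ‖r‖ * (1 / (n : ℝ) ^ 2) * 1 := by gcongr
        _ = _ := mul_one _
    have d2 : ∀ x ∈ Set.Icc (n : ℝ) (n + 1), HasDerivWithinAt
        (fun y : ℝ => (y : ℂ) ^ (r + 1) / (r + 1) - (y : ℂ) * (n : ℂ) ^ r)
        ((x : ℂ) ^ r - (n : ℂ) ^ r) (Set.Icc (n : ℝ) (n + 1)) x := by
      intro x hx
      have h := hasDerivAt_ofReal_cpow_const' (x := x) (hpos x hx).ne' (r := r) hr1
      have h2 : HasDerivAt (fun y : ℝ => (y : ℂ) * (n : ℂ) ^ r) (1 * (n : ℂ) ^ r) x :=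
        (Complex.ofRealCLM.hasDerivAt (x := x)).mul_const _
      rw [one_mul] at h2
      exact (h.sub h2).hasDerivWithinAt
    have h := (convex_Icc (n : ℝ) (n + 1)).norm_image_sub_le_of_norm_hasDerivWithin_le d2 b1
      (x := (n : ℝ)) (y := (n : ℝ) + 1) ⟨le_rfl, by linarith⟩ ⟨by linarith, le_rfl⟩
    have e1 : ‖(n : ℝ) + 1 - (n : ℝ)‖ = 1 := by
      rw [add_sub_cancel_left]; simp
    rw [e1, mul_one] at h
    refine le_trans (le_of_eq ?_) h
    congr 1
    push_cast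
    ring
  -- telescoping
  have tel : ∀ M : ℕ, ‖∑ n ∈ Finset.Icc 1 M, (n : ℂ) ^ r -
      (((M + 1 : ℕ) : ℂ) ^ (r + 1) / (r + 1) - (1 : ℂ) ^ (r + 1) / (r + 1))‖ ≤
        ∑ n ∈ Finset.Icc 1 M, ‖r‖ * (1 / (n : ℝ) ^ 2) := by
    intro M
    induction M with
    | zero => simp
    | succ M ih =>
      rw [Finset.sum_Icc_succ_top (by omega), Finset.sum_Icc_succ_top (by omega)]
      have h1 := step (M + 1) (by omega)
      have h2 := norm_sub_le (∑ n ∈ Finset.Icc 1 M, (n : ℂ) ^ r -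
        (((M + 1 : ℕ) : ℂ) ^ (r + 1) / (r + 1) - (1 : ℂ) ^ (r + 1) / (r + 1)))
        ((((M + 1 + 1 : ℕ) : ℂ) ^ (r + 1) / (r + 1) - ((M + 1 : ℕ) : ℂ) ^ (r + 1) / (r + 1)) -
          ((M + 1 : ℕ) : ℂ) ^ r)
      refine le_trans (le_of_eq ?_) (h2.trans (add_le_add ih h1))
      congr 1
      ring
  have hsum : Summable fun n : ℕ => ‖r‖ * (1 / (n : ℝ) ^ 2) :=
    (Real.summable_one_div_nat_pow.2 (by norm_num)).mul_left _
  refine ⟨∑' n : ℕ, ‖r‖ * (1 / (n : ℝ) ^ 2) + (1 / ‖r + 1‖ + 1 / ‖r + 1‖), fun M => ?_⟩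
  have h1 := tel M
  have h2 : ∑ n ∈ Finset.Icc 1 M, ‖r‖ * (1 / (n : ℝ) ^ 2) ≤ ∑' n : ℕ, ‖r‖ * (1 / (n : ℝ) ^ 2) :=
    hsum.sum_le_tsum _ fun _ _ => by positivity
  have h3 : ∀ m : ℕ, 1 ≤ m → ‖(m : ℂ) ^ (r + 1) / (r + 1)‖ = 1 / ‖r + 1‖ := by
    intro m hm
    rw [norm_div, Complex.norm_natCast_cpow_of_pos (by omega)]
    have : (r + 1).re = 0 := by rw [add_re, hrre]; simp
    rw [this, Real.rpow_zero]
  have h4 : ‖((M + 1 : ℕ) : ℂ) ^ (r + 1) / (r + 1) - (1 : ℂ) ^ (r + 1) / (r + 1)‖ ≤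
      1 / ‖r + 1‖ + 1 / ‖r + 1‖ := by
    refine (norm_sub_le _ _).trans ?_
    rw [h3 (M + 1) (by omega)]
    have := h3 1 le_rfl
    rw [Nat.cast_one] at this
    rw [this]
  calc ‖∑ n ∈ Finset.Icc 1 M, (n : ℂ) ^ r‖ = ‖(∑ n ∈ Finset.Icc 1 M, (n : ℂ) ^ r -
        (((M + 1 : ℕ) : ℂ) ^ (r + 1) / (r + 1) - (1 : ℂ) ^ (r + 1) / (r + 1))) +
        (((M + 1 : ℕ) : ℂ) ^ (r + 1) / (r + 1) - (1 : ℂ) ^ (r + 1) / (r + 1))‖ := by
        rw [sub_add_cancel]
    _ ≤ _ := (norm_add_le _ _).trans (add_le_add (h1.trans h2) h4)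

theorem H_tendsto : Tendsto (fun M : ℕ => ∑ n ∈ Finset.Icc 1 M, 1 / (n : ℝ)) atTop atTop := by
  have h1 : (fun M : ℕ => ∑ n ∈ Finset.Icc 1 M, 1 / (n : ℝ)) =
      fun M : ℕ => ∑ i ∈ Finset.range M, (1 / (i + 1 : ℝ)) := by
    funext M
    induction M with
    | zero => simp
    | succ M ih =>
      rw [Finset.sum_Icc_succ_top (by omega), ih, Finset.sum_range_succ]
      push_cast
      rfl
  rw [h1]
  exact Real.tendsto_sum_range_one_div_nat_succ_atTop

theorem EE_tendsto (γ t : ℝ) (ht : t ≠ γ) : Tendsto (fun M : ℕ => EE γ M t) atTop (𝓝 0) := by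
  obtain ⟨C, hC⟩ := sum_bdd (t - γ) (sub_ne_zero.2 ht)
  rw [tendsto_zero_iff_norm_tendsto_zero]
  have h1 : Tendsto (fun M : ℕ => C / ∑ n ∈ Finset.Icc 1 M, 1 / (n : ℝ)) atTop (𝓝 0) :=
    H_tendsto.const_div_atTop C
  refine squeeze_zero' (Eventually.of_forall fun M => norm_nonneg _) ?_ h1
  filter_upwards [eventually_ge_atTop 1] with M hM
  unfold EE
  rw [norm_div, Complex.norm_real, Real.norm_of_nonneg (H_pos hM).le]
  have := H_pos hM
  gcongr
  exact hC M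

end Loc3

open Loc3 in
/-- the properties of the localizer -/
theorem ee : S_ee :=
  ⟨fun γ _ hM => ⟨norm_EE γ hM, EE_self γ hM, EE_cont γ _, EE_DP γ _⟩, EE_tendsto⟩

/-- products of Dirichlet polynomials -/
theorem mulDP : S_mulDP := by
  classical
  intro M N e a
  refine ⟨fun k => ∑ p ∈ (Finset.Icc 1 M ×ˢ Finset.Icc 1 N).filter (fun p => p.1 * p.2 = k),
    e p.1 * a p.2, fun s => ?_⟩
  unfold DP
  rw [Finset.sum_mul_sum, ← Finset.sum_product']
  have hmap : ∀ p ∈ Finset.Icc 1 M ×ˢ Finset.Icc 1 N, p.1 * p.2 ∈ Finset.Icc 1 (M * N) := by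
    intro p hp
    rw [Finset.mem_product, Finset.mem_Icc, Finset.mem_Icc] at hp
    rw [Finset.mem_Icc]
    exact ⟨Nat.mul_pos hp.1.1 hp.2.1, Nat.mul_le_mul hp.1.2 hp.2.2⟩
  rw [← Finset.sum_fiberwise_of_maps_to hmap]
  refine Finset.sum_congr rfl fun k _ => ?_
  rw [Finset.sum_mul]
  refine Finset.sum_congr rfl fun p hp => ?_
  rw [← (Finset.mem_filter.1 hp).2, Nat.cast_mul, Complex.natCast_mul_natCast_cpow]
  ring

namespace Loc3

/-! ### Combinations -/

theorem ofReal_split {ε L : ℝ} (hε : 0 < ε) (hL : 0 < L) :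
    ENNReal.ofReal 2 * ENNReal.ofReal (ε / 4 / L) + ENNReal.ofReal 2 * ENNReal.ofReal (ε / 4 / L) =
      ENNReal.ofReal (ε / L) := by
  rw [← ENNReal.ofReal_mul (by norm_num), ← ENNReal.ofReal_add (by positivity) (by positivity)]
  congr 1
  ring

theorem sq_add (a b : ℂ) : ‖a + b‖ ^ 2 ≤ 2 * ‖a‖ ^ 2 + 2 * ‖b‖ ^ 2 := by
  have h := norm_add_le a b
  have h1 := norm_nonneg (a + b)
  nlinarith [sq_nonneg (‖a‖ - ‖b‖)]

theorem lint_add {s : Set ℝ} {w : ℝ → ℝ} (hw : ∀ t, 0 ≤ w t) (hwm : Measurable w) {f g : ℝ → ℂ}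
    (hf : Continuous f) {ε L : ℝ} (hε : 0 < ε) (hL : 0 < L)
    (h1 : ∫⁻ t in s, ENNReal.ofReal (‖f t‖ ^ 2 * w t) ≤ ENNReal.ofReal (ε / 4 / L))
    (h2 : ∫⁻ t in s, ENNReal.ofReal (‖g t‖ ^ 2 * w t) ≤ ENNReal.ofReal (ε / 4 / L)) :
    ∫⁻ t in s, ENNReal.ofReal (‖f t + g t‖ ^ 2 * w t) ≤ ENNReal.ofReal (ε / L) := by
  have hm : Measurable fun t => ENNReal.ofReal (‖f t‖ ^ 2 * w t) :=
    ((hf.norm.pow 2).measurable.mul hwm).ennreal_ofReal
  calc ∫⁻ t in s, ENNReal.ofReal (‖f t + g t‖ ^ 2 * w t)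
      ≤ ∫⁻ t in s, (ENNReal.ofReal 2 * ENNReal.ofReal (‖f t‖ ^ 2 * w t) +
          ENNReal.ofReal 2 * ENNReal.ofReal (‖g t‖ ^ 2 * w t)) := by
        refine lintegral_mono fun t => ?_
        have := hw t
        rw [← ENNReal.ofReal_mul (by norm_num), ← ENNReal.ofReal_mul (by norm_num),
          ← ENNReal.ofReal_add (by positivity) (by positivity)]
        refine ENNReal.ofReal_le_ofReal ?_
        nlinarith [sq_add (f t) (g t)]
    _ = ENNReal.ofReal 2 * (∫⁻ t in s, ENNReal.ofReal (‖f t‖ ^ 2 * w t)) +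
          ENNReal.ofReal 2 * (∫⁻ t in s, ENNReal.ofReal (‖g t‖ ^ 2 * w t)) := by
        rw [lintegral_add_left (hm.const_mul _), lintegral_const_mul _ hm,
          lintegral_const_mul' _ _ ENNReal.ofReal_ne_top]
    _ ≤ ENNReal.ofReal 2 * ENNReal.ofReal (ε / 4 / L) + ENNReal.ofReal 2 * ENNReal.ofReal (ε / 4 / L) := by
        gcongr
    _ = _ := ofReal_split hε hL

theorem add {f f' : ℝ → ℝ → ℂ} {G G' : ZZ → ℝ → ℂ} (h : Prof f G) (h' : Prof f' G') :
    Prof (fun L t => f L t + f' L t) (fun ρ x => G ρ x + G' ρ x) where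
  cont L hL := (h.cont L hL).add (h'.cont L hL)
  contG ρ := (h.contG ρ).add (h'.contG ρ)
  tail ε hε := by
    obtain ⟨T1, L1, hT1, h1⟩ := h.tail (ε / 4) (by positivity)
    obtain ⟨T2, L2, hT2, h2⟩ := h'.tail (ε / 4) (by positivity)
    refine ⟨max T1 T2, max (max L1 L2) 4, hT1.trans (le_max_left _ _), fun L hL => ?_⟩
    have hL1 : L1 ≤ L := (le_max_left _ _).trans ((le_max_left _ _).trans hL)
    have hL2 : L2 ≤ L := (le_max_right _ _).trans ((le_max_left _ _).trans hL)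
    have hL4 : 4 ≤ L := (le_max_right _ _).trans hL
    have key := lint_add (s := {t : ℝ | max T1 T2 < |t|}) (w := fun t => 1 / (1 / 4 + t ^ 2))
      (fun t => by positivity) (by fun_prop) (f := f L) (g := f' L) (h.cont L hL4) hε
      (by linarith : 0 < L)
      (by
        simp only [mul_one_div]
        refine (lintegral_mono_set fun t ht => ?_).trans (h1 L hL1)
        rw [Set.mem_ofPred_eq] at ht ⊢
        exact lt_of_le_of_lt (le_max_left _ _) ht)
      (by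
        simp only [mul_one_div]
        refine (lintegral_mono_set fun t ht => ?_).trans (h2 L hL2)
        rw [Set.mem_ofPred_eq] at ht ⊢
        exact lt_of_le_of_lt (le_max_right _ _) ht)
    simpa only [mul_one_div] using key
  out T ε hT hε := by
    obtain ⟨X1, h1⟩ := h.out T (ε / 4) hT (by positivity)
    obtain ⟨X2, h2⟩ := h'.out T (ε / 4) hT (by positivity)
    refine ⟨max X1 X2, fun X hX => ?_⟩
    obtain ⟨L1, h1⟩ := h1 X ((le_max_left _ _).trans hX)
    obtain ⟨L2, h2⟩ := h2 X ((le_max_right _ _).trans hX)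
    refine ⟨max (max L1 L2) 4, fun L hL => ?_⟩
    have hL1 : L1 ≤ L := (le_max_left _ _).trans ((le_max_left _ _).trans hL)
    have hL2 : L2 ≤ L := (le_max_right _ _).trans ((le_max_left _ _).trans hL)
    have hL4 : 4 ≤ L := (le_max_right _ _).trans hL
    have key := lint_add (s := {t : ℝ | |t| ≤ T ∧ ∀ s : ℂ, IsZ s → X / L < |t - s.im|})
      (w := fun _ => 1) (fun t => zero_le_one) (by fun_prop) (f := f L) (g := f' L)
      (h.cont L hL4) hε (by linarith : 0 < L)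
      (by simpa only [mul_one] using h1 L hL1) (by simpa only [mul_one] using h2 L hL2)
    simpa only [mul_one] using key
  loc ρ X hX := by
    have h1 := h.loc ρ X hX
    have h2 := h'.loc ρ X hX
    have h3 := (h1.const_mul 2).add (h2.const_mul 2)
    rw [mul_zero, add_zero] at h3
    refine squeeze_zero' (Eventually.of_forall fun L =>
      intervalIntegral.integral_nonneg (by linarith) fun x _ => by positivity) ?_ h3
    filter_upwards [eventually_ge_atTop (4 : ℝ)] with L hL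
    have c1 : Continuous fun x : ℝ => ‖f L ((ρ : ℂ).im + x / L) - G ρ x‖ ^ 2 := by
      have := h.cont L hL
      have := h.contG ρ
      fun_prop
    have c2 : Continuous fun x : ℝ => ‖f' L ((ρ : ℂ).im + x / L) - G' ρ x‖ ^ 2 := by
      have := h'.cont L hL
      have := h'.contG ρ
      fun_prop
    have c3 : Continuous fun x : ℝ => ‖f L ((ρ : ℂ).im + x / L) + f' L ((ρ : ℂ).im + x / L) -
        (G ρ x + G' ρ x)‖ ^ 2 := by
      have := h.cont L hL
      have := h.contG ρ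
      have := h'.cont L hL
      have := h'.contG ρ
      fun_prop
    rw [← intervalIntegral.integral_const_mul, ← intervalIntegral.integral_const_mul,
      ← intervalIntegral.integral_add ((c1.const_mul 2).intervalIntegrable _ _)
        ((c2.const_mul 2).intervalIntegrable _ _)]
    refine intervalIntegral.integral_mono_on (by linarith) (c3.intervalIntegrable _ _)
      (((c1.const_mul 2).add (c2.const_mul 2)).intervalIntegrable _ _) fun x _ => ?_
    have := sq_add (f L ((ρ : ℂ).im + x / L) - G ρ x) (f' L ((ρ : ℂ).im + x / L) - G' ρ x)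
    rwa [show f L ((ρ : ℂ).im + x / L) - G ρ x + (f' L ((ρ : ℂ).im + x / L) - G' ρ x) =
      f L ((ρ : ℂ).im + x / L) + f' L ((ρ : ℂ).im + x / L) - (G ρ x + G' ρ x) by ring] at this

theorem mulE {f : ℝ → ℝ → ℂ} {G : ZZ → ℝ → ℂ} (h : Prof f G) {E : ℝ → ℂ} (hE : Continuous E)
    (hE1 : ∀ t, ‖E t‖ ≤ 1) : Prof (fun L t => E t * f L t) (fun ρ x => E (ρ : ℂ).im * G ρ x) where
  cont L hL := hE.mul (h.cont L hL)
  contG ρ := continuous_const.mul (h.contG ρ)
  tail ε hε := by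
    obtain ⟨T1, L1, hT1, h1⟩ := h.tail ε hε
    refine ⟨T1, L1, hT1, fun L hL => le_trans (lintegral_mono fun t => ?_) (h1 L hL)⟩
    refine ENNReal.ofReal_le_ofReal ?_
    have h2 : ‖E t * f L t‖ ≤ ‖f L t‖ := by
      rw [norm_mul]
      exact mul_le_of_le_one_left (norm_nonneg _) (hE1 t)
    gcongr
  out T ε hT hε := by
    obtain ⟨X1, h1⟩ := h.out T ε hT hε
    refine ⟨X1, fun X hX => ?_⟩
    obtain ⟨L1, h1⟩ := h1 X hX
    refine ⟨L1, fun L hL => le_trans (lintegral_mono fun t => ?_) (h1 L hL)⟩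
    refine ENNReal.ofReal_le_ofReal ?_
    have h2 : ‖E t * f L t‖ ≤ ‖f L t‖ := by
      rw [norm_mul]
      exact mul_le_of_le_one_left (norm_nonneg _) (hE1 t)
    gcongr
  loc ρ X hX := by
    have h1 := h.loc ρ X hX
    have h2 : Tendsto (fun L : ℝ => ∫ x in (-X)..X,
        ‖(E ((ρ : ℂ).im + x / L) - E (ρ : ℂ).im) * G ρ x‖ ^ 2) atTop (𝓝 0) := by
      have h3 : Tendsto (fun L : ℝ => ∫ x in (-X)..X,
          ‖(E ((ρ : ℂ).im + x / L) - E (ρ : ℂ).im) * G ρ x‖ ^ 2) atTop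
          (𝓝 (∫ x in (-X)..X, (0 : ℝ))) := by
        have hG := h.contG ρ
        refine intervalIntegral.tendsto_integral_filter_of_dominated_convergence
          (fun x => (2 * ‖G ρ x‖) ^ 2) ?_ ?_ ?_ ?_
        · refine Eventually.of_forall fun L => Continuous.aestronglyMeasurable ?_
          fun_prop
        · refine Eventually.of_forall fun L => Eventually.of_forall fun x _ => ?_
          rw [Real.norm_of_nonneg (by positivity), norm_mul]
          have h4 : ‖E ((ρ : ℂ).im + x / L) - E (ρ : ℂ).im‖ ≤ 2 :=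
            (norm_sub_le _ _).trans (by linarith [hE1 ((ρ : ℂ).im + x / L), hE1 (ρ : ℂ).im])
          gcongr
        · exact Continuous.intervalIntegrable (by fun_prop) _ _
        · refine Eventually.of_forall fun x _ => ?_
          have h4 : Tendsto (fun L : ℝ => (ρ : ℂ).im + x / L) atTop (𝓝 ((ρ : ℂ).im + 0)) :=
            tendsto_const_nhds.add (tendsto_const_nhds.div_atTop tendsto_id)
          rw [add_zero] at h4
          have h5 := (hE.tendsto (ρ : ℂ).im).comp h4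
          have h6 := ((h5.sub_const (E (ρ : ℂ).im)).mul_const (G ρ x)).norm.pow 2
          rw [sub_self, zero_mul, norm_zero] at h6
          simpa using h6
      simpa using h3
    have h3 := (h1.const_mul 2).add (h2.const_mul 2)
    rw [mul_zero, add_zero] at h3
    refine squeeze_zero' (Eventually.of_forall fun L =>
      intervalIntegral.integral_nonneg (by linarith) fun x _ => by positivity) ?_ h3
    filter_upwards [eventually_ge_atTop (4 : ℝ)] with L hL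
    have hf := h.cont L hL
    have hG := h.contG ρ
    have c1 : Continuous fun x : ℝ => ‖f L ((ρ : ℂ).im + x / L) - G ρ x‖ ^ 2 := by
      fun_prop
    have c2 : Continuous fun x : ℝ => ‖(E ((ρ : ℂ).im + x / L) - E (ρ : ℂ).im) * G ρ x‖ ^ 2 := by
      fun_prop
    have c3 : Continuous fun x : ℝ => ‖E ((ρ : ℂ).im + x / L) * f L ((ρ : ℂ).im + x / L) -
        E (ρ : ℂ).im * G ρ x‖ ^ 2 := by
      fun_prop
    rw [← intervalIntegral.integral_const_mul, ← intervalIntegral.integral_const_mul,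
      ← intervalIntegral.integral_add ((c1.const_mul 2).intervalIntegrable _ _)
        ((c2.const_mul 2).intervalIntegrable _ _)]
    refine intervalIntegral.integral_mono_on (by linarith) (c3.intervalIntegrable _ _)
      (((c1.const_mul 2).add (c2.const_mul 2)).intervalIntegrable _ _) fun x _ => ?_
    have h4 := sq_add (E ((ρ : ℂ).im + x / L) * (f L ((ρ : ℂ).im + x / L) - G ρ x))
      ((E ((ρ : ℂ).im + x / L) - E (ρ : ℂ).im) * G ρ x)
    rw [show E ((ρ : ℂ).im + x / L) * (f L ((ρ : ℂ).im + x / L) - G ρ x) +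
      (E ((ρ : ℂ).im + x / L) - E (ρ : ℂ).im) * G ρ x =
      E ((ρ : ℂ).im + x / L) * f L ((ρ : ℂ).im + x / L) - E (ρ : ℂ).im * G ρ x by ring] at h4
    have h5 : ‖E ((ρ : ℂ).im + x / L) * (f L ((ρ : ℂ).im + x / L) - G ρ x)‖ ≤
        ‖f L ((ρ : ℂ).im + x / L) - G ρ x‖ := by
      rw [norm_mul]
      exact mul_le_of_le_one_left (norm_nonneg _) (hE1 _)
    have h6 : ‖E ((ρ : ℂ).im + x / L) * (f L ((ρ : ℂ).im + x / L) - G ρ x)‖ ^ 2 ≤
        ‖f L ((ρ : ℂ).im + x / L) - G ρ x‖ ^ 2 := by gcongr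
    linarith

theorem neg {f : ℝ → ℝ → ℂ} {G : ZZ → ℝ → ℂ} (h : Prof f G) :
    Prof (fun L t => -1 * f L t) (fun ρ x => -1 * G ρ x) :=
  mulE h (E := fun _ => -1) continuous_const (fun _ => by simp)

end Loc3

open Loc3 in
/-- combinations of families with profiles -/
theorem combo : S_combo := by
  classical
  intro S f0 G0 f G E h0
  induction S using Finset.induction_on with
  | empty =>
    intro _ _
    simpa using h0
  | insert i S hi ih =>
    intro hf hE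
    have h1 := ih (fun j hj => hf j (Finset.mem_insert_of_mem hj))
      (fun j hj => hE j (Finset.mem_insert_of_mem hj))
    obtain ⟨hc, hb⟩ := hE i (Finset.mem_insert_self _ _)
    have h2 := add h1 (mulE (add (hf i (Finset.mem_insert_self _ _)) (neg h0)) hc hb)
    convert h2 using 3 with L t ρ x
    · rw [Finset.sum_insert hi]; ring
    · rw [Finset.sum_insert hi]; ring

end Pool.Agent.N967
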