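import Mathlib
import Pool.Agent.N967.Stm3

set_option autoImplicit false

/-!
# Burnol's lower bound with multiplicities, under the Riemann hypothesis
-/

namespace Pool.Agent.N967

open Complex MeasureTheory Filter Topology
open Pool.Agent.Y23 (IsZ mu Lg)

namespace L3

lemma norm_e (x : ℝ) : ‖Complex.exp (-(x : ℝ) * I)‖ = 1 := by
  have h := Complex.norm_exp_ofReal_mul_I (-x)
  rwa [Complex.ofReal_neg] at h

lemma cont_e (g : ℝ) : Continuous (fun v : ℝ => Complex.exp (-(v * g : ℝ) * I)) := by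
  fun_prop

lemma poly_bdd (p : Polynomial ℝ) : ∃ M : ℝ, 0 ≤ M ∧ ∀ x : ℝ, 0 ≤ x → x ≤ 1 → |p.eval x| ≤ M := by
  obtain ⟨M, hM⟩ := (isCompact_Icc (a := (0 : ℝ)) (b := 1)).exists_bound_of_continuousOn
    (f := fun x => p.eval x) p.continuous.continuousOn
  refine ⟨M, ?_, fun x h0 h1 => hM x ⟨h0, h1⟩⟩
  exact (norm_nonneg _).trans (hM 0 ⟨le_refl _, zero_le_one⟩)

/-- oscillation -/
lemma osc (p : Polynomial ℝ) {γ : ℝ} (hγ : γ ≠ 0) : ∃ C : ℝ, 0 ≤ C ∧ ∀ l : ℝ, 1 ≤ l →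
    ‖∫ v in (0 : ℝ)..l, ((p.eval (v / l) : ℝ) : ℂ) * Complex.exp (-(v * γ : ℝ) * I)‖ ≤ C := by
  obtain ⟨M, hM0, hM⟩ := poly_bdd p.derivative
  obtain ⟨M1, hM10, hM1⟩ := poly_bdd p
  have hγ' : 0 < |γ| := abs_pos.2 hγ
  refine ⟨(2 * M1 + M) / |γ|, by positivity, fun l hl => ?_⟩
  have hl0 : 0 < l := by linarith
  have hgI : (-(γ : ℂ) * I) ≠ 0 := by
    simp [hγ, Complex.I_ne_zero]
  -- the antiderivative
  have hw : ∀ v : ℝ, HasDerivAt (fun v : ℝ => Complex.exp (-(v * γ : ℝ) * I) / (-(γ : ℂ) * I))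
      (Complex.exp (-(v * γ : ℝ) * I)) v := by
    intro v
    have h1 : HasDerivAt (fun v : ℝ => ((v : ℝ) : ℂ)) 1 v := Complex.ofRealCLM.hasDerivAt
    have h2 : HasDerivAt (fun v : ℝ => (-((v * γ : ℝ) : ℂ) * I)) (-(γ : ℂ) * I) v := by
      have h3 := (h1.mul_const (-(γ : ℂ) * I))
      rw [one_mul] at h3
      refine h3.congr_of_eventuallyEq (Eventually.of_forall fun u => ?_)
      simp only [Complex.ofReal_mul]
      ring
    have h4 := (h2.cexp).div_const (-(γ : ℂ) * I)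
    rwa [mul_div_assoc, div_self hgI, mul_one] at h4
  have hu : ∀ v : ℝ, HasDerivAt (fun v : ℝ => ((p.eval (v / l) : ℝ) : ℂ))
      (((p.derivative.eval (v / l) / l : ℝ)) : ℂ) v := by
    intro v
    have h1 : HasDerivAt (fun v : ℝ => v / l) (1 / l) v := (hasDerivAt_id v).div_const l
    have h2 := (p.hasDerivAt (v / l)).comp v h1
    have h3 := h2.ofReal_comp
    rw [mul_one_div] at h3
    exact h3
  have key := intervalIntegral.integral_mul_deriv_eq_deriv_mul (a := 0) (b := l)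
    (fun v _ => hu v) (fun v _ => hw v)
    (by
      apply Continuous.intervalIntegrable
      have := p.derivative.continuous
      fun_prop)
    (by
      apply Continuous.intervalIntegrable
      fun_prop)
  rw [key]
  have hn : ∀ v : ℝ, ‖Complex.exp (-(v * γ : ℝ) * I) / (-(γ : ℂ) * I)‖ = 1 / |γ| := by
    intro v
    rw [norm_div, norm_e, norm_mul, norm_neg, Complex.norm_real, Complex.norm_I, mul_one,
      Real.norm_eq_abs]
  have b1 : ‖((p.eval (l / l) : ℝ) : ℂ) * (Complex.exp (-(l * γ : ℝ) * I) / (-(γ : ℂ) * I))‖ ≤ M1 / |γ| := by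
    rw [norm_mul, hn, Complex.norm_real, Real.norm_eq_abs, div_self hl0.ne', mul_one_div]
    have := hM1 1 zero_le_one le_rfl
    gcongr
  have b2 : ‖((p.eval (0 / l) : ℝ) : ℂ) * (Complex.exp (-((0 : ℝ) * γ : ℝ) * I) / (-(γ : ℂ) * I))‖ ≤ M1 / |γ| := by
    rw [norm_mul, hn, Complex.norm_real, Real.norm_eq_abs, zero_div, mul_one_div]
    have := hM1 0 le_rfl zero_le_one
    gcongr
  have b3 : ‖∫ v in (0 : ℝ)..l, (((p.derivative.eval (v / l) / l : ℝ)) : ℂ) *
      (Complex.exp (-(v * γ : ℝ) * I) / (-(γ : ℂ) * I))‖ ≤ (M / l / |γ|) * |l - 0| := by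
    apply intervalIntegral.norm_integral_le_of_norm_le_const
    intro v hv
    rw [Set.uIoc_of_le hl0.le] at hv
    rw [norm_mul, hn, Complex.norm_real, Real.norm_eq_abs, mul_one_div, abs_div, abs_of_pos hl0]
    have := hM (v / l) (by have := hv.1; positivity) ((div_le_one hl0).2 hv.2)
    gcongr
  have b4 : (M / l / |γ|) * |l - 0| = M / |γ| := by
    rw [sub_zero, abs_of_pos hl0]; field_simp
  calc _ ≤ M1 / |γ| + M1 / |γ| + M / |γ| := by
        refine (norm_sub_le _ _).trans (add_le_add ((norm_sub_le _ _).trans (add_le_add b1 b2)) ?_)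
        rw [← b4]; exact b3
    _ = (2 * M1 + M) / |γ| := by ring

/-- a polynomial is below an exponential -/
lemma poly_exp (p : Polynomial ℝ) {η : ℝ} (hη : 0 < η) : ∃ C : ℝ, 0 ≤ C ∧ ∀ x : ℝ, 0 ≤ x →
    |p.eval x| ≤ C * Real.exp (η * x) := by
  refine ⟨∑ i ∈ Finset.range (p.natDegree + 1), |p.coeff i| * (i.factorial / η ^ i), ?_, ?_⟩
  · exact Finset.sum_nonneg fun i _ => by positivity
  · intro x hx
    rw [Polynomial.eval_eq_sum_range, Finset.sum_mul]
    refine (Finset.abs_sum_le_sum_abs _ _).trans (Finset.sum_le_sum fun i _ => ?_)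
    rw [abs_mul, abs_of_nonneg (pow_nonneg hx i), mul_assoc]
    refine mul_le_mul_of_nonneg_left ?_ (abs_nonneg _)
    have h1 := Real.pow_div_factorial_le_exp (η * x) (by positivity) i
    rw [mul_pow, div_le_iff₀ (by positivity)] at h1
    rw [div_mul_eq_mul_div, le_div_iff₀ (by positivity)]
    nlinarith

/-- the test function -/
noncomputable def PP {ι : Type*} (S : Finset ι) (h : ι → Polynomial ℝ) (β : ι → ℂ) (g : ι → ℝ) (l v : ℝ) : ℂ :=
  ∑ s ∈ S, β s * ((((h s).eval (v / l) : ℝ) : ℂ) * Complex.exp (-(v * g s : ℝ) * I))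

lemma PP_cont {ι : Type*} (S : Finset ι) (h : ι → Polynomial ℝ) (β : ι → ℂ) (g : ι → ℝ) (l : ℝ) :
    Continuous (PP S h β g l) := by
  unfold PP
  refine continuous_finsetSum _ fun s _ => ?_
  have := (h s).continuous
  fun_prop

/-- the mean square of the test function -/
lemma ms {ι : Type*} [DecidableEq ι] (S : Finset ι) (h : ι → Polynomial ℝ) (β : ι → ℂ) (g : ι → ℝ)
    (hg : ∀ s ∈ S, ∀ r ∈ S, s ≠ r → g s ≠ g r) : ∃ C : ℝ, 0 ≤ C ∧ ∀ l : ℝ, 1 ≤ l →
    ∫ v in (0 : ℝ)..l, ‖PP S h β g l v‖ ^ 2 ≤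
      l * (∑ s ∈ S, ‖β s‖ ^ 2 * ∫ u in (0 : ℝ)..1, (h s).eval u * (h s).eval u) + C := by
  have hC : ∀ s r : ι, ∃ C : ℝ, 0 ≤ C ∧ (g s ≠ g r → ∀ l : ℝ, 1 ≤ l →
      ‖∫ v in (0 : ℝ)..l, (((h s * h r).eval (v / l) : ℝ) : ℂ) * Complex.exp (-(v * (g s - g r) : ℝ) * I)‖ ≤ C) := by
    intro s r
    by_cases hsr : g s = g r
    · exact ⟨0, le_rfl, fun h => absurd hsr h⟩
    · obtain ⟨C, hC0, hC⟩ := osc (h s * h r) (sub_ne_zero.2 hsr)
      exact ⟨C, hC0, fun _ => hC⟩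
  choose C hC0 hC using hC
  refine ⟨∑ s ∈ S, ∑ r ∈ S, ‖β s‖ * ‖β r‖ * C s r, ?_, fun l hl => ?_⟩
  · exact Finset.sum_nonneg fun s _ => Finset.sum_nonneg fun r _ => by have := hC0 s r; positivity
  have hl0 : 0 < l := by linarith
  have e1 : ∀ v : ℝ, ((‖PP S h β g l v‖ ^ 2 : ℝ) : ℂ) = ∑ s ∈ S, ∑ r ∈ S,
      (β s * (starRingEnd ℂ) (β r)) *
        ((((h s * h r).eval (v / l) : ℝ) : ℂ) * Complex.exp (-(v * (g s - g r) : ℝ) * I)) := by
    intro v
    have e2 : ((‖PP S h β g l v‖ ^ 2 : ℝ) : ℂ) = PP S h β g l v * (starRingEnd ℂ) (PP S h β g l v) := by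
      rw [Complex.mul_conj, Complex.normSq_eq_norm_sq]
    rw [e2]
    unfold PP
    rw [map_sum, Finset.sum_mul_sum]
    refine Finset.sum_congr rfl fun s _ => Finset.sum_congr rfl fun r _ => ?_
    rw [map_mul, map_mul, Complex.conj_ofReal, ← Complex.exp_conj, map_mul, map_neg, Complex.conj_ofReal,
      Complex.conj_I, Polynomial.eval_mul]
    have e3 : Complex.exp (-(v * (g s - g r) : ℝ) * I) =
        Complex.exp (-(v * g s : ℝ) * I) * Complex.exp (-((v * g r : ℝ) : ℂ) * -I) := by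
      rw [← Complex.exp_add]
      congr 1
      push_cast
      ring
    rw [e3]
    push_cast
    ring
  have hint : ∀ s r : ι, IntervalIntegrable (fun v : ℝ => (β s * (starRingEnd ℂ) (β r)) *
        ((((h s * h r).eval (v / l) : ℝ) : ℂ) * Complex.exp (-(v * (g s - g r) : ℝ) * I))) volume 0 l := by
    intro s r
    apply Continuous.intervalIntegrable
    have := (h s * h r).continuous
    fun_prop
  have e4 : ((∫ v in (0 : ℝ)..l, ‖PP S h β g l v‖ ^ 2 : ℝ) : ℂ) = ∑ s ∈ S, ∑ r ∈ S,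
      (β s * (starRingEnd ℂ) (β r)) *
        ∫ v in (0 : ℝ)..l, ((((h s * h r).eval (v / l) : ℝ) : ℂ) * Complex.exp (-(v * (g s - g r) : ℝ) * I)) := by
    rw [← intervalIntegral.integral_ofReal]
    simp_rw [e1]
    rw [intervalIntegral.integral_finsetSum]
    · refine Finset.sum_congr rfl fun s _ => ?_
      rw [intervalIntegral.integral_finsetSum]
      · refine Finset.sum_congr rfl fun r _ => ?_
        rw [intervalIntegral.integral_const_mul]
      · intro r _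
        exact hint s r
    · intro s _
      apply Continuous.intervalIntegrable
      refine continuous_finsetSum _ fun r _ => ?_
      have := (h s * h r).continuous
      fun_prop
  have e5 : ∀ s : ι, ∫ v in (0 : ℝ)..l, ((((h s * h s).eval (v / l) : ℝ) : ℂ) *
      Complex.exp (-(v * (g s - g s) : ℝ) * I)) = ((l * ∫ u in (0 : ℝ)..1, (h s).eval u * (h s).eval u : ℝ) : ℂ) := by
    intro s
    have e6 : ∀ v : ℝ, ((((h s * h s).eval (v / l) : ℝ) : ℂ) *
      Complex.exp (-(v * (g s - g s) : ℝ) * I)) = (((h s * h s).eval (v / l) : ℝ) : ℂ) := by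
      intro v
      simp
    simp_rw [e6]
    rw [intervalIntegral.integral_ofReal]
    congr 1
    have e7 := intervalIntegral.integral_comp_div (a := 0) (b := l) (fun u => (h s * h s).eval u) hl0.ne'
    rw [e7, zero_div, div_self hl0.ne', smul_eq_mul]
    simp only [Polynomial.eval_mul]
  have e8 : ((∫ v in (0 : ℝ)..l, ‖PP S h β g l v‖ ^ 2 : ℝ) : ℂ) -
      ((l * (∑ s ∈ S, ‖β s‖ ^ 2 * ∫ u in (0 : ℝ)..1, (h s).eval u * (h s).eval u) : ℝ) : ℂ) =
      ∑ s ∈ S, ∑ r ∈ S, (if s = r then 0 else (β s * (starRingEnd ℂ) (β r)) *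
        ∫ v in (0 : ℝ)..l, ((((h s * h r).eval (v / l) : ℝ) : ℂ) * Complex.exp (-(v * (g s - g r) : ℝ) * I))) := by
    rw [e4, sub_eq_iff_eq_add, Finset.mul_sum, Complex.ofReal_sum, ← Finset.sum_add_distrib]
    refine Finset.sum_congr rfl fun s hs => ?_
    rw [← Finset.add_sum_erase S _ hs, ← Finset.add_sum_erase S (fun r => if s = r then _ else _) hs]
    rw [if_pos rfl, zero_add, e5 s]
    have e9 : (β s * (starRingEnd ℂ) (β s)) = ((‖β s‖ ^ 2 : ℝ) : ℂ) := by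
      rw [Complex.mul_conj, Complex.normSq_eq_norm_sq]
    rw [e9, add_comm]
    congr 1
    · refine Finset.sum_congr rfl fun r hr => ?_
      rw [if_neg (Finset.ne_of_mem_erase hr).symm]
    · push_cast
      ring
  have e10 : |(∫ v in (0 : ℝ)..l, ‖PP S h β g l v‖ ^ 2) -
      (l * (∑ s ∈ S, ‖β s‖ ^ 2 * ∫ u in (0 : ℝ)..1, (h s).eval u * (h s).eval u))| ≤
      ∑ s ∈ S, ∑ r ∈ S, ‖β s‖ * ‖β r‖ * C s r := by
    rw [← Real.norm_eq_abs, ← Complex.norm_real, Complex.ofReal_sub, e8]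
    refine (norm_sum_le _ _).trans (Finset.sum_le_sum fun s hs => (norm_sum_le _ _).trans
      (Finset.sum_le_sum fun r hr => ?_))
    split_ifs with hsr
    · rw [norm_zero]
      have := hC0 s r
      positivity
    · rw [norm_mul, norm_mul, RCLike.norm_conj]
      exact mul_le_mul_of_nonneg_left (hC s r (hg s hs r hr hsr) l hl) (by positivity)
  linarith [le_abs_self ((∫ v in (0 : ℝ)..l, ‖PP S h β g l v‖ ^ 2) -
      (l * (∑ s ∈ S, ‖β s‖ ^ 2 * ∫ u in (0 : ℝ)..1, (h s).eval u * (h s).eval u)))]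

/-- integrability of the functions in the pairing -/
lemma J_int {J : ℝ → ℂ} {B : ℝ} (hJm : Measurable J) (hJ0 : ∀ v, v ≤ 0 → J v = 0)
    (hJ1 : ∀ v, 0 ≤ v → ‖J v‖ ≤ B * Real.exp (-(v / 4))) (k : ℕ) (g : ℝ) :
    Integrable (fun v : ℝ => ((-v : ℝ) : ℂ) ^ k * J v * Complex.exp (-(v * g : ℝ) * I)) := by
  have hB : 0 ≤ B := by
    have := (norm_nonneg _).trans (hJ1 0 le_rfl)
    simpa using this
  have hmaj : Integrable (Set.indicator (Set.Ioi (0 : ℝ)) fun v : ℝ => B * (k.factorial / (1 / 8) ^ k) *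
      Real.exp (-(1 / 8) * v)) := by
    rw [integrable_indicator_iff measurableSet_Ioi]
    exact (exp_neg_integrableOn_Ioi 0 (by norm_num : (0 : ℝ) < 1 / 8)).const_mul _
  refine hmaj.mono' ?_ (Eventually.of_forall fun v => ?_)
  · have h1 : Measurable (fun v : ℝ => ((-v : ℝ) : ℂ) ^ k) := by fun_prop
    exact ((h1.mul hJm).mul (cont_e g).measurable).aestronglyMeasurable
  · rw [norm_mul, norm_e, mul_one, norm_mul, norm_pow, Complex.norm_real, Real.norm_eq_abs, abs_neg]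
    by_cases hv : v ≤ 0
    · rw [hJ0 v hv, norm_zero, mul_zero]
      refine Set.indicator_nonneg (fun x _ => ?_) v
      positivity
    · push Not at hv
      rw [Set.indicator_of_mem (show v ∈ Set.Ioi (0 : ℝ) from hv), abs_of_pos hv]
      have h1 := Real.pow_div_factorial_le_exp (1 / 8 * v) (by positivity) k
      rw [mul_pow, div_le_iff₀ (by positivity)] at h1
      have h2 := hJ1 v hv.le
      have h3 : v ^ k ≤ (k.factorial / (1 / 8) ^ k) * Real.exp (1 / 8 * v) := by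
        rw [div_mul_eq_mul_div, le_div_iff₀ (by positivity)]
        nlinarith
      calc v ^ k * ‖J v‖ ≤ ((k.factorial / (1 / 8) ^ k) * Real.exp (1 / 8 * v)) * (B * Real.exp (-(v / 4))) := by
            gcongr
        _ = B * (k.factorial / (1 / 8) ^ k) * (Real.exp (1 / 8 * v) * Real.exp (-(v / 4))) := by ring
        _ = _ := by
            rw [← Real.exp_add]
            congr 2
            ring

/-- the pairing -/
lemma pair {ι : Type*} (S : Finset ι) (h : ι → Polynomial ℝ) (β : ι → ℂ) (g : ι → ℝ) (m : ι → ℕ)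
    (hm : ∀ s ∈ S, (h s).natDegree < m s) (D : ι → ℕ → ℂ) {l : ℝ}
    {J : ℝ → ℂ} {B : ℝ} (hJm : Measurable J) (hJ0 : ∀ v, v ≤ 0 → J v = 0)
    (hJ1 : ∀ v, 0 ≤ v → ‖J v‖ ≤ B * Real.exp (-(v / 4)))
    (hD : ∀ s ∈ S, ∀ k < m s, ∫ v : ℝ, ((-v : ℝ) : ℂ) ^ k * J v * Complex.exp (-(v * g s : ℝ) * I) = D s k) :
    Integrable (fun v : ℝ => PP S h β g l v * J v) ∧
    ∫ v : ℝ, PP S h β g l v * J v =
      ∑ s ∈ S, ∑ k ∈ Finset.range (m s), β s * (((h s).coeff k : ℝ) * (-(1 / l : ℝ)) ^ k) * D s k := by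
  have e1 : ∀ v : ℝ, PP S h β g l v * J v = ∑ s ∈ S, ∑ k ∈ Finset.range (m s),
      (β s * (((h s).coeff k : ℝ) * (-(1 / l : ℝ)) ^ k)) *
        (((-v : ℝ) : ℂ) ^ k * J v * Complex.exp (-(v * g s : ℝ) * I)) := by
    intro v
    unfold PP
    rw [Finset.sum_mul]
    refine Finset.sum_congr rfl fun s hs => ?_
    rw [Polynomial.eval_eq_sum_range' (hm s hs), Complex.ofReal_sum, Finset.sum_mul, Finset.mul_sum,
      Finset.sum_mul]
    refine Finset.sum_congr rfl fun k _ => ?_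
    have e2 : (((h s).coeff k * (v / l) ^ k : ℝ) : ℂ) =
        ((h s).coeff k : ℝ) * (-((1 / l : ℝ) : ℂ)) ^ k * ((-v : ℝ) : ℂ) ^ k := by
      rw [mul_assoc, ← mul_pow]
      push_cast
      congr 2
      ring
    rw [e2]
    ring
  have hint : ∀ s ∈ S, ∀ k ∈ Finset.range (m s), Integrable (fun v : ℝ =>
      (β s * (((h s).coeff k : ℝ) * (-(1 / l : ℝ)) ^ k)) *
        (((-v : ℝ) : ℂ) ^ k * J v * Complex.exp (-(v * g s : ℝ) * I))) := by
    intro s _ k _
    exact (J_int hJm hJ0 hJ1 k (g s)).const_mul _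
  have hint2 : ∀ s ∈ S, Integrable (fun v : ℝ => ∑ k ∈ Finset.range (m s),
      (β s * (((h s).coeff k : ℝ) * (-(1 / l : ℝ)) ^ k)) *
        (((-v : ℝ) : ℂ) ^ k * J v * Complex.exp (-(v * g s : ℝ) * I))) := fun s hs =>
    integrable_finsetSum _ (hint s hs)
  simp_rw [e1]
  refine ⟨integrable_finsetSum _ hint2, ?_⟩
  rw [integral_finsetSum _ hint2]
  refine Finset.sum_congr rfl fun s hs => ?_
  rw [integral_finsetSum _ (hint s hs)]
  refine Finset.sum_congr rfl fun k hk => ?_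
  rw [integral_const_mul, hD s hs k (Finset.mem_range.1 hk)]

/-- the test function is small compared with any exponential -/
lemma PP_exp {ι : Type*} (S : Finset ι) (h : ι → Polynomial ℝ) (β : ι → ℂ) (g : ι → ℝ) {η : ℝ} (hη : 0 < η) :
    ∃ C : ℝ, 0 ≤ C ∧ ∀ l v : ℝ, 1 ≤ l → 0 ≤ v → ‖PP S h β g l v‖ ≤ C * Real.exp (η * v) := by
  have hC := fun s : ι => poly_exp (h s) hη
  choose C hC0 hC using hC
  refine ⟨∑ s ∈ S, ‖β s‖ * C s, Finset.sum_nonneg fun s _ => by have := hC0 s; positivity, ?_⟩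
  intro l v hl hv
  unfold PP
  rw [Finset.sum_mul]
  refine (norm_sum_le _ _).trans (Finset.sum_le_sum fun s _ => ?_)
  rw [norm_mul, norm_mul, norm_e, mul_one, Complex.norm_real, Real.norm_eq_abs, mul_assoc]
  refine mul_le_mul_of_nonneg_left ?_ (norm_nonneg _)
  have hl0 : 0 < l := by linarith
  refine (hC s (v / l) (by positivity)).trans (mul_le_mul_of_nonneg_left ?_ (hC0 s))
  rw [Real.exp_le_exp]
  exact mul_le_mul_of_nonneg_left (div_le_self hv hl) hη.le

/-- the main inequality -/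
lemma core {ι : Type*} [DecidableEq ι] (S : Finset ι) (h : ι → Polynomial ℝ) (g : ι → ℝ) (m : ι → ℕ) (c : ι → ℝ)
    (D : ι → ℕ → ℂ) (hg : ∀ s ∈ S, ∀ r ∈ S, s ≠ r → g s ≠ g r)
    (hm0 : ∀ s ∈ S, 1 ≤ m s) (hm : ∀ s ∈ S, (h s).natDegree < m s) (hc0 : ∀ s ∈ S, (h s).eval 0 = c s)
    (hc1 : ∀ s ∈ S, ∫ u in (0 : ℝ)..1, (h s).eval u * (h s).eval u = c s) {η : ℝ} (hη : 0 < η) (hη1 : η ≤ 1 / 8) :
    ∃ E : ℝ, 0 ≤ E ∧ ∀ (l B e : ℝ) (J : ℝ → ℂ), 1 ≤ l → Measurable J → (∀ v, v ≤ 0 → J v = 0) →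
      (∀ v, 0 ≤ v → ‖J v‖ ≤ B * Real.exp (-(v / 4))) → Integrable (fun v => ‖J v‖ ^ 2) → ∫ v : ℝ, ‖J v‖ ^ 2 ≤ e →
      (∀ s ∈ S, ∀ k < m s, ∫ v : ℝ, ((-v : ℝ) : ℂ) ^ k * J v * Complex.exp (-(v * g s : ℝ) * I) = D s k) →
      ∑ s ∈ S, ‖D s 0‖ ^ 2 * c s ≤ l * e + E / l + E * B * Real.exp (-(1 / 4 - η) * l) := by
  set β : ι → ℂ := fun s => (starRingEnd ℂ) (D s 0) with hβ
  have hβn : ∀ s, ‖β s‖ = ‖D s 0‖ := fun s => by rw [hβ]; exact RCLike.norm_conj _
  obtain ⟨C3, hC30, hC3⟩ := ms S h β g hg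
  obtain ⟨C, hC0, hC⟩ := PP_exp S h β g hη
  set R : ℝ := ∑ s ∈ S, ∑ k ∈ Finset.range (m s), ‖β s‖ * |(h s).coeff k| * ‖D s k‖ with hR
  have hR0 : 0 ≤ R := Finset.sum_nonneg fun s _ => Finset.sum_nonneg fun k _ => by positivity
  set A : ℝ := ∑ s ∈ S, ‖D s 0‖ ^ 2 * c s with hA
  refine ⟨C3 + 2 * R + 16 * C, by positivity, ?_⟩
  intro l B e J hl hJm hJ0 hJ1 hJ2 hJe hD
  have hl0 : 0 < l := by linarith
  have hB : 0 ≤ B := by
    have := (norm_nonneg _).trans (hJ1 0 le_rfl)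
    simpa using this
  obtain ⟨hPJ, hQ⟩ := pair S h β g m hm D (l := l) hJm hJ0 hJ1 hD
  have hA' : (∑ s ∈ S, ‖β s‖ ^ 2 * ∫ u in (0 : ℝ)..1, (h s).eval u * (h s).eval u) = A := by
    refine Finset.sum_congr rfl fun s hs => ?_
    rw [hβn, hc1 s hs]
  -- the main term
  have h1 : ‖(∫ v : ℝ, PP S h β g l v * J v) - (A : ℂ)‖ ≤ R / l := by
    rw [hQ, hA, Complex.ofReal_sum, ← Finset.sum_sub_distrib, hR, Finset.sum_div]
    refine (norm_sum_le _ _).trans (Finset.sum_le_sum fun s hs => ?_)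
    have h0 : (0 : ℕ) ∈ Finset.range (m s) := Finset.mem_range.2 (hm0 s hs)
    have e1 : ((‖D s 0‖ ^ 2 * c s : ℝ) : ℂ) =
        β s * (((h s).coeff 0 : ℝ) * (-(1 / l : ℝ)) ^ 0) * D s 0 := by
      rw [Polynomial.coeff_zero_eq_eval_zero, hc0 s hs, pow_zero, mul_one]
      have e2 : ((‖D s 0‖ ^ 2 : ℝ) : ℂ) = (starRingEnd ℂ) (D s 0) * D s 0 := by
        rw [mul_comm, Complex.mul_conj, Complex.normSq_eq_norm_sq]
      rw [Complex.ofReal_mul, e2, hβ]
      ring
    rw [e1, ← Finset.sum_erase_eq_sub h0]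
    refine (norm_sum_le _ _).trans ?_
    refine (Finset.sum_le_sum (g := fun k => ‖β s‖ * |(h s).coeff k| * ‖D s k‖ / l) fun k hk => ?_).trans ?_
    · have hk0 : k ≠ 0 := Finset.ne_of_mem_erase hk
      have e3 : ‖(-((1 / l : ℝ) : ℂ)) ^ k‖ ≤ 1 / l := by
        rw [norm_pow, norm_neg, Complex.norm_real, Real.norm_eq_abs, abs_of_pos (by positivity)]
        exact pow_le_of_le_one (by positivity) ((div_le_one hl0).2 hl) hk0
      rw [norm_mul, norm_mul, norm_mul, Complex.norm_real, Real.norm_eq_abs]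
      calc ‖β s‖ * (|(h s).coeff k| * ‖(-((1 / l : ℝ) : ℂ)) ^ k‖) * ‖D s k‖
          ≤ ‖β s‖ * (|(h s).coeff k| * (1 / l)) * ‖D s k‖ := by gcongr
        _ = _ := by ring
    · rw [Finset.sum_div]
      exact Finset.sum_le_sum_of_subset_of_nonneg (Finset.erase_subset _ _) fun k _ _ => by positivity
  have h2 : A - R / l ≤ ∫ v : ℝ, ‖PP S h β g l v * J v‖ := by
    have e1 : ‖(A : ℂ)‖ ≤ ‖∫ v : ℝ, PP S h β g l v * J v‖ +
        ‖(∫ v : ℝ, PP S h β g l v * J v) - (A : ℂ)‖ := by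
      have := norm_sub_le (∫ v : ℝ, PP S h β g l v * J v) ((∫ v : ℝ, PP S h β g l v * J v) - (A : ℂ))
      rwa [sub_sub_cancel] at this
    have e2 : A ≤ ‖(A : ℂ)‖ := by rw [Complex.norm_real]; exact le_abs_self A
    have e3 := norm_integral_le_integral_norm (μ := volume) (fun v : ℝ => PP S h β g l v * J v)
    linarith
  -- the pointwise bound
  set F1 : ℝ → ℝ := Set.indicator (Set.Ioc 0 l) fun v => 1 / (2 * l) * ‖PP S h β g l v‖ ^ 2 with hF1
  set F2 : ℝ → ℝ := fun v => l / 2 * ‖J v‖ ^ 2 with hF2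
  set F3 : ℝ → ℝ := Set.indicator (Set.Ioi l) fun v => C * B * Real.exp (-(1 / 4 - η) * v) with hF3
  have hη2 : 0 < 1 / 4 - η := by linarith
  have i1 : Integrable F1 := by
    rw [hF1, integrable_indicator_iff measurableSet_Ioc]
    have := (PP_cont S h β g l)
    have hc : Continuous fun v => 1 / (2 * l) * ‖PP S h β g l v‖ ^ 2 := by fun_prop
    exact hc.integrableOn_Ioc
  have i2 : Integrable F2 := hJ2.const_mul _
  have i3 : Integrable F3 := by
    rw [hF3, integrable_indicator_iff measurableSet_Ioi]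
    exact (exp_neg_integrableOn_Ioi l hη2).const_mul _
  have hpt : ∀ v : ℝ, ‖PP S h β g l v * J v‖ ≤ F1 v + F2 v + F3 v := by
    intro v
    have n1 : 0 ≤ F1 v := Set.indicator_nonneg (fun x _ => by positivity) v
    have n2 : 0 ≤ F2 v := by simp only [hF2]; positivity
    have n3 : 0 ≤ F3 v := Set.indicator_nonneg (fun x _ => by positivity) v
    by_cases hv : v ≤ 0
    · rw [hJ0 v hv, mul_zero, norm_zero]; positivity
    push Not at hv
    by_cases hvl : v ≤ l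
    · have e1 : F1 v = 1 / (2 * l) * ‖PP S h β g l v‖ ^ 2 := Set.indicator_of_mem (show v ∈ Set.Ioc 0 l from ⟨hv, hvl⟩) _
      have e2 : ‖PP S h β g l v * J v‖ ≤ F1 v + F2 v := by
        rw [e1, norm_mul]
        simp only [hF2]
        have e3 : 0 ≤ (‖PP S h β g l v‖ - l * ‖J v‖) ^ 2 / (2 * l) := by positivity
        have e4 : (‖PP S h β g l v‖ - l * ‖J v‖) ^ 2 / (2 * l) =
            1 / (2 * l) * ‖PP S h β g l v‖ ^ 2 + l / 2 * ‖J v‖ ^ 2 - ‖PP S h β g l v‖ * ‖J v‖ := by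
          field_simp
          ring
        linarith
      linarith
    · push Not at hvl
      have e1 : F3 v = C * B * Real.exp (-(1 / 4 - η) * v) := Set.indicator_of_mem (show v ∈ Set.Ioi l from hvl) _
      have e2 : ‖PP S h β g l v * J v‖ ≤ F3 v := by
        rw [e1, norm_mul]
        calc ‖PP S h β g l v‖ * ‖J v‖ ≤ (C * Real.exp (η * v)) * (B * Real.exp (-(v / 4))) := by
              have := hC l v hl hv.le
              have := hJ1 v hv.le
              gcongr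
          _ = C * B * (Real.exp (η * v) * Real.exp (-(v / 4))) := by ring
          _ = _ := by
              rw [← Real.exp_add]
              congr 2
              ring
      linarith
  have h3 : ∫ v : ℝ, ‖PP S h β g l v * J v‖ ≤ (∫ v, F1 v) + (∫ v, F2 v) + ∫ v, F3 v := by
    have i12 : Integrable (fun v => F1 v + F2 v) := i1.add i2
    rw [← integral_add i1 i2, ← integral_add i12 i3]
    exact integral_mono hPJ.norm (i12.add i3) hpt
  have h4 : ∫ v, F1 v ≤ 1 / (2 * l) * (l * A + C3) := by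
    rw [hF1, integral_indicator measurableSet_Ioc, integral_const_mul,
      ← intervalIntegral.integral_of_le hl0.le]
    refine mul_le_mul_of_nonneg_left ?_ (by positivity)
    have := hC3 l hl
    rwa [hA'] at this
  have h5 : ∫ v, F2 v ≤ l / 2 * e := by
    simp only [hF2]
    rw [integral_const_mul]
    exact mul_le_mul_of_nonneg_left hJe (by positivity)
  have h6 : ∫ v, F3 v ≤ 8 * C * B * Real.exp (-(1 / 4 - η) * l) := by
    rw [hF3, integral_indicator measurableSet_Ioi, integral_const_mul,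
      integral_exp_mul_Ioi (by linarith : -(1 / 4 - η) < 0) l]
    have e1 : -Real.exp (-(1 / 4 - η) * l) / -(1 / 4 - η) = Real.exp (-(1 / 4 - η) * l) / (1 / 4 - η) := by
      rw [neg_div_neg_eq]
    rw [e1]
    have e2 : Real.exp (-(1 / 4 - η) * l) / (1 / 4 - η) ≤ 8 * Real.exp (-(1 / 4 - η) * l) := by
      rw [div_le_iff₀ hη2]
      nlinarith [Real.exp_pos (-(1 / 4 - η) * l)]
    calc C * B * (Real.exp (-(1 / 4 - η) * l) / (1 / 4 - η)) ≤ C * B * (8 * Real.exp (-(1 / 4 - η) * l)) := by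
          gcongr
      _ = _ := by ring
  have h7 : 1 / (2 * l) * (l * A + C3) = A / 2 + C3 / l / 2 := by
    field_simp
  have h8 : A ≤ l * e + (C3 / l + 2 * (R / l)) + 16 * C * B * Real.exp (-(1 / 4 - η) * l) := by
    rw [h7] at h4
    linarith
  have h9 : C3 / l + 2 * (R / l) ≤ (C3 + 2 * R + 16 * C) / l := by
    rw [add_div, add_div, mul_div_assoc]
    have : 0 ≤ 16 * C / l := by positivity
    linarith
  have h10 : 16 * C * B * Real.exp (-(1 / 4 - η) * l) ≤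
      (C3 + 2 * R + 16 * C) * B * Real.exp (-(1 / 4 - η) * l) := by
    gcongr
    linarith
  linarith

lemma rh_re (RH : RiemannHypothesis) {s : ℂ} (hs : IsZ s) : s.re = 1 / 2 := by
  refine RH s hs.1 ?_ ?_
  · rintro ⟨n, hn⟩
    have h1 := hs.2.1
    rw [hn] at h1
    simp at h1
    have : (0 : ℝ) ≤ n := Nat.cast_nonneg n
    linarith
  · intro h
    have h1 := hs.2.2
    rw [h] at h1
    simp at h1

lemma norm_D {s : ℂ} (hs : s.re = 1 / 2) : ‖(s - 1) / s ^ 2‖ ^ 2 = 1 / ‖s‖ ^ 2 := by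
  have h1 : ‖s - 1‖ = ‖s‖ := by
    have e1 : ‖s - 1‖ ^ 2 = ‖s‖ ^ 2 := by
      rw [← Complex.normSq_eq_norm_sq, ← Complex.normSq_eq_norm_sq, Complex.normSq_apply, Complex.normSq_apply]
      simp only [Complex.sub_re, Complex.one_re, Complex.sub_im, Complex.one_im, hs]
      ring
    exact (sq_eq_sq₀ (norm_nonneg _) (norm_nonneg _)).1 e1
  have h0 : ‖s‖ ≠ 0 := by
    rw [norm_ne_zero_iff]
    intro h
    rw [h] at hs
    simp at hs
  rw [norm_div, norm_pow, h1]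
  field_simp

lemma gw_tend (K : ℕ) (s : ℂ) : Tendsto (fun c0 : ℝ => gw c0 K s) atTop (𝓝 1) := by
  have h1 : Tendsto (fun c0 : ℝ => (s - 1 / 2) / (c0 : ℂ)) atTop (𝓝 0) := by
    rw [tendsto_zero_iff_norm_tendsto_zero]
    have : ∀ c0 : ℝ, ‖(s - 1 / 2) / (c0 : ℂ)‖ = ‖s - 1 / 2‖ / |c0| := fun c0 => by
      rw [norm_div, Complex.norm_real, Real.norm_eq_abs]
    simp_rw [this]
    exact tendsto_const_nhds.div_atTop tendsto_abs_atTop_atTop
  have h2 : Tendsto (fun c0 : ℝ => ((1 : ℂ) / (1 + (s - 1 / 2) / (c0 : ℂ))) ^ K) atTop (𝓝 (((1 : ℂ) / (1 + 0)) ^ K)) := by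
    refine Tendsto.pow (Tendsto.div tendsto_const_nhds (tendsto_const_nhds.add h1) ?_) K
    norm_num
  rw [add_zero, div_one, one_pow] at h2
  refine h2.congr' ?_
  filter_upwards [eventually_gt_atTop 0] with c0 hc0
  unfold gw
  have hc : (c0 : ℂ) ≠ 0 := by exact_mod_cast hc0.ne'
  congr 1
  rw [show (1 : ℂ) + (s - 1 / 2) / (c0 : ℂ) = (c0 + (s - 1 / 2)) / c0 by field_simp, one_div_div]

end L3

open L3 in
theorem low3 (h1 : S_jj) (h2 : S_hpol) : S_low3 := by
  classical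
  intro RH S0 hS0 ε hε
  set S := S0.filter (fun s => 1 ≤ mu s) with hSdef
  have hS : ∀ s ∈ S, IsZ s ∧ 1 ≤ mu s := fun s hs => by
    rw [hSdef, Finset.mem_filter] at hs
    exact ⟨hS0 s hs.1, hs.2⟩
  have hsum : ∑ s ∈ S0, (mu s : ℝ) ^ 2 / ‖s‖ ^ 2 = ∑ s ∈ S, (mu s : ℝ) ^ 2 / ‖s‖ ^ 2 := by
    rw [hSdef, Finset.sum_filter_of_ne]
    intro s _ hs
    by_contra h
    have h0 : mu s = 0 := by omega
    rw [h0] at hs
    simp at hs
  rw [hsum]
  set B : ℝ := ∑ s ∈ S, (mu s : ℝ) ^ 2 / ‖s‖ ^ 2 with hB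
  have hB0 : 0 ≤ B := Finset.sum_nonneg fun s _ => by positivity
  set δ' : ℝ := min 1 (ε / (4 * (B + 1))) with hδ'
  have hd0 : 0 < δ' := lt_min one_pos (by positivity)
  have hd1 : δ' ≤ 1 := min_le_left _ _
  have hd2 : δ' * B ≤ ε / 4 := by
    have e1 : δ' ≤ ε / (4 * (B + 1)) := min_le_right _ _
    rw [le_div_iff₀ (by positivity)] at e1
    nlinarith
  obtain ⟨K, hK⟩ := h1 RH (δ' / 8) (by positivity) (by linarith)
  -- the weight
  have hT : Tendsto (fun c0 : ℝ => ∑ s ∈ S, ‖(s - 1) / s ^ 2 * gw c0 K s‖ ^ 2 * (mu s : ℝ) ^ 2) atTop (𝓝 B) := by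
    have e1 : B = ∑ s ∈ S, ‖(s - 1) / s ^ 2 * 1‖ ^ 2 * (mu s : ℝ) ^ 2 := by
      rw [hB]
      refine Finset.sum_congr rfl fun s hs => ?_
      rw [mul_one, norm_D (rh_re RH (hS s hs).1)]
      ring
    rw [e1]
    refine tendsto_finsetSum _ fun s _ => ?_
    exact (((tendsto_const_nhds.mul (gw_tend K s)).norm).pow 2).mul_const _
  obtain ⟨c0, hc1, hc2⟩ := ((hT.eventually (lt_mem_nhds (show B - ε / 4 < B by linarith))).and
    (eventually_ge_atTop 1)).exists
  obtain ⟨C, hC0, hC⟩ := hK c0 hc2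
  obtain ⟨E, hE0, hE⟩ := core S (fun s => hpol (mu s)) (fun s => s.im) mu (fun s => (mu s : ℝ) ^ 2)
    (fun s k => iteratedDeriv k (fun z => (z - 1) / z ^ 2 * gw c0 K z) s)
    (by
      intro s hs r hr hsr h
      exact hsr (Complex.ext ((rh_re RH (hS s hs).1).trans (rh_re RH (hS r hr).1).symm) h))
    (fun s hs => (hS s hs).2)
    (fun s hs => (h2 (mu s) (hS s hs).2).1)
    (fun s hs => (h2 (mu s) (hS s hs).2).2.1)
    (fun s hs => by
      rw [(h2 (mu s) (hS s hs).2).2.2 _ (h2 (mu s) (hS s hs).2).1]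
      exact (h2 (mu s) (hS s hs).2).2.1)
    (η := δ' / 32) (by positivity) (by linarith)
  simp only [iteratedDeriv_zero] at hE
  -- large N
  have tlog : Tendsto (fun N : ℕ => Real.log N) atTop atTop :=
    Real.tendsto_log_atTop.comp tendsto_natCast_atTop_atTop
  have t1 : Tendsto (fun N : ℕ => E / Real.log N) atTop (𝓝 0) := tendsto_const_nhds.div_atTop tlog
  have t2 : Tendsto (fun N : ℕ => E * C * Real.exp (-(δ' / 16 * Real.log N))) atTop (𝓝 0) := by
    have e1 : Tendsto (fun N : ℕ => Real.exp (-(δ' / 16 * Real.log N))) atTop (𝓝 0) :=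
      Real.tendsto_exp_neg_atTop_nhds_zero.comp (tlog.const_mul_atTop (by positivity))
    simpa using e1.const_mul (E * C)
  have t3 := t1.add t2
  rw [add_zero] at t3
  obtain ⟨N0, hN0⟩ := eventually_atTop.1 ((t3.eventually (gt_mem_nhds (show (0 : ℝ) < ε / 4 by linarith))).and
    (tlog.eventually (eventually_ge_atTop (max 1 B))))
  refine ⟨max 2 N0, le_max_left _ _, fun N hN a => ?_⟩
  have hN2 : 2 ≤ N := (le_max_left _ _).trans hN
  obtain ⟨u1, u2⟩ := hN0 N ((le_max_right _ _).trans hN)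
  have hl1 : 1 ≤ Real.log N := (le_max_left _ _).trans u2
  have hl2 : B ≤ Real.log N := (le_max_right _ _).trans u2
  have hlog0 : 0 < Real.log N := by linarith
  by_cases herr : err N a ≤ 1
  swap
  · push Not at herr
    nlinarith
  obtain ⟨J, j1, j2, j3, j4, j5, j6⟩ := hC N a hN2 herr
  have hl : 1 ≤ (1 + δ') * Real.log N := by nlinarith
  have key := hE ((1 + δ') * Real.log N) (C * (N : ℝ) ^ (1 / 4 + δ' / 8)) (err N a) J hl j1 j2
    (fun v hv => (j3 v hv).trans (le_of_eq (by ring))) j4 j5 (fun s hs k hk => j6 s (hS s hs).1 k hk)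
  have hN0' : (0 : ℝ) < N := by positivity
  have k1 : E / ((1 + δ') * Real.log N) ≤ E / Real.log N := by
    apply div_le_div_of_nonneg_left hE0 hlog0
    nlinarith
  have k2 : E * (C * (N : ℝ) ^ (1 / 4 + δ' / 8)) * Real.exp (-(1 / 4 - δ' / 32) * ((1 + δ') * Real.log N)) ≤
      E * C * Real.exp (-(δ' / 16 * Real.log N)) := by
    rw [Real.rpow_def_of_pos hN0']
    calc E * (C * Real.exp (Real.log N * (1 / 4 + δ' / 8))) * Real.exp (-(1 / 4 - δ' / 32) * ((1 + δ') * Real.log N))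
        = E * C * (Real.exp (Real.log N * (1 / 4 + δ' / 8)) *
            Real.exp (-(1 / 4 - δ' / 32) * ((1 + δ') * Real.log N))) := by ring
      _ ≤ _ := by
        rw [← Real.exp_add]
        refine mul_le_mul_of_nonneg_left ?_ (by positivity)
        rw [Real.exp_le_exp]
        have e1 : Real.log N * (1 / 4 + δ' / 8) + -(1 / 4 - δ' / 32) * ((1 + δ') * Real.log N) =
          Real.log N * (-(δ' / 8) + δ' / 32 + δ' * δ' / 32) := by ring
        have e2 : -(δ' / 8) + δ' / 32 + δ' * δ' / 32 ≤ -(δ' / 16) := by nlinarith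
        rw [e1]
        nlinarith
  have k3 : B - ε / 2 ≤ (1 + δ') * Real.log N * err N a := by linarith
  have k4 : (1 + δ') * (B - ε) ≤ (1 + δ') * (err N a * Real.log N) := by nlinarith
  exact le_of_mul_le_mul_left k4 (by linarith)

end Pool.Agent.N967
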