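import Mathlib
import Pool.Agent.N967.Stm3
import Pool.Agent.N891.OPT.M

set_option autoImplicit false

/-!
# Nearly optimal kernels (part BD3/OPT, by helper891)
-/

namespace Pool.Agent.N967

/-- **nearly optimal kernels** -/
theorem opt (h1 : S_kern3) (h2 : S_gg) (h3 : S_hpol) : S_opt := by
  intro m hm ε hε
  obtain ⟨κ, hκ, hb⟩ := h1
  exact Pool.Agent.N891.OPT.main h2 h3 hκ hb hm hε

end Pool.Agent.N967
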