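import Pool.Agent.N967.Cs
import Pool.Agent.N967.Lim3

set_option autoImplicit false

/-!
# Baez-Duarte's distance, the asymptotic formula: the local limit at a zero (task BD3/L, helper186)
-/

namespace Pool.Agent.N967

open Complex MeasureTheory Filter Topology
open Pool.Agent.H295R2 (fz)
open Pool.Agent.Y23 (IsZ mu Lg)

namespace PrL

/-- the limit of the ratio -/
noncomputable def qq (x y : ℝ) : ℂ := x * I / (1 + ((x - y : ℝ) : ℂ) * I)

lemma den_ne (u : ℝ) : (1 + (u : ℂ) * I) ≠ 0 := by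
  intro h
  have := congrArg Complex.re h
  simp at this

lemma one_le_den (u : ℝ) : 1 ≤ ‖(1 + (u : ℂ) * I)‖ := by
  have := Complex.abs_re_le_norm (1 + (u : ℂ) * I)
  simpa using this

lemma qq_norm (x y : ℝ) : ‖qq x y‖ ≤ |x| := by
  have h1 := one_le_den (x - y)
  rw [qq, norm_div, norm_mul, Complex.norm_real, Complex.norm_I, mul_one, Real.norm_eq_abs]
  rw [div_le_iff₀ (by linarith)]
  nlinarith [abs_nonneg x]

lemma qq_cont : Continuous (fun p : ℝ × ℝ => qq p.1 p.2) := by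
  unfold qq
  exact Continuous.div (by fun_prop) (by fun_prop) (fun p => den_ne _)

lemma factor {ρ : ℂ} (h : IsZ ρ) : ∃ g : ℂ → ℂ, AnalyticAt ℂ g ρ ∧ g ρ ≠ 0 ∧
    ∀ᶠ z in 𝓝 ρ, riemannZeta z = (z - ρ) ^ mu ρ * g z := by
  have h1 : analyticOrderAt riemannZeta ρ ≠ ⊤ := by
    rw [← Pool.Agent.Y23.order_eq h.2.1 h.2.2]
    exact Pool.Agent.Y23.XX_ne_top _
  obtain ⟨g, hg, hg0, hev⟩ := ((Pool.Agent.Y23.zeta_an h.2.2).analyticOrderAt_eq_natCast (n := mu ρ)).1
    (by rw [mu, Nat.cast_analyticOrderNatAt h1])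
  exact ⟨g, hg, hg0, hev.mono (fun z hz => by simpa using hz)⟩

lemma zero_eq (hRH : RiemannHypothesis) {ρ : ℂ} (h : IsZ ρ) : ρ = 1 / 2 + (ρ.im : ℂ) * I := by
  have h1 := Lim3.re_half hRH h
  apply Complex.ext
  · simp [h1]
  · simp

/-- the local limit of the ratio -/
theorem Fr_lim (hRH : RiemannHypothesis) {ρ : ℂ} (h : IsZ ρ) (x y : ℝ) :
    Tendsto (fun L : ℝ => Fr (1 / L) (-(y / L)) (ρ.im + x / L)) atTop (𝓝 (qq x y ^ mu ρ)) := by
  obtain ⟨g, hg, hg0, hev⟩ := factor h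
  have hinv : Tendsto (fun L : ℝ => ((L⁻¹ : ℝ) : ℂ)) atTop (𝓝 0) := by
    have := (Complex.continuous_ofReal.tendsto 0).comp (tendsto_inv_atTop_zero (𝕜 := ℝ))
    rw [Complex.ofReal_zero] at this
    exact this
  have hz : Tendsto (fun L : ℝ => ρ + x * I * ((L⁻¹ : ℝ) : ℂ)) atTop (𝓝 ρ) := by
    have := (hinv.const_mul (x * I)).const_add ρ
    simpa using this
  have hz' : Tendsto (fun L : ℝ => ρ + (1 + ((x - y : ℝ) : ℂ) * I) * ((L⁻¹ : ℝ) : ℂ)) atTop (𝓝 ρ) := by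
    have := (hinv.const_mul (1 + ((x - y : ℝ) : ℂ) * I)).const_add ρ
    simpa using this
  have hne1 : ρ ≠ 1 := by
    rintro rfl
    have := h.2.2
    simp at this
  have hlim : Tendsto (fun L : ℝ => qq x y ^ mu ρ * (g (ρ + x * I * ((L⁻¹ : ℝ) : ℂ)) /
      g (ρ + (1 + ((x - y : ℝ) : ℂ) * I) * ((L⁻¹ : ℝ) : ℂ)))) atTop (𝓝 (qq x y ^ mu ρ * (g ρ / g ρ))) := by
    exact ((hg.continuousAt.tendsto.comp hz).div (hg.continuousAt.tendsto.comp hz') hg0).const_mul _
  rw [div_self hg0, mul_one] at hlim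
  refine hlim.congr' ?_
  filter_upwards [hz.eventually hev, hz'.eventually hev, hz'.eventually (isOpen_ne.mem_nhds hne1),
    eventually_gt_atTop 0] with L h1 h2 h3 hL
  have hL' : (L : ℂ) ≠ 0 := by exact_mod_cast hL.ne'
  have e1 : (1 / 2 : ℂ) + ((ρ.im + x / L : ℝ) : ℂ) * I = ρ + x * I * ((L⁻¹ : ℝ) : ℂ) := by
    conv_rhs => rw [zero_eq hRH h]
    push_cast
    ring
  have e2 : (1 / 2 : ℂ) + ((1 / L : ℝ) : ℂ) + ((ρ.im + x / L + -(y / L) : ℝ) : ℂ) * I =
      ρ + (1 + ((x - y : ℝ) : ℂ) * I) * ((L⁻¹ : ℝ) : ℂ) := by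
    conv_rhs => rw [zero_eq hRH h]
    push_cast
    ring
  rw [Fr, e1, e2, Pool.Agent.H295R2.fz_eq h3, h1, h2, add_sub_cancel_left, add_sub_cancel_left]
  have hd := den_ne (x - y)
  have hq : qq x y ^ mu ρ = (x * I * ((L⁻¹ : ℝ) : ℂ)) ^ mu ρ /
      ((1 + ((x - y : ℝ) : ℂ) * I) * ((L⁻¹ : ℝ) : ℂ)) ^ mu ρ := by
    rw [← div_pow, qq]
    congr 1
    rw [mul_div_mul_right]
    rw [Complex.ofReal_inv]
    exact inv_ne_zero hL'
  rw [hq, mul_inv, div_eq_mul_inv, div_eq_mul_inv]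
  ring

/-- the uniform bound for the integrand -/
theorem bound (h : S_maj) (hRH : RiemannHypothesis) {κ : ℂ → ℂ} (hκ : Ker κ) (γ X : ℝ) (hX : 1 ≤ X) :
    ∃ K L0 : ℝ, 0 ≤ K ∧ 4 ≤ L0 ∧ ∀ L x y : ℝ, L0 ≤ L → |x| ≤ X →
      ‖KK κ y * (1 - Fr (1 / L) (-(y / L)) (γ + x / L))‖ ≤ K * (1 / (1 + |y|) ^ 8) := by
  obtain ⟨C, L0, hC, hL0, hm⟩ := h hRH γ X hX
  obtain ⟨c, A, hc, hA, hb⟩ := Cs.KK_bd hκ
  obtain ⟨D, hD, hmix⟩ := U3.mix hc hC
  obtain ⟨B, hB, hdec⟩ := U3.dec (half_pos hc)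
  refine ⟨A * (1 + C) * Real.exp D * B, L0, by positivity, hL0, fun L x y hL hx => ?_⟩
  have h1 := hm L x y hL hx
  have h2 := hmix |y| (abs_nonneg y)
  have h3 := hdec |y| (abs_nonneg y)
  have h4 : (1 : ℝ) ≤ Real.exp (C * (1 + |y|) ^ (9 / 10 : ℝ)) := Real.one_le_exp (by positivity)
  have h5 : ‖1 - Fr (1 / L) (-(y / L)) (γ + x / L)‖ ≤ (1 + C) * Real.exp (C * (1 + |y|) ^ (9 / 10 : ℝ)) := by
    refine (norm_sub_le _ _).trans ?_
    rw [norm_one]
    linarith
  rw [norm_mul]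
  calc ‖KK κ y‖ * ‖1 - Fr (1 / L) (-(y / L)) (γ + x / L)‖
      ≤ (A * Real.exp (-(c * |y| ^ (19 / 20 : ℝ)))) * ((1 + C) * Real.exp (C * (1 + |y|) ^ (9 / 10 : ℝ))) :=
        mul_le_mul (hb y) h5 (norm_nonneg _) (by positivity)
    _ ≤ (A * Real.exp (-(c * |y| ^ (19 / 20 : ℝ)))) * ((1 + C) * Real.exp (D + c / 2 * |y| ^ (19 / 20 : ℝ))) := by
        gcongr
    _ = A * (1 + C) * Real.exp D * Real.exp (-(c / 2 * |y| ^ (19 / 20 : ℝ))) := by
        have e : Real.exp (-(c * |y| ^ (19 / 20 : ℝ))) * Real.exp (D + c / 2 * |y| ^ (19 / 20 : ℝ)) =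
            Real.exp D * Real.exp (-(c / 2 * |y| ^ (19 / 20 : ℝ))) := by
          rw [← Real.exp_add, ← Real.exp_add]
          congr 1
          ring
        linear_combination (A * (1 + C)) * e
    _ ≤ A * (1 + C) * Real.exp D * (B / (1 + |y|) ^ 8) := by gcongr
    _ = _ := by ring

/-- continuity of the profile -/
theorem GG_cont {κ : ℂ → ℂ} (hκ : Ker κ) (m : ℕ) : Continuous (GG κ m) := by
  rw [continuous_iff_continuousAt]
  intro x0
  have hcont : ∀ x : ℝ, Continuous (fun y : ℝ => KK κ y * (1 - qq x y ^ m)) := fun x =>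
    (Cs.KK_cont hκ).mul (continuous_const.sub
      ((qq_cont.comp (f := fun y : ℝ => (x, y)) (by fun_prop)).pow m))
  have key : ContinuousAt (fun x : ℝ => ∫ y : ℝ, KK κ y * (1 - qq x y ^ m)) x0 := by
    refine continuousAt_of_dominated (bound := fun y => ‖KK κ y‖ * (1 + (|x0| + 1) ^ m))
      (Eventually.of_forall fun x => (hcont x).aestronglyMeasurable) ?_
      ((Cs.KK_int hκ).norm.mul_const _) ?_
    · have h1 : ∀ᶠ x : ℝ in 𝓝 x0, |x| < |x0| + 1 :=
        (continuous_abs.tendsto x0).eventually (gt_mem_nhds (by linarith))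
      filter_upwards [h1] with x hx
      refine Eventually.of_forall fun y => ?_
      rw [norm_mul]
      refine mul_le_mul_of_nonneg_left ?_ (norm_nonneg _)
      refine (norm_sub_le _ _).trans ?_
      rw [norm_one, norm_pow]
      gcongr
      exact (qq_norm x y).trans hx.le
    · refine Eventually.of_forall fun y => ?_
      have : Continuous (fun x : ℝ => KK κ y * (1 - qq x y ^ m)) :=
        continuous_const.mul (continuous_const.sub
          ((qq_cont.comp (f := fun x : ℝ => (x, y)) (by fun_prop)).pow m))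
      exact this.continuousAt
  exact key

lemma HH_meas (hRH : RiemannHypothesis) {κ : ℂ → ℂ} (hκ : Ker κ) {L : ℝ} (hL : 0 < L) :
    StronglyMeasurable (HH κ L) := by
  have h1 : Continuous (Function.uncurry fun (t y : ℝ) => KK κ y * (1 - Fr (1 / L) (-(y / L)) t)) :=
    ((Cs.KK_cont hκ).comp continuous_snd).mul (continuous_const.sub (Cs.Fr_cont' hRH hL))
  exact h1.stronglyMeasurable.integral_prod_right

theorem HH_lim (h : S_maj) (hRH : RiemannHypothesis) {κ : ℂ → ℂ} (hκ : Ker κ) {ρ : ℂ} (hρ : IsZ ρ) (x : ℝ) :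
    Tendsto (fun L : ℝ => HH κ L (ρ.im + x / L)) atTop (𝓝 (GG κ (mu ρ) x)) := by
  obtain ⟨K, L0, hK, hL0, hb⟩ := bound h hRH hκ ρ.im (max |x| 1) (le_max_right _ _)
  refine tendsto_integral_filter_of_dominated_convergence (fun y => K * (1 / (1 + |y|) ^ 8)) ?_ ?_
    (U3.eight_int.const_mul K) ?_
  · filter_upwards [eventually_gt_atTop 0] with L hL
    have h1 : Continuous (fun y : ℝ => KK κ y * (1 - Fr (1 / L) (-(y / L)) (ρ.im + x / L))) :=
      (Cs.KK_cont hκ).mul (continuous_const.sub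
        ((Cs.Fr_cont' hRH hL).comp (f := fun y : ℝ => (ρ.im + x / L, y)) (by fun_prop)))
    exact h1.aestronglyMeasurable
  · filter_upwards [eventually_ge_atTop L0] with L hL
    exact Eventually.of_forall fun y => hb L x y hL (le_max_left _ _)
  · refine Eventually.of_forall fun y => ?_
    exact ((Fr_lim hRH hρ x y).const_sub 1).const_mul (KK κ y)

end PrL

/-- Task BD3/L: the local limit at a zero. -/
theorem prL (h : S_maj) : S_prL := by
  intro hRH κ hκ ρ X hX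
  obtain ⟨K, L0, hK, hL0, hb⟩ := PrL.bound h hRH hκ (ρ : ℂ).im X hX
  set J : ℝ := ∫ y : ℝ, K * (1 / (1 + |y|) ^ 8) with hJ
  have hJ0 : 0 ≤ J := integral_nonneg fun y => by positivity
  have hH : ∀ L x : ℝ, L0 ≤ L → |x| ≤ X → ‖HH κ L ((ρ : ℂ).im + x / L)‖ ≤ J := by
    intro L x hL hx
    exact norm_integral_le_of_norm_le (U3.eight_int.const_mul K)
      (Eventually.of_forall fun y => hb L x y hL hx)
  have hG : ∀ x : ℝ, |x| ≤ X → ‖GG κ (mu ρ) x‖ ≤ J := by
    intro x hx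
    refine le_of_tendsto (PrL.HH_lim h hRH hκ ρ.2 x).norm ?_
    filter_upwards [eventually_ge_atTop L0] with L hL
    exact hH L x hL hx
  have h0 : (0 : ℝ) = ∫ x in (-X)..X, (0 : ℝ) := by simp
  rw [h0]
  refine intervalIntegral.tendsto_integral_filter_of_dominated_convergence (fun _ => (J + J) ^ 2) ?_ ?_
    intervalIntegrable_const ?_
  · filter_upwards [eventually_ge_atTop L0] with L hL
    have hL1 : 0 < L := by linarith
    have h1 : StronglyMeasurable (fun x : ℝ => HH κ L ((ρ : ℂ).im + x / L)) :=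
      (PrL.HH_meas hRH hκ hL1).comp_measurable (by fun_prop)
    have h2 : StronglyMeasurable (GG κ (mu ρ)) := (PrL.GG_cont hκ _).stronglyMeasurable
    exact ((h1.sub h2).norm.pow 2).aestronglyMeasurable
  · filter_upwards [eventually_ge_atTop L0] with L hL
    refine Eventually.of_forall fun x hx => ?_
    rw [Set.uIoc_of_le (by linarith)] at hx
    have hx' : |x| ≤ X := abs_le.2 ⟨hx.1.le, hx.2⟩
    rw [Real.norm_eq_abs, abs_of_nonneg (sq_nonneg _)]
    gcongr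
    exact (norm_sub_le _ _).trans (add_le_add (hH L x hL hx') (hG x hx'))
  · refine Eventually.of_forall fun x _ => ?_
    have h1 := (PrL.HH_lim h hRH hκ ρ.2 x).sub_const (GG κ (mu ρ) x)
    rw [sub_self] at h1
    have h2 := (h1.norm).pow 2
    simpa using h2

end Pool.Agent.N967
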