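import Mathlib
import Pool.Agent.N967.Stm3
import Pool.Agent.N967.Upper3

set_option autoImplicit false

/-!
# Baez-Duarte's distance, the asymptotic formula: the error away from the zeros
-/

namespace Pool.Agent.N967

open Complex MeasureTheory Filter Topology
open Pool.Agent.H295R2 (fz)
open Pool.Agent.Y23 (IsZ mu Lg)

namespace PrO

/-- the set away from the zeros -/
def AA (T X L : ℝ) : Set ℝ := {t : ℝ | |t| ≤ T ∧ ∀ s : ℂ, IsZ s → X / L < |t - s.im|}

lemma isZ_countable : {s : ℂ | IsZ s}.Countable := by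
  have : {s : ℂ | IsZ s} = ⋃ n : ℕ, {s : ℂ | IsZ s ∧ |s.im| ≤ n} := by
    ext s
    simp only [Set.mem_ofPred_eq, Set.mem_iUnion]
    constructor
    · intro h
      obtain ⟨n, hn⟩ := exists_nat_ge |s.im|
      exact ⟨n, h, hn⟩
    · rintro ⟨n, h, _⟩
      exact h
  rw [this]
  exact Set.countable_iUnion fun n => (Pool.Agent.Y23.isZ_finite n).countable

lemma AA_meas (T X L : ℝ) : MeasurableSet (AA T X L) := by
  have : AA T X L = {t : ℝ | |t| ≤ T} ∩ ⋂ s ∈ {s : ℂ | IsZ s}, {t : ℝ | X / L < |t - s.im|} := by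
    ext t
    simp [AA]
  rw [this]
  refine (measurableSet_le (by fun_prop) measurable_const).inter ?_
  exact MeasurableSet.biInter isZ_countable fun s _ => measurableSet_lt measurable_const (by fun_prop)

/-- the weight -/
noncomputable def ww (T X L : ℝ) : ℝ → ℝ := (AA T X L).indicator (fun _ => (1 : ℝ))

lemma ww_meas (T X L : ℝ) : Measurable (ww T X L) := measurable_const.indicator (AA_meas T X L)

lemma ww_nonneg (T X L t : ℝ) : 0 ≤ ww T X L t := Set.indicator_nonneg (fun _ _ => zero_le_one) t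

lemma ww_in {T X L t : ℝ} (h : t ∈ AA T X L) : ww T X L t = 1 := Set.indicator_of_mem h _

lemma ww_out {T X L t : ℝ} (h : t ∉ AA T X L) : ww T X L t = 0 := Set.indicator_of_notMem h _

lemma Lg_mono {s t : ℝ} (h : |s| ≤ |t|) : Lg s ≤ Lg t := by
  unfold Pool.Agent.Y23.Lg
  have := abs_nonneg s
  exact Real.log_le_log (by linarith) (by linarith)

lemma rad_le {θ T0 t : ℝ} (hθ : θ ≤ 1) (hT0 : Real.exp 1 ≤ T0) : rad θ T0 t ≤ 1 := by
  unfold rad
  split_ifs with h
  · have h1 : 1 ≤ Real.log (Lg t) := by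
      rw [Real.le_log_iff_exp_le (by linarith [Pool.Agent.Y23.one_le_Lg t])]
      linarith
    rw [div_le_one (by linarith)]
    linarith
  · exact le_rfl

/-- the Cauchy distribution -/
lemma cauchy {a : ℝ} (ha : 0 < a) (g : ℝ) :
    Integrable (fun t : ℝ => a ^ 2 / (a ^ 2 + (t - g) ^ 2)) ∧
      ∫ t : ℝ, a ^ 2 / (a ^ 2 + (t - g) ^ 2) = Real.pi * a := by
  have e : (fun t : ℝ => a ^ 2 / (a ^ 2 + (t - g) ^ 2)) = fun t => (fun u : ℝ => (fun w : ℝ => (1 + w ^ 2)⁻¹) (u / a)) (t - g) := by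
    funext t
    simp only
    have : a ≠ 0 := ha.ne'
    field_simp
  have h0 : Integrable (fun u : ℝ => (fun w : ℝ => (1 + w ^ 2)⁻¹) (u / a)) :=
    integrable_inv_one_add_sq.comp_div ha.ne'
  constructor
  · rw [e]
    exact h0.comp_sub_right g
  · rw [e, integral_sub_right_eq_self (fun u : ℝ => (fun w : ℝ => (1 + w ^ 2)⁻¹) (u / a)) g,
      Measure.integral_comp_div (fun w : ℝ => (1 + w ^ 2)⁻¹) a, integral_univ_inv_one_add_sq,
      abs_of_pos ha, smul_eq_mul, mul_comm]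

lemma cauchyE {a c : ℝ} (ha : 0 < a) (hc : 0 ≤ c) (g : ℝ) :
    ∫⁻ t : ℝ, ENNReal.ofReal (c * (a ^ 2 / (a ^ 2 + (t - g) ^ 2))) = ENNReal.ofReal (c * (Real.pi * a)) := by
  obtain ⟨h1, h2⟩ := cauchy ha g
  rw [← h2, ← integral_const_mul, ofReal_integral_eq_lintegral_ofReal (h1.const_mul c)
    (Eventually.of_forall fun t => by positivity)]

/-- the part of small `y` -/
lemma near (hp : S_pw) (hc : S_cnt) (hRH : RiemannHypothesis) {T Y δ : ℝ} (hT : 1 ≤ T) (hY : 0 ≤ Y) (hδ : 0 < δ) :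
    ∃ X0 : ℝ, 1 ≤ X0 ∧ ∀ X : ℝ, X0 ≤ X → ∃ L0 : ℝ, 4 ≤ L0 ∧ ∀ L : ℝ, L0 ≤ L → ∀ y : ℝ, |y| ≤ Y →
      ∫⁻ t : ℝ, ENNReal.ofReal (‖1 - Fr (1 / L) (-(y / L)) t‖ ^ 2 * ww T X L t) ≤ ENNReal.ofReal (δ / L) := by
  classical
  obtain ⟨θ, C, T0, hθ, hθ1, hC, hT0, hcnt⟩ := hc hRH 1 one_pos le_rfl
  have hsl : Slope θ C T0 := by
    intro t ht r hr hr1 S hS
    exact (hcnt t ht r S hS).2 hr hr1
  obtain ⟨e, K, he, he4, hK, hpw⟩ := hp hRH 1 θ C T0 one_pos le_rfl hθ hθ1 hC hT0 hsl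
  obtain ⟨C0, hC0, hcnt1⟩ := Pool.Agent.Y23.cnt
  set M : ℝ := C0 * Lg (T + 1) with hM
  have hM0 : 0 ≤ M := by
    have := Pool.Agent.Y23.one_le_Lg (T + 1)
    positivity
  set E : ℝ := K * Real.exp (6 * 1 * Lg (T + 2) + 2 * M * Real.log (1 + Y)) with hE
  have hE0 : 0 < E := by positivity
  set Z : Finset ℂ := (Pool.Agent.Y23.isZ_finite (T + 6)).toFinset with hZ
  have hZm : ∀ s : ℂ, s ∈ Z ↔ IsZ s ∧ |s.im| ≤ T + 6 := by
    intro s
    rw [hZ, Set.Finite.mem_toFinset]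
    rfl
  set n : ℝ := (Z.card : ℝ) with hn
  have hn0 : 0 ≤ n := Nat.cast_nonneg _
  refine ⟨max 1 (4 * Real.pi * E * n * (1 + Y) ^ 2 / δ), le_max_left _ _, fun X hX => ?_⟩
  have hX1 : 1 ≤ X := (le_max_left _ _).trans hX
  have hX2 : 4 * Real.pi * E * n * (1 + Y) ^ 2 / δ ≤ X := (le_max_right _ _).trans hX
  have hX0 : 0 < X := by linarith
  refine ⟨max 4 (max (1 / e) (max (Y / e) (4 * T * E * (1 + Y) ^ 2 / δ))), le_max_left _ _, fun L hL y hy => ?_⟩
  have hL4 : 4 ≤ L := (le_max_left _ _).trans hL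
  have hL' := (le_max_right _ _).trans hL
  have hL1 : 1 / e ≤ L := (le_max_left _ _).trans hL'
  have hL'' := (le_max_right _ _).trans hL'
  have hL2 : Y / e ≤ L := (le_max_left _ _).trans hL''
  have hL3 : 4 * T * E * (1 + Y) ^ 2 / δ ≤ L := (le_max_right _ _).trans hL''
  have hL0 : 0 < L := by linarith
  set b : ℝ := 1 / L with hb
  set v : ℝ := -(y / L) with hv
  have hb0 : 0 < b := by positivity
  have hbe : b ≤ e := by
    rw [hb, div_le_iff₀ hL0]
    rw [div_le_iff₀ he] at hL1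
    linarith
  have hvabs : |v| = |y| / L := by rw [hv, abs_neg, abs_div, abs_of_pos hL0]
  have hve : |v| ≤ e := by
    rw [hvabs, div_le_iff₀ hL0]
    rw [div_le_iff₀ he] at hL2
    linarith
  have hvb : |v| / b = |y| := by
    rw [hvabs, hb]
    field_simp
  set a : ℝ := X / L with ha
  have ha0 : 0 < a := by positivity
  set R : ℝ := (1 + Y) / L with hR
  have hR0 : 0 < R := by positivity
  have hbv : b + |v| ≤ R := by
    rw [hvabs, hb, hR, ← add_div]
    gcongr
  have hbv0 : 0 < b + |v| := by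
    have := abs_nonneg v
    linarith
  set q : ℝ := E * (2 * R ^ 2 / a ^ 2) with hq
  have hq0 : 0 ≤ q := by positivity
  -- the pointwise bound
  have hpt : ∀ t : ℝ, t ∈ AA T X L → ‖1 - Fr b v t‖ ^ 2 ≤ E * R ^ 2 +
      ∑ s ∈ Z, q * (a ^ 2 / (a ^ 2 + (t - s.im) ^ 2)) := by
    rintro t ⟨ht1, ht2⟩
    have hv1 : |v| ≤ 1 := by linarith
    have htv : |t + v| ≤ T + 1 := (abs_add_le _ _).trans (by linarith)
    set m : ℤ := ⌊t + v⌋ with hm
    have hm1 : (m : ℝ) ≤ t + v := Int.floor_le _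
    have hm2 : t + v ≤ m + 1 := (Int.lt_floor_add_one _).le
    have hmabs : |(m : ℝ)| ≤ T + 2 := by
      rw [abs_le] at htv ⊢
      constructor <;> linarith [htv.1, htv.2]
    have hcn : Cnt (t + v) (rad θ T0 (t + v)) M := by
      intro S hS
      have h1 := hcnt1 (t + v) S (fun s hs => ⟨(hS s hs).1, (hS s hs).2.trans (rad_le hθ1 hT0)⟩)
      have h2 : Lg (t + v) ≤ Lg (T + 1) := Lg_mono (by rw [abs_of_nonneg (by linarith : (0:ℝ) ≤ T + 1)]; exact htv)
      calc ∑ s ∈ S, (mu s : ℝ) = ((∑ s ∈ S, mu s : ℕ) : ℝ) := by push_cast; rfl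
        _ ≤ C0 * Lg (t + v) := h1
        _ ≤ M := by rw [hM]; gcongr
    have h := hpw b v M t m hb0 hbe hve hm1 hm2 hcn Z (by
      intro s hs hsm
      rw [hZm]
      refine ⟨hs, ?_⟩
      have : |s.im| ≤ |s.im - m| + |(m : ℝ)| := by
        have := abs_add_le (s.im - m) (m : ℝ)
        simpa using this
      linarith)
    have hLm : Lg m ≤ Lg (T + 2) := Lg_mono (by rw [abs_of_nonneg (by linarith : (0:ℝ) ≤ T + 2)]; exact hmabs)
    have hlog : Real.log (1 + |v| / b) ≤ Real.log (1 + Y) := by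
      rw [hvb]
      exact Real.log_le_log (by positivity) (by linarith)
    have hE' : K * Real.exp (6 * 1 * Lg m + 2 * M * Real.log (1 + |v| / b)) ≤ E := by
      rw [hE]
      gcongr
    refine h.trans ?_
    have h5 : (b + |v|) ^ 2 + ∑ s ∈ Z, (b + |v|) ^ 2 / ((b + |v|) ^ 2 + (t - s.im) ^ 2) ≤
        R ^ 2 + ∑ s ∈ Z, 2 * R ^ 2 / a ^ 2 * (a ^ 2 / (a ^ 2 + (t - s.im) ^ 2)) := by
      refine add_le_add (by gcongr) (Finset.sum_le_sum fun s hs => ?_)
      have h6 := ht2 s ((hZm s).1 hs).1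
      have h7 : a ^ 2 ≤ (t - s.im) ^ 2 := by
        rw [← sq_abs (t - s.im)]
        gcongr
      have h8 : 0 < (t - s.im) ^ 2 := lt_of_lt_of_le (by positivity) h7
      calc (b + |v|) ^ 2 / ((b + |v|) ^ 2 + (t - s.im) ^ 2) ≤ R ^ 2 / (t - s.im) ^ 2 := by
            gcongr
            nlinarith
        _ = 2 * R ^ 2 / (2 * (t - s.im) ^ 2) := by field_simp
        _ ≤ 2 * R ^ 2 / (a ^ 2 + (t - s.im) ^ 2) := by
            gcongr
            linarith
        _ = _ := by field_simp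
    calc K * Real.exp (6 * 1 * Lg m + 2 * M * Real.log (1 + |v| / b)) *
          ((b + |v|) ^ 2 + ∑ s ∈ Z, (b + |v|) ^ 2 / ((b + |v|) ^ 2 + (t - s.im) ^ 2))
        ≤ E * (R ^ 2 + ∑ s ∈ Z, 2 * R ^ 2 / a ^ 2 * (a ^ 2 / (a ^ 2 + (t - s.im) ^ 2))) := by
          gcongr
      _ = _ := by
          rw [mul_add, Finset.mul_sum]
          congr 1
          refine Finset.sum_congr rfl fun s _ => ?_
          rw [hq]
          ring
  -- integration
  have hI : MeasurableSet (Set.Icc (-T) T) := measurableSet_Icc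
  have hmeasZ : ∀ s ∈ Z, Measurable fun t : ℝ => ENNReal.ofReal (q * (a ^ 2 / (a ^ 2 + (t - s.im) ^ 2))) := by
    intro s _
    fun_prop
  calc ∫⁻ t : ℝ, ENNReal.ofReal (‖1 - Fr b v t‖ ^ 2 * ww T X L t)
      ≤ ∫⁻ t : ℝ, ((Set.Icc (-T) T).indicator (fun _ => ENNReal.ofReal (E * R ^ 2)) t +
          ∑ s ∈ Z, ENNReal.ofReal (q * (a ^ 2 / (a ^ 2 + (t - s.im) ^ 2)))) := by
        refine lintegral_mono fun t => ?_
        simp only
        by_cases ht : t ∈ AA T X L
        · have ht3 : t ∈ Set.Icc (-T) T := abs_le.1 ht.1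
          rw [ww_in ht, mul_one, Set.indicator_of_mem ht3]
          refine (ENNReal.ofReal_le_ofReal (hpt t ht)).trans ?_
          rw [ENNReal.ofReal_add (by positivity) (Finset.sum_nonneg fun s _ => by positivity),
            ENNReal.ofReal_sum_of_nonneg (fun s _ => by positivity)]
        · rw [ww_out ht, mul_zero, ENNReal.ofReal_zero]
          exact zero_le
    _ = ENNReal.ofReal (E * R ^ 2) * ENNReal.ofReal (2 * T) + ∑ s ∈ Z, ENNReal.ofReal (q * (Real.pi * a)) := by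
        rw [lintegral_add_left (measurable_const.indicator hI), lintegral_finsetSum _ hmeasZ,
          lintegral_indicator_const hI, Real.volume_Icc]
        congr 2
        · ring_nf
        · funext s
          exact cauchyE ha0 hq0 s.im
    _ = ENNReal.ofReal (E * R ^ 2 * (2 * T) + n * (q * (Real.pi * a))) := by
        rw [← ENNReal.ofReal_mul (by positivity), Finset.sum_const, nsmul_eq_mul, hn,
          ENNReal.ofReal_add (by positivity) (by positivity), ENNReal.ofReal_mul (Nat.cast_nonneg _),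
          ENNReal.ofReal_natCast]
    _ ≤ ENNReal.ofReal (δ / L) := by
        refine ENNReal.ofReal_le_ofReal ?_
        have h1 : E * R ^ 2 * (2 * T) ≤ δ / 2 / L := by
          rw [hR, div_pow, le_div_iff₀ hL0]
          rw [div_le_iff₀ hδ] at hL3
          calc E * ((1 + Y) ^ 2 / L ^ 2) * (2 * T) * L = (4 * T * E * (1 + Y) ^ 2) / L / 2 := by
                field_simp
                ring
            _ ≤ (L * δ) / L / 2 := by gcongr
            _ = δ / 2 := by field_simp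
        have h2 : n * (q * (Real.pi * a)) ≤ δ / 2 / L := by
          rw [hq, hR, ha, le_div_iff₀ hL0]
          rw [div_le_iff₀ hδ] at hX2
          calc n * (E * (2 * ((1 + Y) / L) ^ 2 / (X / L) ^ 2) * (Real.pi * (X / L))) * L
              = (4 * Real.pi * E * n * (1 + Y) ^ 2) / X / 2 := by
                field_simp
                ring
            _ ≤ (X * δ) / X / 2 := by gcongr
            _ = δ / 2 := by field_simp
        calc E * R ^ 2 * (2 * T) + n * (q * (Real.pi * a)) ≤ δ / 2 / L + δ / 2 / L := add_le_add h1 h2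
          _ = δ / L := by ring

/-- the weight of the kernel -/
lemma KK_cont {κ : ℂ → ℂ} (h : Differentiable ℂ κ) : Continuous (KK κ) := by
  unfold KK
  refine (continuous_const.mul (Continuous.div ?_ (by fun_prop) fun y => ?_)).neg
  · exact h.continuous.comp (by fun_prop)
  · intro hy
    have := congrArg Complex.re hy
    simp at this

lemma KK_le {κ : ℂ → ℂ} {c Ck : ℝ} (hCk : 0 < Ck)
    (h : ∀ z : ℂ, z.re ≤ 0 → ‖κ z‖ ≤ Ck * Real.exp (-z.re) * Real.exp (-(c * |z.im| ^ (19 / 20 : ℝ)))) (y : ℝ) :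
    ‖KK κ y‖ ≤ Ck * Real.exp 1 * Real.exp (-(c * |y| ^ (19 / 20 : ℝ))) := by
  have h1 := h (-1 + y * I) (by simp)
  have e1 : (-1 + (y : ℂ) * I).re = -1 := by simp
  have e2 : (-1 + (y : ℂ) * I).im = y := by simp
  rw [e1, e2, neg_neg] at h1
  have h2 : 1 ≤ ‖(-1 + (y : ℂ) * I)‖ := by
    have := Complex.abs_re_le_norm (-1 + (y : ℂ) * I)
    rw [e1] at this
    simpa using this
  have h3 : ‖(1 / (2 * (Real.pi : ℂ)))‖ ≤ 1 := by
    rw [norm_div, norm_one, norm_mul, Complex.norm_real, Real.norm_of_nonneg Real.pi_pos.le,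
      Complex.norm_ofNat, div_le_one (by positivity)]
    linarith [Real.pi_gt_three]
  unfold KK
  rw [norm_neg, norm_mul, norm_div (κ _)]
  calc ‖(1 / (2 * (Real.pi : ℂ)))‖ * (‖κ (-1 + y * I)‖ / ‖(-1 + (y : ℂ) * I)‖)
      ≤ 1 * ((Ck * Real.exp 1 * Real.exp (-(c * |y| ^ (19 / 20 : ℝ)))) / 1) := by gcongr
    _ = _ := by ring

lemma eight_le {Y y : ℝ} (hY : 0 ≤ Y) (h : Y < |y|) : 1 / (1 + |y|) ^ 8 ≤ 1 / (1 + Y) * (1 + y ^ 2)⁻¹ := by
  have e : 1 / (1 + Y) * (1 + y ^ 2)⁻¹ = 1 / ((1 + Y) * (1 + y ^ 2)) := by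
    field_simp
  rw [e]
  have h0 := abs_nonneg y
  have h1 : 1 + y ^ 2 ≤ (1 + |y|) ^ 2 := by
    rw [← sq_abs y]
    nlinarith
  have h2 : 1 + Y ≤ (1 + |y|) ^ 6 := by
    have : (1 + |y|) ^ 1 ≤ (1 + |y|) ^ 6 := pow_le_pow_right₀ (by linarith) (by norm_num)
    linarith
  refine one_div_le_one_div_of_le (by positivity) ?_
  calc (1 + Y) * (1 + y ^ 2) ≤ (1 + |y|) ^ 6 * (1 + |y|) ^ 2 := by gcongr
    _ = (1 + |y|) ^ 8 := by ring

end PrO

open PrO in
theorem prO (h1 : S_cs) (h2 : S_pw) (h3 : S_dev) (h4 : S_cnt) : S_prO := by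
  intro hRH κ hκ T ε hT hε
  have hκ' := hκ
  obtain ⟨hκd, hκ0, c, Ck, hc, hCk, hκ1, hκ2⟩ := hκ'
  obtain ⟨C, b0, hC, hb0, hb01, hdev⟩ := h3 hRH
  obtain ⟨B1, hB1, hdec1⟩ := U3.dec hc
  obtain ⟨B2, hB2, hdec2⟩ := U3.dec (half_pos hc)
  obtain ⟨D, hD, hmix⟩ := U3.mix hc hC
  have hKc := KK_cont hκd
  have hKle := KK_le hCk hκ2
  set A : ℝ := Ck * Real.exp 1 with hA
  have hA0 : 0 < A := by positivity
  have hKint : Integrable (KK κ) := by
    refine (U3.eight_int.const_mul (A * B1)).mono' hKc.aestronglyMeasurable (Eventually.of_forall fun y => ?_)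
    calc ‖KK κ y‖ ≤ A * Real.exp (-(c * |y| ^ (19 / 20 : ℝ))) := hKle y
      _ ≤ A * (B1 / (1 + |y|) ^ 8) := by
          gcongr
          exact hdec1 |y| (abs_nonneg y)
      _ = _ := by ring
  set B : ℝ := ∫ y : ℝ, ‖KK κ y‖ with hB
  have hB0 : 0 ≤ B := integral_nonneg fun y => norm_nonneg _
  have hBE : ∫⁻ y : ℝ, ENNReal.ofReal ‖KK κ y‖ = ENNReal.ofReal B := by
    rw [hB, ofReal_integral_eq_lintegral_ofReal hKint.norm (Eventually.of_forall fun y => norm_nonneg _)]
  set P : ℝ := A * ((1 / 4 + T ^ 2) * C) * Real.exp D * B2 with hP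
  have hP0 : 0 < P := by positivity
  set Y : ℝ := 2 * B * P * Real.pi / ε with hY
  have hY0 : 0 ≤ Y := by positivity
  set δ : ℝ := ε / (2 * (B ^ 2 + 1)) with hδ
  have hδ0 : 0 < δ := by positivity
  obtain ⟨X0, hX0, hnear⟩ := near h2 h4 hRH hT hY0 hδ0
  refine ⟨X0, fun X hX => ?_⟩
  obtain ⟨L0, hL0, hn⟩ := hnear X hX
  refine ⟨max L0 (1 / b0), fun L hL => ?_⟩
  have hL1 : L0 ≤ L := (le_max_left _ _).trans hL
  have hL2 : 1 / b0 ≤ L := (le_max_right _ _).trans hL
  have hL4 : 4 ≤ L := hL0.trans hL1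
  have hLp : 0 < L := by linarith
  have hb : 0 < 1 / L := by positivity
  have hbb0 : 1 / L ≤ b0 := by
    rw [div_le_iff₀ hLp]
    rw [div_le_iff₀ hb0] at hL2
    linarith
  have key := h1 hRH κ hκ L hL4 (ww T X L) (ww_meas T X L) (ww_nonneg T X L)
  -- the bound for each `y`
  have hfar : ∀ y : ℝ, ∫⁻ t : ℝ, ENNReal.ofReal (‖1 - Fr (1 / L) (-(y / L)) t‖ ^ 2 * ww T X L t) ≤
      ENNReal.ofReal ((1 / 4 + T ^ 2) * C * (1 / L) * Real.exp (C * (1 + |y|) ^ (9 / 10 : ℝ))) := by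
    intro y
    have h5 := hdev (1 / L) (-(y / L)) hb hbb0
    have e1 : |-(y / L)| / (1 / L) = |y| := by
      rw [abs_neg, abs_div, abs_of_pos hLp]
      field_simp
    rw [e1] at h5
    calc ∫⁻ t : ℝ, ENNReal.ofReal (‖1 - Fr (1 / L) (-(y / L)) t‖ ^ 2 * ww T X L t)
        ≤ ∫⁻ t : ℝ, ENNReal.ofReal (1 / 4 + T ^ 2) *
            ENNReal.ofReal (‖1 - Fr (1 / L) (-(y / L)) t‖ ^ 2 / (1 / 4 + t ^ 2)) := by
          refine lintegral_mono fun t => ?_
          simp only
          rw [← ENNReal.ofReal_mul (by positivity)]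
          refine ENNReal.ofReal_le_ofReal ?_
          by_cases ht : t ∈ AA T X L
          · rw [ww_in ht, mul_one, mul_div_assoc', le_div_iff₀ (by positivity), mul_comm]
            have : t ^ 2 ≤ T ^ 2 := by
              rw [← sq_abs t]
              have := ht.1
              gcongr
            gcongr
          · rw [ww_out ht, mul_zero]
            positivity
      _ = ENNReal.ofReal (1 / 4 + T ^ 2) *
            ∫⁻ t : ℝ, ENNReal.ofReal (‖1 - Fr (1 / L) (-(y / L)) t‖ ^ 2 / (1 / 4 + t ^ 2)) :=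
          lintegral_const_mul' _ _ ENNReal.ofReal_ne_top
      _ ≤ ENNReal.ofReal (1 / 4 + T ^ 2) *
            ENNReal.ofReal (C * (1 / L) * Real.exp (C * (1 + |y|) ^ (9 / 10 : ℝ))) := by gcongr
      _ = _ := by
          rw [← ENNReal.ofReal_mul (by positivity)]
          congr 1
          ring
  have hy : ∀ y : ℝ, ENNReal.ofReal ‖KK κ y‖ *
      ∫⁻ t : ℝ, ENNReal.ofReal (‖1 - Fr (1 / L) (-(y / L)) t‖ ^ 2 * ww T X L t) ≤
      ENNReal.ofReal ‖KK κ y‖ * ENNReal.ofReal (δ / L) +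
        ENNReal.ofReal (P / L / (1 + Y) * (1 + y ^ 2)⁻¹) := by
    intro y
    rcases le_or_gt |y| Y with h | h
    · refine le_trans ?_ (le_add_right le_rfl)
      gcongr
      exact hn L hL1 y h
    · refine le_trans ?_ (le_add_left le_rfl)
      calc ENNReal.ofReal ‖KK κ y‖ * ∫⁻ t : ℝ, ENNReal.ofReal (‖1 - Fr (1 / L) (-(y / L)) t‖ ^ 2 * ww T X L t)
          ≤ ENNReal.ofReal (A * Real.exp (-(c * |y| ^ (19 / 20 : ℝ)))) *
            ENNReal.ofReal ((1 / 4 + T ^ 2) * C * (1 / L) * Real.exp (C * (1 + |y|) ^ (9 / 10 : ℝ))) := by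
            gcongr
            · exact hKle y
            · exact hfar y
        _ = ENNReal.ofReal ((A * Real.exp (-(c * |y| ^ (19 / 20 : ℝ)))) *
            ((1 / 4 + T ^ 2) * C * (1 / L) * Real.exp (C * (1 + |y|) ^ (9 / 10 : ℝ)))) := by
            rw [← ENNReal.ofReal_mul (by positivity)]
        _ ≤ _ := by
            refine ENNReal.ofReal_le_ofReal ?_
            have h6 := hmix |y| (abs_nonneg y)
            have h7 := hdec2 |y| (abs_nonneg y)
            have h8 : Real.exp (-(c * |y| ^ (19 / 20 : ℝ))) * Real.exp (C * (1 + |y|) ^ (9 / 10 : ℝ)) ≤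
                Real.exp D * (B2 / (1 + |y|) ^ 8) := by
              rw [← Real.exp_add]
              calc Real.exp (-(c * |y| ^ (19 / 20 : ℝ)) + C * (1 + |y|) ^ (9 / 10 : ℝ))
                  ≤ Real.exp (D + -(c / 2 * |y| ^ (19 / 20 : ℝ))) :=
                    Real.exp_le_exp.2 (by linarith)
                _ = Real.exp D * Real.exp (-(c / 2 * |y| ^ (19 / 20 : ℝ))) := Real.exp_add _ _
                _ ≤ _ := by gcongr
            calc (A * Real.exp (-(c * |y| ^ (19 / 20 : ℝ)))) *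
                ((1 / 4 + T ^ 2) * C * (1 / L) * Real.exp (C * (1 + |y|) ^ (9 / 10 : ℝ)))
                = A * ((1 / 4 + T ^ 2) * C) * (1 / L) *
                  (Real.exp (-(c * |y| ^ (19 / 20 : ℝ))) * Real.exp (C * (1 + |y|) ^ (9 / 10 : ℝ))) := by ring
              _ ≤ A * ((1 / 4 + T ^ 2) * C) * (1 / L) * (Real.exp D * (B2 / (1 + |y|) ^ 8)) := by gcongr
              _ = P / L * (1 / (1 + |y|) ^ 8) := by rw [hP]; ring
              _ ≤ P / L * (1 / (1 + Y) * (1 + y ^ 2)⁻¹) := by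
                  gcongr
                  exact eight_le hY0 h
              _ = _ := by ring
  -- assembly
  have hset : ∫⁻ t in {t : ℝ | |t| ≤ T ∧ ∀ s : ℂ, IsZ s → X / L < |t - s.im|}, ENNReal.ofReal (‖HH κ L t‖ ^ 2) =
      ∫⁻ t : ℝ, ENNReal.ofReal (‖HH κ L t‖ ^ 2 * ww T X L t) := by
    have : {t : ℝ | |t| ≤ T ∧ ∀ s : ℂ, IsZ s → X / L < |t - s.im|} = AA T X L := rfl
    rw [this, ← lintegral_indicator (AA_meas T X L)]
    refine lintegral_congr fun t => ?_
    by_cases ht : t ∈ AA T X L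
    · rw [Set.indicator_of_mem ht, ww_in ht, mul_one]
    · rw [Set.indicator_of_notMem ht, ww_out ht, mul_zero, ENNReal.ofReal_zero]
  rw [hset]
  have hpi : ∫⁻ y : ℝ, ENNReal.ofReal (P / L / (1 + Y) * (1 + y ^ 2)⁻¹) =
      ENNReal.ofReal (P / L / (1 + Y) * Real.pi) := by
    rw [← integral_univ_inv_one_add_sq, ← integral_const_mul,
      ofReal_integral_eq_lintegral_ofReal (integrable_inv_one_add_sq.const_mul _)
      (Eventually.of_forall fun y => by positivity)]
  calc ∫⁻ t : ℝ, ENNReal.ofReal (‖HH κ L t‖ ^ 2 * ww T X L t)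
      ≤ ENNReal.ofReal B * ∫⁻ y : ℝ, ENNReal.ofReal ‖KK κ y‖ *
          ∫⁻ t : ℝ, ENNReal.ofReal (‖1 - Fr (1 / L) (-(y / L)) t‖ ^ 2 * ww T X L t) := key
    _ ≤ ENNReal.ofReal B * ∫⁻ y : ℝ, (ENNReal.ofReal ‖KK κ y‖ * ENNReal.ofReal (δ / L) +
        ENNReal.ofReal (P / L / (1 + Y) * (1 + y ^ 2)⁻¹)) := by
        gcongr with y
        exact hy y
    _ = ENNReal.ofReal B * (ENNReal.ofReal B * ENNReal.ofReal (δ / L) +
        ENNReal.ofReal (P / L / (1 + Y) * Real.pi)) := by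
        rw [lintegral_add_left ((hKc.norm.measurable.ennreal_ofReal).mul_const _), hpi,
          lintegral_mul_const' _ _ ENNReal.ofReal_ne_top, hBE]
    _ = ENNReal.ofReal (B * (B * (δ / L) + P / L / (1 + Y) * Real.pi)) := by
        rw [← ENNReal.ofReal_mul hB0, ← ENNReal.ofReal_add (by positivity) (by positivity),
          ← ENNReal.ofReal_mul hB0]
    _ ≤ ENNReal.ofReal (ε / L) := by
        refine ENNReal.ofReal_le_ofReal ?_
        have h5 : B * (B * δ) ≤ ε / 2 := by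
          rw [hδ]
          calc B * (B * (ε / (2 * (B ^ 2 + 1)))) = ε / 2 * (B ^ 2 / (B ^ 2 + 1)) := by
                field_simp
            _ ≤ ε / 2 * 1 := by
                gcongr
                rw [div_le_one (by positivity)]
                linarith
            _ = ε / 2 := mul_one _
        have h6 : B * (P / (1 + Y) * Real.pi) ≤ ε / 2 := by
          have h7 : 2 * B * P * Real.pi ≤ ε * (1 + Y) := by
            have : 2 * B * P * Real.pi = ε * Y := by
              rw [hY]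
              field_simp
            rw [this]
            nlinarith
          have e : B * (P / (1 + Y) * Real.pi) = B * P * Real.pi / (1 + Y) := by ring
          rw [e, div_le_iff₀ (by positivity)]
          linarith
        calc B * (B * (δ / L) + P / L / (1 + Y) * Real.pi)
            = (B * (B * δ) + B * (P / (1 + Y) * Real.pi)) / L := by
              field_simp
          _ ≤ (ε / 2 + ε / 2) / L := by gcongr
          _ = ε / L := by ring

end Pool.Agent.N967
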