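import Mathlib
import Pool.Agent.N967.Stm3
import Pool.Agent.N967.Cs

set_option autoImplicit false

/-!
# Baez-Duarte's distance, the asymptotic formula: the tail of `HH`
-/

namespace Pool.Agent.N967

open Complex MeasureTheory Filter Topology

namespace PrTA

/-- the product of the kernel and the growth of the mean square -/
lemma prod_bd {κ : ℂ → ℂ} (h : Ker κ) {C : ℝ} (hC : 0 < C) : ∃ K : ℝ, 0 < K ∧ ∀ y : ℝ,
    ‖KK κ y‖ * Real.exp (C * (1 + |y|) ^ (9 / 10 : ℝ)) ≤ K / (1 + |y|) ^ 8 := by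
  obtain ⟨c, A, hc, hA, hb⟩ := Cs.KK_bd h
  obtain ⟨B2, hB2, hdec2⟩ := U3.dec (half_pos hc)
  obtain ⟨D, hD, hmix⟩ := U3.mix hc hC
  refine ⟨A * Real.exp D * B2, by positivity, fun y => ?_⟩
  have h3 := hmix |y| (abs_nonneg y)
  have h4 := hdec2 |y| (abs_nonneg y)
  have h5 : Real.exp (-(c * |y| ^ (19 / 20 : ℝ))) * Real.exp (C * (1 + |y|) ^ (9 / 10 : ℝ)) ≤
      Real.exp D * (B2 / (1 + |y|) ^ 8) := by
    rw [← Real.exp_add]
    calc Real.exp (-(c * |y| ^ (19 / 20 : ℝ)) + C * (1 + |y|) ^ (9 / 10 : ℝ))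
        ≤ Real.exp (D + -(c / 2 * |y| ^ (19 / 20 : ℝ))) :=
          Real.exp_le_exp.2 (by linarith)
      _ = Real.exp D * Real.exp (-(c / 2 * |y| ^ (19 / 20 : ℝ))) := Real.exp_add _ _
      _ ≤ _ := by gcongr
  calc ‖KK κ y‖ * Real.exp (C * (1 + |y|) ^ (9 / 10 : ℝ))
      ≤ (A * Real.exp (-(c * |y| ^ (19 / 20 : ℝ)))) * Real.exp (C * (1 + |y|) ^ (9 / 10 : ℝ)) := by
        have := hb y
        gcongr
    _ = A * (Real.exp (-(c * |y| ^ (19 / 20 : ℝ))) * Real.exp (C * (1 + |y|) ^ (9 / 10 : ℝ))) := by ring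
    _ ≤ A * (Real.exp D * (B2 / (1 + |y|) ^ 8)) := by gcongr
    _ = _ := by ring

end PrTA

open PrTA in
theorem prT (h1 : S_cs) (h2 : S_devT) (h3 : S_dev) : S_prT := by
  intro hRH κ hκ ε hε
  obtain ⟨C1, b1, e, hC1, hb1, hb11, he, hdevT⟩ := h2 hRH
  obtain ⟨C2, b2, hC2, hb2, hb21, hdev⟩ := h3 hRH
  obtain ⟨K1, hK1, hp1⟩ := prod_bd hκ hC1
  obtain ⟨K2, hK2, hp2⟩ := prod_bd hκ hC2
  set N0 : ℝ := ∫ y : ℝ, ‖KK κ y‖ with hN0
  have hN00 : 0 ≤ N0 := integral_nonneg fun y => norm_nonneg _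
  set J : ℝ := ∫ x : ℝ, ((1 + |x|) ^ 7)⁻¹ with hJ
  have hJ0 : 0 ≤ J := integral_nonneg fun x => by positivity
  -- choice of T
  set T : ℝ := max 1 ((2 * (N0 * (C1 * K1) * J + 1) / ε) ^ (50 : ℝ)) with hT
  have hT1 : 1 ≤ T := le_max_left _ _
  have hT0 : 0 < T := by linarith
  have hTε : N0 * (C1 * K1) * J * T ^ (-(1 / 50 : ℝ)) ≤ ε / 2 := by
    have h4 : 2 * (N0 * (C1 * K1) * J + 1) / ε ≤ T ^ (1 / 50 : ℝ) := by
      have h5 : (2 * (N0 * (C1 * K1) * J + 1) / ε) ^ (50 : ℝ) ≤ T := le_max_right _ _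
      have h6 := Real.rpow_le_rpow (by positivity) h5 (show (0:ℝ) ≤ 1 / 50 by norm_num)
      rw [← Real.rpow_mul (by positivity)] at h6
      norm_num at h6
      norm_num
      exact h6
    rw [Real.rpow_neg hT0.le, ← div_eq_mul_inv, div_le_iff₀ (by positivity)]
    rw [div_le_iff₀ hε] at h4
    nlinarith
  set L0 : ℝ := max (max 4 (1 / b1)) (max (1 / b2) (2 * (N0 * (C2 * K2) * J + 1) / (e * ε))) with hL0
  refine ⟨T, L0, hT1, fun L hL => ?_⟩
  have g1 : 4 ≤ L := (le_max_left _ _).trans ((le_max_left _ _).trans hL)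
  have g2 : 1 / b1 ≤ L := (le_max_right _ _).trans ((le_max_left _ _).trans hL)
  have g3 : 1 / b2 ≤ L := (le_max_left _ _).trans ((le_max_right _ _).trans hL)
  have g4 : 2 * (N0 * (C2 * K2) * J + 1) / (e * ε) ≤ L := (le_max_right _ _).trans ((le_max_right _ _).trans hL)
  have hLp : 0 < L := by linarith
  have hb1' : 1 / L ≤ b1 := by
    rw [div_le_iff₀ hLp]
    rw [div_le_iff₀ hb1] at g2
    linarith
  have hb2' : 1 / L ≤ b2 := by
    rw [div_le_iff₀ hLp]
    rw [div_le_iff₀ hb2] at g3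
    linarith
  have hLε : N0 * (C2 * K2) * J / (e * L) ≤ ε / 2 := by
    rw [div_le_iff₀ (by positivity)] at g4 ⊢
    nlinarith
  -- the weight
  set S : Set ℝ := {t : ℝ | T < |t|} with hS
  have hSm : MeasurableSet S := by
    have : Measurable fun t : ℝ => |t| := continuous_abs.measurable
    exact measurableSet_lt measurable_const this
  set w : ℝ → ℝ := S.indicator (fun t => (1 / 4 + t ^ 2)⁻¹) with hw
  have hwm : Measurable w := by
    refine Measurable.indicator ?_ hSm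
    exact (by fun_prop : Continuous fun t : ℝ => (1 / 4 + t ^ 2)).measurable.inv
  have hw0 : ∀ t, 0 ≤ w t := by
    intro t
    rw [hw]
    apply Set.indicator_nonneg
    intro x _
    positivity
  have hwe : ∀ f : ℝ → ℂ, ∫⁻ t : ℝ, ENNReal.ofReal (‖f t‖ ^ 2 * w t) =
      ∫⁻ t in S, ENNReal.ofReal (‖f t‖ ^ 2 / (1 / 4 + t ^ 2)) := by
    intro f
    rw [← lintegral_indicator hSm]
    refine lintegral_congr fun t => ?_
    by_cases ht : t ∈ S
    · rw [hw, Set.indicator_of_mem ht, Set.indicator_of_mem ht, div_eq_mul_inv (‖f t‖ ^ 2)]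
    · rw [hw, Set.indicator_of_notMem ht, Set.indicator_of_notMem ht]
      simp
  have hmain := h1 hRH κ hκ L g1 w hwm hw0
  rw [hwe] at hmain
  refine hmain.trans ?_
  simp_rw [fun y : ℝ => hwe (fun t => 1 - Fr (1 / L) (-(y / L)) t)]
  -- the bound for one `y`
  have hy : ∀ y : ℝ, ENNReal.ofReal ‖KK κ y‖ *
      ∫⁻ t in S, ENNReal.ofReal (‖1 - Fr (1 / L) (-(y / L)) t‖ ^ 2 / (1 / 4 + t ^ 2)) ≤
      ENNReal.ofReal ((1 / L * (C1 * K1 * T ^ (-(1 / 50 : ℝ)) + C2 * K2 / (e * L))) * ((1 + |y|) ^ 7)⁻¹) := by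
    intro y
    have e1 : |-(y / L)| / (1 / L) = |y| := by
      rw [abs_neg, abs_div, abs_of_pos hLp]
      field_simp
    have hTp : 0 < T ^ (-(1 / 50 : ℝ)) := Real.rpow_pos_of_pos hT0 _
    have hy1 : 1 ≤ 1 + |y| := by linarith [abs_nonneg y]
    rcases le_or_gt |y| (e * L) with hc | hc
    · have h4 := hdevT (1 / L) (-(y / L)) T (by positivity) hb1' (by
        rw [abs_neg, abs_div, abs_of_pos hLp, div_le_iff₀ hLp]; exact hc) hT1
      rw [e1] at h4
      calc _ ≤ ENNReal.ofReal ‖KK κ y‖ * ENNReal.ofReal (C1 * (1 / L) * T ^ (-(1 / 50 : ℝ)) *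
            Real.exp (C1 * (1 + |y|) ^ (9 / 10 : ℝ))) := by gcongr
        _ = ENNReal.ofReal (C1 * (1 / L) * T ^ (-(1 / 50 : ℝ)) *
            (‖KK κ y‖ * Real.exp (C1 * (1 + |y|) ^ (9 / 10 : ℝ)))) := by
            rw [← ENNReal.ofReal_mul (norm_nonneg _)]
            congr 1
            ring
        _ ≤ _ := by
            refine ENNReal.ofReal_le_ofReal ?_
            have h5 : K1 / (1 + |y|) ^ 8 ≤ K1 * ((1 + |y|) ^ 7)⁻¹ := by
              rw [div_eq_mul_inv]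
              gcongr
              norm_num
            have h6 : 0 ≤ 1 / L * (C2 * K2 / (e * L)) * ((1 + |y|) ^ 7)⁻¹ := by positivity
            calc C1 * (1 / L) * T ^ (-(1 / 50 : ℝ)) * (‖KK κ y‖ * Real.exp (C1 * (1 + |y|) ^ (9 / 10 : ℝ)))
                ≤ C1 * (1 / L) * T ^ (-(1 / 50 : ℝ)) * (K1 * ((1 + |y|) ^ 7)⁻¹) := by
                  have := (hp1 y).trans h5
                  gcongr
              _ ≤ _ := by nlinarith
    · have h4 : ∫⁻ t in S, ENNReal.ofReal (‖1 - Fr (1 / L) (-(y / L)) t‖ ^ 2 / (1 / 4 + t ^ 2)) ≤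
          ENNReal.ofReal (C2 * (1 / L) * Real.exp (C2 * (1 + |y|) ^ (9 / 10 : ℝ))) := by
        have h5 := hdev (1 / L) (-(y / L)) (by positivity) hb2'
        rw [e1] at h5
        exact (setLIntegral_le_lintegral _ _).trans h5
      calc _ ≤ ENNReal.ofReal ‖KK κ y‖ * ENNReal.ofReal (C2 * (1 / L) *
            Real.exp (C2 * (1 + |y|) ^ (9 / 10 : ℝ))) := by gcongr
        _ = ENNReal.ofReal (C2 * (1 / L) *
            (‖KK κ y‖ * Real.exp (C2 * (1 + |y|) ^ (9 / 10 : ℝ)))) := by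
            rw [← ENNReal.ofReal_mul (norm_nonneg _)]
            congr 1
            ring
        _ ≤ _ := by
            refine ENNReal.ofReal_le_ofReal ?_
            have h5 : K2 / (1 + |y|) ^ 8 ≤ K2 / (e * L) * ((1 + |y|) ^ 7)⁻¹ := by
              rw [pow_succ, ← div_div, mul_comm (K2 / (e * L)), ← div_eq_inv_mul, div_div, div_div,
                div_le_div_iff₀ (by positivity) (by positivity)]
              have h7 : e * L ≤ 1 + |y| := by linarith
              have h8 : 0 < (1 + |y|) ^ 7 := by positivity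
              calc K2 * (e * L * (1 + |y|) ^ 7) ≤ K2 * ((1 + |y|) * (1 + |y|) ^ 7) := by gcongr
                _ = _ := by ring
            have h6 : 0 ≤ 1 / L * (C1 * K1 * T ^ (-(1 / 50 : ℝ))) * ((1 + |y|) ^ 7)⁻¹ := by positivity
            calc C2 * (1 / L) * (‖KK κ y‖ * Real.exp (C2 * (1 + |y|) ^ (9 / 10 : ℝ)))
                ≤ C2 * (1 / L) * (K2 / (e * L) * ((1 + |y|) ^ 7)⁻¹) := by
                  have := (hp2 y).trans h5
                  gcongr
              _ = 1 / L * (C2 * K2 / (e * L)) * ((1 + |y|) ^ 7)⁻¹ := by ring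
              _ ≤ _ := by nlinarith
  have hTp : 0 < T ^ (-(1 / 50 : ℝ)) := Real.rpow_pos_of_pos hT0 _
  calc ENNReal.ofReal N0 * ∫⁻ y : ℝ, ENNReal.ofReal ‖KK κ y‖ *
      ∫⁻ t in S, ENNReal.ofReal (‖1 - Fr (1 / L) (-(y / L)) t‖ ^ 2 / (1 / 4 + t ^ 2))
      ≤ ENNReal.ofReal N0 * ∫⁻ y : ℝ,
        ENNReal.ofReal ((1 / L * (C1 * K1 * T ^ (-(1 / 50 : ℝ)) + C2 * K2 / (e * L))) * ((1 + |y|) ^ 7)⁻¹) := by
        gcongr with y
        exact hy y
    _ = ENNReal.ofReal N0 * ENNReal.ofReal ((1 / L * (C1 * K1 * T ^ (-(1 / 50 : ℝ)) + C2 * K2 / (e * L))) * J) := by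
        rw [hJ, ← integral_const_mul, ofReal_integral_eq_lintegral_ofReal (seven_int.const_mul _)
          (Eventually.of_forall fun y => by positivity)]
    _ = ENNReal.ofReal (1 / L * (N0 * (C1 * K1) * J * T ^ (-(1 / 50 : ℝ)) + N0 * (C2 * K2) * J / (e * L))) := by
        rw [← ENNReal.ofReal_mul hN00]
        congr 1
        ring
    _ ≤ ENNReal.ofReal (ε / L) := by
        refine ENNReal.ofReal_le_ofReal ?_
        have : 1 / L * (N0 * (C1 * K1) * J * T ^ (-(1 / 50 : ℝ)) + N0 * (C2 * K2) * J / (e * L)) ≤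
            1 / L * (ε / 2 + ε / 2) := by gcongr
        refine this.trans (le_of_eq ?_)
        ring

end Pool.Agent.N967
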