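import Mathlib
import Pool.Agent.N967.Stm3
import Pool.Agent.N967.Cs

set_option autoImplicit false

/-!
# Baez-Duarte's distance, the asymptotic formula: the profiles of `HH` from the parts
-/

namespace Pool.Agent.N967

open Complex MeasureTheory Filter Topology
open Pool.Agent.Y23 (IsZ mu Lg)

namespace Prof3

lemma den1 (x y : ℝ) : 1 ≤ ‖(1 + ((x - y : ℝ) : ℂ) * I : ℂ)‖ := by
  have := Complex.abs_re_le_norm (1 + ((x - y : ℝ) : ℂ) * I : ℂ)
  simpa using this

lemma den1_ne (x y : ℝ) : (1 + ((x - y : ℝ) : ℂ) * I : ℂ) ≠ 0 := by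
  intro h
  have := den1 x y
  rw [h, norm_zero] at this
  linarith

/-- the profile is continuous -/
theorem GG_cont {κ : ℂ → ℂ} (hκ : Ker κ) (m : ℕ) : Continuous (GG κ m) := by
  rw [continuous_iff_continuousAt]
  intro x0
  unfold GG
  refine continuousAt_of_dominated (bound := fun y => ‖KK κ y‖ * (1 + (|x0| + 1) ^ m)) ?_ ?_ ?_ ?_
  · refine Eventually.of_forall fun x => ?_
    refine Continuous.aestronglyMeasurable ?_
    refine (Cs.KK_cont hκ).mul (continuous_const.sub (Continuous.pow ?_ m))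
    refine Continuous.div (by fun_prop) (by fun_prop) (fun y => den1_ne x y)
  · have hb : ∀ᶠ x in 𝓝 x0, |x| ≤ |x0| + 1 := by
      have : ∀ᶠ x in 𝓝 x0, |x - x0| < 1 := by
        have := Metric.ball_mem_nhds x0 (show (0:ℝ) < 1 by norm_num)
        filter_upwards [this] with x hx
        rwa [Metric.mem_ball, Real.dist_eq] at hx
      filter_upwards [this] with x hx
      have h2 : |x| ≤ |x - x0| + |x0| := by
        calc |x| = |(x - x0) + x0| := by ring_nf
          _ ≤ _ := abs_add_le _ _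
      linarith
    filter_upwards [hb] with x hx
    refine Eventually.of_forall fun y => ?_
    rw [norm_mul]
    have h1 : ‖(1 : ℂ) - (x * I / (1 + ((x - y : ℝ) : ℂ) * I)) ^ m‖ ≤ 1 + (|x0| + 1) ^ m := by
      refine (norm_sub_le _ _).trans ?_
      rw [norm_one, norm_pow, norm_div, norm_mul, Complex.norm_I, mul_one, Complex.norm_real, Real.norm_eq_abs]
      have h3 : |x| / ‖(1 + ((x - y : ℝ) : ℂ) * I : ℂ)‖ ≤ |x0| + 1 :=
        (div_le_self (abs_nonneg _) (den1 x y)).trans hx
      have h4 : 0 ≤ |x| / ‖(1 + ((x - y : ℝ) : ℂ) * I : ℂ)‖ := by positivity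
      gcongr
    gcongr
  · exact (Cs.KK_int hκ).norm.mul_const _
  · refine Eventually.of_forall fun y => ?_
    have : Continuous fun x : ℝ => KK κ y * (1 - (x * I / (1 + ((x - y : ℝ) : ℂ) * I)) ^ m) := by
      refine continuous_const.mul (continuous_const.sub (Continuous.pow ?_ m))
      exact Continuous.div (by fun_prop) (by fun_prop) (fun x => den1_ne x y)
    exact this.continuousAt

lemma DP_cont (N : ℕ) (a : ℕ → ℂ) : Continuous fun t : ℝ => DP N a (1 / 2 + t * I) := by
  unfold DP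
  refine continuous_finsetSum _ fun n hn => ?_
  rw [Finset.mem_Icc] at hn
  have hn0 : (n : ℂ) ≠ 0 := by
    have : n ≠ 0 := by omega
    exact_mod_cast this
  exact continuous_const.mul (Continuous.const_cpow (by fun_prop) (Or.inl hn0))

/-- the error is continuous -/
theorem HH_cont (h1 : S_app3) (hRH : RiemannHypothesis) {κ : ℂ → ℂ} (hκ : Ker κ) {L : ℝ} (hL : 4 ≤ L) :
    Continuous (HH κ L) := by
  obtain ⟨a, ha⟩ := h1 hRH κ hκ L hL ⌈Real.exp L⌉₊ (by
    rw [Real.le_log_iff_exp_le (by positivity)]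
    have := Nat.le_ceil (Real.exp L)
    linarith)
  have e : HH κ L = fun t : ℝ => 1 - riemannZeta (1 / 2 + t * I) * DP ⌈Real.exp L⌉₊ a (1 / 2 + t * I) := by
    funext t
    rw [ha t]
  rw [e]
  exact continuous_const.sub (U3.zeta_cont.mul (DP_cont _ _))

end Prof3

theorem prof3 (h1 : S_app3) (h2 : S_prT) (h3 : S_prO) (h4 : S_prL) : S_prof := by
  intro hRH κ hκ
  exact ⟨fun L hL => Prof3.HH_cont h1 hRH hκ hL, fun ρ => Prof3.GG_cont hκ _, h2 hRH κ hκ, h3 hRH κ hκ, h4 hRH κ hκ⟩

end Pool.Agent.N967
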