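import Mathlib
import Pool.Agent.N967.Stm3
import Pool.Agent.N967.Blk

set_option autoImplicit false

/-!
# The pointwise bound for `1 - F`
-/

namespace Pool.Agent.N967

open Complex MeasureTheory
open Pool.Agent.H295R2 (fz)
open Pool.Agent.Y23 (IsZ mu Lg)

theorem pw (h : S_pt) (_hm : S_mono) : S_pw := by
  intro RH η θ C T0 hη hη1 hθ hθ1 hC hT0 hS
  obtain ⟨e', K', he', he4, hK', near, -⟩ := h RH η θ C T0 hη hη1 hθ hθ1 hC hT0 hS
  obtain ⟨C', hC', hcnt⟩ := BK.cnt_all hθ hθ1 hC hT0 hS hη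
  obtain ⟨K2, hK2, hpt⟩ := BK.pointwise he' he4 hK' hη hη1 hC' near hcnt
  obtain ⟨C2, hC2, hset⟩ := BK.near_set
  refine ⟨e' / 16, K2, by positivity, by linarith, hK2, ?_⟩
  intro b v M t m hb hbe hve hm1 hm2 hM Z hZ
  obtain ⟨Z', hZ', -⟩ := hset m
  refine (hpt b v M t m Z' hZ' hb hbe hve hm1 hm2 hM).trans ?_
  have hsub : Z' ⊆ Z := by
    intro s hs
    have h1 := (hZ' s).1 hs
    exact hZ s h1.1 (h1.2.trans (by norm_num))
  have h2 : ∑ s ∈ Z', (b + |v|) ^ 2 / ((b + |v|) ^ 2 + (t - s.im) ^ 2) ≤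
      ∑ s ∈ Z, (b + |v|) ^ 2 / ((b + |v|) ^ 2 + (t - s.im) ^ 2) :=
    Finset.sum_le_sum_of_subset_of_nonneg hsub fun s _ _ => by positivity
  refine mul_le_mul_of_nonneg_left (by linarith) (by positivity)

end Pool.Agent.N967
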