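import Mathlib
import Pool.Agent.N967.Stm3

set_option autoImplicit false

/-!
# Baez-Duarte's distance: the upper bound with the right constant (helper478)
-/

namespace Pool.Agent.N967

open Complex MeasureTheory Filter Topology
open Pool.Agent.Y23 (IsZ mu mu_pos)
open scoped ENNReal

namespace Up4

lemma err_nn (N : ℕ) (a : ℕ → ℂ) : 0 ≤ err N a := by
  unfold err
  refine mul_nonneg (by positivity) (integral_nonneg fun t => ?_)
  unfold ig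
  positivity

lemma bdd (N : ℕ) : BddBelow (Set.range (fun a : ℕ → ℂ => err N a)) :=
  ⟨0, by rintro _ ⟨a, rfl⟩; exact err_nn N a⟩

lemma dd_nn (N : ℕ) : 0 ≤ dd N := le_ciInf fun a => err_nn N a

lemma re_half (h : RiemannHypothesis) {s : ℂ} (hs : IsZ s) : s.re = 1 / 2 := by
  refine h s hs.1 ?_ ?_
  · rintro ⟨n, hn⟩
    have h1 := hs.2.1
    rw [hn] at h1
    have h2 : ((-2 * ((n : ℂ) + 1)) : ℂ).re = -2 * ((n : ℝ) + 1) := by simp
    rw [h2] at h1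
    have h3 : (0 : ℝ) ≤ n := by positivity
    linarith
  · intro h1
    have h2 := hs.2.2
    rw [h1] at h2
    simp at h2

/-- dominated convergence for sums in `ℝ≥0∞` -/
lemma tsum_lim {β : Type*} (f : ℕ → β → ℝ≥0∞) (g b : β → ℝ≥0∞) (hb : ∑' k, b k ≠ ⊤)
    (hle : ∀ n k, f n k ≤ b k) (hlim : ∀ k, Tendsto (fun n => f n k) atTop (𝓝 (g k))) :
    Tendsto (fun n => ∑' k, f n k) atTop (𝓝 (∑' k, g k)) := by
  let _ : MeasurableSpace β := ⊤
  have h := tendsto_lintegral_of_dominated_convergence (μ := Measure.count) (F := f) (f := g) b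
    (fun n => measurable_from_top) (fun n => ae_of_all _ (hle n)) (by rw [lintegral_count]; exact hb)
    (ae_of_all _ hlim)
  simpa only [lintegral_count] using h

/-- a function on the critical line given by a Dirichlet polynomial -/
def IsDP (N : ℕ) (F : ℝ → ℂ) : Prop := ∃ c : ℕ → ℂ, ∀ t : ℝ, F t = DP N c (1 / 2 + t * I)

lemma IsDP.add {N : ℕ} {F G : ℝ → ℂ} (hF : IsDP N F) (hG : IsDP N G) : IsDP N (fun t => F t + G t) := by
  obtain ⟨c, hc⟩ := hF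
  obtain ⟨d, hd⟩ := hG
  refine ⟨fun n => c n + d n, fun t => ?_⟩
  simp only [hc t, hd t, DP, add_mul, Finset.sum_add_distrib]

lemma IsDP.sub {N : ℕ} {F G : ℝ → ℂ} (hF : IsDP N F) (hG : IsDP N G) : IsDP N (fun t => F t - G t) := by
  obtain ⟨c, hc⟩ := hF
  obtain ⟨d, hd⟩ := hG
  refine ⟨fun n => c n - d n, fun t => ?_⟩
  simp only [hc t, hd t, DP, sub_mul, Finset.sum_sub_distrib]

lemma IsDP.zero (N : ℕ) : IsDP N (fun _ => 0) := ⟨fun _ => 0, fun t => by simp [DP]⟩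

lemma IsDP.sum {N : ℕ} {ι : Type*} (S : Finset ι) (F : ι → ℝ → ℂ) (hF : ∀ i, IsDP N (F i)) :
    IsDP N (fun t => ∑ i ∈ S, F i t) := by
  classical
  induction S using Finset.induction_on with
  | empty => simpa using IsDP.zero N
  | insert a s ha ih =>
    simp only [Finset.sum_insert ha]
    exact (hF a).add ih

lemma IsDP.mul (h : S_mulDP) {M N : ℕ} {F G : ℝ → ℂ} (hF : IsDP M F) (hG : IsDP N G) :
    IsDP (M * N) (fun t => F t * G t) := by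
  obtain ⟨c, hc⟩ := hF
  obtain ⟨d, hd⟩ := hG
  obtain ⟨e, he⟩ := h M N c d
  refine ⟨e, fun t => ?_⟩
  simp only
  rw [hc t, hd t, he]

lemma IsDP.mono {M N : ℕ} (h : M ≤ N) {F : ℝ → ℂ} (hF : IsDP M F) : IsDP N F := by
  obtain ⟨a, ha⟩ := hF
  refine ⟨fun n => if n ≤ M then a n else 0, fun t => ?_⟩
  rw [ha t]
  unfold DP
  rw [← Finset.sum_subset (s₁ := Finset.Icc 1 M) (s₂ := Finset.Icc 1 N)]
  · refine Finset.sum_congr rfl fun n hn => ?_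
    simp only [if_pos (Finset.mem_Icc.mp hn).2]
  · exact Finset.Icc_subset_Icc_right h
  · intro n _ h2
    by_cases h3 : n ≤ M
    · exact absurd (Finset.mem_Icc.mpr ⟨(Finset.mem_Icc.mp ‹n ∈ Finset.Icc 1 N›).1, h3⟩) h2
    · simp only [if_neg h3, zero_mul]

/-- summability from the lower and the upper bound -/
lemma summ (h5 : S_low3) (h6 : S_upper2) (hRH : RiemannHypothesis) :
    Summable (fun ρ : ZZ => (mu ρ : ℝ) ^ 2 / ‖(ρ : ℂ)‖ ^ 2) := by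
  classical
  obtain ⟨C, hC, hup⟩ := h6 hRH
  refine summable_of_sum_le (c := C + 1) (fun ρ => by positivity) fun S => ?_
  have hS : ∀ s ∈ S.image (fun ρ : ZZ => (ρ : ℂ)), IsZ s := by
    intro s hs
    obtain ⟨ρ, _, rfl⟩ := Finset.mem_image.mp hs
    exact ρ.2
  obtain ⟨N0, hN0, h⟩ := h5 hRH (S.image (fun ρ : ZZ => (ρ : ℂ))) hS 1 one_pos
  have hl : 0 < Real.log N0 := Real.log_pos (by exact_mod_cast (by omega : 1 < N0))
  rw [Finset.sum_image (fun a _ b _ hab => Subtype.ext hab)] at h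
  set A := ∑ ρ ∈ S, (mu (ρ : ℂ) : ℝ) ^ 2 / ‖(ρ : ℂ)‖ ^ 2 with hA
  have h1 : (A - 1) / Real.log N0 ≤ dd N0 := by
    refine le_ciInf fun a => ?_
    rw [div_le_iff₀ hl]
    exact h N0 le_rfl a
  have h2 : (A - 1) / Real.log N0 ≤ C / Real.log N0 := h1.trans (hup N0 hN0)
  have h3 := (div_le_div_iff_of_pos_right hl).mp h2
  linarith

/-- the square of the combination -/
lemma comb_sq {ι : Type*} (S : Finset ι) (a : ℂ) (b c : ι → ℂ) (hc : ∀ i ∈ S, ‖c i‖ ≤ 1) :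
    ‖a + ∑ i ∈ S, c i * (b i - a)‖ ^ 2 ≤ 2 * (1 + (S.card : ℝ)) ^ 2 * (‖a‖ ^ 2 + ∑ i ∈ S, ‖b i‖ ^ 2) := by
  have h1 : ‖a + ∑ i ∈ S, c i * (b i - a)‖ ≤ (1 + (S.card : ℝ)) * ‖a‖ + ∑ i ∈ S, ‖b i‖ := by
    calc ‖a + ∑ i ∈ S, c i * (b i - a)‖ ≤ ‖a‖ + ‖∑ i ∈ S, c i * (b i - a)‖ := norm_add_le _ _
      _ ≤ ‖a‖ + ∑ i ∈ S, (‖b i‖ + ‖a‖) := by
          gcongr
          refine (norm_sum_le _ _).trans (Finset.sum_le_sum fun i hi => ?_)
          rw [norm_mul]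
          calc ‖c i‖ * ‖b i - a‖ ≤ 1 * (‖b i‖ + ‖a‖) :=
                mul_le_mul (hc i hi) (norm_sub_le _ _) (norm_nonneg _) zero_le_one
            _ = _ := one_mul _
      _ = _ := by rw [Finset.sum_add_distrib, Finset.sum_const, nsmul_eq_mul]; ring
  have h2 : (∑ i ∈ S, ‖b i‖) ^ 2 ≤ (S.card : ℝ) * ∑ i ∈ S, ‖b i‖ ^ 2 := sq_sum_le_card_mul_sum_sq
  have h3 : 0 ≤ ∑ i ∈ S, ‖b i‖ ^ 2 := Finset.sum_nonneg fun _ _ => by positivity
  have h4 : (0 : ℝ) ≤ S.card := by positivity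
  have h5 : 0 ≤ ∑ i ∈ S, ‖b i‖ := Finset.sum_nonneg fun _ _ => norm_nonneg _
  calc ‖a + ∑ i ∈ S, c i * (b i - a)‖ ^ 2 ≤ ((1 + (S.card : ℝ)) * ‖a‖ + ∑ i ∈ S, ‖b i‖) ^ 2 :=
        pow_le_pow_left₀ (norm_nonneg _) h1 2
    _ ≤ 2 * ((1 + (S.card : ℝ)) * ‖a‖) ^ 2 + 2 * (∑ i ∈ S, ‖b i‖) ^ 2 := by
        nlinarith [sq_nonneg ((1 + (S.card : ℝ)) * ‖a‖ - ∑ i ∈ S, ‖b i‖)]
    _ ≤ 2 * ((1 + (S.card : ℝ)) * ‖a‖) ^ 2 + 2 * ((S.card : ℝ) * ∑ i ∈ S, ‖b i‖ ^ 2) := by gcongr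
    _ ≤ 2 * ((1 + (S.card : ℝ)) * ‖a‖) ^ 2 + 2 * ((1 + (S.card : ℝ)) ^ 2 * ∑ i ∈ S, ‖b i‖ ^ 2) := by
        gcongr
        nlinarith
    _ = _ := by ring

/-- the family with almost optimal profiles -/
lemma key (hRH : RiemannHypothesis) (h2 : S_prof) (h3 : S_lim) (h4 : S_opt) (h7 : S_ee) (h9 : S_combo)
    (hsum : Summable (fun ρ : ZZ => (mu ρ : ℝ) ^ 2 / ‖(ρ : ℂ)‖ ^ 2)) {ε : ℝ} (hε : 0 < ε) :
    ∃ (S : Finset ZZ) (κ0 : ℂ → ℂ) (κ : ZZ → ℂ → ℂ) (M : ℕ) (G : ZZ → ℝ → ℂ), Ker κ0 ∧ (∀ i, Ker (κ i)) ∧ 1 ≤ M ∧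
      Prof (fun L t => HH κ0 L t + ∑ i ∈ S, EE (i : ℂ).im M t * (HH (κ i) L t - HH κ0 L t)) G ∧
      (∑' ρ : ZZ, ENNReal.ofReal (1 / ‖(ρ : ℂ)‖ ^ 2) * ∫⁻ x : ℝ, ENNReal.ofReal (‖G ρ x‖ ^ 2)) ≤
        ENNReal.ofReal (2 * Real.pi * (∑' ρ : ZZ, (mu ρ : ℝ) ^ 2 / ‖(ρ : ℂ)‖ ^ 2) + ε) := by
  classical
  set B := ∑' ρ : ZZ, (mu ρ : ℝ) ^ 2 / ‖(ρ : ℂ)‖ ^ 2 with hB
  have hB0 : 0 ≤ B := tsum_nonneg fun ρ => by positivity
  have hpi := Real.pi_pos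
  set ε1 := ε / (2 * (2 * Real.pi * B + 1)) with hε1
  have hε1' : 0 < ε1 := by positivity
  have hmu : ∀ ρ : ZZ, 1 ≤ mu (ρ : ℂ) := fun ρ => mu_pos ρ.2
  have hρ0 : ∀ ρ : ZZ, 0 < ‖(ρ : ℂ)‖ := by
    intro ρ
    rw [norm_pos_iff]
    intro h
    have := ρ.2.2.1
    rw [h] at this
    simp at this
  obtain ⟨κ0, hκ0, -⟩ := h4 1 le_rfl 1 one_pos
  choose κ hκ hκo using fun ρ : ZZ => h4 (mu (ρ : ℂ)) (hmu ρ) ε1 hε1'
  have hP0 := h2 hRH κ0 hκ0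
  have hP : ∀ i, Prof (HH (κ i)) (fun ρ => GG (κ i) (mu (ρ : ℂ))) := fun i => h2 hRH (κ i) (hκ i)
  set W : ZZ → ℝ≥0∞ := fun ρ => ENNReal.ofReal (1 / ‖(ρ : ℂ)‖ ^ 2) with hW
  have hW0 : ∀ ρ, W ρ ≠ 0 := fun ρ => by
    have := hρ0 ρ
    simp only [hW, ne_eq, ENNReal.ofReal_eq_zero, not_le]
    positivity
  have hWt : ∀ ρ, W ρ ≠ ⊤ := fun ρ => ENNReal.ofReal_ne_top
  set q : (ℂ → ℂ) → ZZ → ℝ≥0∞ := fun k ρ => W ρ * ∫⁻ x : ℝ, ENNReal.ofReal (‖GG k (mu (ρ : ℂ)) x‖ ^ 2) with hq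
  have hq0 : ∑' ρ, q κ0 ρ ≠ ⊤ := (h3 hRH _ _ hP0).1
  have hqi : ∀ i, ∑' ρ, q (κ i) ρ ≠ ⊤ := fun i => (h3 hRH _ _ (hP i)).1
  -- choice of the finite set
  obtain ⟨S, hS⟩ : ∃ S : Finset ZZ, ∑' b : {x // x ∉ S}, q κ0 b ≤ ENNReal.ofReal ε1 := by
    have h := ENNReal.tendsto_tsum_compl_atTop_zero hq0
    have h' := h.eventually_le_const (show (0 : ℝ≥0∞) < ENNReal.ofReal ε1 by simpa using hε1')
    exact h'.exists
  set K : ℝ := 2 * (1 + (S.card : ℝ)) ^ 2 with hK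
  have hK0 : 0 ≤ K := by positivity
  set GM : ℕ → ZZ → ℝ → ℂ := fun n ρ x => GG κ0 (mu (ρ : ℂ)) x +
    ∑ i ∈ S, EE (i : ℂ).im (n + 1) (ρ : ℂ).im * (GG (κ i) (mu (ρ : ℂ)) x - GG κ0 (mu (ρ : ℂ)) x) with hGM
  set GI : ZZ → ℝ → ℂ := fun ρ x => if ρ ∈ S then GG (κ ρ) (mu (ρ : ℂ)) x else GG κ0 (mu (ρ : ℂ)) x with hGI
  have hprof : ∀ n : ℕ, Prof (fun L t => HH κ0 L t +
      ∑ i ∈ S, EE (i : ℂ).im (n + 1) t * (HH (κ i) L t - HH κ0 L t)) (GM n) := by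
    intro n
    exact h9 S (HH κ0) (fun ρ => GG κ0 (mu (ρ : ℂ))) (fun i => HH (κ i)) (fun i ρ => GG (κ i) (mu (ρ : ℂ)))
      (fun i => EE (i : ℂ).im (n + 1)) hP0 (fun i _ => hP i)
      (fun i _ => ⟨(h7.1 (i : ℂ).im (n + 1) (by omega)).2.2.1, (h7.1 (i : ℂ).im (n + 1) (by omega)).1⟩)
  -- the pointwise limit
  have hlimG : ∀ (ρ : ZZ) (x : ℝ), Tendsto (fun n => GM n ρ x) atTop (𝓝 (GI ρ x)) := by
    intro ρ x
    have h : Tendsto (fun n => GM n ρ x) atTop (𝓝 (GG κ0 (mu (ρ : ℂ)) x +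
        ∑ i ∈ S, (if ρ = i then 1 else 0) * (GG (κ i) (mu (ρ : ℂ)) x - GG κ0 (mu (ρ : ℂ)) x))) := by
      refine tendsto_const_nhds.add (tendsto_finsetSum _ fun i _ => ?_)
      refine Tendsto.mul_const _ ?_
      by_cases hi : ρ = i
      · rw [if_pos hi, ← hi]
        refine tendsto_const_nhds.congr fun n => ?_
        exact ((h7.1 (ρ : ℂ).im (n + 1) (by omega)).2.1).symm
      · rw [if_neg hi]
        have hne : (ρ : ℂ).im ≠ (i : ℂ).im := by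
          intro h
          apply hi
          apply Subtype.ext
          apply Complex.ext
          · rw [re_half hRH ρ.2, re_half hRH i.2]
          · exact h
        exact (h7.2 (i : ℂ).im (ρ : ℂ).im hne).comp (tendsto_add_atTop_nat 1)
    convert h using 2
    rw [hGI]
    simp only [ite_mul, one_mul, zero_mul, Finset.sum_ite_eq]
    split_ifs
    · ring
    · ring
  -- the bound
  set bd : ZZ → ℝ → ℝ≥0∞ := fun ρ x => ENNReal.ofReal (K * (‖GG κ0 (mu (ρ : ℂ)) x‖ ^ 2 +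
    ∑ i ∈ S, ‖GG (κ i) (mu (ρ : ℂ)) x‖ ^ 2)) with hbd
  have hbound : ∀ n ρ x, ENNReal.ofReal (‖GM n ρ x‖ ^ 2) ≤ bd ρ x := by
    intro n ρ x
    exact ENNReal.ofReal_le_ofReal (comb_sq S _ _ _ fun i _ => (h7.1 (i : ℂ).im (n + 1) (by omega)).1 _)
  have hmeas : ∀ (k : ℂ → ℂ), Ker k → ∀ ρ : ZZ,
      Measurable (fun x => ENNReal.ofReal (‖GG k (mu (ρ : ℂ)) x‖ ^ 2)) := by
    intro k hk ρ
    exact (((h2 hRH k hk).contG ρ).norm.pow 2).measurable.ennreal_ofReal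
  have hbdint : ∀ ρ, ∫⁻ x : ℝ, bd ρ x = ENNReal.ofReal K *
      ((∫⁻ x : ℝ, ENNReal.ofReal (‖GG κ0 (mu (ρ : ℂ)) x‖ ^ 2)) +
        ∑ i ∈ S, ∫⁻ x : ℝ, ENNReal.ofReal (‖GG (κ i) (mu (ρ : ℂ)) x‖ ^ 2)) := by
    intro ρ
    have e : ∀ x, bd ρ x = ENNReal.ofReal K * (ENNReal.ofReal (‖GG κ0 (mu (ρ : ℂ)) x‖ ^ 2) +
        ∑ i ∈ S, ENNReal.ofReal (‖GG (κ i) (mu (ρ : ℂ)) x‖ ^ 2)) := by
      intro x
      rw [hbd]
      simp only
      rw [ENNReal.ofReal_mul hK0, ENNReal.ofReal_add (by positivity)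
        (Finset.sum_nonneg fun _ _ => by positivity), ENNReal.ofReal_sum_of_nonneg fun _ _ => by positivity]
    simp only [e]
    rw [lintegral_const_mul' _ _ ENNReal.ofReal_ne_top, lintegral_add_left (hmeas κ0 hκ0 ρ),
      lintegral_finsetSum _ fun i _ => hmeas (κ i) (hκ i) ρ]
  have hbdsum : ∑' ρ, W ρ * ∫⁻ x : ℝ, bd ρ x ≠ ⊤ := by
    have e : ∀ ρ, W ρ * ∫⁻ x : ℝ, bd ρ x = ENNReal.ofReal K * (q κ0 ρ + ∑ i ∈ S, q (κ i) ρ) := by
      intro ρ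
      rw [hbdint ρ]
      simp only [hq, mul_add, Finset.mul_sum]
      congr 1
      · ring
      · exact Finset.sum_congr rfl fun i _ => by ring
    simp only [e]
    rw [ENNReal.tsum_mul_left, ENNReal.tsum_add]
    refine ENNReal.mul_ne_top ENNReal.ofReal_ne_top (ENNReal.add_ne_top.mpr ⟨hq0, ?_⟩)
    rw [Summable.tsum_finsetSum fun i _ => ENNReal.summable]
    exact ENNReal.sum_ne_top.mpr fun i _ => hqi i
  have hbdfin : ∀ ρ, ∫⁻ x : ℝ, bd ρ x ≠ ⊤ := by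
    intro ρ h
    apply hbdsum
    have h1 : W ρ * ∫⁻ x : ℝ, bd ρ x = ⊤ := by
      rw [h]; exact ENNReal.mul_top (hW0 ρ)
    exact ENNReal.tsum_eq_top_of_eq_top ⟨ρ, h1⟩
  have hinner : ∀ ρ, Tendsto (fun n => ∫⁻ x : ℝ, ENNReal.ofReal (‖GM n ρ x‖ ^ 2)) atTop
      (𝓝 (∫⁻ x : ℝ, ENNReal.ofReal (‖GI ρ x‖ ^ 2))) := by
    intro ρ
    refine tendsto_lintegral_of_dominated_convergence (bd ρ) (fun n => ?_) (fun n => ae_of_all _ (hbound n ρ))
      (hbdfin ρ) (ae_of_all _ fun x => ?_)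
    · exact (((hprof n).contG ρ).norm.pow 2).measurable.ennreal_ofReal
    · exact (ENNReal.continuous_ofReal.tendsto _).comp ((hlimG ρ x).norm.pow 2)
  have hlim := tsum_lim (fun n ρ => W ρ * ∫⁻ x : ℝ, ENNReal.ofReal (‖GM n ρ x‖ ^ 2))
    (fun ρ => W ρ * ∫⁻ x : ℝ, ENNReal.ofReal (‖GI ρ x‖ ^ 2)) (fun ρ => W ρ * ∫⁻ x : ℝ, bd ρ x) hbdsum
    (fun n ρ => by gcongr with x; exact hbound n ρ x)
    (fun ρ => ENNReal.Tendsto.const_mul (hinner ρ) (Or.inr (hWt ρ)))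
  -- the value of the limit
  have hval : ∑' ρ, W ρ * ∫⁻ x : ℝ, ENNReal.ofReal (‖GI ρ x‖ ^ 2) < ENNReal.ofReal (2 * Real.pi * B + ε) := by
    have e1 : ∀ ρ, W ρ * ∫⁻ x : ℝ, ENNReal.ofReal (‖GI ρ x‖ ^ 2) ≤
        (if ρ ∈ S then ENNReal.ofReal (2 * Real.pi * (1 + ε1) * ((mu (ρ : ℂ) : ℝ) ^ 2 / ‖(ρ : ℂ)‖ ^ 2)) else 0) +
          ({x | x ∉ S} : Set ZZ).indicator (q κ0) ρ := by
      intro ρ
      by_cases hρ : ρ ∈ S
      · rw [if_pos hρ, Set.indicator_of_notMem (by simpa using hρ), add_zero]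
        have e2 : ∀ x, GI ρ x = GG (κ ρ) (mu (ρ : ℂ)) x := fun x => by rw [hGI]; simp [hρ]
        simp only [e2]
        refine (mul_le_mul_right (hκo ρ) (W ρ)).trans ?_
        rw [hW]
        simp only
        rw [← ENNReal.ofReal_mul (by positivity)]
        refine ENNReal.ofReal_le_ofReal ?_
        have hm : (1 : ℝ) ≤ (mu (ρ : ℂ) : ℝ) := by exact_mod_cast hmu ρ
        have hm2 : (1 : ℝ) ≤ (mu (ρ : ℂ) : ℝ) ^ 2 := one_le_pow₀ hm
        have hn := hρ0 ρ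
        have e3 : (mu (ρ : ℂ) : ℝ) ^ 2 + ε1 ≤ (1 + ε1) * (mu (ρ : ℂ) : ℝ) ^ 2 := by nlinarith
        calc 1 / ‖(ρ : ℂ)‖ ^ 2 * (2 * Real.pi * ((mu (ρ : ℂ) : ℝ) ^ 2 + ε1)) ≤
            1 / ‖(ρ : ℂ)‖ ^ 2 * (2 * Real.pi * ((1 + ε1) * (mu (ρ : ℂ) : ℝ) ^ 2)) := by gcongr
          _ = _ := by ring
      · rw [if_neg hρ, zero_add, Set.indicator_of_mem (by simpa using hρ)]
        have e2 : ∀ x, GI ρ x = GG κ0 (mu (ρ : ℂ)) x := fun x => by rw [hGI]; simp [hρ]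
        simp only [e2]
        exact le_rfl
    have e2 : ∑' ρ, W ρ * ∫⁻ x : ℝ, ENNReal.ofReal (‖GI ρ x‖ ^ 2) ≤
        ENNReal.ofReal (2 * Real.pi * (1 + ε1) * B) + ENNReal.ofReal ε1 := by
      refine (ENNReal.tsum_le_tsum e1).trans ?_
      rw [ENNReal.tsum_add]
      refine add_le_add ?_ ?_
      · rw [tsum_eq_sum (s := S) (fun b hb => if_neg hb), Finset.sum_ite_mem, Finset.inter_self,
          ← ENNReal.ofReal_sum_of_nonneg fun ρ _ => by positivity]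
        refine ENNReal.ofReal_le_ofReal ?_
        rw [← Finset.mul_sum]
        refine mul_le_mul_of_nonneg_left ?_ (by positivity)
        exact hsum.sum_le_tsum S fun ρ _ => by positivity
      · rw [← tsum_subtype]
        exact hS
    refine lt_of_le_of_lt e2 ?_
    rw [← ENNReal.ofReal_add (by positivity) hε1'.le]
    refine (ENNReal.ofReal_lt_ofReal_iff (by positivity)).mpr ?_
    have e4 : ε1 * (2 * Real.pi * B + 1) = ε / 2 := by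
      rw [hε1]
      field_simp
    nlinarith
  obtain ⟨n, hn⟩ := (hlim.eventually_lt_const hval).exists
  exact ⟨S, κ0, κ, n + 1, GM n, hκ0, hκ, by omega, hprof n, hn.le⟩

end Up4

open Up4 in
/-- the upper bound with the right constant -/
theorem up4 (h1 : S_app3) (h2 : S_prof) (h3 : S_lim) (h4 : S_opt) (h5 : S_low3) (h6 : S_upper2) (h7 : S_ee)
    (h8 : S_mulDP) (h9 : S_combo) (h10 : S_int) : S_up4 := by
  intro hRH
  have hsum := summ h5 h6 hRH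
  refine ⟨hsum, fun ε hε => ?_⟩
  set B := ∑' ρ : ZZ, (mu ρ : ℝ) ^ 2 / ‖(ρ : ℂ)‖ ^ 2 with hB
  have hB0 : 0 ≤ B := tsum_nonneg fun ρ => by positivity
  have hpi := Real.pi_pos
  obtain ⟨S, κ0, κ, M, G, hκ0, hκ, hM, hprof, hG⟩ := key hRH h2 h3 h4 h7 h9 hsum
    (show 0 < 2 * Real.pi * (ε / 4) by positivity)
  obtain ⟨L0, hL0⟩ := (h3 hRH _ _ hprof).2 (2 * Real.pi * (ε / 4)) (by positivity)
  have hM0 : (0 : ℝ) < M := by exact_mod_cast hM
  have hlM : 0 ≤ Real.log M := Real.log_natCast_nonneg M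
  have hev : ∀ᶠ N : ℕ in atTop, max L0 4 + Real.log M + 2 * (B + ε) * Real.log M / ε ≤ Real.log N :=
    (Real.tendsto_log_atTop.comp tendsto_natCast_atTop_atTop).eventually_ge_atTop _
  obtain ⟨N1, hN1⟩ := eventually_atTop.mp hev
  refine ⟨max N1 2, le_max_right _ _, fun N hN => ?_⟩
  have hN2 : 2 ≤ N := (le_max_right _ _).trans hN
  have hlN := hN1 N ((le_max_left _ _).trans hN)
  have hN0 : (0 : ℝ) < N := by exact_mod_cast (by omega : 0 < N)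
  have hx0 : 0 ≤ 2 * (B + ε) * Real.log M / ε := by positivity
  set N' := N / M with hN'
  set L := Real.log ((N' : ℝ) + 1) with hL
  have hLl : Real.log N - Real.log M ≤ L := by
    rw [← Real.log_div hN0.ne' hM0.ne', hL]
    refine Real.log_le_log (by positivity) ?_
    rw [div_le_iff₀ hM0]
    have : N < (N' + 1) * M := by
      rw [hN', mul_comm]
      exact Nat.lt_mul_div_succ N hM
    have : (N : ℝ) < (N' + 1) * M := by exact_mod_cast this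
    exact this.le
  have hL4 : 4 ≤ L := by
    have := le_max_right L0 4
    linarith
  have hL0' : L0 ≤ L := by
    have := le_max_left L0 4
    linarith
  have hLpos : 0 < L := by linarith
  obtain ⟨a0, ha0⟩ := h1 hRH κ0 hκ0 L hL4 N' le_rfl
  choose a ha using fun i : ZZ => h1 hRH (κ i) (hκ i) L hL4 N' le_rfl
  have hMN : M * N' ≤ N := Nat.mul_div_le N M
  have hN'N : N' ≤ N := Nat.div_le_self N M
  obtain ⟨c, hc⟩ : IsDP N (fun t => DP N' a0 (1 / 2 + t * I) + ∑ i ∈ S, EE (i : ℂ).im M t *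
      (DP N' (a i) (1 / 2 + t * I) - DP N' a0 (1 / 2 + t * I))) := by
    have e0 : IsDP N' (fun t => DP N' a0 (1 / 2 + t * I)) := ⟨a0, fun _ => rfl⟩
    have ei : ∀ i, IsDP N' (fun t => DP N' (a i) (1 / 2 + t * I)) := fun i => ⟨a i, fun _ => rfl⟩
    refine (e0.mono hN'N).add (IsDP.sum S _ fun i => ?_)
    exact ((IsDP.mul h8 ((h7.1 (i : ℂ).im M hM).2.2.2) ((ei i).sub e0)).mono hMN)
  have hf : ∀ t : ℝ, HH κ0 L t + ∑ i ∈ S, EE (i : ℂ).im M t * (HH (κ i) L t - HH κ0 L t) =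
      1 - riemannZeta (1 / 2 + t * I) * DP N c (1 / 2 + t * I) := by
    intro t
    rw [← hc t, ← ha0 t]
    simp only [← ha]
    rw [mul_add, Finset.mul_sum]
    have e : ∀ i ∈ S, EE (i : ℂ).im M t * (1 - riemannZeta (1 / 2 + t * I) * DP N' (a i) (1 / 2 + t * I) -
        (1 - riemannZeta (1 / 2 + t * I) * DP N' a0 (1 / 2 + t * I))) =
        -(riemannZeta (1 / 2 + t * I) * (EE (i : ℂ).im M t *
          (DP N' (a i) (1 / 2 + t * I) - DP N' a0 (1 / 2 + t * I)))) := fun i _ => by ring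
    rw [Finset.sum_congr rfl e, Finset.sum_neg_distrib]
    ring
  have hmain := hL0 L hL0'
  simp only [hf] at hmain
  have hig : ∫⁻ t : ℝ, ENNReal.ofReal
      (‖1 - riemannZeta (1 / 2 + t * I) * DP N c (1 / 2 + t * I)‖ ^ 2 / (1 / 4 + t ^ 2)) =
      ENNReal.ofReal (∫ t : ℝ, ig N c t) := by
    rw [ofReal_integral_eq_lintegral_ofReal (h10 N c) (ae_of_all _ fun t => by unfold ig; positivity)]
    rfl
  rw [hig, ← ENNReal.ofReal_mul hLpos.le] at hmain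
  have hmain2 : L * ∫ t : ℝ, ig N c t ≤ 2 * Real.pi * (B + ε / 2) := by
    have h := hmain.trans (add_le_add_left hG _)
    rw [← ENNReal.ofReal_add (by positivity) (by positivity)] at h
    have h' := (ENNReal.ofReal_le_ofReal_iff (by positivity)).mp h
    linarith
  have herr : L * err N c ≤ B + ε / 2 := by
    unfold err
    rw [show L * (1 / (2 * Real.pi) * ∫ t : ℝ, ig N c t) = (L * ∫ t : ℝ, ig N c t) / (2 * Real.pi) by ring,
      div_le_iff₀ (by positivity)]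
    linarith
  have hdd : L * dd N ≤ B + ε / 2 :=
    (mul_le_mul_of_nonneg_left (ciInf_le (bdd N) c) hLpos.le).trans herr
  have hd0 := dd_nn N
  have hlast : (B + ε / 2) * Real.log N ≤ (B + ε) * L := by
    have h : 2 * (B + ε) * Real.log M ≤ ε * Real.log N := by
      have h' : 2 * (B + ε) * Real.log M / ε ≤ Real.log N := by
        have := le_max_right L0 4
        linarith
      rw [div_le_iff₀ hε] at h'
      linarith
    have h' : (B + ε) * (Real.log N - Real.log M) ≤ (B + ε) * L := mul_le_mul_of_nonneg_left hLl (by positivity)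
    nlinarith
  have hfin : (dd N * Real.log N) * (B + ε / 2) ≤ (B + ε) * (B + ε / 2) := by
    calc (dd N * Real.log N) * (B + ε / 2) = dd N * ((B + ε / 2) * Real.log N) := by ring
      _ ≤ dd N * ((B + ε) * L) := mul_le_mul_of_nonneg_left hlast hd0
      _ = (B + ε) * (L * dd N) := by ring
      _ ≤ (B + ε) * (B + ε / 2) := mul_le_mul_of_nonneg_left hdd (by positivity)
  exact le_of_mul_le_mul_right hfin (by positivity)

end Pool.Agent.N967
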