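import Pool.Agent.N967.All2
import Pool.Agent.N967.Kern3
import Pool.Agent.N967.Pw
import Pool.Agent.N967.App3
import Pool.Agent.N967.Cs
import Pool.Agent.N967.PrT
import Pool.Agent.N967.PrO
import Pool.Agent.N967.PrL
import Pool.Agent.N967.Maj
import Pool.Agent.N967.DevT
import Pool.Agent.N967.Lim3
import Pool.Agent.N967.Loc3
import Pool.Agent.N967.Hpol
import Pool.Agent.N967.Gg
import Pool.Agent.N967.Opt
import Pool.Agent.N967.Grow
import Pool.Agent.N967.Jj
import Pool.Agent.N967.Up4
import Pool.Agent.N967.Prof3
import Pool.Agent.N967.Low3
import Pool.Agent.N967.Asym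

set_option autoImplicit false

/-!
# Baez-Duarte's distance: the asymptotic formula
-/

namespace Pool.Agent.N967

theorem app3_all : S_app3 := app3 shift

theorem devT_all : S_devT := devT cnt2_all pt_all blk_all

theorem prof_all : S_prof := prof3 app3_all (prT cs3 devT_all dev_all)
  (prO cs3 (pw pt_all mono) dev_all (cnt fejer)) (prL (maj pt_all (cnt fejer)))

theorem opt_all : S_opt := opt kern3 (gg shift) hpol_facts

theorem low3_all : S_low3 := low3 (jj (grow shift int_ig) int_ig shift) hpol_facts

theorem up4_all : S_up4 := up4 app3_all prof_all lim3 opt_all low3_all upper_sharp ee mulDP combo int_ig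

/-- the asymptotic formula for the distance under the Riemann hypothesis -/
theorem asym_all : S_asym := asym up4_all low3_all

end Pool.Agent.N967
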