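import Mathlib
import Pool.Agent.N967.Stm3
import Pool.Agent.N967.Upper

set_option autoImplicit false

/-!
# The asymptotic formula from the two bounds
-/

namespace Pool.Agent.N967

open Complex MeasureTheory Filter Topology
open Pool.Agent.Y23 (IsZ mu)

theorem asym (h1 : S_up4) (h2 : S_low3) : S_asym := by
  intro hRH
  obtain ⟨hs, hup⟩ := h1 hRH
  refine ⟨hs, ?_⟩
  set B : ℝ := ∑' ρ : ZZ, (mu ρ : ℝ) ^ 2 / ‖(ρ : ℂ)‖ ^ 2 with hB
  rw [Metric.tendsto_atTop]
  intro ε hε
  obtain ⟨N1, hN1, h3⟩ := hup (ε / 2) (by positivity)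
  -- the lower bound
  have h4 := hs.hasSum.eventually (lt_mem_nhds (show B - ε / 4 < B by linarith))
  obtain ⟨S, hS1⟩ := h4.exists
  obtain ⟨N2, hN2, h5⟩ := h2 hRH (S.map ⟨Subtype.val, Subtype.val_injective⟩) (by
    intro s hs'
    obtain ⟨ρ, -, rfl⟩ := Finset.mem_map.1 hs'
    exact ρ.2) (ε / 4) (by positivity)
  rw [Finset.sum_map] at h5
  refine ⟨max N1 N2, fun N hN => ?_⟩
  have hNN1 : N1 ≤ N := (le_max_left _ _).trans hN
  have hNN2 : N2 ≤ N := (le_max_right _ _).trans hN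
  have hlog : 0 < Real.log N := Real.log_pos (by exact_mod_cast (by omega : 1 < N))
  have h6 : (B - ε / 2) / Real.log N ≤ dd N := by
    refine le_ciInf fun a => ?_
    rw [div_le_iff₀ hlog]
    have := h5 N hNN2 a
    simp only [Function.Embedding.coeFn_mk] at this
    linarith
  rw [div_le_iff₀ hlog] at h6
  have h7 := h3 N hNN1
  rw [Real.dist_eq, abs_lt]
  constructor <;> linarith

end Pool.Agent.N967
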