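import Mathlib
import Pool.Agent.N967.Stm3
import Pool.Agent.H24R2.JP.Spec

set_option autoImplicit false

/-!
# Baez-Duarte's distance, the value of the constant: the statements of the parts
-/

namespace Pool.Agent.N967

open Complex MeasureTheory Filter Topology Metric
open Pool.Agent.Y23 (IsZ mu)
open Pool.Agent.H24R2.JP (XX FF)

/-- the zeros of `FF` in a disc divided out -/
def S_quo : Prop := ∃ K : ℝ, ∀ R : ℝ, 1 ≤ R → ∃ (P : Polynomial ℝ) (G : ℂ → ℂ), Differentiable ℂ G ∧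
  (∀ w : ℂ, FF w = Polynomial.aeval w P * G w) ∧ (∀ u ∈ closedBall (0 : ℂ) R, G u ≠ 0) ∧
  ‖deriv G (1 / 4) / G (1 / 4)‖ ≤ K * R ^ (-(1 / 4) : ℝ)

/-- the sum over the zeros of the zeta function -/
def S_lam : Prop := RiemannHypothesis → HasSum (fun ρ : ZZ => (mu ρ : ℝ) / ‖(ρ : ℂ)‖ ^ 2)
  (2 + Real.eulerMascheroniConstant - Real.log (4 * Real.pi))

end Pool.Agent.N967
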