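import Mathlib
import Pool.Agent.N967.Stm4
import Pool.Agent.Y23.Ze
import Pool.Agent.Y23.Te
import Pool.Agent.H24R2.JP.B1
import Pool.Agent.H24R2.JP.Zeros

set_option autoImplicit false

/-!
# The sum over the zeros of the zeta function, under the Riemann hypothesis
-/

namespace Pool.Agent.N967

open Complex MeasureTheory Filter Topology Metric
open Pool.Agent.Y23 (IsZ mu)
open Pool.Agent.H24R2.JP (XX FF)

namespace Lam

lemma FF_diff : Differentiable ℂ FF := Pool.Agent.H24R2.JP.b1.1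

lemma FF_sq (z : ℂ) : FF (z ^ 2) = XX z := Pool.Agent.H24R2.JP.B1h.FF_sq z

lemma comp_eq : FF ∘ (fun z : ℂ => z ^ 2) = XX := funext fun z => FF_sq z

/-- the order of `FF` at a point -/
noncomputable def ord (x : ℂ) : ℕ := analyticOrderNatAt FF x

lemma order_sq {z : ℂ} (hz : z ≠ 0) : analyticOrderAt XX z = analyticOrderAt FF (z ^ 2) := by
  rw [← comp_eq]
  refine analyticOrderAt_comp_of_deriv_ne_zero (g := fun z : ℂ => z ^ 2) (by fun_prop) ?_
  simp [hz]

lemma re_half (hRH : RiemannHypothesis) {s : ℂ} (h : IsZ s) : s.re = 1 / 2 := by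
  apply hRH s h.1
  · rintro ⟨n, hn⟩
    have h1 := h.2.1
    rw [hn] at h1
    simp at h1
    have : (0 : ℝ) ≤ n := Nat.cast_nonneg n
    linarith
  · intro h1
    have h2 := h.2.2
    rw [h1] at h2
    simp at h2

/-- the square of the centred zero -/
noncomputable def sq (ρ : ZZ) : ℂ := ((ρ : ℂ) - 1 / 2) ^ 2

lemma cen_ne (ρ : ZZ) : (ρ : ℂ) - 1 / 2 ≠ 0 := by
  intro h
  have h1 := (Pool.Agent.Y23.isZ_iff ρ).1 ρ.2
  rw [h] at h1
  exact Pool.Agent.Y23.XX_zero_ne h1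

lemma FF_sq_zero (ρ : ZZ) : FF (sq ρ) = 0 := by
  rw [sq, FF_sq]
  exact (Pool.Agent.Y23.isZ_iff ρ).1 ρ.2

lemma mu_ord (ρ : ZZ) : mu (ρ : ℂ) = ord (sq ρ) := by
  rw [Pool.Agent.Y23.mu_eq ρ.2.2.1 ρ.2.2.2, ord, sq]
  unfold analyticOrderNatAt
  rw [order_sq (cen_ne ρ)]

/-- every zero of `FF` is the square of a centred zero -/
lemma exists_root {x : ℂ} (hx : FF x = 0) : ∃ z : ℂ, z ^ 2 = x ∧ z ≠ 0 ∧ IsZ (1 / 2 + z) ∧ IsZ (1 / 2 - z) := by
  obtain ⟨z, hz⟩ := IsAlgClosed.exists_pow_nat_eq x (n := 2) (by norm_num)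
  have h0 : XX z = 0 := by rw [← FF_sq, hz, hx]
  refine ⟨z, hz, ?_, ?_, ?_⟩
  · rintro rfl
    exact Pool.Agent.Y23.XX_zero_ne h0
  · rw [Pool.Agent.Y23.isZ_iff, show (1 / 2 + z - 1 / 2 : ℂ) = z by ring, h0]
  · rw [Pool.Agent.Y23.isZ_iff, show (1 / 2 - z - 1 / 2 : ℂ) = -z by ring,
      Pool.Agent.H24R2.JP.B1h.XX_neg, h0]

/-- the fibre of `sq` over a zero of `FF` -/
lemma fiber {x : ℂ} (hx : FF x = 0) : ∃ a b : ZZ, a ≠ b ∧ sq a = x ∧ sq b = x ∧
    ∀ ρ : ZZ, sq ρ = x → ρ = a ∨ ρ = b := by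
  obtain ⟨z, hz, hz0, h1, h2⟩ := exists_root hx
  refine ⟨⟨1 / 2 + z, h1⟩, ⟨1 / 2 - z, h2⟩, ?_, ?_, ?_, ?_⟩
  · intro h
    have h3 := congrArg Subtype.val h
    simp only at h3
    apply hz0
    linear_combination h3 / 2
  · simp only [sq]
    rw [← hz]
    ring
  · simp only [sq]
    rw [← hz]
    ring
  · intro ρ h
    simp only [sq] at h
    rw [← hz] at h
    rcases sq_eq_sq_iff_eq_or_eq_neg.1 h with h3 | h3
    · left
      apply Subtype.ext
      simp only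
      linear_combination h3
    · right
      apply Subtype.ext
      simp only
      linear_combination h3

lemma one_sub (hRH : RiemannHypothesis) (ρ : ZZ) : 1 / 4 - sq ρ = ((‖(ρ : ℂ)‖ ^ 2 : ℝ) : ℂ) := by
  have h := re_half hRH ρ.2
  rw [← Complex.normSq_eq_norm_sq, sq]
  apply Complex.ext
  · simp only [Complex.normSq_apply, Complex.sub_re, Complex.ofReal_re, pow_two, Complex.mul_re,
      Complex.sub_im, h]
    norm_num
  · simp only [Complex.normSq_apply, Complex.sub_im, Complex.ofReal_im, pow_two, Complex.mul_im,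
      Complex.sub_re, h]
    norm_num

lemma one_sub_norm (hRH : RiemannHypothesis) (ρ : ZZ) : ‖1 / 4 - sq ρ‖ = ‖(ρ : ℂ)‖ ^ 2 := by
  rw [one_sub hRH, Complex.norm_real, Real.norm_of_nonneg (by positivity)]

lemma norm_pos (ρ : ZZ) : 0 < ‖(ρ : ℂ)‖ := by
  rw [norm_pos_iff]
  rintro h
  have h1 := ρ.2.2.1
  rw [h] at h1
  simp at h1

/-- the terms -/
noncomputable def tm (x : ℂ) : ℝ := (ord x : ℝ) / ‖1 / 4 - x‖

lemma tm_nonneg (x : ℂ) : 0 ≤ tm x := by unfold tm; positivity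

lemma term_eq (hRH : RiemannHypothesis) (ρ : ZZ) : (mu ρ : ℝ) / ‖(ρ : ℂ)‖ ^ 2 = tm (sq ρ) := by
  rw [tm, one_sub_norm hRH, mu_ord]

/-- zeros of `FF` give positive terms -/
lemma inv_eq (hRH : RiemannHypothesis) {x : ℂ} (hx : FF x = 0) :
    1 / (1 / 4 - x) = ((1 / ‖1 / 4 - x‖ : ℝ) : ℂ) := by
  obtain ⟨a, -, -, ha, -⟩ := fiber hx
  rw [← ha, one_sub_norm hRH, one_sub hRH]
  push_cast
  rfl

lemma fin_pre (X : Finset ℂ) (hX : ∀ x ∈ X, FF x = 0) : (sq ⁻¹' (X : Set ℂ)).Finite := by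
  refine Set.Finite.preimage' X.finite_toSet fun x hx => ?_
  obtain ⟨a, b, -, -, -, h⟩ := fiber (hX x hx)
  refine ((Set.finite_singleton a).union (Set.finite_singleton b)).subset fun ρ hρ => ?_
  rcases h ρ hρ with h | h
  · left; exact h
  · right; exact h

/-- the sum over the fibres -/
lemma sum_pre (X : Finset ℂ) (hX : ∀ x ∈ X, FF x = 0) :
    ∑ ρ ∈ (fin_pre X hX).toFinset, tm (sq ρ) = 2 * ∑ x ∈ X, tm x := by
  classical
  rw [← Finset.sum_fiberwise_of_maps_to (s := (fin_pre X hX).toFinset) (t := X) (g := sq)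
    (by intro ρ hρ; simpa using hρ), Finset.mul_sum]
  refine Finset.sum_congr rfl fun x hx => ?_
  obtain ⟨a, b, hab, ha, hb, h⟩ := fiber (hX x hx)
  have e : (fin_pre X hX).toFinset.filter (fun ρ => sq ρ = x) = {a, b} := by
    ext ρ
    simp only [Finset.mem_filter, Set.Finite.mem_toFinset, Set.mem_preimage, Finset.mem_coe,
      Finset.mem_insert, Finset.mem_singleton]
    constructor
    · rintro ⟨-, h1⟩
      exact h ρ h1
    · rintro (rfl | rfl)
      · rw [ha]; exact ⟨hx, rfl⟩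
      · rw [hb]; exact ⟨hx, rfl⟩
  rw [e, Finset.sum_pair hab, ha, hb]
  ring

/-- the order of a polynomial -/
lemma ord_poly (P : Polynomial ℂ) (hP : P ≠ 0) (x : ℂ) :
    analyticOrderAt (fun w => P.eval w) x = (P.rootMultiplicity x : ℕ∞) := by
  obtain ⟨Q, hQ, hQx⟩ := P.exists_eq_pow_rootMultiplicity_mul_and_not_dvd hP x
  have hA : AnalyticAt ℂ (fun w => P.eval w) x := by
    have : Differentiable ℂ (fun w => P.eval w) := P.differentiable
    exact this.analyticAt x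
  rw [hA.analyticOrderAt_eq_natCast]
  refine ⟨fun w => Q.eval w, Q.differentiable.analyticAt x, ?_, Filter.Eventually.of_forall fun w => ?_⟩
  · intro h
    exact hQx (Polynomial.dvd_iff_isRoot.2 h)
  · conv_lhs => rw [hQ]
    simp

lemma order_ne_top {x : ℂ} : analyticOrderAt FF x ≠ ⊤ := by
  by_cases hx : FF x = 0
  · obtain ⟨z, hz, hz0, -, -⟩ := exists_root hx
    rw [← hz, ← order_sq hz0]
    exact Pool.Agent.Y23.XX_ne_top z
  · rw [((FF_diff.analyticAt x).analyticOrderAt_eq_zero).2 hx]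
    simp

lemma FF_quarter : FF (1 / 4) = 4 := by
  have h := FF_sq (1 / 2)
  rw [Pool.Agent.H24R2.JP.Zer.XX_half, show ((1 / 2 : ℂ)) ^ 2 = 1 / 4 by norm_num] at h
  exact h

lemma FF_deriv : deriv FF (1 / 4) = 4 * completedRiemannZeta₀ 1 := by
  have h1 : HasDerivAt XX (4 * completedRiemannZeta₀ 1) (1 / 2) := by
    have h2 : HasDerivAt (fun z : ℂ => completedRiemannZeta₀ (1 / 2 + z))
        (deriv completedRiemannZeta₀ (1 / 2 + 1 / 2)) (1 / 2) := by
      have h3 := (differentiable_completedZeta₀ (1 / 2 + 1 / 2)).hasDerivAt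
      exact h3.comp_const_add (1 / 2) (1 / 2)
    have h4 : HasDerivAt (fun z : ℂ => 4 * z ^ 2 - 1) (4 * (2 * (1 / 2))) (1 / 2) := by
      have h5 := ((hasDerivAt_pow 2 (1 / 2 : ℂ)).const_mul 4).sub_const 1
      have e : (4 * (2 * (1 / 2)) : ℂ) = 4 * (((2 : ℕ) : ℂ) * (1 / 2) ^ (2 - 1)) := by norm_num
      rw [e]
      exact h5
    have h6 := (h4.mul h2).add_const 4
    have h7 : (4 * (2 * (1 / 2)) * completedRiemannZeta₀ (1 / 2 + 1 / 2) +
        (4 * (1 / 2) ^ 2 - 1) * deriv completedRiemannZeta₀ (1 / 2 + 1 / 2) : ℂ) =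
        4 * completedRiemannZeta₀ 1 := by
      rw [show (1 / 2 + 1 / 2 : ℂ) = 1 by norm_num]
      ring
    rw [← h7]
    exact h6
  have h2 : HasDerivAt (FF ∘ fun z : ℂ => z ^ 2) (deriv FF (1 / 4) * (2 * (1 / 2))) (1 / 2) := by
    have h3 : HasDerivAt FF (deriv FF (1 / 4)) ((fun z : ℂ => z ^ 2) (1 / 2)) := by
      have := (FF_diff (1 / 4)).hasDerivAt
      have e : (fun z : ℂ => z ^ 2) (1 / 2) = 1 / 4 := by norm_num
      rw [e]
      exact this
    have h4 : HasDerivAt (fun z : ℂ => z ^ 2) (2 * (1 / 2)) (1 / 2 : ℂ) := by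
      have := hasDerivAt_pow 2 (1 / 2 : ℂ)
      have e : (2 * (1 / 2) : ℂ) = ((2 : ℕ) : ℂ) * (1 / 2) ^ (2 - 1) := by norm_num
      rw [e]
      exact this
    exact HasDerivAt.comp (1 / 2) h3 h4
  rw [comp_eq] at h2
  have := h2.unique h1
  rw [← this]
  ring

/-- the value of the sum -/
noncomputable def AA : ℝ := 2 + Real.eulerMascheroniConstant - Real.log (4 * Real.pi)

lemma log_deriv : deriv FF (1 / 4) / FF (1 / 4) = ((AA / 2 : ℝ) : ℂ) := by
  rw [FF_deriv, FF_quarter, completedRiemannZeta₀_one, AA]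
  have h : Complex.log (4 * (Real.pi : ℂ)) = ((Real.log (4 * Real.pi) : ℝ) : ℂ) := by
    rw [Complex.ofReal_log (by positivity)]
    push_cast
    rfl
  rw [h]
  push_cast
  ring

/-- the comparison with a polynomial -/
lemma compare (hRH : RiemannHypothesis) {P : Polynomial ℂ} {G : ℂ → ℂ} (hG : Differentiable ℂ G)
    (hF : ∀ w, FF w = P.eval w * G w) :
    P ≠ 0 ∧ (∀ x, (P.rootMultiplicity x) ≤ ord x) ∧ (∀ x, G x ≠ 0 → P.rootMultiplicity x = ord x) ∧
    |AA / 2 - ∑ x ∈ P.roots.toFinset, (P.rootMultiplicity x : ℝ) / ‖1 / 4 - x‖| ≤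
      ‖deriv G (1 / 4) / G (1 / 4)‖ := by
  have h4 : P.eval (1 / 4) * G (1 / 4) = 4 := by rw [← hF, FF_quarter]
  have hP4 : P.eval (1 / 4) ≠ 0 := by
    intro h
    rw [h, zero_mul] at h4
    norm_num at h4
  have hG4 : G (1 / 4) ≠ 0 := by
    intro h
    rw [h, mul_zero] at h4
    norm_num at h4
  have hP : P ≠ 0 := by
    rintro rfl
    simp at hP4
  have hFe : FF = (fun w => P.eval w) * G := funext hF
  have hord : ∀ x, analyticOrderAt FF x = (P.rootMultiplicity x : ℕ∞) + analyticOrderAt G x := by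
    intro x
    rw [hFe, analyticOrderAt_mul (P.differentiable.analyticAt x) (hG.analyticAt x), ord_poly P hP x]
  refine ⟨hP, ?_, ?_, ?_⟩
  · intro x
    have h1 : (ord x : ℕ∞) = analyticOrderAt FF x := by
      unfold ord
      rw [Nat.cast_analyticOrderNatAt order_ne_top]
    have h2 : (P.rootMultiplicity x : ℕ∞) ≤ (ord x : ℕ∞) := by
      rw [h1, hord x]
      exact le_self_add
    exact_mod_cast h2
  · intro x hx
    have h1 : (ord x : ℕ∞) = analyticOrderAt FF x := by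
      unfold ord
      rw [Nat.cast_analyticOrderNatAt order_ne_top]
    have h2 : (P.rootMultiplicity x : ℕ∞) = (ord x : ℕ∞) := by
      rw [h1, hord x, ((hG.analyticAt x).analyticOrderAt_eq_zero).2 hx, add_zero]
    exact_mod_cast h2
  · have h1 : deriv FF (1 / 4) = P.derivative.eval (1 / 4) * G (1 / 4) + P.eval (1 / 4) * deriv G (1 / 4) := by
      have h2 : HasDerivAt (fun w => P.eval w * G w)
          (P.derivative.eval (1 / 4) * G (1 / 4) + P.eval (1 / 4) * deriv G (1 / 4)) (1 / 4) :=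
        (P.hasDerivAt (1 / 4)).mul (hG (1 / 4)).hasDerivAt
      have h3 : FF = fun w => P.eval w * G w := funext hF
      rw [h3]
      exact h2.deriv
    have h2 : deriv FF (1 / 4) / FF (1 / 4) =
        P.derivative.eval (1 / 4) / P.eval (1 / 4) + deriv G (1 / 4) / G (1 / 4) := by
      rw [h1, hF]
      field_simp
    have h3 : P.derivative.eval (1 / 4) / P.eval (1 / 4) =
        ((∑ x ∈ P.roots.toFinset, (P.rootMultiplicity x : ℝ) / ‖1 / 4 - x‖ : ℝ) : ℂ) := by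
      rw [(IsAlgClosed.splits P).eval_derivative_div_eval_of_ne_zero hP4,
        Finset.sum_multiset_map_count]
      push_cast
      refine Finset.sum_congr rfl fun x hx => ?_
      have hx0 : FF x = 0 := by
        rw [hF]
        have : P.eval x = 0 := by
          have := Multiset.mem_toFinset.1 hx
          exact (Polynomial.mem_roots'.1 this).2
        rw [this, zero_mul]
      rw [inv_eq hRH hx0, Polynomial.count_roots, nsmul_eq_mul]
      push_cast
      ring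
    rw [log_deriv, h3] at h2
    have h5 : deriv G (1 / 4) / G (1 / 4) = ((AA / 2 -
        ∑ x ∈ P.roots.toFinset, (P.rootMultiplicity x : ℝ) / ‖1 / 4 - x‖ : ℝ) : ℂ) := by
      rw [Complex.ofReal_sub, h2]
      ring
    rw [h5, Complex.norm_real, Real.norm_eq_abs]

lemma root_FF {P : Polynomial ℂ} {G : ℂ → ℂ} (hF : ∀ w, FF w = P.eval w * G w) :
    ∀ x ∈ P.roots.toFinset, FF x = 0 := by
  intro x hx
  rw [hF]
  have : P.eval x = 0 := by
    have := Multiset.mem_toFinset.1 hx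
    exact (Polynomial.mem_roots'.1 this).2
  rw [this, zero_mul]

theorem main (h : S_quo) (hRH : RiemannHypothesis) :
    HasSum (fun ρ : ZZ => (mu ρ : ℝ) / ‖(ρ : ℂ)‖ ^ 2) AA := by
  classical
  obtain ⟨K, hK⟩ := h
  have hlim : ∀ c : ℝ, Tendsto (fun R : ℝ => AA + c * (2 * (K * R ^ (-(1 / 4) : ℝ)))) atTop (𝓝 AA) := by
    intro c
    have h1 : Tendsto (fun R : ℝ => R ^ (-(1 / 4) : ℝ)) atTop (𝓝 0) :=
      tendsto_rpow_neg_atTop (by norm_num)
    have h2 := (((h1.const_mul K).const_mul 2).const_mul c).const_add AA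
    simpa using h2
  -- the polynomial at `R`
  have hdat : ∀ R : ℝ, 1 ≤ R → ∃ (P : Polynomial ℂ), (∀ x ∈ P.roots.toFinset, FF x = 0) ∧
      (∀ x, (P.rootMultiplicity x) ≤ ord x) ∧
      (∀ x, FF x = 0 → ‖x‖ ≤ R → x ∈ P.roots.toFinset ∧ P.rootMultiplicity x = ord x) ∧
      |AA / 2 - ∑ x ∈ P.roots.toFinset, (P.rootMultiplicity x : ℝ) / ‖1 / 4 - x‖| ≤
        K * R ^ (-(1 / 4) : ℝ) := by
    intro R hR
    obtain ⟨P, G, hG, hF, hne, hb⟩ := hK R hR
    have hF' : ∀ w, FF w = (P.map (algebraMap ℝ ℂ)).eval w * G w := by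
      intro w
      rw [hF, Polynomial.eval_map_algebraMap]
    obtain ⟨h1, h2, h3, h4⟩ := compare hRH hG hF'
    refine ⟨P.map (algebraMap ℝ ℂ), root_FF hF', h2, ?_, h4.trans hb⟩
    intro x hx hxR
    have hGx : G x ≠ 0 := hne x (by simpa using hxR)
    refine ⟨?_, h3 x hGx⟩
    rw [Multiset.mem_toFinset, Polynomial.mem_roots h1]
    have := hF' x
    rw [hx] at this
    rcases mul_eq_zero.1 this.symm with h5 | h5
    · exact h5
    · exact absurd h5 hGx
  have hnn : ∀ ρ : ZZ, 0 ≤ (mu ρ : ℝ) / ‖(ρ : ℂ)‖ ^ 2 := fun ρ => by positivity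
  have hU : ∀ T : Finset ZZ, ∑ ρ ∈ T, (mu ρ : ℝ) / ‖(ρ : ℂ)‖ ^ 2 ≤ AA := by
    intro T
    refine ge_of_tendsto (hlim 1) ?_
    obtain ⟨B, hB⟩ : ∃ B : ℝ, ∀ ρ ∈ T, ‖sq ρ‖ ≤ B := by
      refine ⟨∑ ρ ∈ T, ‖sq ρ‖, fun ρ hρ => ?_⟩
      exact Finset.single_le_sum (f := fun ρ => ‖sq ρ‖) (fun _ _ => norm_nonneg _) hρ
    filter_upwards [eventually_ge_atTop 1, eventually_ge_atTop B] with R hR1 hRB
    obtain ⟨P, -, -, h3, h4⟩ := hdat R hR1
    set X : Finset ℂ := T.image sq with hXdef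
    have hX : ∀ x ∈ X, FF x = 0 := by
      intro x hx
      obtain ⟨ρ, -, rfl⟩ := Finset.mem_image.1 hx
      exact FF_sq_zero ρ
    have hXB : ∀ x ∈ X, ‖x‖ ≤ R := by
      intro x hx
      obtain ⟨ρ, hρ, rfl⟩ := Finset.mem_image.1 hx
      exact (hB ρ hρ).trans hRB
    calc ∑ ρ ∈ T, (mu ρ : ℝ) / ‖(ρ : ℂ)‖ ^ 2 = ∑ ρ ∈ T, tm (sq ρ) :=
          Finset.sum_congr rfl fun ρ _ => term_eq hRH ρ
      _ ≤ ∑ ρ ∈ (fin_pre X hX).toFinset, tm (sq ρ) := by
          refine Finset.sum_le_sum_of_subset_of_nonneg (fun ρ hρ => ?_) fun _ _ _ => tm_nonneg _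
          simp only [Set.Finite.mem_toFinset, Set.mem_preimage, Finset.mem_coe]
          exact Finset.mem_image_of_mem _ hρ
      _ = 2 * ∑ x ∈ X, tm x := sum_pre X hX
      _ ≤ 2 * ∑ x ∈ P.roots.toFinset, (P.rootMultiplicity x : ℝ) / ‖1 / 4 - x‖ := by
          have h5 : ∑ x ∈ X, tm x = ∑ x ∈ X, (P.rootMultiplicity x : ℝ) / ‖1 / 4 - x‖ := by
            refine Finset.sum_congr rfl fun x hx => ?_
            rw [tm, (h3 x (hX x hx) (hXB x hx)).2]
          rw [h5]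
          refine mul_le_mul_of_nonneg_left ?_ (by norm_num)
          refine Finset.sum_le_sum_of_subset_of_nonneg (fun x hx => ?_) fun _ _ _ => by positivity
          exact (h3 x (hX x hx) (hXB x hx)).1
      _ ≤ AA + 1 * (2 * (K * R ^ (-(1 / 4) : ℝ))) := by
          have := (abs_le.1 h4).1
          linarith
  have hs : Summable (fun ρ : ZZ => (mu ρ : ℝ) / ‖(ρ : ℂ)‖ ^ 2) := summable_of_sum_le hnn hU
  have hL : AA ≤ ∑' ρ : ZZ, (mu ρ : ℝ) / ‖(ρ : ℂ)‖ ^ 2 := by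
    refine le_of_tendsto (hlim (-1)) ?_
    filter_upwards [eventually_ge_atTop 1] with R hR1
    obtain ⟨P, h1, h2, -, h4⟩ := hdat R hR1
    calc AA + (-1) * (2 * (K * R ^ (-(1 / 4) : ℝ)))
        ≤ 2 * ∑ x ∈ P.roots.toFinset, (P.rootMultiplicity x : ℝ) / ‖1 / 4 - x‖ := by
          have := (abs_le.1 h4).2
          linarith
      _ ≤ 2 * ∑ x ∈ P.roots.toFinset, tm x := by
          refine mul_le_mul_of_nonneg_left (Finset.sum_le_sum fun x _ => ?_) (by norm_num)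
          unfold tm
          have : (P.rootMultiplicity x : ℝ) ≤ (ord x : ℝ) := by exact_mod_cast h2 x
          gcongr
      _ = ∑ ρ ∈ (fin_pre P.roots.toFinset h1).toFinset, tm (sq ρ) := (sum_pre _ h1).symm
      _ = ∑ ρ ∈ (fin_pre P.roots.toFinset h1).toFinset, (mu ρ : ℝ) / ‖(ρ : ℂ)‖ ^ 2 :=
          Finset.sum_congr rfl fun ρ _ => (term_eq hRH ρ).symm
      _ ≤ ∑' ρ : ZZ, (mu ρ : ℝ) / ‖(ρ : ℂ)‖ ^ 2 := hs.sum_le_tsum _ fun ρ _ => hnn ρ
  have h6 : ∑' ρ : ZZ, (mu ρ : ℝ) / ‖(ρ : ℂ)‖ ^ 2 = AA :=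
    le_antisymm (hs.tsum_le_of_sum_le hU) hL
  rw [← h6]
  exact hs.hasSum

end Lam

theorem lam (h : S_quo) : S_lam := fun hRH => Lam.main h hRH

end Pool.Agent.N967
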