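import Pool.Agent.N967.LowB

set_option autoImplicit false

/-!
# Baez-Duarte's distance: growth of the Dirichlet polynomials to the left
-/

namespace Pool.Agent.N967

open Complex MeasureTheory Filter Topology Set
open Pool.Agent.H295R2

lemma norm_two_sq (t : ℝ) : ‖(2 + (t : ℂ) * I)‖ ^ 2 = 4 + t ^ 2 := by
  rw [← Complex.normSq_eq_norm_sq, Complex.normSq_apply]
  simp
  ring

lemma norm_two_sub_four_sq (t : ℝ) : ‖(2 + (t : ℂ) * I) - 4‖ ^ 2 = 4 + t ^ 2 := by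
  rw [← Complex.normSq_eq_norm_sq, Complex.normSq_apply]
  simp
  ring

lemma norm_two_sub_one_sq (t : ℝ) : ‖(2 + (t : ℂ) * I) - 1‖ ^ 2 = 1 + t ^ 2 := by
  rw [← Complex.normSq_eq_norm_sq, Complex.normSq_apply]
  simp
  ring

/-- growth on the line `re s = 2` -/
lemma DP_two (h : S_int) (hs : S_shift) : ∃ K : ℝ, 1 ≤ K ∧ ∀ (N : ℕ) (a : ℕ → ℂ), err N a ≤ 1 →
    ∀ t : ℝ, ‖DP N a (2 + t * I)‖ ≤ K * ‖(2 + (t : ℂ) * I) - 4‖ ^ 2 := by
  obtain ⟨K, hK1, hK⟩ := zeta_bounds (a := 2) (by norm_num)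
  refine ⟨5 * K, by linarith, fun N a he t => ?_⟩
  set s : ℂ := 2 + t * I with hsd
  have hre : s.re = 2 := by simp [hsd]
  have h1 : Zs s ≠ 0 := Zs_ne_zero_of_one_le (by rw [hre]; norm_num)
  have h2 : s - 1 ≠ 0 := by
    refine ne_zero_of_re ?_
    simp only [sub_re, one_re]
    rw [hre]; norm_num
  have h3 : s ≠ 0 := ne_zero_of_re (by rw [hre]; norm_num)
  have e : DP N a s = fz s * (1 - s ^ 2 * GLow N a s / (s - 1)) := by
    unfold fz GLow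
    field_simp
    ring
  have hc := cau h hs N a (s0 := s) (by rw [hre]; norm_num)
  have n1 : ‖s‖ ^ 2 = 4 + t ^ 2 := norm_two_sq t
  have n2 : ‖s - 4‖ ^ 2 = 4 + t ^ 2 := norm_two_sub_four_sq t
  have n3 : ‖s - 1‖ ^ 2 = 1 + t ^ 2 := norm_two_sub_one_sq t
  have n4 : ‖s + 1‖ ≤ ‖s‖ + 1 := by
    have := norm_add_le s 1
    rwa [norm_one] at this
  have n5 : 2 ≤ ‖s‖ := by
    have := (le_abs_self _).trans (Complex.abs_re_le_norm s)
    rwa [hre] at this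
  have n6 : ‖s‖ ≤ 2 * ‖s - 1‖ := by
    have : ‖s‖ ^ 2 ≤ (2 * ‖s - 1‖) ^ 2 := by
      rw [mul_pow, n1, n3]
      nlinarith [sq_nonneg t]
    exact le_of_sq_le_sq this (by positivity)
  have n7 : ‖GLow N a s‖ ≤ ‖s + 1‖ := by
    have : ‖GLow N a s‖ ^ 2 ≤ ‖s + 1‖ ^ 2 := by
      rw [hre] at hc
      have h5 : ‖s + 1‖ ^ 2 * err N a ≤ ‖s + 1‖ ^ 2 * 1 := by gcongr
      nlinarith [sq_nonneg ‖GLow N a s‖]
    exact le_of_sq_le_sq this (norm_nonneg _)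
  have hp : 0 < ‖s - 1‖ := norm_pos_iff.mpr h2
  have h6 : ‖1 - s ^ 2 * GLow N a s / (s - 1)‖ ≤ 5 * ‖s‖ ^ 2 := by
    calc ‖1 - s ^ 2 * GLow N a s / (s - 1)‖ ≤ ‖(1:ℂ)‖ + ‖s ^ 2 * GLow N a s / (s - 1)‖ := norm_sub_le _ _
      _ = 1 + ‖s‖ ^ 2 * ‖GLow N a s‖ / ‖s - 1‖ := by rw [norm_one, norm_div, norm_mul, norm_pow]
      _ ≤ 1 + ‖s‖ ^ 2 * (2 * ‖s‖) / ‖s - 1‖ := by
          gcongr
          linarith
      _ ≤ 1 + ‖s‖ ^ 2 * (2 * ‖s‖) / (‖s‖ / 2) := by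
          gcongr
          linarith
      _ = 1 + 4 * ‖s‖ ^ 2 := by field_simp; ring
      _ ≤ 5 * ‖s‖ ^ 2 := by nlinarith
  rw [e, norm_mul, n2, ← n1]
  have h7 := (hK s (by rw [hre])).2
  calc ‖fz s‖ * ‖1 - s ^ 2 * GLow N a s / (s - 1)‖ ≤ K * (5 * ‖s‖ ^ 2) := by gcongr
    _ = _ := by ring

/-- growth to the left of the line `re s = 2` -/
lemma DP_left (h : S_int) (hs : S_shift) : ∃ K : ℝ, 1 ≤ K ∧ ∀ (N : ℕ) (a : ℕ → ℂ), 1 ≤ N →
    err N a ≤ 1 → ∀ s : ℂ, s.re ≤ 2 → ‖DP N a s‖ ≤ K * (N : ℝ) ^ (2 - s.re) * ‖s - 4‖ ^ 2 := by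
  obtain ⟨K, hK1, hK⟩ := DP_two h hs
  refine ⟨K, hK1, fun N a hN he s hs2 => ?_⟩
  have hN1 : (1:ℝ) ≤ N := by exact_mod_cast hN
  have hN0 : (0:ℝ) < N := by linarith
  have hNc : (N : ℂ) ≠ 0 := by
    have : N ≠ 0 := by omega
    exact_mod_cast this
  have hcast : ((N : ℂ)) = ((N : ℝ) : ℂ) := by simp
  set f : ℂ → ℂ := fun z => DP N a (2 - z) * (N : ℂ) ^ (2 - z) / (z + 2) ^ 2 with hf
  have hne : ∀ z : ℂ, 0 ≤ z.re → z + 2 ≠ 0 := by
    intro z hz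
    refine ne_zero_of_re ?_
    simp only [add_re, re_ofNat]
    linarith
  have hd : ∀ z : ℂ, 0 ≤ z.re → DifferentiableAt ℂ f z := by
    intro z hz
    have h1 : DifferentiableAt ℂ (fun z => DP N a (2 - z)) z :=
      DifferentiableAt.comp (g := DP N a) (f := fun z : ℂ => 2 - z) z (DP_differentiable N a _)
        (by fun_prop)
    have h2 : DifferentiableAt ℂ (fun z : ℂ => (N : ℂ) ^ (2 - z)) z := by
      have h3 : DifferentiableAt ℂ (fun z : ℂ => 2 - z) z := by fun_prop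
      exact h3.const_cpow (Or.inl hNc)
    have h4 : DifferentiableAt ℂ (fun z : ℂ => (z + 2) ^ 2) z := by fun_prop
    exact (h1.mul h2).div h4 (pow_ne_zero 2 (hne z hz))
  set M := ∑ n ∈ Finset.Icc 1 N, ‖a n‖ * (N : ℝ) ^ 2 with hM
  have hbd : ∀ z : ℂ, 0 ≤ z.re → ‖DP N a (2 - z) * (N : ℂ) ^ (2 - z)‖ ≤ M := by
    intro z hz
    unfold DP
    rw [Finset.sum_mul]
    refine (norm_sum_le _ _).trans (Finset.sum_le_sum fun n hn => ?_)
    obtain ⟨hn1, hnN⟩ := Finset.mem_Icc.mp hn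
    have hn0 : (0:ℝ) < n := by exact_mod_cast hn1
    have hn1' : (1:ℝ) ≤ n := by exact_mod_cast hn1
    have hnN' : (n:ℝ) ≤ N := by exact_mod_cast hnN
    have hcn : ((n : ℂ)) = ((n : ℝ) : ℂ) := by simp
    rw [norm_mul, norm_mul, mul_assoc, hcn, hcast, Complex.norm_cpow_eq_rpow_re_of_pos hn0,
      Complex.norm_cpow_eq_rpow_re_of_pos hN0]
    refine mul_le_mul_of_nonneg_left ?_ (norm_nonneg _)
    have e1 : (-(2 - z)).re = -(2 - z).re := by simp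
    rw [e1, Real.rpow_neg hn0.le, mul_comm, ← div_eq_mul_inv, ← Real.div_rpow hN0.le hn0.le]
    have h5 : 1 ≤ (N : ℝ) / n := by rwa [one_le_div hn0]
    calc ((N : ℝ) / n) ^ (2 - z).re ≤ ((N : ℝ) / n) ^ (2 : ℝ) := by
          refine Real.rpow_le_rpow_of_exponent_le h5 ?_
          simp only [sub_re, re_ofNat]
          linarith
      _ = ((N : ℝ) / n) ^ 2 := by norm_num
      _ ≤ (N : ℝ) ^ 2 := by
          refine pow_le_pow_left₀ (by positivity) ?_ 2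
          exact div_le_self hN0.le hn1'
  have hden : ∀ z : ℂ, 0 ≤ z.re → 1 ≤ ‖(z + 2) ^ 2‖ := by
    intro z hz
    rw [norm_pow]
    have h2 := (le_abs_self _).trans (Complex.abs_re_le_norm (z + 2))
    simp only [add_re, re_ofNat] at h2
    nlinarith
  have hM0 : 0 ≤ M := Finset.sum_nonneg fun n _ => by positivity
  have hfM : ∀ z : ℂ, 0 ≤ z.re → ‖f z‖ ≤ M := by
    intro z hz
    rw [hf]
    simp only
    rw [norm_div]
    exact (div_le_self (norm_nonneg _) (hden z hz)).trans (hbd z hz)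
  have hPL := PhragmenLindelof.right_half_plane_of_bounded_on_real (f := f) (C := K * (N : ℝ) ^ 2)
    (z := 2 - s) ?_ ?_ ?_ ?_ (by simp only [sub_re, re_ofNat]; linarith)
  · rw [hf] at hPL
    simp only at hPL
    have e1 : (2 : ℂ) - (2 - s) = s := by ring
    have e2 : (2 : ℂ) - s + 2 = -(s - 4) := by ring
    rw [e1, e2, norm_div, norm_mul, norm_pow, norm_neg, hcast,
      Complex.norm_cpow_eq_rpow_re_of_pos hN0] at hPL
    have h4 : 0 < ‖s - 4‖ := by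
      rw [norm_pos_iff]
      intro h0
      have := congrArg Complex.re h0
      simp at this
      linarith
    rw [div_le_iff₀ (by positivity)] at hPL
    have e3 : (N : ℝ) ^ 2 = (N : ℝ) ^ (2 - s.re) * (N : ℝ) ^ s.re := by
      rw [← Real.rpow_add hN0]
      norm_num
    rw [e3] at hPL
    have h5 : 0 < (N : ℝ) ^ s.re := Real.rpow_pos_of_pos hN0 _
    have h6 : ‖DP N a s‖ * (N : ℝ) ^ s.re ≤
        (K * (N : ℝ) ^ (2 - s.re) * ‖s - 4‖ ^ 2) * (N : ℝ) ^ s.re := by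
      calc ‖DP N a s‖ * (N : ℝ) ^ s.re ≤ _ := hPL
        _ = _ := by ring
    exact le_of_mul_le_mul_right h6 h5
  · refine DifferentiableOn.diffContOnCl fun z hz => ?_
    have : z ∈ {z : ℂ | 0 ≤ z.re} := by
      rwa [Complex.closure_setOf_lt_re] at hz
    exact (hd z this).differentiableWithinAt
  · refine ⟨1, by norm_num, 0, ?_⟩
    refine Asymptotics.IsBigO.of_bound M ?_
    rw [eventually_inf_principal]
    refine Eventually.of_forall fun z hz => ?_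
    have hz' : 0 < z.re := hz
    simpa using hfM z hz'.le
  · refine ⟨M, ?_⟩
    rw [eventually_map]
    filter_upwards [eventually_ge_atTop 0] with x hx
    exact hfM x (by simpa using hx)
  · intro x
    have h1 := hK N a he (-x)
    rw [hf]
    simp only
    have e1 : (2 : ℂ) - x * I = 2 + ((-x : ℝ) : ℂ) * I := by push_cast; ring
    have e2 : (x : ℂ) * I + 2 = -(2 + ((-x : ℝ) : ℂ) * I - 4) := by push_cast; ring
    have e3 : ‖(N : ℂ) ^ (2 + ((-x : ℝ) : ℂ) * I)‖ = (N : ℝ) ^ 2 := by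
      rw [hcast, Complex.norm_cpow_eq_rpow_re_of_pos hN0]
      have : (2 + ((-x : ℝ) : ℂ) * I).re = 2 := by simp
      rw [this]
      norm_num
    rw [e1, e2, norm_div, norm_mul, norm_pow, norm_neg, e3]
    have h4 : 0 < ‖(2 + ((-x : ℝ) : ℂ) * I) - 4‖ ^ 2 := by
      rw [norm_two_sub_four_sq]
      positivity
    rw [div_le_iff₀ h4]
    calc ‖DP N a (2 + ((-x : ℝ) : ℂ) * I)‖ * (N : ℝ) ^ 2 ≤
          (K * ‖(2 + ((-x : ℝ) : ℂ) * I) - 4‖ ^ 2) * (N : ℝ) ^ 2 := by gcongr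
      _ = _ := by ring

/-- the bound on the line `re s = 1 / 4` -/
lemma GG_quarter (h : S_int) (hs : S_shift) : ∃ K : ℝ, 0 ≤ K ∧ ∀ (N : ℕ) (a : ℕ → ℂ), 1 ≤ N →
    err N a ≤ 1 → ∀ s : ℂ, s.re = 1 / 4 →
    ‖GLow N a s‖ ≤ K * (N : ℝ) ^ (7 / 4 : ℝ) * (1 + |s.im|) ^ 2 := by
  obtain ⟨K, hK1, hK⟩ := DP_left h hs
  refine ⟨20 + 2000 * K, by linarith, fun N a hN he s hre => ?_⟩
  have hN1 : (1:ℝ) ≤ N := by exact_mod_cast hN
  set Q := (N : ℝ) ^ (7 / 4 : ℝ) with hQ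
  have hQ1 : 1 ≤ Q := Real.one_le_rpow hN1 (by norm_num)
  have h1 : 1 / 4 ≤ ‖s‖ := by
    have := (le_abs_self _).trans (Complex.abs_re_le_norm s)
    rwa [hre] at this
  have h2 := Zs_norm_le (s := s) (by rw [hre])
  have h3 := hK N a hN he s (by rw [hre]; norm_num)
  have e1 : (2 : ℝ) - s.re = 7 / 4 := by rw [hre]; norm_num
  rw [e1, ← hQ] at h3
  have h8 : ‖s - 4‖ ≤ 4 * (1 + |s.im|) := by
    have := Complex.norm_le_abs_re_add_abs_im (s - 4)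
    have e2 : (s - 4).re = -(15 / 4) := by simp [hre]; norm_num
    have e3 : (s - 4).im = s.im := by simp
    rw [e2, e3] at this
    have e4 : |(-(15 / 4) : ℝ)| = 15 / 4 := by rw [abs_neg, abs_of_pos (by norm_num)]
    rw [e4] at this
    nlinarith [abs_nonneg s.im]
  have h4 : ‖s - 1‖ ≤ ‖s‖ + 1 := by
    have := norm_sub_le s 1
    rwa [norm_one] at this
  have h5 : 0 < ‖s‖ ^ 2 := by positivity
  unfold GLow
  rw [norm_div, norm_pow, div_le_iff₀ h5]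
  have h6 : ‖s‖ + 1 ≤ 20 * ‖s‖ ^ 2 := by nlinarith
  have h7 : (‖s‖ + 1) ^ 2 ≤ 25 * ‖s‖ ^ 2 := by nlinarith
  have h9 : ‖s - 4‖ ^ 2 ≤ 16 * (1 + |s.im|) ^ 2 := by
    calc ‖s - 4‖ ^ 2 ≤ (4 * (1 + |s.im|)) ^ 2 := pow_le_pow_left₀ (norm_nonneg _) h8 2
      _ = _ := by ring
  have h10 : 1 ≤ Q * (1 + |s.im|) ^ 2 := by
    have : 1 ≤ (1 + |s.im|) ^ 2 := by nlinarith [abs_nonneg s.im]
    nlinarith
  have hK0 : 0 ≤ K := by linarith
  calc ‖s - 1 - Zs s * DP N a s‖ ≤ ‖s - 1‖ + ‖Zs s * DP N a s‖ := norm_sub_le _ _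
    _ = ‖s - 1‖ + ‖Zs s‖ * ‖DP N a s‖ := by rw [norm_mul]
    _ ≤ (‖s‖ + 1) + (5 * (‖s‖ + 1) ^ 2) * (K * Q * ‖s - 4‖ ^ 2) := by gcongr
    _ ≤ 20 * ‖s‖ ^ 2 * 1 + (5 * (25 * ‖s‖ ^ 2)) * (K * Q * (16 * (1 + |s.im|) ^ 2)) := by
        rw [mul_one]
        gcongr
    _ ≤ 20 * ‖s‖ ^ 2 * (Q * (1 + |s.im|) ^ 2) +
        (5 * (25 * ‖s‖ ^ 2)) * (K * Q * (16 * (1 + |s.im|) ^ 2)) := by gcongr
    _ = _ := by ring

end Pool.Agent.N967
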