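import Pool.Agent.N967.LowC

set_option autoImplicit false

/-!
# Baez-Duarte's distance: the kernel for the lower bound
-/

namespace Pool.Agent.N967

open Complex MeasureTheory Filter Topology Set
open Pool.Agent.H295R2

lemma exp_neg_sq_le (y : ℝ) : Real.exp (-y ^ 2) ≤ 2 * ((1 + |y|) ^ 2)⁻¹ := by
  have h1 : (1 + |y|) ^ 2 ≤ 2 * Real.exp (y ^ 2) := by
    have := Real.add_one_le_exp (y ^ 2)
    nlinarith [sq_nonneg (1 - |y|), sq_abs y]
  rw [Real.exp_neg, ← div_eq_mul_inv, inv_eq_one_div, div_le_div_iff₀ (Real.exp_pos _) (by positivity)]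
  linarith

lemma exp_neg_sq_le' (y : ℝ) : Real.exp (-y ^ 2) ≤ 16 * ((1 + |y|) ^ 2)⁻¹ * ((1 + |y|) ^ 2)⁻¹ := by
  have h1 : (1 + |y|) ^ 2 ≤ 4 * Real.exp (y ^ 2 / 2) := by
    have := Real.add_one_le_exp (y ^ 2 / 2)
    nlinarith [sq_nonneg (1 - |y|), sq_abs y]
  have h2 : Real.exp (-y ^ 2 / 2) ≤ 4 * ((1 + |y|) ^ 2)⁻¹ := by
    rw [neg_div, Real.exp_neg, ← div_eq_mul_inv, inv_eq_one_div,
      div_le_div_iff₀ (Real.exp_pos _) (by positivity)]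
    linarith
  have h3 : Real.exp (-y ^ 2) = Real.exp (-y ^ 2 / 2) * Real.exp (-y ^ 2 / 2) := by
    rw [← Real.exp_add]
    ring_nf
  rw [h3]
  calc Real.exp (-y ^ 2 / 2) * Real.exp (-y ^ 2 / 2) ≤
        (4 * ((1 + |y|) ^ 2)⁻¹) * (4 * ((1 + |y|) ^ 2)⁻¹) :=
        mul_le_mul h2 h2 (Real.exp_pos _).le (by positivity)
    _ = _ := by ring

lemma inv_sq_le_half (y : ℝ) : ((1 + |y|) ^ 2)⁻¹ ≤ (1 + |y|) ^ (-(1 / 2 : ℝ)) := by
  have h1 : 1 ≤ 1 + |y| := by linarith [abs_nonneg y]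
  rw [← Real.rpow_natCast, ← Real.rpow_neg (by linarith)]
  exact Real.rpow_le_rpow_of_exponent_le h1 (by norm_num)

lemma inv_sq_le_three_half (y : ℝ) : ((1 + |y|) ^ 2)⁻¹ ≤ (1 + |y|) ^ (-(3 / 2 : ℝ)) := by
  have h1 : 1 ≤ 1 + |y| := by linarith [abs_nonneg y]
  rw [← Real.rpow_natCast, ← Real.rpow_neg (by linarith)]
  exact Real.rpow_le_rpow_of_exponent_le h1 (by norm_num)

/-- the numerator of the kernel -/
noncomputable def kk (L : ℝ) (z : ℂ) : ℂ := cexp (L * z + z ^ 2) - ((1 + z) ^ 4)⁻¹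

/-- the kernel -/
noncomputable def K1 (L : ℝ) : ℂ → ℂ := dslope (kk L) 0

lemma kk_zero (L : ℝ) : kk L 0 = 0 := by simp [kk]

lemma K1_eq (L : ℝ) {z : ℂ} (hz : z ≠ 0) : K1 L z = kk L z / z := by
  unfold K1
  rw [dslope_of_ne _ hz, slope_def_field, kk_zero]
  simp

lemma norm_exp_kern (L : ℝ) (z : ℂ) :
    ‖cexp (L * z + z ^ 2)‖ = Real.exp (L * z.re + z.re ^ 2) * Real.exp (-z.im ^ 2) := by
  rw [Complex.norm_exp, ← Real.exp_add]
  congr 1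
  simp [sq]
  ring

lemma one_add_ne {z : ℂ} (hz : -1 < z.re) : 1 + z ≠ 0 := by
  refine ne_zero_of_re ?_
  simp only [add_re, one_re]
  linarith

lemma kk_diff (L : ℝ) {z : ℂ} (hz : -1 < z.re) : DifferentiableAt ℂ (kk L) z := by
  unfold kk
  have h1 : DifferentiableAt ℂ (fun z : ℂ => (1 + z) ^ 4) z := by fun_prop
  have h2 : DifferentiableAt ℂ (fun z : ℂ => cexp (L * z + z ^ 2)) z := by fun_prop
  exact h2.sub (h1.inv (pow_ne_zero 4 (one_add_ne hz)))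

lemma K1_diff (L : ℝ) {z : ℂ} (hz : -1 < z.re) : DifferentiableAt ℂ (K1 L) z := by
  have hU : IsOpen {z : ℂ | -1 < z.re} := halfplane_open (-1)
  have h0 : {z : ℂ | -1 < z.re} ∈ 𝓝 (0 : ℂ) := hU.mem_nhds (by simp)
  have h1 : DifferentiableOn ℂ (kk L) {z : ℂ | -1 < z.re} := fun w hw =>
    (kk_diff L hw).differentiableWithinAt
  have h2 := (Complex.differentiableOn_dslope h0).mpr h1
  exact h2.differentiableAt (hU.mem_nhds hz)

lemma norm_one_add_ge {z : ℂ} (hz : -(1 / 4) ≤ z.re) : 1 + |z.im| ≤ 3 * ‖1 + z‖ := by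
  have h1 := (le_abs_self _).trans (Complex.abs_re_le_norm (1 + z))
  have h2 := Complex.abs_im_le_norm (1 + z)
  simp only [add_re, one_re, add_im, one_im, zero_add] at h1 h2
  linarith

lemma inv_four_le {z : ℂ} (hz : -(1 / 4) ≤ z.re) : ‖((1 + z) ^ 4)⁻¹‖ ≤ 81 * ((1 + |z.im|) ^ 2)⁻¹ := by
  have h1 := norm_one_add_ge hz
  have h0 : 0 < 1 + |z.im| := by positivity
  have h2 : (1 + |z.im|) ^ 4 ≤ (3 * ‖1 + z‖) ^ 4 := pow_le_pow_left₀ h0.le h1 4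
  have h3 : (1 + |z.im|) ^ 2 ≤ (1 + |z.im|) ^ 4 :=
    pow_le_pow_right₀ (by linarith [abs_nonneg z.im]) (by norm_num)
  have h4 : 0 < ‖1 + z‖ := by linarith
  rw [norm_inv, norm_pow, ← div_eq_mul_inv, inv_eq_one_div, div_le_div_iff₀ (by positivity) (by positivity)]
  nlinarith

/-- some bound for the kernel in the strip -/
lemma K1_strip (L : ℝ) : ∃ B : ℝ, 0 ≤ B ∧ ∀ z : ℂ, 0 ≤ z.re → z.re ≤ 1 / 2 →
    ‖K1 L z‖ ≤ B * (1 + |z.im|) ^ (-(3 / 2 : ℝ)) := by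
  have hcpt : IsCompact (Icc (0:ℝ) (1 / 2) ×ℂ Icc (-1:ℝ) 1) := isCompact_Icc.reProdIm isCompact_Icc
  have hcont : ContinuousOn (K1 L) (Icc (0:ℝ) (1 / 2) ×ℂ Icc (-1:ℝ) 1) := by
    intro z hz
    rw [Complex.mem_reProdIm] at hz
    exact (K1_diff L (by linarith [hz.1.1])).continuousAt.continuousWithinAt
  obtain ⟨M, hM⟩ := hcpt.exists_bound_of_continuousOn hcont
  set E := Real.exp (|L| / 2 + 1 / 4) with hE
  refine ⟨4 * |M| + 2 * (2 * E + 81), by positivity, fun z h0 h1 => ?_⟩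
  rcases le_or_gt |z.im| 1 with hy | hy
  · have h2 := hM z (by
      rw [Complex.mem_reProdIm]
      exact ⟨⟨h0, h1⟩, abs_le.mp hy⟩)
    have h3 : 1 ≤ 4 * (1 + |z.im|) ^ (-(3 / 2 : ℝ)) := by
      have h4 : (2 : ℝ) ^ (-(3 / 2 : ℝ)) ≤ (1 + |z.im|) ^ (-(3 / 2 : ℝ)) :=
        Real.rpow_le_rpow_of_nonpos (by positivity) (by linarith) (by norm_num)
      have h5 : (2 : ℝ) ^ (-2 : ℝ) ≤ (2 : ℝ) ^ (-(3 / 2 : ℝ)) :=
        Real.rpow_le_rpow_of_exponent_le (by norm_num) (by norm_num)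
      have h6 : (2 : ℝ) ^ (-2 : ℝ) = 1 / 4 := by
        rw [Real.rpow_neg (by norm_num)]
        norm_num
      linarith
    have h7 : 0 ≤ (1 + |z.im|) ^ (-(3 / 2 : ℝ)) := by positivity
    have h8 : 0 < E := Real.exp_pos _
    calc ‖K1 L z‖ ≤ |M| * 1 := by rw [mul_one]; exact h2.trans (le_abs_self M)
      _ ≤ |M| * (4 * (1 + |z.im|) ^ (-(3 / 2 : ℝ))) := by gcongr
      _ ≤ _ := by nlinarith [abs_nonneg M]
  · have hz : z ≠ 0 := by
      rintro rfl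
      simp at hy
      linarith
    have hn : 1 ≤ ‖z‖ := hy.le.trans (Complex.abs_im_le_norm z)
    have hk : ‖kk L z‖ ≤ (2 * E + 81) * ((1 + |z.im|) ^ 2)⁻¹ := by
      unfold kk
      have h2 : ‖cexp (L * z + z ^ 2)‖ ≤ E * (2 * ((1 + |z.im|) ^ 2)⁻¹) := by
        rw [norm_exp_kern]
        refine mul_le_mul ?_ (exp_neg_sq_le _) (Real.exp_pos _).le (Real.exp_pos _).le
        refine Real.exp_le_exp.mpr ?_
        have h4 : L * z.re ≤ |L| / 2 := by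
          calc L * z.re ≤ |L| * z.re := by gcongr; exact le_abs_self L
            _ ≤ |L| * (1 / 2) := by gcongr
            _ = _ := by ring
        have h5 : z.re ^ 2 ≤ 1 / 4 := by nlinarith
        linarith
      have h3 := inv_four_le (z := z) (by linarith)
      calc ‖cexp (L * z + z ^ 2) - ((1 + z) ^ 4)⁻¹‖ ≤ ‖cexp (L * z + z ^ 2)‖ + ‖((1 + z) ^ 4)⁻¹‖ :=
            norm_sub_le _ _
        _ ≤ E * (2 * ((1 + |z.im|) ^ 2)⁻¹) + 81 * ((1 + |z.im|) ^ 2)⁻¹ := add_le_add h2 h3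
        _ = _ := by ring
    have h8 : 0 < E := Real.exp_pos _
    rw [K1_eq L hz, norm_div]
    have h9 := inv_sq_le_three_half z.im
    have h7 : 0 ≤ (1 + |z.im|) ^ (-(3 / 2 : ℝ)) := by positivity
    calc ‖kk L z‖ / ‖z‖ ≤ ‖kk L z‖ := div_le_self (norm_nonneg _) hn
      _ ≤ (2 * E + 81) * ((1 + |z.im|) ^ 2)⁻¹ := hk
      _ ≤ (2 * E + 81) * (1 + |z.im|) ^ (-(3 / 2 : ℝ)) := by gcongr
      _ ≤ _ := by nlinarith [mul_nonneg (abs_nonneg M) h7, mul_nonneg h8.le h7]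

/-- the kernel on the imaginary axis -/
lemma K1_axis {L : ℝ} (hL : 1 ≤ L) {y : ℝ} (hy : y ≠ 0) :
    ‖K1 L (y * I)‖ ^ 2 ≤ 293 * ((1 / L) ^ 2 + (y + 0) ^ 2)⁻¹ := by
  have hyc : (y : ℂ) * I ≠ 0 := mul_ne_zero (by exact_mod_cast hy) I_ne_zero
  have hyp : 0 < |y| := abs_pos.mpr hy
  have hn : ‖(y : ℂ) * I‖ = |y| := by simp
  have hK : ‖K1 L (y * I)‖ = ‖kk L (y * I)‖ / |y| := by rw [K1_eq L hyc, norm_div, hn]
  have n1 : 1 ≤ ‖1 + (y : ℂ) * I‖ := by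
    have h1 := (le_abs_self _).trans (Complex.abs_re_le_norm (1 + (y : ℂ) * I))
    simpa using h1
  have n4 : 1 ≤ ‖(1 + (y : ℂ) * I) ^ 4‖ := by
    rw [norm_pow]
    exact one_le_pow₀ n1
  have b1 : ‖kk L (y * I)‖ ≤ 2 := by
    unfold kk
    have h1 : ‖cexp (L * (y * I) + (y * I) ^ 2)‖ ≤ 1 := by
      rw [norm_exp_kern]
      simp
      positivity
    have h2 : ‖((1 + (y : ℂ) * I) ^ 4)⁻¹‖ ≤ 1 := by
      rw [norm_inv]
      exact inv_le_one_of_one_le₀ n4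
    calc _ ≤ ‖cexp (L * (y * I) + (y * I) ^ 2)‖ + ‖((1 + (y : ℂ) * I) ^ 4)⁻¹‖ := norm_sub_le _ _
      _ ≤ 2 := by linarith
  have b2 : |y| ≤ 1 → ‖kk L (y * I)‖ ≤ 17 * L * |y| := by
    intro hy1
    have h1 : ‖cexp (L * (y * I) + (y * I) ^ 2) - 1‖ ≤ L * |y| + |y| := by
      have e1 : cexp (L * (y * I) + (y * I) ^ 2) - 1 =
          (cexp (I * ((L * y : ℝ) : ℂ)) - 1) * ((Real.exp (-y ^ 2) : ℝ) : ℂ) +
            (((Real.exp (-y ^ 2) - 1 : ℝ)) : ℂ) := by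
        have e2 : (L : ℂ) * (y * I) + (y * I) ^ 2 = I * ((L * y : ℝ) : ℂ) + ((-y ^ 2 : ℝ) : ℂ) := by
          push_cast
          linear_combination (y:ℂ) ^ 2 * I_sq
        rw [e2, Complex.exp_add]
        push_cast
        ring
      rw [e1]
      have h2 : ‖cexp (I * ((L * y : ℝ) : ℂ)) - 1‖ ≤ ‖L * y‖ :=
        Real.norm_exp_I_mul_ofReal_sub_one_le
      have h3 : Real.exp (-y ^ 2) ≤ 1 := Real.exp_le_one_iff.mpr (by nlinarith)
      have h4 : 1 - y ^ 2 ≤ Real.exp (-y ^ 2) := by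
        have := Real.add_one_le_exp (-y ^ 2)
        linarith
      have h5 : ‖L * y‖ = L * |y| := by
        rw [Real.norm_eq_abs, abs_mul, abs_of_pos (by linarith)]
      have h6 : ‖(((Real.exp (-y ^ 2) - 1 : ℝ)) : ℂ)‖ ≤ |y| := by
        rw [Complex.norm_real, Real.norm_eq_abs, abs_le]
        constructor
        · nlinarith [sq_abs y]
        · linarith
      calc _ ≤ ‖(cexp (I * ((L * y : ℝ) : ℂ)) - 1) * ((Real.exp (-y ^ 2) : ℝ) : ℂ)‖ +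
            ‖(((Real.exp (-y ^ 2) - 1 : ℝ)) : ℂ)‖ := norm_add_le _ _
        _ ≤ (L * |y|) * 1 + |y| := by
            rw [norm_mul]
            refine add_le_add (mul_le_mul (h2.trans h5.le) ?_ (norm_nonneg _) (by positivity)) h6
            rw [Complex.norm_real, Real.norm_of_nonneg (Real.exp_pos _).le]
            exact h3
        _ = _ := by ring
    have h2 : ‖1 - ((1 + (y : ℂ) * I) ^ 4)⁻¹‖ ≤ 15 * |y| := by
      have hne : (1 + (y : ℂ) * I) ^ 4 ≠ 0 := by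
        intro h0
        rw [h0, norm_zero] at n4
        linarith
      have e1 : 1 - ((1 + (y : ℂ) * I) ^ 4)⁻¹ =
          ((y * I) * (4 + 6 * (y * I) + 4 * (y * I) ^ 2 + (y * I) ^ 3)) / (1 + (y : ℂ) * I) ^ 4 := by
        rw [eq_div_iff hne, sub_mul, inv_mul_cancel₀ hne]
        ring
      rw [e1, norm_div, norm_mul, hn]
      have h3 : ‖4 + 6 * ((y : ℂ) * I) + 4 * (y * I) ^ 2 + (y * I) ^ 3‖ ≤ 15 := by
        calc ‖4 + 6 * ((y : ℂ) * I) + 4 * (y * I) ^ 2 + (y * I) ^ 3‖ ≤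
              ‖(4 : ℂ)‖ + ‖6 * ((y : ℂ) * I)‖ + ‖4 * ((y : ℂ) * I) ^ 2‖ + ‖((y : ℂ) * I) ^ 3‖ := by
              refine (norm_add_le _ _).trans (add_le_add_left ?_ _)
              refine (norm_add_le _ _).trans (add_le_add_left ?_ _)
              exact norm_add_le _ _
          _ = 4 + 6 * |y| + 4 * |y| ^ 2 + |y| ^ 3 := by
              have i1 : ‖6 * ((y : ℂ) * I)‖ = 6 * |y| := by rw [norm_mul, hn]; norm_num
              have i2 : ‖4 * ((y : ℂ) * I) ^ 2‖ = 4 * |y| ^ 2 := by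
                rw [norm_mul, norm_pow, hn]; norm_num
              have i3 : ‖((y : ℂ) * I) ^ 3‖ = |y| ^ 3 := by rw [norm_pow, hn]
              rw [i1, i2, i3]
              norm_num
          _ ≤ 4 + 6 * 1 + 4 * 1 ^ 2 + 1 ^ 3 := by gcongr
          _ = _ := by norm_num
      calc _ ≤ |y| * ‖4 + 6 * ((y : ℂ) * I) + 4 * (y * I) ^ 2 + (y * I) ^ 3‖ :=
            div_le_self (by positivity) n4
        _ ≤ |y| * 15 := by gcongr
        _ = _ := by ring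
    have h3 : kk L (y * I) = (cexp (L * (y * I) + (y * I) ^ 2) - 1) +
        (1 - ((1 + (y : ℂ) * I) ^ 4)⁻¹) := by
      unfold kk
      ring
    rw [h3]
    calc _ ≤ _ := norm_add_le _ _
      _ ≤ (L * |y| + |y|) + 15 * |y| := add_le_add h1 h2
      _ ≤ _ := by nlinarith
  have hL0 : 0 < L := by linarith
  have c1 : ‖K1 L (y * I)‖ ≤ 17 * L := by
    rw [hK, div_le_iff₀ hyp]
    rcases le_or_gt |y| 1 with h1 | h1
    · exact b2 h1
    · nlinarith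
  have c2 : ‖K1 L (y * I)‖ * |y| ≤ 2 := by
    rw [hK, div_mul_cancel₀ _ hyp.ne']
    exact b1
  have hden : 0 < (1 / L) ^ 2 + (y + 0) ^ 2 := by positivity
  rw [← div_eq_mul_inv, le_div_iff₀ hden]
  have c3 : ‖K1 L (y * I)‖ ^ 2 * (1 / L) ^ 2 ≤ 289 := by
    have : ‖K1 L (y * I)‖ * (1 / L) ≤ 17 := by
      rw [mul_one_div, div_le_iff₀ hL0]
      exact c1
    calc ‖K1 L (y * I)‖ ^ 2 * (1 / L) ^ 2 = (‖K1 L (y * I)‖ * (1 / L)) ^ 2 := by ring
      _ ≤ 17 ^ 2 := pow_le_pow_left₀ (by positivity) this 2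
      _ = _ := by norm_num
  have c4 : ‖K1 L (y * I)‖ ^ 2 * (y + 0) ^ 2 ≤ 4 := by
    calc ‖K1 L (y * I)‖ ^ 2 * (y + 0) ^ 2 = (‖K1 L (y * I)‖ * |y|) ^ 2 := by
          rw [mul_pow, sq_abs, add_zero]
      _ ≤ 2 ^ 2 := pow_le_pow_left₀ (by positivity) c2 2
      _ = _ := by norm_num
  linarith

end Pool.Agent.N967
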