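import Pool.Agent.N967.Stm4
import Pool.Agent.H24R2.JP.Had
import Pool.Agent.H24R2.JP.Mom
import Pool.Agent.H24R2.JP.Gam
import Pool.Agent.H24R2.JP.Grow
import Pool.Agent.H24R2.JP.B1

set_option autoImplicit false

/-!
# The zeros of `FF` in a disc divided out
-/

namespace Pool.Agent.N967

open Complex MeasureTheory Filter Topology Metric
open Pool.Agent.H24R2.JP (XX FF had_split b1 grow gamS mom)

namespace Quo

/-- a function without zeros in a disc is an exponential there; version with the derivative -/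
theorem base {F : ℂ → ℂ} (hF : Differentiable ℂ F) {ρ M : ℝ} (hρ : 0 < ρ)
    (hnz : ∀ u ∈ ball (0 : ℂ) ρ, F u ≠ 0) (hb : ∀ w ∈ ball (0 : ℂ) ρ, ‖F w‖ ≤ Real.exp M) :
    ∃ L : ℂ → ℂ, (∀ w ∈ ball (0 : ℂ) ρ, HasDerivAt L (deriv F w / F w) w) ∧
      ∀ w : ℂ, ‖w‖ < ρ → ‖L w‖ ≤ 2 * (M - Real.log ‖F 0‖) * (‖w‖ / (ρ - ‖w‖)) := by
  have h0 : F 0 ≠ 0 := hnz 0 (mem_ball_self hρ)
  have h0n : 0 < ‖F 0‖ := norm_pos_iff.2 h0
  have hg : DifferentiableOn ℂ (fun z => deriv F z / F z) (ball 0 ρ) := by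
    refine DifferentiableOn.div ?_ hF.differentiableOn hnz
    exact (hF.contDiff (n := 2)).differentiable_deriv_two.differentiableOn
  obtain ⟨L0, hL0⟩ := hg.isExactOn_ball
  set L : ℂ → ℂ := fun z => L0 z - L0 0 with hLdef
  have hL : ∀ z ∈ ball (0 : ℂ) ρ, HasDerivAt L (deriv F z / F z) z := fun z hz =>
    (hL0 z hz).sub_const _
  have hLz : L 0 = 0 := by simp [hLdef]
  have hconst : ∀ z ∈ ball (0 : ℂ) ρ, F z * cexp (-L z) = F 0 := by
    intro z hz
    have hd : ∀ x ∈ ball (0 : ℂ) ρ, HasDerivAt (fun y => F y * cexp (-L y)) 0 x := by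
      intro x hx
      have h1 := (hF x).hasDerivAt.mul ((hL x hx).neg.cexp)
      have e : deriv F x * cexp (-L x) + F x * (cexp (-L x) * -(deriv F x / F x)) = 0 := by
        have hx' := hnz x hx
        field_simp
        ring
      have h1' : HasDerivAt (fun y => F y * cexp (-L y))
        (deriv F x * cexp (-L x) + F x * (cexp (-L x) * -(deriv F x / F x))) x := h1
      rwa [e] at h1'
    have h2 := (convex_ball (0 : ℂ) ρ).is_const_of_fderivWithin_eq_zero (𝕜 := ℂ)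
      (f := fun y => F y * cexp (-L y))
      (fun x hx => (hd x hx).differentiableAt.differentiableWithinAt) (by
        intro x hx
        rw [((hd x hx).hasFDerivAt.hasFDerivWithinAt (s := ball (0 : ℂ) ρ)).fderivWithin
          (isOpen_ball.uniqueDiffWithinAt hx)]
        ext
        simp) hz (mem_ball_self hρ)
    simpa [hLz] using h2
  have hFL : ∀ z ∈ ball (0 : ℂ) ρ, F z = F 0 * cexp (L z) := by
    intro z hz
    rw [← hconst z hz, mul_assoc, ← Complex.exp_add]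
    simp
  have hnorm : ∀ z ∈ ball (0 : ℂ) ρ, ‖F z‖ = Real.exp (Real.log ‖F 0‖ + (L z).re) := by
    intro z hz
    rw [hFL z hz, norm_mul, Complex.norm_exp, Real.exp_add, Real.exp_log h0n]
  set A : ℝ := M - Real.log ‖F 0‖ with hA
  have hre : ∀ z ∈ ball (0 : ℂ) ρ, (L z).re ≤ A := by
    intro z hz
    have h1 := hb z hz
    rw [hnorm z hz, Real.exp_le_exp] at h1
    linarith
  have hA0 : 0 ≤ A := by
    have := hre 0 (mem_ball_self hρ)
    rwa [hLz] at this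
  refine ⟨L, hL, ?_⟩
  intro w hw
  have hwb : w ∈ ball (0 : ℂ) ρ := by simpa using hw
  have hden : 0 < ρ - ‖w‖ := by linarith
  set c : ℝ := ‖w‖ / (ρ - ‖w‖) with hc
  have hc0 : 0 ≤ c := div_nonneg (norm_nonneg _) hden.le
  refine le_of_forall_pos_le_add (fun δ hδ => ?_)
  have hε : 0 < δ / (2 * c + 1) := by positivity
  have h1 := Complex.borelCaratheodory_zero (f := L) (R := ρ) (z := w)
    (M := A + δ / (2 * c + 1)) (by linarith)
    (fun z hz => (hL z hz).differentiableAt.differentiableWithinAt)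
    (fun z hz => by
      show (L z).re ≤ _
      linarith [hre z hz]) hρ hwb hLz
  refine h1.trans ?_
  have h2 : 2 * (A + δ / (2 * c + 1)) * ‖w‖ / (ρ - ‖w‖) =
      2 * A * c + (δ / (2 * c + 1)) * (2 * c) := by
    rw [hc]; ring
  rw [h2]
  have h3 : (δ / (2 * c + 1)) * (2 * c) ≤ (δ / (2 * c + 1)) * (2 * c + 1) :=
    mul_le_mul_of_nonneg_left (by linarith) hε.le
  have h4 : (δ / (2 * c + 1)) * (2 * c + 1) = δ := by
    field_simp
  linarith

/-- the logarithmic derivative at `1/4` -/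
lemma logd {F : ℂ → ℂ} (hF : Differentiable ℂ F) {ρ M c : ℝ} (hρ : 4 ≤ ρ)
    (hnz : ∀ u ∈ ball (0 : ℂ) ρ, F u ≠ 0) (hb : ∀ w ∈ ball (0 : ℂ) ρ, ‖F w‖ ≤ Real.exp M)
    (hM : 0 ≤ M) (hc : |Real.log ‖F 0‖| ≤ c) :
    ‖deriv F (1 / 4) / F (1 / 4)‖ ≤ 4 * (M + c) / ρ := by
  obtain ⟨L, hL, hLb⟩ := base hF (by linarith) hnz hb
  have hc0 : 0 ≤ c := (abs_nonneg _).trans hc
  have hin : ∀ z ∈ closedBall (1 / 4 : ℂ) (1 / 2), ‖z‖ ≤ 3 / 4 := by
    intro z hz
    rw [mem_closedBall, dist_eq_norm] at hz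
    have h1 : ‖z‖ ≤ ‖z - 1 / 4‖ + ‖(1 / 4 : ℂ)‖ := by
      calc ‖z‖ = ‖(z - 1 / 4) + 1 / 4‖ := by ring_nf
        _ ≤ _ := norm_add_le _ _
    have h2 : ‖(1 / 4 : ℂ)‖ = 1 / 4 := by norm_num
    rw [h2] at h1
    linarith
  have hd : DiffContOnCl ℂ L (ball (1 / 4 : ℂ) (1 / 2)) := by
    apply DifferentiableOn.diffContOnCl
    rw [closure_ball _ (by norm_num)]
    intro z hz
    have h1 : z ∈ ball (0 : ℂ) ρ := by
      rw [mem_ball_zero_iff]
      have := hin z hz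
      linarith
    exact (hL z h1).differentiableAt.differentiableWithinAt
  have h1 := Complex.norm_deriv_le_of_forall_mem_sphere_norm_le (c := (1 / 4 : ℂ)) (R := 1 / 2)
    (C := 2 * (M + c) / ρ) (by norm_num) hd (by
      intro z hz
      have hz' := hin z (sphere_subset_closedBall hz)
      have h2 := hLb z (by linarith)
      refine h2.trans ?_
      have h3 : ‖z‖ / (ρ - ‖z‖) ≤ 1 / ρ := by
        rw [div_le_div_iff₀ (by linarith) (by linarith)]
        nlinarith [norm_nonneg z]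
      have h4 : M - Real.log ‖F 0‖ ≤ M + c := by
        have := neg_abs_le (Real.log ‖F 0‖)
        linarith
      have h5 : 0 ≤ ‖z‖ / (ρ - ‖z‖) := div_nonneg (norm_nonneg _) (by linarith)
      calc 2 * (M - Real.log ‖F 0‖) * (‖z‖ / (ρ - ‖z‖))
          ≤ 2 * (M + c) * (‖z‖ / (ρ - ‖z‖)) := by gcongr
        _ ≤ 2 * (M + c) * (1 / ρ) := by gcongr
        _ = 2 * (M + c) / ρ := by ring)
  have h14 : (1 / 4 : ℂ) ∈ ball (0 : ℂ) ρ := by
    rw [mem_ball_zero_iff]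
    have : ‖(1 / 4 : ℂ)‖ = 1 / 4 := by norm_num
    rw [this]
    linarith
  rw [(hL _ h14).deriv] at h1
  calc _ ≤ _ := h1
    _ = 4 * (M + c) / ρ := by ring

end Quo

theorem quo : S_quo := by
  obtain ⟨hd, -, hsym, hder⟩ := b1
  obtain ⟨K, hK⟩ := grow b1
  have h00 : FF 0 ≠ 0 := by
    have h1 := hder 0
    rw [iteratedDeriv_zero] at h1
    rw [h1]
    exact_mod_cast ((gamS mom).1 0).ne'
  set K' : ℝ := max K 0 with hK'
  have hK0 : 0 ≤ K' := le_max_right _ _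
  have hbr : ∀ r : ℝ, ∀ w : ℂ, ‖w‖ ≤ r → ‖FF w‖ ≤ Real.exp (K' * (1 + r) ^ (3/4 : ℝ)) := by
    intro r w hw
    refine (hK w).trans (Real.exp_le_exp.2 ?_)
    calc K * (1 + ‖w‖) ^ (3/4 : ℝ) ≤ K' * (1 + ‖w‖) ^ (3/4 : ℝ) :=
          mul_le_mul_of_nonneg_right (le_max_left _ _)
            (Real.rpow_nonneg (by linarith [norm_nonneg w]) _)
      _ ≤ K' * (1 + r) ^ (3/4 : ℝ) :=
          mul_le_mul_of_nonneg_left (Real.rpow_le_rpow (by linarith [norm_nonneg w])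
            (by linarith) (by norm_num)) hK0
  set c : ℝ := |Real.log ‖FF 0‖| with hc
  have hc0 : 0 ≤ c := abs_nonneg _
  refine ⟨9 * K' + c, fun R hR => ?_⟩
  have hρ : 0 < 4 * R := by positivity
  obtain ⟨n, hn⟩ := exists_nat_ge
    (∑ᶠ u, (MeromorphicOn.divisor FF (closedBall 0 (4 * R)) u : ℝ) * 1)
  obtain ⟨P, G, hG, hG0, hGb, hFG, hnz⟩ := had_split (M := K' * (1 + 2 * (4 * R)) ^ (3/4 : ℝ)) hρ n
    FF hd h00 hsym (fun w hw => hbr _ w (by simpa using hw)) hn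
  refine ⟨P, G, hG, hFG, fun u hu => hnz u (closedBall_subset_closedBall (by linarith) hu), ?_⟩
  have hR0 : 0 < R := by linarith
  have h1 := Quo.logd (M := K' * (1 + 2 * (4 * R)) ^ (3/4 : ℝ)) (c := c) hG (by linarith : 4 ≤ 4 * R)
    (fun u hu => hnz u (ball_subset_closedBall hu))
    (fun w hw => hGb w (ball_subset_closedBall (ball_subset_ball (by linarith) hw)))
    (by positivity) (by rw [hG0])
  refine h1.trans ?_
  have e1 : (1 + 2 * (4 * R)) ^ (3/4 : ℝ) ≤ 9 * R ^ (3/4 : ℝ) := by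
    calc (1 + 2 * (4 * R)) ^ (3/4 : ℝ) ≤ (9 * R) ^ (3/4 : ℝ) :=
          Real.rpow_le_rpow (by linarith) (by linarith) (by norm_num)
      _ = 9 ^ (3/4 : ℝ) * R ^ (3/4 : ℝ) := Real.mul_rpow (by norm_num) hR0.le
      _ ≤ 9 * R ^ (3/4 : ℝ) := by
          apply mul_le_mul_of_nonneg_right _ (Real.rpow_nonneg hR0.le _)
          calc (9 : ℝ) ^ (3/4 : ℝ) ≤ 9 ^ (1 : ℝ) :=
                Real.rpow_le_rpow_of_exponent_le (by norm_num) (by norm_num)
            _ = 9 := Real.rpow_one 9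
  have e3 : R ^ (3/4 : ℝ) / R = R ^ (-(1/4) : ℝ) := by
    rw [show (-(1/4) : ℝ) = 3/4 - 1 by norm_num, Real.rpow_sub hR0, Real.rpow_one]
  have e4 : 1 / R ≤ R ^ (-(1/4) : ℝ) := by
    rw [← e3]
    have : 1 ≤ R ^ (3/4 : ℝ) := Real.one_le_rpow hR (by norm_num)
    gcongr
  calc 4 * (K' * (1 + 2 * (4 * R)) ^ (3/4 : ℝ) + c) / (4 * R)
      = K' * ((1 + 2 * (4 * R)) ^ (3/4 : ℝ)) / R + c * (1 / R) := by field_simp
    _ ≤ K' * (9 * R ^ (3/4 : ℝ)) / R + c * R ^ (-(1/4) : ℝ) := by gcongr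
    _ = 9 * K' * (R ^ (3/4 : ℝ) / R) + c * R ^ (-(1/4) : ℝ) := by ring
    _ = (9 * K' + c) * R ^ (-(1/4) : ℝ) := by rw [e3]; ring

end Pool.Agent.N967
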