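import Mathlib
import Pool.Agent.N967.Upper

set_option autoImplicit false

/-!
# The upper bound under the Riemann hypothesis: end
-/

namespace Pool.Agent.N967

open Complex MeasureTheory Filter Topology
open Pool.Agent.H295R2 (fz)

lemma small_exp {δ C K : ℝ} (hδ : 0 < δ) :
    ∀ᶠ x : ℝ in atTop, (K * x * (2 * x) ^ C * Real.exp (-(x ^ δ) / 8)) ^ 2 ≤ 1 / x := by
  have h1 := (tendsto_rpow_mul_exp_neg_mul_atTop_nhds_zero ((3 + 2 * C) / δ) (1 / 4) (by norm_num)).comp (tendsto_rpow_atTop hδ)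
  have h2 := h1.const_mul (K ^ 2 * 2 ^ (2 * C))
  rw [mul_zero] at h2
  filter_upwards [h2.eventually (gt_mem_nhds zero_lt_one), eventually_gt_atTop 0] with x hx hx0
  simp only [Function.comp] at hx
  have e1 : (x ^ δ) ^ ((3 + 2 * C) / δ) = x ^ 3 * x ^ (2 * C) := by
    rw [← Real.rpow_mul hx0.le, mul_div_cancel₀ _ hδ.ne', Real.rpow_add hx0]
    congr 1
    exact_mod_cast Real.rpow_natCast x 3
  have e2 : (K * x * (2 * x) ^ C * Real.exp (-(x ^ δ) / 8)) ^ 2 = K ^ 2 * 2 ^ (2 * C) * (x ^ 2 * x ^ (2 * C) * Real.exp (-(1 / 4) * x ^ δ)) := by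
    rw [Real.mul_rpow (by norm_num) hx0.le]
    have e3 : Real.exp (-(1 / 4) * x ^ δ) = Real.exp (-(x ^ δ) / 8) ^ 2 := by
      rw [← Real.exp_nat_mul]; congr 1; push_cast; ring
    have e4 : (2 : ℝ) ^ (2 * C) = (2 ^ C) ^ 2 := by
      rw [mul_comm, Real.rpow_mul (by norm_num)]
      exact_mod_cast Real.rpow_natCast _ 2
    have e5 : x ^ (2 * C) = (x ^ C) ^ 2 := by
      rw [mul_comm, Real.rpow_mul hx0.le]
      exact_mod_cast Real.rpow_natCast _ 2
    rw [e3, e4, e5]; ring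
  rw [e2, le_div_iff₀ hx0]
  rw [e1] at hx
  refine le_trans (le_of_eq ?_) hx.le
  ring

lemma log_small {δ A c : ℝ} (hδ : 0 < δ) (hc : 0 < c) :
    ∀ᶠ x : ℝ in atTop, A * x ^ (-(δ / 2)) * Real.log (x ^ (1 + δ)) ≤ c := by
  have h1 := isLittleO_log_rpow_atTop (r := δ / 2) (by positivity)
  have h2 := (h1.tendsto_div_nhds_zero).const_mul (A * (1 + δ))
  rw [mul_zero] at h2
  filter_upwards [h2.eventually (gt_mem_nhds hc), eventually_gt_atTop 0] with x hx hx0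
  refine le_trans (le_of_eq ?_) hx.le
  rw [Real.log_rpow hx0, Real.rpow_neg hx0.le]
  field_simp

theorem upper_x (hk : S_kern) (ha : S_app) (hf : S_first) (hr : S_ratio) (hRH : RiemannHypothesis) {δ : ℝ}
    (hδ : 0 < δ) (hδ1 : δ ≤ 1) : ∃ C X0 : ℝ, 0 < C ∧ 1 ≤ X0 ∧ ∀ x : ℝ, X0 ≤ x → ∀ N : ℕ,
      x ^ (1 + δ) ≤ Real.log (N + 1) → dd N ≤ C / x := by
  obtain ⟨ck, Ck, L0, hck, hCk, hL0, hker⟩ := hk
  obtain ⟨Cf, e0, hCf, he0, hfirst⟩ := hf hRH
  obtain ⟨C, b0, hC, hb0, hb01, hrat⟩ := hr hRH (δ / 16) (by positivity) (by linarith)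
  set K : ℝ := 2 * Ck * C * (∫ x : ℝ, ((1 + |x|) ^ 7)⁻¹) with hK
  set W : ℝ := ∫ t : ℝ, (1 + |t|) ^ (1 - δ / 16) / (1 / 4 + t ^ 2) with hW
  have hW0 : 0 ≤ W := integral_nonneg fun t => by positivity
  have ev : ∀ᶠ x : ℝ in atTop, (K * x * (2 * x) ^ C * Real.exp (-(x ^ δ) / 8)) ^ 2 ≤ 1 / x ∧
      36 * C * x ^ (-(δ / 2)) * Real.log (x ^ (1 + δ)) ≤ ck ∧ 36 * C ≤ x ^ δ / 8 ∧ max L0 2 ≤ x ^ (1 + δ) ∧
      1 / e0 + 1 / b0 + 4 ≤ x := by
    refine (small_exp hδ).and ((log_small hδ hck).and (Filter.Eventually.and ?_ (Filter.Eventually.and ?_ ?_)))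
    · filter_upwards [(tendsto_rpow_atTop hδ).eventually_ge_atTop (288 * C)] with x hx
      linarith
    · exact (tendsto_rpow_atTop (by linarith : 0 < 1 + δ)).eventually_ge_atTop _
    · exact eventually_ge_atTop _
  obtain ⟨X1, hX1⟩ := eventually_atTop.1 ev
  refine ⟨Cf + W + 1, max X1 1, by positivity, le_max_right _ _, fun x hx N hN => ?_⟩
  obtain ⟨h1, h2, h3, h4, h5⟩ := hX1 x ((le_max_left _ _).trans hx)
  have hx0 : 0 < x := lt_of_lt_of_le one_pos ((le_max_right _ _).trans hx)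
  set ε : ℝ := 1 / x with hε
  have hε0 : 0 < ε := by positivity
  have p1 : 0 < 1 / e0 := by positivity
  have p2 : 0 < 1 / b0 := by positivity
  have hεe : ε ≤ e0 := by
    rw [hε, div_le_iff₀ hx0]
    have : 1 / e0 ≤ x := by linarith
    rw [div_le_iff₀ he0] at this
    linarith
  have hεb : ε / 2 ≤ b0 := by
    have h6 : 1 / b0 ≤ x := by linarith
    rw [div_le_iff₀ hb0] at h6
    have h7 : ε ≤ b0 := by
      rw [hε, div_le_iff₀ hx0]; linarith
    linarith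
  have hε4 : ε ≤ 1 / 4 := by
    rw [hε, div_le_iff₀ hx0]; linarith
  have hpow : ∀ p : ℝ, ε ^ (-p) = x ^ p := by
    intro p
    rw [hε, Real.rpow_neg (by positivity), one_div, Real.inv_rpow hx0.le, inv_inv]
  have hpow' : ∀ p : ℝ, ε ^ p = x ^ (-p) := by
    intro p
    rw [← hpow (-p), neg_neg]
  set L : ℝ := x ^ (1 + δ) with hL
  have hLε : L = ε ^ (-(1 + δ)) := by rw [hpow]
  have hL2 : 2 ≤ L := (le_max_right _ _).trans h4
  have hlog : 0 < Real.log L := Real.log_pos (by linarith)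
  obtain ⟨m, hm0, hm1, hm2, hm3⟩ := hker L ((le_max_left _ _).trans h4)
  have hdec : ∀ y : ℝ, KL ck L y ≤ L ^ 8 / (1 + |y|) ^ 8 := by
    intro y
    unfold KL
    have q1 : Real.exp (-(ck * min |y| L / Real.log L)) ≤ 1 := by
      rw [Real.exp_le_one_iff]
      have : 0 ≤ min |y| L := le_min (abs_nonneg _) (by linarith)
      have : 0 ≤ ck * min |y| L / Real.log L := by positivity
      linarith
    have q2 : ((1 + |y|) / L) ^ 8 ≤ (1 + |y| / L) ^ 8 := by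
      have : (1 + |y|) / L ≤ 1 + |y| / L := by
        rw [add_div]
        have : 1 / L ≤ 1 := by rw [div_le_one (by linarith)]; linarith
        linarith
      gcongr
    rw [div_le_div_iff₀ (by positivity) (by positivity)]
    rw [div_pow, div_le_iff₀ (by positivity)] at q2
    calc Real.exp (-(ck * min |y| L / Real.log L)) * (1 + |y|) ^ 8 ≤ 1 * (1 + |y|) ^ 8 := by gcongr
      _ = (1 + |y|) ^ 8 := one_mul _
      _ ≤ _ := by linarith
  have hKL0 : ∀ y : ℝ, 0 ≤ KL ck L y := fun y => by unfold KL; positivity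
  obtain ⟨a, ha'⟩ := ha hRH ε L (Ck * L ^ 8) m hε0 hε4 (by linarith) hm0 hm1 (fun z hz => by
      refine (hm2 z hz).trans ?_
      have q1 : Real.exp (-(z.re / 2)) ≤ 1 := by rw [Real.exp_le_one_iff]; linarith
      calc Ck * Real.exp (-(z.re / 2)) * KL ck L z.im ≤ Ck * 1 * (L ^ 8 / (1 + |z.im|) ^ 8) := by
            have := hdec z.im
            have := hKL0 z.im
            gcongr
        _ = _ := by ring) (fun z hz => by
      refine (hm3 z hz).trans ?_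
      calc Ck * Real.exp (-z.re) * KL ck L z.im ≤ Ck * Real.exp (-z.re) * (L ^ 8 / (1 + |z.im|) ^ 8) := by
            have := hdec z.im
            gcongr
        _ = _ := by ring) N hN
  refine (dd_le N a).trans ?_
  have hcond1 : 36 * C ≤ ε ^ (-δ) / 8 := by rw [hpow]; exact h3
  have hcond2 : 36 * C * ε ^ (δ / 2) * Real.log L ≤ ck := by rw [hpow']; exact h2
  set S : ℝ := K * (1 / ε) * (ε / 2) ^ (-C) * Real.exp (-(ε ^ (-δ)) / 8) with hS
  have hS2 : S ^ 2 ≤ 1 / x := by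
    have e1 : (ε / 2) ^ (-C) = (2 * x) ^ C := by
      rw [Real.rpow_neg (by positivity), ← Real.inv_rpow (by positivity)]
      congr 1
      rw [hε]; field_simp
    have e2 : 1 / ε = x := by rw [hε]; field_simp
    rw [hS, e1, e2, hpow]
    exact h1
  have hsec := fun t : ℝ => second (η := δ / 16) (by positivity) (by linarith) hC hrat hCk hm2 hε0 hεb (by ring) hLε hlog hcond1 hcond2 t
  obtain ⟨hint, hbound⟩ := hfirst ε hε0 hεe
  have hSnn : 0 ≤ S := by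
    have : 0 ≤ ∫ x : ℝ, ((1 + |x|) ^ 7)⁻¹ := integral_nonneg fun x => by positivity
    rw [hS, hK]; positivity
  have hpt : ∀ t : ℝ, ig N a t ≤ 2 * (‖1 - riemannZeta (1 / 2 + t * I) * fz (1 / 2 + ε + t * I)‖ ^ 2 / (1 / 4 + t ^ 2)) +
      2 * S ^ 2 * ((1 + |t|) ^ (1 - δ / 16) / (1 / 4 + t ^ 2)) := by
    intro t
    unfold ig
    rw [ha' t]
    set Q : ℂ := 1 / (2 * Real.pi) * ∫ y : ℝ, m (((L * ε / 2 : ℝ) : ℂ) + y * I) / (((L * ε / 2 : ℝ) : ℂ) + y * I) *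
        fz (1 / 2 + ε + t * I - (((L * ε / 2 : ℝ) : ℂ) + y * I) / L) with hQ
    have q1 : ‖riemannZeta (1 / 2 + t * I)‖ * ‖Q‖ ≤ S * (1 + |t|) ^ ((1 - δ / 16) / 2) := hsec t
    have e1 : 1 - riemannZeta (1 / 2 + t * I) * (fz (1 / 2 + ε + t * I) - Q) =
      (1 - riemannZeta (1 / 2 + t * I) * fz (1 / 2 + ε + t * I)) + riemannZeta (1 / 2 + t * I) * Q := by ring
    rw [e1]
    set P : ℂ := 1 - riemannZeta (1 / 2 + t * I) * fz (1 / 2 + ε + t * I)
    have q2 : ‖P + riemannZeta (1 / 2 + t * I) * Q‖ ^ 2 ≤ 2 * ‖P‖ ^ 2 + 2 * (S ^ 2 * (1 + |t|) ^ (1 - δ / 16)) := by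
      have q3 : ‖P + riemannZeta (1 / 2 + t * I) * Q‖ ≤ ‖P‖ + ‖riemannZeta (1 / 2 + t * I)‖ * ‖Q‖ := by
        rw [← norm_mul]; exact norm_add_le _ _
      have q4 : (‖riemannZeta (1 / 2 + t * I)‖ * ‖Q‖) ^ 2 ≤ S ^ 2 * (1 + |t|) ^ (1 - δ / 16) := by
        have e2 : (1 + |t|) ^ (1 - δ / 16) = ((1 + |t|) ^ ((1 - δ / 16) / 2)) ^ 2 := by
          rw [← Real.rpow_natCast ((1 + |t|) ^ ((1 - δ / 16) / 2)) 2, ← Real.rpow_mul (by positivity)]
          congr 1; push_cast; ring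
        rw [e2, ← mul_pow]
        gcongr
      have q5 : ‖P + riemannZeta (1 / 2 + t * I) * Q‖ ^ 2 ≤ (‖P‖ + ‖riemannZeta (1 / 2 + t * I)‖ * ‖Q‖) ^ 2 := by gcongr
      nlinarith [sq_nonneg (‖P‖ - ‖riemannZeta (1 / 2 + t * I)‖ * ‖Q‖)]
    calc ‖P + riemannZeta (1 / 2 + t * I) * Q‖ ^ 2 / (1 / 4 + t ^ 2) ≤ (2 * ‖P‖ ^ 2 + 2 * (S ^ 2 * (1 + |t|) ^ (1 - δ / 16))) / (1 / 4 + t ^ 2) := by
          gcongr
      _ = _ := by ring
  have hwi := weight_int (p := 1 - δ / 16) (by linarith) (by linarith)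
  have hle : ∫ t : ℝ, ig N a t ≤ 2 * (Cf * ε) + 2 * S ^ 2 * W := by
    calc ∫ t : ℝ, ig N a t ≤ ∫ t : ℝ, (2 * (‖1 - riemannZeta (1 / 2 + t * I) * fz (1 / 2 + ε + t * I)‖ ^ 2 / (1 / 4 + t ^ 2)) +
          2 * S ^ 2 * ((1 + |t|) ^ (1 - δ / 16) / (1 / 4 + t ^ 2))) := by
          refine integral_mono_of_nonneg (Eventually.of_forall fun t => ?_) ((hint.const_mul 2).add (hwi.const_mul _))
            (Eventually.of_forall hpt)
          simp only [Pi.zero_apply]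
          unfold ig
          positivity
      _ = 2 * (∫ t : ℝ, ‖1 - riemannZeta (1 / 2 + t * I) * fz (1 / 2 + ε + t * I)‖ ^ 2 / (1 / 4 + t ^ 2)) + 2 * S ^ 2 * W := by
          rw [integral_add (hint.const_mul 2) (hwi.const_mul _), integral_const_mul, integral_const_mul]
      _ ≤ _ := by linarith
  have hfin : ∫ t : ℝ, ig N a t ≤ 2 * (Cf + W) / x := by
    have e3 : ε = 1 / x := hε
    have h8 : 2 * S ^ 2 * W ≤ 2 * (1 / x) * W := by gcongr
    calc ∫ t : ℝ, ig N a t ≤ 2 * (Cf * ε) + 2 * S ^ 2 * W := hle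
      _ ≤ 2 * (Cf * (1 / x)) + 2 * (1 / x) * W := by rw [← e3] at *; linarith
      _ = 2 * (Cf + W) / x := by ring
  unfold err
  have h9 : 1 / (2 * Real.pi) * ∫ t : ℝ, ig N a t ≤ 1 / (2 * Real.pi) * (2 * (Cf + W) / x) := by gcongr
  have h10 : 1 / (2 * Real.pi) ≤ 1 / 2 := by
    apply one_div_le_one_div_of_le (by norm_num)
    linarith [Real.pi_gt_three]
  have h11 : 0 ≤ 2 * (Cf + W) / x := by positivity
  calc 1 / (2 * Real.pi) * ∫ t : ℝ, ig N a t ≤ 1 / 2 * (2 * (Cf + W) / x) := h9.trans (by gcongr)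
    _ = (Cf + W) / x := by ring
    _ ≤ _ := div_le_div_of_nonneg_right (by linarith) hx0.le

/-- the upper bound -/
theorem upper (hk : S_kern) (ha : S_app) (hf : S_first) (hr : S_ratio) (hRH : RiemannHypothesis) {δ : ℝ}
    (hδ : 0 < δ) (hδ1 : δ ≤ 1) : ∃ C : ℝ, 0 < C ∧ ∀ N : ℕ, 2 ≤ N → dd N ≤ C * Real.log N ^ (-(1 - δ)) := by
  obtain ⟨C, X0, hC, hX0, h⟩ := upper_x hk ha hf hr hRH hδ hδ1
  -- small N
  set E0 : ℝ := err 0 (fun _ => 0) with hE0
  have hE : ∀ N : ℕ, dd N ≤ E0 := by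
    intro N
    refine (dd_le N (fun _ => 0)).trans (le_of_eq ?_)
    rw [hE0]
    unfold err ig DP
    simp
  have hE0n : 0 ≤ E0 := err_nn _ _
  refine ⟨C + E0 * X0 ^ (1 + δ) + E0 * 2, by positivity, fun N hN => ?_⟩
  have hN2 : (2 : ℝ) ≤ N := by exact_mod_cast hN
  have hlog2 : 0.69 ≤ Real.log N := by
    have h1 : Real.log 2 ≤ Real.log N := Real.log_le_log (by norm_num) hN2
    have := Real.log_two_gt_d9
    linarith
  have hlogpos : 0 < Real.log N := by linarith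
  rcases le_or_gt (X0 ^ (1 + δ)) (Real.log N) with hc | hc
  · -- large N
    set x : ℝ := Real.log N ^ (1 / (1 + δ)) with hx
    have hδ' : 0 < 1 + δ := by linarith
    have hX0' : X0 ≤ x := by
      have h1 : (X0 ^ (1 + δ)) ^ (1 / (1 + δ)) ≤ x := Real.rpow_le_rpow (by positivity) hc (by positivity)
      rw [← Real.rpow_mul (by linarith), mul_one_div_cancel hδ'.ne', Real.rpow_one] at h1
      exact h1
    have hxp : x ^ (1 + δ) = Real.log N := by
      rw [hx, ← Real.rpow_mul hlogpos.le, one_div_mul_cancel hδ'.ne', Real.rpow_one]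
    have h2 := h x hX0' N (by
      rw [hxp]
      exact Real.log_le_log (by linarith) (by linarith))
    have hlog1 : 1 ≤ Real.log N := by
      refine le_trans ?_ hc
      exact Real.one_le_rpow hX0 hδ'.le
    have h3 : C / x ≤ C * Real.log N ^ (-(1 - δ)) := by
      rw [div_eq_mul_inv, hx, ← Real.rpow_neg hlogpos.le]
      refine mul_le_mul_of_nonneg_left (Real.rpow_le_rpow_of_exponent_le hlog1 ?_) hC.le
      rw [neg_le_neg_iff, le_div_iff₀ hδ']
      nlinarith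
    have h4 : 0 < Real.log N ^ (-(1 - δ)) := by positivity
    have h5 : 0 ≤ (E0 * X0 ^ (1 + δ) + E0 * 2) * Real.log N ^ (-(1 - δ)) := by positivity
    calc dd N ≤ C / x := h2
      _ ≤ C * Real.log N ^ (-(1 - δ)) := h3
      _ ≤ _ := by nlinarith
  · -- small N
    have h1 : 1 ≤ (X0 ^ (1 + δ) + 2) * Real.log N ^ (-(1 - δ)) := by
      rw [Real.rpow_neg hlogpos.le, ← div_eq_mul_inv, le_div_iff₀ (by positivity), one_mul]
      rcases le_or_gt 1 (Real.log N) with h2 | h2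
      · calc Real.log N ^ (1 - δ) ≤ Real.log N ^ (1 : ℝ) := Real.rpow_le_rpow_of_exponent_le h2 (by linarith)
          _ = Real.log N := Real.rpow_one _
          _ ≤ _ := by linarith
      · calc Real.log N ^ (1 - δ) ≤ 1 := Real.rpow_le_one hlogpos.le h2.le (by linarith)
          _ ≤ _ := by
            have : 0 < X0 ^ (1 + δ) := by positivity
            linarith
    have h4 : 0 < Real.log N ^ (-(1 - δ)) := by positivity
    calc dd N ≤ E0 := hE N
      _ = E0 * 1 := (mul_one _).symm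
      _ ≤ E0 * ((X0 ^ (1 + δ) + 2) * Real.log N ^ (-(1 - δ))) := mul_le_mul_of_nonneg_left h1 hE0n
      _ ≤ _ := by nlinarith [mul_pos hC h4]

end Pool.Agent.N967
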